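import Mathlib
import Pool.Agent.Work.BV.Additive
import Pool.Agent.Work.BV.Defs
import Pool.Agent.Work.BV.DivSum
import Pool.Agent.Work.BV.Farey
import Pool.Agent.Work.BV.GaussLS
import Pool.Agent.Work.BV.Vaughan
import Pool.Agent.Work.MP_92f640_nt.Defs
import Pool.Agent.Work.MP_aac176_nt.Div

section
/-! # Half level: definitions

`e t = exp (2 π i t)` is from `BV.Defs`. All limits of summation are natural numbers. -/

namespace Pool.Agent.HL

open Finset Pool.Agent.BV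
open scoped ArithmeticFunction.vonMangoldt ArithmeticFunction.Moebius

noncomputable section

/-- the von Mangoldt function on the integers coprime to `q` -/
def FL (q n : ℕ) : ℂ := if n.Coprime q then ((Λ n : ℝ) : ℂ) else 0

/-- the Ramanujan sum `c_s(n)` -/
def ram (s n : ℕ) : ℂ := ∑ b ∈ (range s).filter (fun b => b.Coprime s), e (n * ((b : ℝ) / s))

/-- the model of the von Mangoldt function -/
def TM (q Q n : ℕ) : ℂ :=
  if n.Coprime q then ((q : ℂ) / (q.totient : ℂ)) *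
    ∑ s ∈ (Icc 1 Q).filter (fun s => s.Coprime q), ((μ s : ℤ) : ℂ) / (s.totient : ℂ) * ram s n
  else 0

/-- the truncated singular series of `q m` -/
def Sg (q Q m : ℕ) : ℝ :=
  ∑ s ∈ (Icc 1 Q).filter (fun s => s.Coprime q),
    ((μ s : ℤ) : ℝ) ^ 2 / (s.totient : ℝ) ^ 2 * (ram s (q * m)).re

/-- additive convolution -/
def cv (f g : ℕ → ℂ) (n : ℕ) : ℂ := ∑ k ∈ Ico 1 n, f k * g (n - k)

/-- the sum over residue classes `a` mod `q` of the square of the exponential sum of `f` over the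
class -/
def VV (q x : ℕ) (f : ℕ → ℂ) (α : ℝ) : ℝ :=
  ∑ a ∈ range q, ‖∑ n ∈ (Icc 1 x).filter (fun n => n % q = a), f n * e (n * α)‖ ^ 2

/-- twists mod `q`: periodic, supported on the integers coprime to `q`, of `ℓ²` norm at most `1` -/
structure Tw (q : ℕ) (φ : ℕ → ℂ) : Prop where
  per : ∀ n, φ n = φ (n % q)
  cop : ∀ n, ¬ n.Coprime q → φ n = 0
  l2 : ∑ a ∈ range q, ‖φ a‖ ^ 2 ≤ 1

/-- bound for geometric sums with `Y` terms and ratio `e β` -/
def gm (Y β : ℝ) : ℝ := if 2 * Y * |β - round β| ≤ 1 then Y else 1 / (2 * |β - round β|)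

/-- the geometric grid -/
def gr (η : ℝ) (i : ℕ) : ℕ := ⌊(1 + η) ^ i⌋₊

end

end Pool.Agent.HL
end

section
/-! # Level theta: definitions (plan note LevelTheta on MP_92f640_nt) -/

namespace Pool.Agent.HS

open Finset Pool.Agent.BV Pool.Agent.HL
open scoped ArithmeticFunction.vonMangoldt ArithmeticFunction.Moebius

noncomputable section

open Classical in
/-- indicator of the integers all of whose prime factors are `≥ y` -/
def rho (y n : ℕ) : ℝ := if ∀ p : ℕ, p.Prime → p ∣ n → y ≤ p then 1 else 0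

/-- sifted function with sieve weights `cc` -/
def bb (cc : ℕ → ℝ) (y n : ℕ) : ℝ := ∑ d ∈ n.divisors, cc d * rho y (n / d)

open Classical in
/-- the minorant of the indicator of the primes -/
def aa (cc : ℕ → ℝ) (z n : ℕ) : ℝ := if Squarefree n then bb cc z n else 0

/-- sieve weights: supported on squarefree `z`-rough integers `≤ D0`, bounded by `1` -/
structure Wt (z D0 : ℕ) (cc : ℕ → ℝ) : Prop where
  sf : ∀ d, cc d ≠ 0 → Squarefree d ∧ ∀ p : ℕ, p.Prime → p ∣ d → z ≤ p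
  le : ∀ d, cc d ≠ 0 → d ≤ D0
  bd : ∀ d, |cc d| ≤ 1

/-- `E d t` interpolates `cc (d * p)` at `p = t`, with bounded variation in `t` -/
structure WtE (z : ℕ) (V0 : ℝ) (cc : ℕ → ℝ) (E : ℕ → ℕ → ℝ) : Prop where
  bd : ∀ d t, |E d t| ≤ 1
  eq : ∀ d p : ℕ, Squarefree d → (∀ p' : ℕ, p'.Prime → p' ∣ d → z ≤ p') → p.Prime → z ≤ p → ¬ p ∣ d →
    E d p = cc (d * p)
  tv : ∀ d N : ℕ, ∑ t ∈ range N, |E d (t + 1) - E d t| ≤ V0

open Classical in
/-- the density of `aa cc z n * log n` -/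
def KK (cc : ℕ → ℝ) (E : ℕ → ℕ → ℝ) (z n : ℕ) : ℝ :=
  ∑ m ∈ (Icc 1 (n / z)).filter (fun m => Squarefree m ∧ ∀ p : ℕ, p.Prime → p ∣ m → z ≤ p),
    (1 / (m : ℝ)) * ∑ d ∈ m.divisors, (cc d + E d (n / m))

/-- squarefree integers with all prime factors in `[y, z)` -/
def CC (y z c : ℕ) : Prop := Squarefree c ∧ ∀ p : ℕ, p.Prime → p ∣ c → y ≤ p ∧ p < z

open Classical in
/-- coefficient of the short variable: smallest prime factor in the `j`-th cell -/
def AJ (y z w : ℕ) (η : ℝ) (j c : ℕ) : ℝ :=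
  if CC y z c ∧ w ≤ c ∧ c / c.minFac < w ∧ gr η j ≤ c.minFac ∧ c.minFac < gr η (j + 1) then
    ((μ c : ℤ) : ℝ) else 0

/-- `exp (√(log x))`, rounded up -/
def y0 (x : ℕ) : ℕ := ⌈Real.exp (Real.sqrt (Real.log x))⌉₊

/-- `x^(1-θ)`, rounded up -/
def zx (θ : ℝ) (x : ℕ) : ℕ := ⌈(x : ℝ) ^ (1 - θ)⌉₊

/-- `x^κ`, rounded up -/
def wk (κ : ℝ) (x : ℕ) : ℕ := ⌈(x : ℝ) ^ κ⌉₊

/-- number of cells for the smallest prime factor -/
def JJ (x B : ℕ) : ℕ := ⌈2 * (Real.log x) ^ (B + 1)⌉₊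

/-- controlled functions: type I part of level `D`, `J` type II parts with a short variable in
`[w₁, w₂]`, and an error -/
structure Ctl (x D w₁ w₂ J : ℕ) (A B : ℕ → ℕ → ℝ) (β err f : ℕ → ℝ) : Prop where
  hβ : ∀ m, |β m| ≤ 1
  hβD : ∀ m, D < m → β m = 0
  hA : ∀ j c, |A j c| ≤ 1
  hAs : ∀ j c, A j c ≠ 0 → w₁ ≤ c ∧ c ≤ w₂
  hB : ∀ j l, |B j l| ≤ (l.divisors.card : ℝ) ^ 2
  eq : ∀ n, 1 ≤ n → n ≤ x → f n = ∑ m ∈ n.divisors, β m +
    ∑ j ∈ range J, ∑ p ∈ n.divisorsAntidiagonal, A j p.1 * B j p.2 + err n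

/-- the values of a function on the integers coprime to `q` -/
def FA (q : ℕ) (f : ℕ → ℝ) (n : ℕ) : ℂ := if n.Coprime q then ((f n : ℝ) : ℂ) else 0

/-- restriction to `(x/8, x]` -/
def cut (x : ℕ) (f : ℕ → ℝ) (n : ℕ) : ℝ := if x / 8 < n ∧ n ≤ x then f n else 0

/-- functions of bounded variation on `[0, x]` -/
structure BVar (x : ℕ) (V : ℝ) (v : ℕ → ℝ) : Prop where
  bd : ∀ n, |v n| ≤ V
  tv : ∑ n ∈ range x, |v (n + 1) - v n| ≤ V

/-- a character is bad for the family `A` -/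
def BadF (x w₁ w₂ J B9 : ℕ) (A : ℕ → ℕ → ℝ) {r : ℕ} (χ : DirichletCharacter ℂ r) : Prop :=
  ∃ j < J, ∃ u : ℕ, w₁ ≤ u ∧ u ≤ w₂ ∧
    (u : ℝ) / (Real.log x) ^ B9 < ‖∑ c ∈ Icc 1 u, ((A j c : ℝ) : ℂ) * χ (c : ZMod r)‖

/-- `q` is good for the family `A`: no bad primitive character of conductor `> R0` dividing `q s`,
`s ≤ S1` -/
def GoodF (x w₁ w₂ J B9 : ℕ) (A : ℕ → ℕ → ℝ) (R0 S1 : ℝ) (q : ℕ) : Prop :=
  ∀ s : ℕ, 1 ≤ s → (s : ℝ) ≤ S1 → ∀ r : ℕ, r ∣ q * s → R0 < r → ∀ χ ∈ prim r,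
    ¬ BadF x w₁ w₂ J B9 A χ

/-- admissible weights: level `x^(1-θ/2)`, minorant of the primes, density `≥ c₀ / log` -/
structure Adm (θ c₀ V0 : ℝ) (x : ℕ) (cc : ℕ → ℝ) (E : ℕ → ℕ → ℝ) : Prop where
  wt : Wt (zx θ x) ⌈(x : ℝ) ^ (1 - θ / 2)⌉₊ cc
  wte : WtE (zx θ x) V0 cc E
  minor : ∀ n : ℕ, x / 8 < n → n ≤ x → aa cc (zx θ x) n ≤ if n.Prime then 1 else 0
  dens : ∀ n : ℕ, x / 8 < n → n ≤ x → c₀ ≤ KK cc E (zx θ x) n

end

end Pool.Agent.HS
end

section
/-! # Range `q ≤ x^(10/11-ε)`: definitions (plan note of helper55, 10:40, on MP_92f640_nt)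

Sifting limit `z = x^(2/11) = zx (9/11) x`, level `x^(6/11)`. -/

namespace Pool.Agent.HN

open Finset Pool.Agent.BV Pool.Agent.HL Pool.Agent.HS

noncomputable section

/-- the bilinear sum over the residue classes mod `m` -/
def VB (m : ℕ) (X Y : Finset ℕ) (A B : ℕ → ℂ) (α : ℝ) : ℝ :=
  ∑ a ∈ range m, ‖∑ c ∈ X, ∑ l ∈ Y, if (c * l) % m = a then A c * B l * e ((c * l : ℕ) * α) else 0‖ ^ 2

/-- integers in `[1, X]` coprime to `m` -/
def Cop (m X : ℕ) : Finset ℕ := (Icc 1 X).filter (fun c => c.Coprime m)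

/-- the number of solutions of the three congruences, weighted by `τ(l₂)⁴` -/
def N4 (m s₁ s₂ X₁ X₂ : ℕ) : ℝ :=
  ∑ c₁ ∈ Cop m X₁, ∑ c₂ ∈ Cop m X₁, ∑ l₁ ∈ Cop m X₂, ∑ l₂ ∈ Cop m X₂,
    if c₁ ≡ c₂ [MOD s₁ * s₂] ∧ l₁ ≡ l₂ [MOD s₁ * s₂] ∧ c₁ * l₁ ≡ c₂ * l₂ [MOD s₂ * m] then
      (l₂.divisors.card : ℝ) ^ 4 else 0

/-- integers `i ≠ 0`, `|i| ≤ N` -/
def Nz (N : ℕ) : Finset ℤ := (Icc (-(N : ℤ)) N).filter (fun i => i ≠ 0)

open Classical in
/-- the essential part of the count: `m ∣ j c - i l ≠ 0`, `1 ≤ |i| ≤ X₁/S`, `1 ≤ |j| ≤ X₂/S` -/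
def EC (m S X₁ X₂ : ℕ) : ℝ :=
  ∑ l ∈ Cop m X₂, (l.divisors.card : ℝ) ^ 4 * ∑ i ∈ Nz (X₁ / S),
    (((Nz (X₂ / S) ×ˢ Icc 1 X₁).filter (fun p : ℤ × ℕ =>
      p.1 * (p.2 : ℤ) ≠ i * (l : ℤ) ∧ (m : ℤ) ∣ p.1 * (p.2 : ℤ) - i * (l : ℤ))).card : ℝ)

/-- admissible weights: `z = x^(2/11)`, level `x^(6/11)`, minorant of the primes, density `≥ c₀ / log` -/
structure AdmN (c₀ V0 : ℝ) (x : ℕ) (cc : ℕ → ℝ) (E : ℕ → ℕ → ℝ) : Prop where
  wt : Wt (zx (9 / 11) x) ⌈(x : ℝ) ^ (6 / 11 : ℝ)⌉₊ cc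
  wte : WtE (zx (9 / 11) x) V0 cc E
  minor : ∀ n : ℕ, x / 8 < n → n ≤ x → aa cc (zx (9 / 11) x) n ≤ if n.Prime then 1 else 0
  dens : ∀ n : ℕ, x / 8 < n → n ≤ x → c₀ ≤ KK cc E (zx (9 / 11) x) n

/-- existence of admissible weights for all large `x` -/
def VLowN (c₀ V0 : ℝ) : Prop := ∃ x₁ : ℕ, ∀ x : ℕ, x₁ ≤ x → ∃ (cc : ℕ → ℝ) (E : ℕ → ℕ → ℝ),
  AdmN c₀ V0 x cc E

end

end Pool.Agent.HN
end

section
/-! # Two thirds: definitions

Plan note TwoThirds on MP_92f640_nt. `L = log x`, `w = wx x = ⌊x^(1/3)⌋₊`, `κ = kap ε`. -/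

namespace Pool.Agent.HT

open Finset Pool.Agent.BV Pool.Agent.HL
open scoped ArithmeticFunction.vonMangoldt ArithmeticFunction.Moebius ArithmeticFunction.zeta

noncomputable section

/-- coefficients bounded by a power of the divisor function -/
def Bd (f : ArithmeticFunction ℝ) : Prop :=
  ∀ n : ℕ, |f n| ≤ 12 * (n.divisors.card : ℝ) ^ 5 * (1 + Real.log n)

/-- coefficients on a short interval `[1, T]` -/
structure Tiny (T : ℕ) (f : ArithmeticFunction ℝ) : Prop where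
  bd : Bd f
  supp : ∀ n, T < n → f n = 0

end

end Pool.Agent.HT
end

section
/-! # Module TauFour

`∑_{n ≤ N} τ(n)^(j+1) ≤ ∑_{ab ≤ N} τ(a)^j τ(b)^j`; iterate as in `DivSum_tausq` (`H = ∑_{i ≤ N} 1/i ≤ 1 + log N`):
`∑_{n ≤ N} τ(n)^4 ≤ N H^15`. -/

namespace Pool.Agent.HL

open Finset Pool.Agent.BV

/-- one step of the iteration, before summation -/
lemma TauFour_step (j n : ℕ) : (n.divisors.card : ℝ) ^ (j + 1) ≤
    ∑ p ∈ n.divisorsAntidiagonal, (p.1.divisors.card : ℝ) ^ j * (p.2.divisors.card : ℝ) ^ j := by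
  rw [pow_succ]
  nth_rewrite 2 [DivSum_tau]
  rw [mul_sum]
  apply sum_le_sum
  intro p hp
  rw [mul_one, ← (Nat.mem_divisorsAntidiagonal.mp hp).1, ← mul_pow]
  exact pow_le_pow_left₀ (by positivity) (DivSum_tauMul _ _) j

lemma TauFour_R (j N : ℕ) :
    ∑ n ∈ Icc 1 N, (n.divisors.card : ℝ) ^ j * ((n : ℝ))⁻¹ ≤
      (∑ i ∈ Icc 1 N, ((i : ℝ))⁻¹) ^ (2 ^ j) := by
  induction j with
  | zero => simp
  | succ j ih =>
    have hH : 0 ≤ ∑ n ∈ Icc 1 N, (n.divisors.card : ℝ) ^ j * ((n : ℝ))⁻¹ := by positivity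
    calc ∑ n ∈ Icc 1 N, (n.divisors.card : ℝ) ^ (j + 1) * ((n : ℝ))⁻¹
        ≤ ∑ n ∈ Icc 1 N, ∑ p ∈ n.divisorsAntidiagonal,
            ((p.1.divisors.card : ℝ) ^ j * ((p.1 : ℝ))⁻¹) *
              ((p.2.divisors.card : ℝ) ^ j * ((p.2 : ℝ))⁻¹) := by
          apply sum_le_sum
          intro n _
          refine (mul_le_mul_of_nonneg_right (TauFour_step j n) (by positivity)).trans (le_of_eq ?_)
          rw [sum_mul]
          apply sum_congr rfl
          intro p hp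
          rw [← (Nat.mem_divisorsAntidiagonal.mp hp).1, Nat.cast_mul, mul_inv]
          ring
      _ = ∑ d ∈ Icc 1 N, ∑ m ∈ Icc 1 (N / d), ((d.divisors.card : ℝ) ^ j * ((d : ℝ))⁻¹) *
              ((m.divisors.card : ℝ) ^ j * ((m : ℝ))⁻¹) :=
          DivSum_pairs N (fun a b => ((a.divisors.card : ℝ) ^ j * ((a : ℝ))⁻¹) *
              ((b.divisors.card : ℝ) ^ j * ((b : ℝ))⁻¹))
      _ ≤ (∑ n ∈ Icc 1 N, (n.divisors.card : ℝ) ^ j * ((n : ℝ))⁻¹) *
            ∑ n ∈ Icc 1 N, (n.divisors.card : ℝ) ^ j * ((n : ℝ))⁻¹ := by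
          rw [sum_mul]
          apply sum_le_sum
          intro d _
          rw [← mul_sum]
          apply mul_le_mul_of_nonneg_left _ (by positivity)
          apply sum_le_sum_of_subset_of_nonneg (Icc_subset_Icc_right (Nat.div_le_self N d))
          intros; positivity
      _ ≤ (∑ i ∈ Icc 1 N, ((i : ℝ))⁻¹) ^ (2 ^ j) * (∑ i ∈ Icc 1 N, ((i : ℝ))⁻¹) ^ (2 ^ j) :=
          mul_le_mul ih ih hH (by positivity)
      _ = _ := by rw [← pow_add, pow_succ]; ring_nf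

lemma TauFour_T (j N K : ℕ) (h : N ≤ K) :
    ∑ n ∈ Icc 1 N, (n.divisors.card : ℝ) ^ j ≤
      N * (∑ i ∈ Icc 1 K, ((i : ℝ))⁻¹) ^ (2 ^ j - 1) := by
  induction j generalizing N with
  | zero => simp
  | succ j ih =>
    have hH : 0 ≤ ∑ i ∈ Icc 1 K, ((i : ℝ))⁻¹ := by positivity
    calc ∑ n ∈ Icc 1 N, (n.divisors.card : ℝ) ^ (j + 1)
        ≤ ∑ n ∈ Icc 1 N, ∑ p ∈ n.divisorsAntidiagonal,
            (p.1.divisors.card : ℝ) ^ j * (p.2.divisors.card : ℝ) ^ j :=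
          sum_le_sum fun n _ => TauFour_step j n
      _ = ∑ d ∈ Icc 1 N, ∑ m ∈ Icc 1 (N / d),
            (d.divisors.card : ℝ) ^ j * (m.divisors.card : ℝ) ^ j :=
          DivSum_pairs N (fun a b => (a.divisors.card : ℝ) ^ j * (b.divisors.card : ℝ) ^ j)
      _ ≤ ∑ d ∈ Icc 1 N, ((N : ℝ) * (∑ i ∈ Icc 1 K, ((i : ℝ))⁻¹) ^ (2 ^ j - 1)) *
            ((d.divisors.card : ℝ) ^ j * ((d : ℝ))⁻¹) := by
          apply sum_le_sum
          intro d _
          rw [← mul_sum]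
          have h1 := ih (N / d) ((Nat.div_le_self N d).trans h)
          have h2 : ((N / d : ℕ) : ℝ) ≤ (N : ℝ) * ((d : ℝ))⁻¹ := by
            rw [← div_eq_mul_inv]; exact Nat.cast_div_le
          calc (d.divisors.card : ℝ) ^ j * ∑ m ∈ Icc 1 (N / d), (m.divisors.card : ℝ) ^ j
              ≤ (d.divisors.card : ℝ) ^ j *
                  (((N / d : ℕ) : ℝ) * (∑ i ∈ Icc 1 K, ((i : ℝ))⁻¹) ^ (2 ^ j - 1)) :=
                mul_le_mul_of_nonneg_left h1 (by positivity)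
            _ ≤ (d.divisors.card : ℝ) ^ j *
                  (((N : ℝ) * ((d : ℝ))⁻¹) * (∑ i ∈ Icc 1 K, ((i : ℝ))⁻¹) ^ (2 ^ j - 1)) := by
                apply mul_le_mul_of_nonneg_left _ (by positivity)
                exact mul_le_mul_of_nonneg_right h2 (by positivity)
            _ = _ := by ring
      _ = ((N : ℝ) * (∑ i ∈ Icc 1 K, ((i : ℝ))⁻¹) ^ (2 ^ j - 1)) *
            ∑ d ∈ Icc 1 N, (d.divisors.card : ℝ) ^ j * ((d : ℝ))⁻¹ := (mul_sum _ _ _).symm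
      _ ≤ ((N : ℝ) * (∑ i ∈ Icc 1 K, ((i : ℝ))⁻¹) ^ (2 ^ j - 1)) *
            (∑ i ∈ Icc 1 K, ((i : ℝ))⁻¹) ^ (2 ^ j) := by
          apply mul_le_mul_of_nonneg_left _ (by positivity)
          refine (TauFour_R j N).trans (pow_le_pow_left₀ (by positivity) ?_ _)
          exact sum_le_sum_of_subset_of_nonneg (Icc_subset_Icc_right h) (fun _ _ _ => by positivity)
      _ = _ := by
          rw [mul_assoc, ← pow_add]
          congr 2
          have : 1 ≤ 2 ^ j := Nat.one_le_two_pow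
          rw [pow_succ]
          omega

end Pool.Agent.HL
end

section
/-! # Module Coef: sizes of the coefficients

`|(f * g) n| ≤ ∑_{d ∣ n} |f d| |g (n/d)|`, `τ d ≤ τ n`, `log d ≤ log n` for `d ∣ n`.
`TauFour_T`, `TauFour_R` (HL/TauFour) for the moments, `divisor_bound` (MP_aac176_nt/Div). -/

namespace Pool.Agent.HT

open Finset Pool.Agent.BV Pool.Agent.HL

private lemma coef_H (x N : ℕ) (hx : 3 ≤ x) (hN : N ≤ x) :
    ∑ i ∈ Icc 1 N, ((i : ℝ))⁻¹ ≤ 2 * Real.log x := by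
  have h1 : ∑ i ∈ Icc 1 N, ((i : ℝ))⁻¹ ≤ ∑ i ∈ Icc 1 x, ((i : ℝ))⁻¹ :=
    sum_le_sum_of_subset_of_nonneg (Icc_subset_Icc_right hN) (fun _ _ _ => by positivity)
  have h2 := DivSum_H x
  have h3 := DivSum_log x hx
  linarith

theorem tau_sum (j : ℕ) : ∃ C : ℝ, 0 < C ∧ ∀ x N : ℕ, 3 ≤ x → N ≤ x →
    ∑ n ∈ Icc 1 N, (n.divisors.card : ℝ) ^ j ≤ C * N * (Real.log x) ^ (2 ^ j) := by
  refine ⟨2 ^ (2 ^ j), by positivity, ?_⟩
  intro x N hx hN
  have hl := DivSum_log x hx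
  refine (TauFour_T j N x hN).trans ?_
  have h1 := pow_le_pow_left₀ (by positivity) (coef_H x x hx le_rfl) (2 ^ j - 1)
  have h2 : (2 * Real.log x) ^ (2 ^ j - 1) ≤ (2 * Real.log x) ^ (2 ^ j) :=
    pow_le_pow_right₀ (by linarith) (Nat.sub_le _ _)
  calc (N : ℝ) * (∑ i ∈ Icc 1 x, ((i : ℝ))⁻¹) ^ (2 ^ j - 1) ≤ N * (2 * Real.log x) ^ (2 ^ j) :=
        mul_le_mul_of_nonneg_left (h1.trans h2) (by positivity)
    _ = _ := by rw [mul_pow]; ring

theorem tau_inv (j : ℕ) : ∃ C : ℝ, 0 < C ∧ ∀ x N : ℕ, 3 ≤ x → N ≤ x →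
    ∑ n ∈ Icc 1 N, (n.divisors.card : ℝ) ^ j / n ≤ C * (Real.log x) ^ (2 ^ j) := by
  refine ⟨2 ^ (2 ^ j), by positivity, ?_⟩
  intro x N hx hN
  have h0 := TauFour_R j N
  have h1 := pow_le_pow_left₀ (by positivity) (coef_H x N hx hN) (2 ^ j)
  simp_rw [div_eq_mul_inv]
  refine h0.trans (h1.trans (le_of_eq ?_))
  rw [mul_pow]

/-- moments of the divisor function, over an interval of length `H` by Cauchy -/
theorem tau_short (j : ℕ) : ∃ C : ℝ, 0 < C ∧ ∀ x a b : ℕ, 3 ≤ x → a ≤ b → b ≤ x →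
    ∑ n ∈ Ioc a b, (n.divisors.card : ℝ) ^ j ≤
      C * Real.sqrt ((b : ℝ) - a) * Real.sqrt x * (Real.log x) ^ (2 ^ (2 * j)) := by
  obtain ⟨C, hC, h⟩ := tau_sum (2 * j)
  refine ⟨Real.sqrt C, Real.sqrt_pos.2 hC, ?_⟩
  intro x a b hx hab hb
  have hl := DivSum_log x hx
  have hab' : (a : ℝ) ≤ b := by exact_mod_cast hab
  have h1 : (∑ n ∈ Ioc a b, (n.divisors.card : ℝ) ^ j) ^ 2 ≤
      ((b : ℝ) - a) * ∑ n ∈ Ioc a b, (n.divisors.card : ℝ) ^ (2 * j) := by
    have h2 := sum_mul_sq_le_sq_mul_sq (Ioc a b) (fun _ => (1 : ℝ))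
      (fun n : ℕ => (n.divisors.card : ℝ) ^ j)
    simp only [one_mul, one_pow, sum_const, Nat.card_Ioc, nsmul_eq_mul, mul_one] at h2
    rw [Nat.cast_sub hab] at h2
    refine h2.trans (le_of_eq ?_)
    congr 1
    apply sum_congr rfl
    intro n _
    rw [← pow_mul, mul_comm j 2]
  have h3 : ∑ n ∈ Ioc a b, (n.divisors.card : ℝ) ^ (2 * j) ≤
      ∑ n ∈ Icc 1 x, (n.divisors.card : ℝ) ^ (2 * j) := by
    apply sum_le_sum_of_subset_of_nonneg
    · intro n hn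
      rw [mem_Ioc] at hn
      rw [mem_Icc]
      omega
    · intros; positivity
  have h4 := h x x hx le_rfl
  have h5 : (∑ n ∈ Ioc a b, (n.divisors.card : ℝ) ^ j) ^ 2 ≤
      (Real.sqrt C * Real.sqrt ((b : ℝ) - a) * Real.sqrt x * (Real.log x) ^ (2 ^ (2 * j))) ^ 2 := by
    have e : (Real.sqrt C * Real.sqrt ((b : ℝ) - a) * Real.sqrt x *
        (Real.log x) ^ (2 ^ (2 * j))) ^ 2 =
        ((b : ℝ) - a) * (C * x * ((Real.log x) ^ (2 ^ (2 * j))) ^ 2) := by
      rw [mul_pow, mul_pow, mul_pow, Real.sq_sqrt hC.le, Real.sq_sqrt (by linarith),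
        Real.sq_sqrt (by positivity)]
      ring
    rw [e]
    refine h1.trans (mul_le_mul_of_nonneg_left (h3.trans (h4.trans ?_)) (by linarith))
    apply mul_le_mul_of_nonneg_left _ (by positivity)
    have h6 : (1 : ℝ) ≤ (Real.log x) ^ (2 ^ (2 * j)) := one_le_pow₀ hl
    nlinarith
  exact (pow_le_pow_iff_left₀ (by positivity) (by positivity) two_ne_zero).1 h5

end Pool.Agent.HT
end

section
/-! # Module Landreau

Among the primes of `n` (with multiplicity) fewer than `k` have `p^k > n`. Write the product of the others as a product of as few as possible blocks `d` with `d^k ≤ n`: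
two blocks multiply to more than `n^(1/k)`, so there are at most `2k - 1` blocks; `τ` is submultiplicative: `τ(n) ≤ 2^k max τ(d)^(2k-1)`. (For `n = 1` trivial.) -/

namespace Pool.Agent.HN

open Finset

private theorem landreau_tau_mul (a b : ℕ) :
    (a * b).divisors.card ≤ a.divisors.card * b.divisors.card := by
  rw [Nat.divisors_mul]
  exact Finset.card_mul_le

private theorem landreau_tau_pos {a : ℕ} (ha : a ≠ 0) : 1 ≤ a.divisors.card :=
  Finset.card_pos.2 ⟨1, Nat.one_mem_divisors.2 ha⟩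

/-- Invariant: `m = B e` with `B` a product of `b` big primes and `c` blocks. -/
private theorem landreau_aux (k : ℕ) (n : ℕ) (hn : 1 ≤ n) (T : ℕ)
    (hT : ∀ d : ℕ, d ∣ n → d ^ k ≤ n → d.divisors.card ≤ T) (m : ℕ) (hm : m ∣ n) :
    ∃ b c B e : ℕ, m = B * e ∧ B.divisors.card ≤ 2 ^ b * T ^ c ∧
      (n + 1) ^ (2 * b + c) ≤ B ^ (2 * k) ∧ e ^ (2 * k) ≤ n := by
  induction m using Nat.recOnMul with
  | zero =>
    exfalso
    have := Nat.eq_zero_of_zero_dvd hm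
    omega
  | one =>
    exact ⟨0, 0, 1, 1, by simp, by simp, by simp, by simpa using hn⟩
  | prime p hp =>
    have h1 : (p.divisors.card : ℕ) ≤ 2 := by
      rw [hp.divisors, Finset.card_pair hp.one_lt.ne]
    by_cases hbig : p ^ k ≤ n
    · by_cases hmid : p ^ (2 * k) ≤ n
      · exact ⟨0, 0, 1, p, by simp, by simp, by simp, hmid⟩
      · refine ⟨0, 1, p, 1, by simp, by simpa using hT p hm hbig, ?_, by simpa using hn⟩
        simp only [Nat.mul_zero, Nat.zero_add, pow_one]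
        omega
    · refine ⟨1, 0, p, 1, by simp, by simpa using h1, ?_, by simpa using hn⟩
      have h2 : n + 1 ≤ p ^ k := by omega
      calc (n + 1) ^ (2 * 1 + 0) = (n + 1) ^ 2 := by norm_num
        _ ≤ (p ^ k) ^ 2 := Nat.pow_le_pow_left h2 2
        _ = p ^ (2 * k) := by rw [← pow_mul, mul_comm]
  | mul m₁ m₂ ih₁ ih₂ =>
    obtain ⟨b₁, c₁, B₁, e₁, hm₁, ht₁, hB₁, he₁⟩ := ih₁ (dvd_of_mul_right_dvd hm)
    obtain ⟨b₂, c₂, B₂, e₂, hm₂, ht₂, hB₂, he₂⟩ := ih₂ (dvd_of_mul_left_dvd hm)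
    have hB : (n + 1) ^ (2 * (b₁ + b₂) + (c₁ + c₂)) ≤ (B₁ * B₂) ^ (2 * k) := by
      calc (n + 1) ^ (2 * (b₁ + b₂) + (c₁ + c₂)) =
            (n + 1) ^ (2 * b₁ + c₁) * (n + 1) ^ (2 * b₂ + c₂) := by
              rw [← pow_add]; congr 1; ring
        _ ≤ B₁ ^ (2 * k) * B₂ ^ (2 * k) := Nat.mul_le_mul hB₁ hB₂
        _ = (B₁ * B₂) ^ (2 * k) := (mul_pow _ _ _).symm
    have ht : (B₁ * B₂).divisors.card ≤ 2 ^ (b₁ + b₂) * T ^ (c₁ + c₂) := by
      calc (B₁ * B₂).divisors.card ≤ B₁.divisors.card * B₂.divisors.card :=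
            landreau_tau_mul _ _
        _ ≤ (2 ^ b₁ * T ^ c₁) * (2 ^ b₂ * T ^ c₂) := Nat.mul_le_mul ht₁ ht₂
        _ = 2 ^ (b₁ + b₂) * T ^ (c₁ + c₂) := by ring
    have hprod : m₁ * m₂ = B₁ * B₂ * (e₁ * e₂) := by
      rw [hm₁, hm₂]; ring
    by_cases hsm : (e₁ * e₂) ^ (2 * k) ≤ n
    · exact ⟨b₁ + b₂, c₁ + c₂, B₁ * B₂, e₁ * e₂, hprod, ht, hB, hsm⟩
    · have hedvd : e₁ * e₂ ∣ n := by
        refine dvd_trans ?_ hm
        rw [hprod]
        exact dvd_mul_left _ _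
      have hek : (e₁ * e₂) ^ k ≤ n := by
        have h3 : ((e₁ * e₂) ^ k) ^ 2 ≤ n ^ 2 := by
          calc ((e₁ * e₂) ^ k) ^ 2 = e₁ ^ (2 * k) * e₂ ^ (2 * k) := by
                rw [← pow_mul, mul_comm k 2, mul_pow]
            _ ≤ n * n := Nat.mul_le_mul he₁ he₂
            _ = n ^ 2 := (pow_two n).symm
        exact (Nat.pow_le_pow_iff_left (by norm_num)).1 h3
      refine ⟨b₁ + b₂, c₁ + c₂ + 1, B₁ * B₂ * (e₁ * e₂), 1, by rw [hprod, mul_one], ?_, ?_,
        by simpa using hn⟩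
      · calc (B₁ * B₂ * (e₁ * e₂)).divisors.card ≤
              (B₁ * B₂).divisors.card * (e₁ * e₂).divisors.card := landreau_tau_mul _ _
          _ ≤ (2 ^ (b₁ + b₂) * T ^ (c₁ + c₂)) * T := Nat.mul_le_mul ht (hT _ hedvd hek)
          _ = 2 ^ (b₁ + b₂) * T ^ (c₁ + c₂ + 1) := by rw [pow_succ]; ring
      · have h4 : n + 1 ≤ (e₁ * e₂) ^ (2 * k) := by omega
        calc (n + 1) ^ (2 * (b₁ + b₂) + (c₁ + c₂ + 1)) =
              (n + 1) ^ (2 * (b₁ + b₂) + (c₁ + c₂)) * (n + 1) := by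
                rw [← pow_succ]; congr 1
          _ ≤ (B₁ * B₂) ^ (2 * k) * (e₁ * e₂) ^ (2 * k) := Nat.mul_le_mul hB h4
          _ = (B₁ * B₂ * (e₁ * e₂)) ^ (2 * k) := (mul_pow _ _ _).symm

theorem landreau (k : ℕ) (hk : 1 ≤ k) (n : ℕ) (hn : 1 ≤ n) : (n.divisors.card : ℝ) ≤
    2 ^ k * ∑ d ∈ n.divisors.filter (fun d => d ^ k ≤ n), (d.divisors.card : ℝ) ^ (2 * k + 1) := by
  set S := n.divisors.filter (fun d => d ^ k ≤ n) with hS
  have hne : S.Nonempty := ⟨1, by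
    rw [hS, Finset.mem_filter]
    exact ⟨Nat.one_mem_divisors.2 (by omega), by simpa using hn⟩⟩
  obtain ⟨d₀, hd₀, hmax⟩ := S.exists_max_image (fun d => d.divisors.card) hne
  set T := d₀.divisors.card with hTdef
  have hd₀' : d₀ ∣ n ∧ d₀ ^ k ≤ n := by
    rw [hS, Finset.mem_filter, Nat.mem_divisors] at hd₀
    exact ⟨hd₀.1.1, hd₀.2⟩
  have hT : ∀ d : ℕ, d ∣ n → d ^ k ≤ n → d.divisors.card ≤ T := by
    intro d hd hdk
    refine hmax d ?_
    rw [hS, Finset.mem_filter, Nat.mem_divisors]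
    exact ⟨⟨hd, by omega⟩, hdk⟩
  have hd₀pos : d₀ ≠ 0 := by
    rintro rfl
    have := Nat.eq_zero_of_zero_dvd hd₀'.1
    omega
  have hT1 : 1 ≤ T := landreau_tau_pos hd₀pos
  obtain ⟨b, c, B, e, hBe, ht, hB, he⟩ := landreau_aux k n hn T hT n dvd_rfl
  have hepos : e ≠ 0 := by
    rintro rfl
    simp at hBe
    omega
  have hBn : B ≤ n := by
    rw [hBe]
    exact Nat.le_mul_of_pos_right B (Nat.pos_of_ne_zero hepos)
  have hlt : 2 * b + c < 2 * k := by
    by_contra hcon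
    have h1 : (n + 1) ^ (2 * k) ≤ (n + 1) ^ (2 * b + c) :=
      Nat.pow_le_pow_right (by omega) (by omega)
    have h2 : B ^ (2 * k) ≤ n ^ (2 * k) := Nat.pow_le_pow_left hBn _
    have h3 : n ^ (2 * k) < (n + 1) ^ (2 * k) := Nat.pow_lt_pow_left (by omega) (by omega)
    omega
  have heT : e.divisors.card ≤ T := by
    refine hT e ⟨B, by rw [mul_comm]; exact hBe⟩ ?_
    exact (Nat.pow_le_pow_right (Nat.pos_of_ne_zero hepos) (by omega)).trans he
  have hnat : n.divisors.card ≤ 2 ^ k * T ^ (2 * k + 1) := by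
    calc n.divisors.card = (B * e).divisors.card := by rw [← hBe]
      _ ≤ B.divisors.card * e.divisors.card := landreau_tau_mul _ _
      _ ≤ (2 ^ b * T ^ c) * T := Nat.mul_le_mul ht heT
      _ = 2 ^ b * T ^ (c + 1) := by rw [pow_succ]; ring
      _ ≤ 2 ^ k * T ^ (2 * k + 1) :=
          Nat.mul_le_mul (Nat.pow_le_pow_right (by norm_num) (by omega))
            (Nat.pow_le_pow_right hT1 (by omega))
  calc (n.divisors.card : ℝ) ≤ ((2 ^ k * T ^ (2 * k + 1) : ℕ) : ℝ) := by exact_mod_cast hnat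
    _ = 2 ^ k * (T : ℝ) ^ (2 * k + 1) := by push_cast; ring
    _ ≤ 2 ^ k * ∑ d ∈ S, (d.divisors.card : ℝ) ^ (2 * k + 1) := by
        refine mul_le_mul_of_nonneg_left ?_ (by positivity)
        exact Finset.single_le_sum (f := fun d : ℕ => (d.divisors.card : ℝ) ^ (2 * k + 1))
          (fun d _ => by positivity) hd₀

end Pool.Agent.HN
end

section
/-! # Module MeanV: mean values over all characters mod `k`

`mean_value`: orthogonality: `∑_χ ‖∑ b_n χ(n)‖² = φ(k) ∑_{c coprime} ‖∑_{n ≡ c} b_n‖²`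
`≤ φ(k) (N/k + 1) ∑ ‖b_n‖²` (Cauchy in a class: at most `N/k + 1` integers) `≤ (N + k) ∑ ‖b_n‖²`.

`short_sum`: for `χ ≠ 1` the sum over a complete period vanishes, so `∑_{n ≤ Y} χ(n)` is the sum over
the last `Y % k < k` integers; `mean_value` gives `≤ (k + k) k`.

`short_sum_log`: Abel summation, `S^log(Y) = log Y S(Y) - ∑_{1 ≤ j < Y} S(j) (log (j+1) - log j)`,
Cauchy with the weights `log (j+1) - log j` (total `log Y`), then `short_sum`.

`vdiff`: `psiC χ y - S3 χ U V y` is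
`∑_{n ≤ V} Λ(n) χ(n) + ∑_{b ≤ U} μ(b) χ(b) ∑_{d ≤ y/b} χ(d) log d`
`- ∑_{b ≤ U} μ(b) χ(b) ∑_{c ≤ V} Λ(c) χ(c) ∑_{d ≤ y/(bc)} χ(d)` (`vid`); Cauchy, then sum over `χ ≠ 1`. -/

namespace Pool.Agent.HL

open Finset Pool.Agent.BV
open scoped ArithmeticFunction.vonMangoldt ArithmeticFunction.Moebius

/-- the number of elements of a residue class in an interval -/
lemma mv_class_card (k M N c : ℕ) (hk : 0 < k) :
    (((Ioc M (M + N)).filter (fun n => n ≡ c [MOD k])).card : ℝ) ≤ (N : ℝ) / k + 1 := by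
  have h := Nat.Ioc_filter_modEq_card M (M + N) hk c
  have hkq : (0 : ℚ) < k := by exact_mod_cast hk
  have h1 : (⌊(((M + N : ℕ) : ℚ) - c) / (k : ℚ)⌋ : ℚ) ≤ (((M + N : ℕ) : ℚ) - c) / k :=
    Int.floor_le _
  have h2 : ((M : ℚ) - c) / k - 1 < (⌊((M : ℚ) - c) / (k : ℚ)⌋ : ℚ) := Int.sub_one_lt_floor _
  have h3 : ((((Ioc M (M + N)).filter (fun n => n ≡ c [MOD k])).card : ℤ) : ℚ)
      ≤ (N : ℚ) / k + 1 := by
    rw [h, Int.cast_max]
    apply max_le
    · have e : (((M + N : ℕ) : ℚ) - c) / k = ((M : ℚ) - c) / k + N / k := by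
        push_cast
        rw [← add_div]
        congr 1
        ring
      rw [Int.cast_sub]
      linarith
    · have : (0 : ℚ) ≤ (N : ℚ) / k := by positivity
      rw [Int.cast_zero]
      linarith
  have h4 : ((((Ioc M (M + N)).filter (fun n => n ≡ c [MOD k])).card : ℚ)) ≤ (N : ℚ) / k + 1 := by
    exact_mod_cast h3
  have h5 := (Rat.cast_le (K := ℝ)).2 h4
  push_cast at h5
  exact h5

theorem mean_value (k : ℕ) [NeZero k] (M N : ℕ) (b : ℕ → ℂ) :
    ∑ χ : DirichletCharacter ℂ k, ‖∑ n ∈ Ioc M (M + N), b n * χ (n : ZMod k)‖ ^ 2 ≤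
      ((N : ℝ) + k) * ∑ n ∈ Ioc M (M + N), ‖b n‖ ^ 2 := by
  have hk : 0 < k := Nat.pos_of_ne_zero (NeZero.ne k)
  have hkR : (0 : ℝ) < k := by exact_mod_cast hk
  set F : ZMod k → ℂ := fun c =>
    ∑ n ∈ (Ioc M (M + N)).filter (fun n : ℕ => (n : ZMod k) = c), b n with hF
  have h1 : ∀ χ : DirichletCharacter ℂ k,
      ∑ n ∈ Ioc M (M + N), b n * χ (n : ZMod k) = ∑ c, χ c * F c := by
    intro χ
    rw [← Finset.sum_fiberwise (Ioc M (M + N)) (fun n : ℕ => (n : ZMod k))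
      (fun n => b n * χ (n : ZMod k))]
    refine sum_congr rfl fun c _ => ?_
    rw [hF, mul_sum]
    refine sum_congr rfl fun n hn => ?_
    rw [(mem_filter.1 hn).2]
    ring
  have h2 : ∑ χ : DirichletCharacter ℂ k, ‖∑ n ∈ Ioc M (M + N), b n * χ (n : ZMod k)‖ ^ 2 =
      ∑ χ : DirichletCharacter ℂ k, ‖∑ c, χ⁻¹ c * F c‖ ^ 2 := by
    rw [sum_congr rfl fun χ _ => by rw [h1 χ]]
    exact (Equiv.sum_comp (Equiv.inv (DirichletCharacter ℂ k))
      (fun χ => ‖∑ c, χ c * F c‖ ^ 2)).symm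
  rw [h2, gaussLS_orth]
  have h3 : ∑ u : (ZMod k)ˣ, ‖F u‖ ^ 2 ≤ ∑ c : ZMod k, ‖F c‖ ^ 2 := by
    have := Finset.sum_map (univ : Finset (ZMod k)ˣ) ⟨Units.val, Units.val_injective⟩
      (fun c : ZMod k => ‖F c‖ ^ 2)
    simp only [Function.Embedding.coeFn_mk] at this
    rw [← this]
    exact sum_le_sum_of_subset_of_nonneg (subset_univ _) (fun _ _ _ => by positivity)
  have h4 : ∀ c : ZMod k, ‖F c‖ ^ 2 ≤ ((N : ℝ) / k + 1) *
      ∑ n ∈ (Ioc M (M + N)).filter (fun n : ℕ => (n : ZMod k) = c), ‖b n‖ ^ 2 := by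
    intro c
    have hfil : (Ioc M (M + N)).filter (fun n : ℕ => (n : ZMod k) = c) =
        (Ioc M (M + N)).filter (fun n => n ≡ c.val [MOD k]) := by
      refine filter_congr fun n _ => ?_
      rw [← ZMod.natCast_eq_natCast_iff, ZMod.natCast_zmod_val]
    have hcard := mv_class_card k M N c.val hk
    rw [← hfil] at hcard
    calc ‖F c‖ ^ 2 ≤ (∑ n ∈ (Ioc M (M + N)).filter (fun n : ℕ => (n : ZMod k) = c), ‖b n‖) ^ 2 :=
          pow_le_pow_left₀ (norm_nonneg _) (norm_sum_le _ _) 2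
      _ ≤ (((Ioc M (M + N)).filter (fun n : ℕ => (n : ZMod k) = c)).card : ℝ) *
          ∑ n ∈ (Ioc M (M + N)).filter (fun n : ℕ => (n : ZMod k) = c), ‖b n‖ ^ 2 :=
          sq_sum_le_card_mul_sum_sq
      _ ≤ _ := mul_le_mul_of_nonneg_right hcard (by positivity)
  have h5 : ∑ c : ZMod k, ‖F c‖ ^ 2 ≤ ((N : ℝ) / k + 1) * ∑ n ∈ Ioc M (M + N), ‖b n‖ ^ 2 := by
    refine (sum_le_sum fun c _ => h4 c).trans (le_of_eq ?_)
    rw [← mul_sum, Finset.sum_fiberwise (Ioc M (M + N)) (fun n : ℕ => (n : ZMod k))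
      (fun n => ‖b n‖ ^ 2)]
  have h6 : (k.totient : ℝ) ≤ k := by exact_mod_cast Nat.totient_le k
  calc (k.totient : ℝ) * ∑ u : (ZMod k)ˣ, ‖F u‖ ^ 2
      ≤ k * (((N : ℝ) / k + 1) * ∑ n ∈ Ioc M (M + N), ‖b n‖ ^ 2) :=
        mul_le_mul h6 (h3.trans h5) (by positivity) hkR.le
    _ = _ := by
        rw [← mul_assoc]
        congr 1
        field_simp

end Pool.Agent.HL
end

section
/-! # Module MinSumA: the bound `gm` for geometric sums

`geom_le`: as `addD_le'` in `BV/Additive.lean` (`4 |x| ≤ ‖e x - 1‖` for `|x| ≤ 1/2`).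
`class_le`: the integers `≡ c` mod `q` in `(u, v]` are at most `(v-u)/q + 1` terms of an arithmetic
progression with difference `q`; `geom_le` and `gm_mono`. -/

namespace Pool.Agent.HL

open Finset Pool.Agent.BV

theorem gm_nonneg {Y : ℝ} (hY : 0 ≤ Y) (β : ℝ) : 0 ≤ gm Y β := by
  unfold gm
  split_ifs
  · exact hY
  · positivity

private lemma gm_aux {Y d : ℝ} (hd : 0 ≤ d) (h : ¬ 2 * Y * d ≤ 1) : 0 < d := by
  rcases hd.lt_or_eq with h1 | h1
  · exact h1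
  · exfalso
    apply h
    rw [← h1]
    norm_num

theorem gm_mono {Y Y' : ℝ} (h0 : 0 ≤ Y) (h : Y ≤ Y') (β : ℝ) : gm Y β ≤ gm Y' β := by
  unfold gm
  set d := |β - round β| with hd
  have hd0 : 0 ≤ d := abs_nonneg _
  by_cases h1 : 2 * Y' * d ≤ 1
  · have h2 : 2 * Y * d ≤ 1 := le_trans (by gcongr) h1
    rw [if_pos h1, if_pos h2]
    exact h
  · rw [if_neg h1]
    have h3 : 0 < d := gm_aux hd0 h1
    split_ifs with h2
    · rw [le_div_iff₀ (by positivity)]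
      linarith
    · exact le_rfl

theorem gm_le {Y : ℝ} (hY : 0 ≤ Y) (β : ℝ) : gm Y β ≤ Y := by
  unfold gm
  set d := |β - round β| with hd
  have hd0 : 0 ≤ d := abs_nonneg _
  split_ifs with h1
  · exact le_rfl
  · have h3 : 0 < d := gm_aux hd0 h1
    rw [div_le_iff₀ (by positivity)]
    linarith

theorem gm_le_of_dist {Y β δ : ℝ} (hY : 0 ≤ Y) (hδ : 0 < δ) (h : δ ≤ |β - round β|) :
    gm Y β ≤ 1 / (2 * δ) := by
  unfold gm
  set d := |β - round β| with hd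
  have hd0 : 0 < d := hδ.trans_le h
  have h2 : 1 / (2 * d) ≤ 1 / (2 * δ) := by
    apply one_div_le_one_div_of_le (by positivity)
    linarith
  split_ifs with h1
  · refine le_trans ?_ h2
    rw [le_div_iff₀ (by positivity)]
    linarith
  · exact h2

theorem gm_add_int (Y β : ℝ) (k : ℤ) : gm Y (β + k) = gm Y β := by
  have h : |β + k - (round (β + (k : ℝ)) : ℝ)| = |β - round β| := by
    rw [round_add_intCast]
    push_cast
    congr 1
    ring
  unfold gm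
  rw [h]

theorem geom_le (n : ℕ) (β : ℝ) : ‖∑ k ∈ range n, e (k * β)‖ ≤ gm n β := by
  have htriv : ‖∑ k ∈ range n, e (k * β)‖ ≤ n := by
    refine (norm_sum_le _ _).trans ?_
    simp [add_norm_e]
  unfold gm
  split_ifs with hc
  · exact htriv
  · set k : ℤ := round β with hk
    have h5 : 0 < |β - k| := gm_aux (abs_nonneg _) hc
    have hle : |β - k| ≤ 1 / 2 := abs_sub_round β
    set S : ℂ := ∑ i ∈ range n, e (i * β) with hS
    have h1 : S * (e (β - k) - 1) = e (n * β) - 1 := by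
      have h2 : S = ∑ i ∈ range n, e (β - k) ^ i := by
        rw [hS]
        refine Finset.sum_congr rfl fun i _ => ?_
        rw [add_e_sub_int]
        exact add_e_pow i β
      have h3 : e (n * β) = e (β - k) ^ n := by
        rw [add_e_sub_int]
        exact add_e_pow _ β
      rw [h2, h3, geom_sum_mul]
    have h2 := congrArg norm h1
    rw [norm_mul] at h2
    have h3 : ‖e (n * β) - 1‖ ≤ 2 := by
      refine (norm_sub_le _ _).trans ?_
      rw [add_norm_e]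
      norm_num
    have h4 := add_norm_e_sub_one _ hle
    rw [le_div_iff₀ (by positivity)]
    have h6 := norm_nonneg S
    nlinarith

/-- exponential sums over an interval intersected with a residue class -/
theorem class_le (q c u v : ℕ) (hq : 1 ≤ q) (α : ℝ) :
    ‖∑ n ∈ (Ioc u v).filter (fun n => n ≡ c [MOD q]), e (n * α)‖ ≤
      gm (((v - u : ℕ) : ℝ) / q + 1) (q * α) := by
  have hq0 : (0 : ℝ) < q := by exact_mod_cast hq
  set r : ℕ := (c + (u + 1) * (q - 1)) % q with hr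
  have hrq : r < q := Nat.mod_lt _ hq
  set n0 : ℕ := u + 1 + r with hn0
  have hmod : n0 ≡ c [MOD q] := by
    have h1 : n0 ≡ u + 1 + (c + (u + 1) * (q - 1)) [MOD q] :=
      Nat.ModEq.add_left _ (Nat.mod_modEq _ _)
    have h2 : u + 1 + (c + (u + 1) * (q - 1)) = c + (u + 1) * q := by
      obtain ⟨t, rfl⟩ : ∃ t, q = t + 1 := ⟨q - 1, by omega⟩
      rw [Nat.add_sub_cancel]
      ring
    rw [h2] at h1
    refine h1.trans ?_
    unfold Nat.ModEq
    rw [Nat.add_mul_mod_self_right]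
  set m : ℕ := (v + q - n0) / q with hm
  have hmlt : ∀ k, k < m ↔ n0 + q * k ≤ v := by
    intro k
    rw [hm, ← Nat.succ_le_iff, Nat.le_div_iff_mul_le (by omega)]
    have : (k + 1) * q = q * k + q := by ring
    rw [Nat.succ_eq_add_one, this]
    omega
  have hset : (Ioc u v).filter (fun n => n ≡ c [MOD q]) = (range m).image (fun k => n0 + q * k) := by
    ext n
    simp only [mem_filter, mem_Ioc, mem_image, mem_range]
    constructor
    · rintro ⟨⟨h1, h2⟩, h3⟩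
      have h4 : n0 ≡ n [MOD q] := hmod.trans h3.symm
      have h5 : n0 ≤ n := by
        by_contra hcon
        rw [not_le] at hcon
        have h6 : q ∣ n0 - n := (Nat.modEq_iff_dvd' hcon.le).1 h4.symm
        have h7 : q ≤ n0 - n := Nat.le_of_dvd (by omega) h6
        omega
      obtain ⟨k, hk⟩ := (Nat.modEq_iff_dvd' h5).1 h4
      refine ⟨k, ?_, by omega⟩
      rw [hmlt]
      omega
    · rintro ⟨k, hk, rfl⟩
      rw [hmlt] at hk
      refine ⟨⟨by omega, hk⟩, ?_⟩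
      have : n0 + q * k ≡ n0 [MOD q] := by
        unfold Nat.ModEq
        rw [Nat.add_mul_mod_self_left]
      exact this.trans hmod
  have hinj : Set.InjOn (fun k => n0 + q * k) (range m : Set ℕ) := by
    intro a _ b _ hab
    simp only at hab
    exact Nat.eq_of_mul_eq_mul_left hq (by omega)
  rw [hset, Finset.sum_image hinj]
  have h1 : ∑ k ∈ range m, e (((n0 + q * k : ℕ) : ℝ) * α) =
      e (n0 * α) * ∑ k ∈ range m, e (k * (q * α)) := by
    rw [Finset.mul_sum]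
    refine Finset.sum_congr rfl fun k _ => ?_
    rw [← add_e_add]
    congr 1
    push_cast
    ring
  rw [h1, norm_mul, add_norm_e, one_mul]
  refine (geom_le m _).trans (gm_mono (Nat.cast_nonneg _) ?_ _)
  have h2 : (m : ℝ) ≤ ((v + q - n0 : ℕ) : ℝ) / q := by
    rw [hm]
    exact Nat.cast_div_le
  refine h2.trans ?_
  have h3 : ((v + q - n0 : ℕ) : ℝ) ≤ ((v - u : ℕ) : ℝ) + q := by
    have : v + q - n0 ≤ (v - u) + q := by omega
    exact_mod_cast this
  calc ((v + q - n0 : ℕ) : ℝ) / q ≤ (((v - u : ℕ) : ℝ) + q) / q := by gcongr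
    _ = _ := by field_simp

end Pool.Agent.HL
end

section
/-! # Module Ram: Ramanujan sums

`ram_eq`: `∑_{b < s, (b, s) = 1} = ∑_{d ∣ s} μ(d) ∑_{b < s, d ∣ b}` and the inner sum of `e(n b / s)` is
`s / d` if `s / d ∣ n` and `0` otherwise; then `d ↦ s / d`.
`ram_sqfree`: for squarefree `s` the divisor sum is the product over the primes of `s`
(`Nat.Coprime` induction on the prime factors, or multiplicativity of both sides).
`ram_class_prod`: expand the product over the primes of `s` not dividing `q`; the squarefree divisors of `s`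
coprime to `q` are the products of subsets; `μ(t) ram t c / φ(t)` is the product of
`- c_p(c) / (p - 1)`. The product is `∏_{p ∣ s, p ∤ q} (p / (p - 1))` if `c` is coprime to `s`, and `0` if some
prime `p` divides `c` and `s` (it does not divide `q`), and
`q / φ(q) * ∏_{p ∣ s, p ∤ q} (p / (p - 1)) = q s / φ(q s)`. -/

namespace Pool.Agent.HL

open Finset Pool.Agent.BV
open scoped ArithmeticFunction.Moebius

namespace Ram

/-- the sum of the Moebius function over the divisors -/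
theorem mu_sum (N : ℕ) : ∑ d ∈ N.divisors, ((μ d : ℤ) : ℂ) = if N = 1 then 1 else 0 := by
  have h1 : ∑ d ∈ N.divisors, μ d = if N = 1 then 1 else 0 := by
    rw [← ArithmeticFunction.coe_mul_zeta_apply, ArithmeticFunction.moebius_mul_coe_zeta,
      ArithmeticFunction.one_apply]
  have h2 := congrArg (Int.cast : ℤ → ℂ) h1
  push_cast at h2
  exact h2

/-- complete exponential sums -/
theorem geom (m n : ℕ) (hm : 1 ≤ m) :
    ∑ b ∈ range m, e (n * ((b : ℝ) / m)) = if m ∣ n then (m : ℂ) else 0 := by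
  have hm0 : (m : ℝ) ≠ 0 := by positivity
  have h1 : ∀ b : ℕ, e (n * ((b : ℝ) / m)) = e ((n : ℝ) / m) ^ b := by
    intro b
    rw [← add_e_pow]
    congr 1
    ring
  simp only [h1]
  have hpow : e ((n : ℝ) / m) ^ m = 1 := by
    rw [← add_e_pow]
    have : (m : ℝ) * ((n : ℝ) / m) = ((n : ℤ) : ℝ) := by
      push_cast
      field_simp
    rw [this]
    exact add_e_int _
  split_ifs with h
  · obtain ⟨k, rfl⟩ := h
    have h2 : e (((m * k : ℕ) : ℝ) / m) = 1 := by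
      have : ((m * k : ℕ) : ℝ) / m = ((k : ℤ) : ℝ) := by
        push_cast
        field_simp
      rw [this]
      exact add_e_int _
    rw [Finset.sum_congr rfl fun b _ => by rw [h2, one_pow]]
    simp
  · have hne : e ((n : ℝ) / m) ≠ 1 := by
      intro h2
      unfold e at h2
      rw [Complex.exp_eq_one_iff] at h2
      obtain ⟨k, hk⟩ := h2
      have hpi : (2 * (Real.pi : ℂ) * Complex.I) ≠ 0 := by
        simp [Real.pi_ne_zero]
      have h3 : (((n : ℝ) / m : ℝ) : ℂ) = (k : ℂ) := by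
        apply mul_left_cancel₀ hpi
        rw [mul_comm (2 * (Real.pi : ℂ) * Complex.I) (k : ℂ), ← hk]
        ring
      have h4 : (n : ℝ) / m = (k : ℝ) := by exact_mod_cast h3
      rw [div_eq_iff hm0] at h4
      have h5 : (n : ℤ) = k * m := by exact_mod_cast h4
      apply h
      have h6 : (m : ℤ) ∣ (n : ℤ) := ⟨k, by rw [h5]; ring⟩
      exact_mod_cast h6
    have h3 := geom_sum_mul (e ((n : ℝ) / m)) m
    rw [hpow, sub_self] at h3
    exact (mul_eq_zero.1 h3).resolve_right (sub_ne_zero.2 hne)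

/-- the sum over the multiples of a divisor -/
theorem mult_sum (s n d : ℕ) (hs : 1 ≤ s) (hd : d ∣ s) :
    ∑ b ∈ (range s).filter (fun b => d ∣ b), e (n * ((b : ℝ) / s)) =
      if s / d ∣ n then ((s / d : ℕ) : ℂ) else 0 := by
  obtain ⟨m, rfl⟩ := hd
  have hd0 : 0 < d := Nat.pos_of_ne_zero (by rintro rfl; simp at hs)
  have hm0 : 0 < m := Nat.pos_of_ne_zero (by rintro rfl; simp at hs)
  rw [Nat.mul_div_cancel_left m hd0, ← geom m n hm0]
  refine Finset.sum_nbij' (fun b => b / d) (fun b => d * b) ?_ ?_ ?_ ?_ ?_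
  · intro b hb
    rw [mem_filter, mem_range] at hb
    rw [mem_range]
    exact Nat.div_lt_of_lt_mul hb.1
  · intro b hb
    rw [mem_range] at hb
    rw [mem_filter, mem_range]
    exact ⟨Nat.mul_lt_mul_of_pos_left hb hd0, dvd_mul_right _ _⟩
  · intro b hb
    rw [mem_filter] at hb
    exact Nat.mul_div_cancel' hb.2
  · intro b _
    exact Nat.mul_div_cancel_left b hd0
  · intro b hb
    rw [mem_filter] at hb
    obtain ⟨k, rfl⟩ := hb.2
    rw [Nat.mul_div_cancel_left k hd0]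
    congr 2
    push_cast
    have : (d : ℝ) ≠ 0 := by positivity
    field_simp

/-- `d` if `d ∣ n`, else `0` -/
noncomputable def gA (n : ℕ) : ArithmeticFunction ℂ :=
  ⟨fun d => if d ∣ n then (d : ℂ) else 0, by simp⟩

theorem gA_apply (n d : ℕ) : gA n d = if d ∣ n then (d : ℂ) else 0 := rfl

theorem gA_mult (n : ℕ) : (gA n).IsMultiplicative := by
  refine ⟨by simp [gA_apply], ?_⟩
  intro a b hab
  simp only [gA_apply]
  by_cases ha : a ∣ n
  · by_cases hb : b ∣ n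
    · rw [if_pos ha, if_pos hb, if_pos (hab.mul_dvd_of_dvd_of_dvd ha hb)]
      push_cast
      ring
    · rw [if_neg hb, mul_zero, if_neg (fun h => hb ((dvd_mul_left b a).trans h))]
  · rw [if_neg ha, zero_mul, if_neg (fun h => ha ((dvd_mul_right a b).trans h))]

/-- the Ramanujan sum as an arithmetic function of the modulus -/
noncomputable def RA (n : ℕ) : ArithmeticFunction ℂ := (μ : ArithmeticFunction ℂ) * gA n

theorem RA_mult (n : ℕ) : (RA n).IsMultiplicative :=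
  ArithmeticFunction.isMultiplicative_moebius.intCast.mul (gA_mult n)

theorem RA_apply (s n : ℕ) (hs : 1 ≤ s) :
    RA n s = ∑ d ∈ (Nat.gcd s n).divisors, ((μ (s / d) : ℤ) : ℂ) * (d : ℂ) := by
  rw [RA, ArithmeticFunction.mul_apply, Nat.sum_divisorsAntidiagonal'
    (fun a b => (μ : ArithmeticFunction ℂ) a * gA n b)]
  simp only [gA_apply, ArithmeticFunction.intCoe_apply, mul_ite, mul_zero]
  rw [← Finset.sum_filter]
  refine Finset.sum_congr ?_ fun _ _ => rfl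
  ext d
  rw [mem_filter, Nat.mem_divisors, Nat.mem_divisors, Nat.dvd_gcd_iff]
  constructor
  · rintro ⟨⟨h1, -⟩, h2⟩
    exact ⟨⟨h1, h2⟩, Nat.gcd_ne_zero_left (by omega)⟩
  · rintro ⟨⟨h1, h2⟩, -⟩
    exact ⟨⟨h1, by omega⟩, h2⟩

theorem RA_prime (n p : ℕ) (hp : p.Prime) : RA n p = if p ∣ n then (p : ℂ) - 1 else -1 := by
  rw [RA, ArithmeticFunction.mul_apply, Nat.sum_divisorsAntidiagonal'
    (fun a b => (μ : ArithmeticFunction ℂ) a * gA n b), hp.divisors,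
    Finset.sum_pair hp.one_lt.ne]
  rw [Nat.div_one, Nat.div_self hp.pos]
  simp only [gA_apply, ArithmeticFunction.intCoe_apply,
    ArithmeticFunction.moebius_apply_prime hp, ArithmeticFunction.moebius_apply_one]
  simp only [isUnit_one, IsUnit.dvd, if_true]
  push_cast
  split_ifs <;> ring

end Ram

open Ram in
theorem ram_norm_le (s n : ℕ) : ‖ram s n‖ ≤ s.totient := by
  unfold ram
  refine (norm_sum_le _ _).trans ?_
  simp only [add_norm_e, Finset.sum_const, nsmul_eq_mul, mul_one]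
  rw [Nat.totient_eq_card_coprime]
  have : (range s).filter (fun b => b.Coprime s) = (range s).filter (fun b => s.Coprime b) := by
    refine Finset.filter_congr fun b _ => ?_
    exact Nat.coprime_comm
  rw [this]

open Ram in
theorem ram_eq (s n : ℕ) (hs : 1 ≤ s) :
    ram s n = ∑ d ∈ (Nat.gcd s n).divisors, ((μ (s / d) : ℤ) : ℂ) * (d : ℂ) := by
  have h1 : ram s n = ∑ b ∈ range s, ∑ d ∈ s.divisors,
      if d ∣ b then ((μ d : ℤ) : ℂ) * e (n * ((b : ℝ) / s)) else 0 := by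
    unfold ram
    rw [Finset.sum_filter]
    refine Finset.sum_congr rfl fun b _ => ?_
    rw [← Finset.sum_filter, ← Finset.sum_mul]
    have h2 : s.divisors.filter (fun d => d ∣ b) = (Nat.gcd b s).divisors := by
      ext d
      rw [mem_filter, Nat.mem_divisors, Nat.mem_divisors, Nat.dvd_gcd_iff]
      constructor
      · rintro ⟨⟨h1, -⟩, h2⟩
        exact ⟨⟨h2, h1⟩, Nat.gcd_ne_zero_right (by omega)⟩
      · rintro ⟨⟨h1, h2⟩, -⟩
        exact ⟨⟨h2, by omega⟩, h1⟩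
    rw [h2, mu_sum, ite_mul, one_mul, zero_mul]
  rw [h1, Finset.sum_comm]
  have h3 : ∀ d ∈ s.divisors, ∑ b ∈ range s,
      (if d ∣ b then ((μ d : ℤ) : ℂ) * e (n * ((b : ℝ) / s)) else 0) =
      ((μ (s / (s / d)) : ℤ) : ℂ) * gA n (s / d) := by
    intro d hd
    have hd' := (Nat.mem_divisors.1 hd).1
    rw [← Finset.sum_filter, ← Finset.mul_sum, mult_sum s n d hs hd', gA_apply,
      Nat.div_div_self hd' (by omega)]
  rw [Finset.sum_congr rfl h3, Nat.sum_div_divisors s (fun d => ((μ (s / d) : ℤ) : ℂ) * gA n d),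
    ← RA_apply s n hs, RA, ArithmeticFunction.mul_apply, Nat.sum_divisorsAntidiagonal'
    (fun a b => (μ : ArithmeticFunction ℂ) a * gA n b)]
  rfl

namespace Ram

theorem ram_eq_RA (s n : ℕ) (hs : 1 ≤ s) : ram s n = RA n s := by
  rw [ram_eq s n hs, RA_apply s n hs]

end Ram

open Ram in
theorem ram_sqfree (s n : ℕ) (hs : Squarefree s) :
    ram s n = ∏ p ∈ s.primeFactors, (if p ∣ n then (p : ℂ) - 1 else -1) := by
  rw [ram_eq_RA s n (Nat.pos_of_ne_zero hs.ne_zero), ← (RA_mult n).prod_primeFactors hs]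
  exact Finset.prod_congr rfl fun p hp => RA_prime n p (Nat.prime_of_mem_primeFactors hp)

/-- `ram s n` is real for squarefree `s` -/
theorem ram_im (s n : ℕ) (hs : Squarefree s) : (ram s n).im = 0 := by
  rw [ram_sqfree s n hs]
  have : ∏ p ∈ s.primeFactors, (if p ∣ n then (p : ℂ) - 1 else -1) =
      ((∏ p ∈ s.primeFactors, (if p ∣ n then (p : ℝ) - 1 else -1) : ℝ) : ℂ) := by
    push_cast
    refine Finset.prod_congr rfl fun p _ => ?_
    split_ifs <;> simp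
  rw [this, Complex.ofReal_im]

namespace Ram

/-- the summand of `ram_class_prod` -/
noncomputable def hA (q c : ℕ) : ArithmeticFunction ℂ :=
  ⟨fun t => if t.Coprime q then ((μ t : ℤ) : ℂ) / (t.totient : ℂ) * RA c t else 0, by simp⟩

theorem hA_apply (q c t : ℕ) :
    hA q c t = if t.Coprime q then ((μ t : ℤ) : ℂ) / (t.totient : ℂ) * RA c t else 0 := rfl

theorem hA_mult (q c : ℕ) : (hA q c).IsMultiplicative := by
  refine ⟨by simp [hA_apply, (RA_mult c).1], ?_⟩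
  intro a b hab
  simp only [hA_apply]
  by_cases ha : a.Coprime q
  · by_cases hb : b.Coprime q
    · rw [if_pos ha, if_pos hb, if_pos (Nat.Coprime.mul_left ha hb),
        ArithmeticFunction.isMultiplicative_moebius.2 hab, (RA_mult c).2 hab,
        Nat.totient_mul hab]
      push_cast
      rw [mul_div_mul_comm]
      ring
    · rw [if_neg hb, mul_zero, if_neg (fun h => hb (h.coprime_dvd_left (dvd_mul_left b a)))]
  · rw [if_neg ha, zero_mul, if_neg (fun h => ha (h.coprime_dvd_left (dvd_mul_right a b)))]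

theorem hA_prime (q c p : ℕ) (hp : p.Prime) :
    1 + hA q c p = if p ∣ q then 1 else if p ∣ c then 0 else (1 - (p : ℂ)⁻¹)⁻¹ := by
  rw [hA_apply]
  have hp1 : (p : ℂ) - 1 ≠ 0 := by
    have : (p : ℂ) ≠ 1 := by exact_mod_cast hp.one_lt.ne'
    exact sub_ne_zero.2 this
  have hp0 : (p : ℂ) ≠ 0 := by exact_mod_cast hp.ne_zero
  have hc : p.Coprime q ↔ ¬ p ∣ q := hp.coprime_iff_not_dvd
  by_cases hq : p ∣ q
  · rw [if_neg (fun h => hc.1 h hq), if_pos hq, add_zero]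
  · rw [if_pos (hc.2 hq), if_neg hq, RA_prime c p hp, ArithmeticFunction.moebius_apply_prime hp,
      Nat.totient_prime hp, Nat.cast_sub hp.one_le]
    split_ifs with h
    · push_cast
      field_simp
      ring
    · push_cast
      have : (1 - (p : ℂ)⁻¹) ≠ 0 := by
        have : (1 - (p : ℂ)⁻¹) = ((p : ℂ) - 1) / p := by field_simp
        rw [this]
        exact div_ne_zero hp1 hp0
      field_simp
      ring

/-- the sum over all divisors as a product over the primes -/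
theorem sum_prod (f : ArithmeticFunction ℂ) (hf : f.IsMultiplicative)
    (h0 : ∀ t, ¬ Squarefree t → f t = 0) (s : ℕ) (hs : s ≠ 0) :
    ∑ t ∈ s.divisors, f t = ∏ p ∈ s.primeFactors, (1 + f p) := by
  set r := ∏ p ∈ s.primeFactors, p with hr
  have hprime : ∀ p ∈ s.primeFactors, p.Prime := fun p hp => Nat.prime_of_mem_primeFactors hp
  have hrp : r.primeFactors = s.primeFactors := Nat.primeFactors_prod hprime
  have hrsq : Squarefree r := by
    rw [hr]
    refine Finset.squarefree_prod_of_pairwise_isCoprime ?_ fun p hp =>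
      (hprime p hp).prime.irreducible.squarefree
    intro p hp p' hp' hne
    simp only [Function.onFun]
    rw [← Nat.coprime_iff_isRelPrime]
    exact (Nat.coprime_primes (hprime p hp) (hprime p' hp')).2 hne
  have hrs : r ∣ s := Nat.prod_primeFactors_dvd s
  have h1 : ∑ t ∈ s.divisors, f t = ∑ t ∈ r.divisors, f t := by
    symm
    refine Finset.sum_subset (Nat.divisors_subset_of_dvd hs hrs) ?_
    intro t ht1 ht2
    apply h0
    intro hsq
    apply ht2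
    rw [Nat.mem_divisors]
    refine ⟨?_, hrsq.ne_zero⟩
    rw [← Nat.prod_primeFactors_of_squarefree hsq, hr]
    exact Finset.prod_dvd_prod_of_subset _ _ _
      (Nat.primeFactors_mono (Nat.mem_divisors.1 ht1).1 hs)
  rw [h1, ← hf.prodPrimeFactors_one_add_of_squarefree hrsq, hrp]

theorem tot_prod (n : ℕ) (hn : n ≠ 0) :
    (n : ℂ) / (n.totient : ℂ) = ∏ p ∈ n.primeFactors, (1 - (p : ℂ)⁻¹)⁻¹ := by
  have h1 : ((n.totient : ℕ) : ℂ) = n * ∏ p ∈ n.primeFactors, (1 - (p : ℂ)⁻¹) := by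
    have := congrArg (Rat.cast : ℚ → ℂ) (Nat.totient_eq_mul_prod_factors n)
    push_cast at this
    exact this
  have h2 : (n : ℂ) ≠ 0 := by exact_mod_cast hn
  rw [h1, Finset.prod_inv_distrib]
  rw [← div_div, div_self h2, one_div]

end Ram

open Ram in
theorem ram_class_prod (q s c : ℕ) (hq : 1 ≤ q) (hs : 1 ≤ s) (hc : c.Coprime q) :
    ((q : ℂ) / (q.totient : ℂ)) * ∑ t ∈ s.divisors.filter (fun t => t.Coprime q),
        ((μ t : ℤ) : ℂ) / (t.totient : ℂ) * ram t c =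
      if c.Coprime (q * s) then ((q * s : ℕ) : ℂ) / ((q * s).totient : ℂ) else 0 := by
  have hq0 : q ≠ 0 := by omega
  have hs0 : s ≠ 0 := by omega
  have h1 : ∑ t ∈ s.divisors.filter (fun t => t.Coprime q),
      ((μ t : ℤ) : ℂ) / (t.totient : ℂ) * ram t c = ∑ t ∈ s.divisors, hA q c t := by
    rw [Finset.sum_filter]
    refine Finset.sum_congr rfl fun t ht => ?_
    rw [hA_apply]
    split_ifs
    · rw [ram_eq_RA t c (Nat.pos_of_mem_divisors ht)]
    · rfl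
  rw [h1, sum_prod (hA q c) (hA_mult q c) (fun t ht => by
    rw [hA_apply, ArithmeticFunction.moebius_eq_zero_of_not_squarefree ht]
    simp) s hs0]
  have h2 : ∏ p ∈ s.primeFactors, (1 + hA q c p) =
      ∏ p ∈ s.primeFactors, (if p ∣ q then 1 else if p ∣ c then 0 else (1 - (p : ℂ)⁻¹)⁻¹) :=
    Finset.prod_congr rfl fun p hp => hA_prime q c p (Nat.prime_of_mem_primeFactors hp)
  rw [h2]
  split_ifs with h
  · -- all factors are nonzero
    rw [tot_prod (q * s) (Nat.mul_ne_zero hq0 hs0), tot_prod q hq0,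
      Nat.primeFactors_mul hq0 hs0, ← Finset.union_sdiff_self_eq_union,
      Finset.prod_union Finset.disjoint_sdiff]
    congr 1
    have h3 : s.primeFactors \ q.primeFactors = s.primeFactors.filter (fun p => ¬ p ∣ q) := by
      ext p
      rw [mem_sdiff, mem_filter, Nat.mem_primeFactors, Nat.mem_primeFactors]
      constructor
      · rintro ⟨h4, h5⟩
        exact ⟨h4, fun h6 => h5 ⟨h4.1, h6, hq0⟩⟩
      · rintro ⟨h4, h5⟩
        exact ⟨h4, fun h6 => h5 h6.2.1⟩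
    rw [h3, Finset.prod_filter]
    refine Finset.prod_congr rfl fun p hp => ?_
    have hpc : ¬ p ∣ c := by
      intro hpc
      have h6 : p ∣ q * s := (Nat.dvd_of_mem_primeFactors hp).mul_left q
      have h7 : p ∣ Nat.gcd c (q * s) := Nat.dvd_gcd hpc h6
      rw [h] at h7
      exact (Nat.prime_of_mem_primeFactors hp).one_lt.ne' (Nat.dvd_one.1 h7)
    by_cases hpq : p ∣ q
    · rw [if_pos hpq, if_neg (not_not.2 hpq)]
    · rw [if_neg hpq, if_pos hpq, if_neg hpc]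
  · -- some factor vanishes
    have h3 : ¬ c.Coprime s := fun h4 => h (Nat.Coprime.mul_right hc h4)
    obtain ⟨p, hp, hpc, hps⟩ := Nat.Prime.not_coprime_iff_dvd.1 h3
    have hpq : ¬ p ∣ q := by
      intro hpq
      have h7 : p ∣ Nat.gcd c q := Nat.dvd_gcd hpc hpq
      rw [hc] at h7
      exact hp.one_lt.ne' (Nat.dvd_one.1 h7)
    rw [Finset.prod_eq_zero (i := p) (Nat.mem_primeFactors.2 ⟨hp, hps, hs0⟩)
      (by rw [if_neg hpq, if_pos hpc]), mul_zero]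

end Pool.Agent.HL
end

section
/-! # Module HalMont: large values by duality

`S = ∑_{χ ∈ X} ‖B χ‖²`, `G = ∑ ‖b‖²`. `S = ∑_l b_l ∑_χ \bar{B χ} χ(l)`, Cauchy: `S² ≤ G ∑_l |∑_χ \bar{B χ} χ(l)|² ≤ G ∑_{χ,χ'} ‖B χ‖ ‖B χ'‖ |∑_{l ≤ N} χ \bar χ'(l)| ≤
G (N S + P (∑ ‖B χ‖)²)`, `∑ ‖B χ‖ ≤ S/W`, `2 G P ≤ W²`: `S² ≤ G N S + S²/2`. -/

namespace Pool.Agent.HN

open Finset Pool.Agent.BV

theorem hal_mont (k : ℕ) [NeZero k] (P : ℝ) (hP : ∀ χ : DirichletCharacter ℂ k, χ ≠ 1 → ∀ N : ℕ,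
    ‖∑ n ∈ Icc 1 N, χ (n : ZMod k)‖ ≤ P) (N : ℕ) (b : ℕ → ℂ) (W : ℝ) (hW : 0 < W)
    (hWP : 2 * (∑ n ∈ Icc 1 N, ‖b n‖ ^ 2) * P ≤ W ^ 2) (X : Finset (DirichletCharacter ℂ k))
    (hX : ∀ χ ∈ X, W ≤ ‖∑ n ∈ Icc 1 N, b n * χ (n : ZMod k)‖) :
    ∑ χ ∈ X, ‖∑ n ∈ Icc 1 N, b n * χ (n : ZMod k)‖ ^ 2 ≤ 2 * N * ∑ n ∈ Icc 1 N, ‖b n‖ ^ 2 := by
  classical
  set B : DirichletCharacter ℂ k → ℂ := fun χ => ∑ n ∈ Icc 1 N, b n * χ (n : ZMod k) with hB
  set S : ℝ := ∑ χ ∈ X, ‖B χ‖ ^ 2 with hS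
  set G : ℝ := ∑ n ∈ Icc 1 N, ‖b n‖ ^ 2 with hG
  have hG0 : 0 ≤ G := sum_nonneg fun n _ => by positivity
  have hS0 : 0 ≤ S := sum_nonneg fun n _ => by positivity
  change S ≤ 2 * N * G
  -- the bound for the inner sums
  set P' : ℝ := max P 0 with hP'
  have hP'0 : 0 ≤ P' := le_max_right _ _
  have hWP' : 2 * G * P' ≤ W ^ 2 := by
    rcases le_total P 0 with h | h
    · rw [hP', max_eq_right h]; simp; positivity
    · rw [hP', max_eq_left h]; exact hWP
  set K : DirichletCharacter ℂ k → DirichletCharacter ℂ k → ℂ := fun χ ψ =>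
    ∑ n ∈ Icc 1 N, χ (n : ZMod k) * star (ψ (n : ZMod k)) with hK
  have hKdiag : ∀ χ, ‖K χ χ‖ ≤ N := by
    intro χ
    calc ‖K χ χ‖ ≤ ∑ n ∈ Icc 1 N, ‖χ (n : ZMod k) * star (χ (n : ZMod k))‖ := norm_sum_le _ _
      _ ≤ ∑ _n ∈ Icc 1 N, (1 : ℝ) := by
          refine sum_le_sum fun n _ => ?_
          rw [norm_mul, norm_star]
          have h1 := χ.norm_le_one (n : ZMod k)
          have h0 := norm_nonneg (χ (n : ZMod k))
          nlinarith
      _ = N := by simp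
  have hKoff : ∀ χ ψ, χ ≠ ψ → ‖K χ ψ‖ ≤ P' := by
    intro χ ψ h
    have h1 : K χ ψ = ∑ n ∈ Icc 1 N, (χ * ψ⁻¹) (n : ZMod k) := by
      refine sum_congr rfl fun n _ => ?_
      rw [MulChar.star_apply', MulChar.mul_apply]
    rw [h1]
    refine le_trans (hP _ ?_ N) (le_max_left _ _)
    intro h2
    exact h (mul_inv_eq_one.1 h2)
  -- duality
  set T : ℕ → ℂ := fun n => ∑ χ ∈ X, star (B χ) * χ (n : ZMod k) with hT
  have hST : (S : ℂ) = ∑ n ∈ Icc 1 N, b n * T n := by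
    have h1 : (S : ℂ) = ∑ χ ∈ X, star (B χ) * B χ := by
      rw [hS]; push_cast
      refine sum_congr rfl fun χ _ => ?_
      rw [Complex.star_def, mul_comm, Complex.mul_conj, Complex.normSq_eq_norm_sq]
      push_cast; rfl
    rw [h1]
    have h2 : ∀ χ, star (B χ) * B χ = ∑ n ∈ Icc 1 N, b n * (star (B χ) * χ (n : ZMod k)) := by
      intro χ
      have h3 : B χ = ∑ n ∈ Icc 1 N, b n * χ (n : ZMod k) := rfl
      nth_rewrite 2 [h3]
      rw [mul_sum]
      exact sum_congr rfl fun n _ => by ring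
    simp only [h2]
    rw [sum_comm]
    refine sum_congr rfl fun n _ => ?_
    rw [hT, mul_sum]
  have hTT : ∑ n ∈ Icc 1 N, ‖T n‖ ^ 2 ≤ N * S + P' * (∑ χ ∈ X, ‖B χ‖) ^ 2 := by
    have h1 : ((∑ n ∈ Icc 1 N, ‖T n‖ ^ 2 : ℝ) : ℂ) =
        ∑ χ ∈ X, ∑ ψ ∈ X, star (B χ) * B ψ * K χ ψ := by
      have h2 : ∀ n, ((‖T n‖ ^ 2 : ℝ) : ℂ) = ∑ χ ∈ X, ∑ ψ ∈ X,
          star (B χ) * B ψ * (χ (n : ZMod k) * star (ψ (n : ZMod k))) := by
        intro n
        have h3 : ((‖T n‖ ^ 2 : ℝ) : ℂ) = T n * star (T n) := by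
          rw [Complex.star_def, Complex.mul_conj, Complex.normSq_eq_norm_sq]
        rw [h3]
        have h4 : star (T n) = ∑ ψ ∈ X, B ψ * star (ψ (n : ZMod k)) := by
          simp only [hT]
          rw [star_sum]
          refine sum_congr rfl fun ψ _ => ?_
          rw [star_mul', star_star]
        rw [h4]
        simp only [hT]
        rw [sum_mul_sum]
        refine sum_congr rfl fun χ _ => sum_congr rfl fun ψ _ => by ring
      push_cast
      have h5 : ∀ n, ((‖T n‖ : ℂ)) ^ 2 = ∑ χ ∈ X, ∑ ψ ∈ X,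
          star (B χ) * B ψ * (χ (n : ZMod k) * star (ψ (n : ZMod k))) := by
        intro n; rw [← h2 n]; push_cast; rfl
      simp only [h5]
      rw [sum_comm]
      refine sum_congr rfl fun χ _ => ?_
      rw [sum_comm]
      refine sum_congr rfl fun ψ _ => ?_
      exact (mul_sum _ _ _).symm
    have h2 : ∑ n ∈ Icc 1 N, ‖T n‖ ^ 2 ≤ ∑ χ ∈ X, ∑ ψ ∈ X, ‖B χ‖ * ‖B ψ‖ * ‖K χ ψ‖ := by
      have h3 : ∑ n ∈ Icc 1 N, ‖T n‖ ^ 2 = ‖((∑ n ∈ Icc 1 N, ‖T n‖ ^ 2 : ℝ) : ℂ)‖ := by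
        rw [Complex.norm_real, Real.norm_of_nonneg (sum_nonneg fun n _ => by positivity)]
      rw [h3, h1]
      refine le_trans (norm_sum_le _ _) (sum_le_sum fun χ _ => ?_)
      refine le_trans (norm_sum_le _ _) (sum_le_sum fun ψ _ => ?_)
      rw [norm_mul, norm_mul, norm_star]
    refine le_trans h2 ?_
    have h3 : ∀ χ ∈ X, ∀ ψ ∈ X, ‖B χ‖ * ‖B ψ‖ * ‖K χ ψ‖ ≤
        (if χ = ψ then (N : ℝ) * ‖B χ‖ ^ 2 else 0) + P' * (‖B χ‖ * ‖B ψ‖) := by
      intro χ _ ψ _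
      have hb : 0 ≤ ‖B χ‖ * ‖B ψ‖ := by positivity
      by_cases h : χ = ψ
      · subst h
        rw [if_pos rfl]
        have h4 := mul_le_mul_of_nonneg_left (hKdiag χ) hb
        have h5 : 0 ≤ P' * (‖B χ‖ * ‖B χ‖) := mul_nonneg hP'0 hb
        nlinarith
      · rw [if_neg h, zero_add, mul_comm P']
        exact mul_le_mul_of_nonneg_left (hKoff χ ψ h) hb
    refine le_trans (sum_le_sum fun χ hχ => sum_le_sum fun ψ hψ => h3 χ hχ ψ hψ) ?_
    simp only [sum_add_distrib]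
    refine le_of_eq ?_
    congr 1
    · rw [hS, mul_sum]
      refine sum_congr rfl fun χ hχ => ?_
      rw [sum_ite_eq, if_pos hχ]
    · rw [pow_two, sum_mul_sum, mul_sum]
      refine sum_congr rfl fun χ _ => ?_
      rw [mul_sum]
  -- Cauchy
  have hCS : S ^ 2 ≤ G * ∑ n ∈ Icc 1 N, ‖T n‖ ^ 2 := by
    have h1 : S ≤ ∑ n ∈ Icc 1 N, ‖b n‖ * ‖T n‖ := by
      have h2 : S = ‖(S : ℂ)‖ := by rw [Complex.norm_real, Real.norm_of_nonneg hS0]
      rw [h2, hST]
      refine le_trans (norm_sum_le _ _) (sum_le_sum fun n _ => ?_)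
      rw [norm_mul]
    have h3 := sum_mul_sq_le_sq_mul_sq (Icc 1 N) (fun n => ‖b n‖) (fun n => ‖T n‖)
    exact le_trans (pow_le_pow_left₀ hS0 h1 2) h3
  -- the sum of the norms
  have hN1 : W * ∑ χ ∈ X, ‖B χ‖ ≤ S := by
    rw [mul_sum, hS]
    refine sum_le_sum fun χ hχ => ?_
    have h1 := hX χ hχ
    have h2 : W ≤ ‖B χ‖ := h1
    have h0 := norm_nonneg (B χ)
    nlinarith
  have hsum0 : 0 ≤ ∑ χ ∈ X, ‖B χ‖ := sum_nonneg fun χ _ => norm_nonneg _
  have h1 : 2 * (G * (P' * (∑ χ ∈ X, ‖B χ‖) ^ 2)) ≤ S ^ 2 := by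
    have h2 : (W * ∑ χ ∈ X, ‖B χ‖) ^ 2 ≤ S ^ 2 :=
      pow_le_pow_left₀ (mul_nonneg hW.le hsum0) hN1 2
    have h3 : 2 * G * P' * (∑ χ ∈ X, ‖B χ‖) ^ 2 ≤ W ^ 2 * (∑ χ ∈ X, ‖B χ‖) ^ 2 :=
      mul_le_mul_of_nonneg_right hWP' (by positivity)
    nlinarith
  have h2 : S ^ 2 ≤ G * (N * S) + S ^ 2 / 2 := by
    have h3 := mul_le_mul_of_nonneg_left hTT hG0
    nlinarith
  rcases hS0.eq_or_lt with h3 | h3
  · rw [← h3]; positivity
  · have h4 : S * S ≤ (2 * N * G) * S := by nlinarith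
    exact le_of_mul_le_mul_right h4 h3

end Pool.Agent.HN
end

section
/-! # Module TL2

`dual_large_sieve` for the points `b/s`, `s ≤ Q` coprime to `q` (spacing `1/(Q² + 1)`, see
`farey_spacing`), coefficients `(q/φ(q)) μ(s)/φ(s)`:
`∑_{n ≤ x} ‖TM‖² ≤ 10 (x + Q² + 1) (q/φ(q))² ∑_{s ≤ Q} 1/φ(s)`; `sum_inv_totient` (for `3 ≤ x`, extend the sum to
`s ≤ x`), and `q/φ(q) ≤ 2 (1 + log q)` from `DivSum_totient`. -/

namespace Pool.Agent.HL

open Finset Pool.Agent.BV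
open scoped ArithmeticFunction.vonMangoldt ArithmeticFunction.Moebius

theorem ratio_le (q : ℕ) (hq : 1 ≤ q) : (q : ℝ) / q.totient ≤ 2 * (1 + Real.log q) := by
  have hq0 : (0 : ℝ) < q := by exact_mod_cast hq
  have h1 := DivSum_totient q (by omega)
  have h2 : ∑ d ∈ q.divisors, ((d : ℝ))⁻¹ ≤ ∑ i ∈ Icc 1 q, ((i : ℝ))⁻¹ := by
    apply sum_le_sum_of_subset_of_nonneg
    · intro d hd
      exact mem_Icc.mpr ⟨Nat.pos_of_mem_divisors hd, Nat.divisor_le hd⟩
    · intros; positivity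
  have h3 := DivSum_H q
  calc (q : ℝ) / q.totient = q * (1 / q.totient) := by ring
    _ ≤ q * (2 * ((q : ℝ))⁻¹ * ∑ d ∈ q.divisors, ((d : ℝ))⁻¹) :=
        mul_le_mul_of_nonneg_left h1 hq0.le
    _ = 2 * ∑ d ∈ q.divisors, ((d : ℝ))⁻¹ := by field_simp
    _ ≤ 2 * (1 + Real.log q) := by linarith

end Pool.Agent.HL
end

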