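import Pool.Agent.Work.BV.GaussLS
import Pool.Agent.Work.BV.Reduce
import Pool.Agent.Work.GBM.C01

section
/-! # Module VarA: Parseval for the primes in the residue classes mod `k` -/

namespace Pool.Agent.HL

open Finset Pool.Agent.BV
open scoped ArithmeticFunction.vonMangoldt

/-- orthogonality of two characters, summed over the units -/
lemma varA_orth (k : ℕ) [NeZero k] (χ ψ : DirichletCharacter ℂ k) :
    ∑ u : (ZMod k)ˣ, χ (u : ZMod k) * star (ψ (u : ZMod k)) =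
      if χ = ψ then (k.totient : ℂ) else 0 := by
  classical
  have h1 : ∑ u : (ZMod k)ˣ, χ (u : ZMod k) * star (ψ (u : ZMod k)) =
      ∑ a : ZMod k, (χ * ψ⁻¹) a := by
    have h2 : ∑ a : ZMod k, (χ * ψ⁻¹) a = ∑ a ∈ univ.filter (fun a : ZMod k => IsUnit a),
        (χ * ψ⁻¹) a := by
      symm
      apply sum_subset (filter_subset _ _)
      intro a _ ha
      exact MulChar.map_nonunit _ (fun h => ha (mem_filter.2 ⟨mem_univ _, h⟩))
    rw [h2]
    refine sum_bij (fun (u : (ZMod k)ˣ) _ => (u : ZMod k)) ?_ ?_ ?_ ?_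
    · intro u _
      exact mem_filter.2 ⟨mem_univ _, u.isUnit⟩
    · intro u _ v _ h
      exact Units.ext h
    · intro a ha
      obtain ⟨u, hu⟩ := (mem_filter.1 ha).2
      exact ⟨u, mem_univ _, hu⟩
    · intro u _
      rw [MulChar.mul_apply, MulChar.star_apply']
  rw [h1]
  by_cases h : χ = ψ
  · rw [if_pos h, h, mul_inv_cancel, MulChar.sum_one_eq_card_units, ZMod.card_units_eq_totient]
  · rw [if_neg h]
    exact MulChar.sum_eq_zero_of_ne_one (fun h' => h (mul_inv_eq_one.1 h'))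

/-- Parseval over the units -/
lemma varA_parseval (k : ℕ) [NeZero k] (f : DirichletCharacter ℂ k → ℂ) :
    ∑ u : (ZMod k)ˣ, ‖∑ χ : DirichletCharacter ℂ k, χ (u : ZMod k) * f χ‖ ^ 2 =
      k.totient * ∑ χ : DirichletCharacter ℂ k, ‖f χ‖ ^ 2 := by
  classical
  have hC : ((∑ u : (ZMod k)ˣ, ‖∑ χ : DirichletCharacter ℂ k, χ (u : ZMod k) * f χ‖ ^ 2 : ℝ) : ℂ) =
      ((k.totient * ∑ χ : DirichletCharacter ℂ k, ‖f χ‖ ^ 2 : ℝ) : ℂ) := by
    have hn : ∀ z : ℂ, ((‖z‖ ^ 2 : ℝ) : ℂ) = z * star z := by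
      intro z
      have h := Complex.mul_conj z
      rw [Complex.normSq_eq_norm_sq] at h
      exact h.symm
    rw [Complex.ofReal_sum]
    simp only [hn]
    push_cast
    have h1 : ∀ u : (ZMod k)ˣ, (∑ χ : DirichletCharacter ℂ k, χ (u : ZMod k) * f χ) *
        star (∑ χ : DirichletCharacter ℂ k, χ (u : ZMod k) * f χ) =
        ∑ χ : DirichletCharacter ℂ k, ∑ ψ : DirichletCharacter ℂ k,
          f χ * star (f ψ) * (χ (u : ZMod k) * star (ψ (u : ZMod k))) := by
      intro u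
      rw [star_sum, sum_mul_sum]
      refine sum_congr rfl fun χ _ => sum_congr rfl fun ψ _ => ?_
      rw [star_mul']
      ring
    rw [sum_congr rfl fun u _ => h1 u, sum_comm]
    rw [mul_sum]
    refine sum_congr rfl fun χ _ => ?_
    rw [sum_comm]
    have h2 : ∀ ψ : DirichletCharacter ℂ k, ∑ u : (ZMod k)ˣ,
        f χ * star (f ψ) * (χ (u : ZMod k) * star (ψ (u : ZMod k))) =
        if χ = ψ then f χ * star (f ψ) * (k.totient : ℂ) else 0 := by
      intro ψ
      rw [← mul_sum, varA_orth]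
      split_ifs <;> simp
    rw [sum_congr rfl fun ψ _ => h2 ψ, sum_ite_eq, if_pos (mem_univ _)]
    have h3 := hn (f χ)
    push_cast at h3
    rw [h3]
    ring
  exact_mod_cast hC

/-- the residues coprime to `k` are the units mod `k` -/
lemma varA_sum_units (k : ℕ) [NeZero k] (H : ℕ → ℝ) :
    ∑ c ∈ (range k).filter (fun c => c.Coprime k), H c =
      ∑ u : (ZMod k)ˣ, H ((u : ZMod k).val) := by
  symm
  refine sum_bij (fun (u : (ZMod k)ˣ) _ => (u : ZMod k).val) ?_ ?_ ?_ ?_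
  · intro u _
    exact mem_filter.2 ⟨mem_range.2 (ZMod.val_lt _), ZMod.val_coe_unit_coprime u⟩
  · intro u _ v _ h
    exact Units.ext (ZMod.val_injective k h)
  · intro c hc
    obtain ⟨hc1, hc2⟩ := mem_filter.1 hc
    refine ⟨ZMod.unitOfCoprime c hc2, mem_univ _, ?_⟩
    rw [ZMod.coe_unitOfCoprime, ZMod.val_cast_of_lt (mem_range.1 hc1)]
  · intro u _
    rfl

open Classical in
/-- **Parseval.** -/
theorem psiA_parseval (k : ℕ) [NeZero k] (y : ℕ) :
    ∑ c ∈ (range k).filter (fun c => c.Coprime k),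
        ‖(psiA k c y : ℂ) - psiC (1 : DirichletCharacter ℂ k) y / (k.totient : ℂ)‖ ^ 2 =
      1 / (k.totient : ℝ) *
        ∑ χ ∈ (univ : Finset (DirichletCharacter ℂ k)).erase 1, ‖psiC χ y‖ ^ 2 := by
  have hφ : 0 < k.totient := Nat.totient_pos.2 (Nat.pos_of_ne_zero (NeZero.ne k))
  have hφR : (0 : ℝ) < k.totient := by exact_mod_cast hφ
  have hφC : (k.totient : ℂ) ≠ 0 := by exact_mod_cast hφ.ne'
  set f : DirichletCharacter ℂ k → ℂ := fun χ => if χ = 1 then 0 else psiC χ y with hf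
  have h1 : ∀ u : (ZMod k)ˣ,
      ‖(psiA k (u : ZMod k).val y : ℂ) - psiC (1 : DirichletCharacter ℂ k) y / (k.totient : ℂ)‖ ^ 2 =
      (1 / (k.totient : ℝ)) ^ 2 *
        ‖∑ χ : DirichletCharacter ℂ k, χ ((u⁻¹ : (ZMod k)ˣ) : ZMod k) * f χ‖ ^ 2 := by
    intro u
    have h2 : (psiA k (u : ZMod k).val y : ℂ) -
        psiC (1 : DirichletCharacter ℂ k) y / (k.totient : ℂ) =
        (1 / (k.totient : ℂ)) *
          ∑ χ : DirichletCharacter ℂ k, χ ((u⁻¹ : (ZMod k)ˣ) : ZMod k) * f χ := by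
      rw [psiA_eq k _ y (ZMod.val_coe_unit_coprime u), ZMod.natCast_zmod_val, ZMod.inv_coe_unit,
        ← add_sum_erase univ _ (mem_univ (1 : DirichletCharacter ℂ k)),
        ← add_sum_erase univ (fun χ : DirichletCharacter ℂ k =>
          χ ((u⁻¹ : (ZMod k)ˣ) : ZMod k) * f χ) (mem_univ (1 : DirichletCharacter ℂ k)),
        MulChar.one_apply (u⁻¹ : (ZMod k)ˣ).isUnit, one_mul]
      have h3 : ∑ χ ∈ (univ : Finset (DirichletCharacter ℂ k)).erase 1,
          χ ((u⁻¹ : (ZMod k)ˣ) : ZMod k) * f χ =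
          ∑ χ ∈ (univ : Finset (DirichletCharacter ℂ k)).erase 1,
            χ ((u⁻¹ : (ZMod k)ˣ) : ZMod k) * psiC χ y := by
        refine sum_congr rfl fun χ hχ => ?_
        rw [hf]
        simp only
        rw [if_neg (mem_erase.1 hχ).1]
      rw [h3]
      have h4 : f 1 = 0 := by rw [hf]; simp
      rw [h4]
      ring
    rw [h2, norm_mul, mul_pow]
    congr 2
    rw [norm_div, norm_one, Complex.norm_natCast]
  rw [varA_sum_units k (fun c =>
    ‖(psiA k c y : ℂ) - psiC (1 : DirichletCharacter ℂ k) y / (k.totient : ℂ)‖ ^ 2)]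
  rw [sum_congr rfl fun u _ => h1 u, ← mul_sum]
  have h5 : ∑ u : (ZMod k)ˣ,
      ‖∑ χ : DirichletCharacter ℂ k, χ ((u⁻¹ : (ZMod k)ˣ) : ZMod k) * f χ‖ ^ 2 =
      ∑ u : (ZMod k)ˣ, ‖∑ χ : DirichletCharacter ℂ k, χ (u : ZMod k) * f χ‖ ^ 2 :=
    Equiv.sum_comp (Equiv.inv (ZMod k)ˣ)
      (fun u : (ZMod k)ˣ => ‖∑ χ : DirichletCharacter ℂ k, χ (u : ZMod k) * f χ‖ ^ 2)
  rw [h5, varA_parseval]
  have h6 : ∑ χ : DirichletCharacter ℂ k, ‖f χ‖ ^ 2 =
      ∑ χ ∈ (univ : Finset (DirichletCharacter ℂ k)).erase 1, ‖psiC χ y‖ ^ 2 := by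
    rw [← add_sum_erase univ _ (mem_univ (1 : DirichletCharacter ℂ k))]
    have h4 : f 1 = 0 := by rw [hf]; simp
    rw [h4, norm_zero]
    have h7 : ∀ χ ∈ (univ : Finset (DirichletCharacter ℂ k)).erase 1, ‖f χ‖ ^ 2 = ‖psiC χ y‖ ^ 2 := by
      intro χ hχ
      rw [hf]
      simp only
      rw [if_neg (mem_erase.1 hχ).1]
    rw [sum_congr rfl h7]
    simp
  rw [h6]
  field_simp

end Pool.Agent.HL
end

section
/-! # Module Circle: the `L²` inequality

`cv_comm`: reindexing `k ↦ n - k`.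

`circle`: let `N > 2 x` (e.g. `N = 2 x + 1`), `α_j = j / (q N)`, `j < N`. Put
`P_j = ∑_{a < q} H_a(α_j) G_{a'}(α_j)`, `H_a`, `G_a` the sums over the classes mod `q` as in `VV`,
`a' = (q - a) % q`. Expanding, `P_j = ∑_k R(k) e(j k / N)`, where `R(k)` is the sum of
`h(n₁) g(n₂)` over `n₁, n₂ ∈ [1, x]` with `n₁ + n₂ = q k` (so `0 < k < N`), and for `q m ≤ x` one has
`R(m) = cv h g (q m)`. Parseval mod `N` (`gaussLS_parseval`, or a direct geometric sum):
`∑_k |R(k)|² = (1/N) ∑_j |P_j|²`, Cauchy: `|P_j|² ≤ VV q x h α_j * VV q x g α_j ≤ K * VV q x g α_j`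
(`a ↦ a'` permutes `range q`), and Parseval again for each class: the integers `n ≡ a` mod `q` in
`[1, x]`, `n = a + q u`, have `u < N` distinct mod `N`, so
`∑_j ‖G_a(α_j)‖² = N ∑_{n ≡ a} ‖g n‖²`. -/

namespace Pool.Agent.HL

open Finset Pool.Agent.BV

theorem circ_sum_range {N : ℕ} [NeZero N] {E : Type*} [AddCommMonoid E] (F : ZMod N → E) :
    ∑ j ∈ range N, F (j : ZMod N) = ∑ n : ZMod N, F n := by
  refine Finset.sum_nbij' (fun j => (j : ZMod N)) (fun n => n.val) ?_ ?_ ?_ ?_ ?_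
  · intro j _; simp
  · intro n _; simpa using ZMod.val_lt n
  · intro j hj; simpa using ZMod.val_cast_of_lt (mem_range.1 hj)
  · intro n _; simp
  · intro j _; rfl

/-- Parseval for a finite set of frequencies distinct mod `N` -/
theorem circ_parseval {N : ℕ} [NeZero N] (S : Finset ℕ) (u : ℕ → ℕ) (hu : ∀ n ∈ S, u n < N)
    (inj : ∀ n ∈ S, ∀ m ∈ S, u n = u m → n = m) (c : ℕ → ℂ) :
    ∑ j ∈ range N, ‖∑ n ∈ S, c n * e (u n * ((j : ℝ) / N))‖ ^ 2 = N * ∑ n ∈ S, ‖c n‖ ^ 2 := by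
  classical
  have key : ∀ n ∈ S, ∀ m ∈ S, (u n : ZMod N) = (u m : ZMod N) → n = m := by
    intro n hn m hm h
    have h1 := (ZMod.natCast_eq_natCast_iff _ _ _).1 h
    exact inj n hn m hm (Nat.ModEq.eq_of_lt_of_lt h1 (hu n hn) (hu m hm))
  set f : ZMod N → ℂ := fun b => ∑ n ∈ S.filter (fun n => (u n : ZMod N) = b), c n with hf
  have h1 := gaussLS_parseval f
  have h2 : ∀ j : ZMod N, ∑ b, f b * ZMod.stdAddChar (j * b) =
      ∑ n ∈ S, c n * ZMod.stdAddChar (j * (u n : ZMod N)) := by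
    intro j
    rw [← Finset.sum_fiberwise S (fun n => (u n : ZMod N))
      (fun n => c n * ZMod.stdAddChar (j * (u n : ZMod N)))]
    refine sum_congr rfl fun b _ => ?_
    rw [hf, Finset.sum_mul]
    refine sum_congr rfl fun n hn => ?_
    rw [(mem_filter.1 hn).2]
  have h3 : ∑ b, ‖f b‖ ^ 2 = ∑ n ∈ S, ‖c n‖ ^ 2 := by
    rw [← Finset.sum_fiberwise S (fun n => (u n : ZMod N)) (fun n => ‖c n‖ ^ 2)]
    refine sum_congr rfl fun b _ => ?_
    simp only [hf]
    have hcard : (S.filter (fun n => (u n : ZMod N) = b)).card ≤ 1 := by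
      rw [Finset.card_le_one]
      intro n hn m hm
      rw [mem_filter] at hn hm
      exact key n hn.1 m hm.1 (hn.2.trans hm.2.symm)
    rcases Nat.le_one_iff_eq_zero_or_eq_one.1 hcard with h0 | h0
    · rw [Finset.card_eq_zero] at h0
      simp [h0]
    · obtain ⟨n, hn⟩ := Finset.card_eq_one.1 h0
      simp [hn]
  rw [h3] at h1
  rw [← h1, ← circ_sum_range]
  refine sum_congr rfl fun j _ => ?_
  rw [h2]
  congr 2
  refine sum_congr rfl fun n _ => ?_
  rw [gaussLS_e, mul_comm ((u n : ZMod N)) _]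

/-- the sum over a class -/
noncomputable def circS (q x : ℕ) (f : ℕ → ℂ) (α : ℝ) (a : ℕ) : ℂ :=
  ∑ n ∈ (Icc 1 x).filter (fun n => n % q = a), f n * e (n * α)

theorem circ_neg_mod {q : ℕ} (_hq : 1 ≤ q) {a : ℕ} (ha : a < q) (n : ℕ) :
    q ∣ a + n ↔ n % q = (q - a) % q := by
  constructor
  · intro h
    have h1 : a + n ≡ a + (q - a) [MOD q] := by
      rw [Nat.add_sub_cancel' ha.le]
      exact ((Nat.modEq_zero_iff_dvd.2 h).trans (Nat.modEq_zero_iff_dvd.2 dvd_rfl).symm)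
    exact Nat.ModEq.add_left_cancel' a h1
  · intro h
    have h1 : a + n ≡ a + (q - a) [MOD q] := Nat.ModEq.add_left a h
    rw [Nat.add_sub_cancel' ha.le] at h1
    exact Nat.modEq_zero_iff_dvd.1 (h1.trans (Nat.modEq_zero_iff_dvd.2 dvd_rfl))

theorem circ_pairs (q x : ℕ) (hq : 1 ≤ q) (h g : ℕ → ℂ) (α : ℝ) :
    ∑ p ∈ ((Icc 1 x) ×ˢ (Icc 1 x)).filter (fun p => q ∣ p.1 + p.2),
      h p.1 * g p.2 * e (((p.1 + p.2 : ℕ) : ℝ) * α) =
    ∑ a ∈ range q, circS q x h α a * circS q x g α ((q - a) % q) := by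
  rw [← Finset.sum_fiberwise_of_maps_to (s := ((Icc 1 x) ×ˢ (Icc 1 x)).filter
    (fun p => q ∣ p.1 + p.2)) (t := range q) (g := fun p => p.1 % q)
    (fun p _ => mem_range.2 (Nat.mod_lt _ (by omega)))]
  refine sum_congr rfl fun a ha => ?_
  rw [mem_range] at ha
  unfold circS
  rw [Finset.sum_mul_sum, ← Finset.sum_product']
  refine sum_congr ?_ ?_
  · ext p
    simp only [mem_filter, mem_product]
    constructor
    · rintro ⟨⟨⟨h1, h2⟩, h3⟩, h4⟩
      refine ⟨⟨h1, h4⟩, h2, ?_⟩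
      rw [← circ_neg_mod hq ha, ← h4]
      have : (p.1 % q + p.2) % q = 0 := by
        rw [Nat.mod_add_mod]; exact Nat.mod_eq_zero_of_dvd h3
      exact Nat.dvd_of_mod_eq_zero this
    · rintro ⟨⟨h1, h4⟩, h2, h5⟩
      refine ⟨⟨⟨h1, h2⟩, ?_⟩, h4⟩
      rw [← circ_neg_mod hq ha, ← h4] at h5
      have : (p.1 % q + p.2) % q = 0 := Nat.mod_eq_zero_of_dvd h5
      rw [Nat.mod_add_mod] at this
      exact Nat.dvd_of_mod_eq_zero this
  · intro p _
    have : (((p.1 + p.2 : ℕ) : ℝ) * α) = (p.1 : ℝ) * α + (p.2 : ℝ) * α := by push_cast; ring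
    rw [this, add_e_add]
    ring

theorem circ_perm (q : ℕ) (hq : 1 ≤ q) (F : ℕ → ℝ) :
    ∑ a ∈ range q, F ((q - a) % q) = ∑ a ∈ range q, F a := by
  have hinv : ∀ a < q, (q - (q - a) % q) % q = a := by
    intro a ha
    rcases Nat.eq_zero_or_pos a with h0 | h0
    · subst h0; simp
    · rw [Nat.mod_eq_of_lt (by omega : q - a < q)]
      rw [Nat.mod_eq_of_lt (by omega : q - (q - a) < q)]
      omega
  refine Finset.sum_nbij' (fun a => (q - a) % q) (fun a => (q - a) % q) ?_ ?_ ?_ ?_ ?_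
  · intro a _; exact mem_range.2 (Nat.mod_lt _ (by omega))
  · intro a _; exact mem_range.2 (Nat.mod_lt _ (by omega))
  · intro a ha; exact hinv a (mem_range.1 ha)
  · intro a ha; exact hinv a (mem_range.1 ha)
  · intro a _; rfl

theorem circ_cauchy (q x : ℕ) (hq : 1 ≤ q) (h g : ℕ → ℂ) (α : ℝ) :
    ‖∑ a ∈ range q, circS q x h α a * circS q x g α ((q - a) % q)‖ ^ 2 ≤
      VV q x h α * VV q x g α := by
  have h1 : ‖∑ a ∈ range q, circS q x h α a * circS q x g α ((q - a) % q)‖ ≤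
      ∑ a ∈ range q, ‖circS q x h α a‖ * ‖circS q x g α ((q - a) % q)‖ := by
    refine (norm_sum_le _ _).trans (le_of_eq ?_)
    exact sum_congr rfl fun a _ => norm_mul _ _
  calc _ ≤ (∑ a ∈ range q, ‖circS q x h α a‖ * ‖circS q x g α ((q - a) % q)‖) ^ 2 :=
        pow_le_pow_left₀ (norm_nonneg _) h1 2
    _ ≤ (∑ a ∈ range q, ‖circS q x h α a‖ ^ 2) *
          ∑ a ∈ range q, ‖circS q x g α ((q - a) % q)‖ ^ 2 :=
        Finset.sum_mul_sq_le_sq_mul_sq _ _ _
    _ = _ := by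
        rw [circ_perm q hq (fun a => ‖circS q x g α a‖ ^ 2)]
        rfl

/-- the mean value of `VV` over the points `j / (q N)` -/
theorem circ_mean (q x N : ℕ) (hq : 1 ≤ q) [NeZero N] (hN : x < N) (g : ℕ → ℂ) :
    ∑ j ∈ range N, VV q x g (((j : ℝ) / N) / q) = N * ∑ n ∈ Icc 1 x, ‖g n‖ ^ 2 := by
  unfold VV
  rw [sum_comm, ← Finset.sum_fiberwise_of_maps_to (s := Icc 1 x) (t := range q)
    (g := fun n => n % q) (fun n _ => mem_range.2 (Nat.mod_lt _ (by omega))), mul_sum]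
  refine sum_congr rfl fun a _ => ?_
  rw [← circ_parseval ((Icc 1 x).filter (fun n => n % q = a)) (fun n => n / q) ?_ ?_ g]
  · refine sum_congr rfl fun j _ => ?_
    congr 1
    have hq0 : (q : ℝ) ≠ 0 := by positivity
    have h1 : ∑ n ∈ (Icc 1 x).filter (fun n => n % q = a), g n * e (n * (((j : ℝ) / N) / q)) =
        (∑ n ∈ (Icc 1 x).filter (fun n => n % q = a), g n * e (((n / q : ℕ) : ℝ) *
          ((j : ℝ) / N))) * e (a * (((j : ℝ) / N) / q)) := by
      rw [sum_mul]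
      refine sum_congr rfl fun n hn => ?_
      have hn2 := (mem_filter.1 hn).2
      have h3 : (n : ℝ) = ((n / q : ℕ) : ℝ) * q + a := by
        have := Nat.div_add_mod n q
        rw [hn2] at this
        have h4 : ((q * (n / q) + a : ℕ) : ℝ) = (n : ℝ) := by rw [this]
        push_cast at h4
        linarith
      have h5 : (n : ℝ) * (((j : ℝ) / N) / q) =
          ((n / q : ℕ) : ℝ) * ((j : ℝ) / N) + a * (((j : ℝ) / N) / q) := by
        rw [h3]
        generalize ((n / q : ℕ) : ℝ) = y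
        field_simp
      rw [h5, add_e_add, mul_assoc]
    rw [h1, norm_mul]
    have h6 : ‖e (a * (((j : ℝ) / N) / q))‖ = 1 := by
      have h7 : e (a * (((j : ℝ) / N) / q)) =
          Complex.exp ((2 * Real.pi * (a * (((j : ℝ) / N) / q)) : ℝ) * Complex.I) := by
        unfold e; push_cast; rfl
      rw [h7, Complex.norm_exp_ofReal_mul_I]
    rw [h6, mul_one]
  · intro n hn
    have := (mem_Icc.1 (mem_filter.1 hn).1).2
    have h2 := Nat.div_le_self n q
    omega
  · intro n hn m hm hnm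
    have h1 := Nat.div_add_mod n q
    have h2 := Nat.div_add_mod m q
    rw [(mem_filter.1 hn).2] at h1
    rw [(mem_filter.1 hm).2] at h2
    rw [hnm] at h1
    omega

/-- the coefficient `R(k)` -/
noncomputable def circR (q x : ℕ) (h g : ℕ → ℂ) (k : ℕ) : ℂ :=
  ∑ p ∈ (((Icc 1 x) ×ˢ (Icc 1 x)).filter (fun p => q ∣ p.1 + p.2)).filter
    (fun p => (p.1 + p.2) / q = k), h p.1 * g p.2

theorem circ_expand (q x N : ℕ) (hq : 1 ≤ q) [NeZero N] (hN : 2 * x < N) (h g : ℕ → ℂ) (j : ℕ) :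
    ∑ k ∈ range N, circR q x h g k * e (k * ((j : ℝ) / N)) =
    ∑ a ∈ range q, circS q x h (((j : ℝ) / N) / q) a *
      circS q x g (((j : ℝ) / N) / q) ((q - a) % q) := by
  rw [← circ_pairs q x hq]
  have hmap : ∀ p ∈ ((Icc 1 x) ×ˢ (Icc 1 x)).filter (fun p => q ∣ p.1 + p.2),
      (p.1 + p.2) / q ∈ range N := by
    intro p hp
    simp only [mem_filter, mem_product, mem_Icc] at hp
    have := Nat.div_le_self (p.1 + p.2) q
    rw [mem_range]
    omega
  rw [← Finset.sum_fiberwise_of_maps_to hmap]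
  refine sum_congr rfl fun k _ => ?_
  unfold circR
  rw [sum_mul]
  refine sum_congr rfl fun p hp => ?_
  rw [mem_filter] at hp
  have h1 := (mem_filter.1 hp.1).2
  have h2 : p.1 + p.2 = q * k := by rw [← hp.2, Nat.mul_div_cancel' h1]
  rw [h2]
  congr 2
  have hq0 : (q : ℝ) ≠ 0 := by positivity
  push_cast
  field_simp

theorem circR_eq (q x : ℕ) (hq : 1 ≤ q) (h g : ℕ → ℂ) (m : ℕ) (hm : q * m ≤ x) :
    circR q x h g m = cv h g (q * m) := by
  unfold circR cv
  refine Finset.sum_nbij' (fun p => p.1) (fun k => (k, q * m - k)) ?_ ?_ ?_ ?_ ?_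
  · intro p hp
    simp only [mem_filter, mem_product, mem_Icc] at hp
    obtain ⟨⟨⟨⟨h1, h2⟩, h3, h4⟩, h5⟩, h6⟩ := hp
    have h7 : p.1 + p.2 = q * m := by rw [← h6, Nat.mul_div_cancel' h5]
    rw [mem_Ico]
    omega
  · intro k hk
    rw [mem_Ico] at hk
    have h1 : k + (q * m - k) = q * m := by omega
    simp only [mem_filter, mem_product, mem_Icc, h1]
    refine ⟨⟨⟨⟨hk.1, by omega⟩, by omega, by omega⟩, dvd_mul_right _ _⟩, ?_⟩
    exact Nat.mul_div_cancel_left m (by omega)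
  · intro p hp
    simp only [mem_filter, mem_product, mem_Icc] at hp
    obtain ⟨⟨⟨⟨h1, h2⟩, h3, h4⟩, h5⟩, h6⟩ := hp
    have h7 : p.1 + p.2 = q * m := by rw [← h6, Nat.mul_div_cancel' h5]
    ext
    · rfl
    · simp only; omega
  · intro k _; rfl
  · intro p hp
    simp only [mem_filter, mem_product, mem_Icc] at hp
    obtain ⟨⟨⟨⟨h1, h2⟩, h3, h4⟩, h5⟩, h6⟩ := hp
    have h7 : p.1 + p.2 = q * m := by rw [← h6, Nat.mul_div_cancel' h5]
    have h8 : q * m - p.1 = p.2 := by omega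
    simp only [h8]

theorem circle (q x : ℕ) (hq : 1 ≤ q) (h g : ℕ → ℂ) (K : ℝ) (hK : ∀ α, VV q x h α ≤ K) :
    ∑ m ∈ Icc 1 (x / q), ‖cv h g (q * m)‖ ^ 2 ≤ K * ∑ n ∈ Icc 1 x, ‖g n‖ ^ 2 := by
  have hNe : NeZero (2 * x + 1) := ⟨by omega⟩
  set N := 2 * x + 1 with hN
  have h1 : ∑ m ∈ Icc 1 (x / q), ‖cv h g (q * m)‖ ^ 2 ≤ ∑ k ∈ range N, ‖circR q x h g k‖ ^ 2 := by
    have h2 : ∑ m ∈ Icc 1 (x / q), ‖cv h g (q * m)‖ ^ 2 =
        ∑ m ∈ Icc 1 (x / q), ‖circR q x h g m‖ ^ 2 := by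
      refine sum_congr rfl fun m hm => ?_
      rw [circR_eq q x hq]
      have := (mem_Icc.1 hm).2
      calc q * m ≤ q * (x / q) := Nat.mul_le_mul_left q this
        _ ≤ x := Nat.mul_div_le x q
    rw [h2]
    refine sum_le_sum_of_subset_of_nonneg ?_ (fun _ _ _ => by positivity)
    intro m hm
    have := (mem_Icc.1 hm).2
    have h3 := Nat.div_le_self x q
    rw [mem_range]
    omega
  have h4 := circ_parseval (N := N) (range N) (fun k => k) (fun n hn => mem_range.1 hn)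
    (fun n _ m _ hnm => hnm) (circR q x h g)
  have h5 : ∑ j ∈ range N, ‖∑ n ∈ range N, circR q x h g n * e (n * ((j : ℝ) / N))‖ ^ 2 ≤
      K * (N * ∑ n ∈ Icc 1 x, ‖g n‖ ^ 2) := by
    rw [← circ_mean q x N hq (by omega) g, mul_sum]
    refine sum_le_sum fun j _ => ?_
    rw [circ_expand q x N hq (by omega)]
    refine (circ_cauchy q x hq h g _).trans ?_
    exact mul_le_mul_of_nonneg_right (hK _) (sum_nonneg fun _ _ => by positivity)
  rw [h4] at h5
  have hN0 : (0 : ℝ) < N := by positivity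
  have h6 : (N : ℝ) * ∑ k ∈ range N, ‖circR q x h g k‖ ^ 2 ≤
      N * (K * ∑ n ∈ Icc 1 x, ‖g n‖ ^ 2) := by
    calc _ ≤ _ := h5
      _ = _ := by ring
  exact h1.trans (le_of_mul_le_mul_left h6 hN0)

end Pool.Agent.HL
end

section
/-! # Module Dual

Let `F a = ∑_{n ≤ x, n % q = a} f n e(n α)`, `V = ∑_a ‖F a‖²`. If `V = 0` done; otherwise
`φ n = conj (F (n % q)) / √V` (and `F a = 0` for `a` not coprime to `q`, because `n % q = a` then
`n.Coprime q ↔ a.Coprime q`). The sum in `h` is `√V`. -/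

namespace Pool.Agent.HL

open Finset Pool.Agent.BV

theorem VV_nonneg (q x : ℕ) (f : ℕ → ℂ) (α : ℝ) : 0 ≤ VV q x f α :=
  Finset.sum_nonneg fun _ _ => by positivity

theorem VV_le (q x : ℕ) (hq : 1 ≤ q) (f : ℕ → ℂ) (hf : ∀ n, ¬ n.Coprime q → f n = 0) (α K : ℝ)
    (hK : 0 ≤ K) (h : ∀ φ, Tw q φ → ‖∑ n ∈ Icc 1 x, f n * φ n * e (n * α)‖ ≤ K) :
    VV q x f α ≤ K ^ 2 := by
  set F : ℕ → ℂ := fun a => ∑ n ∈ (Icc 1 x).filter (fun n => n % q = a), f n * e (n * α) with hF
  set V := VV q x f α with hV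
  have hVF : V = ∑ a ∈ range q, ‖F a‖ ^ 2 := rfl
  have hV0 : 0 ≤ V := VV_nonneg q x f α
  rcases hV0.eq_or_lt with h0 | hpos
  · rw [← h0]; positivity
  have hs : 0 < Real.sqrt V := Real.sqrt_pos.2 hpos
  have hsc : ((Real.sqrt V : ℝ) : ℂ) ≠ 0 := by exact_mod_cast hs.ne'
  have hss : Real.sqrt V * Real.sqrt V = V := Real.mul_self_sqrt hV0
  set φ : ℕ → ℂ := fun n => (starRingEnd ℂ) (F (n % q)) / (Real.sqrt V : ℂ) with hφ
  have hTw : Tw q φ := by
    refine ⟨?_, ?_, ?_⟩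
    · intro n
      simp only [hφ, Nat.mod_mod]
    · intro n hn
      have : F (n % q) = 0 := by
        refine sum_eq_zero fun m hm => ?_
        have h1 := (mem_filter.1 hm).2
        rw [hf m, zero_mul]
        intro h2
        apply hn
        have h3 : (m % q).Coprime q := by
          rw [Nat.Coprime, ← Nat.gcd_rec]
          exact (Nat.coprime_comm.1 h2)
        rw [h1] at h3
        rw [Nat.Coprime, ← Nat.gcd_rec] at h3
        exact Nat.coprime_comm.1 h3
      simp only [hφ, this, map_zero, zero_div]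
    · have h1 : ∀ a ∈ range q, ‖φ a‖ ^ 2 = ‖F a‖ ^ 2 / V := by
        intro a ha
        simp only [hφ, Nat.mod_eq_of_lt (mem_range.1 ha), norm_div, RCLike.norm_conj,
          Complex.norm_real, Real.norm_eq_abs, abs_of_pos hs, div_pow]
        rw [sq (Real.sqrt V), hss]
      rw [sum_congr rfl h1, ← sum_div, ← hVF, div_self hpos.ne']
  have h1 := h φ hTw
  have h2 : ∑ n ∈ Icc 1 x, f n * φ n * e (n * α) = ((Real.sqrt V : ℝ) : ℂ) := by
    rw [← Finset.sum_fiberwise_of_maps_to (s := Icc 1 x) (t := range q)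
      (g := fun n => n % q) (fun n _ => mem_range.2 (Nat.mod_lt _ (by omega)))]
    have h3 : ∀ a ∈ range q, ∑ n ∈ (Icc 1 x).filter (fun n => n % q = a),
        f n * φ n * e (n * α) = ((‖F a‖ ^ 2 : ℝ) : ℂ) / (Real.sqrt V : ℂ) := by
      intro a _
      have h4 : ∀ n ∈ (Icc 1 x).filter (fun n => n % q = a), f n * φ n * e (n * α) =
          (f n * e (n * α)) * ((starRingEnd ℂ) (F a) / (Real.sqrt V : ℂ)) := by
        intro n hn
        simp only [hφ, (mem_filter.1 hn).2]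
        ring
      rw [sum_congr rfl h4, ← sum_mul]
      have h5 : ((‖F a‖ ^ 2 : ℝ) : ℂ) = F a * (starRingEnd ℂ) (F a) := by
        rw [Complex.mul_conj, Complex.normSq_eq_norm_sq]
      rw [h5, mul_div_assoc]
    rw [sum_congr rfl h3, ← sum_div, ← Complex.ofReal_sum, ← hVF, div_eq_iff hsc]
    rw [← Complex.ofReal_mul, hss]
  rw [h2, Complex.norm_real, Real.norm_eq_abs, abs_of_pos hs] at h1
  calc V = Real.sqrt V ^ 2 := by rw [sq, hss]
    _ ≤ K ^ 2 := pow_le_pow_left₀ hs.le h1 2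

theorem VV_sub_le (q x : ℕ) (f g : ℕ → ℂ) (α : ℝ) :
    VV q x (fun n => f n - g n) α ≤ 2 * VV q x f α + 2 * VV q x g α := by
  unfold VV
  rw [mul_sum, mul_sum, ← sum_add_distrib]
  refine sum_le_sum fun a _ => ?_
  have h1 : ∑ n ∈ (Icc 1 x).filter (fun n => n % q = a), (f n - g n) * e (n * α) =
      (∑ n ∈ (Icc 1 x).filter (fun n => n % q = a), f n * e (n * α)) -
      ∑ n ∈ (Icc 1 x).filter (fun n => n % q = a), g n * e (n * α) := by
    rw [← sum_sub_distrib]
    exact sum_congr rfl fun n _ => sub_mul _ _ _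
  rw [h1]
  have h2 := norm_sub_le (∑ n ∈ (Icc 1 x).filter (fun n => n % q = a), f n * e (n * α))
    (∑ n ∈ (Icc 1 x).filter (fun n => n % q = a), g n * e (n * α))
  have h3 := pow_le_pow_left₀ (norm_nonneg _) h2 2
  nlinarith [sq_nonneg (‖∑ n ∈ (Icc 1 x).filter (fun n => n % q = a), f n * e (n * α)‖ -
    ‖∑ n ∈ (Icc 1 x).filter (fun n => n % q = a), g n * e (n * α)‖)]

end Pool.Agent.HL
end

section
/-! # Module Ident: the sieve identity

`sieve_id`: if `n` has a prime factor `< y` all terms vanish (such a prime divides `n/c`, `c` being coprime to it, and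
`rho (minFac c) (n/c) = 0` as `y ≤ minFac c`). Otherwise let `m = minFac n` (`n > 1`). If `n = 1` or `m ≥ z` only `c = 1` occurs.
If `m < z`: in the second sum `rho (minFac c) (n/c) ≠ 0` iff `minFac c = m`; pair the divisors `c` (`CC`, `m ∤ c`, `c < w`) of the
first sum with `c * m`, which is in the first sum if `c m < w`, in the second if `c m ≥ w`.
`bb_id`: `sieve_id` at `n/d`; `d ∣ n ∧ c ∣ n/d` iff `c ∣ n ∧ d ∣ n/c`. -/

namespace Pool.Agent.HS

open Finset Pool.Agent.BV Pool.Agent.HL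
open scoped ArithmeticFunction.Moebius

theorem rho_one {y n : ℕ} (h : ∀ p : ℕ, p.Prime → p ∣ n → y ≤ p) : rho y n = 1 := by
  unfold rho
  rw [if_pos h]

theorem rho_zero {y n p : ℕ} (hp : p.Prime) (hpn : p ∣ n) (h : p < y) : rho y n = 0 := by
  unfold rho
  rw [if_neg]
  intro h'
  exact absurd (h' p hp hpn) (by omega)

/-- a prime dividing `n` but not its divisor `c` divides the cofactor -/
theorem dvd_cof {n c p : ℕ} (hp : p.Prime) (hpn : p ∣ n) (hc : c ∣ n) (hpc : ¬ p ∣ c) :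
    p ∣ n / c := by
  have h : p ∣ c * (n / c) := by rw [Nat.mul_div_cancel' hc]; exact hpn
  rcases (Nat.Prime.dvd_mul hp).1 h with h | h
  · exact absurd h hpc
  · exact h

open Classical in
/-- the pairing `c ↔ c m` -/
theorem invol (y z w n m : ℕ) (hm : m.Prime) (hmn : m ∣ n) (hym : y ≤ m) (hmz : m < z)
    (hn : n ≠ 0) :
    ∑ c ∈ n.divisors.filter (fun c => CC y z c ∧ ((¬ m ∣ c ∧ c < w) ∨ (m ∣ c ∧ c / m < w))),
      ((μ c : ℤ) : ℝ) = 0 := by
  set U := n.divisors.filter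
    (fun c => CC y z c ∧ ((¬ m ∣ c ∧ c < w) ∨ (m ∣ c ∧ c / m < w))) with hU
  have hm0 : 0 < m := hm.pos
  have key : ∀ c, CC y z (c * m) → ¬ m ∣ c := by
    intro c hc hmc
    have h2 : m * m ∣ c * m := Nat.mul_dvd_mul_right hmc m
    have := hc.1 m h2
    exact hm.one_lt.ne' (Nat.isUnit_iff.1 this)
  have hmu : ∀ c, ¬ m ∣ c → ((μ (c * m) : ℤ) : ℝ) = - ((μ c : ℤ) : ℝ) := by
    intro c hc
    have hcop : Nat.Coprime c m := ((Nat.Prime.coprime_iff_not_dvd hm).2 hc).symm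
    rw [ArithmeticFunction.isMultiplicative_moebius.map_mul_of_coprime hcop,
      ArithmeticFunction.moebius_apply_prime hm]
    push_cast
    ring
  have hCC : ∀ c, ¬ m ∣ c → (CC y z (c * m) ↔ CC y z c) := by
    intro c hc
    have hcop : Nat.Coprime c m := ((Nat.Prime.coprime_iff_not_dvd hm).2 hc).symm
    constructor
    · intro h
      exact ⟨Squarefree.squarefree_of_dvd (Dvd.intro _ rfl) h.1,
        fun p hp hpc => h.2 p hp (Dvd.dvd.mul_right hpc m)⟩
    · intro h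
      refine ⟨(Nat.squarefree_mul hcop).2 ⟨h.1, hm.squarefree⟩, fun p hp hpc => ?_⟩
      rcases (Nat.Prime.dvd_mul hp).1 hpc with h1 | h1
      · exact h.2 p hp h1
      · have := (Nat.prime_dvd_prime_iff_eq hp hm).1 h1
        subst this
        exact ⟨hym, hmz⟩
  refine Finset.sum_involution (fun c _ => if m ∣ c then c / m else c * m) ?_ ?_ ?_ ?_
  · intro c hc
    rw [hU, mem_filter, Nat.mem_divisors] at hc
    by_cases h : m ∣ c
    · obtain ⟨d, rfl⟩ := h
      have hd : ¬ m ∣ d := by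
        apply key d
        rw [mul_comm]; exact hc.2.1
      rw [if_pos (Dvd.intro _ rfl), Nat.mul_div_cancel_left _ hm0, mul_comm m d, hmu d hd]
      ring
    · rw [if_neg h, hmu c h]
      ring
  · intro c hc hne heq
    rw [hU, mem_filter, Nat.mem_divisors] at hc
    by_cases h : m ∣ c
    · obtain ⟨d, rfl⟩ := h
      rw [if_pos (Dvd.intro _ rfl), Nat.mul_div_cancel_left _ hm0] at heq
      have hd : d ≠ 0 := by
        rintro rfl
        simp at hne
      have : 1 < m := hm.one_lt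
      have hd0 : 0 < d := Nat.pos_of_ne_zero hd
      nlinarith
    · rw [if_neg h] at heq
      have : 1 < m := hm.one_lt
      have hc0 : 0 < c := Nat.pos_of_ne_zero (by rintro rfl; exact h (dvd_zero _))
      nlinarith
  · intro c hc
    rw [hU, mem_filter, Nat.mem_divisors] at hc
    rw [hU, mem_filter, Nat.mem_divisors]
    by_cases h : m ∣ c
    · obtain ⟨d, rfl⟩ := h
      have hd : ¬ m ∣ d := by
        apply key d
        rw [mul_comm]; exact hc.2.1
      rw [if_pos (Dvd.intro _ rfl), Nat.mul_div_cancel_left _ hm0]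
      refine ⟨⟨(Dvd.intro_left m rfl).trans hc.1.1, hn⟩, ?_, Or.inl ⟨hd, ?_⟩⟩
      · rw [← hCC d hd, mul_comm]; exact hc.2.1
      · rcases hc.2.2 with h | h
        · exact absurd (Dvd.intro _ rfl) h.1
        · rw [Nat.mul_div_cancel_left _ hm0] at h
          exact h.2
    · rw [if_neg h]
      have hcop : Nat.Coprime c m := ((Nat.Prime.coprime_iff_not_dvd hm).2 h).symm
      refine ⟨⟨Nat.Coprime.mul_dvd_of_dvd_of_dvd hcop hc.1.1 hmn, hn⟩, (hCC c h).2 hc.2.1,
        Or.inr ⟨Dvd.intro_left c rfl, ?_⟩⟩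
      rw [Nat.mul_div_cancel _ hm0]
      rcases hc.2.2 with h' | h'
      · exact h'.2
      · exact absurd h'.1 h
  · intro c hc
    rw [hU, mem_filter, Nat.mem_divisors] at hc
    by_cases h : m ∣ c
    · obtain ⟨d, rfl⟩ := h
      have hd : ¬ m ∣ d := by
        apply key d
        rw [mul_comm]; exact hc.2.1
      simp only [if_pos (Dvd.intro d rfl : m ∣ m * d), Nat.mul_div_cancel_left _ hm0, if_neg hd]
      ring
    · simp only [if_neg h, if_pos (Dvd.intro_left c rfl : m ∣ c * m), Nat.mul_div_cancel _ hm0]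

open Classical in
theorem sieve_id (y z w n : ℕ) (hy : 2 ≤ y) (hyz : y ≤ z) (hw : 2 ≤ w) (hn : 1 ≤ n) :
    rho z n = ∑ c ∈ n.divisors.filter (fun c => CC y z c ∧ c < w), ((μ c : ℤ) : ℝ) * rho y (n / c) +
      ∑ c ∈ n.divisors.filter (fun c => CC y z c ∧ w ≤ c ∧ c / c.minFac < w),
        ((μ c : ℤ) : ℝ) * rho c.minFac (n / c) := by
  have hn0 : n ≠ 0 := by omega
  have _ := hy
  by_cases hA : ∃ p : ℕ, p.Prime ∧ p ∣ n ∧ p < y
  · obtain ⟨p, hp, hpn, hpy⟩ := hA
    rw [rho_zero hp hpn (lt_of_lt_of_le hpy hyz), sum_eq_zero, sum_eq_zero, add_zero]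
    · intro c hc
      rw [mem_filter, Nat.mem_divisors] at hc
      have hc1 : c ≠ 1 := by omega
      have hmin := hc.2.1.2 _ (Nat.minFac_prime hc1) (Nat.minFac_dvd c)
      have hpc : ¬ p ∣ c := fun h => absurd (hc.2.1.2 p hp h).1 (by omega)
      rw [rho_zero hp (dvd_cof hp hpn hc.1.1 hpc) (by omega), mul_zero]
    · intro c hc
      rw [mem_filter, Nat.mem_divisors] at hc
      have hpc : ¬ p ∣ c := fun h => absurd (hc.2.1.2 p hp h).1 (by omega)
      rw [rho_zero hp (dvd_cof hp hpn hc.1.1 hpc) hpy, mul_zero]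
  push Not at hA
  by_cases hB : ∀ p : ℕ, p.Prime → p ∣ n → z ≤ p
  · have hone : ∀ c, c ∣ n → CC y z c → c = 1 := by
      intro c hc h
      by_contra h1
      have h2 := (h.2 _ (Nat.minFac_prime h1) (Nat.minFac_dvd c)).2
      have h3 := hB _ (Nat.minFac_prime h1) ((Nat.minFac_dvd c).trans hc)
      omega
    rw [rho_one hB]
    have e1 : n.divisors.filter (fun c => CC y z c ∧ c < w) = {1} := by
      ext c
      rw [mem_filter, Nat.mem_divisors, mem_singleton]
      constructor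
      · intro h
        exact hone c h.1.1 h.2.1
      · rintro rfl
        exact ⟨⟨one_dvd _, hn0⟩, ⟨squarefree_one, fun p hp h => absurd (Nat.dvd_one.1 h)
          hp.one_lt.ne'⟩, by omega⟩
    have e2 : n.divisors.filter (fun c => CC y z c ∧ w ≤ c ∧ c / c.minFac < w) = ∅ := by
      apply filter_eq_empty_iff.2
      intro c hc h
      rw [Nat.mem_divisors] at hc
      have := hone c hc.1 h.1
      omega
    rw [e1, e2, sum_singleton, sum_empty, Nat.div_one,
      rho_one (fun p hp h => hA p hp h)]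
    simp
  push Not at hB
  obtain ⟨p, hp, hpn, hpz⟩ := hB
  rw [rho_zero hp hpn hpz]
  have hn1 : n ≠ 1 := by
    rintro rfl
    exact hp.one_lt.ne' (Nat.dvd_one.1 hpn)
  set m := n.minFac with hm
  have hmp : m.Prime := Nat.minFac_prime hn1
  have hmn : m ∣ n := Nat.minFac_dvd n
  have hmz : m < z := lt_of_le_of_lt (Nat.minFac_le_of_dvd hp.two_le hpn) hpz
  have hym : y ≤ m := hA m hmp hmn
  rw [← invol y z w n m hmp hmn hym hmz hn0, sum_filter, sum_filter, sum_filter,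
    ← sum_add_distrib]
  refine sum_congr rfl fun c hc => ?_
  rw [Nat.mem_divisors] at hc
  have hcn : c ∣ n := hc.1
  have hc0 : 0 < c := Nat.pos_of_dvd_of_pos hcn (by omega)
  by_cases hCC : CC y z c
  · have hle : ∀ p : ℕ, p.Prime → p ∣ n → m ≤ p := fun p hp h =>
      Nat.minFac_le_of_dvd hp.two_le h
    have hy1 : rho y (n / c) = 1 :=
      rho_one fun p hp h => hA p hp (h.trans (Nat.div_dvd_of_dvd hcn))
    by_cases hmc : m ∣ c
    · have hc1 : c ≠ 1 := by
        rintro rfl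
        exact hmp.one_lt.ne' (Nat.dvd_one.1 hmc)
      have hmin : c.minFac = m :=
        le_antisymm (Nat.minFac_le_of_dvd hmp.two_le hmc)
          (hle _ (Nat.minFac_prime hc1) ((Nat.minFac_dvd c).trans hcn))
      have hr : rho c.minFac (n / c) = 1 := by
        rw [hmin]
        exact rho_one fun p hp h => hle p hp (h.trans (Nat.div_dvd_of_dvd hcn))
      rw [hy1, hr, hmin]
      by_cases hcw : c < w
      · have h1 : c / m < w := lt_of_le_of_lt (Nat.div_le_self _ _) hcw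
        simp [hCC, hcw, h1, hmc, not_le.2 hcw]
      · simp [hCC, hcw, hmc, not_lt.1 hcw]
    · have hr : w ≤ c → rho c.minFac (n / c) = 0 := by
        intro hwc
        have hc1 : c ≠ 1 := by omega
        have h1 : m ∣ n / c := dvd_cof hmp hmn hcn hmc
        have h2 : m ≤ c.minFac := hle _ (Nat.minFac_prime hc1) ((Nat.minFac_dvd c).trans hcn)
        have h3 : m ≠ c.minFac := fun h => hmc (h ▸ Nat.minFac_dvd c)
        exact rho_zero hmp h1 (lt_of_le_of_ne h2 h3)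
      rw [hy1]
      by_cases hcw : c < w
      · simp [hCC, hcw, hmc, not_le.2 hcw]
      · simp [hCC, hcw, hmc, hr (not_lt.1 hcw)]
  · simp [hCC]

/-- exchange of two divisors -/
theorem swap_dc (n : ℕ) (hn : n ≠ 0) (Q : ℕ → Prop) [DecidablePred Q] (F : ℕ → ℕ → ℝ) :
    ∑ d ∈ n.divisors, ∑ c ∈ (n / d).divisors.filter Q, F c d =
      ∑ c ∈ n.divisors.filter Q, ∑ d ∈ (n / c).divisors, F c d := by
  have h0 : 0 < n := Nat.pos_of_ne_zero hn
  have hpos : ∀ d, d ∣ n → n / d ≠ 0 := fun d hd =>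
    (Nat.div_pos (Nat.le_of_dvd h0 hd) (Nat.pos_of_dvd_of_pos hd h0)).ne'
  refine Finset.sum_comm' ?_
  intro d c
  simp only [mem_filter, Nat.mem_divisors]
  constructor
  · rintro ⟨⟨hd, -⟩, ⟨hc, -⟩, hQ⟩
    have h : d * c ∣ n := (Nat.dvd_div_iff_mul_dvd hd).1 hc
    have hcn : c ∣ n := (Dvd.intro_left d rfl).trans h
    exact ⟨⟨(Nat.dvd_div_iff_mul_dvd hcn).2 (by rwa [mul_comm]), hpos c hcn⟩, ⟨hcn, hn⟩, hQ⟩
  · rintro ⟨⟨hd, -⟩, ⟨hc, -⟩, hQ⟩
    have h : c * d ∣ n := (Nat.dvd_div_iff_mul_dvd hc).1 hd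
    have hdn : d ∣ n := (Dvd.intro_left c rfl).trans h
    exact ⟨⟨hdn, hn⟩, ⟨(Nat.dvd_div_iff_mul_dvd hdn).2 (by rwa [mul_comm]), hpos d hdn⟩, hQ⟩

open Classical in
theorem bb_id (cc : ℕ → ℝ) (y z w n : ℕ) (hy : 2 ≤ y) (hyz : y ≤ z) (hw : 2 ≤ w) (hn : 1 ≤ n) :
    bb cc z n =
      ∑ c ∈ n.divisors.filter (fun c => CC y z c ∧ c < w), ((μ c : ℤ) : ℝ) * bb cc y (n / c) +
      ∑ c ∈ n.divisors.filter (fun c => CC y z c ∧ w ≤ c ∧ c / c.minFac < w),
        ((μ c : ℤ) : ℝ) * bb cc c.minFac (n / c) := by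
  have hn0 : n ≠ 0 := by omega
  have e : ∀ d ∈ n.divisors, cc d * rho z (n / d) =
      ∑ c ∈ (n / d).divisors.filter (fun c => CC y z c ∧ c < w),
        ((μ c : ℤ) : ℝ) * (cc d * rho y (n / c / d)) +
      ∑ c ∈ (n / d).divisors.filter (fun c => CC y z c ∧ w ≤ c ∧ c / c.minFac < w),
        ((μ c : ℤ) : ℝ) * (cc d * rho c.minFac (n / c / d)) := by
    intro d hd
    rw [Nat.mem_divisors] at hd
    have h1 : 1 ≤ n / d := Nat.div_pos (Nat.le_of_dvd hn hd.1) (Nat.pos_of_dvd_of_pos hd.1 hn)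
    rw [sieve_id y z w (n / d) hy hyz hw h1, mul_add, mul_sum, mul_sum]
    congr 1 <;> refine sum_congr rfl fun c _ => ?_ <;> rw [Nat.div_div_eq_div_mul,
      Nat.div_div_eq_div_mul, mul_comm d c] <;> ring
  unfold bb
  rw [sum_congr rfl e, sum_add_distrib, swap_dc n hn0, swap_dc n hn0]
  simp only [mul_sum]

end Pool.Agent.HS
end

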