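import Pool.Agent.Work.GBM.C01
import Pool.Agent.Work.GBM.C02

section
/-! # Module Split

`s = s₁ s'`, `s₁` coprime to `q`, the primes of `s'` divide `q`; `s' = g² r`, `r` squarefree (`Nat.sq_mul_squarefree`), `s₂ = g r`; `r ∣ q`. -/

namespace Pool.Agent.HN

theorem split_cop (q : ℕ) : ∀ s : ℕ, 1 ≤ s → ∃ s₁ s' : ℕ, s = s₁ * s' ∧ s₁.Coprime q ∧
    (∀ p : ℕ, p.Prime → p ∣ s' → p ∣ q) := by
  intro s
  induction s using Nat.strong_induction_on with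
  | _ s ih =>
    intro hs
    by_cases hc : s.Coprime q
    · exact ⟨s, 1, (mul_one s).symm, hc, fun p hp h => absurd (Nat.dvd_one.mp h) hp.one_lt.ne'⟩
    · obtain ⟨p, hp, hps, hpq⟩ := Nat.Prime.not_coprime_iff_dvd.mp hc
      obtain ⟨t, rfl⟩ := hps
      have ht : 1 ≤ t := by
        rcases Nat.eq_zero_or_pos t with h | h
        · subst h; simp at hs
        · exact h
      have hlt : t < p * t := by nlinarith [hp.two_le]
      obtain ⟨s₁, s', h1, h2, h3⟩ := ih t hlt ht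
      refine ⟨s₁, p * s', by rw [h1]; ring, h2, fun r hr hrd => ?_⟩
      rcases (Nat.Prime.dvd_mul hr).mp hrd with h | h
      · rwa [(Nat.prime_dvd_prime_iff_eq hr hp).mp h]
      · exact h3 r hr h

theorem split (q s : ℕ) (hq : 1 ≤ q) (hs : 1 ≤ s) : ∃ g s₁ s₂ : ℕ, s = g * s₁ * s₂ ∧ 1 ≤ g ∧
    1 ≤ s₁ ∧ 1 ≤ s₂ ∧ s₁.Coprime (g * q) ∧ s₂ ∣ g * q ∧ g ∣ s₂ ∧
    (∀ p : ℕ, p.Prime → p ∣ g → p ∣ q) := by
  obtain ⟨s₁, s', h1, h2, h3⟩ := split_cop q s hs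
  obtain ⟨r, g, hrg, hr⟩ := Nat.sq_mul_squarefree s'
  have hs1 : s₁ ≠ 0 := by rintro rfl; simp at h1; omega
  have hs' : s' ≠ 0 := by rintro rfl; simp at h1; omega
  have hg : g ≠ 0 := by rintro rfl; simp at hrg; exact hs' hrg.symm
  have hr0 : r ≠ 0 := hr.ne_zero
  have hgq : ∀ p : ℕ, p.Prime → p ∣ g → p ∣ q := fun p hp hpg =>
    h3 p hp (by rw [← hrg]; exact Dvd.dvd.mul_right (hpg.trans (dvd_pow_self g two_ne_zero)) r)
  have hrq : r ∣ q := by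
    rw [← Nat.prod_primeFactors_of_squarefree hr]
    refine (Finset.prod_dvd_prod_of_subset _ q.primeFactors _ ?_).trans
      (Nat.prod_primeFactors_dvd q)
    intro p hp
    have hp' := Nat.prime_of_mem_primeFactors hp
    have hpr := Nat.dvd_of_mem_primeFactors hp
    exact Nat.mem_primeFactors.mpr ⟨hp', h3 p hp' (by rw [← hrg]; exact hpr.mul_left _), by omega⟩
  refine ⟨g, s₁, g * r, by rw [h1, ← hrg]; ring, Nat.pos_of_ne_zero hg, Nat.pos_of_ne_zero hs1,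
    Nat.pos_of_ne_zero (mul_ne_zero hg hr0), ?_, Nat.mul_dvd_mul_left g hrq, Dvd.intro r rfl, hgq⟩
  refine Nat.Coprime.mul_right ?_ h2
  refine Nat.Coprime.symm (Nat.coprime_of_dvd fun p hp hpg hps => ?_)
  have : p ∣ Nat.gcd s₁ q := Nat.dvd_gcd hps (hgq p hp hpg)
  rw [h2] at this
  exact hp.one_lt.ne' (Nat.dvd_one.mp this)

end Pool.Agent.HN
end

section
/-! # Module GPars: Parseval over the characters mod `s₂ m`

`M = s₂ m`; `b = b₁ M + b₂ s₁` (`s₁` coprime to `M`), so `e(n b/(s₁ s₂ m)) = e(n b₁/s₁) e(n b₂/M)`; `b₁` coprime to `s₁`, `b₂` coprime to `s₂`. For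
`a ∈ (ZMod M)ˣ` put `T a = ∑_{n ≡ a (m)} h(n) e(n b₁/s₁) e((n-a) b₂/M)` (`n = c l`). `VB m X Y A B α = (1/s₂) ∑_a |T a|²` (each unit class mod `m`
has `s₂` lifts, `s₂ ∣ m`). For `r` mod `s₂`: `∑_{a ≡ r (s₂)} T(a) χ(a) = κ_r(χ) U_r(χ)`: for given `n` write `a = n (1 + m j)`, `j` mod `s₂`:
`κ_r(χ) = ∑_{j < s₂} χ(1 + m j) e(-r j b₂/s₂)`, `U_r(χ) = ∑_{n ≡ r (s₂)} h(n) χ(n) e(n b₁/s₁)`. `∑_r |κ_r(χ)|² = s₂²` (Parseval mod `s₂`; only
multiplicativity of `χ` is used). Parseval over `χ`: `VB = (1/(s₂ φ(M))) ∑_χ ∑_r |κ_r|² |U_r|² ≤ (s₂/φ(M)) ∑_χ Kf χ`. -/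

namespace Pool.Agent.HN

open Finset Pool.Agent.BV Pool.Agent.HL

/-- Parseval over the characters -/
private theorem gp_dual (k : ℕ) [NeZero k] (F : (ZMod k)ˣ → ℂ) :
    ∑ χ : DirichletCharacter ℂ k, ‖∑ u : (ZMod k)ˣ, F u * χ (u : ZMod k)‖ ^ 2 =
      k.totient * ∑ u : (ZMod k)ˣ, ‖F u‖ ^ 2 := by
  classical
  have hC : ((∑ χ : DirichletCharacter ℂ k,
      ‖∑ u : (ZMod k)ˣ, F u * χ (u : ZMod k)‖ ^ 2 : ℝ) : ℂ) =
      ((k.totient * ∑ u : (ZMod k)ˣ, ‖F u‖ ^ 2 : ℝ) : ℂ) := by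
    have hn : ∀ z : ℂ, ((‖z‖ ^ 2 : ℝ) : ℂ) = z * star z := by
      intro z
      have h := Complex.mul_conj z
      rw [Complex.normSq_eq_norm_sq] at h
      exact h.symm
    rw [Complex.ofReal_sum]
    simp only [hn]
    push_cast
    have h1 : ∀ χ : DirichletCharacter ℂ k, (∑ u : (ZMod k)ˣ, F u * χ (u : ZMod k)) *
        star (∑ u : (ZMod k)ˣ, F u * χ (u : ZMod k)) =
        ∑ u : (ZMod k)ˣ, ∑ v : (ZMod k)ˣ,
          F u * star (F v) * (χ ((v : ZMod k)⁻¹) * χ (u : ZMod k)) := by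
      intro χ
      rw [star_sum, sum_mul_sum]
      refine sum_congr rfl fun u _ => sum_congr rfl fun v _ => ?_
      have h2 : star (χ (v : ZMod k)) = χ ((v : ZMod k)⁻¹) := by
        rw [MulChar.star_apply', MulChar.inv_apply, Ring.inverse_unit, ZMod.inv_coe_unit]
      rw [star_mul', h2]
      ring
    rw [sum_congr rfl fun χ _ => h1 χ, sum_comm]
    rw [mul_sum]
    refine sum_congr rfl fun u _ => ?_
    rw [sum_comm]
    have h2 : ∀ v : (ZMod k)ˣ, ∑ χ : DirichletCharacter ℂ k,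
        F u * star (F v) * (χ ((v : ZMod k)⁻¹) * χ (u : ZMod k)) =
        if v = u then F u * star (F v) * (k.totient : ℂ) else 0 := by
      intro v
      rw [← mul_sum, DirichletCharacter.sum_char_inv_mul_char_eq ℂ v.isUnit (u : ZMod k)]
      by_cases h : v = u
      · rw [if_pos h, if_pos (by rw [h])]
      · rw [if_neg h, if_neg (fun h' => h (Units.ext h')), mul_zero]
    rw [sum_congr rfl fun v _ => h2 v, sum_ite_eq', if_pos (mem_univ _)]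
    have h3 := hn (F u)
    push_cast at h3
    rw [h3]
    ring
  exact_mod_cast hC

/-- a sum over `range (s m)` of a function of the class mod `m` -/
private theorem gp_range (m t : ℕ) (ht : t < m) (H : ℕ → ℂ) (s : ℕ) :
    ∑ a ∈ range (s * m), (if a % m = t then H a else 0) = ∑ j ∈ range s, H (t + m * j) := by
  induction s with
  | zero => simp
  | succ s ih =>
    rw [Nat.succ_mul, Finset.sum_range_add, ih, Finset.sum_range_succ]
    congr 1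
    rw [Finset.sum_eq_single t]
    · have : (s * m + t) % m = t := by
        rw [Nat.mul_comm, Nat.mul_add_mod, Nat.mod_eq_of_lt ht]
      rw [if_pos this]
      congr 1
      ring
    · intro c hc hne
      rw [if_neg]
      rw [Nat.mul_comm, Nat.mul_add_mod, Nat.mod_eq_of_lt (mem_range.1 hc)]
      exact hne
    · intro h
      exact absurd (mem_range.2 ht) h

/-- the units mod `k` through the residues -/
private theorem gp_units (k : ℕ) [NeZero k] (χ : DirichletCharacter ℂ k) (G : ℕ → ℂ) :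
    ∑ u : (ZMod k)ˣ, χ (u : ZMod k) * G (u : ZMod k).val =
      ∑ a ∈ range k, χ (a : ZMod k) * G a := by
  rw [← gaussLS_sum_units (fun x : ZMod k => χ x * G x.val)
    (fun b hb => by simp [MulChar.map_nonunit χ hb]),
    ← circ_sum_range (fun x : ZMod k => χ x * G x.val)]
  refine sum_congr rfl fun a ha => ?_
  rw [ZMod.val_cast_of_lt (mem_range.1 ha)]

/-- `e` has period `1` -/
private theorem gp_e (x y : ℝ) (z : ℤ) (h : x = y + z) : e x = e y := by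
  rw [h, add_e_add, add_e_int, mul_one]

/-- the sum over the lifts of a class -/
private theorem gp_W (m s₂ : ℕ) (hm : 1 ≤ m) (hs₂ : 1 ≤ s₂) (h₂ : s₂ ∣ m) [NeZero (s₂ * m)]
    (b₂ : ℤ) (n : ℕ) (hn : n.Coprime m) (χ : DirichletCharacter ℂ (s₂ * m)) :
    ∑ u : (ZMod (s₂ * m))ˣ, (if n % m = (u : ZMod (s₂ * m)).val % m then
      χ (u : ZMod (s₂ * m)) * e (((n : ℝ) - (u : ZMod (s₂ * m)).val) * ((b₂ : ℝ) / (s₂ * m)))
      else 0) =
    χ (n : ZMod (s₂ * m)) * ∑ j ∈ range s₂, χ ((1 + m * j : ℕ) : ZMod (s₂ * m)) *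
      e (-((n : ℝ) * j) * ((b₂ : ℝ) / s₂)) := by
  have hmR : (0 : ℝ) < m := by exact_mod_cast hm
  have hsR : (0 : ℝ) < s₂ := by exact_mod_cast hs₂
  have hnM : n.Coprime (s₂ * m) := Nat.Coprime.mul_right (Nat.Coprime.coprime_dvd_right h₂ hn) hn
  set w : (ZMod (s₂ * m))ˣ := ZMod.unitOfCoprime n hnM with hw
  have hwn : (w : ZMod (s₂ * m)) = (n : ZMod (s₂ * m)) := ZMod.coe_unitOfCoprime n hnM
  rw [← Equiv.sum_comp (Equiv.mulLeft w)]
  have h1 : ∀ k : (ZMod (s₂ * m))ˣ,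
      (if n % m = ((Equiv.mulLeft w k : (ZMod (s₂ * m))ˣ) : ZMod (s₂ * m)).val % m then
      χ ((Equiv.mulLeft w k : (ZMod (s₂ * m))ˣ) : ZMod (s₂ * m)) *
        e (((n : ℝ) - ((Equiv.mulLeft w k : (ZMod (s₂ * m))ˣ) : ZMod (s₂ * m)).val) *
          ((b₂ : ℝ) / (s₂ * m))) else 0) =
      χ (n : ZMod (s₂ * m)) * (χ (k : ZMod (s₂ * m)) *
        (fun a : ℕ => if a % m = 1 % m then
          e ((n : ℝ) * (1 - a) * ((b₂ : ℝ) / (s₂ * m))) else 0) (k : ZMod (s₂ * m)).val) := by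
    intro k
    have hv : ((Equiv.mulLeft w k : (ZMod (s₂ * m))ˣ) : ZMod (s₂ * m)) =
        (n : ZMod (s₂ * m)) * (k : ZMod (s₂ * m)) := by
      rw [Equiv.coe_mulLeft, Units.val_mul, hwn]
    set v : ℕ := ((Equiv.mulLeft w k : (ZMod (s₂ * m))ˣ) : ZMod (s₂ * m)).val with hvdef
    have hmod : v ≡ n * (k : ZMod (s₂ * m)).val [MOD s₂ * m] := by
      rw [← ZMod.natCast_eq_natCast_iff, hvdef, ZMod.natCast_zmod_val, hv]
      push_cast
      rw [ZMod.natCast_zmod_val]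
    have hmodm : v ≡ n * (k : ZMod (s₂ * m)).val [MOD m] :=
      hmod.of_dvd (Dvd.intro_left s₂ rfl)
    have hiff : n % m = v % m ↔ (k : ZMod (s₂ * m)).val % m = 1 % m := by
      constructor
      · intro h
        have h3 : n * 1 ≡ n * (k : ZMod (s₂ * m)).val [MOD m] := by
          rw [mul_one]
          exact (show n ≡ v [MOD m] from h).trans hmodm
        exact (Nat.ModEq.cancel_left_of_coprime (by rw [Nat.gcd_comm]; exact hn) h3).symm
      · intro h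
        have h3 : n * (k : ZMod (s₂ * m)).val ≡ n * 1 [MOD m] :=
          Nat.ModEq.mul_left n (show (k : ZMod (s₂ * m)).val ≡ 1 [MOD m] from h)
        rw [mul_one] at h3
        exact (hmodm.trans h3).symm
    simp only
    by_cases hc : (k : ZMod (s₂ * m)).val % m = 1 % m
    · rw [if_pos (hiff.2 hc), if_pos hc, hv, map_mul]
      have he : e (((n : ℝ) - v) * ((b₂ : ℝ) / (s₂ * m))) =
          e ((n : ℝ) * (1 - (k : ZMod (s₂ * m)).val) * ((b₂ : ℝ) / (s₂ * m))) := by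
        obtain ⟨z, hz⟩ := (Nat.modEq_iff_dvd.1 hmod)
        refine gp_e _ _ (z * b₂) ?_
        have hz' : ((n : ℝ) * (k : ZMod (s₂ * m)).val - v) = (s₂ * m) * z := by
          have := congrArg (fun t : ℤ => (t : ℝ)) hz
          push_cast at this
          linarith
        push_cast
        field_simp
        linear_combination (b₂ : ℝ) * hz'
      rw [he]
      ring
    · rw [if_neg (fun h => hc (hiff.1 h)), if_neg hc]
      simp
  rw [sum_congr rfl fun k _ => h1 k, ← mul_sum]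
  congr 1
  rw [gp_units (s₂ * m) χ (fun a : ℕ => if a % m = 1 % m then
          e ((n : ℝ) * (1 - a) * ((b₂ : ℝ) / (s₂ * m))) else 0)]
  have h2 : ∀ a ∈ range (s₂ * m), χ (a : ZMod (s₂ * m)) *
      (if a % m = 1 % m then e ((n : ℝ) * (1 - a) * ((b₂ : ℝ) / (s₂ * m))) else 0) =
      (if a % m = 1 % m then χ (a : ZMod (s₂ * m)) *
        e ((n : ℝ) * (1 - a) * ((b₂ : ℝ) / (s₂ * m))) else 0) := by
    intro a _
    split_ifs <;> simp
  rw [sum_congr rfl h2, gp_range m (1 % m) (Nat.mod_lt 1 hm)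
    (fun a => χ (a : ZMod (s₂ * m)) * e ((n : ℝ) * (1 - a) * ((b₂ : ℝ) / (s₂ * m)))) s₂]
  refine sum_congr rfl fun j hj => ?_
  rcases Nat.lt_or_ge 1 m with h1m | h1m
  · rw [Nat.mod_eq_of_lt h1m]
    congr 1
    congr 1
    push_cast
    field_simp
    ring
  · have hm1 : m = 1 := le_antisymm h1m hm
    subst hm1
    have hs1 : s₂ = 1 := Nat.dvd_one.1 h₂
    subst hs1
    have hj0 : j = 0 := by
      have := mem_range.1 hj
      omega
    subst hj0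
    have hsub : Subsingleton (ZMod (1 * 1)) := by
      rw [Nat.one_mul]
      infer_instance
    refine congrArg₂ (· * ·) (congrArg χ (Subsingleton.elim _ _)) (gp_e _ _ (n * b₂) ?_)
    push_cast
    simp

/-- the mean square of `κ` -/
private theorem gp_kappa (s₂ : ℕ) (hs₂ : 1 ≤ s₂) (b₂ : ℤ) (hb₂ : IsCoprime b₂ (s₂ : ℤ))
    (c : ℕ → ℂ) (hc : ∀ j, ‖c j‖ ≤ 1) :
    ∑ r ∈ range s₂, ‖∑ j ∈ range s₂, c j * e (-((r : ℝ) * j) * ((b₂ : ℝ) / s₂))‖ ^ 2 ≤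
      (s₂ : ℝ) ^ 2 := by
  have : NeZero s₂ := ⟨by omega⟩
  have hs0 : (0 : ℤ) < s₂ := by exact_mod_cast hs₂
  have hsR : (0 : ℝ) < s₂ := by exact_mod_cast hs₂
  set u : ℕ → ℕ := fun j => ((-(j : ℤ) * b₂) % (s₂ : ℤ)).toNat with hu
  have hu1 : ∀ j, ((u j : ℕ) : ℤ) = (-(j : ℤ) * b₂) % (s₂ : ℤ) := fun j =>
    Int.toNat_of_nonneg (Int.emod_nonneg _ hs0.ne')
  have hlt : ∀ j ∈ range s₂, u j < s₂ := by
    intro j _
    have h := Int.emod_lt_of_pos (-(j : ℤ) * b₂) hs0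
    rw [← hu1 j] at h
    exact_mod_cast h
  have hinj : ∀ j ∈ range s₂, ∀ j' ∈ range s₂, u j = u j' → j = j' := by
    intro j hj j' hj' h
    have h1 : (-(j : ℤ) * b₂) % (s₂ : ℤ) = (-(j' : ℤ) * b₂) % (s₂ : ℤ) := by
      rw [← hu1 j, ← hu1 j', h]
    have h2 : (s₂ : ℤ) ∣ (-(j' : ℤ) * b₂) - (-(j : ℤ) * b₂) := Int.modEq_iff_dvd.1 h1
    have h3 : (s₂ : ℤ) ∣ ((j : ℤ) - j') * b₂ := by
      have h30 : ((j : ℤ) - j') * b₂ = (-(j' : ℤ) * b₂) - (-(j : ℤ) * b₂) := by ring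
      rw [h30]
      exact h2
    have h4 : (s₂ : ℤ) ∣ ((j : ℤ) - j') := (IsCoprime.symm hb₂).dvd_of_dvd_mul_right h3
    have h5 : (j' : ℤ) ≡ j [ZMOD s₂] := Int.modEq_iff_dvd.2 h4
    have h6 : j' ≡ j [MOD s₂] := (Int.natCast_modEq_iff).1 h5
    exact (Nat.ModEq.eq_of_lt_of_lt h6 (mem_range.1 hj') (mem_range.1 hj)).symm
  have h1 := circ_parseval (N := s₂) (range s₂) u hlt hinj c
  have h2 : ∀ r j : ℕ, e (-((r : ℝ) * j) * ((b₂ : ℝ) / s₂)) = e (u j * ((r : ℝ) / s₂)) := by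
    intro r j
    have h3 : (s₂ : ℤ) * ((-(j : ℤ) * b₂) / s₂) + u j = (-(j : ℤ) * b₂) := by
      rw [hu1 j]
      exact Int.mul_ediv_add_emod _ _
    refine gp_e _ _ (r * ((-(j : ℤ) * b₂) / s₂)) ?_
    have h4 : (s₂ : ℝ) * (((-(j : ℤ) * b₂) / s₂ : ℤ) : ℝ) + u j = (-(j : ℝ) * b₂) := by
      exact_mod_cast congrArg (fun t : ℤ => (t : ℝ)) h3
    rw [Int.cast_mul, Int.cast_natCast]
    set q : ℝ := (((-(j : ℤ) * b₂) / s₂ : ℤ) : ℝ)
    field_simp
    linear_combination -(r : ℝ) * h4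
  rw [sum_congr rfl fun r _ => congrArg (fun z : ℂ => ‖z‖ ^ 2)
    (sum_congr rfl fun j _ => by rw [h2 r j])]
  rw [h1, sq]
  refine mul_le_mul_of_nonneg_left ?_ hsR.le
  calc ∑ j ∈ range s₂, ‖c j‖ ^ 2 ≤ ∑ j ∈ range s₂, (1 : ℝ) :=
        sum_le_sum fun j _ => pow_le_one₀ (norm_nonneg _) (hc j)
    _ = s₂ := by simp

/-- a real sum over `range (s m)` of a function of the class mod `m` -/
private theorem gp_rangeR (m : ℕ) (G : ℕ → ℝ) (s : ℕ) :
    ∑ a ∈ range (s * m), G (a % m) = s * ∑ t ∈ range m, G t := by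
  induction s with
  | zero => simp
  | succ s ih =>
    rw [Nat.succ_mul, Finset.sum_range_add, ih]
    have h : ∑ x ∈ range m, G ((s * m + x) % m) = ∑ t ∈ range m, G t := by
      refine sum_congr rfl fun t ht => ?_
      rw [Nat.mul_comm, Nat.mul_add_mod, Nat.mod_eq_of_lt (mem_range.1 ht)]
    rw [h]
    push_cast
    ring

theorem g_pars (m s₁ s₂ : ℕ) (hm : 1 ≤ m) (hs₁ : 1 ≤ s₁) (hs₂ : 1 ≤ s₂) (h₁ : s₁.Coprime m)
    (h₂ : s₂ ∣ m) (b : ℤ) (hb : IsCoprime b ((s₁ * s₂ : ℕ) : ℤ)) : ∃ b₁ : ℤ, IsCoprime b₁ (s₁ : ℤ) ∧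
    ∀ (X Y : Finset ℕ) (A B : ℕ → ℂ), (∀ c ∈ X, c.Coprime m) → (∀ l ∈ Y, l.Coprime m) →
    ∀ Kf : DirichletCharacter ℂ (s₂ * m) → ℝ,
    (∀ χ, ∀ r < s₂, ‖∑ c ∈ X, ∑ l ∈ Y, if (c * l) % s₂ = r then
      A c * B l * χ ((c * l : ℕ) : ZMod (s₂ * m)) * e ((c * l : ℕ) * ((b₁ : ℝ) / s₁)) else 0‖ ^ 2 ≤ Kf χ) →
    VB m X Y A B ((b : ℝ) / (s₁ * s₂ * m)) ≤ (s₂ : ℝ) / (s₂ * m).totient * ∑ χ, Kf χ := by
  classical
  have hNZ : NeZero (s₂ * m) := ⟨Nat.mul_ne_zero (by omega) (by omega)⟩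
  have hmR : (0 : ℝ) < m := by exact_mod_cast hm
  have hsR : (0 : ℝ) < s₂ := by exact_mod_cast hs₂
  have hs1R : (0 : ℝ) < s₁ := by exact_mod_cast hs₁
  have hs12 : s₁.Coprime s₂ := Nat.Coprime.coprime_dvd_right h₂ h₁
  have hcop : s₁.Coprime (s₂ * m) := Nat.Coprime.mul_right hs12 h₁
  obtain ⟨x, y, hxy⟩ : IsCoprime (s₁ : ℤ) ((s₂ * m : ℕ) : ℤ) := Nat.isCoprime_iff_coprime.2 hcop
  have hbb : IsCoprime b ((s₁ : ℤ) * s₂) := by exact_mod_cast hb
  have hb₁ : IsCoprime (b * y) (s₁ : ℤ) := by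
    refine IsCoprime.mul_left hbb.of_mul_right_left ⟨(s₂ * m : ℕ), x, ?_⟩
    linear_combination hxy
  have hb₂ : IsCoprime (b * x) (s₂ : ℤ) := by
    refine IsCoprime.mul_left hbb.of_mul_right_right ⟨s₁, y * m, ?_⟩
    push_cast at hxy
    linear_combination hxy
  refine ⟨b * y, hb₁, ?_⟩
  intro X Y A B hX hY Kf hK
  set b₁ : ℤ := b * y with hb1def
  set b₂ : ℤ := b * x with hb2def
  have hsplit : (b : ℝ) / (s₁ * s₂ * m) = (b₁ : ℝ) / s₁ + (b₂ : ℝ) / (s₂ * m) := by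
    have h3 : (b : ℝ) = (b₁ : ℝ) * (s₂ * m) + (b₂ : ℝ) * s₁ := by
      have h4 : b = b₁ * (s₂ * m) + b₂ * s₁ := by
        rw [hb1def, hb2def]
        push_cast at hxy
        linear_combination -(b : ℤ) * hxy
      exact_mod_cast congrArg (fun t : ℤ => (t : ℝ)) h4
    field_simp
    linear_combination h3
  set S : ℕ → ℂ := fun a => ∑ c ∈ X, ∑ l ∈ Y, if (c * l) % m = a then
    A c * B l * e ((c * l : ℕ) * ((b : ℝ) / (s₁ * s₂ * m))) else 0 with hS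
  set T : (ZMod (s₂ * m))ˣ → ℂ := fun u => ∑ c ∈ X, ∑ l ∈ Y,
    if (c * l) % m = (u : ZMod (s₂ * m)).val % m then
      A c * B l * e ((c * l : ℕ) * ((b₁ : ℝ) / s₁)) *
        e ((((c * l : ℕ) : ℝ) - (u : ZMod (s₂ * m)).val) * ((b₂ : ℝ) / (s₂ * m))) else 0 with hT
  have hTS : ∀ u : (ZMod (s₂ * m))ˣ, T u =
      e (-((u : ZMod (s₂ * m)).val * ((b₂ : ℝ) / (s₂ * m)))) * S ((u : ZMod (s₂ * m)).val % m) := by
    intro u
    rw [hT, hS]
    simp only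
    rw [mul_sum]
    refine sum_congr rfl fun c _ => ?_
    rw [mul_sum]
    refine sum_congr rfl fun l _ => ?_
    split_ifs with h
    · have h5 : e ((((c * l : ℕ) : ℝ) - (u : ZMod (s₂ * m)).val) * ((b₂ : ℝ) / (s₂ * m))) =
          e (-((u : ZMod (s₂ * m)).val * ((b₂ : ℝ) / (s₂ * m)))) *
            e (((c * l : ℕ) : ℝ) * ((b₂ : ℝ) / (s₂ * m))) := by
        rw [← add_e_add]
        congr 1
        ring
      have h6 : e (((c * l : ℕ) : ℝ) * ((b : ℝ) / (s₁ * s₂ * m))) =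
          e (((c * l : ℕ) : ℝ) * ((b₁ : ℝ) / s₁)) *
            e (((c * l : ℕ) : ℝ) * ((b₂ : ℝ) / (s₂ * m))) := by
        rw [← add_e_add, hsplit]
        congr 1
        ring
      rw [h5, h6]
      ring
    · simp
  have hTn : ∀ u : (ZMod (s₂ * m))ˣ, ‖T u‖ ^ 2 = ‖S ((u : ZMod (s₂ * m)).val % m)‖ ^ 2 := by
    intro u
    rw [hTS u, norm_mul, add_norm_e, one_mul]
  have hSz : ∀ z : ZMod (s₂ * m), ¬ IsUnit z → ‖S (z.val % m)‖ ^ 2 = 0 := by
    intro z hz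
    have h5 : S (z.val % m) = 0 := by
      rw [hS]
      simp only
      refine sum_eq_zero fun c hc => sum_eq_zero fun l hl => ?_
      rw [if_neg]
      intro h
      apply hz
      have h6 : (c * l).Coprime m := Nat.Coprime.mul_left (hX c hc) (hY l hl)
      have h7 : z.val.Coprime m := by
        have h8 : (c * l).gcd m = z.val.gcd m := Nat.ModEq.gcd_eq h
        rw [Nat.coprime_iff_gcd_eq_one, ← h8]
        exact h6
      have h8 : z.val.Coprime (s₂ * m) :=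
        Nat.Coprime.mul_right (Nat.Coprime.coprime_dvd_right h₂ h7) h7
      have h9 := (ZMod.isUnit_iff_coprime z.val (s₂ * m)).2 h8
      rwa [ZMod.natCast_zmod_val] at h9
    rw [h5]
    simp
  have hVB : ∑ u, ‖T u‖ ^ 2 = s₂ * VB m X Y A B ((b : ℝ) / (s₁ * s₂ * m)) := by
    rw [sum_congr rfl fun u _ => hTn u,
      ← gaussLS_sum_units (fun z : ZMod (s₂ * m) => ‖S (z.val % m)‖ ^ 2) hSz,
      ← circ_sum_range (fun z : ZMod (s₂ * m) => ‖S (z.val % m)‖ ^ 2)]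
    rw [sum_congr rfl fun a ha => by
      rw [ZMod.val_cast_of_lt (mem_range.1 ha)]]
    exact gp_rangeR m (fun t => ‖S t‖ ^ 2) s₂
  -- the splitting mod `s₂`
  set F : ℕ → (ZMod (s₂ * m))ˣ → ℂ := fun r u =>
    if (u : ZMod (s₂ * m)).val % s₂ = r then T u else 0 with hF
  have hsp : ∀ u : (ZMod (s₂ * m))ˣ, ∑ r ∈ range s₂, ‖F r u‖ ^ 2 = ‖T u‖ ^ 2 := by
    intro u
    rw [sum_eq_single ((u : ZMod (s₂ * m)).val % s₂)]
    · rw [hF]
      simp
    · intro r _ hr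
      rw [hF]
      simp only
      rw [if_neg (Ne.symm hr)]
      simp
    · intro h
      exact absurd (mem_range.2 (Nat.mod_lt _ hs₂)) h
  set κ : ℕ → DirichletCharacter ℂ (s₂ * m) → ℂ := fun r χ => ∑ j ∈ range s₂,
    χ ((1 + m * j : ℕ) : ZMod (s₂ * m)) * e (-((r : ℝ) * j) * ((b₂ : ℝ) / s₂)) with hκ
  set U : ℕ → DirichletCharacter ℂ (s₂ * m) → ℂ := fun r χ => ∑ c ∈ X, ∑ l ∈ Y,
    if (c * l) % s₂ = r then
      A c * B l * χ ((c * l : ℕ) : ZMod (s₂ * m)) * e ((c * l : ℕ) * ((b₁ : ℝ) / s₁)) else 0 with hU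
  have hκn : ∀ (n r : ℕ) (χ : DirichletCharacter ℂ (s₂ * m)), n % s₂ = r → κ n χ = κ r χ := by
    intro n r χ hnr
    rw [hκ]
    simp only
    refine sum_congr rfl fun j _ => ?_
    congr 1
    obtain ⟨q, hq⟩ : ∃ q, s₂ * q + r = n := ⟨n / s₂, by rw [← hnr]; exact Nat.div_add_mod n s₂⟩
    refine gp_e _ _ (-((q : ℤ) * j * b₂)) ?_
    rw [← hq]
    push_cast
    field_simp
    ring
  have hkey : ∀ (r : ℕ) (χ : DirichletCharacter ℂ (s₂ * m)),
      ∑ u : (ZMod (s₂ * m))ˣ, F r u * χ (u : ZMod (s₂ * m)) = κ r χ * U r χ := by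
    intro r χ
    have h5 : ∀ u : (ZMod (s₂ * m))ˣ, F r u * χ (u : ZMod (s₂ * m)) =
        ∑ c ∈ X, ∑ l ∈ Y, (if (c * l) % s₂ = r then
          A c * B l * e ((c * l : ℕ) * ((b₁ : ℝ) / s₁)) else 0) *
          (if (c * l) % m = (u : ZMod (s₂ * m)).val % m then
            χ (u : ZMod (s₂ * m)) * e ((((c * l : ℕ) : ℝ) - (u : ZMod (s₂ * m)).val) *
              ((b₂ : ℝ) / (s₂ * m))) else 0) := by
      intro u
      have h6 : F r u = ∑ c ∈ X, ∑ l ∈ Y, (if (u : ZMod (s₂ * m)).val % s₂ = r then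
          (if (c * l) % m = (u : ZMod (s₂ * m)).val % m then
      A c * B l * e ((c * l : ℕ) * ((b₁ : ℝ) / s₁)) *
        e ((((c * l : ℕ) : ℝ) - (u : ZMod (s₂ * m)).val) * ((b₂ : ℝ) / (s₂ * m))) else 0) else 0) := by
        rw [hF, hT]
        simp only
        split_ifs with h
        · rfl
        · simp
      rw [h6, sum_mul]
      refine sum_congr rfl fun c _ => ?_
      rw [sum_mul]
      refine sum_congr rfl fun l _ => ?_
      by_cases hc : (c * l) % m = (u : ZMod (s₂ * m)).val % m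
      · have h7 : (c * l) % s₂ = (u : ZMod (s₂ * m)).val % s₂ :=
          Nat.ModEq.of_dvd h₂ hc
        rw [if_pos hc, if_pos hc, h7]
        split_ifs
        · ring
        · simp
      · rw [if_neg hc, if_neg hc]
        simp
    rw [sum_congr rfl fun u _ => h5 u, sum_comm]
    rw [hU]
    simp only
    rw [mul_sum]
    refine sum_congr rfl fun c hc => ?_
    rw [sum_comm, mul_sum]
    refine sum_congr rfl fun l hl => ?_
    rw [← mul_sum]
    have h6 := gp_W m s₂ hm hs₂ h₂ b₂ (c * l) (Nat.Coprime.mul_left (hX c hc) (hY l hl)) χ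
    rw [h6]
    by_cases hr : (c * l) % s₂ = r
    · rw [if_pos hr, if_pos hr]
      have h7 := hκn (c * l) r χ hr
      rw [hκ] at h7 ⊢
      simp only at h7 ⊢
      rw [h7]
      ring
    · rw [if_neg hr, if_neg hr]
      simp
  have hKf : ∀ χ, 0 ≤ Kf χ := fun χ => (sq_nonneg _).trans (hK χ 0 hs₂)
  have hφ : (0 : ℝ) < (s₂ * m).totient := by
    exact_mod_cast Nat.totient_pos.2 (Nat.pos_of_ne_zero (NeZero.ne _))
  have hsum : ((s₂ * m).totient : ℝ) * ∑ u, ‖T u‖ ^ 2 ≤ (s₂ : ℝ) ^ 2 * ∑ χ, Kf χ := by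
    calc ((s₂ * m).totient : ℝ) * ∑ u, ‖T u‖ ^ 2
        = ∑ r ∈ range s₂, ((s₂ * m).totient : ℝ) * ∑ u, ‖F r u‖ ^ 2 := by
          rw [← mul_sum]
          congr 1
          rw [sum_comm]
          exact sum_congr rfl fun u _ => (hsp u).symm
      _ = ∑ r ∈ range s₂, ∑ χ : DirichletCharacter ℂ (s₂ * m), ‖κ r χ‖ ^ 2 * ‖U r χ‖ ^ 2 := by
          refine sum_congr rfl fun r _ => ?_
          rw [← gp_dual (s₂ * m) (F r)]
          refine sum_congr rfl fun χ _ => ?_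
          rw [hkey r χ, norm_mul, mul_pow]
      _ ≤ ∑ r ∈ range s₂, ∑ χ : DirichletCharacter ℂ (s₂ * m), ‖κ r χ‖ ^ 2 * Kf χ :=
          sum_le_sum fun r hr => sum_le_sum fun χ _ =>
            mul_le_mul_of_nonneg_left (hK χ r (mem_range.1 hr)) (sq_nonneg _)
      _ = ∑ χ : DirichletCharacter ℂ (s₂ * m), (∑ r ∈ range s₂, ‖κ r χ‖ ^ 2) * Kf χ := by
          rw [sum_comm]
          exact sum_congr rfl fun χ _ => by rw [sum_mul]
      _ ≤ ∑ χ : DirichletCharacter ℂ (s₂ * m), (s₂ : ℝ) ^ 2 * Kf χ :=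
          sum_le_sum fun χ _ => mul_le_mul_of_nonneg_right
            (gp_kappa s₂ hs₂ b₂ hb₂ (fun j => χ ((1 + m * j : ℕ) : ZMod (s₂ * m)))
              (fun j => DirichletCharacter.norm_le_one χ _)) (hKf χ)
      _ = (s₂ : ℝ) ^ 2 * ∑ χ, Kf χ := by rw [mul_sum]
  rw [hVB] at hsum
  rw [div_mul_eq_mul_div, le_div_iff₀ hφ]
  have h5 : (s₂ : ℝ) * (VB m X Y A B ((b : ℝ) / (s₁ * s₂ * m)) * (s₂ * m).totient) ≤
      s₂ * (s₂ * ∑ χ, Kf χ) := by
    calc (s₂ : ℝ) * (VB m X Y A B ((b : ℝ) / (s₁ * s₂ * m)) * (s₂ * m).totient)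
        = ((s₂ * m).totient : ℝ) * (s₂ * VB m X Y A B ((b : ℝ) / (s₁ * s₂ * m))) := by ring
      _ ≤ (s₂ : ℝ) ^ 2 * ∑ χ, Kf χ := hsum
      _ = s₂ * (s₂ * ∑ χ, Kf χ) := by ring
  exact le_of_mul_le_mul_left h5 hsR

end Pool.Agent.HN
end

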