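import Pool.Agent.Work.GBM.C01

section
/-! # Module GOrth: orthogonality

For fixed `u, v`: `∑_χ |A_u(χ) B_v(χ)|² = φ(M) ∑_{c₁,c₂ ≡ u, l₁,l₂ ≡ v, c₁ l₁ ≡ c₂ l₂ (M)} A B \bar A \bar B`. -/

namespace Pool.Agent.HN

open Finset Pool.Agent.BV Pool.Agent.HL

/-- splitting into residue classes -/
lemma gorth_split (S : ℕ) (hS : 1 ≤ S) (X : Finset ℕ) (f : ℕ → ℂ) :
    ((∑ u ∈ range S, ‖∑ c ∈ X.filter (fun c => c % S = u), f c‖ ^ 2 : ℝ) : ℂ) =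
      ∑ c₁ ∈ X, ∑ c₂ ∈ X, if c₁ ≡ c₂ [MOD S] then f c₁ * (starRingEnd ℂ) (f c₂) else 0 := by
  have h1 : ∀ u ∈ range S, ((‖∑ c ∈ X.filter (fun c => c % S = u), f c‖ ^ 2 : ℝ) : ℂ) =
      ∑ c₁ ∈ X, ∑ c₂ ∈ X, if c₁ % S = u ∧ c₂ % S = u then f c₁ * (starRingEnd ℂ) (f c₂) else 0 := by
    intro u _
    have h2 : ((‖∑ c ∈ X.filter (fun c => c % S = u), f c‖ ^ 2 : ℝ) : ℂ) =
        (∑ c ∈ X.filter (fun c => c % S = u), f c) *
          (starRingEnd ℂ) (∑ c ∈ X.filter (fun c => c % S = u), f c) := by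
      rw [Complex.mul_conj, Complex.normSq_eq_norm_sq]
    rw [h2, map_sum, sum_mul_sum, sum_filter]
    refine sum_congr rfl fun c₁ _ => ?_
    by_cases h : c₁ % S = u
    · rw [if_pos h, sum_filter]
      refine sum_congr rfl fun c₂ _ => ?_
      by_cases h' : c₂ % S = u
      · rw [if_pos h', if_pos ⟨h, h'⟩]
      · rw [if_neg h', if_neg (fun h3 => h' h3.2)]
    · rw [if_neg h]
      symm
      exact sum_eq_zero fun c₂ _ => if_neg (fun h3 => h h3.1)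
  rw [Complex.ofReal_sum, sum_congr rfl h1, sum_comm]
  refine sum_congr rfl fun c₁ _ => ?_
  rw [sum_comm]
  refine sum_congr rfl fun c₂ _ => ?_
  by_cases h : c₁ ≡ c₂ [MOD S]
  · rw [if_pos h, sum_eq_single (c₁ % S)]
    · rw [if_pos ⟨rfl, (Nat.ModEq.symm h)⟩]
    · intro u _ hu
      exact if_neg (fun h3 => hu h3.1.symm)
    · intro h3
      exact absurd (mem_range.2 (Nat.mod_lt _ hS)) h3
  · rw [if_neg h]
    exact sum_eq_zero fun u _ => if_neg (fun h3 => h (h3.1.trans h3.2.symm))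

/-- orthogonality, as a bound -/
lemma gorth_char (M : ℕ) [NeZero M] (a b : ZMod M) :
    ‖∑ χ : DirichletCharacter ℂ M, χ a * (starRingEnd ℂ) (χ b)‖ ≤ if a = b then (M.totient : ℝ) else 0 := by
  by_cases hb : IsUnit b
  · have h1 : ∀ χ : DirichletCharacter ℂ M, χ a * (starRingEnd ℂ) (χ b) = χ b⁻¹ * χ a := by
      intro χ
      rw [mul_comm]
      congr 1
      have h2 : (starRingEnd ℂ) (χ b) = χ⁻¹ b := MulChar.star_apply' χ b
      obtain ⟨u, rfl⟩ := hb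
      rw [h2, MulChar.inv_apply, Ring.inverse_unit, ZMod.inv_coe_unit]
    rw [sum_congr rfl fun χ _ => h1 χ, DirichletCharacter.sum_char_inv_mul_char_eq ℂ hb a]
    by_cases h : a = b
    · rw [if_pos h.symm, if_pos h]
      simp
    · rw [if_neg (fun h' => h h'.symm), if_neg h]
      simp
  · rw [sum_eq_zero]
    · rw [norm_zero]
      split_ifs <;> positivity
    · intro χ _
      rw [χ.map_nonunit hb]
      simp

theorem g_orth (M S : ℕ) [NeZero M] (hS : 1 ≤ S) (X Y : Finset ℕ) (A B : ℕ → ℂ) :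
    ∑ χ : DirichletCharacter ℂ M, (∑ u ∈ range S, ‖∑ c ∈ X.filter (fun c => c % S = u),
        A c * χ (c : ZMod M)‖ ^ 2) *
      (∑ v ∈ range S, ‖∑ l ∈ Y.filter (fun l => l % S = v), B l * χ (l : ZMod M)‖ ^ 2) ≤
    M.totient * ∑ c₁ ∈ X, ∑ c₂ ∈ X, ∑ l₁ ∈ Y, ∑ l₂ ∈ Y,
      if c₁ ≡ c₂ [MOD S] ∧ l₁ ≡ l₂ [MOD S] ∧ c₁ * l₁ ≡ c₂ * l₂ [MOD M] then
        ‖A c₁‖ * ‖A c₂‖ * (‖B l₁‖ * ‖B l₂‖) else 0 := by
  classical
  set L : ℝ := ∑ χ : DirichletCharacter ℂ M, (∑ u ∈ range S, ‖∑ c ∈ X.filter (fun c => c % S = u),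
        A c * χ (c : ZMod M)‖ ^ 2) *
      (∑ v ∈ range S, ‖∑ l ∈ Y.filter (fun l => l % S = v), B l * χ (l : ZMod M)‖ ^ 2) with hL
  have hL0 : 0 ≤ L := by
    rw [hL]
    positivity
  -- the complex identity
  have hLc : (L : ℂ) = ∑ c₁ ∈ X, ∑ c₂ ∈ X, ∑ l₁ ∈ Y, ∑ l₂ ∈ Y,
      (if c₁ ≡ c₂ [MOD S] ∧ l₁ ≡ l₂ [MOD S] then
        A c₁ * (starRingEnd ℂ) (A c₂) * (B l₁ * (starRingEnd ℂ) (B l₂)) *
          ∑ χ : DirichletCharacter ℂ M, χ ((c₁ * l₁ : ℕ) : ZMod M) *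
            (starRingEnd ℂ) (χ ((c₂ * l₂ : ℕ) : ZMod M)) else 0) := by
    rw [hL, Complex.ofReal_sum]
    have h1 : ∀ χ : DirichletCharacter ℂ M, (((∑ u ∈ range S, ‖∑ c ∈ X.filter (fun c => c % S = u),
        A c * χ (c : ZMod M)‖ ^ 2) *
      (∑ v ∈ range S, ‖∑ l ∈ Y.filter (fun l => l % S = v), B l * χ (l : ZMod M)‖ ^ 2) : ℝ) : ℂ) =
        ∑ c₁ ∈ X, ∑ c₂ ∈ X, ∑ l₁ ∈ Y, ∑ l₂ ∈ Y,
          (if c₁ ≡ c₂ [MOD S] ∧ l₁ ≡ l₂ [MOD S] then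
            A c₁ * (starRingEnd ℂ) (A c₂) * (B l₁ * (starRingEnd ℂ) (B l₂)) *
              (χ ((c₁ * l₁ : ℕ) : ZMod M) * (starRingEnd ℂ) (χ ((c₂ * l₂ : ℕ) : ZMod M))) else 0) := by
      intro χ
      rw [Complex.ofReal_mul, gorth_split S hS X, gorth_split S hS Y, sum_mul]
      refine sum_congr rfl fun c₁ _ => ?_
      rw [sum_mul]
      refine sum_congr rfl fun c₂ _ => ?_
      rw [mul_sum]
      refine sum_congr rfl fun l₁ _ => ?_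
      rw [mul_sum]
      refine sum_congr rfl fun l₂ _ => ?_
      by_cases h : c₁ ≡ c₂ [MOD S]
      · by_cases h' : l₁ ≡ l₂ [MOD S]
        · rw [if_pos h, if_pos h', if_pos ⟨h, h'⟩]
          push_cast
          rw [map_mul, map_mul, map_mul, map_mul, map_mul]
          ring
        · rw [if_neg h', mul_zero, if_neg (fun h3 => h' h3.2)]
      · rw [if_neg h, zero_mul, if_neg (fun h3 => h h3.1)]
    rw [sum_congr rfl fun χ _ => h1 χ, sum_comm]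
    refine sum_congr rfl fun c₁ _ => ?_
    rw [sum_comm]
    refine sum_congr rfl fun c₂ _ => ?_
    rw [sum_comm]
    refine sum_congr rfl fun l₁ _ => ?_
    rw [sum_comm]
    refine sum_congr rfl fun l₂ _ => ?_
    by_cases h : c₁ ≡ c₂ [MOD S] ∧ l₁ ≡ l₂ [MOD S]
    · simp only [if_pos h]
      rw [mul_sum]
    · simp only [if_neg h, sum_const_zero]
  have hLn : L = ‖(L : ℂ)‖ := by rw [Complex.norm_real, Real.norm_of_nonneg hL0]
  rw [hLn, hLc, mul_sum]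
  refine (norm_sum_le _ _).trans (sum_le_sum fun c₁ _ => ?_)
  rw [mul_sum]
  refine (norm_sum_le _ _).trans (sum_le_sum fun c₂ _ => ?_)
  rw [mul_sum]
  refine (norm_sum_le _ _).trans (sum_le_sum fun l₁ _ => ?_)
  rw [mul_sum]
  refine (norm_sum_le _ _).trans (sum_le_sum fun l₂ _ => ?_)
  by_cases h : c₁ ≡ c₂ [MOD S] ∧ l₁ ≡ l₂ [MOD S]
  · rw [if_pos h, norm_mul, norm_mul, norm_mul, norm_mul, RCLike.norm_conj, RCLike.norm_conj]
    have h2 := gorth_char M ((c₁ * l₁ : ℕ) : ZMod M) ((c₂ * l₂ : ℕ) : ZMod M)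
    by_cases h3 : c₁ * l₁ ≡ c₂ * l₂ [MOD M]
    · rw [if_pos ⟨h.1, h.2, h3⟩]
      rw [if_pos ((ZMod.natCast_eq_natCast_iff _ _ _).2 h3)] at h2
      calc _ ≤ ‖A c₁‖ * ‖A c₂‖ * (‖B l₁‖ * ‖B l₂‖) * (M.totient : ℝ) := by gcongr
        _ = _ := by ring
    · rw [if_neg (fun h4 => h3 h4.2.2), mul_zero]
      rw [if_neg (fun h4 => h3 ((ZMod.natCast_eq_natCast_iff _ _ _).1 h4))] at h2
      have h5 : ‖∑ χ : DirichletCharacter ℂ M, χ ((c₁ * l₁ : ℕ) : ZMod M) *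
            (starRingEnd ℂ) (χ ((c₂ * l₂ : ℕ) : ZMod M))‖ = 0 := le_antisymm h2 (norm_nonneg _)
      rw [h5, mul_zero]
  · rw [if_neg h, norm_zero]
    positivity

end Pool.Agent.HN
end

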