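import Pool.Agent.Work.GBM.C01

section
/-! # Module CountS: `EC` with Landreau's inequality

For given `l`: the pairs `(j, c)` with `j c = n` are at most `τ(|n|) ≤ 2^k ∑_{d ∣ n, d^k ≤ |n|} τ(d)^(2k+1)`; write `n = i l + m h`, `h ≠ 0`, `|h| ≤ 2N/m`, `N = X₁ X₂/S`. For fixed `d ≤ D₁`, `D₁^k ≤ N`:
`#{(i, h) : d ∣ i l + m h}`: `e₀ = gcd(d, m)` divides `i` (`l` is coprime to `m`): at most `2 X₁/(S e₀)` values `i ≠ 0`, and for each at most `4 N e₀/(m d) + 1` values `h`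
(a class mod `d/e₀`). Total `≤ 8 (X₁/S) N/(m d) + 2 X₁/S`. Sum over `d`: `∑_{d ≤ x} τ(d)^K/d ≤ C L^c`, `∑_{d ≤ D₁} τ(d)^K ≤ C D₁ L^c`, `D₁ ≤ x^(1/k)`; over `l`: `tau_sum`. -/

namespace Pool.Agent.HN

open Finset Pool.Agent.BV Pool.Agent.HL

namespace CS

lemma mem_Nz {N : ℕ} {i : ℤ} : i ∈ Nz N ↔ i ≠ 0 ∧ i.natAbs ≤ N := by
  unfold Nz
  rw [mem_filter, mem_Icc]
  constructor
  · rintro ⟨h1, h2⟩
    exact ⟨h2, by omega⟩
  · rintro ⟨h1, h2⟩
    exact ⟨by omega, h1⟩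

lemma card_Nz (N : ℕ) : (Nz N).card = 2 * N := by
  have h : Nz N = (Icc (-(N : ℤ)) N).erase 0 := by
    ext i
    rw [mem_Nz, mem_erase, mem_Icc]
    constructor
    · rintro ⟨h1, h2⟩
      exact ⟨h1, by omega⟩
    · rintro ⟨h1, h2⟩
      exact ⟨h1, by omega⟩
  rw [h, card_erase_of_mem (by rw [mem_Icc]; omega), Int.card_Icc]
  omega

/-- multiples of `e` among `1 ≤ |i| ≤ A` -/
lemma card_mult (A e : ℕ) (he : 1 ≤ e) :
    ((Nz A).filter (fun i => (e : ℤ) ∣ i)).card ≤ 2 * (A / e) := by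
  rw [← card_Nz]
  have he' : (e : ℤ) ≠ 0 := by exact_mod_cast (by omega : e ≠ 0)
  apply card_le_card_of_injOn (fun i => i / (e : ℤ))
  · intro i hi
    rw [mem_coe, mem_filter, mem_Nz] at hi
    obtain ⟨⟨h1, h2⟩, t, rfl⟩ := hi
    rw [mem_coe]
    simp only
    rw [Int.mul_ediv_cancel_left _ he', mem_Nz]
    refine ⟨fun h => h1 (by rw [h, mul_zero]), ?_⟩
    rw [Nat.le_div_iff_mul_le (by omega), mul_comm]
    rw [Int.natAbs_mul, Int.natAbs_natCast] at h2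
    exact h2
  · intro i hi j hj hij
    rw [mem_coe, mem_filter] at hi hj
    obtain ⟨_, t, rfl⟩ := hi
    obtain ⟨_, u, rfl⟩ := hj
    simp only at hij
    rw [Int.mul_ediv_cancel_left _ he', Int.mul_ediv_cancel_left _ he'] at hij
    rw [hij]

/-- a residue class in an interval -/
lemma card_class (H d : ℕ) (hd : 1 ≤ d) (T : Finset ℤ) (hT : ∀ h ∈ T, h.natAbs ≤ H)
    (hc : ∀ h ∈ T, ∀ h' ∈ T, (d : ℤ) ∣ h - h') : T.card ≤ 2 * H / d + 1 := by
  rcases T.eq_empty_or_nonempty with rfl | hne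
  · simp
  have hd' : (0 : ℤ) < (d : ℤ) := by exact_mod_cast hd
  have ha := T.min'_mem hne
  have hmin : ∀ h ∈ T, T.min' hne ≤ h := fun h hh => T.min'_le h hh
  generalize T.min' hne = a at ha hmin
  have key : T.card ≤ (range (2 * H / d + 1)).card := by
    apply card_le_card_of_injOn (fun h => ((h - a) / (d : ℤ)).toNat)
    · intro h hh
      rw [mem_coe] at hh
      rw [mem_coe, mem_range]
      simp only
      obtain ⟨t, ht⟩ := hc h hh a ha
      rw [ht, Int.mul_ediv_cancel_left _ hd'.ne', Nat.lt_succ_iff, Nat.le_div_iff_mul_le (by omega)]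
      have h1 := hT h hh
      have h2 := hT a ha
      have h3 := hmin h hh
      have ht0 : 0 ≤ t := by
        by_contra hneg
        push Not at hneg
        have : (d : ℤ) * t < 0 := mul_neg_of_pos_of_neg hd' hneg
        omega
      have h4 : ((t.toNat * d : ℕ) : ℤ) = d * t := by
        push_cast
        rw [Int.toNat_of_nonneg ht0, mul_comm]
      omega
    · intro h hh h' hh' he
      rw [mem_coe] at hh hh'
      simp only at he
      obtain ⟨t, ht⟩ := hc h hh a ha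
      obtain ⟨t', ht'⟩ := hc h' hh' a ha
      rw [ht, ht', Int.mul_ediv_cancel_left _ hd'.ne', Int.mul_ediv_cancel_left _ hd'.ne'] at he
      have h3 := hmin h hh
      have h3' := hmin h' hh'
      have ht0 : 0 ≤ t := by
        by_contra hneg
        push Not at hneg
        have : (d : ℤ) * t < 0 := mul_neg_of_pos_of_neg hd' hneg
        omega
      have ht0' : 0 ≤ t' := by
        by_contra hneg
        push Not at hneg
        have : (d : ℤ) * t' < 0 := mul_neg_of_pos_of_neg hd' hneg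
        omega
      have : t = t' := by omega
      rw [this] at ht
      omega
  rwa [card_range] at key

/-- the pairs `(i, h)` with `d ∣ i l + m h` -/
lemma card_pairs (A H d l m : ℕ) (hd : 1 ≤ d) (hlm : l.Coprime m) :
    (((Nz A ×ˢ Nz H).filter (fun p : ℤ × ℤ => (d : ℤ) ∣ p.1 * l + m * p.2)).card : ℝ) ≤
      4 * A * H / d + 2 * A := by
  set e := Nat.gcd d m with he
  have he1 : 1 ≤ e := Nat.gcd_pos_of_pos_left m hd
  have hed : e ∣ d := Nat.gcd_dvd_left d m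
  have hem : e ∣ m := Nat.gcd_dvd_right d m
  set d' := d / e with hd'
  have hdd : d = e * d' := (Nat.mul_div_cancel' hed).symm
  have hd'1 : 1 ≤ d' := Nat.div_pos (Nat.le_of_dvd hd hed) he1
  have hmm : m = e * (m / e) := (Nat.mul_div_cancel' hem).symm
  have hcop : Nat.Coprime d' (m / e) := Nat.coprime_div_gcd_div_gcd (by omega)
  have h1 : ((Nz A ×ˢ Nz H).filter (fun p : ℤ × ℤ => (d : ℤ) ∣ p.1 * l + m * p.2)).card =
      ∑ i ∈ Nz A, ((Nz H).filter (fun h => (d : ℤ) ∣ i * l + m * h)).card := by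
    rw [card_filter, sum_product]
    apply sum_congr rfl
    intro i _
    rw [card_filter]
  have h2 : ∀ i ∈ Nz A, ((Nz H).filter (fun h => (d : ℤ) ∣ i * l + m * h)).card ≤
      if (e : ℤ) ∣ i then 2 * H / d' + 1 else 0 := by
    intro i _
    split_ifs with hi
    · apply card_class H d' hd'1
      · intro h hh
        rw [mem_filter, mem_Nz] at hh
        exact hh.1.2
      · intro h hh h' hh'
        rw [mem_filter] at hh hh'
        have h3 : (d : ℤ) ∣ m * (h - h') := by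
          have := dvd_sub hh.2 hh'.2
          have e1 : i * (l : ℤ) + m * h - (i * l + m * h') = m * (h - h') := by ring
          rwa [e1] at this
        have h4 : d ∣ m * (h - h').natAbs := by
          have := Int.natAbs_dvd_natAbs.2 h3
          rwa [Int.natAbs_natCast, Int.natAbs_mul, Int.natAbs_natCast] at this
        rw [hdd, hmm, mul_assoc] at h4
        have h5 : d' ∣ m / e * (h - h').natAbs := Nat.dvd_of_mul_dvd_mul_left he1 h4
        have h6 := hcop.dvd_of_dvd_mul_left h5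
        exact Int.natCast_dvd.2 h6
    · rw [Nat.le_zero, card_eq_zero, filter_eq_empty_iff]
      intro h _ hdiv
      apply hi
      have h3 : (e : ℤ) ∣ i * l := by
        have a1 : (e : ℤ) ∣ i * l + m * h := (Int.natCast_dvd_natCast.2 hed).trans hdiv
        have a2 : (e : ℤ) ∣ m * h := (Int.natCast_dvd_natCast.2 hem).mul_right h
        exact (dvd_add_left a2).1 a1
      have h4 : e ∣ i.natAbs * l := by
        have := Int.natAbs_dvd_natAbs.2 h3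
        rwa [Int.natAbs_natCast, Int.natAbs_mul, Int.natAbs_natCast] at this
      have h5 : Nat.Coprime e l := (Nat.Coprime.coprime_dvd_right hem hlm).symm
      exact Int.natCast_dvd.2 (h5.dvd_of_dvd_mul_right h4)
  have h3 : ((Nz A ×ˢ Nz H).filter (fun p : ℤ × ℤ => (d : ℤ) ∣ p.1 * l + m * p.2)).card ≤
      2 * (A / e) * (2 * H / d' + 1) := by
    rw [h1]
    refine (sum_le_sum h2).trans ?_
    rw [← sum_filter, sum_const, smul_eq_mul]
    exact Nat.mul_le_mul_right _ (card_mult A e he1)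
  have he0 : (1 : ℝ) ≤ e := by exact_mod_cast he1
  have hd'0 : (1 : ℝ) ≤ d' := by exact_mod_cast hd'1
  have c1 : ((A / e : ℕ) : ℝ) ≤ A / e := Nat.cast_div_le
  have c2 : ((2 * H / d' : ℕ) : ℝ) ≤ 2 * H / d' := by
    refine Nat.cast_div_le.trans (le_of_eq ?_)
    push_cast
    ring
  have hA0 : (0 : ℝ) ≤ A := Nat.cast_nonneg _
  have hH0 : (0 : ℝ) ≤ H := Nat.cast_nonneg _
  calc (((Nz A ×ˢ Nz H).filter (fun p : ℤ × ℤ => (d : ℤ) ∣ p.1 * l + m * p.2)).card : ℝ)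
      ≤ ((2 * (A / e) * (2 * H / d' + 1) : ℕ) : ℝ) := by exact_mod_cast h3
    _ = 2 * ((A / e : ℕ) : ℝ) * (((2 * H / d' : ℕ) : ℝ) + 1) := by
        rw [Nat.cast_mul, Nat.cast_mul, Nat.cast_add]
        simp
    _ ≤ 2 * (A / e) * (2 * H / d' + 1) := by
        have : (0 : ℝ) ≤ A / e := by positivity
        gcongr
    _ = 4 * A * H / (e * d') + 2 * A / e := by
        field_simp
        ring
    _ ≤ 4 * A * H / d + 2 * A := by
        have e1 : (d : ℝ) = e * d' := by exact_mod_cast hdd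
        rw [e1]
        have : 2 * (A : ℝ) / e ≤ 2 * A := div_le_self (by positivity) he0
        linarith

/-- the pairs `(j, c)` for given `i`, `l` -/
lemma card_jc (m S X₁ X₂ l : ℕ) (hm : 1 ≤ m) (hS : 1 ≤ S) (hl : l ≤ X₂) (i : ℤ)
    (hi : i.natAbs ≤ X₁ / S) :
    ((Nz (X₂ / S) ×ˢ Icc 1 X₁).filter (fun p : ℤ × ℕ =>
      p.1 * (p.2 : ℤ) ≠ i * (l : ℤ) ∧ (m : ℤ) ∣ p.1 * (p.2 : ℤ) - i * (l : ℤ))).card ≤
    ∑ h ∈ (Nz (2 * (X₁ * X₂ / S) / m)).filter (fun h => i * l + m * h ≠ 0 ∧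
      (i * l + m * h).natAbs ≤ X₁ * X₂ / S), (i * l + m * h).natAbs.divisors.card := by
  have hm' : (m : ℤ) ≠ 0 := by exact_mod_cast (by omega : m ≠ 0)
  have hN1 : X₁ / S * X₂ ≤ X₁ * X₂ / S := by
    rw [Nat.le_div_iff_mul_le (by omega)]
    calc X₁ / S * X₂ * S = X₁ / S * S * X₂ := by ring
      _ ≤ X₁ * X₂ := Nat.mul_le_mul_right _ (Nat.div_mul_le_self _ _)
  have hN2 : X₂ / S * X₁ ≤ X₁ * X₂ / S := by
    rw [Nat.le_div_iff_mul_le (by omega)]
    calc X₂ / S * X₁ * S = X₂ / S * S * X₁ := by ring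
      _ ≤ X₂ * X₁ := Nat.mul_le_mul_right _ (Nat.div_mul_le_self _ _)
      _ = X₁ * X₂ := mul_comm _ _
  have hil : (i * (l : ℤ)).natAbs ≤ X₁ * X₂ / S := by
    rw [Int.natAbs_mul, Int.natAbs_natCast]
    exact (Nat.mul_le_mul hi hl).trans hN1
  rw [← card_sigma]
  apply card_le_card_of_injOn
    (fun p : ℤ × ℕ => (⟨(p.1 * (p.2 : ℤ) - i * l) / m, p.2⟩ : Σ _ : ℤ, ℕ))
  · intro p hp
    rw [mem_coe, mem_filter, mem_product, mem_Nz, mem_Icc] at hp
    obtain ⟨⟨⟨hj0, hj⟩, hc1, hc2⟩, hne, t, ht⟩ := hp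
    have hjc : (p.1 * (p.2 : ℤ)).natAbs ≤ X₁ * X₂ / S := by
      rw [Int.natAbs_mul, Int.natAbs_natCast]
      exact (Nat.mul_le_mul hj hc2).trans hN2
    have hsum : i * (l : ℤ) + m * t = p.1 * p.2 := by linarith
    have hp2 : (p.2 : ℤ) ≠ 0 := by exact_mod_cast (by omega : p.2 ≠ 0)
    rw [mem_coe, mem_sigma]
    simp only
    rw [ht, Int.mul_ediv_cancel_left _ hm', mem_filter, mem_Nz, hsum, Nat.mem_divisors]
    refine ⟨⟨⟨?_, ?_⟩, mul_ne_zero hj0 hp2, hjc⟩, ?_, ?_⟩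
    · rintro rfl
      apply hne
      rw [mul_zero] at ht
      linarith
    · rw [Nat.le_div_iff_mul_le (by omega)]
      have : t.natAbs * m = (p.1 * (p.2 : ℤ) - i * l).natAbs := by
        rw [ht, Int.natAbs_mul, Int.natAbs_natCast, mul_comm]
      rw [this]
      omega
    · rw [Int.natAbs_mul, Int.natAbs_natCast]
      exact Dvd.intro_left _ rfl
    · rw [Int.natAbs_ne_zero]
      exact mul_ne_zero hj0 hp2
  · intro p hp p' hp' he
    rw [mem_coe, mem_filter, mem_product, mem_Nz, mem_Icc] at hp hp'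
    obtain ⟨⟨⟨hj0, hj⟩, hc1, hc2⟩, hne, t, ht⟩ := hp
    obtain ⟨⟨⟨hj0', hj'⟩, hc1', hc2'⟩, hne', t', ht'⟩ := hp'
    have hp2 : (p.2 : ℤ) ≠ 0 := by exact_mod_cast (by omega : p.2 ≠ 0)
    simp only [Sigma.mk.injEq, heq_eq_eq] at he
    obtain ⟨he1, he2⟩ := he
    rw [ht, ht', Int.mul_ediv_cancel_left _ hm', Int.mul_ediv_cancel_left _ hm'] at he1
    have e3 : p.1 * (p.2 : ℤ) = p'.1 * p.2 := by
      rw [← he1] at ht'
      rw [← he2] at ht'
      linarith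
    exact Prod.ext (mul_right_cancel₀ hp2 e3) he2

/-- `D₁ = x^(1/k)` -/
noncomputable def DD (k x : ℕ) : ℕ := ⌊(x : ℝ) ^ (1 / (k : ℝ))⌋₊

lemma le_DD {k x d n : ℕ} (hk : 1 ≤ k) (hd : d ^ k ≤ n) (hn : n ≤ x) : d ≤ DD k x := by
  unfold DD
  apply Nat.le_floor
  have h1 : ((d : ℝ)) ^ k ≤ x := by exact_mod_cast hd.trans hn
  have h2 : (d : ℝ) = ((d : ℝ) ^ k) ^ (1 / (k : ℝ)) := by
    rw [one_div, Real.pow_rpow_inv_natCast (by positivity) (by omega)]
  rw [h2]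
  exact Real.rpow_le_rpow (by positivity) h1 (by positivity)

lemma DD_le {k x : ℕ} : (DD k x : ℝ) ≤ (x : ℝ) ^ (1 / (k : ℝ)) :=
  Nat.floor_le (by positivity)

lemma DD_le_x {k x : ℕ} (hk : 1 ≤ k) (hx : 1 ≤ x) : DD k x ≤ x := by
  have hx' : (1 : ℝ) ≤ x := by exact_mod_cast hx
  have h1 : (x : ℝ) ^ (1 / (k : ℝ)) ≤ x := by
    calc (x : ℝ) ^ (1 / (k : ℝ)) ≤ (x : ℝ) ^ (1 : ℝ) := by
          apply Real.rpow_le_rpow_of_exponent_le hx'
          rw [div_le_one (by positivity)]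
          exact_mod_cast hk
      _ = x := Real.rpow_one _
  exact_mod_cast DD_le.trans h1

/-- Landreau's inequality for the sum over `i` -/
lemma sum_i (k : ℕ) (hk : 1 ≤ k) (x m S X₁ X₂ l : ℕ) (hm : 1 ≤ m) (hS : 1 ≤ S) (hl : l ≤ X₂)
    (hx : X₁ * X₂ ≤ x) (hlm : l.Coprime m) :
    ∑ i ∈ Nz (X₁ / S), (((Nz (X₂ / S) ×ˢ Icc 1 X₁).filter (fun p : ℤ × ℕ =>
      p.1 * (p.2 : ℤ) ≠ i * (l : ℤ) ∧ (m : ℤ) ∣ p.1 * (p.2 : ℤ) - i * (l : ℤ))).card : ℝ) ≤
    2 ^ k * ∑ d ∈ Icc 1 (DD k x), (d.divisors.card : ℝ) ^ (2 * k + 1) *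
      (4 * (X₁ / S : ℕ) * (2 * (X₁ * X₂ / S) / m : ℕ) / d + 2 * (X₁ / S : ℕ)) := by
  set H := 2 * (X₁ * X₂ / S) / m with hH
  have h1 : ∀ i ∈ Nz (X₁ / S), (((Nz (X₂ / S) ×ˢ Icc 1 X₁).filter (fun p : ℤ × ℕ =>
      p.1 * (p.2 : ℤ) ≠ i * (l : ℤ) ∧ (m : ℤ) ∣ p.1 * (p.2 : ℤ) - i * (l : ℤ))).card : ℝ) ≤
      ∑ h ∈ Nz H, 2 ^ k * ∑ d ∈ Icc 1 (DD k x),
        if (d : ℤ) ∣ i * l + m * h then (d.divisors.card : ℝ) ^ (2 * k + 1) else 0 := by
    intro i hi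
    have h2 := card_jc m S X₁ X₂ l hm hS hl i (mem_Nz.1 hi).2
    have h3 : (((Nz (X₂ / S) ×ˢ Icc 1 X₁).filter (fun p : ℤ × ℕ =>
      p.1 * (p.2 : ℤ) ≠ i * (l : ℤ) ∧ (m : ℤ) ∣ p.1 * (p.2 : ℤ) - i * (l : ℤ))).card : ℝ) ≤
      ∑ h ∈ (Nz H).filter (fun h => i * l + m * h ≠ 0 ∧
      (i * l + m * h).natAbs ≤ X₁ * X₂ / S), ((i * l + m * h).natAbs.divisors.card : ℝ) := by
      exact_mod_cast h2
    refine h3.trans ?_
    refine le_trans ?_ (sum_le_sum_of_subset_of_nonneg (filter_subset (fun h => i * l + m * h ≠ 0 ∧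
      (i * l + m * h).natAbs ≤ X₁ * X₂ / S) (Nz H)) fun h _ _ => ?_)
    · apply sum_le_sum
      intro h hh
      rw [mem_filter] at hh
      obtain ⟨_, hne, hle⟩ := hh
      have hn1 : 1 ≤ (i * l + m * h).natAbs := Int.natAbs_pos.2 hne
      refine (landreau k hk _ hn1).trans ?_
      apply mul_le_mul_of_nonneg_left _ (by positivity)
      rw [← sum_filter]
      apply sum_le_sum_of_subset_of_nonneg
      · intro d hd
        rw [mem_filter, Nat.mem_divisors] at hd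
        rw [mem_filter, mem_Icc]
        refine ⟨⟨Nat.pos_of_dvd_of_pos hd.1.1 hn1, ?_⟩, Int.natCast_dvd.2 hd.1.1⟩
        apply le_DD hk hd.2
        refine hle.trans ((Nat.div_le_self _ _).trans hx)
      · intros
        positivity
    · apply mul_nonneg (by positivity)
      apply sum_nonneg
      intro d _
      split_ifs
      · positivity
      · exact le_rfl
  refine (sum_le_sum h1).trans ?_
  have h4 : ∑ i ∈ Nz (X₁ / S), ∑ h ∈ Nz H, (2 : ℝ) ^ k * ∑ d ∈ Icc 1 (DD k x),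
        (if (d : ℤ) ∣ i * l + m * h then (d.divisors.card : ℝ) ^ (2 * k + 1) else 0) =
      2 ^ k * ∑ d ∈ Icc 1 (DD k x), (d.divisors.card : ℝ) ^ (2 * k + 1) *
        (((Nz (X₁ / S) ×ˢ Nz H).filter (fun p : ℤ × ℤ => (d : ℤ) ∣ p.1 * l + m * p.2)).card : ℝ) := by
    simp_rw [← mul_sum]
    congr 1
    rw [← sum_product' (Nz (X₁ / S)) (Nz H) (fun i h => ∑ d ∈ Icc 1 (DD k x),
        (if (d : ℤ) ∣ i * l + m * h then (d.divisors.card : ℝ) ^ (2 * k + 1) else 0)), sum_comm]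
    apply sum_congr rfl
    intro d _
    rw [← sum_filter, sum_const, nsmul_eq_mul, mul_comm]
  rw [h4]
  apply mul_le_mul_of_nonneg_left _ (by positivity)
  apply sum_le_sum
  intro d hd
  apply mul_le_mul_of_nonneg_left _ (by positivity)
  exact card_pairs _ _ _ _ _ (mem_Icc.1 hd).1 hlm

end CS

theorem count_S (k : ℕ) (hk : 1 ≤ k) : ∃ (K : ℝ) (c : ℕ), 0 < K ∧ ∀ x m S X₁ X₂ : ℕ, 3 ≤ x →
    1 ≤ m → 1 ≤ S → X₁ * X₂ ≤ x →
    EC m S X₁ X₂ ≤ K * (Real.log x) ^ c * ((x : ℝ) ^ 2 / ((S : ℝ) ^ 2 * m) +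
      (x : ℝ) / S * (x : ℝ) ^ (1 / (k : ℝ))) := by
  obtain ⟨C₁, hC₁, hτ1⟩ := Pool.Agent.HT.tau_sum 4
  obtain ⟨C₂, hC₂, hτ2⟩ := Pool.Agent.HT.tau_sum (2 * k + 1)
  obtain ⟨C₃, hC₃, hτ3⟩ := Pool.Agent.HT.tau_inv (2 * k + 1)
  refine ⟨C₁ * 2 ^ k * (8 * C₃ + 2 * C₂), 2 ^ 4 + 2 ^ (2 * k + 1), by positivity, ?_⟩
  intro x m S X₁ X₂ hx hm hS hX
  have hL1 : 1 ≤ Real.log x := DivSum_log x hx
  have hL0 : 0 ≤ Real.log x := by linarith
  have hm0 : (0 : ℝ) < m := by exact_mod_cast hm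
  have hS0 : (0 : ℝ) < S := by exact_mod_cast hS
  have hx0 : (0 : ℝ) ≤ x := Nat.cast_nonneg _
  rcases Nat.eq_zero_or_pos X₁ with rfl | hX1
  · have : EC m S 0 X₂ = 0 := by
      unfold EC
      simp
    rw [this]
    positivity
  have hX2x : X₂ ≤ x := le_trans (Nat.le_mul_of_pos_left X₂ hX1) hX
  set A : ℝ := ((X₁ / S : ℕ) : ℝ) with hA
  set H : ℝ := ((2 * (X₁ * X₂ / S) / m : ℕ) : ℝ) with hH
  set D₁ := CS.DD k x with hD₁
  set Lx := Real.log x with hLx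
  generalize hc₂ : 2 ^ (2 * k + 1) = c₂ at *
  have hA0 : 0 ≤ A := Nat.cast_nonneg _
  have hH0 : 0 ≤ H := Nat.cast_nonneg _
  have hD1x : D₁ ≤ x := CS.DD_le_x hk (by omega)
  have s2 : ∑ d ∈ Icc 1 D₁, (d.divisors.card : ℝ) ^ (2 * k + 1) ≤ C₂ * D₁ * Lx ^ c₂ :=
    hτ2 x D₁ hx hD1x
  have s3 : ∑ d ∈ Icc 1 D₁, (d.divisors.card : ℝ) ^ (2 * k + 1) / d ≤ C₃ * Lx ^ c₂ :=
    hτ3 x D₁ hx hD1x
  set B : ℝ := 2 ^ k * (4 * A * H * (C₃ * Lx ^ c₂) + 2 * A * (C₂ * D₁ * Lx ^ c₂)) with hB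
  have hB0 : 0 ≤ B := by positivity
  have t1 : EC m S X₁ X₂ ≤ ∑ l ∈ Icc 1 X₂, (l.divisors.card : ℝ) ^ 4 * B := by
    unfold EC Cop
    refine le_trans ?_ (sum_le_sum_of_subset_of_nonneg
      (filter_subset (fun c : ℕ => c.Coprime m) (Icc 1 X₂)) fun l _ _ =>
      mul_nonneg (pow_nonneg (Nat.cast_nonneg _) 4) hB0)
    apply sum_le_sum
    intro l hl
    rw [mem_filter, mem_Icc] at hl
    apply mul_le_mul_of_nonneg_left _ (by positivity)
    refine (CS.sum_i k hk x m S X₁ X₂ l hm hS hl.1.2 hX hl.2).trans ?_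
    rw [hB]
    apply mul_le_mul_of_nonneg_left _ (by positivity)
    have e1 : ∑ d ∈ Icc 1 (CS.DD k x), (d.divisors.card : ℝ) ^ (2 * k + 1) *
        (4 * (X₁ / S : ℕ) * (2 * (X₁ * X₂ / S) / m : ℕ) / d + 2 * (X₁ / S : ℕ)) =
        4 * A * H * ∑ d ∈ Icc 1 D₁, (d.divisors.card : ℝ) ^ (2 * k + 1) / d +
        2 * A * ∑ d ∈ Icc 1 D₁, (d.divisors.card : ℝ) ^ (2 * k + 1) := by
      rw [mul_sum, mul_sum, ← sum_add_distrib]
      apply sum_congr rfl
      intro d _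
      rw [← hA, ← hH]
      ring
    rw [e1]
    exact add_le_add (mul_le_mul_of_nonneg_left s3 (by positivity))
      (mul_le_mul_of_nonneg_left s2 (by positivity))
  rw [← sum_mul] at t1
  have t2 : EC m S X₁ X₂ ≤ (C₁ * X₂ * Lx ^ (2 ^ 4)) * B :=
    t1.trans (mul_le_mul_of_nonneg_right (hτ1 x X₂ hx hX2x) hB0)
  refine t2.trans ?_
  -- sizes
  have hXr : (X₁ : ℝ) * X₂ ≤ x := by exact_mod_cast hX
  have hA1 : A ≤ X₁ / S := Nat.cast_div_le
  have hAX : (X₂ : ℝ) * A ≤ x / S := by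
    calc (X₂ : ℝ) * A ≤ X₂ * (X₁ / S) := mul_le_mul_of_nonneg_left hA1 (by positivity)
      _ = X₁ * X₂ / S := by ring
      _ ≤ x / S := div_le_div_of_nonneg_right hXr hS0.le
  have hH1 : H ≤ 2 * (x / S) / m := by
    have a1 : H ≤ ((2 * (X₁ * X₂ / S) : ℕ) : ℝ) / m := Nat.cast_div_le
    have a2 : ((X₁ * X₂ / S : ℕ) : ℝ) ≤ ((X₁ * X₂ : ℕ) : ℝ) / S := Nat.cast_div_le
    have a3 : ((X₁ * X₂ : ℕ) : ℝ) / S ≤ x / S := by
      push_cast
      exact div_le_div_of_nonneg_right hXr hS0.le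
    refine a1.trans ?_
    rw [Nat.cast_mul, Nat.cast_ofNat]
    gcongr
    exact a2.trans a3
  have hD1 : (D₁ : ℝ) ≤ (x : ℝ) ^ (1 / (k : ℝ)) := CS.DD_le
  have u1 : (X₂ : ℝ) * A * H ≤ 2 * ((x : ℝ) ^ 2 / ((S : ℝ) ^ 2 * m)) := by
    calc (X₂ : ℝ) * A * H ≤ (x / S) * (2 * (x / S) / m) :=
          mul_le_mul hAX hH1 hH0 (by positivity)
      _ = 2 * ((x : ℝ) ^ 2 / ((S : ℝ) ^ 2 * m)) := by
          field_simp
  have u2 : (X₂ : ℝ) * A * D₁ ≤ (x : ℝ) / S * (x : ℝ) ^ (1 / (k : ℝ)) :=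
    mul_le_mul hAX hD1 (by positivity) (by positivity)
  set P := (x : ℝ) ^ 2 / ((S : ℝ) ^ 2 * m) with hP
  set R := (x : ℝ) / S * (x : ℝ) ^ (1 / (k : ℝ)) with hR
  have hP0 : 0 ≤ P := by positivity
  have hR0 : 0 ≤ R := by positivity
  have hLc : 0 ≤ Lx ^ c₂ := by positivity
  calc (C₁ * X₂ * Lx ^ (2 ^ 4)) * B
      = C₁ * 2 ^ k * (Lx ^ (2 ^ 4) * Lx ^ c₂) * (4 * C₃ * (X₂ * A * H) + 2 * C₂ * (X₂ * A * D₁)) := by
        rw [hB]; ring
    _ ≤ C₁ * 2 ^ k * (Lx ^ (2 ^ 4) * Lx ^ c₂) * (4 * C₃ * (2 * P) + 2 * C₂ * R) := by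
        apply mul_le_mul_of_nonneg_left _ (by positivity)
        gcongr
    _ ≤ C₁ * 2 ^ k * (Lx ^ (2 ^ 4) * Lx ^ c₂) * ((8 * C₃ + 2 * C₂) * (P + R)) := by
        apply mul_le_mul_of_nonneg_left _ (by positivity)
        nlinarith [mul_nonneg hC₃.le hR0, mul_nonneg hC₂.le hP0]
    _ = _ := by rw [← pow_add]; ring

end Pool.Agent.HN
end

section
/-! # Module BoxPert: removing a small phase

`e(c l γ) = ∑_t (2π i γ X₁ X₂)^t/t! (c/X₁)^t (l/X₂)^t`; `w_t = (2π)^t/t!`, `∑ w_t = e^(2π)`: `|∑_t w_t z_t|² ≤ e^(2π) ∑_t w_t |z_t|²` (finite partial sums and a limit), sum over the classes. -/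

namespace Pool.Agent.HN

open Finset Pool.Agent.BV Pool.Agent.HL

theorem box_pert (q X₁ X₂ : ℕ) (A B : ℕ → ℂ) (α γ V : ℝ) (hγ : |γ| * (X₁ * X₂) ≤ 1) (hV : 0 ≤ V)
    (h : ∀ t : ℕ, VB q (Icc 1 X₁) (Icc 1 X₂) (fun c => A c * ((c : ℂ) / X₁) ^ t)
      (fun l => B l * ((l : ℂ) / X₂) ^ t) α ≤ V) :
    VB q (Icc 1 X₁) (Icc 1 X₂) A B (α + γ) ≤ Real.exp (4 * Real.pi) * V := by
  set K : ℂ := 2 * Real.pi * (γ * (X₁ * X₂) : ℝ) * Complex.I with hK
  have hKn : ‖K‖ ≤ 2 * Real.pi := by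
    have h1 : ‖K‖ = 2 * Real.pi * (|γ| * (X₁ * X₂)) := by
      rw [hK, norm_mul, norm_mul, norm_mul, Complex.norm_I, Complex.norm_real, Complex.norm_real,
        Complex.norm_ofNat, Real.norm_eq_abs, Real.norm_eq_abs, abs_of_pos Real.pi_pos, abs_mul,
        abs_of_nonneg (by positivity : (0 : ℝ) ≤ X₁ * X₂), mul_one]
    rw [h1]
    have := Real.pi_pos
    nlinarith
  set w : ℕ → ℝ := fun t => (2 * Real.pi) ^ t / t.factorial with hw
  have hw0 : ∀ t, 0 ≤ w t := fun t => by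
    have := Real.pi_pos
    simp only [hw]
    positivity
  set z : ℕ → ℕ → ℂ := fun t a => ∑ c ∈ Icc 1 X₁, ∑ l ∈ Icc 1 X₂,
    if (c * l) % q = a then (A c * ((c : ℂ) / X₁) ^ t) * (B l * ((l : ℂ) / X₂) ^ t) *
      e ((c * l : ℕ) * α) else 0 with hz
  have hz2 : ∀ t, ∑ a ∈ range q, ‖z t a‖ ^ 2 ≤ V := fun t => h t
  have hsum : ∀ n, ∑ t ∈ range n, w t ≤ Real.exp (2 * Real.pi) := fun n =>
    Real.sum_le_exp_of_nonneg (by have := Real.pi_pos; positivity) n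
  have hT : ∀ a, HasSum (fun t => K ^ t / t.factorial * z t a)
      (∑ c ∈ Icc 1 X₁, ∑ l ∈ Icc 1 X₂,
        if (c * l) % q = a then A c * B l * e ((c * l : ℕ) * (α + γ)) else 0) := by
    intro a
    have e1 : (fun t => K ^ t / t.factorial * z t a) = fun t => ∑ c ∈ Icc 1 X₁, ∑ l ∈ Icc 1 X₂,
        K ^ t / t.factorial * (if (c * l) % q = a then (A c * ((c : ℂ) / X₁) ^ t) *
          (B l * ((l : ℂ) / X₂) ^ t) * e ((c * l : ℕ) * α) else 0) := by
      funext t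
      simp only [hz, mul_sum]
    rw [e1]
    refine hasSum_sum fun c hc => hasSum_sum fun l hl => ?_
    split_ifs with hcl
    · have hX₁ : (X₁ : ℂ) ≠ 0 := by
        have := (mem_Icc.1 hc)
        exact_mod_cast (by omega : X₁ ≠ 0)
      have hX₂ : (X₂ : ℂ) ≠ 0 := by
        have := (mem_Icc.1 hl)
        exact_mod_cast (by omega : X₂ ≠ 0)
      have h2 := (NormedSpace.expSeries_div_hasSum_exp (K * ((c : ℂ) / X₁) * ((l : ℂ) / X₂))).mul_left
        (A c * B l * e ((c * l : ℕ) * α))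
      rw [← Complex.exp_eq_exp_ℂ] at h2
      have e2 : A c * B l * e ((c * l : ℕ) * α) *
          Complex.exp (K * ((c : ℂ) / X₁) * ((l : ℂ) / X₂)) =
          A c * B l * e ((c * l : ℕ) * (α + γ)) := by
        have e3 : K * ((c : ℂ) / X₁) * ((l : ℂ) / X₂) =
            2 * Real.pi * ((c * l : ℕ) * γ : ℝ) * Complex.I := by
          rw [hK]
          push_cast
          field_simp
        rw [e3, mul_assoc (A c * B l)]
        congr 1
        unfold e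
        rw [← Complex.exp_add]
        congr 1
        push_cast
        ring
      rw [e2] at h2
      refine h2.congr_fun fun t => ?_
      rw [mul_pow, mul_pow]
      ring
    · simp
  have hT' : ∀ a, Filter.Tendsto (fun n => ∑ t ∈ range n, K ^ t / t.factorial * z t a) Filter.atTop
      (nhds (∑ c ∈ Icc 1 X₁, ∑ l ∈ Icc 1 X₂,
        if (c * l) % q = a then A c * B l * e ((c * l : ℕ) * (α + γ)) else 0)) :=
    fun a => (hT a).tendsto_sum_nat
  have hlim : Filter.Tendsto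
      (fun n => ∑ a ∈ range q, ‖∑ t ∈ range n, K ^ t / t.factorial * z t a‖ ^ 2) Filter.atTop
      (nhds (VB q (Icc 1 X₁) (Icc 1 X₂) A B (α + γ))) :=
    tendsto_finsetSum _ fun a _ => ((hT' a).norm).pow 2
  refine le_of_tendsto' hlim fun n => ?_
  have hb : ∀ a, ‖∑ t ∈ range n, K ^ t / t.factorial * z t a‖ ^ 2 ≤
      Real.exp (2 * Real.pi) * ∑ t ∈ range n, w t * ‖z t a‖ ^ 2 := by
    intro a
    have h1 : ‖∑ t ∈ range n, K ^ t / t.factorial * z t a‖ ≤ ∑ t ∈ range n, w t * ‖z t a‖ := by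
      refine (norm_sum_le _ _).trans (sum_le_sum fun t _ => ?_)
      rw [norm_mul, norm_div, norm_pow, Complex.norm_natCast]
      apply mul_le_mul_of_nonneg_right _ (norm_nonneg _)
      simp only [hw]
      gcongr
    have h2 : (∑ t ∈ range n, w t * ‖z t a‖) ^ 2 ≤
        (∑ t ∈ range n, w t) * ∑ t ∈ range n, w t * ‖z t a‖ ^ 2 := by
      apply sum_sq_le_sum_mul_sum_of_sq_le_mul
      · exact fun t _ => hw0 t
      · exact fun t _ => mul_nonneg (hw0 t) (sq_nonneg _)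
      · intro t _
        apply le_of_eq
        ring
    have h3 : 0 ≤ ∑ t ∈ range n, w t * ‖z t a‖ ^ 2 :=
      sum_nonneg fun t _ => mul_nonneg (hw0 t) (sq_nonneg _)
    calc ‖∑ t ∈ range n, K ^ t / t.factorial * z t a‖ ^ 2
        ≤ (∑ t ∈ range n, w t * ‖z t a‖) ^ 2 := by gcongr
      _ ≤ (∑ t ∈ range n, w t) * ∑ t ∈ range n, w t * ‖z t a‖ ^ 2 := h2
      _ ≤ _ := mul_le_mul_of_nonneg_right (hsum n) h3
  calc ∑ a ∈ range q, ‖∑ t ∈ range n, K ^ t / t.factorial * z t a‖ ^ 2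
      ≤ ∑ a ∈ range q, Real.exp (2 * Real.pi) * ∑ t ∈ range n, w t * ‖z t a‖ ^ 2 :=
        sum_le_sum fun a _ => hb a
    _ = Real.exp (2 * Real.pi) * ∑ t ∈ range n, w t * ∑ a ∈ range q, ‖z t a‖ ^ 2 := by
        rw [← mul_sum, sum_comm]
        simp only [mul_sum]
    _ ≤ Real.exp (2 * Real.pi) * ∑ t ∈ range n, w t * V := by
        apply mul_le_mul_of_nonneg_left _ (Real.exp_pos _).le
        exact sum_le_sum fun t _ => mul_le_mul_of_nonneg_left (hz2 t) (hw0 t)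
    _ = Real.exp (2 * Real.pi) * ((∑ t ∈ range n, w t) * V) := by rw [sum_mul]
    _ ≤ Real.exp (2 * Real.pi) * (Real.exp (2 * Real.pi) * V) := by
        apply mul_le_mul_of_nonneg_left _ (Real.exp_pos _).le
        exact mul_le_mul_of_nonneg_right (hsum n) hV
    _ = Real.exp (4 * Real.pi) * V := by
        rw [← mul_assoc, ← Real.exp_add]
        congr 2
        ring

end Pool.Agent.HN
end

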