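import Pool.Agent.Work.GBM.C01
import Pool.Agent.Work.GBM.C03
import Pool.Agent.Work.GBM.C04
import Pool.Agent.Work.GBM.C05
import Pool.Agent.Work.GBM.C06

section
/-! # Module Group: the minor arc inequality

`g_refine`: a class mod `q` is a union of `g` classes mod `g q`: Cauchy-Schwarz. `group_le`: `g_pars`, `g_cls`, `g_orth`. `group_q`: both, weights
`|A| ≤ 1`, `|B l₁| |B l₂| ≤ (|B l₁|² + |B l₂|²)/2` and the symmetry `(c₁,l₁) ↔ (c₂,l₂)` of the conditions. -/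

namespace Pool.Agent.HN

open Finset Pool.Agent.BV Pool.Agent.HL

/-- a class mod `q` is a union of `g` classes mod `g q` -/
private theorem class_split (q g a n : ℕ) (hq : 1 ≤ q) (hg : 1 ≤ g) (ha : a < q) (z : ℂ) :
    (if n % q = a then z else 0) = ∑ j ∈ range g, if n % (g * q) = a + q * j then z else 0 := by
  have hmod : n % (g * q) % q = n % q := Nat.mod_mod_of_dvd n (Dvd.intro_left g rfl)
  have hlt : n % (g * q) < g * q := Nat.mod_lt n (Nat.mul_pos hg hq)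
  have hdiv : n % (g * q) / q < g := by
    rw [Nat.div_lt_iff_lt_mul hq]; exact hlt
  by_cases h : n % q = a
  · rw [if_pos h, Finset.sum_eq_single (n % (g * q) / q)]
    · rw [if_pos]
      have := Nat.mod_add_div (n % (g * q)) q
      rw [hmod, h] at this
      exact this.symm
    · intro j hj hne
      rw [if_neg]
      intro h2
      apply hne
      rw [h2, Nat.add_mul_div_left _ _ hq, Nat.div_eq_of_lt ha, zero_add]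
    · intro hnot
      exact absurd (Finset.mem_range.mpr hdiv) hnot
  · rw [if_neg h]
    symm
    apply Finset.sum_eq_zero
    intro j hj
    rw [if_neg]
    intro h2
    apply h
    rw [← hmod, h2, Nat.add_mul_mod_self_left, Nat.mod_eq_of_lt ha]

theorem g_refine (q g : ℕ) (hq : 1 ≤ q) (hg : 1 ≤ g) (X Y : Finset ℕ) (A B : ℕ → ℂ) (α : ℝ) :
    VB q X Y A B α ≤ g * VB (g * q) X Y A B α := by
  unfold VB
  set G : ℕ → ℂ := fun a => ∑ c ∈ X, ∑ l ∈ Y,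
    if (c * l) % (g * q) = a then A c * B l * e ((c * l : ℕ) * α) else 0 with hG
  have h1 : ∀ a ∈ range q, ‖∑ c ∈ X, ∑ l ∈ Y,
      if (c * l) % q = a then A c * B l * e ((c * l : ℕ) * α) else 0‖ ^ 2 ≤
      g * ∑ j ∈ range g, ‖G (a + q * j)‖ ^ 2 := by
    intro a ha
    have ha' := Finset.mem_range.mp ha
    have h2 : (∑ c ∈ X, ∑ l ∈ Y,
        if (c * l) % q = a then A c * B l * e ((c * l : ℕ) * α) else 0) =
        ∑ j ∈ range g, G (a + q * j) := by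
      rw [hG]
      simp only
      symm
      rw [Finset.sum_comm]
      refine Finset.sum_congr rfl fun c hc => ?_
      rw [Finset.sum_comm]
      refine Finset.sum_congr rfl fun l hl => ?_
      exact (class_split q g a (c * l) hq hg ha' _).symm
    rw [h2]
    calc ‖∑ j ∈ range g, G (a + q * j)‖ ^ 2 ≤ (∑ j ∈ range g, ‖G (a + q * j)‖) ^ 2 :=
          pow_le_pow_left₀ (norm_nonneg _) (norm_sum_le _ _) 2
      _ ≤ (range g).card * ∑ j ∈ range g, ‖G (a + q * j)‖ ^ 2 := sq_sum_le_card_mul_sum_sq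
      _ = g * ∑ j ∈ range g, ‖G (a + q * j)‖ ^ 2 := by rw [Finset.card_range]
  refine (Finset.sum_le_sum h1).trans ?_
  rw [← Finset.mul_sum, Finset.sum_sigma']
  apply le_of_eq
  congr 1
  refine Finset.sum_nbij' (fun p => p.1 + q * p.2) (fun n => ⟨n % q, n / q⟩) ?_ ?_ ?_ ?_ ?_
  · rintro ⟨a, j⟩ h
    simp only [Finset.mem_sigma, Finset.mem_range] at h ⊢
    calc a + q * j < q + q * j := by omega
      _ = q * (j + 1) := by ring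
      _ ≤ q * g := Nat.mul_le_mul_left q h.2
      _ = g * q := Nat.mul_comm q g
  · intro n hn
    simp only [Finset.mem_sigma, Finset.mem_range] at hn ⊢
    exact ⟨Nat.mod_lt n hq, (Nat.div_lt_iff_lt_mul hq).mpr hn⟩
  · rintro ⟨a, j⟩ h
    simp only [Finset.mem_sigma, Finset.mem_range] at h
    have h3 : (a + q * j) % q = a := by
      rw [Nat.add_mul_mod_self_left, Nat.mod_eq_of_lt h.1]
    have h4 : (a + q * j) / q = j := by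
      rw [Nat.add_mul_div_left _ _ hq, Nat.div_eq_of_lt h.1, zero_add]
    simp only [h3, h4]
  · intro n hn
    exact Nat.mod_add_div n q
  · rintro ⟨a, j⟩ h
    rfl

theorem group_le (m s₁ s₂ : ℕ) (hm : 1 ≤ m) (hs₁ : 1 ≤ s₁) (hs₂ : 1 ≤ s₂) (h₁ : s₁.Coprime m)
    (h₂ : s₂ ∣ m) (b : ℤ) (hb : IsCoprime b ((s₁ * s₂ : ℕ) : ℤ)) (X Y : Finset ℕ) (A B : ℕ → ℂ)
    (hX : ∀ c ∈ X, c.Coprime m) (hY : ∀ l ∈ Y, l.Coprime m) :
    VB m X Y A B ((b : ℝ) / (s₁ * s₂ * m)) ≤ s₁ * s₂ *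
      ∑ c₁ ∈ X, ∑ c₂ ∈ X, ∑ l₁ ∈ Y, ∑ l₂ ∈ Y,
      if c₁ ≡ c₂ [MOD s₁ * s₂] ∧ l₁ ≡ l₂ [MOD s₁ * s₂] ∧ c₁ * l₁ ≡ c₂ * l₂ [MOD s₂ * m] then
        ‖A c₁‖ * ‖A c₂‖ * (‖B l₁‖ * ‖B l₂‖) else 0 := by
  have : NeZero (s₂ * m) := ⟨(Nat.mul_pos hs₂ hm).ne'⟩
  obtain ⟨b₁, hb₁, hmain⟩ := g_pars m s₁ s₂ hm hs₁ hs₂ h₁ h₂ b hb
  have h3 := hmain X Y A B hX hY (fun χ =>
    s₁ * (∑ u ∈ range (s₁ * s₂), ‖∑ c ∈ X.filter (fun c => c % (s₁ * s₂) = u),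
        A c * χ (c : ZMod (s₂ * m))‖ ^ 2) *
      (∑ v ∈ range (s₁ * s₂), ‖∑ l ∈ Y.filter (fun l => l % (s₁ * s₂) = v),
        B l * χ (l : ZMod (s₂ * m))‖ ^ 2))
    (fun χ r _ => g_cls m s₁ s₂ hm hs₁ hs₂ h₁ h₂ b₁ hb₁ X Y A B hX hY χ r)
  refine h3.trans ?_
  have hS : 1 ≤ s₁ * s₂ := Nat.mul_pos hs₁ hs₂
  have h4 := g_orth (s₂ * m) (s₁ * s₂) hS X Y A B
  have hφ : (0 : ℝ) < (s₂ * m).totient := by
    exact_mod_cast Nat.totient_pos.mpr (Nat.mul_pos hs₂ hm)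
  have h5 : (∑ χ : DirichletCharacter ℂ (s₂ * m),
      s₁ * (∑ u ∈ range (s₁ * s₂), ‖∑ c ∈ X.filter (fun c => c % (s₁ * s₂) = u),
        A c * χ (c : ZMod (s₂ * m))‖ ^ 2) *
      (∑ v ∈ range (s₁ * s₂), ‖∑ l ∈ Y.filter (fun l => l % (s₁ * s₂) = v),
        B l * χ (l : ZMod (s₂ * m))‖ ^ 2)) = (s₁ : ℝ) *
      ∑ χ : DirichletCharacter ℂ (s₂ * m),
      (∑ u ∈ range (s₁ * s₂), ‖∑ c ∈ X.filter (fun c => c % (s₁ * s₂) = u),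
        A c * χ (c : ZMod (s₂ * m))‖ ^ 2) *
      (∑ v ∈ range (s₁ * s₂), ‖∑ l ∈ Y.filter (fun l => l % (s₁ * s₂) = v),
        B l * χ (l : ZMod (s₂ * m))‖ ^ 2) := by
    rw [Finset.mul_sum]
    exact Finset.sum_congr rfl fun χ _ => by ring
  rw [h5]
  set T : ℝ := ∑ c₁ ∈ X, ∑ c₂ ∈ X, ∑ l₁ ∈ Y, ∑ l₂ ∈ Y,
      if c₁ ≡ c₂ [MOD s₁ * s₂] ∧ l₁ ≡ l₂ [MOD s₁ * s₂] ∧ c₁ * l₁ ≡ c₂ * l₂ [MOD s₂ * m] then
        ‖A c₁‖ * ‖A c₂‖ * (‖B l₁‖ * ‖B l₂‖) else 0 with hT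
  calc (s₂ : ℝ) / (s₂ * m).totient * (s₁ * _) ≤
      (s₂ : ℝ) / (s₂ * m).totient * (s₁ * ((s₂ * m).totient * T)) := by
        gcongr
    _ = s₁ * s₂ * T := by
        field_simp

private theorem cop_iff (q g c : ℕ) (hgq : ∀ p : ℕ, p.Prime → p ∣ g → p ∣ q)
    (h : c.Coprime q) : c.Coprime (g * q) := by
  refine Nat.Coprime.mul_right ?_ h
  refine Nat.Coprime.symm (Nat.coprime_of_dvd ?_)
  intro p hp hpg hpc
  have hpq := hgq p hp hpg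
  have h1 : p ∣ Nat.gcd c q := Nat.dvd_gcd hpc hpq
  rw [h] at h1
  exact hp.one_lt.ne' (Nat.dvd_one.mp h1)

private theorem VB_cop (q g : ℕ) (hgq : ∀ p : ℕ, p.Prime → p ∣ g → p ∣ q) (X₁ X₂ : ℕ)
    (A B : ℕ → ℂ) (α : ℝ)
    (hAq : ∀ c, ¬ c.Coprime q → A c = 0) (hBq : ∀ l, ¬ l.Coprime q → B l = 0) :
    VB q (Icc 1 X₁) (Icc 1 X₂) A B α = VB q (Cop (g * q) X₁) (Cop (g * q) X₂) A B α := by
  unfold VB Cop
  refine Finset.sum_congr rfl fun a _ => ?_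
  congr 2
  rw [Finset.sum_filter]
  refine Finset.sum_congr rfl fun c _ => ?_
  by_cases hc : c.Coprime (g * q)
  · rw [if_pos hc, Finset.sum_filter]
    refine Finset.sum_congr rfl fun l _ => ?_
    by_cases hl : l.Coprime (g * q)
    · rw [if_pos hl]
    · rw [if_neg hl]
      have : B l = 0 := hBq l fun h => hl (cop_iff q g l hgq h)
      rw [this]
      simp
  · rw [if_neg hc]
    have : A c = 0 := hAq c fun h => hc (cop_iff q g c hgq h)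
    rw [this]
    simp

theorem group_q (q g s₁ s₂ : ℕ) (hq : 1 ≤ q) (hg : 1 ≤ g) (hs₁ : 1 ≤ s₁) (hs₂ : 1 ≤ s₂)
    (h₁ : s₁.Coprime (g * q)) (h₂ : s₂ ∣ g * q) (hgq : ∀ p : ℕ, p.Prime → p ∣ g → p ∣ q)
    (b : ℤ) (hb : IsCoprime b ((g * s₁ * s₂ : ℕ) : ℤ)) (X₁ X₂ : ℕ) (A B : ℕ → ℂ)
    (hA : ∀ c, ‖A c‖ ≤ 1) (hB : ∀ l, ‖B l‖ ≤ (l.divisors.card : ℝ) ^ 2)
    (hAq : ∀ c, ¬ c.Coprime q → A c = 0) (hBq : ∀ l, ¬ l.Coprime q → B l = 0) :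
    VB q (Icc 1 X₁) (Icc 1 X₂) A B ((b : ℝ) / ((g * s₁ * s₂ : ℕ) * q)) ≤
      g * (s₁ * s₂) * N4 (g * q) s₁ s₂ X₁ X₂ := by
  rw [VB_cop q g hgq X₁ X₂ A B _ hAq hBq]
  refine (g_refine q g hq hg _ _ A B _).trans ?_
  have hα : (b : ℝ) / ((g * s₁ * s₂ : ℕ) * q) = (b : ℝ) / (s₁ * s₂ * (g * q : ℕ)) := by
    congr 1
    push_cast
    ring
  rw [hα]
  have hb' : IsCoprime b ((s₁ * s₂ : ℕ) : ℤ) := by
    have : ((g * s₁ * s₂ : ℕ) : ℤ) = (g : ℤ) * ((s₁ * s₂ : ℕ) : ℤ) := by push_cast; ring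
    rw [this] at hb
    exact hb.of_mul_right_right
  have hmem : ∀ X : ℕ, ∀ c ∈ Cop (g * q) X, c.Coprime (g * q) := by
    intro X c hc
    exact (Finset.mem_filter.mp hc).2
  have h3 := group_le (g * q) s₁ s₂ (Nat.mul_pos hg hq) hs₁ hs₂ h₁ h₂ b hb' (Cop (g * q) X₁)
    (Cop (g * q) X₂) A B (hmem X₁) (hmem X₂)
  rw [mul_assoc (g : ℝ) ((s₁ : ℝ) * s₂) (N4 (g * q) s₁ s₂ X₁ X₂)]
  refine mul_le_mul_of_nonneg_left (h3.trans ?_) (Nat.cast_nonneg g)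
  refine mul_le_mul_of_nonneg_left ?_ (by positivity)
  -- the symmetric sum
  set XX := Cop (g * q) X₁ with hXX
  set YY := Cop (g * q) X₂ with hYY
  let P : ℕ → ℕ → ℕ → ℕ → Prop := fun c₁ c₂ l₁ l₂ =>
    c₁ ≡ c₂ [MOD s₁ * s₂] ∧ l₁ ≡ l₂ [MOD s₁ * s₂] ∧ c₁ * l₁ ≡ c₂ * l₂ [MOD s₂ * (g * q)]
  have hsym : ∀ c₁ c₂ l₁ l₂, P c₁ c₂ l₁ l₂ ↔ P c₂ c₁ l₂ l₁ := by
    intro c₁ c₂ l₁ l₂
    exact ⟨fun h => ⟨h.1.symm, h.2.1.symm, h.2.2.symm⟩, fun h => ⟨h.1.symm, h.2.1.symm, h.2.2.symm⟩⟩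
  have hN : N4 (g * q) s₁ s₂ X₁ X₂ = ∑ c₁ ∈ XX, ∑ c₂ ∈ XX, ∑ l₁ ∈ YY, ∑ l₂ ∈ YY,
      if c₁ ≡ c₂ [MOD s₁ * s₂] ∧ l₁ ≡ l₂ [MOD s₁ * s₂] ∧
        c₁ * l₁ ≡ c₂ * l₂ [MOD s₂ * (g * q)] then (l₂.divisors.card : ℝ) ^ 4 else 0 := rfl
  have hN' : N4 (g * q) s₁ s₂ X₁ X₂ = ∑ c₁ ∈ XX, ∑ c₂ ∈ XX, ∑ l₁ ∈ YY, ∑ l₂ ∈ YY,
      if c₁ ≡ c₂ [MOD s₁ * s₂] ∧ l₁ ≡ l₂ [MOD s₁ * s₂] ∧
        c₁ * l₁ ≡ c₂ * l₂ [MOD s₂ * (g * q)] then (l₁.divisors.card : ℝ) ^ 4 else 0 := by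
    rw [hN, Finset.sum_comm]
    refine Finset.sum_congr rfl fun c₁ _ => Finset.sum_congr rfl fun c₂ _ => ?_
    rw [Finset.sum_comm]
    refine Finset.sum_congr rfl fun l₁ _ => Finset.sum_congr rfl fun l₂ _ => ?_
    exact if_congr (hsym c₂ c₁ l₂ l₁) rfl rfl
  have havg : N4 (g * q) s₁ s₂ X₁ X₂ = (N4 (g * q) s₁ s₂ X₁ X₂ + N4 (g * q) s₁ s₂ X₁ X₂) / 2 := by
    ring
  rw [havg]
  nth_rewrite 1 [hN']
  rw [hN, ← Finset.sum_add_distrib, Finset.sum_div]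
  refine Finset.sum_le_sum fun c₁ _ => ?_
  rw [← Finset.sum_add_distrib, Finset.sum_div]
  refine Finset.sum_le_sum fun c₂ _ => ?_
  rw [← Finset.sum_add_distrib, Finset.sum_div]
  refine Finset.sum_le_sum fun l₁ _ => ?_
  rw [← Finset.sum_add_distrib, Finset.sum_div]
  refine Finset.sum_le_sum fun l₂ _ => ?_
  by_cases hP : c₁ ≡ c₂ [MOD s₁ * s₂] ∧ l₁ ≡ l₂ [MOD s₁ * s₂] ∧
        c₁ * l₁ ≡ c₂ * l₂ [MOD s₂ * (g * q)]
  · rw [if_pos hP, if_pos hP, if_pos hP]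
    have e1 : ‖A c₁‖ * ‖A c₂‖ ≤ 1 := mul_le_one₀ (hA c₁) (norm_nonneg _) (hA c₂)
    have e2 : ‖B l₁‖ * ‖B l₂‖ ≤ (l₁.divisors.card : ℝ) ^ 2 * (l₂.divisors.card : ℝ) ^ 2 :=
      mul_le_mul (hB l₁) (hB l₂) (norm_nonneg _) (pow_nonneg (Nat.cast_nonneg _) 2)
    have e3 : ‖A c₁‖ * ‖A c₂‖ * (‖B l₁‖ * ‖B l₂‖) ≤ 1 * (‖B l₁‖ * ‖B l₂‖) :=
      mul_le_mul_of_nonneg_right e1 (mul_nonneg (norm_nonneg _) (norm_nonneg _))
    nlinarith [sq_nonneg ((l₁.divisors.card : ℝ) ^ 2 - (l₂.divisors.card : ℝ) ^ 2)]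
  · rw [if_neg hP, if_neg hP, if_neg hP]
    simp

end Pool.Agent.HN
end

section
/-! # Module CountA: reduction of the count to `EC`

`S = s₁ s₂`, `c₂ - c₁ = S i`, `l₁ - l₂ = S j`: `c₁ l₁ - c₂ l₂ = S (j c₁ - i l₂)`, so the last congruence is `m ∣ j c₁ - i l₂` (`s₁` is coprime to `m`).
`i = j = 0`: `X₁ ∑ τ(l)⁴`. `i = 0 ≠ j`: `m ∣ j`, so `S m ∣ l₁ - l₂ ≠ 0`: at most `2 X₂/(S m)` values of `l₁`. `j = 0 ≠ i`: the same for `c`. `i, j ≠ 0`, `j c₁ = i l₂`: for given `i`, `l₂` at most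
`2 τ(|i| l₂) ≤ 2 τ(|i|) τ(l₂)` pairs `(j, c₁)`. The rest: `EC` (`(c₁,c₂,l₁,l₂) ↦ (l₂, i, j, c₁)` is injective). `tau_sum` (HT/Coef) for the sums of `τ^j`. -/

namespace Pool.Agent.HN

open Finset Pool.Agent.BV Pool.Agent.HL

/-- the triples `(c₁, c₂, l₁)` for a given `l₂ = l` -/
private def CA_T (m s₁ s₂ X₁ X₂ l : ℕ) : Finset (ℕ × ℕ × ℕ) :=
  (Cop m X₁ ×ˢ Cop m X₁ ×ˢ Cop m X₂).filter (fun t => t.1 ≡ t.2.1 [MOD s₁ * s₂] ∧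
    t.2.2 ≡ l [MOD s₁ * s₂] ∧ t.1 * t.2.2 ≡ t.2.1 * l [MOD s₂ * m])

private lemma CA_N4 (m s₁ s₂ X₁ X₂ : ℕ) : N4 m s₁ s₂ X₁ X₂ =
    ∑ l ∈ Cop m X₂, (l.divisors.card : ℝ) ^ 4 * ((CA_T m s₁ s₂ X₁ X₂ l).card : ℝ) := by
  have h : ∀ l : ℕ, (l.divisors.card : ℝ) ^ 4 * ((CA_T m s₁ s₂ X₁ X₂ l).card : ℝ) =
      ∑ c₁ ∈ Cop m X₁, ∑ c₂ ∈ Cop m X₁, ∑ l₁ ∈ Cop m X₂,
        if c₁ ≡ c₂ [MOD s₁ * s₂] ∧ l₁ ≡ l [MOD s₁ * s₂] ∧ c₁ * l₁ ≡ c₂ * l [MOD s₂ * m] then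
          (l.divisors.card : ℝ) ^ 4 else 0 := by
    intro l
    rw [CA_T, natCast_card_filter, sum_product]
    simp_rw [sum_product, mul_sum, mul_ite, mul_one, mul_zero]
  simp_rw [h]
  unfold N4
  symm
  rw [sum_comm]
  apply sum_congr rfl
  intro c₁ _
  rw [sum_comm]
  apply sum_congr rfl
  intro c₂ _
  rw [sum_comm]

/-- the congruences in terms of `i`, `j` -/
private lemma CA_key {m s₁ s₂ c₁ c₂ l₁ l₂ : ℕ} (hs : s₁.Coprime m) (hs2 : 1 ≤ s₂)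
    (h1 : c₁ ≡ c₂ [MOD s₁ * s₂]) (h2 : l₁ ≡ l₂ [MOD s₁ * s₂])
    (h3 : c₁ * l₁ ≡ c₂ * l₂ [MOD s₂ * m]) :
    (((s₁ * s₂ : ℕ) : ℤ) * (((c₂ : ℤ) - c₁) / ((s₁ * s₂ : ℕ) : ℤ)) = (c₂ : ℤ) - c₁) ∧
    (((s₁ * s₂ : ℕ) : ℤ) * (((l₁ : ℤ) - l₂) / ((s₁ * s₂ : ℕ) : ℤ)) = (l₁ : ℤ) - l₂) ∧
    (m : ℤ) ∣ (((l₁ : ℤ) - l₂) / ((s₁ * s₂ : ℕ) : ℤ)) * c₁ -
      (((c₂ : ℤ) - c₁) / ((s₁ * s₂ : ℕ) : ℤ)) * l₂ := by
  have e1 : ((s₁ * s₂ : ℕ) : ℤ) ∣ (c₂ : ℤ) - c₁ := (Nat.modEq_iff_dvd).1 h1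
  have e2 : ((s₁ * s₂ : ℕ) : ℤ) ∣ (l₁ : ℤ) - l₂ := (Nat.modEq_iff_dvd).1 h2.symm
  have e3 : ((s₂ * m : ℕ) : ℤ) ∣ ((c₁ * l₁ : ℕ) : ℤ) - ((c₂ * l₂ : ℕ) : ℤ) :=
    (Nat.modEq_iff_dvd).1 h3.symm
  have f1 := Int.mul_ediv_cancel' e1
  have f2 := Int.mul_ediv_cancel' e2
  refine ⟨f1, f2, ?_⟩
  set i := ((c₂ : ℤ) - c₁) / ((s₁ * s₂ : ℕ) : ℤ)
  set j := ((l₁ : ℤ) - l₂) / ((s₁ * s₂ : ℕ) : ℤ)
  have e4 : ((c₁ * l₁ : ℕ) : ℤ) - ((c₂ * l₂ : ℕ) : ℤ) = s₂ * (s₁ * (j * c₁ - i * l₂)) := by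
    push_cast at f1 f2 ⊢
    linear_combination (-(c₁ : ℤ)) * f2 + (l₂ : ℤ) * f1
  rw [e4] at e3
  push_cast at e3
  have hs2' : (s₂ : ℤ) ≠ 0 := by exact_mod_cast (by omega : s₂ ≠ 0)
  have e5 := Int.dvd_of_mul_dvd_mul_left hs2' e3
  have hc : IsCoprime (m : ℤ) (s₁ : ℤ) := (Nat.isCoprime_iff_coprime.2 hs).symm
  exact hc.dvd_of_dvd_mul_left e5

/-- the number of `n ≠ l` in `[1, X]` in the class of `l` mod `M` -/
private lemma CA_cls (X M l : ℕ) (hM : 1 ≤ M) (hl : l ∈ Icc 1 X) :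
    (((Icc 1 X).filter (fun n => n ≡ l [MOD M] ∧ n ≠ l)).card : ℝ) ≤ X / M := by
  have h1 := Nat.Ioc_filter_modEq_card 0 X (r := M) (by omega) l
  have h2 : ((Ioc 0 X).filter (fun n => n ≡ l [MOD M])) =
      insert l ((Icc 1 X).filter (fun n => n ≡ l [MOD M] ∧ n ≠ l)) := by
    ext n
    simp only [mem_filter, mem_Ioc, mem_insert, mem_Icc] at hl ⊢
    constructor
    · rintro ⟨a, b⟩
      by_cases h : n = l
      · left; exact h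
      · right; exact ⟨⟨by omega, by omega⟩, b, h⟩
    · rintro (h | ⟨a, b, -⟩)
      · subst h
        exact ⟨⟨by omega, by omega⟩, rfl⟩
      · exact ⟨⟨by omega, by omega⟩, b⟩
  have h3 : l ∉ (Icc 1 X).filter (fun n => n ≡ l [MOD M] ∧ n ≠ l) := by simp
  rw [h2, card_insert_of_notMem h3] at h1
  set k := ((Icc 1 X).filter (fun n => n ≡ l [MOD M] ∧ n ≠ l)).card
  have hM' : (0 : ℝ) < M := by exact_mod_cast (by omega : 0 < M)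
  have a1 := Int.floor_le (((X : ℚ) - l) / M)
  have a2 := Int.lt_floor_add_one ((((0 : ℕ) : ℚ) - l) / M)
  have hM'' : (0 : ℚ) < M := by exact_mod_cast (by omega : 0 < M)
  have h4 : (k : ℚ) ≤ X / M := by
    rcases max_cases (⌊((X : ℚ) - l) / M⌋ - ⌊(((0 : ℕ) : ℚ) - l) / M⌋) 0 with ⟨e, _⟩ | ⟨e, _⟩
    · rw [e] at h1
      have h5 : ((k : ℚ) + 1) = (⌊((X : ℚ) - l) / M⌋ : ℚ) - (⌊(((0 : ℕ) : ℚ) - l) / M⌋ : ℚ) := by
        exact_mod_cast h1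
      have h6 : ((X : ℚ) - l) / M = X / M + (((0 : ℕ) : ℚ) - l) / M := by
        field_simp
        push_cast
        ring
      linarith
    · rw [e] at h1
      omega
  have h7 : ((k : ℚ) : ℝ) ≤ (((X : ℚ) / (M : ℚ) : ℚ) : ℝ) := Rat.cast_le.2 h4
  rw [Rat.cast_div, Rat.cast_natCast, Rat.cast_natCast, Rat.cast_natCast] at h7
  exact h7

private lemma CA_nz {N : ℕ} {i : ℤ} (h0 : i ≠ 0) (h : i.natAbs ≤ N) : i ∈ Nz N := by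
  simp only [Nz, mem_filter, mem_Icc]
  exact ⟨⟨by omega, by omega⟩, h0⟩

private lemma CA_sumNz (N : ℕ) (f : ℕ → ℝ) : ∑ i ∈ Nz N, f i.natAbs = 2 * ∑ n ∈ Icc 1 N, f n := by
  have h : Nz N = (Icc 1 N).image (fun n : ℕ => (n : ℤ)) ∪ (Icc 1 N).image (fun n : ℕ => -(n : ℤ)) := by
    ext i
    simp only [Nz, mem_filter, mem_Icc, mem_union, mem_image]
    constructor
    · rintro ⟨⟨a, b⟩, c⟩
      rcases lt_or_gt_of_ne c with h | h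
      · right; exact ⟨i.natAbs, ⟨by omega, by omega⟩, by omega⟩
      · left; exact ⟨i.natAbs, ⟨by omega, by omega⟩, by omega⟩
    · rintro (⟨n, ⟨a, b⟩, rfl⟩ | ⟨n, ⟨a, b⟩, rfl⟩)
      · exact ⟨⟨by omega, by omega⟩, by omega⟩
      · exact ⟨⟨by omega, by omega⟩, by omega⟩
  have hd : Disjoint ((Icc 1 N).image (fun n : ℕ => (n : ℤ)))
      ((Icc 1 N).image (fun n : ℕ => -(n : ℤ))) := by
    rw [disjoint_left]
    intro i h1 h2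
    simp only [mem_image, mem_Icc] at h1 h2
    obtain ⟨a, ⟨ha, _⟩, rfl⟩ := h1
    obtain ⟨b, ⟨hb, _⟩, h3⟩ := h2
    omega
  rw [h, sum_union hd, sum_image (by intro a _ b _ hab; simpa using hab),
    sum_image (by intro a _ b _ hab; simpa using hab)]
  simp only [Int.natAbs_natCast, Int.natAbs_neg]
  ring

open Classical in
/-- pairs `(j, c)` with `j c = i l` -/
private lemma CA_R (N X l : ℕ) (i : ℤ) (hl : 1 ≤ l) (hi : i ≠ 0) :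
    (((Nz N ×ˢ Icc 1 X).filter (fun p : ℤ × ℕ => p.1 * (p.2 : ℤ) = i * (l : ℤ))).card : ℝ) ≤
      (i.natAbs.divisors.card : ℝ) * (l.divisors.card : ℝ) := by
  refine le_trans ?_ (DivSum_tauMul i.natAbs l)
  have : ((Nz N ×ˢ Icc 1 X).filter (fun p : ℤ × ℕ => p.1 * (p.2 : ℤ) = i * (l : ℤ))).card ≤
      (i.natAbs * l).divisors.card := by
    apply card_le_card_of_injOn (fun p => p.2)
    · intro p hp
      simp only [coe_filter, mem_product, Set.mem_ofPred_eq, mem_Icc] at hp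
      simp only [mem_coe, Nat.mem_divisors]
      refine ⟨⟨p.1.natAbs, ?_⟩, ?_⟩
      · have := congrArg Int.natAbs hp.2
        simp only [Int.natAbs_mul, Int.natAbs_natCast] at this
        rw [← this, mul_comm]
      · have : i.natAbs ≠ 0 := by omega
        positivity
    · intro p hp p' hp' h
      simp only [coe_filter, mem_product, Set.mem_ofPred_eq, mem_Icc] at hp hp' h
      have h1 : (p.2 : ℤ) ≠ 0 := by
        have := hp.1.2.1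
        omega
      apply Prod.ext
      · apply mul_right_cancel₀ h1
        rw [hp.2, h, hp'.2]
      · exact h
  exact_mod_cast this

open Classical in
private noncomputable def CA_Q (m S X₁ X₂ l : ℕ) (i : ℤ) : Finset (ℤ × ℕ) :=
  (Nz (X₂ / S) ×ˢ Icc 1 X₁).filter (fun p : ℤ × ℕ =>
      p.1 * (p.2 : ℤ) ≠ i * (l : ℤ) ∧ (m : ℤ) ∣ p.1 * (p.2 : ℤ) - i * (l : ℤ))

private lemma CA_EC (m S X₁ X₂ : ℕ) : EC m S X₁ X₂ =
    ∑ l ∈ Cop m X₂, (l.divisors.card : ℝ) ^ 4 * ∑ i ∈ Nz (X₁ / S),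
      ((CA_Q m S X₁ X₂ l i).card : ℝ) := rfl

private lemma CA_absdiff {a b X S : ℕ} {k : ℤ} (hS : 1 ≤ S) (ha : a ≤ X) (hb : b ≤ X)
    (h : (S : ℤ) * k = (a : ℤ) - b) : k.natAbs ≤ X / S := by
  rw [Nat.le_div_iff_mul_le (by omega)]
  have h1 := congrArg Int.natAbs h
  rw [Int.natAbs_mul, Int.natAbs_natCast] at h1
  rw [mul_comm, h1]
  omega

/-- the triples with `i, j ≠ 0` -/
private lemma CA_DE {m s₁ s₂ X₁ X₂ l : ℕ} (hs : s₁.Coprime m) (hs1 : 1 ≤ s₁) (hs2 : 1 ≤ s₂)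
    (hl : l ∈ Cop m X₂) :
    (((CA_T m s₁ s₂ X₁ X₂ l).filter (fun t => t.1 ≠ t.2.1 ∧ t.2.2 ≠ l)).card : ℝ) ≤
      (l.divisors.card : ℝ) * (2 * ∑ n ∈ Icc 1 (X₁ / (s₁ * s₂)), (n.divisors.card : ℝ)) +
      ∑ i ∈ Nz (X₁ / (s₁ * s₂)), ((CA_Q m (s₁ * s₂) X₁ X₂ l i).card : ℝ) := by
  classical
  have hS : 1 ≤ s₁ * s₂ := Nat.mul_pos hs1 hs2
  have hS0 : ((s₁ * s₂ : ℕ) : ℤ) ≠ 0 := by exact_mod_cast (by omega : s₁ * s₂ ≠ 0)
  simp only [Cop, mem_filter, mem_Icc] at hl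
  set fi : ℕ × ℕ × ℕ → ℤ := fun t => ((t.2.1 : ℤ) - t.1) / ((s₁ * s₂ : ℕ) : ℤ) with hfi
  set fj : ℕ × ℕ × ℕ → ℤ := fun t => ((t.2.2 : ℤ) - l) / ((s₁ * s₂ : ℕ) : ℤ) with hfj
  have key : ∀ t ∈ (CA_T m s₁ s₂ X₁ X₂ l).filter (fun t => t.1 ≠ t.2.1 ∧ t.2.2 ≠ l),
      (1 ≤ t.1 ∧ t.1 ≤ X₁) ∧ fi t ∈ Nz (X₁ / (s₁ * s₂)) ∧ fj t ∈ Nz (X₂ / (s₁ * s₂)) ∧
      ((s₁ * s₂ : ℕ) : ℤ) * fi t = (t.2.1 : ℤ) - t.1 ∧
      ((s₁ * s₂ : ℕ) : ℤ) * fj t = (t.2.2 : ℤ) - l ∧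
      (m : ℤ) ∣ fj t * t.1 - fi t * l := by
    intro t ht
    simp only [CA_T, Cop, mem_filter, mem_product, mem_Icc] at ht
    obtain ⟨⟨⟨⟨⟨a1, a2⟩, _⟩, ⟨⟨b1, b2⟩, _⟩, ⟨⟨c1, c2⟩, _⟩⟩, h1, h2, h3⟩, n1, n2⟩ := ht
    obtain ⟨k1, k2, k3⟩ := CA_key hs hs2 h1 h2 h3
    refine ⟨⟨a1, a2⟩, CA_nz ?_ (CA_absdiff hS b2 a2 k1), CA_nz ?_ (CA_absdiff hS c2 hl.1.2 k2),
      k1, k2, k3⟩
    · intro h
      rw [hfi] at h
      simp only at h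
      rw [h, mul_zero] at k1
      omega
    · intro h
      rw [hfj] at h
      simp only at h
      rw [h, mul_zero] at k2
      omega
  have hcard := card_eq_sum_card_fiberwise (s := (CA_T m s₁ s₂ X₁ X₂ l).filter
    (fun t => t.1 ≠ t.2.1 ∧ t.2.2 ≠ l)) (t := Nz (X₁ / (s₁ * s₂))) (f := fi)
    (fun t ht => (key t ht).2.1)
  rw [hcard]
  push_cast
  rw [← CA_sumNz (X₁ / (s₁ * s₂)) (fun n => (n.divisors.card : ℝ)), mul_sum, ← sum_add_distrib]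
  apply sum_le_sum
  intro i hi
  have hi0 : i ≠ 0 := (mem_filter.1 hi).2
  have h1 : (((CA_T m s₁ s₂ X₁ X₂ l).filter (fun t => t.1 ≠ t.2.1 ∧ t.2.2 ≠ l)).filter
      (fun t => fi t = i)).card ≤
      ((Nz (X₂ / (s₁ * s₂)) ×ˢ Icc 1 X₁).filter
        (fun p : ℤ × ℕ => p.1 * (p.2 : ℤ) = i * (l : ℤ)) ∪ CA_Q m (s₁ * s₂) X₁ X₂ l i).card := by
    apply card_le_card_of_injOn (fun t => (fj t, t.1))
    · intro t ht
      simp only [coe_filter, Set.mem_ofPred_eq] at ht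
      obtain ⟨a, b, c, d, e, g⟩ := key t (by simpa only [mem_filter] using ht.1)
      simp only [coe_union, Set.mem_union, mem_coe, CA_Q, mem_filter, mem_product, mem_Icc]
      rw [← ht.2]
      by_cases h : fj t * (t.1 : ℤ) = fi t * (l : ℤ)
      · left; exact ⟨⟨c, a⟩, h⟩
      · right; exact ⟨⟨c, a⟩, h, g⟩
    · intro t ht t' ht' h
      simp only [coe_filter, Set.mem_ofPred_eq] at ht ht'
      obtain ⟨a, b, c, d, e, g⟩ := key t (by simpa only [mem_filter] using ht.1)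
      obtain ⟨a', b', c', d', e', g'⟩ := key t' (by simpa only [mem_filter] using ht'.1)
      simp only [Prod.mk.injEq] at h
      rw [ht.2] at d
      rw [ht'.2] at d'
      rw [h.1] at e
      have h3 := h.2
      apply Prod.ext h3
      apply Prod.ext
      · rw [h3] at d
        have := d.symm.trans d'
        omega
      · have := e.symm.trans e'
        omega
  have h2 := CA_R (X₂ / (s₁ * s₂)) X₁ l i hl.1.1 hi0
  have h3 := h1.trans (card_union_le _ _)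
  have h4 : ((((CA_T m s₁ s₂ X₁ X₂ l).filter (fun t => t.1 ≠ t.2.1 ∧ t.2.2 ≠ l)).filter
      (fun t => fi t = i)).card : ℝ) ≤
      (((Nz (X₂ / (s₁ * s₂)) ×ˢ Icc 1 X₁).filter
        (fun p : ℤ × ℕ => p.1 * (p.2 : ℤ) = i * (l : ℤ))).card : ℝ) +
        ((CA_Q m (s₁ * s₂) X₁ X₂ l i).card : ℝ) := by exact_mod_cast h3
  rw [mul_comm (l.divisors.card : ℝ)]
  linarith

/-- `i = j = 0` -/
private lemma CA_A (m s₁ s₂ X₁ X₂ l : ℕ) :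
    (((CA_T m s₁ s₂ X₁ X₂ l).filter (fun t => t.1 = t.2.1 ∧ t.2.2 = l)).card : ℝ) ≤ X₁ := by
  have : ((CA_T m s₁ s₂ X₁ X₂ l).filter (fun t => t.1 = t.2.1 ∧ t.2.2 = l)).card ≤
      (Icc 1 X₁).card := by
    apply card_le_card_of_injOn (fun t => t.1)
    · intro t ht
      simp only [coe_filter, Set.mem_ofPred_eq, CA_T, Cop, mem_filter, mem_product] at ht
      exact mem_coe.2 ht.1.1.1.1
    · intro t ht t' ht' h
      simp only [coe_filter, Set.mem_ofPred_eq] at ht ht' h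
      apply Prod.ext h
      apply Prod.ext
      · rw [← ht.2.1, ← ht'.2.1, h]
      · rw [ht.2.2, ht'.2.2]
  rw [Nat.card_Icc, Nat.add_sub_cancel] at this
  exact_mod_cast this

/-- `i = 0 ≠ j` -/
private lemma CA_B {m s₁ s₂ X₁ X₂ l : ℕ} (hm : 1 ≤ m) (hs : s₁.Coprime m) (hs1 : 1 ≤ s₁)
    (hs2 : 1 ≤ s₂) (hl : l ∈ Cop m X₂) :
    (((CA_T m s₁ s₂ X₁ X₂ l).filter (fun t => t.1 = t.2.1 ∧ t.2.2 ≠ l)).card : ℝ) ≤
      X₁ * ((X₂ : ℝ) / ((s₁ * s₂ : ℕ) * m)) := by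
  have hSm : 1 ≤ s₁ * s₂ * m := Nat.mul_pos (Nat.mul_pos hs1 hs2) hm
  have h1 : ((CA_T m s₁ s₂ X₁ X₂ l).filter (fun t => t.1 = t.2.1 ∧ t.2.2 ≠ l)).card ≤
      (Icc 1 X₁ ×ˢ (Icc 1 X₂).filter (fun n => n ≡ l [MOD s₁ * s₂ * m] ∧ n ≠ l)).card := by
    apply card_le_card_of_injOn (fun t => (t.1, t.2.2))
    · intro t ht
      simp only [coe_filter, Set.mem_ofPred_eq, CA_T, Cop, mem_filter, mem_product] at ht
      obtain ⟨⟨⟨⟨a, a'⟩, _, ⟨b, _⟩⟩, h1, h2, h3⟩, n1, n2⟩ := ht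
      obtain ⟨k1, k2, k3⟩ := CA_key hs hs2 h1 h2 h3
      simp only [mem_coe, mem_product, mem_filter]
      refine ⟨a, b, ?_, n2⟩
      rw [← n1, sub_self, Int.zero_ediv, zero_mul, sub_zero] at k3
      have hc : IsCoprime (m : ℤ) (t.1 : ℤ) := (Nat.isCoprime_iff_coprime.2 a').symm
      have k4 := hc.dvd_of_dvd_mul_right k3
      apply Nat.ModEq.symm
      rw [Nat.modEq_iff_dvd, ← k2, Nat.cast_mul (s₁ * s₂) m]
      exact mul_dvd_mul_left _ k4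
    · intro t ht t' ht' h
      simp only [coe_filter, Set.mem_ofPred_eq] at ht ht'
      simp only [Prod.mk.injEq] at h
      apply Prod.ext h.1
      apply Prod.ext
      · rw [← ht.2.1, ← ht'.2.1, h.1]
      · exact h.2
  rw [card_product, Nat.card_Icc, Nat.add_sub_cancel] at h1
  have hl' : l ∈ Icc 1 X₂ := (mem_filter.1 hl).1
  have h2 := CA_cls X₂ (s₁ * s₂ * m) l hSm hl'
  rw [Nat.cast_mul (s₁ * s₂) m] at h2
  calc (((CA_T m s₁ s₂ X₁ X₂ l).filter (fun t => t.1 = t.2.1 ∧ t.2.2 ≠ l)).card : ℝ)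
      ≤ X₁ * (((Icc 1 X₂).filter (fun n => n ≡ l [MOD s₁ * s₂ * m] ∧ n ≠ l)).card : ℝ) := by
        exact_mod_cast h1
    _ ≤ _ := mul_le_mul_of_nonneg_left h2 (by positivity)

/-- `j = 0 ≠ i` -/
private lemma CA_C {m s₁ s₂ X₁ X₂ l : ℕ} (hm : 1 ≤ m) (hs : s₁.Coprime m) (hs1 : 1 ≤ s₁)
    (hs2 : 1 ≤ s₂) (hl : l ∈ Cop m X₂) :
    (((CA_T m s₁ s₂ X₁ X₂ l).filter (fun t => t.1 ≠ t.2.1 ∧ t.2.2 = l)).card : ℝ) ≤
      X₁ * ((X₁ : ℝ) / ((s₁ * s₂ : ℕ) * m)) := by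
  have hSm : 1 ≤ s₁ * s₂ * m := Nat.mul_pos (Nat.mul_pos hs1 hs2) hm
  have hl1 : l.Coprime m := (mem_filter.1 hl).2
  have h1 : ((CA_T m s₁ s₂ X₁ X₂ l).filter (fun t => t.1 ≠ t.2.1 ∧ t.2.2 = l)).card ≤
      ((Icc 1 X₁).sigma (fun c => (Icc 1 X₁).filter
        (fun n => n ≡ c [MOD s₁ * s₂ * m] ∧ n ≠ c))).card := by
    apply card_le_card_of_injOn (fun t => (⟨t.1, t.2.1⟩ : (_ : ℕ) × ℕ))
    · intro t ht
      simp only [coe_filter, Set.mem_ofPred_eq, CA_T, Cop, mem_filter, mem_product] at ht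
      obtain ⟨⟨⟨⟨a, _⟩, ⟨b, _⟩, _⟩, h1, h2, h3⟩, n1, n2⟩ := ht
      obtain ⟨k1, k2, k3⟩ := CA_key hs hs2 h1 h2 h3
      simp only [mem_coe, mem_sigma, mem_filter]
      refine ⟨a, b, ?_, fun h => n1 h.symm⟩
      rw [n2, sub_self, Int.zero_ediv, zero_mul, zero_sub, dvd_neg] at k3
      have hc : IsCoprime (m : ℤ) (l : ℤ) := (Nat.isCoprime_iff_coprime.2 hl1).symm
      have k4 := hc.dvd_of_dvd_mul_right k3
      apply Nat.ModEq.symm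
      rw [Nat.modEq_iff_dvd, ← k1, Nat.cast_mul (s₁ * s₂) m]
      exact mul_dvd_mul_left _ k4
    · intro t ht t' ht' h
      simp only [coe_filter, Set.mem_ofPred_eq] at ht ht'
      simp only [Sigma.mk.injEq, heq_eq_eq] at h
      apply Prod.ext h.1
      apply Prod.ext h.2
      rw [ht.2.2, ht'.2.2]
  rw [card_sigma] at h1
  calc (((CA_T m s₁ s₂ X₁ X₂ l).filter (fun t => t.1 ≠ t.2.1 ∧ t.2.2 = l)).card : ℝ)
      ≤ ∑ c ∈ Icc 1 X₁, (((Icc 1 X₁).filter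
        (fun n => n ≡ c [MOD s₁ * s₂ * m] ∧ n ≠ c)).card : ℝ) := by
        exact_mod_cast h1
    _ ≤ ∑ _c ∈ Icc 1 X₁, ((X₁ : ℝ) / ((s₁ * s₂ : ℕ) * m)) := by
        apply sum_le_sum
        intro c hc
        have h2 := CA_cls X₁ (s₁ * s₂ * m) c hSm hc
        rw [Nat.cast_mul (s₁ * s₂) m] at h2
        exact h2
    _ = _ := by rw [sum_const, Nat.card_Icc, Nat.add_sub_cancel, nsmul_eq_mul]

/-- the number of triples for a given `l` -/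
private lemma CA_all {m s₁ s₂ X₁ X₂ l : ℕ} (hm : 1 ≤ m) (hs : s₁.Coprime m) (hs1 : 1 ≤ s₁)
    (hs2 : 1 ≤ s₂) (hl : l ∈ Cop m X₂) :
    ((CA_T m s₁ s₂ X₁ X₂ l).card : ℝ) ≤
      (X₁ + X₁ * (((X₁ : ℝ) + X₂) / ((s₁ * s₂ : ℕ) * m))) +
      (l.divisors.card : ℝ) * (2 * ∑ n ∈ Icc 1 (X₁ / (s₁ * s₂)), (n.divisors.card : ℝ)) +
      ∑ i ∈ Nz (X₁ / (s₁ * s₂)), ((CA_Q m (s₁ * s₂) X₁ X₂ l i).card : ℝ) := by
  have h1 : (CA_T m s₁ s₂ X₁ X₂ l).card ≤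
      ((CA_T m s₁ s₂ X₁ X₂ l).filter (fun t => t.1 = t.2.1 ∧ t.2.2 = l)).card +
      ((CA_T m s₁ s₂ X₁ X₂ l).filter (fun t => t.1 = t.2.1 ∧ t.2.2 ≠ l)).card +
      ((CA_T m s₁ s₂ X₁ X₂ l).filter (fun t => t.1 ≠ t.2.1 ∧ t.2.2 = l)).card +
      ((CA_T m s₁ s₂ X₁ X₂ l).filter (fun t => t.1 ≠ t.2.1 ∧ t.2.2 ≠ l)).card := by
    refine le_trans (card_le_card ?_) ((card_union_le _ _).trans (Nat.add_le_add_right
      ((card_union_le _ _).trans (Nat.add_le_add_right (card_union_le _ _) _)) _))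
    intro t ht
    simp only [mem_union, mem_filter]
    by_cases a : t.1 = t.2.1 <;> by_cases b : t.2.2 = l <;> simp [ht, a, b]
  have h2 : ((CA_T m s₁ s₂ X₁ X₂ l).card : ℝ) ≤
      (((CA_T m s₁ s₂ X₁ X₂ l).filter (fun t => t.1 = t.2.1 ∧ t.2.2 = l)).card : ℝ) +
      (((CA_T m s₁ s₂ X₁ X₂ l).filter (fun t => t.1 = t.2.1 ∧ t.2.2 ≠ l)).card : ℝ) +
      (((CA_T m s₁ s₂ X₁ X₂ l).filter (fun t => t.1 ≠ t.2.1 ∧ t.2.2 = l)).card : ℝ) +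
      (((CA_T m s₁ s₂ X₁ X₂ l).filter (fun t => t.1 ≠ t.2.1 ∧ t.2.2 ≠ l)).card : ℝ) := by
    exact_mod_cast h1
  have a1 := CA_A m s₁ s₂ X₁ X₂ l
  have a2 := CA_B (X₁ := X₁) hm hs hs1 hs2 hl
  have a3 := CA_C (X₁ := X₁) hm hs hs1 hs2 hl
  have a4 := CA_DE (X₁ := X₁) hs hs1 hs2 hl
  rw [add_div, mul_add]
  linarith

theorem count_A : ∃ (K : ℝ) (c : ℕ), 0 < K ∧ ∀ x m s₁ s₂ X₁ X₂ : ℕ, 3 ≤ x → 1 ≤ m → 1 ≤ s₁ → 1 ≤ s₂ →
    s₁.Coprime m → s₂ ∣ m → X₁ * X₂ ≤ x →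
    N4 m s₁ s₂ X₁ X₂ ≤ K * (Real.log x) ^ c * ((x : ℝ) + x * (X₁ + X₂) / ((s₁ * s₂ : ℕ) * m)) +
      EC m (s₁ * s₂) X₁ X₂ := by
  obtain ⟨C₁, hC₁, g1⟩ := Pool.Agent.HT.tau_sum 1
  obtain ⟨C₄, hC₄, g4⟩ := Pool.Agent.HT.tau_sum 4
  obtain ⟨C₅, hC₅, g5⟩ := Pool.Agent.HT.tau_sum 5
  refine ⟨C₄ + 2 * C₁ * C₅, 34, by positivity, ?_⟩
  intro x m s₁ s₂ X₁ X₂ hx hm hs1 hs2 hs _ hX
  have hlog := DivSum_log x hx
  have hEC : 0 ≤ EC m (s₁ * s₂) X₁ X₂ := by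
    rw [CA_EC]
    positivity
  rcases Nat.eq_zero_or_pos X₁ with h0 | hX1
  · subst h0
    have : N4 m s₁ s₂ 0 X₂ = 0 := by simp [N4, Cop]
    rw [this]
    positivity
  rcases Nat.eq_zero_or_pos X₂ with h0 | hX2
  · subst h0
    have : N4 m s₁ s₂ X₁ 0 = 0 := by simp [N4, Cop]
    rw [this]
    positivity
  have hX1x : X₁ ≤ x := (Nat.le_mul_of_pos_right _ hX2).trans hX
  have hX2x : X₂ ≤ x := (Nat.le_mul_of_pos_left _ hX1).trans hX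
  have hXr : (X₁ : ℝ) * X₂ ≤ x := by exact_mod_cast hX
  set S := s₁ * s₂ with hS
  have hS1 : 1 ≤ S := Nat.mul_pos hs1 hs2
  set L := Real.log x
  -- sums of powers of `τ`
  have b1 : ∑ n ∈ Icc 1 (X₁ / S), (n.divisors.card : ℝ) ≤ C₁ * X₁ * L ^ 2 := by
    have h := g1 x (X₁ / S) hx ((Nat.div_le_self _ _).trans hX1x)
    simp only [pow_one] at h
    refine h.trans ?_
    have : ((X₁ / S : ℕ) : ℝ) ≤ X₁ := by exact_mod_cast Nat.div_le_self _ _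
    gcongr
  have b4 : ∑ l ∈ Cop m X₂, (l.divisors.card : ℝ) ^ 4 ≤ C₄ * X₂ * L ^ 16 := by
    refine le_trans (sum_le_sum_of_subset_of_nonneg (filter_subset _ _)
      (fun _ _ _ => by positivity)) ((g4 x X₂ hx hX2x).trans (le_of_eq ?_))
    show C₄ * (X₂ : ℝ) * L ^ (2 ^ 4) = C₄ * X₂ * L ^ 16
    norm_num
  have b5 : ∑ l ∈ Cop m X₂, (l.divisors.card : ℝ) ^ 5 ≤ C₅ * X₂ * L ^ 32 := by
    refine le_trans (sum_le_sum_of_subset_of_nonneg (filter_subset _ _)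
      (fun _ _ _ => by positivity)) ((g5 x X₂ hx hX2x).trans (le_of_eq ?_))
    show C₅ * (X₂ : ℝ) * L ^ (2 ^ 5) = C₅ * X₂ * L ^ 32
    norm_num
  obtain ⟨G, hG⟩ : ∃ G : ℝ, G = X₁ + X₁ * (((X₁ : ℝ) + X₂) / (S * m)) := ⟨_, rfl⟩
  have hG0 : 0 ≤ G := by rw [hG]; positivity
  obtain ⟨P, hP⟩ : ∃ P : ℝ, P = ∑ n ∈ Icc 1 (X₁ / S), (n.divisors.card : ℝ) := ⟨_, rfl⟩
  have hP0 : 0 ≤ P := by rw [hP]; exact sum_nonneg (fun _ _ => Nat.cast_nonneg _)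
  rw [← hP] at b1
  have step : N4 m s₁ s₂ X₁ X₂ ≤ (∑ l ∈ Cop m X₂, (l.divisors.card : ℝ) ^ 4) * G +
      (∑ l ∈ Cop m X₂, (l.divisors.card : ℝ) ^ 5) * (2 * P) + EC m S X₁ X₂ := by
    rw [CA_N4, CA_EC, sum_mul, sum_mul, ← sum_add_distrib, ← sum_add_distrib]
    apply sum_le_sum
    intro l hl
    have h := mul_le_mul_of_nonneg_left (CA_all (X₁ := X₁) hm hs hs1 hs2 hl)
      (by positivity : (0 : ℝ) ≤ (l.divisors.card : ℝ) ^ 4)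
    refine h.trans (le_of_eq ?_)
    rw [hG, hP, hS]
    ring
  have c1 : (∑ l ∈ Cop m X₂, (l.divisors.card : ℝ) ^ 4) * G ≤
      C₄ * L ^ 34 * ((x : ℝ) + x * (X₁ + X₂) / (S * m)) := by
    calc (∑ l ∈ Cop m X₂, (l.divisors.card : ℝ) ^ 4) * G ≤ (C₄ * X₂ * L ^ 16) * G :=
          mul_le_mul_of_nonneg_right b4 hG0
      _ = C₄ * L ^ 16 * ((X₁ * X₂ : ℝ) + (X₁ * X₂ : ℝ) * ((X₁ + X₂) / (S * m))) := by
          rw [hG]; ring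
      _ ≤ C₄ * L ^ 34 * ((x : ℝ) + x * ((X₁ + X₂) / (S * m))) := by
          gcongr
          norm_num
      _ = _ := by rw [mul_div_assoc]
  have c2 : (∑ l ∈ Cop m X₂, (l.divisors.card : ℝ) ^ 5) * (2 * P) ≤
      2 * C₁ * C₅ * L ^ 34 * ((x : ℝ) + x * (X₁ + X₂) / (S * m)) := by
    calc (∑ l ∈ Cop m X₂, (l.divisors.card : ℝ) ^ 5) * (2 * P) ≤
          (C₅ * X₂ * L ^ 32) * (2 * (C₁ * X₁ * L ^ 2)) := by
          gcongr
      _ = 2 * C₁ * C₅ * L ^ 34 * (X₁ * X₂ : ℝ) := by ring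
      _ ≤ 2 * C₁ * C₅ * L ^ 34 * ((x : ℝ) + x * (X₁ + X₂) / (S * m)) := by
          have : 0 ≤ (x : ℝ) * (X₁ + X₂) / (S * m) := by positivity
          gcongr
          linarith
  have : (C₄ + 2 * C₁ * C₅) * L ^ 34 * ((x : ℝ) + x * (X₁ + X₂) / (S * m)) =
      C₄ * L ^ 34 * ((x : ℝ) + x * (X₁ + X₂) / (S * m)) +
      2 * C₁ * C₅ * L ^ 34 * ((x : ℝ) + x * (X₁ + X₂) / (S * m)) := by ring
  linarith

end Pool.Agent.HN
end

section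
/-! # Module BoxMinor: type II sums over a box on the minor arcs

`split` gives `s = g s₁ s₂`, `S = s₁ s₂`, `g ≤ s₂ ≤ S`, so `s ≤ S²`. `box_pert` with `α₀ = b/(s q)`; for each `t` `group_q` (weights stay `≤ 1`, `≤ τ²`), `count_A`:
`s (x + x (X₁+X₂)/(S g q)) = s x + x (X₁+X₂)/q`. `EC`: if `s ≤ x^(η₁/4)`: `count_S` with `k = ⌈4/η₁⌉`: `s x²/(S² g q) = x²/(S q) ≤ x²/(q √s)` and
`s (x/S) x^(1/k) = g x^(1 + 1/k) ≤ s x^(1 + η₁/4) ≤ x²/(q s^(1/4))` (`q s^(5/4) ≤ x^(1 - η₁ + 5η₁/16)`). If `s > x^(η₁/4)`: `count_L` with `ε = η₁/16`: `x^ε ≤ s^(1/4)`. -/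

namespace Pool.Agent.HN

open Finset Pool.Agent.BV Pool.Agent.HL

/-- the box sum for the modified weights -/
private theorem box_t (q g s₁ s₂ : ℕ) (hq : 1 ≤ q) (hg : 1 ≤ g) (hs₁ : 1 ≤ s₁) (hs₂ : 1 ≤ s₂)
    (h₁ : s₁.Coprime (g * q)) (h₂ : s₂ ∣ g * q) (hgq : ∀ p : ℕ, p.Prime → p ∣ g → p ∣ q)
    (b : ℤ) (hb : IsCoprime b ((g * s₁ * s₂ : ℕ) : ℤ)) (X₁ X₂ : ℕ) (A B : ℕ → ℂ)
    (hA : ∀ c, ‖A c‖ ≤ 1) (hB : ∀ l, ‖B l‖ ≤ (l.divisors.card : ℝ) ^ 2)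
    (hAq : ∀ c, ¬ c.Coprime q → A c = 0) (hBq : ∀ l, ¬ l.Coprime q → B l = 0) (t : ℕ) :
    VB q (Icc 1 X₁) (Icc 1 X₂) (fun c => A c * ((c : ℂ) / X₁) ^ t)
      (fun l => B l * ((l : ℂ) / X₂) ^ t) ((b : ℝ) / ((g * s₁ * s₂ : ℕ) * q)) ≤
      g * (s₁ * s₂) * N4 (g * q) s₁ s₂ X₁ X₂ := by
  have hfrac : ∀ (X c : ℕ), c ≤ X → ‖((c : ℂ) / X) ^ t‖ ≤ 1 := by
    intro X c hc
    rw [norm_pow]
    refine pow_le_one₀ (norm_nonneg _) ?_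
    rw [norm_div, Complex.norm_natCast, Complex.norm_natCast]
    exact div_le_one_of_le₀ (by exact_mod_cast hc) (Nat.cast_nonneg _)
  have key := group_q q g s₁ s₂ hq hg hs₁ hs₂ h₁ h₂ hgq b hb X₁ X₂
    (fun c => if c ≤ X₁ then A c * ((c : ℂ) / X₁) ^ t else 0)
    (fun l => if l ≤ X₂ then B l * ((l : ℂ) / X₂) ^ t else 0)
    (by
      intro c
      split_ifs with h
      · rw [norm_mul]
        exact mul_le_one₀ (hA c) (norm_nonneg _) (hfrac X₁ c h)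
      · simp)
    (by
      intro l
      split_ifs with h
      · rw [norm_mul]
        calc ‖B l‖ * ‖((l : ℂ) / X₂) ^ t‖ ≤ ‖B l‖ * 1 :=
              mul_le_mul_of_nonneg_left (hfrac X₂ l h) (norm_nonneg _)
          _ = ‖B l‖ := mul_one _
          _ ≤ _ := hB l
      · rw [norm_zero]
        exact pow_nonneg (Nat.cast_nonneg _) 2)
    (by
      intro c hc
      simp [hAq c hc])
    (by
      intro l hl
      simp [hBq l hl])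
  refine le_trans (le_of_eq ?_) key
  unfold VB
  refine Finset.sum_congr rfl fun a _ => ?_
  congr 2
  refine Finset.sum_congr rfl fun c hc => Finset.sum_congr rfl fun l hl => ?_
  beta_reduce
  rw [if_pos (Finset.mem_Icc.mp hc).2, if_pos (Finset.mem_Icc.mp hl).2]

theorem box_minor (η₁ : ℝ) (hη : 0 < η₁) : ∃ (K : ℝ) (c : ℕ), 0 < K ∧ ∀ (x q s X₁ X₂ : ℕ)
    (A B : ℕ → ℂ) (α : ℝ) (b : ℤ), 3 ≤ x → 1 ≤ q → (q : ℝ) ≤ (x : ℝ) ^ (1 - η₁) → 1 ≤ s → s ≤ x →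
    X₁ * X₂ ≤ x → (∀ c, ‖A c‖ ≤ 1) → (∀ l, ‖B l‖ ≤ (l.divisors.card : ℝ) ^ 2) →
    (∀ c, ¬ c.Coprime q → A c = 0) → (∀ l, ¬ l.Coprime q → B l = 0) → IsCoprime b (s : ℤ) →
    |q * α - b / s| ≤ (q : ℝ) / x →
    VB q (Icc 1 X₁) (Icc 1 X₂) A B α ≤ K * (Real.log x) ^ c *
      ((s : ℝ) * x + x * (X₁ + X₂) / q + (x : ℝ) ^ 2 / (q * (s : ℝ) ^ (1 / 4 : ℝ))) := by
  obtain ⟨KA, cA, hKA, hA'⟩ := count_A
  obtain ⟨KL, cL, hKL, hL'⟩ := count_L (η₁ / 16) (by positivity)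
  set k : ℕ := ⌈4 / η₁⌉₊ with hkdef
  have hk : 1 ≤ k := Nat.one_le_iff_ne_zero.mpr (Nat.ceil_pos.mpr (by positivity)).ne'
  have hk0 : (0 : ℝ) < k := by exact_mod_cast hk
  have hk1 : 1 / (k : ℝ) ≤ η₁ / 4 := by
    have h := Nat.le_ceil (4 / η₁)
    rw [← hkdef] at h
    rw [div_le_iff₀ hη] at h
    rw [div_le_div_iff₀ hk0 (by norm_num)]
    linarith
  obtain ⟨KS, cS, hKS, hS'⟩ := count_S k hk
  refine ⟨Real.exp (4 * Real.pi) * (KA + 2 * KS + KL), cA + cS + cL, by positivity, ?_⟩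
  intro x q s X₁ X₂ A B α b hx hq hqx hs hsx hX hA hB hAq hBq hb hα
  obtain ⟨g, s₁, s₂, hs_eq, hg, hs₁, hs₂, hco, hdv, hgs, hgq⟩ := split q s hq hs
  have hx0 : (0 : ℝ) < x := by exact_mod_cast (by omega : 0 < x)
  have hx1 : (1 : ℝ) ≤ x := by exact_mod_cast (by omega : 1 ≤ x)
  have hq0 : (0 : ℝ) < q := by exact_mod_cast hq
  have hg0 : (0 : ℝ) < g := by exact_mod_cast hg
  have hs0 : (0 : ℝ) < s := by exact_mod_cast hs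
  have hs1R : (1 : ℝ) ≤ s := by exact_mod_cast hs
  have hL1 : 1 ≤ Real.log x := by
    rw [Real.le_log_iff_exp_le hx0]
    have h3 : (3 : ℝ) ≤ x := by exact_mod_cast hx
    linarith [Real.exp_one_lt_d9]
  have hL0 : 0 ≤ Real.log x := by linarith
  set L := Real.log x with hLdef
  set S : ℕ := s₁ * s₂ with hSdef
  have hS1 : 1 ≤ S := Nat.mul_pos hs₁ hs₂
  have hS0 : (0 : ℝ) < S := by exact_mod_cast hS1
  have hsS : s = g * S := by rw [hs_eq, hSdef, mul_assoc]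
  have hsSR : (s : ℝ) = g * S := by rw [hsS]; push_cast; ring
  have hgS : g ≤ S := (Nat.le_of_dvd hs₂ hgs).trans (Nat.le_mul_of_pos_left s₂ hs₁)
  have hgSR : (g : ℝ) ≤ S := by exact_mod_cast hgS
  have hgs' : (g : ℝ) ≤ s := by
    rw [hsSR]
    exact le_mul_of_one_le_right hg0.le (by exact_mod_cast hS1)
  -- powers of s
  have hq4 : (s : ℝ) ^ (1 / 4 : ℝ) * (s : ℝ) ^ (1 / 4 : ℝ) ≤ S := by
    rw [← Real.rpow_add hs0]
    have h1 : (1 / 4 : ℝ) + 1 / 4 = 1 / 2 := by norm_num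
    rw [h1, ← Real.sqrt_eq_rpow]
    rw [show (S : ℝ) = Real.sqrt ((S : ℝ) ^ 2) from (Real.sqrt_sq hS0.le).symm]
    apply Real.sqrt_le_sqrt
    rw [hsSR]
    nlinarith
  have h4pos : 0 < (s : ℝ) ^ (1 / 4 : ℝ) := Real.rpow_pos_of_pos hs0 _
  have h4one : 1 ≤ (s : ℝ) ^ (1 / 4 : ℝ) := Real.one_le_rpow hs1R (by norm_num)
  have h4S : (s : ℝ) ^ (1 / 4 : ℝ) ≤ S :=
    le_trans (le_mul_of_one_le_left h4pos.le h4one) hq4
  set W : ℝ := (x : ℝ) ^ 2 / (q * (s : ℝ) ^ (1 / 4 : ℝ)) with hW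
  have hW0 : 0 ≤ W := by positivity
  -- the essential count
  have hEC : (g : ℝ) * S * EC (g * q) S X₁ X₂ ≤ (2 * KS + KL) * L ^ (cA + cS + cL) * W := by
    have hgq1 : 1 ≤ g * q := Nat.mul_pos hg hq
    have hmain : (x : ℝ) ^ 2 / (S * q) ≤ W := by
      rw [hW]
      apply div_le_div_of_nonneg_left (by positivity) (by positivity)
      rw [mul_comm]
      exact mul_le_mul_of_nonneg_right h4S hq0.le
    rcases le_or_gt (s : ℝ) ((x : ℝ) ^ (η₁ / 4)) with hcase | hcase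
    · have h1 := hS' x (g * q) S X₁ X₂ hx hgq1 hS1 hX
      have h2 : (g : ℝ) * x * (x : ℝ) ^ (1 / (k : ℝ)) ≤ W := by
        rw [hW, le_div_iff₀ (by positivity)]
        have e1 : (x : ℝ) ^ (1 / (k : ℝ)) ≤ (x : ℝ) ^ (η₁ / 4) :=
          Real.rpow_le_rpow_of_exponent_le hx1 hk1
        have e2 : (s : ℝ) ^ (1 / 4 : ℝ) ≤ (x : ℝ) ^ (η₁ / 16) := by
          calc (s : ℝ) ^ (1 / 4 : ℝ) ≤ ((x : ℝ) ^ (η₁ / 4)) ^ (1 / 4 : ℝ) :=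
                Real.rpow_le_rpow hs0.le hcase (by norm_num)
            _ = (x : ℝ) ^ (η₁ / 16) := by
                rw [← Real.rpow_mul hx0.le]
                congr 1
                ring
        have e3 : (g : ℝ) ≤ (x : ℝ) ^ (η₁ / 4) := hgs'.trans hcase
        have e4 : (g : ℝ) * (x : ℝ) ^ (1 / (k : ℝ)) * (q * (s : ℝ) ^ (1 / 4 : ℝ)) ≤ x := by
          calc (g : ℝ) * (x : ℝ) ^ (1 / (k : ℝ)) * (q * (s : ℝ) ^ (1 / 4 : ℝ)) ≤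
              (x : ℝ) ^ (η₁ / 4) * (x : ℝ) ^ (η₁ / 4) * ((x : ℝ) ^ (1 - η₁) * (x : ℝ) ^ (η₁ / 16)) := by
                gcongr
            _ = (x : ℝ) ^ (1 - 7 * η₁ / 16) := by
                rw [← Real.rpow_add hx0, ← Real.rpow_add hx0, ← Real.rpow_add hx0]
                congr 1
                ring
            _ ≤ (x : ℝ) ^ (1 : ℝ) :=
                Real.rpow_le_rpow_of_exponent_le hx1 (by linarith)
            _ = x := Real.rpow_one _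
        calc (g : ℝ) * x * (x : ℝ) ^ (1 / (k : ℝ)) * (q * (s : ℝ) ^ (1 / 4 : ℝ)) =
            ((g : ℝ) * (x : ℝ) ^ (1 / (k : ℝ)) * (q * (s : ℝ) ^ (1 / 4 : ℝ))) * x := by ring
          _ ≤ x * x := mul_le_mul_of_nonneg_right e4 hx0.le
          _ = (x : ℝ) ^ 2 := by ring
      have h3 : (g : ℝ) * S * EC (g * q) S X₁ X₂ ≤ KS * L ^ cS * (W + W) := by
        calc (g : ℝ) * S * EC (g * q) S X₁ X₂ ≤ (g : ℝ) * S * (KS * L ^ cS *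
              ((x : ℝ) ^ 2 / ((S : ℝ) ^ 2 * (g * q : ℕ)) + (x : ℝ) / S * (x : ℝ) ^ (1 / (k : ℝ)))) :=
              mul_le_mul_of_nonneg_left h1 (by positivity)
          _ = KS * L ^ cS * ((x : ℝ) ^ 2 / (S * q) + (g : ℝ) * x * (x : ℝ) ^ (1 / (k : ℝ))) := by
              push_cast
              field_simp
          _ ≤ KS * L ^ cS * (W + W) := by
              apply mul_le_mul_of_nonneg_left (add_le_add hmain h2)
              exact mul_nonneg hKS.le (pow_nonneg hL0 _)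
      have h5 : L ^ cS ≤ L ^ (cA + cS + cL) := pow_le_pow_right₀ hL1 (by omega)
      calc (g : ℝ) * S * EC (g * q) S X₁ X₂ ≤ KS * L ^ cS * (W + W) := h3
        _ = 2 * KS * L ^ cS * W := by ring
        _ ≤ 2 * KS * L ^ (cA + cS + cL) * W := by gcongr
        _ ≤ (2 * KS + KL) * L ^ (cA + cS + cL) * W := by
            apply mul_le_mul_of_nonneg_right _ hW0
            apply mul_le_mul_of_nonneg_right _ (pow_nonneg hL0 _)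
            linarith
    · have h1 := hL' x (g * q) S X₁ X₂ hx hgq1 hS1 hX
      have e1 : (x : ℝ) ^ (η₁ / 16) ≤ (s : ℝ) ^ (1 / 4 : ℝ) := by
        calc (x : ℝ) ^ (η₁ / 16) = ((x : ℝ) ^ (η₁ / 4)) ^ (1 / 4 : ℝ) := by
              rw [← Real.rpow_mul hx0.le]
              congr 1
              ring
          _ ≤ (s : ℝ) ^ (1 / 4 : ℝ) :=
              Real.rpow_le_rpow (Real.rpow_nonneg hx0.le _) hcase.le (by norm_num)
      have h2 : (x : ℝ) ^ (η₁ / 16) * ((x : ℝ) ^ 2 / (S * q)) ≤ W := by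
        rw [hW, le_div_iff₀ (by positivity), ← mul_div_assoc, div_mul_eq_mul_div,
          div_le_iff₀ (by positivity)]
        calc (x : ℝ) ^ (η₁ / 16) * (x : ℝ) ^ 2 * (q * (s : ℝ) ^ (1 / 4 : ℝ)) ≤
            (s : ℝ) ^ (1 / 4 : ℝ) * (x : ℝ) ^ 2 * (q * (s : ℝ) ^ (1 / 4 : ℝ)) := by gcongr
          _ = (x : ℝ) ^ 2 * (((s : ℝ) ^ (1 / 4 : ℝ) * (s : ℝ) ^ (1 / 4 : ℝ)) * q) := by ring
          _ ≤ (x : ℝ) ^ 2 * (S * q) := by gcongr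
      have h3 : (g : ℝ) * S * EC (g * q) S X₁ X₂ ≤ KL * L ^ cL * W := by
        calc (g : ℝ) * S * EC (g * q) S X₁ X₂ ≤ (g : ℝ) * S * (KL * L ^ cL * (x : ℝ) ^ (η₁ / 16) *
              ((x : ℝ) ^ 2 / ((S : ℝ) ^ 2 * (g * q : ℕ)))) :=
              mul_le_mul_of_nonneg_left h1 (by positivity)
          _ = KL * L ^ cL * ((x : ℝ) ^ (η₁ / 16) * ((x : ℝ) ^ 2 / (S * q))) := by
              push_cast
              field_simp
          _ ≤ KL * L ^ cL * W := by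
              apply mul_le_mul_of_nonneg_left h2
              exact mul_nonneg hKL.le (pow_nonneg hL0 _)
      have h5 : L ^ cL ≤ L ^ (cA + cS + cL) := pow_le_pow_right₀ hL1 (by omega)
      calc (g : ℝ) * S * EC (g * q) S X₁ X₂ ≤ KL * L ^ cL * W := h3
        _ ≤ KL * L ^ (cA + cS + cL) * W := by gcongr
        _ ≤ (2 * KS + KL) * L ^ (cA + cS + cL) * W := by
            apply mul_le_mul_of_nonneg_right _ hW0
            apply mul_le_mul_of_nonneg_right _ (pow_nonneg hL0 _)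
            linarith
  -- the count
  set U : ℝ := (s : ℝ) * x + x * (X₁ + X₂) / q with hU
  have hU0 : 0 ≤ U := by positivity
  have hN : (g : ℝ) * (s₁ * s₂) * N4 (g * q) s₁ s₂ X₁ X₂ ≤
      (KA + 2 * KS + KL) * L ^ (cA + cS + cL) * (U + W) := by
    have h1 := hA' x (g * q) s₁ s₂ X₁ X₂ hx (Nat.mul_pos hg hq) hs₁ hs₂ hco hdv hX
    have hSR : ((s₁ : ℝ) * s₂) = S := by rw [hSdef]; push_cast; ring
    rw [hSR]
    have h5 : L ^ cA ≤ L ^ (cA + cS + cL) := pow_le_pow_right₀ hL1 (by omega)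
    calc (g : ℝ) * S * N4 (g * q) s₁ s₂ X₁ X₂ ≤ (g : ℝ) * S * (KA * L ^ cA *
          ((x : ℝ) + x * (X₁ + X₂) / ((s₁ * s₂ : ℕ) * (g * q : ℕ))) + EC (g * q) (s₁ * s₂) X₁ X₂) :=
          mul_le_mul_of_nonneg_left h1 (by positivity)
      _ = KA * L ^ cA * U + (g : ℝ) * S * EC (g * q) S X₁ X₂ := by
          rw [← hSdef, hU, hsSR]
          push_cast
          field_simp
      _ ≤ KA * L ^ (cA + cS + cL) * U + (2 * KS + KL) * L ^ (cA + cS + cL) * W := by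
          apply add_le_add _ hEC
          gcongr
      _ ≤ (KA + 2 * KS + KL) * L ^ (cA + cS + cL) * (U + W) := by
          have hP : 0 ≤ L ^ (cA + cS + cL) := pow_nonneg hL0 _
          have a1 : 0 ≤ KA * (L ^ (cA + cS + cL) * W) := by positivity
          have a2 : 0 ≤ (2 * KS + KL) * (L ^ (cA + cS + cL) * U) := by positivity
          nlinarith
  -- removing the small phase
  have hbs : IsCoprime b ((g * s₁ * s₂ : ℕ) : ℤ) := by rw [← hs_eq]; exact hb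
  set α₀ : ℝ := (b : ℝ) / ((g * s₁ * s₂ : ℕ) * q) with hα₀
  have hγ : |α - α₀| * (X₁ * X₂) ≤ 1 := by
    have h1 : (q : ℝ) * (α - α₀) = q * α - b / s := by
      rw [hα₀, ← hs_eq]
      field_simp
    have h2 : (q : ℝ) * |α - α₀| ≤ q / x := by
      have : (q : ℝ) * |α - α₀| = |q * α - b / s| := by
        rw [← h1, abs_mul, abs_of_pos hq0]
      rw [this]
      exact hα
    have h3 : |α - α₀| ≤ 1 / x := by
      rw [le_div_iff₀ hx0]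
      rw [le_div_iff₀ hx0] at h2
      nlinarith
    have h4 : ((X₁ : ℝ) * X₂) ≤ x := by exact_mod_cast hX
    calc |α - α₀| * (X₁ * X₂) ≤ 1 / x * x := mul_le_mul h3 h4 (by positivity) (by positivity)
      _ = 1 := by field_simp
  have hpert := box_pert q X₁ X₂ A B α₀ (α - α₀)
    ((KA + 2 * KS + KL) * L ^ (cA + cS + cL) * (U + W)) hγ (by positivity)
    (fun t => (box_t q g s₁ s₂ hq hg hs₁ hs₂ hco hdv hgq b hbs X₁ X₂ A B hA hB hAq hBq t).trans hN)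
  have e0 : α₀ + (α - α₀) = α := by ring
  rw [e0] at hpert
  refine hpert.trans (le_of_eq ?_)
  ring

end Pool.Agent.HN
end

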