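import Mathlib
import Pool.Agent.Work.BV.L_Tau
import Pool.Agent.Work.BV.L_Vaughan
import Pool.Agent.Work.BV.Split
import Pool.Agent.Work.GBM.C01

section
/-! # Module MinSum: sums of `min (Y, 1/(2 ‖β h + γ‖))`

`gm_block`: split `Ioc c (c + H)` into at most `H/s + 1` blocks of at most `s` consecutive integers.
In a block `h = h₀ + i`, `0 ≤ i < s`: `β h + γ = γ' + i b / s + i θ`, `|i θ| < 1/s`; the integers
`J i = round (s γ') + i b - s round (β h + γ)` are distinct and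
`s ‖β h + γ‖ ≥ |J i| - 3/2`: block sum `≤ 4 Y + 2 s (1 + log s)`.

`gm_typeI`: for `d ≤ s/2` one has `s ‖β d‖ ≥ |J d| - 1/2` with distinct nonzero integers `J d`;
for `d > s/2` use blocks of length `s` and `gm_mono`. -/

namespace Pool.Agent.HL

open Finset Pool.Agent.BV

namespace MinSum

/-- a sum over distinct integers -/
lemma sum_natAbs_le {ι : Type*} (T : Finset ι) (J : ι → ℤ) (hJ : Set.InjOn J T) (M : ℕ)
    (hM : ∀ i ∈ T, (J i).natAbs ≤ M) (G : ℕ → ℝ) (hG : ∀ k, 0 ≤ G k) :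
    ∑ i ∈ T, G (J i).natAbs ≤ 2 * ∑ k ∈ range (M + 1), G k := by
  classical
  rw [← sum_fiberwise_of_maps_to (g := fun i => (J i).natAbs) (t := range (M + 1))
    (fun i hi => mem_range.mpr (Nat.lt_succ_of_le (hM i hi))), mul_sum]
  refine sum_le_sum fun k _ => ?_
  have h1 : ∑ i ∈ T.filter (fun i => (J i).natAbs = k), G (J i).natAbs =
      ((T.filter (fun i => (J i).natAbs = k)).card : ℝ) * G k := by
    rw [← nsmul_eq_mul, ← sum_const]
    exact sum_congr rfl fun i hi => by rw [(mem_filter.mp hi).2]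
  rw [h1]
  refine mul_le_mul_of_nonneg_right ?_ (hG k)
  have h2 : (T.filter (fun i => (J i).natAbs = k)).card ≤ ({(k : ℤ), -(k : ℤ)} : Finset ℤ).card := by
    refine card_le_card_of_injOn J ?_ ?_
    · intro i hi
      have h3 := (mem_filter.mp (mem_coe.mp hi)).2
      have h4 := Int.natAbs_eq (J i)
      rw [h3] at h4
      simpa using h4
    · intro i hi j hj hij
      exact hJ (mem_filter.mp (mem_coe.mp hi)).1 (mem_filter.mp (mem_coe.mp hj)).1 hij
  have h5 : ({(k : ℤ), -(k : ℤ)} : Finset ℤ).card ≤ 2 := card_le_two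
  exact_mod_cast h2.trans h5

lemma dist_ge (x ε : ℝ) (s : ℕ) (K : ℤ) (hx : |s * x - K| ≤ ε) :
    |((K - s * round x : ℤ) : ℝ)| - ε ≤ s * |x - round x| := by
  have h1 : |((K - s * round x : ℤ) : ℝ)| ≤ |s * x - K| + |(s : ℝ) * (x - round x)| := by
    push_cast
    have h2 : (K : ℝ) - s * (round x : ℤ) = -(s * x - K) + s * (x - round x) := by ring
    rw [h2]
    refine (abs_add_le _ _).trans ?_
    rw [abs_neg]
  rw [abs_mul, Nat.abs_cast] at h1
  linarith

lemma J_le (x ε : ℝ) (s : ℕ) (K : ℤ) (hx : |s * x - K| ≤ ε) :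
    |((K - s * round x : ℤ) : ℝ)| ≤ s / 2 + ε := by
  have h1 := dist_ge x ε s K hx
  have h2 := abs_sub_round x
  have h3 : (s : ℝ) * |x - round x| ≤ s * (1 / 2) :=
    mul_le_mul_of_nonneg_left h2 (Nat.cast_nonneg s)
  linarith

lemma gm_J (Y x ε : ℝ) (hY : 0 ≤ Y) (s : ℕ) (hs : 1 ≤ s) (K : ℤ) (hx : |s * x - K| ≤ ε)
    (hJ : ε < |((K - s * round x : ℤ) : ℝ)|) :
    gm Y x ≤ s / (2 * (|((K - s * round x : ℤ) : ℝ)| - ε)) := by
  have h1 := dist_ge x ε s K hx
  have hs0 : (0 : ℝ) < s := by exact_mod_cast hs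
  have hd : 0 < |((K - s * round x : ℤ) : ℝ)| - ε := by linarith
  have h2 := gm_le_of_dist (β := x) (δ := (|((K - s * round x : ℤ) : ℝ)| - ε) / s) hY
    (by positivity) (by rw [div_le_iff₀ hs0]; linarith)
  refine h2.trans (le_of_eq ?_)
  field_simp

lemma J_inj (s : ℕ) (b : ℤ) (hbs : IsCoprime b (s : ℤ)) (R : ℤ) (m : ℕ → ℤ)
    (T : Finset ℕ) (hT : ∀ i ∈ T, i < s) :
    Set.InjOn (fun i : ℕ => R + i * b - s * m i) (T : Set ℕ) := by
  intro i hi j hj hij
  have hi' : i < s := hT i (mem_coe.mp hi)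
  have hj' : j < s := hT j (mem_coe.mp hj)
  simp only at hij
  have h1 : (s : ℤ) ∣ ((i : ℤ) - j) * b := ⟨m i - m j, by linarith⟩
  have h2 : (s : ℤ) ∣ ((i : ℤ) - j) := (IsCoprime.dvd_of_dvd_mul_right hbs.symm h1)
  have h3 : ((i : ℤ) - j) = 0 := by
    refine Int.eq_zero_of_abs_lt_dvd h2 ?_
    rw [abs_lt]
    constructor <;> omega
  omega

/-- one block -/
lemma block (β γ : ℝ) (b : ℤ) (s : ℕ) (hs : 1 ≤ s) (hbs : IsCoprime b (s : ℤ))
    (hβ : |β - b / s| ≤ 1 / (s : ℝ) ^ 2) (c H : ℕ) (hH : H ≤ s) (Y : ℝ) (hY : 0 ≤ Y) :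
    ∑ h ∈ Ioc c (c + H), gm Y (β * h + γ) ≤ 4 * (Y + s * (1 + Real.log s)) := by
  have hs0 : (0 : ℝ) < s := by exact_mod_cast hs
  set γ' : ℝ := β * (c + 1 : ℕ) + γ with hγ'
  set R : ℤ := round (s * γ') with hR
  set X : ℕ → ℝ := fun i => β * (c + 1 + i : ℕ) + γ with hX
  have e1 : ∑ h ∈ Ioc c (c + H), gm Y (β * h + γ) = ∑ i ∈ range H, gm Y (X i) := by
    have : Ioc c (c + H) = (range H).map (addLeftEmbedding (c + 1)) := by
      rw [range_eq_Ico, map_add_left_Ico]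
      ext h
      simp only [mem_Ioc, mem_Ico]
      omega
    rw [this, sum_map]
    rfl
  rw [e1]
  have hclose : ∀ i ∈ range H, |s * X i - ((R + i * b : ℤ) : ℝ)| ≤ 3 / 2 := by
    intro i hi
    have hi' : i < s := lt_of_lt_of_le (mem_range.mp hi) hH
    have h1 : s * X i - ((R + i * b : ℤ) : ℝ) = (s * γ' - R) + i * (s * (β - b / s)) := by
      simp only [hX, hγ']
      push_cast
      field_simp
      ring
    rw [h1]
    have h2 : |s * γ' - R| ≤ 1 / 2 := abs_sub_round _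
    have h3 : |(i : ℝ) * (s * (β - b / s))| ≤ 1 := by
      rw [abs_mul, abs_mul, Nat.abs_cast, Nat.abs_cast]
      have h4 : (i : ℝ) ≤ s := by exact_mod_cast hi'.le
      calc (i : ℝ) * (s * |β - b / s|) ≤ s * (s * (1 / (s : ℝ) ^ 2)) := by
            refine mul_le_mul h4 (mul_le_mul_of_nonneg_left hβ hs0.le) (by positivity) hs0.le
        _ = 1 := by field_simp
    refine (abs_add_le _ _).trans ?_
    linarith
  set J : ℕ → ℤ := fun i => R + i * b - s * round (X i) with hJ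
  set G : ℕ → ℝ := fun k => if k ≤ 1 then Y else s / (k - 1 : ℝ) with hG
  have hG0 : ∀ k, 0 ≤ G k := by
    intro k
    simp only [hG]
    split_ifs with h
    · exact hY
    · have : (2 : ℝ) ≤ k := by exact_mod_cast (by omega : 2 ≤ k)
      exact div_nonneg hs0.le (by linarith)
  have habs : ∀ i, |((J i : ℤ) : ℝ)| = ((J i).natAbs : ℝ) := by
    intro i
    rw [← Int.cast_abs, Int.abs_eq_natAbs]
    simp
  have hterm : ∀ i ∈ range H, gm Y (X i) ≤ G (J i).natAbs := by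
    intro i hi
    simp only [hG]
    split_ifs with h
    · exact gm_le hY _
    · have h2 : (2 : ℝ) ≤ ((J i).natAbs : ℝ) := by exact_mod_cast (by omega : 2 ≤ (J i).natAbs)
      have h3 := gm_J Y (X i) (3 / 2) hY s hs (R + i * b) (hclose i hi)
      have h4 : |((R + i * b - s * round (X i) : ℤ) : ℝ)| = ((J i).natAbs : ℝ) := habs i
      rw [h4] at h3
      refine (h3 (by linarith)).trans ?_
      exact div_le_div_of_nonneg_left hs0.le (by linarith) (by linarith)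
  have hM : ∀ i ∈ range H, (J i).natAbs ≤ s + 1 := by
    intro i hi
    have h1 := J_le (X i) (3 / 2) s (R + i * b) (hclose i hi)
    have h4 : |((R + i * b - s * round (X i) : ℤ) : ℝ)| = ((J i).natAbs : ℝ) := habs i
    rw [h4] at h1
    have h5 : (1 : ℝ) ≤ s := by exact_mod_cast hs
    have h6 : ((J i).natAbs : ℝ) ≤ ((s + 1 : ℕ) : ℝ) := by push_cast; linarith
    exact_mod_cast h6
  calc ∑ i ∈ range H, gm Y (X i) ≤ ∑ i ∈ range H, G (J i).natAbs := sum_le_sum hterm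
    _ ≤ 2 * ∑ k ∈ range (s + 1 + 1), G k :=
        sum_natAbs_le _ J (J_inj s b hbs R (fun i => round (X i)) (range H)
          (fun i hi => lt_of_lt_of_le (mem_range.mp hi) hH)) (s + 1) hM G hG0
    _ ≤ 2 * (2 * Y + s * (1 + Real.log s)) := by
        refine mul_le_mul_of_nonneg_left ?_ (by norm_num)
        have h1 : ∑ k ∈ range (s + 1 + 1), G k = (Y + Y) + ∑ k ∈ range s, G (k + 2) := by
          have g0 : G 0 = Y := by simp [hG]
          have g1 : G (0 + 1) = Y := by simp [hG]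
          rw [sum_range_succ', sum_range_succ', g0, g1]
          ring
        rw [h1]
        have h2 : ∑ k ∈ range s, G (k + 2) = s * ∑ n ∈ Ioc 0 s, 1 / (n : ℝ) := by
          have : Ioc 0 s = (range s).map (addRightEmbedding 1) := by
            rw [range_eq_Ico, map_add_right_Ico]
            ext h
            simp only [mem_Ioc, mem_Ico]
            omega
          rw [this, sum_map, mul_sum]
          refine sum_congr rfl fun k _ => ?_
          simp only [hG]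
          rw [if_neg (by omega)]
          simp only [addRightEmbedding_apply]
          push_cast
          rw [mul_one_div]
          congr 1
          ring
        rw [h2]
        have h3 := Pool.Agent.Work.BV.sum_inv_le s
        have h4 := mul_le_mul_of_nonneg_left h3 hs0.le
        linarith
    _ ≤ 4 * (Y + s * (1 + Real.log s)) := by
        have : 0 ≤ (s : ℝ) * (1 + Real.log s) := by
          have := Real.log_nonneg (show (1 : ℝ) ≤ s by exact_mod_cast hs)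
          positivity
        linarith

end MinSum

theorem gm_block (β γ : ℝ) (b : ℤ) (s : ℕ) (hs : 1 ≤ s) (hbs : IsCoprime b (s : ℤ))
    (hβ : |β - b / s| ≤ 1 / (s : ℝ) ^ 2) (c H : ℕ) (Y : ℝ) (hY : 0 ≤ Y) :
    ∑ h ∈ Ioc c (c + H), gm Y (β * h + γ) ≤
      8 * ((H : ℝ) / s + 1) * (Y + s * (1 + Real.log s)) := by
  have hs0 : (0 : ℝ) < s := by exact_mod_cast hs
  set T : ℝ := Y + s * (1 + Real.log s) with hT
  have hT0 : 0 ≤ T := by
    have := Real.log_nonneg (show (1 : ℝ) ≤ s by exact_mod_cast hs)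
    positivity
  have main : ∀ H c : ℕ, ∑ h ∈ Ioc c (c + H), gm Y (β * h + γ) ≤ 4 * ((H : ℝ) / s + 1) * T := by
    intro H
    induction H using Nat.strong_induction_on with
    | _ H ih =>
      intro c
      by_cases h : H ≤ s
      · have h1 := MinSum.block β γ b s hs hbs hβ c H h Y hY
        have h2 : 0 ≤ (H : ℝ) / s := by positivity
        have h3 : 0 ≤ (H : ℝ) / s * T := mul_nonneg h2 hT0
        linarith
      · have h' : s < H := not_le.mp h
        have h1 := ih (H - s) (by omega) (c + s)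
        have h2 := MinSum.block β γ b s hs hbs hβ c s le_rfl Y hY
        have h3 : c + s + (H - s) = c + H := by omega
        rw [h3] at h1
        rw [← sum_Ioc_consecutive _ (show c ≤ c + s by omega) (show c + s ≤ c + H by omega)]
        have h4 : ((H - s : ℕ) : ℝ) = (H : ℝ) - s := by
          rw [Nat.cast_sub h'.le]
        rw [h4, sub_div, div_self hs0.ne'] at h1
        linarith
  refine (main H c).trans ?_
  have : 0 ≤ ((H : ℝ) / s + 1) * T := by positivity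
  linarith

end Pool.Agent.HL
end

section
/-! # Module TypeII

Cauchy over `k`: `‖∑ a_k S_k‖² ≤ ∑ ‖a_k‖² ∑_k ‖S_k‖²`, and
`∑_k ‖S_k‖² = ∑_{c, c'} g_c conj(g_c') ∑_{k ∈ (X₁, 2 X₁], k ≤ x / max c c'} φ(ck) conj φ(c'k) e(k(c-c')α)`.
Split `k` into classes `k₀` mod `q`: the class sums are bounded by `gm (X₁/q + 1) (q (c - c') α)`
(`class_le`, `gm_mono`, `gm_neg`) and `∑_{k₀ < q} ‖φ(c k₀)‖ ‖φ(c' k₀)‖ ≤ 1` (Cauchy-Schwarz; `c`
coprime to `q` permutes the classes, for `c` not coprime to `q` all terms vanish). Then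
`‖g_c‖ ‖g_c'‖ ≤ (‖g_c‖² + ‖g_c'‖²)/2` and `gm_block` with `β = q α`, `γ = -q α c`. -/

namespace Pool.Agent.HL

open Finset Pool.Agent.BV

namespace TypeII

lemma tw_mod {q : ℕ} {φ : ℕ → ℂ} (hφ : Tw q φ) (c k : ℕ) : φ (c * k) = φ (c * (k % q)) := by
  rw [hφ.per (c * k), hφ.per (c * (k % q))]
  congr 1
  exact Nat.ModEq.mul_left c (Nat.mod_modEq k q).symm

lemma tw_col {q : ℕ} {φ : ℕ → ℂ} (hφ : Tw q φ) (c : ℕ) :
    ∑ k ∈ range q, ‖φ (c * k)‖ ^ 2 ≤ 1 := by
  by_cases h : c.Coprime q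
  · have h1 : ∑ k ∈ range q, ‖φ (c * k)‖ ^ 2 =
        ∑ a ∈ (range q).image (fun k => c * k % q), ‖φ a‖ ^ 2 := by
      rw [sum_image]
      · exact sum_congr rfl fun k _ => by rw [hφ.per (c * k)]
      · intro k hk k' hk' hkk
        have hk1 := mem_range.mp hk
        have hk2 := mem_range.mp hk'
        have h2 : k ≡ k' [MOD q] := Nat.ModEq.cancel_left_of_coprime (Nat.Coprime.symm h) hkk
        have h3 : k % q = k' % q := h2
        rwa [Nat.mod_eq_of_lt hk1, Nat.mod_eq_of_lt hk2] at h3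
    rw [h1]
    refine (sum_le_sum_of_subset_of_nonneg ?_ fun _ _ _ => by positivity).trans hφ.l2
    intro a ha
    obtain ⟨k, hk, rfl⟩ := mem_image.mp ha
    exact mem_range.mpr (Nat.mod_lt _ (lt_of_le_of_lt (Nat.zero_le _) (mem_range.mp hk)))
  · rw [sum_eq_zero]
    · exact zero_le_one
    · intro k _
      rw [hφ.cop _ fun h2 => h (Nat.Coprime.coprime_mul_right h2)]
      simp

end TypeII

end Pool.Agent.HL
end

section
/-! Type I sums. -/

namespace Pool.Agent.Work.BV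

open Finset

noncomputable section

lemma abel_id (f : ℕ → ℂ) (φ : ℕ → ℝ) (Y : ℕ) (hY : 1 ≤ Y) :
    ∑ n ∈ Finset.Icc 1 Y, f n * (φ n : ℂ)
      = (∑ n ∈ Finset.Icc 1 Y, f n) * (φ Y : ℂ)
        - ∑ n ∈ Finset.Ico 1 Y, (∑ k ∈ Finset.Icc 1 n, f k) * ((φ (n + 1) - φ n : ℝ) : ℂ) := by
  induction Y, hY using Nat.le_induction with
  | base => simp
  | succ Y hY ih =>
    rw [Finset.sum_Icc_succ_top (by omega), Finset.sum_Icc_succ_top (by omega), ih,
      Finset.sum_Ico_succ_top hY]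
    push_cast
    ring

lemma abel_le {f : ℕ → ℂ} {B : ℝ} (hB : ∀ n, ‖∑ k ∈ Finset.Icc 1 n, f k‖ ≤ B) (φ : ℕ → ℝ)
    (Y : ℕ) :
    ‖∑ n ∈ Finset.Icc 1 Y, f n * (φ n : ℂ)‖
      ≤ B * (|φ Y| + ∑ n ∈ Finset.Ico 1 Y, |φ (n + 1) - φ n|) := by
  have hB0 : 0 ≤ B := (norm_nonneg _).trans (hB 0)
  rcases Nat.eq_zero_or_pos Y with rfl | hY
  · simp; positivity
  rw [abel_id f φ Y hY, mul_add, Finset.mul_sum]
  refine (norm_sub_le _ _).trans (add_le_add ?_ ?_)
  · rw [norm_mul, Complex.norm_real, Real.norm_eq_abs]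
    exact mul_le_mul_of_nonneg_right (hB _) (abs_nonneg _)
  · refine (norm_sum_le _ _).trans (Finset.sum_le_sum fun n _ => ?_)
    rw [norm_mul, Complex.norm_real, Real.norm_eq_abs]
    exact mul_le_mul_of_nonneg_right (hB _) (abs_nonneg _)

end

end Pool.Agent.Work.BV
end

section
/-! # Module MassA: the geometric grid, the type II sum cut along the grid, mean squares of the
pieces (used in `Mass`) -/

namespace Pool.Agent.HL

open Finset Pool.Agent.BV
open scoped ArithmeticFunction.vonMangoldt ArithmeticFunction.Moebius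

namespace MassA

lemma gr_zero (η : ℝ) : gr η 0 = 1 := by simp [gr]

lemma gr_mono {η : ℝ} (hη : 0 ≤ η) : Monotone (gr η) := by
  intro i j hij
  unfold gr
  exact Nat.floor_mono (pow_le_pow_right₀ (by linarith) hij)

lemma one_le_gr {η : ℝ} (hη : 0 ≤ η) (i : ℕ) : 1 ≤ gr η i := by
  have := gr_mono hη (Nat.zero_le i)
  rwa [gr_zero] at this

lemma gr_le_pow {η : ℝ} (hη : 0 ≤ η) (i : ℕ) : (gr η i : ℝ) ≤ (1 + η) ^ i :=
  Nat.floor_le (by positivity)

lemma pow_lt_gr (η : ℝ) (i : ℕ) : (1 + η) ^ i < gr η i + 1 := Nat.lt_floor_add_one _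

lemma gr_succ_le {η : ℝ} (hη : 0 ≤ η) (i : ℕ) :
    (gr η (i + 1) : ℝ) ≤ (1 + η) * (gr η i + 1) := by
  refine (gr_le_pow hη _).trans ?_
  rw [pow_succ, mul_comm]
  exact mul_le_mul_of_nonneg_left (pow_lt_gr η i).le (by linarith)

lemma exists_gr {η : ℝ} (hη : 0 < η) (B : ℝ) : ∃ i, B ≤ gr η i := by
  obtain ⟨i, hi⟩ := pow_unbounded_of_one_lt (B + 1) (by linarith : 1 < 1 + η)
  exact ⟨i, by have := pow_lt_gr η i; linarith⟩

/-- number of grid points up to `x` -/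
lemma gr_count {η : ℝ} (hη : 0 < η) (hη1 : η ≤ 1) {x : ℝ} (hx : 2 ≤ x) {i : ℕ}
    (hi : (gr η i : ℝ) ≤ x) : (i : ℝ) ≤ 4 * Real.log x / η := by
  have h1 : (1 + η) ^ i < x + 1 := (pow_lt_gr η i).trans_le (by linarith)
  have h2 : (i : ℝ) * Real.log (1 + η) ≤ Real.log (x + 1) := by
    rw [← Real.log_pow]
    exact Real.log_le_log (by positivity) h1.le
  have h3 : Real.log (x + 1) ≤ 2 * Real.log x := by
    rw [← Real.log_rpow (by linarith)]
    apply Real.log_le_log (by linarith)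
    have : x ^ (2 : ℝ) = x * x := by
      rw [show (2 : ℝ) = ((2 : ℕ) : ℝ) by norm_num, Real.rpow_natCast]; ring
    rw [this]
    nlinarith
  have h4 : η / 2 ≤ Real.log (1 + η) := by
    have h5 := Real.one_sub_inv_le_log_of_pos (by linarith : 0 < 1 + η)
    have h6 : η / 2 ≤ 1 - (1 + η)⁻¹ := by
      have h7 : 1 - (1 + η)⁻¹ = η / (1 + η) := by field_simp; ring
      rw [h7]
      exact div_le_div_of_nonneg_left hη.le (by linarith) (by linarith)
    linarith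
  rw [le_div_iff₀ hη]
  have h8 : (i : ℝ) * (η / 2) ≤ i * Real.log (1 + η) :=
    mul_le_mul_of_nonneg_left h4 (Nat.cast_nonneg i)
  linarith

lemma sum_blocks {M : Type*} [AddCommMonoid M] (g : ℕ → ℕ) (hg : Monotone g) (f : ℕ → M)
    (i₀ i₁ : ℕ) (h : i₀ ≤ i₁) :
    ∑ i ∈ Ico i₀ i₁, ∑ c ∈ Ioc (g i) (g (i + 1)), f c = ∑ c ∈ Ioc (g i₀) (g i₁), f c := by
  induction i₁, h using Nat.le_induction with
  | base => simp
  | succ n hn ih =>
    rw [Finset.sum_Ico_succ_top hn, ih,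
      Finset.sum_Ioc_consecutive _ (hg hn) (hg (Nat.le_succ n))]

end MassA

end Pool.Agent.HL
end

section
/-! # Module IIMinor: the type II part on the minor arcs

For each of the three products `a * b`, `a` supported in `(U, w]`: all coefficients restricted to the integers
coprime to `m`. `∑_{n ≤ x} (a*b)(n) G(n) = ∑_{c, k, ck ≤ x} a(c) b(k) G(ck)`. `k = 1`: trivial, `≤ 12 w (1+log x)²`.
`k ≥ 2`: dyadic blocks `k ∈ (2^j, 2^(j+1)]`, `j ≥ 0`, `c ∈ (2^i U, 2^(i+1) U]`, `2^i U ≤ w`, `2^(i+j) U ≤ x`,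
at most `C L²` blocks; `typeII` (HL) with the roles `k` (there `k`, `a k := b k`) and `c` (there `c`, `g c := a c`):
`X₁ X₂ ((X₂/s + 1)(X₁/q + 1 + s (1 + log s))) ≤ C L (x²/q)(1/s + 1/U + q w/x + q s/x)` since `X₁ X₂ ≤ x`,
`X₂ ≤ w`, `X₁ ≤ x/U`; coefficient sums by `tau_sum 10`. -/

namespace Pool.Agent.HT

open Finset Pool.Agent.BV Pool.Agent.HL

namespace IIMinor

/-- one term of the double sum -/
noncomputable def tm (x : ℕ) (φ : ℕ → ℂ) (α : ℝ) (a g : ℕ → ℂ) (k c : ℕ) : ℂ :=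
  if c * k ≤ x then a k * g c * (φ (c * k) * e ((c * k : ℕ) * α)) else 0

lemma dyad (N J : ℕ) (f : ℕ → ℂ) : ∑ k ∈ Ioc N (2 ^ J * N), f k =
    ∑ j ∈ range J, ∑ k ∈ Ioc (2 ^ j * N) (2 * (2 ^ j * N)), f k := by
  induction J with
  | zero => simp
  | succ J ih =>
    have h1 : 2 * (2 ^ J * N) = 2 ^ (J + 1) * N := by ring
    rw [sum_range_succ, ← ih, h1]
    refine (sum_Ioc_consecutive f ?_ ?_).symm
    · exact Nat.le_mul_of_pos_left _ (by positivity)
    · rw [← h1]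
      omega

lemma decomp {x U J : ℕ} (hx : 1 ≤ x) (hU : 1 ≤ U) (hJ : x ≤ 2 ^ J) (T : ℕ → ℕ → ℂ)
    (h1 : ∀ k c, x < c * k → T k c = 0) (h2 : ∀ k c, c ≤ U → T k c = 0) :
    ∑ k ∈ Icc 1 x, ∑ c ∈ Icc 1 x, T k c = ∑ c ∈ Icc 1 x, T 1 c +
      ∑ j ∈ range J, ∑ i ∈ range J, ∑ k ∈ Ioc (2 ^ j) (2 * 2 ^ j),
        ∑ c ∈ Ioc (2 ^ i * U) (2 * (2 ^ i * U)), T k c := by
  rw [Finset.Icc_eq_cons_Ioc hx, Finset.sum_cons]
  rw [← Finset.Icc_eq_cons_Ioc hx]
  congr 1
  have h3 : ∀ k, 1 ≤ k → ∑ c ∈ Icc 1 x, T k c = ∑ i ∈ range J,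
      ∑ c ∈ Ioc (2 ^ i * U) (2 * (2 ^ i * U)), T k c := by
    intro k hk
    rw [← dyad]
    refine Finset.sum_congr_of_eq_on_inter ?_ ?_ ?_
    · intro c hc hc'
      rw [mem_Icc] at hc
      rw [mem_Ioc, not_and_or, not_lt, not_le] at hc'
      rcases hc' with h | h
      · exact h2 k c h
      · exfalso
        have : 2 ^ J ≤ 2 ^ J * U := Nat.le_mul_of_pos_right _ hU
        omega
    · intro c hc hc'
      rw [mem_Ioc] at hc
      rw [mem_Icc, not_and_or, not_le, not_le] at hc'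
      rcases hc' with h | h
      · exfalso
        omega
      · apply h1
        exact lt_of_lt_of_le h (Nat.le_mul_of_pos_right _ hk)
    · intro c _ _
      rfl
  have h4 : ∑ k ∈ Ioc 1 x, ∑ c ∈ Icc 1 x, T k c =
      ∑ k ∈ Ioc 1 (2 ^ J * 1), ∑ c ∈ Icc 1 x, T k c := by
    apply sum_subset
    · apply Ioc_subset_Ioc_right
      omega
    · intro k hk hk'
      rw [mem_Ioc] at hk hk'
      apply sum_eq_zero
      intro c hc
      rw [mem_Icc] at hc
      apply h1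
      have h5 : x < k := by omega
      exact lt_of_lt_of_le h5 (Nat.le_mul_of_pos_left _ hc.1)
  rw [h4, dyad]
  refine sum_congr rfl fun j _ => ?_
  rw [mul_one]
  refine Eq.trans ?_ sum_comm
  refine sum_congr rfl fun k hk => ?_
  rw [mem_Ioc] at hk
  exact h3 k (by omega)

/-- the target -/
noncomputable def tgt (x q s w U : ℕ) : ℝ :=
  ((x : ℝ) ^ 2 / q) * (1 / s + 1 / U + (q : ℝ) * w / x + (q : ℝ) * s / x)

lemma tgt_nonneg (x q s w U : ℕ) : 0 ≤ tgt x q s w U := by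
  unfold tgt
  positivity

lemma tgt_eq {x q s w U : ℕ} (hx : 3 ≤ x) (hq : 1 ≤ q) (hs : 1 ≤ s) (hU : 1 ≤ U) :
    tgt x q s w U = (x : ℝ) ^ 2 / (s * q) + (x : ℝ) ^ 2 / (U * q) + x * w + x * s := by
  unfold tgt
  have h1 : (0 : ℝ) < x := by exact_mod_cast (by omega : 0 < x)
  have h2 : (0 : ℝ) < q := by exact_mod_cast hq
  have h3 : (0 : ℝ) < s := by exact_mod_cast hs
  have h4 : (0 : ℝ) < U := by exact_mod_cast hU
  field_simp

/-- the inequality for a block -/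
lemma calc_block {x q s w U : ℕ} {X₁ X₂ L Λ : ℝ} (hx : 3 ≤ x) (hq : 1 ≤ q) (hs : 1 ≤ s)
    (hU : 1 ≤ U) (hw : 1 ≤ w) (hX₁ : 1 ≤ X₁) (hUX : U ≤ X₂) (hXw : X₂ ≤ w) (hXX : X₁ * X₂ ≤ x)
    (hL : 1 ≤ L) (hΛ : Λ ≤ 2 * L) :
    X₁ * X₂ * ((X₂ / s + 1) * (X₁ / q + 1 + s * Λ)) ≤ 4 * L * tgt x q s w U := by
  rw [tgt_eq hx hq hs hU]
  have h1 : (3 : ℝ) ≤ x := by exact_mod_cast hx
  have h2 : (1 : ℝ) ≤ q := by exact_mod_cast hq
  have h3 : (1 : ℝ) ≤ s := by exact_mod_cast hs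
  have h4 : (1 : ℝ) ≤ U := by exact_mod_cast hU
  have h5 : (1 : ℝ) ≤ w := by exact_mod_cast hw
  have hX₂ : 1 ≤ X₂ := h4.trans hUX
  set P := X₁ * X₂ with hP
  have hP0 : 0 < P := by positivity
  have hX₁U : X₁ ≤ x / U := by
    rw [le_div_iff₀ (by linarith)]
    calc X₁ * U ≤ X₁ * X₂ := mul_le_mul_of_nonneg_left hUX (by linarith)
      _ ≤ x := hXX
  have e1 : P * ((X₂ / s + 1) * (X₁ / q + 1 + s * Λ)) =
      P * P / (s * q) + P * (X₂ / s) + P * X₂ * Λ + P * X₁ / q + P + P * s * Λ := by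
    rw [hP]
    field_simp
    ring
  have f1 : P * P / (s * q) ≤ (x : ℝ) ^ 2 / (s * q) := by
    apply div_le_div_of_nonneg_right _ (by positivity)
    rw [sq]
    exact mul_le_mul hXX hXX hP0.le (by linarith)
  have f2 : P * (X₂ / s) ≤ x * w := by
    apply mul_le_mul hXX _ (by positivity) (by linarith)
    exact (div_le_self (by linarith) h3).trans hXw
  have f3 : P * X₂ * Λ ≤ x * w * (2 * L) := by
    have : P * X₂ ≤ x * w := mul_le_mul hXX hXw (by linarith) (by linarith)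
    calc P * X₂ * Λ ≤ P * X₂ * (2 * L) := mul_le_mul_of_nonneg_left hΛ (by positivity)
      _ ≤ x * w * (2 * L) := mul_le_mul_of_nonneg_right this (by linarith)
  have f4 : P * X₁ / q ≤ (x : ℝ) ^ 2 / (U * q) := by
    have : P * X₁ ≤ x * (x / U) := mul_le_mul hXX hX₁U (by linarith) (by linarith)
    calc P * X₁ / q ≤ x * (x / U) / q := div_le_div_of_nonneg_right this (by linarith)
      _ = _ := by field_simp
  have f5 : P ≤ x * w := hXX.trans (le_mul_of_one_le_right (by linarith) h5)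
  have f6 : P * s * Λ ≤ x * s * (2 * L) := by
    have : P * s ≤ x * s := mul_le_mul_of_nonneg_right hXX (by linarith)
    calc P * s * Λ ≤ P * s * (2 * L) := mul_le_mul_of_nonneg_left hΛ (by positivity)
      _ ≤ x * s * (2 * L) := mul_le_mul_of_nonneg_right this (by linarith)
  rw [e1]
  have g1 : (x : ℝ) ^ 2 / (s * q) ≤ 4 * L * ((x : ℝ) ^ 2 / (s * q)) := by
    have : (0 : ℝ) ≤ (x : ℝ) ^ 2 / (s * q) := by positivity
    nlinarith
  have g2 : (x : ℝ) ^ 2 / (U * q) ≤ 4 * L * ((x : ℝ) ^ 2 / (U * q)) := by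
    have : (0 : ℝ) ≤ (x : ℝ) ^ 2 / (U * q) := by positivity
    nlinarith
  have g3 : x * w + x * w * (2 * L) + x * w ≤ 4 * L * ((x : ℝ) * w) := by
    have : (0 : ℝ) ≤ (x : ℝ) * w := by positivity
    nlinarith
  have g4 : x * s * (2 * L) ≤ 4 * L * ((x : ℝ) * s) := by
    have : (0 : ℝ) ≤ (x : ℝ) * s := by positivity
    nlinarith
  have e2 : 4 * L * ((x : ℝ) ^ 2 / (s * q) + (x : ℝ) ^ 2 / (U * q) + x * w + x * s) =
      4 * L * ((x : ℝ) ^ 2 / (s * q)) + 4 * L * ((x : ℝ) ^ 2 / (U * q)) +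
        4 * L * ((x : ℝ) * w) + 4 * L * ((x : ℝ) * s) := by ring
  rw [e2]
  linarith

lemma one_le_log {x : ℕ} (hx : 3 ≤ x) : 1 ≤ Real.log x := by
  have h1 : (3 : ℝ) ≤ x := by exact_mod_cast hx
  rw [Real.le_log_iff_exp_le (by linarith)]
  have := Real.exp_one_lt_d9
  linarith

lemma log_le' {x n : ℕ} (hn : 1 ≤ n) (hnx : n ≤ x) : Real.log n ≤ Real.log x :=
  Real.log_le_log (by exact_mod_cast hn) (by exact_mod_cast hnx)

lemma norm_tw {q : ℕ} (hq : 1 ≤ q) {φ : ℕ → ℂ} (hφ : Tw q φ) (n : ℕ) : ‖φ n‖ ≤ 1 := by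
  rw [hφ.per n]
  have h1 : ‖φ (n % q)‖ ^ 2 ≤ ∑ a ∈ range q, ‖φ a‖ ^ 2 :=
    single_le_sum (f := fun a => ‖φ a‖ ^ 2) (fun _ _ => by positivity)
      (mem_range.mpr (Nat.mod_lt _ hq))
  have h2 := h1.trans hφ.l2
  nlinarith [norm_nonneg (φ (n % q))]

lemma sq_sum_le (s : Finset ℕ) (f : ℕ → ℂ) : ‖∑ i ∈ s, f i‖ ^ 2 ≤
    s.card * ∑ i ∈ s, ‖f i‖ ^ 2 :=
  le_trans (pow_le_pow_left₀ (norm_nonneg _) (norm_sum_le _ _) 2) sq_sum_le_card_mul_sum_sq

lemma log2_le {x : ℕ} (hx : 3 ≤ x) : ((Nat.log 2 x + 1 : ℕ) : ℝ) ≤ 3 * Real.log x := by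
  have hL := one_le_log hx
  have h1 : (2 : ℝ) ^ Nat.log 2 x ≤ x := by
    exact_mod_cast Nat.pow_log_le_self 2 (by omega)
  have h2 := Real.log_le_log (by positivity) h1
  rw [Real.log_pow] at h2
  have h3 := Real.log_two_gt_d9
  have h4 : (0 : ℝ) ≤ (Nat.log 2 x : ℝ) := Nat.cast_nonneg _
  push_cast
  nlinarith

end IIMinor

end Pool.Agent.HT
end

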