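import Pool.Agent.Work.BV.Reduce
import Pool.Agent.Work.GBM.C01
import Pool.Agent.Work.GBM.C08
import Pool.Agent.Work.MP_aac176_nt.Div

section
/-! # Module TypeI

`inner`: for `d` coprime to `q` (otherwise `φ (d k) = 0`): split `k` into classes mod `q`;
`∑_{k₀ < q} ‖φ (d k₀)‖ = ∑_{a < q} ‖φ a‖ ≤ √q` and `class_le`, with ratio `e (q d α)`.
The log version: Abel summation (`abel_le` in `BV/L_TypeI.lean`). Then `gm_typeI` with `N = x / q`. -/

namespace Pool.Agent.HL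

open Finset Pool.Agent.BV

namespace TypeI

lemma tw_l1 {q : ℕ} {φ : ℕ → ℂ} (hφ : Tw q φ) (d : ℕ) :
    ∑ k ∈ range q, ‖φ (d * k)‖ ≤ Real.sqrt q := by
  have h1 := sum_mul_sq_le_sq_mul_sq (range q) (fun _ => (1 : ℝ)) (fun k => ‖φ (d * k)‖)
  have h2 := TypeII.tw_col hφ d
  simp only [one_mul, one_pow, sum_const, card_range, nsmul_eq_mul, mul_one] at h1
  have h3 : (∑ k ∈ range q, ‖φ (d * k)‖) ^ 2 ≤ q := by
    refine h1.trans ?_
    calc (q : ℝ) * ∑ k ∈ range q, ‖φ (d * k)‖ ^ 2 ≤ q * 1 :=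
          mul_le_mul_of_nonneg_left h2 (Nat.cast_nonneg q)
      _ = q := mul_one _
  exact Real.le_sqrt_of_sq_le h3

end TypeI

theorem inner {q : ℕ} (hq : 1 ≤ q) {φ : ℕ → ℂ} (hφ : Tw q φ) (α : ℝ) (d y : ℕ) :
    ‖∑ k ∈ Icc 1 y, φ (d * k) * e ((d * k : ℕ) * α)‖ ≤
      Real.sqrt q * gm ((y : ℝ) / q + 1) (q * α * d) := by
  have h0 : (0 : ℝ) ≤ gm ((y : ℝ) / q + 1) (q * α * d) := gm_nonneg (by positivity) _
  have hI : Icc 1 y = Ioc 0 y := by
    ext k
    simp only [mem_Icc, mem_Ioc]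
    omega
  have h1 : ∑ k ∈ Icc 1 y, φ (d * k) * e ((d * k : ℕ) * α) =
      ∑ k₀ ∈ range q, φ (d * k₀) *
        ∑ k ∈ (Ioc 0 y).filter (fun n => n ≡ k₀ [MOD q]), e (k * (d * α)) := by
    rw [hI, ← sum_fiberwise_of_maps_to (g := fun k => k % q) (t := range q)
      (fun k _ => mem_range.mpr (Nat.mod_lt _ hq))]
    refine sum_congr rfl fun k₀ hk₀ => ?_
    rw [mul_sum]
    have h2 : (Ioc 0 y).filter (fun n => n % q = k₀) =
        (Ioc 0 y).filter (fun n => n ≡ k₀ [MOD q]) := by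
      apply filter_congr
      intro n _
      unfold Nat.ModEq
      rw [Nat.mod_eq_of_lt (mem_range.mp hk₀)]
    rw [h2]
    refine sum_congr rfl fun k hk => ?_
    have h3 : k % q = k₀ := by
      have := (mem_filter.mp hk).2
      unfold Nat.ModEq at this
      rwa [Nat.mod_eq_of_lt (mem_range.mp hk₀)] at this
    rw [TypeII.tw_mod hφ d k, h3]
    congr 2
    push_cast
    ring
  rw [h1]
  calc _ ≤ ∑ k₀ ∈ range q, ‖φ (d * k₀) *
        ∑ k ∈ (Ioc 0 y).filter (fun n => n ≡ k₀ [MOD q]), e (k * (d * α))‖ := norm_sum_le _ _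
    _ ≤ ∑ k₀ ∈ range q, ‖φ (d * k₀)‖ * gm ((y : ℝ) / q + 1) (q * α * d) := by
      refine sum_le_sum fun k₀ _ => ?_
      rw [norm_mul]
      refine mul_le_mul_of_nonneg_left ?_ (norm_nonneg _)
      have h4 := class_le q k₀ 0 y hq (d * α)
      rw [Nat.sub_zero] at h4
      refine h4.trans (le_of_eq ?_)
      congr 1
      ring
    _ = (∑ k₀ ∈ range q, ‖φ (d * k₀)‖) * gm ((y : ℝ) / q + 1) (q * α * d) := by rw [sum_mul]
    _ ≤ _ := mul_le_mul_of_nonneg_right (TypeI.tw_l1 hφ d) h0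

namespace TypeI

lemma one_le_log {x : ℕ} (hx : 3 ≤ x) : 1 ≤ Real.log x := by
  have h3 : Real.exp 1 ≤ x := by
    have h4 := Real.exp_one_lt_d9
    have h5 : (3 : ℝ) ≤ x := by exact_mod_cast hx
    linarith
  exact (Real.le_log_iff_exp_le (by positivity)).mpr h3

end TypeI

end Pool.Agent.HL
end

section
/-! # Module VDiff2: the Type I part of `psiC`, mean square over all non trivial characters mod `k`

For a function `W` on `ZMod k` with Fourier transform `Ŵ t = ∑ W a e(t a / k)`, orthogonality and Parseval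
give `∑_{χ ≠ 1} |∑ χ(a) W(a)|² ≤ φ(k) ∑ |W(a) - mean|² ≤ ∑_{t ≠ 0} |Ŵ t|²` (`chars_le`). For
`W a = ∑_{d ≤ D, (d, k) = 1, d j ≡ a} w_d g(j)` and `t / k = b / r` in lowest terms, `r > 1`, the distance
of `d t / k` to the integers is `≥ 1 / r`, so `|Ŵ t| ≤ G W ∑_{d ≤ D} gm r (d b / r) ≤ 8 G W (D + r) (2 + log r)`
(`gm_block`). -/

namespace Pool.Agent.HL

open Finset Pool.Agent.BV
open scoped ArithmeticFunction.vonMangoldt ArithmeticFunction.Moebius

namespace VDiff2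

open Classical in
lemma chars_le (k : ℕ) [NeZero k] (W : ZMod k → ℂ) :
    ∑ χ ∈ (univ : Finset (DirichletCharacter ℂ k)).erase 1, ‖∑ a, χ a * W a‖ ^ 2 ≤
      ∑ t ∈ (univ : Finset (ZMod k)).erase 0, ‖∑ a, W a * ZMod.stdAddChar (t * a)‖ ^ 2 := by
  set c : ℂ := (∑ a, W a) / k with hc
  set W' : ZMod k → ℂ := fun a => W a - c with hW'
  have hk : (k : ℂ) ≠ 0 := by exact_mod_cast NeZero.ne k
  have h1 : ∀ χ ∈ (univ : Finset (DirichletCharacter ℂ k)).erase 1,
      ‖∑ a, χ a * W a‖ ^ 2 = ‖∑ a, χ a * W' a‖ ^ 2 := by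
    intro χ hχ
    have h0 : ∑ a, χ a = 0 := MulChar.sum_eq_zero_of_ne_one (ne_of_mem_erase hχ)
    simp only [hW', mul_sub, sum_sub_distrib, ← sum_mul, h0, zero_mul, sub_zero]
  have h2 : ∑ χ : DirichletCharacter ℂ k, ‖∑ a, χ a * W' a‖ ^ 2 =
      k.totient * ∑ u : (ZMod k)ˣ, ‖W' u‖ ^ 2 := by
    rw [← gaussLS_orth]
    exact (Equiv.sum_comp (Equiv.inv (DirichletCharacter ℂ k))
      (fun χ => ‖∑ c, χ c * W' c‖ ^ 2)).symm
  have h3 : ∑ u : (ZMod k)ˣ, ‖W' u‖ ^ 2 ≤ ∑ a : ZMod k, ‖W' a‖ ^ 2 := by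
    have := Finset.sum_map (univ : Finset (ZMod k)ˣ) ⟨Units.val, Units.val_injective⟩
      (fun c : ZMod k => ‖W' c‖ ^ 2)
    simp only [Function.Embedding.coeFn_mk] at this
    rw [← this]
    exact sum_le_sum_of_subset_of_nonneg (subset_univ _) (fun _ _ _ => by positivity)
  have h4 : ∀ t : ZMod k, t ≠ 0 → ∑ a, W' a * ZMod.stdAddChar (t * a) =
      ∑ a, W a * ZMod.stdAddChar (t * a) := by
    intro t ht
    have h0 : ∑ a : ZMod k, ZMod.stdAddChar (t * a) = 0 := by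
      have := AddChar.sum_mulShift t (ZMod.isPrimitive_stdAddChar k)
      rw [if_neg ht] at this
      simpa [mul_comm] using this
    simp only [hW', sub_mul, sum_sub_distrib, ← mul_sum, h0, mul_zero, sub_zero]
  have h5 : ∑ a, W' a * ZMod.stdAddChar ((0 : ZMod k) * a) = 0 := by
    simp only [zero_mul, AddChar.map_zero_eq_one, mul_one, hW', sum_sub_distrib, sum_const,
      card_univ, ZMod.card, nsmul_eq_mul, hc]
    field_simp
    ring
  have h6 := gaussLS_parseval W'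
  rw [← Finset.add_sum_erase univ _ (mem_univ (0 : ZMod k)), h5] at h6
  have h7 : (k.totient : ℝ) ≤ k := by exact_mod_cast Nat.totient_le k
  calc ∑ χ ∈ (univ : Finset (DirichletCharacter ℂ k)).erase 1, ‖∑ a, χ a * W a‖ ^ 2
      = ∑ χ ∈ (univ : Finset (DirichletCharacter ℂ k)).erase 1, ‖∑ a, χ a * W' a‖ ^ 2 :=
        sum_congr rfl h1
    _ ≤ ∑ χ : DirichletCharacter ℂ k, ‖∑ a, χ a * W' a‖ ^ 2 :=
        sum_le_sum_of_subset_of_nonneg (erase_subset _ _) (fun _ _ _ => by positivity)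
    _ = k.totient * ∑ u : (ZMod k)ˣ, ‖W' u‖ ^ 2 := h2
    _ ≤ k * ∑ a : ZMod k, ‖W' a‖ ^ 2 := mul_le_mul h7 h3 (by positivity) (Nat.cast_nonneg _)
    _ = ∑ t ∈ (univ : Finset (ZMod k)).erase 0, ‖∑ a, W' a * ZMod.stdAddChar (t * a)‖ ^ 2 := by
        rw [← h6]
        simp
    _ = _ := sum_congr rfl fun t ht => by rw [h4 t (ne_of_mem_erase ht)]

/-- the trivial twist -/
lemma tw_one : Tw 1 (fun _ => 1) where
  per := fun _ => rfl
  cop := fun n h => absurd (Nat.coprime_one_right n) h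
  l2 := by simp

lemma geom_Icc (n : ℕ) (β : ℝ) : ‖∑ j ∈ Icc 1 n, (1 : ℂ) * e (j * β)‖ ≤ 1 * gm ((n : ℝ) + 1) β := by
  have h := inner (le_refl 1) tw_one β 1 n
  simpa using h

lemma gm_le_gm {Y r β : ℝ} (h : 1 < 2 * r * |β - round β|) : gm Y β ≤ gm r β := by
  have hd : 0 < |β - round β| := by
    rcases (abs_nonneg (β - round β)).lt_or_eq with h1 | h1
    · exact h1
    · rw [← h1] at h
      norm_num at h
  unfold gm
  rw [if_neg (not_le.mpr h)]
  split_ifs with h2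
  · rw [le_div_iff₀ (by positivity)]
    linarith
  · exact le_rfl

end VDiff2

end Pool.Agent.HL
end

section
/-! # The fourth moment of character sums

`∑_{χ ≠ 1 mod k} |∑_{n ≤ N} χ(n)|⁴ ≤ C k^{1+δ} N²` for all `N`.

Primitive characters mod `r`, `N² ≤ r`: square and `mean_value`.  `N² > r`, `N ≤ r`: `χ(n)` is
`τ(χ̄)⁻¹ ∑_h χ̄(h) e(nh/r)`, the sum over `n` is at most `min (N, r/h)`; square, fold modulo `r`,
`mean_value`.  Then periodicity, then Möbius inversion for imprimitive characters. -/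

namespace Pool.Agent.HT

open Finset Pool.Agent.BV Pool.Agent.HL
open scoped ArithmeticFunction.Moebius

/-! ### imprimitive characters -/

/-- Möbius inversion -/
theorem imprim_sum {k : ℕ} [NeZero k] (χ : DirichletCharacter ℂ k) (N : ℕ) :
    ∑ n ∈ Icc 1 N, χ (n : ZMod k) = ∑ d ∈ k.divisors,
      ((μ d : ℤ) : ℂ) * χ.primitiveCharacter (d : ZMod χ.conductor) *
        ∑ m ∈ Icc 1 (N / d), χ.primitiveCharacter (m : ZMod χ.conductor) := by
  have hk : k ≠ 0 := NeZero.ne k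
  have h1 : ∀ n ∈ Icc 1 N, χ (n : ZMod k) = ∑ d ∈ k.divisors,
      if d ∣ n then ((μ d : ℤ) : ℂ) * χ.primitiveCharacter (n : ZMod χ.conductor) else 0 := by
    intro n hn
    rw [← sum_filter, ← sum_mul]
    have e1 : k.divisors.filter (fun d => d ∣ n) = (n.gcd k).divisors := by
      ext d
      rw [mem_filter, Nat.mem_divisors, Nat.mem_divisors]
      constructor
      · rintro ⟨⟨h2, _⟩, h3⟩
        exact ⟨Nat.dvd_gcd h3 h2, Nat.gcd_ne_zero_right hk⟩
      · rintro ⟨h2, _⟩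
        exact ⟨⟨h2.trans (Nat.gcd_dvd_right n k), hk⟩, h2.trans (Nat.gcd_dvd_left n k)⟩
    rw [e1, Ram.mu_sum]
    by_cases hc : n.Coprime k
    · have h2 : IsCoprime (n : ℤ) (k : ℤ) := Nat.isCoprime_iff_coprime.2 hc
      have h3 := DirichletCharacter.primitiveCharacter_apply_of_isCoprime χ h2
      push_cast at h3
      rw [if_pos hc, one_mul, h3]
    · rw [if_neg hc, zero_mul]
      apply MulChar.map_nonunit
      rwa [ZMod.isUnit_iff_coprime]
  rw [sum_congr rfl h1, sum_comm]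
  refine sum_congr rfl fun d hd => ?_
  have hd0 : 0 < d := Nat.pos_of_mem_divisors hd
  rw [← sum_filter, mul_sum]
  symm
  refine sum_nbij' (fun m => d * m) (fun n => n / d) ?_ ?_ ?_ ?_ ?_
  · intro m hm
    rw [mem_Icc] at hm
    rw [mem_filter, mem_Icc]
    refine ⟨⟨Nat.mul_pos hd0 hm.1, ?_⟩, dvd_mul_right d m⟩
    calc d * m ≤ d * (N / d) := Nat.mul_le_mul_left d hm.2
      _ ≤ N := Nat.mul_div_le N d
  · intro n hn
    rw [mem_filter, mem_Icc] at hn
    rw [mem_Icc]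
    exact ⟨Nat.div_pos (Nat.le_of_dvd hn.1.1 hn.2) hd0, Nat.div_le_div_right hn.1.2⟩
  · intro m _
    exact Nat.mul_div_cancel_left m hd0
  · intro n hn
    rw [mem_filter] at hn
    exact Nat.mul_div_cancel' hn.2
  · intro m _
    push_cast
    rw [map_mul]
    ring

end Pool.Agent.HT
end

section
/-! # Module TMinor: the model on the minor arcs

`TM q Q n * φ n = (q/φ(q)) ∑_{t ≤ Q, (t,q)=1} μ(t)/φ(t) ∑_b e(n b/t) φ n` for all `n` (`φ` vanishes off the
integers coprime to `q`). Split `n` into the classes `a` mod `q`: the class sum is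
`≤ gm (x/q + 1) (q (b/t + α))` (`class_le`) and `∑_a ‖φ a‖ ≤ √q`.
If `q b/t + b'/s` is not an integer, its distance to the integers is `≥ 1/(s t)`, and
`|q α - b'/s| ≤ 1/(s S) ≤ 1/(2 s Q)`, so `gm ≤ s t ≤ S Q`; there are `φ(t)` values `b`, total `≤ S Q²`.
If it is an integer then `t = s` (both fractions are reduced) and `b` is unique: at most one term, with
weight `1/φ(s)`. -/

namespace Pool.Agent.HL

open Finset Pool.Agent.BV
open scoped ArithmeticFunction.Moebius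

theorem tmi_twist (x q : ℕ) (φ : ℕ → ℂ) (γ : ℝ) (hq : 1 ≤ q) (hφ : Tw q φ) :
    ‖∑ n ∈ Icc 1 x, φ n * e (n * γ)‖ ≤ Real.sqrt q * gm ((x : ℝ) / q + 1) (q * γ) := by
  have h1 : ∑ n ∈ Icc 1 x, φ n * e (n * γ) =
      ∑ a ∈ range q, φ a * ∑ n ∈ (Ioc 0 x).filter (fun n => n ≡ a [MOD q]), e (n * γ) := by
    rw [← Finset.sum_fiberwise_of_maps_to (s := Icc 1 x) (t := range q)
      (g := fun n => n % q) (fun n _ => mem_range.2 (Nat.mod_lt _ (by omega)))]
    refine Finset.sum_congr rfl fun a ha => ?_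
    rw [Finset.mul_sum]
    have ha' := mem_range.1 ha
    have hset : (Icc 1 x).filter (fun n => n % q = a) =
        (Ioc 0 x).filter (fun n => n ≡ a [MOD q]) := by
      ext n
      simp only [mem_filter, mem_Icc, mem_Ioc, Nat.ModEq, Nat.mod_eq_of_lt ha', Nat.succ_le_iff]
    rw [hset]
    refine Finset.sum_congr rfl fun n hn => ?_
    have h2 : n % q = a := by
      have := (mem_filter.1 hn).2
      rwa [Nat.ModEq, Nat.mod_eq_of_lt ha'] at this
    rw [hφ.per n, h2]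
  set G := gm ((x : ℝ) / q + 1) (q * γ) with hG
  have hG0 : 0 ≤ G := gm_nonneg (by positivity) _
  have h2 : ‖∑ n ∈ Icc 1 x, φ n * e (n * γ)‖ ≤ (∑ a ∈ range q, ‖φ a‖) * G := by
    rw [h1, Finset.sum_mul]
    refine (norm_sum_le _ _).trans (Finset.sum_le_sum fun a _ => ?_)
    rw [norm_mul]
    apply mul_le_mul_of_nonneg_left _ (norm_nonneg _)
    simpa using class_le q a 0 x hq γ
  refine h2.trans (mul_le_mul_of_nonneg_right ?_ hG0)
  apply Real.le_sqrt_of_sq_le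
  refine (sq_sum_le_card_mul_sum_sq).trans ?_
  rw [card_range]
  have h3 := hφ.l2
  have h4 : (0 : ℝ) ≤ q := Nat.cast_nonneg q
  nlinarith

/-- distance of a fraction which is not an integer to the nearest integer -/
theorem tmi_dist (k : ℤ) (t : ℕ) (ht : 1 ≤ t) (h : ¬ (t : ℤ) ∣ k) (m : ℤ) :
    1 / (t : ℝ) ≤ |(k : ℝ) / t - m| := by
  have ht' : (0 : ℝ) < t := by exact_mod_cast ht
  have h1 : (k : ℝ) / t - m = ((k - t * m : ℤ) : ℝ) / t := by
    push_cast
    field_simp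
  rw [h1, abs_div, abs_of_pos ht']
  apply div_le_div_of_nonneg_right _ ht'.le
  have h2 : k - t * m ≠ 0 := by
    intro h0
    exact h ⟨_, by linarith⟩
  exact_mod_cast Int.one_le_abs h2

/-- the diagonal case forces `t = s` -/
theorem tmi_diag (q s t : ℕ) (b : ℤ) (b' : ℕ) (hs : 1 ≤ s) (ht : 1 ≤ t) (htq : t.Coprime q)
    (hbt : b'.Coprime t) (hbs : IsCoprime b (s : ℤ))
    (h : ((s * t : ℕ) : ℤ) ∣ (q : ℤ) * b' * s + b * t) :
    t = s ∧ (s : ℤ) ∣ (q : ℤ) * b' + b := by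
  have hsd : (s : ℤ) ∣ (q : ℤ) * b' * s + b * t := by
    refine dvd_trans ?_ h
    push_cast
    exact dvd_mul_right _ _
  have htd : (t : ℤ) ∣ (q : ℤ) * b' * s + b * t := by
    refine dvd_trans ?_ h
    push_cast
    exact dvd_mul_left _ _
  have h1 : (s : ℤ) ∣ b * t := by
    have := dvd_sub hsd (dvd_mul_left (s : ℤ) ((q : ℤ) * b'))
    simpa using this
  have h2 : (s : ℤ) ∣ t := by
    exact hbs.symm.dvd_of_dvd_mul_left h1
  have h3 : (t : ℤ) ∣ (q : ℤ) * b' * s := by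
    have := dvd_sub htd (dvd_mul_left (t : ℤ) b)
    simpa using this
  have h4 : t ∣ q * b' * s := by exact_mod_cast h3
  have h5 : t ∣ s := by
    have h6 : t.Coprime (q * b') := htq.mul_right hbt.symm
    exact h6.dvd_of_dvd_mul_left h4
  have h7 : s ∣ t := by exact_mod_cast h2
  have h8 : t = s := Nat.dvd_antisymm h5 h7
  subst h8
  refine ⟨rfl, ?_⟩
  have h9 : ((t : ℤ) * t) ∣ t * ((q : ℤ) * b' + b) := by
    have : (t : ℤ) * ((q : ℤ) * b' + b) = (q : ℤ) * b' * t + b * t := by ring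
    rw [this]
    exact_mod_cast h
  exact (mul_dvd_mul_iff_left (by exact_mod_cast (by omega : t ≠ 0))).1 h9

end Pool.Agent.HL
end

section
/-! # Module TClass: the model in residue classes

All `n ≡ c` mod `q s` are coprime to `q`. Exchange the sums:
`∑_n TM q Q n = (q/φ(q)) ∑_{t ≤ Q, (t,q)=1} μ(t)/φ(t) ∑_{b mod t}^* ∑_{n ≤ y, n ≡ c (q s)} e(n b / t)`.
If `t ∤ s`: `q s b / t` is not an integer (`(t, q b) = 1`), so its distance to the integers is `≥ 1/t`
and the inner sum is `≤ t/2` (`class_le`, `gm_le_of_dist`). If `t ∣ s` (then `t ≤ s ≤ Q`): `e(n b/t) = e(c b/t)`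
on the class, and the number of `n` is `y/(q s) + O(1)`; main term by `ram_class_prod`, error
`≤ (q/φ(q)) ∑_{t ≤ Q} ‖ram t c‖/φ(t) ≤ (q/φ(q)) Q`. -/

namespace Pool.Agent.HL

open Finset Pool.Agent.BV
open scoped ArithmeticFunction.Moebius

/-- distance of a fraction which is not an integer to the nearest integer -/
theorem tcl_dist (k : ℤ) (t : ℕ) (ht : 1 ≤ t) (h : ¬ (t : ℤ) ∣ k) :
    1 / (t : ℝ) ≤ |(k : ℝ) / t - round ((k : ℝ) / t)| := by
  have ht' : (0 : ℝ) < t := by exact_mod_cast ht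
  have h1 : (k : ℝ) / t - round ((k : ℝ) / t) = ((k - t * round ((k : ℝ) / t) : ℤ) : ℝ) / t := by
    push_cast
    field_simp
  rw [h1, abs_div, abs_of_pos ht']
  apply div_le_div_of_nonneg_right _ ht'.le
  have h2 : k - t * round ((k : ℝ) / t) ≠ 0 := by
    intro h0
    exact h ⟨_, by linarith⟩
  exact_mod_cast Int.one_le_abs h2

/-- `ram` only depends on the class mod `t` -/
theorem tcl_ram_periodic (t n c : ℕ) (h : n ≡ c [MOD t]) : ram t n = ram t c := by
  unfold ram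
  refine Finset.sum_congr rfl fun b hb => ?_
  have hb1 : b < t := Finset.mem_range.1 (Finset.mem_filter.1 hb).1
  have ht : (0 : ℝ) < t := by
    have : 0 < t := by omega
    exact_mod_cast this
  obtain ⟨j, hj⟩ := (Nat.modEq_iff_dvd.1 h)
  have h1 : ((n : ℝ) * ((b : ℝ) / t)) = (c : ℝ) * ((b : ℝ) / t) - ((j * b : ℤ) : ℝ) := by
    have h2 : (c : ℝ) - n = t * j := by exact_mod_cast hj
    push_cast
    have h3 : (c : ℝ) = n + t * j := by linarith
    rw [h3]
    field_simp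
    ring
  rw [h1, add_e_sub_int]

/-- number of integers in a residue class -/
theorem tcl_count (r c y : ℕ) (hr : 1 ≤ r) :
    |((((Icc 1 y).filter (fun n => n ≡ c [MOD r])).card : ℕ) : ℝ) - (y : ℝ) / r| ≤ 1 := by
  have h1 : Icc 1 y = Ioc 0 y := by
    ext n; simp [Nat.succ_le_iff]
  rw [h1]
  have h2 := Nat.Ioc_filter_modEq_card 0 y (r := r) (by omega) c
  have hr' : (0 : ℝ) < r := by exact_mod_cast hr
  have hmono : ⌊(((0 : ℕ) : ℚ) - c) / (r : ℚ)⌋ ≤ ⌊((y : ℚ) - c) / (r : ℚ)⌋ := by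
    apply Int.floor_le_floor
    apply div_le_div_of_nonneg_right _ (by positivity)
    have : (0 : ℚ) ≤ (y : ℚ) := by positivity
    push_cast
    linarith
  rw [max_eq_left (by linarith)] at h2
  have h3 : ((((Ioc 0 y).filter (fun n => n ≡ c [MOD r])).card : ℕ) : ℝ) =
      ((⌊((y : ℚ) - c) / (r : ℚ)⌋ - ⌊(((0 : ℕ) : ℚ) - c) / (r : ℚ)⌋ : ℤ) : ℝ) := by
    exact_mod_cast h2
  rw [h3]
  have hA1 := Int.floor_le (((y : ℚ) - c) / (r : ℚ))
  have hA2 := Int.lt_floor_add_one (((y : ℚ) - c) / (r : ℚ))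
  have hB1 := Int.floor_le ((((0 : ℕ) : ℚ) - c) / (r : ℚ))
  have hB2 := Int.lt_floor_add_one ((((0 : ℕ) : ℚ) - c) / (r : ℚ))
  have hq : ((y : ℚ) - c) / (r : ℚ) - ((((0 : ℕ) : ℚ) - c) / (r : ℚ)) = (y : ℚ) / r := by
    push_cast; ring
  have hR : |((⌊((y : ℚ) - c) / (r : ℚ)⌋ - ⌊(((0 : ℕ) : ℚ) - c) / (r : ℚ)⌋ : ℤ) : ℚ) - (y : ℚ) / r| ≤ 1 := by
    rw [abs_le]
    push_cast at *
    constructor <;> linarith
  clear hA1 hA2 hB1 hB2 hq h3 hmono h2
  generalize ⌊((y : ℚ) - c) / (r : ℚ)⌋ - ⌊(((0 : ℕ) : ℚ) - c) / (r : ℚ)⌋ = Z at hR ⊢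
  have h8 : ((|((Z : ℤ) : ℚ) - (y : ℚ) / r| : ℚ) : ℝ) ≤ ((1 : ℚ) : ℝ) := by exact_mod_cast hR
  push_cast at h8
  exact h8

theorem tcl_off (q s c y t b : ℕ) (hq : 1 ≤ q) (hs : 1 ≤ s) (ht : 1 ≤ t) (htq : t.Coprime q)
    (hbt : b.Coprime t) (hts : ¬ t ∣ s) :
    ‖∑ n ∈ (Icc 1 y).filter (fun n => n ≡ c [MOD q * s]), e (n * ((b : ℝ) / t))‖ ≤ (t : ℝ) / 2 := by
  have h1 : Icc 1 y = Ioc 0 y := by
    ext n; simp [Nat.succ_le_iff]
  rw [h1]
  have ht' : (0 : ℝ) < t := by exact_mod_cast ht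
  refine (class_le (q * s) c 0 y (Nat.one_le_iff_ne_zero.2 (by positivity)) _).trans ?_
  have h2 : ((q * s : ℕ) : ℝ) * ((b : ℝ) / t) = (((q * s * b : ℕ) : ℤ) : ℝ) / t := by
    push_cast; ring
  rw [h2]
  have h3 : ¬ (t : ℤ) ∣ ((q * s * b : ℕ) : ℤ) := by
    intro h
    have h4 : t ∣ q * s * b := by exact_mod_cast h
    have h5 : t ∣ q * s := hbt.symm.dvd_of_dvd_mul_right h4
    exact hts (htq.dvd_of_dvd_mul_left h5)
  have h4 := tcl_dist _ t ht h3
  have h5 := gm_le_of_dist (Y := (((y - 0 : ℕ) : ℝ) / ((q * s : ℕ) : ℝ) + 1)) (by positivity)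
    (δ := 1 / (t : ℝ)) (by positivity) h4
  refine h5.trans (le_of_eq ?_)
  field_simp

theorem tcl_w (t : ℕ) (ht : 1 ≤ t) : ‖((μ t : ℤ) : ℂ) / (t.totient : ℂ)‖ ≤ 1 / (t.totient : ℝ) := by
  have h0 : (0 : ℝ) < t.totient := by exact_mod_cast Nat.totient_pos.2 ht
  rw [norm_div]
  have h1 : ‖((μ t : ℤ) : ℂ)‖ ≤ 1 := by
    rw [Complex.norm_intCast]
    exact_mod_cast ArithmeticFunction.abs_moebius_le_one
  have h2 : ‖(t.totient : ℂ)‖ = (t.totient : ℝ) := by simp
  rw [h2]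
  exact div_le_div_of_nonneg_right h1 h0.le

theorem T_class (q Q s c y : ℕ) (hq : 1 ≤ q) (hs : 1 ≤ s) (hsQ : s ≤ Q) (hc : c.Coprime q) :
    ‖∑ n ∈ (Icc 1 y).filter (fun n => n ≡ c [MOD q * s]), TM q Q n -
        (if c.Coprime (q * s) then (y : ℂ) / ((q * s).totient : ℂ) else 0)‖ ≤
      4 * ((q : ℝ) / q.totient) * (Q : ℝ) ^ 2 := by
  set K : ℂ := (q : ℂ) / (q.totient : ℂ) with hK
  have hφ : (0 : ℝ) < q.totient := by exact_mod_cast Nat.totient_pos.2 hq
  have hKn : ‖K‖ = (q : ℝ) / q.totient := by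
    rw [hK, norm_div]; simp
  have hQ : 1 ≤ Q := le_trans hs hsQ
  have hQ' : (1 : ℝ) ≤ Q := by exact_mod_cast hQ
  set C := (Icc 1 y).filter (fun n => n ≡ c [MOD q * s]) with hC
  have hmemq : ∀ n ∈ C, n.Coprime q := by
    intro n hn
    have h1 : n ≡ c [MOD q * s] := (Finset.mem_filter.1 hn).2
    have h2 : n ≡ c [MOD q] := h1.of_mul_right s
    have h3 := h2.gcd_eq
    rw [Nat.Coprime, h3]; exact hc
  set A : ℕ → ℂ := fun t => ∑ n ∈ C, ram t n with hA
  have hsum : ∑ n ∈ C, TM q Q n =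
      K * ∑ t ∈ (Icc 1 Q).filter (fun t => t.Coprime q),
        ((μ t : ℤ) : ℂ) / (t.totient : ℂ) * A t := by
    rw [Finset.mul_sum]
    rw [hA]
    simp only [Finset.mul_sum]
    rw [Finset.sum_comm]
    refine Finset.sum_congr rfl fun n hn => ?_
    unfold TM
    rw [if_pos (hmemq n hn), Finset.mul_sum]
  set D := s.divisors.filter (fun t => t.Coprime q) with hD
  have hDsub : D ⊆ (Icc 1 Q).filter (fun t => t.Coprime q) := by
    intro t ht
    rw [hD, Finset.mem_filter, Nat.mem_divisors] at ht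
    rw [Finset.mem_filter, Finset.mem_Icc]
    exact ⟨⟨Nat.pos_of_dvd_of_pos ht.1.1 hs, (Nat.le_of_dvd hs ht.1.1).trans hsQ⟩, ht.2⟩
  rw [hsum, ← Finset.sum_sdiff hDsub, mul_add]
  set N : ℕ := C.card with hN
  have hdiag : ∀ t ∈ D, A t = (N : ℂ) * ram t c := by
    intro t ht
    rw [hD, Finset.mem_filter, Nat.mem_divisors] at ht
    rw [hA]
    simp only
    rw [Finset.sum_congr rfl (fun n hn => tcl_ram_periodic t n c
      (((Finset.mem_filter.1 hn).2).of_dvd (ht.1.1.trans (dvd_mul_left s q))))]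
    rw [Finset.sum_const, nsmul_eq_mul]
  set G : ℂ := K * ∑ t ∈ D, ((μ t : ℤ) : ℂ) / (t.totient : ℂ) * ram t c with hG
  have hG1 : G = if c.Coprime (q * s) then ((q * s : ℕ) : ℂ) / ((q * s).totient : ℂ) else 0 :=
    ram_class_prod q s c hq hs hc
  have hmain : K * ∑ t ∈ D, ((μ t : ℤ) : ℂ) / (t.totient : ℂ) * A t = (N : ℂ) * G := by
    rw [hG, Finset.mul_sum, Finset.mul_sum, Finset.mul_sum]
    refine Finset.sum_congr rfl fun t ht => ?_
    rw [hdiag t ht]; ring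
  rw [hmain]
  have hqs : (0 : ℝ) < ((q * s : ℕ) : ℝ) := by
    have : 0 < q * s := Nat.mul_pos hq hs
    exact_mod_cast this
  have hqsC : ((q * s : ℕ) : ℂ) ≠ 0 := by
    have : q * s ≠ 0 := (Nat.mul_pos hq hs).ne'
    exact_mod_cast this
  have htarget : (if c.Coprime (q * s) then (y : ℂ) / ((q * s).totient : ℂ) else 0) =
      ((y : ℂ) / ((q * s : ℕ) : ℂ)) * G := by
    rw [hG1]
    split_ifs
    · field_simp
    · simp
  rw [htarget]
  have hGn : ‖G‖ ≤ ‖K‖ * Q := by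
    rw [hG, norm_mul]
    apply mul_le_mul_of_nonneg_left _ (norm_nonneg _)
    refine (norm_sum_le _ _).trans ?_
    have h1 : ∀ t ∈ D, ‖((μ t : ℤ) : ℂ) / (t.totient : ℂ) * ram t c‖ ≤ 1 := by
      intro t ht
      have ht1 := (Finset.mem_Icc.1 (Finset.mem_filter.1 (hDsub ht)).1).1
      have h0 : (0 : ℝ) < t.totient := by exact_mod_cast Nat.totient_pos.2 ht1
      rw [norm_mul]
      calc _ ≤ 1 / (t.totient : ℝ) * t.totient :=
            mul_le_mul (tcl_w t ht1) (ram_norm_le t c) (norm_nonneg _) (by positivity)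
        _ = 1 := by field_simp
    refine (Finset.sum_le_sum h1).trans ?_
    rw [Finset.sum_const, nsmul_eq_mul, mul_one]
    have h2 : D.card ≤ Q := by
      refine (Finset.card_le_card hDsub).trans ((Finset.card_filter_le _ _).trans ?_)
      simp
    exact_mod_cast h2
  have hoff : ‖K * ∑ t ∈ (Icc 1 Q).filter (fun t => t.Coprime q) \ D,
      ((μ t : ℤ) : ℂ) / (t.totient : ℂ) * A t‖ ≤ ‖K‖ * (Q * (Q / 2)) := by
    rw [norm_mul]
    apply mul_le_mul_of_nonneg_left _ (norm_nonneg _)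
    refine (norm_sum_le _ _).trans ?_
    have h1 : ∀ t ∈ (Icc 1 Q).filter (fun t => t.Coprime q) \ D,
        ‖((μ t : ℤ) : ℂ) / (t.totient : ℂ) * A t‖ ≤ (Q : ℝ) / 2 := by
      intro t ht
      rw [Finset.mem_sdiff, Finset.mem_filter, Finset.mem_Icc] at ht
      obtain ⟨⟨⟨ht1, htQ⟩, htq⟩, htD⟩ := ht
      have hts : ¬ t ∣ s := by
        intro h
        apply htD
        rw [hD, Finset.mem_filter, Nat.mem_divisors]
        exact ⟨⟨h, by omega⟩, htq⟩
      have h0 : (0 : ℝ) < t.totient := by exact_mod_cast Nat.totient_pos.2 ht1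
      have hAt : ‖A t‖ ≤ t.totient * ((t : ℝ) / 2) := by
        have h2 : A t = ∑ b ∈ (range t).filter (fun b => b.Coprime t),
            ∑ n ∈ C, e (n * ((b : ℝ) / t)) := by
          rw [hA]
          simp only
          unfold ram
          rw [Finset.sum_comm]
        rw [h2]
        refine (norm_sum_le _ _).trans ?_
        refine (Finset.sum_le_sum (fun b hb => tcl_off q s c y t b hq hs ht1 htq
          (Finset.mem_filter.1 hb).2 hts)).trans ?_
        rw [Finset.sum_const, nsmul_eq_mul]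
        apply mul_le_mul_of_nonneg_right _ (by positivity)
        have h3 : ((range t).filter (fun b => b.Coprime t)).card = t.totient := by
          unfold Nat.totient
          congr 1
          ext b
          simp [Nat.coprime_comm]
        rw [h3]
      rw [norm_mul]
      calc _ ≤ 1 / (t.totient : ℝ) * (t.totient * ((t : ℝ) / 2)) :=
            mul_le_mul (tcl_w t ht1) hAt (norm_nonneg _) (by positivity)
        _ = (t : ℝ) / 2 := by field_simp
        _ ≤ (Q : ℝ) / 2 := by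
            have : (t : ℝ) ≤ Q := by exact_mod_cast htQ
            linarith
    refine (Finset.sum_le_sum h1).trans ?_
    rw [Finset.sum_const, nsmul_eq_mul]
    apply mul_le_mul_of_nonneg_right _ (by positivity)
    have h2 : ((Icc 1 Q).filter (fun t => t.Coprime q) \ D).card ≤ Q := by
      refine (Finset.card_le_card Finset.sdiff_subset).trans ((Finset.card_filter_le _ _).trans ?_)
      simp
    exact_mod_cast h2
  have hcnt : ‖(N : ℂ) - (y : ℂ) / ((q * s : ℕ) : ℂ)‖ ≤ 1 := by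
    have h1 := tcl_count (q * s) c y (Nat.mul_pos hq hs)
    have h2 : (N : ℂ) - (y : ℂ) / ((q * s : ℕ) : ℂ) =
        (((N : ℝ) - (y : ℝ) / ((q * s : ℕ) : ℝ) : ℝ) : ℂ) := by push_cast; ring
    rw [h2, Complex.norm_real]
    exact h1
  have hfin : ∀ E : ℂ, ‖E‖ ≤ ‖K‖ * (Q * (Q / 2)) →
      ‖E + (N : ℂ) * G - ((y : ℂ) / ((q * s : ℕ) : ℂ)) * G‖ ≤
        ‖K‖ * (Q * (Q / 2)) + 1 * (‖K‖ * Q) := by
    intro E hE
    have h1 : E + (N : ℂ) * G - ((y : ℂ) / ((q * s : ℕ) : ℂ)) * G =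
        E + ((N : ℂ) - (y : ℂ) / ((q * s : ℕ) : ℂ)) * G := by ring
    rw [h1]
    refine (norm_add_le _ _).trans (add_le_add hE ?_)
    rw [norm_mul]
    exact mul_le_mul hcnt hGn (norm_nonneg _) zero_le_one
  refine (hfin _ hoff).trans ?_
  rw [← hKn]
  have hK0 := norm_nonneg K
  nlinarith [mul_nonneg hK0 (mul_nonneg (by linarith : (0 : ℝ) ≤ Q) (by linarith : (0 : ℝ) ≤ (Q : ℝ) - 1)),
    mul_nonneg hK0 (by positivity : (0 : ℝ) ≤ (Q : ℝ) ^ 2)]

end Pool.Agent.HL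
end

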