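import Pool.Agent.Work.GBM.C08

section
/-! # Module GSum: sums of `(∑_{d ≤ D} min (x/d, 1/(2 ‖d β‖)))²` over `β = α + h/q`, `h < q`

`Gs_le`: pointwise bound at a point close to `a/r`. `fiber_bound`, `hsum_le`: the sum over `h` of the
squares of `min (x, 1/(2κ))/r`. `GG_sq_sum`: the result. -/

namespace Pool.Agent.HL

open Finset Pool.Agent.BV

/-- `min (x, 1/(2κ))` -/
noncomputable def mm (x κ : ℝ) : ℝ := if 2 * x * κ ≤ 1 then x else 1 / (2 * κ)

theorem mm_pos_of {x κ : ℝ} (hκ : 0 ≤ κ) (h : ¬ 2 * x * κ ≤ 1) : 0 < κ := by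
  rcases hκ.lt_or_eq with h1 | h1
  · exact h1
  · exfalso
    apply h
    rw [← h1]
    norm_num

theorem mm_nonneg {x κ : ℝ} (hx : 0 ≤ x) (hκ : 0 ≤ κ) : 0 ≤ mm x κ := by
  unfold mm
  split_ifs
  · exact hx
  · positivity

theorem mm_le {x κ : ℝ} (hκ : 0 ≤ κ) : mm x κ ≤ x := by
  unfold mm
  split_ifs with h1
  · exact le_rfl
  · have h3 : 0 < κ := mm_pos_of hκ h1
    rw [div_le_iff₀ (by positivity)]
    linarith

theorem mm_le_inv {x κ δ : ℝ} (hδ : 0 < δ) (h : δ ≤ κ) : mm x κ ≤ 1 / (2 * δ) := by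
  have h0 : 0 < κ := hδ.trans_le h
  have h2 : 1 / (2 * κ) ≤ 1 / (2 * δ) := by
    apply one_div_le_one_div_of_le (by positivity)
    linarith
  unfold mm
  split_ifs with h1
  · refine le_trans ?_ h2
    rw [le_div_iff₀ (by positivity)]
    linarith
  · exact h2

theorem mm_sq_le {x κ : ℝ} (hx : 0 ≤ x) (hκ : 0 ≤ κ) : mm x κ ^ 2 ≤ x ^ 2 :=
  pow_le_pow_left₀ (mm_nonneg hx hκ) (mm_le hκ) 2

theorem mm_sq_le_inv {x κ δ : ℝ} (hx : 0 ≤ x) (hδ : 0 < δ) (h : δ ≤ κ) :
    mm x κ ^ 2 ≤ x / (2 * δ) := by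
  have h0 : 0 ≤ κ := hδ.le.trans h
  have h1 := mm_le (x := x) h0
  have h2 := mm_le_inv (x := x) hδ h
  have h3 := mm_nonneg hx h0
  calc mm x κ ^ 2 = mm x κ * mm x κ := by ring
    _ ≤ x * (1 / (2 * δ)) := mul_le_mul h1 h2 h3 hx
    _ = _ := by ring

theorem gm_eq_mm (Y β : ℝ) : gm Y β = mm Y |β - round β| := rfl

theorem mm_scale (x κ : ℝ) {d : ℝ} (hd : 0 < d) : mm (x / d) (d * κ) = mm x κ / d := by
  unfold mm
  have h1 : 2 * (x / d) * (d * κ) = 2 * x * κ := by field_simp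
  rw [h1]
  split_ifs
  · rfl
  · rw [div_div]
    congr 1
    ring

theorem gs_harm (n : ℕ) : ∑ i ∈ Icc 1 n, 1 / (i : ℝ) ≤ 1 + Real.log n := by
  have h := Pool.Agent.Work.BV.sum_inv_le n
  have : Icc 1 n = Ioc 0 n := by
    ext k; simp only [mem_Icc, mem_Ioc]; omega
  rw [this]
  exact h

theorem dist_eq_of_le {θ : ℝ} (h : |θ| ≤ 1 / 2) : |θ - round θ| = |θ| := by
  apply le_antisymm
  · have := round_le θ 0
    simpa using this
  · rcases eq_or_ne (round θ) 0 with h0 | h0
    · rw [h0]; simp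
    · have h1 : (1 : ℝ) ≤ |((round θ : ℤ) : ℝ)| := by
        rw [← Int.cast_abs]
        exact_mod_cast Int.one_le_abs h0
      have h2 : |((round θ : ℤ) : ℝ)| ≤ |θ| + |θ - round θ| := by
        have h3 : ((round θ : ℤ) : ℝ) = θ - (θ - round θ) := by ring
        calc |((round θ : ℤ) : ℝ)| = |θ - (θ - round θ)| := by rw [← h3]
          _ ≤ |θ| + |θ - round θ| := abs_sub _ _
      linarith

/-- the pointwise bound -/
theorem Gs_le (x : ℝ) (D R : ℕ) (β : ℝ) (a : ℤ) (r : ℕ) (hx : 0 ≤ x) (hr : 1 ≤ r) (hrR : r ≤ R)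
    (har : IsCoprime a (r : ℤ)) (hR : 2 * D ≤ R) (hβ : |β - a / r| ≤ 1 / (r * R)) :
    ∑ d ∈ Icc 1 D, gm (x / d) (β * d) ≤
      (1 + Real.log D) * (mm x |β - a / r| / r) + 8 * (D + R) * (2 + Real.log R) := by
  set κ : ℝ := |β - a / r| with hκ
  have hr0 : (0 : ℝ) < r := by exact_mod_cast hr
  have hR0 : (0 : ℝ) < R := by exact_mod_cast (hr.trans hrR)
  have hκ0 : 0 ≤ κ := abs_nonneg _
  have hDR : 2 * (D : ℝ) ≤ R := by exact_mod_cast hR
  have hdκ : ∀ d ∈ Icc 1 D, (d : ℝ) * κ ≤ 1 / (2 * r) := by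
    intro d hd
    have h1 : (d : ℝ) ≤ D := by exact_mod_cast (mem_Icc.1 hd).2
    calc (d : ℝ) * κ ≤ D * (1 / (r * R)) := by gcongr
      _ = (2 * D) / (2 * (r * R)) := by field_simp
      _ ≤ R / (2 * (r * R)) := by gcongr
      _ = 1 / (2 * r) := by field_simp
  rw [← sum_filter_add_sum_filter_not (Icc 1 D) (fun d => r ∣ d)]
  apply add_le_add
  · -- multiples of r
    have h1 : ∀ d ∈ (Icc 1 D).filter (fun d => r ∣ d), gm (x / d) (β * d) ≤ mm x κ * (1 / d) := by
      intro d hd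
      rw [mem_filter] at hd
      have hd1 := mem_Icc.1 hd.1
      have hd0 : (0 : ℝ) < d := by exact_mod_cast hd1.1
      obtain ⟨m, hm⟩ := hd.2
      have e1 : β * d = (β - a / r) * d + ((a * m : ℤ) : ℝ) := by
        rw [hm]; push_cast; field_simp; ring
      rw [e1, gm_add_int, gm_eq_mm]
      have h2 : |(β - a / r) * d| = d * κ := by
        rw [abs_mul, abs_of_pos hd0, mul_comm]
      have h3 : |(β - a / r) * d| ≤ 1 / 2 := by
        rw [h2]
        refine (hdκ d hd.1).trans ?_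
        apply one_div_le_one_div_of_le (by norm_num)
        have : (1 : ℝ) ≤ r := by exact_mod_cast hr
        linarith
      rw [dist_eq_of_le h3, h2, mm_scale x κ hd0]
      apply le_of_eq
      ring
    refine (sum_le_sum h1).trans ?_
    rw [← mul_sum]
    have h4 : ∑ d ∈ (Icc 1 D).filter (fun d => r ∣ d), 1 / (d : ℝ) ≤ (1 + Real.log D) / r := by
      have e2 : (Icc 1 D).filter (fun d => r ∣ d) ⊆ (Icc 1 (D / r)).image (fun m => r * m) := by
        intro d hd
        rw [mem_filter] at hd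
        obtain ⟨m, hm⟩ := hd.2
        have hd1 := mem_Icc.1 hd.1
        rw [mem_image]
        refine ⟨m, ?_, hm.symm⟩
        rw [mem_Icc]
        constructor
        · rcases Nat.eq_zero_or_pos m with h | h
          · rw [h] at hm; omega
          · exact h
        · rw [Nat.le_div_iff_mul_le (by omega), mul_comm]
          omega
      refine (sum_le_sum_of_subset_of_nonneg e2 (fun _ _ _ => by positivity)).trans ?_
      rw [sum_image (by
        intro i _ j _ hij
        exact Nat.eq_of_mul_eq_mul_left hr hij)]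
      have e3 : ∀ m ∈ Icc 1 (D / r), 1 / ((r * m : ℕ) : ℝ) = (1 / r) * (1 / (m : ℝ)) := by
        intro m _
        push_cast
        rw [one_div_mul_one_div]
      rw [sum_congr rfl e3, ← mul_sum]
      have h5 := gs_harm (D / r)
      have h6 : Real.log ((D / r : ℕ) : ℝ) ≤ Real.log D := by
        rcases Nat.eq_zero_or_pos (D / r) with h | h
        · rw [h]; simp [Real.log_natCast_nonneg]
        · apply Real.log_le_log (by exact_mod_cast h)
          exact_mod_cast Nat.div_le_self D r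
      calc (1 / r : ℝ) * ∑ m ∈ Icc 1 (D / r), 1 / (m : ℝ) ≤ (1 / r) * (1 + Real.log D) := by
            apply mul_le_mul_of_nonneg_left _ (by positivity)
            linarith
        _ = _ := by ring
    calc mm x κ * ∑ d ∈ (Icc 1 D).filter (fun d => r ∣ d), 1 / (d : ℝ)
        ≤ mm x κ * ((1 + Real.log D) / r) := mul_le_mul_of_nonneg_left h4 (mm_nonneg hx hκ0)
      _ = _ := by ring
  · -- the others
    have h1 : ∀ d ∈ (Icc 1 D).filter (fun d => ¬ r ∣ d), gm (x / d) (β * d) ≤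
        gm r (β * d + 0) := by
      intro d hd
      rw [mem_filter] at hd
      have hd1 := mem_Icc.1 hd.1
      have hd0 : (0 : ℝ) < d := by exact_mod_cast hd1.1
      set δ : ℝ := |β * d - round (β * d)| with hδ
      have h2 : 1 / (2 * r) ≤ δ := by
        set n : ℤ := round (β * d) with hn
        have h3 : (a * d - n * r : ℤ) ≠ 0 := by
          intro h
          apply hd.2
          have h4 : (r : ℤ) ∣ a * d := ⟨n, by linarith⟩
          have h5 : (r : ℤ) ∣ (d : ℤ) := har.symm.dvd_of_dvd_mul_left h4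
          exact_mod_cast h5
        have h4 : (1 : ℝ) ≤ |((a * d - n * r : ℤ) : ℝ)| := by
          rw [← Int.cast_abs]
          exact_mod_cast Int.one_le_abs h3
        have h5 : ((a * d - n * r : ℤ) : ℝ) = r * ((β * d - n) - (β - a / r) * d) := by
          push_cast
          field_simp
          ring
        rw [h5, abs_mul, abs_of_pos hr0] at h4
        have h6 : |(β * d - n) - (β - a / r) * d| ≤ δ + d * κ := by
          refine (abs_sub _ _).trans ?_
          rw [abs_mul, abs_of_pos hd0, mul_comm κ]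
        have h7 := hdκ d hd.1
        have h8 : 1 ≤ r * (δ + 1 / (2 * r)) := by
          refine h4.trans ?_
          apply mul_le_mul_of_nonneg_left _ hr0.le
          linarith
        rw [mul_add] at h8
        have h9 : (r : ℝ) * (1 / (2 * r)) = 1 / 2 := by field_simp
        rw [h9] at h8
        rw [div_le_iff₀ (by positivity)]
        linarith
      have hδ0 : 0 < δ := lt_of_lt_of_le (by positivity) h2
      rw [add_zero]
      have h3 : gm (x / d) (β * d) ≤ 1 / (2 * δ) :=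
        gm_le_of_dist (by positivity) hδ0 le_rfl
      refine h3.trans ?_
      unfold gm
      rw [← hδ]
      split_ifs with h4
      · rw [div_le_iff₀ (by positivity)]
        rw [div_le_iff₀ (by positivity)] at h2
        linarith
      · exact le_rfl
    refine (sum_le_sum h1).trans ?_
    have h2 : ∑ d ∈ (Icc 1 D).filter (fun d => ¬ r ∣ d), gm r (β * d + 0) ≤
        ∑ d ∈ Ioc 0 (0 + D), gm r (β * d + 0) := by
      apply sum_le_sum_of_subset_of_nonneg
      · intro d hd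
        rw [mem_filter, mem_Icc] at hd
        rw [mem_Ioc]
        omega
      · intro d _ _
        exact gm_nonneg hr0.le _
    refine h2.trans ?_
    have hβ2 : |β - a / r| ≤ 1 / (r : ℝ) ^ 2 := by
      refine hβ.trans ?_
      apply one_div_le_one_div_of_le (by positivity)
      have : (r : ℝ) ≤ R := by exact_mod_cast hrR
      nlinarith
    refine (gm_block β 0 a r hr har hβ2 0 D r hr0.le).trans ?_
    have h3 : (r : ℝ) ≤ R := by exact_mod_cast hrR
    have h4 : Real.log r ≤ Real.log R := Real.log_le_log hr0 h3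
    have h5 : 0 ≤ Real.log r := Real.log_natCast_nonneg r
    calc 8 * ((D : ℝ) / r + 1) * (r + r * (1 + Real.log r)) = 8 * (D + r) * (2 + Real.log r) := by
          field_simp
          ring
      _ ≤ 8 * (D + R) * (2 + Real.log R) := by gcongr

/-- tail of `∑ 1/r²` -/
theorem gs_tail (s R : ℕ) (hs : 1 ≤ s) :
    ∑ r ∈ Icc 1 R, (if s < 2 * r then (1 / (r : ℝ) ^ 2 : ℝ) else 0) ≤ 4 / (s : ℝ) := by
  rw [← sum_filter]
  have h1 : (Icc 1 R).filter (fun r => s < 2 * r) ⊆ Ioo (s / 2) (R + 1) := by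
    intro r hr
    rw [mem_filter, mem_Icc] at hr
    rw [mem_Ioo]
    omega
  refine (sum_le_sum_of_subset_of_nonneg h1 (fun _ _ _ => by positivity)).trans ?_
  have h2 := sum_Ioo_inv_sq_le (α := ℝ) (s / 2) (R + 1)
  have h3 : ∑ i ∈ Ioo (s / 2) (R + 1), 1 / (i : ℝ) ^ 2 =
      ∑ i ∈ Ioo (s / 2) (R + 1), ((i : ℝ) ^ 2)⁻¹ := by
    apply sum_congr rfl
    intro i _
    rw [one_div]
  rw [h3]
  refine h2.trans ?_
  have h4 : (s : ℝ) ≤ 2 * (((s / 2 : ℕ) : ℝ) + 1) := by
    have : s ≤ 2 * (s / 2 + 1) := by omega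
    exact_mod_cast this
  have hs0 : (0 : ℝ) < s := by exact_mod_cast hs
  rw [div_le_div_iff₀ (by positivity) hs0]
  linarith

/-- the sum over the `h` with `gcd (q, r_h) = g`, `r_h = g r'` -/
theorem fiber_bound (x : ℝ) (q' g r' s R : ℕ) (α : ℝ) (b : ℤ) (hx : 0 ≤ x) (hq : 1 ≤ q')
    (hg : 1 ≤ g) (hr : 1 ≤ r') (hs : 1 ≤ s) (hbs : IsCoprime b (s : ℤ))
    (hα : |((g * q' : ℕ) : ℝ) * α - b / s| ≤ 1 / (s : ℝ) ^ 2) (hcop : q'.Coprime r')
    (ρ : ℕ → ℚ) (H : Finset ℕ) (hH : ∀ h ∈ H, h < g * q') (hden : ∀ h ∈ H, (ρ h).den = g * r')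
    (hρ : ∀ h ∈ H, |α + (h : ℝ) / ((g * q' : ℕ) : ℝ) - ((ρ h : ℚ) : ℝ)| ≤
      1 / ((R + 1) * ((ρ h).den : ℝ))) :
    ∑ h ∈ H, (mm x |α + (h : ℝ) / ((g * q' : ℕ) : ℝ) - ((ρ h : ℚ) : ℝ)| / ((ρ h).den : ℝ)) ^ 2 ≤
      2 / g * (x ^ 2 * (if s < 2 * r' then 1 / (r' : ℝ) ^ 2 else 0) +
        x * ((g * q' : ℕ) : ℝ) * (s + 1 + Real.log ((g * q' : ℕ) : ℝ)) * (1 / r')) := by
  classical
  set q : ℕ := g * q' with hqdef
  have hg0 : (0 : ℝ) < g := by exact_mod_cast hg
  have hq'0 : (0 : ℝ) < q' := by exact_mod_cast hq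
  have hr0 : (0 : ℝ) < r' := by exact_mod_cast hr
  have hs0 : (0 : ℝ) < s := by exact_mod_cast hs
  have hq1 : 1 ≤ q := Nat.mul_pos hg hq
  have hq0 : (0 : ℝ) < q := by exact_mod_cast hq1
  have hqe : (q : ℝ) = g * q' := by rw [hqdef]; push_cast; ring
  set A : ℕ → ℤ := fun h => (q' : ℤ) * (ρ h).num - h * r' with hA
  set t : ℝ := r' * (q * α) with ht
  set A0 : ℤ := round t with hA0
  set Φ : ℤ → ℝ := fun A => (mm x (|t - A| / (q * r')) / (g * r')) ^ 2 with hΦ
  have hΦ0 : ∀ a, 0 ≤ Φ a := fun a => sq_nonneg _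
  -- the distance
  have hκ : ∀ h ∈ H, |α + (h : ℝ) / q - ((ρ h : ℚ) : ℝ)| = |t - A h| / (q * r') := by
    intro h hh
    have e1 : ((ρ h : ℚ) : ℝ) = ((ρ h).num : ℝ) / (g * r') := by
      have e2 : ((ρ h : ℚ) : ℝ) = ((ρ h).num : ℝ) / ((ρ h).den : ℝ) := by
        exact_mod_cast (Rat.num_div_den (ρ h)).symm
      rw [e2, hden h hh]
      push_cast
      rfl
    have e3 : t - A h = (α + (h : ℝ) / q - ((ρ h : ℚ) : ℝ)) * (q * r') := by
      rw [e1, hA, ht, hqe]
      push_cast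
      field_simp
      ring
    rw [e3, abs_mul, abs_of_pos (show (0 : ℝ) < q * r' by positivity)]
    field_simp
  have hF : ∀ h ∈ H, (mm x |α + (h : ℝ) / q - ((ρ h : ℚ) : ℝ)| / ((ρ h).den : ℝ)) ^ 2 =
      Φ (A h) := by
    intro h hh
    rw [hκ h hh, hden h hh, hΦ]
    push_cast
    rfl
  rw [sum_congr rfl hF, sum_comp Φ A]
  -- the fibres
  have hfib : ∀ a ∈ H.image A, ((H.filter (fun h => A h = a)).card : ℝ) ≤ g := by
    intro a _
    have h1 : (H.filter (fun h => A h = a)).card ≤ (range g).card := by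
      refine card_le_card_of_injOn (fun h => h / q') ?_ ?_
      · intro h hh
        have hh' := mem_filter.1 (mem_coe.1 hh)
        have h2 := hH h hh'.1
        simp only [coe_range, Set.mem_Iio]
        rw [Nat.div_lt_iff_lt_mul (by omega)]
        rw [hqdef] at h2
        exact h2
      · intro h1 hh1 h2 hh2 h12
        have hh1' := (mem_filter.1 (mem_coe.1 hh1)).2
        have hh2' := (mem_filter.1 (mem_coe.1 hh2)).2
        simp only at h12
        have e1 : (q' : ℤ) ∣ ((h1 : ℤ) - h2) * r' := by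
          refine ⟨(ρ h1).num - (ρ h2).num, ?_⟩
          have : A h1 = A h2 := hh1'.trans hh2'.symm
          simp only [hA] at this
          linarith
        have e2 : IsCoprime (q' : ℤ) (r' : ℤ) := Nat.isCoprime_iff_coprime.2 hcop
        have e3 : (q' : ℤ) ∣ (h1 : ℤ) - h2 := e2.dvd_of_dvd_mul_right e1
        have e4 : h1 % q' = h2 % q' := by
          exact ((Nat.modEq_iff_dvd.2 e3 : h2 ≡ h1 [MOD q'])).symm
        have e6 := Nat.div_add_mod h1 q'
        have e7 := Nat.div_add_mod h2 q'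
        rw [h12, e4] at e6
        omega
    rw [card_range] at h1
    exact_mod_cast h1
  have h1 : ∑ a ∈ H.image A, (H.filter (fun h => A h = a)).card • Φ a ≤
      g * ∑ a ∈ H.image A, Φ a := by
    rw [mul_sum]
    apply sum_le_sum
    intro a ha
    rw [nsmul_eq_mul]
    exact mul_le_mul_of_nonneg_right (hfib a ha) (hΦ0 a)
  refine h1.trans ?_
  -- the bound for one a
  set G : ℕ → ℝ := fun k => if k = 0 then
      (x ^ 2 * (if s < 2 * r' then 1 else 0) + x * q * s * r') / (g * r') ^ 2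
    else x * q * r' / (k * (g * r') ^ 2) with hG
  have hG0 : ∀ k, 0 ≤ G k := by
    intro k
    simp only [hG]
    split_ifs <;> positivity
  have habs : ∀ a : ℤ, |((a - A0 : ℤ) : ℝ)| = ((a - A0).natAbs : ℝ) := by
    intro a
    rw [← Int.cast_abs, Int.abs_eq_natAbs]
    simp
  have ht0 : |t - A0| ≤ 1 / 2 := abs_sub_round t
  have hb : ∀ a ∈ H.image A, Φ a ≤ G (a - A0).natAbs := by
    intro a _
    by_cases ha : a = A0
    · have e0 : (a - A0).natAbs = 0 := by rw [ha]; simp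
      rw [e0, ha]
      simp only [hG, hΦ, if_true]
      rw [div_pow]
      apply div_le_div_of_nonneg_right _ (by positivity)
      by_cases hc : s < 2 * r'
      · rw [if_pos hc]
        have := mm_sq_le hx (show 0 ≤ |t - (A0 : ℤ)| / (q * r') by positivity)
        have h2 : 0 ≤ x * q * s * r' := by positivity
        linarith
      · rw [if_neg hc]
        rw [not_lt] at hc
        -- b/s ≠ A0/r'
        have hne : (b * r' - A0 * s : ℤ) ≠ 0 := by
          intro h
          have h2 : (s : ℤ) ∣ b * r' := ⟨A0, by linarith⟩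
          have h3 : (s : ℤ) ∣ (r' : ℤ) := hbs.symm.dvd_of_dvd_mul_left h2
          have h4 : s ∣ r' := by exact_mod_cast h3
          have := Nat.le_of_dvd hr h4
          omega
        have h2 : (1 : ℝ) ≤ |((b * r' - A0 * s : ℤ) : ℝ)| := by
          rw [← Int.cast_abs]
          exact_mod_cast Int.one_le_abs hne
        have h3 : ((b * r' - A0 * s : ℤ) : ℝ) = s * ((t - A0) - r' * (q * α - b / s)) := by
          push_cast
          rw [ht]
          field_simp
          ring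
        rw [h3, abs_mul, abs_of_pos hs0] at h2
        have h4 : |t - A0 - r' * (q * α - b / s)| ≤ |t - A0| + r' * (1 / (s : ℝ) ^ 2) := by
          refine (abs_sub _ _).trans ?_
          rw [abs_mul, abs_of_pos hr0]
          gcongr
        have h5 : 1 ≤ s * |t - A0| + r' / s := by
          calc (1 : ℝ) ≤ s * (|t - A0| + r' * (1 / (s : ℝ) ^ 2)) :=
                h2.trans (mul_le_mul_of_nonneg_left h4 hs0.le)
            _ = _ := by field_simp
        have h6 : (r' : ℝ) / s ≤ 1 / 2 := by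
          rw [div_le_div_iff₀ hs0 (by norm_num)]
          have : 2 * (r' : ℝ) ≤ s := by exact_mod_cast hc
          linarith
        have h7 : 1 / (2 * (s : ℝ)) ≤ |t - A0| := by
          rw [div_le_iff₀ (by positivity)]
          linarith
        have h8 : 1 / (2 * s * (q * r')) ≤ |t - (A0 : ℤ)| / (q * r') := by
          rw [le_div_iff₀ (by positivity)]
          refine le_trans (le_of_eq ?_) h7
          field_simp
        have h9 := mm_sq_le_inv hx (show (0 : ℝ) < 1 / (2 * s * (q * r')) by positivity) h8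
        refine h9.trans (le_of_eq ?_)
        field_simp
        ring
    · have e0 : (a - A0).natAbs ≠ 0 := by
        intro h
        apply ha
        have := Int.natAbs_eq_zero.1 h
        omega
      simp only [hG, hΦ, if_neg e0]
      have hk1 : (1 : ℝ) ≤ ((a - A0).natAbs : ℝ) := by
        exact_mod_cast Nat.one_le_iff_ne_zero.2 e0
      set k : ℕ := (a - A0).natAbs with hk
      have h2 : (k : ℝ) ≤ |t - a| + 1 / 2 := by
        rw [hk, ← habs]
        have : ((a - A0 : ℤ) : ℝ) = (t - A0) - (t - a) := by push_cast; ring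
        rw [this]
        refine (abs_sub _ _).trans ?_
        linarith
      have h3 : (k : ℝ) / 2 ≤ |t - a| := by linarith
      have h4 : (k : ℝ) / (2 * (q * r')) ≤ |t - a| / (q * r') := by
        rw [div_le_div_iff₀ (by positivity) (by positivity)]
        have : (0 : ℝ) < q * r' := by positivity
        nlinarith
      have h5 := mm_sq_le_inv hx (show (0 : ℝ) < (k : ℝ) / (2 * (q * r')) by positivity) h4
      rw [div_pow]
      calc mm x (|t - a| / (q * r')) ^ 2 / (g * r') ^ 2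
          ≤ (x / (2 * ((k : ℝ) / (2 * (q * r'))))) / (g * r') ^ 2 :=
            div_le_div_of_nonneg_right h5 (by positivity)
        _ = x * q * r' / (k * (g * r') ^ 2) := by field_simp
  have hrange : ∀ a ∈ H.image A, (a - A0).natAbs ≤ q := by
    intro a ha
    rw [mem_image] at ha
    obtain ⟨h, hh, rfl⟩ := ha
    have h2 := hρ h hh
    rw [hκ h hh, hden h hh] at h2
    have h3 : |t - A h| ≤ q := by
      rw [div_le_iff₀ (by positivity)] at h2
      refine h2.trans ?_
      push_cast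
      rw [one_div, inv_mul_le_iff₀ (by positivity)]
      have h4 : (1 : ℝ) ≤ g := by exact_mod_cast hg
      have h5 : (0 : ℝ) ≤ R := Nat.cast_nonneg R
      have h6 : (1 : ℝ) ≤ (R + 1) * g := by nlinarith
      calc (q : ℝ) * r' = 1 * (r' * q) := by ring
        _ ≤ ((R + 1) * g) * (r' * q) := mul_le_mul_of_nonneg_right h6 (by positivity)
        _ = _ := by ring
    have h4 : |((A h - A0 : ℤ) : ℝ)| ≤ q + 1 / 2 := by
      have : ((A h - A0 : ℤ) : ℝ) = (t - A0) - (t - A h) := by push_cast; ring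
      rw [this]
      refine (abs_sub _ _).trans ?_
      linarith
    rw [habs] at h4
    have h5 : ((A h - A0).natAbs : ℝ) < q + 1 := by linarith
    have h6 : (A h - A0).natAbs < q + 1 := by exact_mod_cast h5
    omega
  have h2 : ∑ a ∈ H.image A, Φ a ≤ 2 * ∑ k ∈ range (q + 1), G k := by
    refine (sum_le_sum hb).trans ?_
    exact MinSum.sum_natAbs_le (H.image A) (fun a => a - A0)
      (fun i _ j _ hij => by simpa using hij) q hrange G hG0
  have h3 : ∑ k ∈ range (q + 1), G k = G 0 + ∑ k ∈ Icc 1 q, G k := by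
    have : range (q + 1) = insert 0 (Icc 1 q) := by
      ext k; simp only [mem_range, mem_insert, mem_Icc]; omega
    rw [this, sum_insert (by simp)]
  have h4 : ∑ k ∈ Icc 1 q, G k ≤ x * q * r' / (g * r') ^ 2 * (1 + Real.log q) := by
    have e1 : ∀ k ∈ Icc 1 q, G k = x * q * r' / (g * r') ^ 2 * (1 / (k : ℝ)) := by
      intro k hk
      have hk0 : k ≠ 0 := by have := (mem_Icc.1 hk).1; omega
      have : (0 : ℝ) < k := by exact_mod_cast Nat.pos_of_ne_zero hk0
      simp only [hG, if_neg hk0]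
      field_simp
    rw [sum_congr rfl e1, ← mul_sum]
    exact mul_le_mul_of_nonneg_left (gs_harm q) (by positivity)
  calc (g : ℝ) * ∑ a ∈ H.image A, Φ a
      ≤ g * (2 * (G 0 + x * q * r' / (g * r') ^ 2 * (1 + Real.log q))) := by
        apply mul_le_mul_of_nonneg_left _ hg0.le
        rw [h3] at h2
        linarith
    _ = _ := by
        simp only [hG, if_true]
        split_ifs <;> field_simp <;> ring

theorem hsum_le (x : ℝ) (q s R : ℕ) (α : ℝ) (b : ℤ) (hx : 0 ≤ x) (hq : 1 ≤ q)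
    (hs : 1 ≤ s) (hbs : IsCoprime b (s : ℤ)) (hα : |q * α - b / s| ≤ 1 / (s : ℝ) ^ 2)
    (ρ : ℕ → ℚ) (hρ : ∀ h ∈ range q, |α + (h : ℝ) / q - ((ρ h : ℚ) : ℝ)| ≤
      1 / ((R + 1) * ((ρ h).den : ℝ))) (hden : ∀ h ∈ range q, (ρ h).den ≤ R) :
    ∑ h ∈ range q, (mm x |α + (h : ℝ) / q - ((ρ h : ℚ) : ℝ)| / ((ρ h).den : ℝ)) ^ 2 ≤
      2 * (1 + Real.log q) * (4 * x ^ 2 / s +
        x * q * (s + 1 + Real.log q) * (1 + Real.log R)) := by
  classical
  have hq0 : (0 : ℝ) < q := by exact_mod_cast hq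
  have hs0 : (0 : ℝ) < s := by exact_mod_cast hs
  have hlq : 0 ≤ Real.log q := Real.log_natCast_nonneg q
  have hlR : 0 ≤ Real.log R := Real.log_natCast_nonneg R
  set F : ℕ → ℝ := fun h =>
    (mm x |α + (h : ℝ) / q - ((ρ h : ℚ) : ℝ)| / ((ρ h).den : ℝ)) ^ 2 with hF
  have hmap : ∀ h ∈ range q, (q.gcd (ρ h).den, (ρ h).den / q.gcd (ρ h).den) ∈
      q.divisors ×ˢ Icc 1 R := by
    intro h hh
    rw [mem_product, Nat.mem_divisors, mem_Icc]
    refine ⟨⟨Nat.gcd_dvd_left _ _, by omega⟩, ?_, ?_⟩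
    · exact Nat.div_pos (Nat.gcd_le_right _ (ρ h).den_pos)
        (Nat.gcd_pos_of_pos_left _ (by omega))
    · exact (Nat.div_le_self _ _).trans (hden h hh)
  rw [← sum_fiberwise_of_maps_to hmap F]
  set Bd : ℕ × ℕ → ℝ := fun p => 2 / (p.1 : ℝ) * (x ^ 2 *
    (if s < 2 * p.2 then (1 / (p.2 : ℝ) ^ 2 : ℝ) else 0) +
      x * q * (s + 1 + Real.log q) * (1 / (p.2 : ℝ))) with hBd
  have hBd0 : ∀ p, 0 ≤ Bd p := by
    intro p
    simp only [hBd]
    split_ifs <;> positivity
  have h1 : ∀ p ∈ q.divisors ×ˢ Icc 1 R,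
      ∑ h ∈ (range q).filter (fun h => (q.gcd (ρ h).den, (ρ h).den / q.gcd (ρ h).den) = p), F h ≤
        Bd p := by
    rintro ⟨g, r'⟩ hp
    rw [mem_product, Nat.mem_divisors, mem_Icc] at hp
    obtain ⟨⟨hgq, _⟩, hr1, _⟩ := hp
    simp only at hgq hr1
    obtain ⟨q', hq'⟩ := hgq
    have hg1 : 1 ≤ g := by
      rcases Nat.eq_zero_or_pos g with h | h
      · rw [h] at hq'; omega
      · exact h
    have hq'1 : 1 ≤ q' := by
      rcases Nat.eq_zero_or_pos q' with h | h
      · rw [h] at hq'; omega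
      · exact h
    set H : Finset ℕ :=
      (range q).filter (fun h => (q.gcd (ρ h).den, (ρ h).den / q.gcd (ρ h).den) = (g, r')) with hH
    have hHm : ∀ h ∈ H, h ∈ range q ∧ q.gcd (ρ h).den = g ∧ (ρ h).den = g * r' := by
      intro h hh
      rw [hH, mem_filter, Prod.mk.injEq] at hh
      refine ⟨hh.1, hh.2.1, ?_⟩
      have e1 : q.gcd (ρ h).den ∣ (ρ h).den := Nat.gcd_dvd_right _ _
      have e2 := Nat.mul_div_cancel' e1
      rw [hh.2.2, hh.2.1] at e2
      exact e2.symm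
    by_cases hcop : q'.Coprime r'
    · subst hq'
      exact fiber_bound x q' g r' s R α b hx hq'1 hg1 hr1 hs hbs hα hcop ρ H
        (fun h hh => mem_range.1 (hHm h hh).1) (fun h hh => (hHm h hh).2.2)
        (fun h hh => hρ h (hHm h hh).1)
    · have : H = ∅ := by
        rw [Finset.eq_empty_iff_forall_notMem]
        intro h hh
        have e1 := hHm h hh
        apply hcop
        have e2 := Nat.coprime_div_gcd_div_gcd (m := q) (n := (ρ h).den)
          (Nat.gcd_pos_of_pos_left _ (by omega))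
        rw [e1.2.1, e1.2.2, Nat.mul_div_cancel_left r' (by omega), hq',
          Nat.mul_div_cancel_left q' (by omega)] at e2
        exact e2
      rw [this, sum_empty]
      exact hBd0 _
  refine (sum_le_sum h1).trans ?_
  rw [sum_product]
  have h2 : ∀ g ∈ q.divisors, ∑ r ∈ Icc 1 R, Bd (g, r) ≤
      (2 * (4 * x ^ 2 / s + x * q * (s + 1 + Real.log q) * (1 + Real.log R))) * (1 / (g : ℝ)) := by
    intro g _
    have e1 : ∑ r ∈ Icc 1 R, Bd (g, r) = 2 / (g : ℝ) * (x ^ 2 *
        ∑ r ∈ Icc 1 R, (if s < 2 * r then (1 / (r : ℝ) ^ 2 : ℝ) else 0) +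
        x * q * (s + 1 + Real.log q) * ∑ r ∈ Icc 1 R, 1 / (r : ℝ)) := by
      rw [mul_sum, mul_sum, ← sum_add_distrib, mul_sum]
    rw [e1]
    have e2 := gs_tail s R hs
    have e3 := gs_harm R
    calc 2 / (g : ℝ) * (x ^ 2 *
        ∑ r ∈ Icc 1 R, (if s < 2 * r then (1 / (r : ℝ) ^ 2 : ℝ) else 0) +
        x * q * (s + 1 + Real.log q) * ∑ r ∈ Icc 1 R, 1 / (r : ℝ))
        ≤ 2 / (g : ℝ) * (x ^ 2 * (4 / s) +
          x * q * (s + 1 + Real.log q) * (1 + Real.log R)) := by gcongr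
      _ = _ := by ring
  refine (sum_le_sum h2).trans ?_
  rw [← mul_sum]
  have h3 : ∑ g ∈ q.divisors, 1 / (g : ℝ) ≤ 1 + Real.log q := by
    refine le_trans ?_ (gs_harm q)
    apply sum_le_sum_of_subset_of_nonneg
    · intro g hg
      rw [Nat.mem_divisors] at hg
      rw [mem_Icc]
      exact ⟨Nat.pos_of_dvd_of_pos hg.1 (by omega), Nat.le_of_dvd (by omega) hg.1⟩
    · intro _ _ _
      positivity
  calc _ ≤ (2 * (4 * x ^ 2 / s + x * q * (s + 1 + Real.log q) * (1 + Real.log R))) *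
        (1 + Real.log q) := mul_le_mul_of_nonneg_left h3 (by positivity)
    _ = _ := by ring

/-- the sum over `h` of the squares of the type I sums -/
theorem GG_sq_sum (x : ℝ) (q D s : ℕ) (α : ℝ) (b : ℤ) (hx : 0 ≤ x) (hq : 1 ≤ q)
    (hs : 1 ≤ s) (hbs : IsCoprime b (s : ℤ)) (hα : |q * α - b / s| ≤ 1 / (s : ℝ) ^ 2)
    (hD : 1 ≤ D) :
    ∑ h ∈ range q, (∑ d ∈ Icc 1 D, gm (x / d) ((α + (h : ℝ) / q) * d)) ^ 2 ≤
      4 * (1 + Real.log D) ^ 2 * (1 + Real.log q) * (4 * x ^ 2 / s +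
        x * q * (s + 1 + Real.log q) * (1 + Real.log (2 * D))) +
      2 * q * (24 * D * (2 + Real.log (2 * D))) ^ 2 := by
  have hex : ∀ h : ℕ, ∃ ρ : ℚ, |α + (h : ℝ) / q - ((ρ : ℚ) : ℝ)| ≤
      1 / ((((2 * D : ℕ) : ℝ) + 1) * (ρ.den : ℝ)) ∧ ρ.den ≤ 2 * D := by
    intro h
    exact Real.exists_rat_abs_sub_le_and_den_le (α + (h : ℝ) / q) (by omega)
  choose ρ hρ using hex
  have h1 := hsum_le x q s (2 * D) α b hx hq hs hbs hα ρ (fun h _ => (hρ h).1)
    (fun h _ => (hρ h).2)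
  have hlD : 0 ≤ Real.log D := Real.log_natCast_nonneg D
  have h2 : ∀ h ∈ range q, (∑ d ∈ Icc 1 D, gm (x / d) ((α + (h : ℝ) / q) * d)) ^ 2 ≤
      2 * (1 + Real.log D) ^ 2 *
        (mm x |α + (h : ℝ) / q - ((ρ h : ℚ) : ℝ)| / ((ρ h).den : ℝ)) ^ 2 +
      2 * (24 * D * (2 + Real.log (2 * D))) ^ 2 := by
    intro h _
    have hr1 : 1 ≤ (ρ h).den := (ρ h).den_pos
    have hr0 : (0 : ℝ) < (ρ h).den := by exact_mod_cast hr1
    have hρe : ((ρ h : ℚ) : ℝ) = ((ρ h).num : ℝ) / ((ρ h).den : ℝ) := by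
      exact_mod_cast (Rat.num_div_den (ρ h)).symm
    have hcop : IsCoprime (ρ h).num ((ρ h).den : ℤ) := by
      rw [Int.isCoprime_iff_gcd_eq_one]
      exact (ρ h).reduced
    have hβ : |α + (h : ℝ) / q - ((ρ h).num : ℝ) / ((ρ h).den : ℝ)| ≤
        1 / (((ρ h).den : ℝ) * ((2 * D : ℕ) : ℝ)) := by
      rw [← hρe]
      refine (hρ h).1.trans ?_
      have : (0 : ℝ) < ((2 * D : ℕ) : ℝ) := by exact_mod_cast (by omega : 0 < 2 * D)
      apply one_div_le_one_div_of_le (by positivity)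
      nlinarith
    have e1 := Gs_le x D (2 * D) (α + (h : ℝ) / q) (ρ h).num (ρ h).den hx hr1 (hρ h).2 hcop
      le_rfl hβ
    rw [← hρe] at e1
    have e2 : 8 * ((D : ℝ) + ((2 * D : ℕ) : ℝ)) * (2 + Real.log ((2 * D : ℕ) : ℝ)) =
        24 * D * (2 + Real.log (2 * D)) := by
      push_cast
      ring
    rw [e2] at e1
    have e3 : 0 ≤ ∑ d ∈ Icc 1 D, gm (x / d) ((α + (h : ℝ) / q) * d) :=
      sum_nonneg fun d _ => gm_nonneg (by positivity) _
    refine (pow_le_pow_left₀ e3 e1 2).trans ?_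
    have e4 : ∀ u v : ℝ, (u + v) ^ 2 ≤ 2 * u ^ 2 + 2 * v ^ 2 := by
      intro u v
      nlinarith [sq_nonneg (u - v)]
    refine (e4 _ _).trans (le_of_eq ?_)
    ring
  refine (sum_le_sum h2).trans ?_
  rw [sum_add_distrib, ← mul_sum, sum_const, card_range, nsmul_eq_mul]
  have e5 : (((2 * D : ℕ) : ℝ)) = 2 * D := by push_cast; ring
  rw [e5] at h1
  have h3 := mul_le_mul_of_nonneg_left h1 (show 0 ≤ 2 * (1 + Real.log D) ^ 2 by positivity)
  refine (add_le_add_left h3 _).trans (le_of_eq ?_)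
  ring

end Pool.Agent.HL
end

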