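import Pool.Agent.Work.BV.DivSum
import Pool.Agent.Work.BV.Final
import Pool.Agent.Work.BV.GaussLS
import Pool.Agent.Work.BV.L_Vaughan
import Pool.Agent.Work.BV.Vaughan
import Pool.Agent.Work.GBM.C01
import Pool.Agent.Work.GBM.C08
import Pool.Agent.Work.GBM.C09
import Pool.Agent.Work.MP_b30479_gt.Mertens
import Pool.Agent.Work.MP_e4117e_nt.Mertens2

section
/-! # Module VDiff3: type I sums, mean square over the non trivial characters mod `k`, all `k`

`VDiff2.typeI_chars` loses a factor `k ^ 3`. Here `t / k` is replaced by its Dirichlet approximation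
`a / r`, `r ≤ 2 D`: the `d ≤ D` not divisible by `r` contribute `≪ D log D`, the other ones
`(1 + log D) gm (Y / r) (t r / k)`, and they only occur if `(r, k) = 1`. The sum over `t` of the squares
is then `≪ k (D ^ 2 + Y)` up to logarithms. -/

namespace Pool.Agent.HL

open Finset Pool.Agent.BV

namespace VDiff3

lemma round_mul {β : ℝ} {e : ℕ} (h : (e : ℝ) * |β - round β| < 1 / 2) :
    round (β * e) = e * round β := by
  have h1 : |β * e - ((e * round β : ℤ) : ℝ)| < 1 / 2 := by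
    have : β * e - ((e * round β : ℤ) : ℝ) = e * (β - round β) := by
      push_cast
      ring
    rw [this, abs_mul, Nat.abs_cast]
    exact h
  have h2 := abs_sub_round (β * e)
  have h3 : |((round (β * e) - e * round β : ℤ) : ℝ)| < 1 := by
    push_cast
    push_cast at h1
    have h4 : ((round (β * e) : ℤ) : ℝ) - e * round β =
        (β * e - e * round β) - (β * e - round (β * e)) := by ring
    rw [h4]
    refine (abs_sub _ _).trans_lt ?_
    linarith
  have h5 : |round (β * e) - e * round β| < 1 := by exact_mod_cast h3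
  have h6 := Int.abs_lt_one_iff.1 h5
  omega

lemma gm_mul {β Y : ℝ} {e : ℕ} (he : 1 ≤ e) (h : (e : ℝ) * |β - round β| < 1 / 2) :
    gm (Y / e) (β * e) = gm Y β / e := by
  have he0 : (0 : ℝ) < e := by exact_mod_cast he
  have h1 : |β * e - round (β * e)| = e * |β - round β| := by
    rw [round_mul h]
    have : β * e - ((e * round β : ℤ) : ℝ) = e * (β - round β) := by
      push_cast
      ring
    rw [this, abs_mul, Nat.abs_cast]
  unfold gm
  rw [h1]
  have h2 : 2 * (Y / e) * (e * |β - round β|) = 2 * Y * |β - round β| := by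
    field_simp
  rw [h2]
  split_ifs with h3
  · rfl
  · rw [div_div]
    congr 1
    ring

lemma dist_ge' {b k d : ℕ} (hk : 0 < k) (h : ¬ k ∣ b * d) (m : ℤ) :
    1 / (k : ℝ) ≤ |((b : ℝ) / k) * d - m| := by
  have hr0 : (0 : ℝ) < k := by exact_mod_cast hk
  have h1 : ((b * d : ℕ) : ℤ) - k * m ≠ 0 := by
    intro h1
    apply h
    have h2 : (k : ℤ) ∣ ((b * d : ℕ) : ℤ) := ⟨m, by linarith⟩
    exact_mod_cast h2
  have h2 : (1 : ℝ) ≤ |(((b * d : ℕ) : ℤ) - k * m : ℤ)| := by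
    exact_mod_cast Int.one_le_abs h1
  have h3 : ((b : ℝ) / k) * d - m = ((((b * d : ℕ) : ℤ) - k * m : ℤ) : ℝ) / k := by
    push_cast
    field_simp
  rw [h3, abs_div, abs_of_pos hr0]
  exact div_le_div_of_nonneg_right (by exact_mod_cast h2) hr0.le

/-- the sum over `t` -/
lemma sum_t {k r : ℕ} (hk : 1 < k) (hr : r.Coprime k) {Z : ℝ} (hZ : 0 ≤ Z) :
    ∑ t ∈ Ioo 0 k, gm Z (((t : ℝ) / k) * r) ^ 2 ≤ 16 * Z * k * (2 + Real.log k) := by
  have hk0 : (0 : ℝ) < k := by exact_mod_cast (by omega : 0 < k)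
  have h1 := gm_block ((r : ℝ) / k) 0 r k (by omega) (by exact_mod_cast Nat.isCoprime_iff_coprime.mpr hr)
    (by simp) 0 k k hk0.le
  calc ∑ t ∈ Ioo 0 k, gm Z (((t : ℝ) / k) * r) ^ 2
      ≤ ∑ t ∈ Ioo 0 k, Z * gm k (((r : ℝ) / k) * t + 0) := by
        refine sum_le_sum fun t ht => ?_
        rw [mem_Ioo] at ht
        have h2 : ((t : ℝ) / k) * r = ((r : ℝ) / k) * t := by ring
        have hnd : ¬ k ∣ r * t := by
          intro h
          have h3 : k ∣ t := Nat.Coprime.dvd_of_dvd_mul_left hr.symm h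
          have h4 := Nat.le_of_dvd ht.1 h3
          omega
        have h3 : gm Z (((r : ℝ) / k) * t) ≤ gm k (((r : ℝ) / k) * t) := by
          refine VDiff2.gm_le_gm ?_
          have h4 := dist_ge' (by omega) hnd (round (((r : ℝ) / k) * t))
          have h5 : (1 : ℝ) < 2 * (k * (1 / k)) := by
            rw [mul_one_div_cancel hk0.ne']
            norm_num
          calc (1 : ℝ) < 2 * (k * (1 / k)) := h5
            _ ≤ 2 * (k * |((r : ℝ) / k) * t - round (((r : ℝ) / k) * t)|) := by gcongr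
            _ = _ := by ring
        rw [h2, add_zero, sq]
        exact mul_le_mul (gm_le hZ _) h3 (gm_nonneg hZ _) hZ
    _ = Z * ∑ t ∈ Ioo 0 k, gm k (((r : ℝ) / k) * t + 0) := by rw [mul_sum]
    _ ≤ Z * ∑ t ∈ Ioc 0 (0 + k), gm k (((r : ℝ) / k) * t + 0) := by
        refine mul_le_mul_of_nonneg_left ?_ hZ
        refine sum_le_sum_of_subset_of_nonneg ?_ (fun d _ _ => gm_nonneg hk0.le _)
        intro t ht
        rw [mem_Ioo] at ht
        rw [mem_Ioc]
        omega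
    _ ≤ Z * (8 * ((k : ℝ) / k + 1) * (k + k * (1 + Real.log k))) :=
        mul_le_mul_of_nonneg_left h1 hZ
    _ = 16 * Z * k * (2 + Real.log k) := by
        rw [div_self hk0.ne']
        ring

lemma sum_inv_le (n : ℕ) : ∑ e ∈ Icc 1 n, (1 : ℝ) / e ≤ 1 + Real.log n := by
  have h := harmonic_le_one_add_log n
  have h2 : ((harmonic n : ℚ) : ℝ) = ∑ e ∈ Icc 1 n, (1 : ℝ) / e := by
    rw [harmonic_eq_sum_Icc]
    push_cast
    exact sum_congr rfl fun e _ => by rw [one_div]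
  rw [← h2]
  exact h

/-- the multiples of `r` -/
lemma sum_mult {β Y : ℝ} {D r : ℕ} (hr : 1 ≤ r) (hr2 : r ≤ 2 * D)
    (hβ : |β * r - round (β * r)| ≤ 1 / (2 * D + 1)) (hY : 0 ≤ Y) :
    ∑ d ∈ (Icc 1 D).filter (fun d => r ∣ d), gm (Y / d) (β * d) ≤
      (1 + Real.log D) * gm (Y / r) (β * r) := by
  have hD : 1 ≤ D := by omega
  have hr0 : (0 : ℝ) < r := by exact_mod_cast hr
  have hD0 : (0 : ℝ) < D := by exact_mod_cast hD
  have himg : (Icc 1 D).filter (fun d => r ∣ d) ⊆ (Icc 1 (D / r)).image (fun e => r * e) := by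
    intro d hd
    rw [mem_filter, mem_Icc] at hd
    obtain ⟨⟨h1, h2⟩, e, rfl⟩ := hd
    rw [mem_image]
    refine ⟨e, ?_, rfl⟩
    rw [mem_Icc]
    refine ⟨?_, ?_⟩
    · rcases Nat.eq_zero_or_pos e with h | h
      · subst h
        omega
      · exact h
    · rw [Nat.le_div_iff_mul_le (by omega)]
      rw [mul_comm]
      exact h2
  have hg0 : 0 ≤ gm (Y / r) (β * r) := gm_nonneg (by positivity) _
  calc ∑ d ∈ (Icc 1 D).filter (fun d => r ∣ d), gm (Y / d) (β * d)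
      ≤ ∑ d ∈ (Icc 1 (D / r)).image (fun e => r * e), gm (Y / d) (β * d) :=
        sum_le_sum_of_subset_of_nonneg himg (fun d _ _ => gm_nonneg (by positivity) _)
    _ = ∑ e ∈ Icc 1 (D / r), gm (Y / ((r * e : ℕ) : ℝ)) (β * ((r * e : ℕ) : ℝ)) := by
        rw [sum_image]
        intro a _ b _ h
        exact Nat.eq_of_mul_eq_mul_left (by omega) h
    _ = ∑ e ∈ Icc 1 (D / r), 1 / (e : ℝ) * gm (Y / r) (β * r) := by
        refine sum_congr rfl fun e he => ?_
        rw [mem_Icc] at he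
        have he0 : (0 : ℝ) < e := by exact_mod_cast he.1
        have h1 : (e : ℝ) * |β * r - round (β * r)| < 1 / 2 := by
          have h2 : (e : ℝ) ≤ D := by
            exact_mod_cast he.2.trans (Nat.div_le_self _ _)
          calc (e : ℝ) * |β * r - round (β * r)| ≤ D * (1 / (2 * D + 1)) := by gcongr
            _ < 1 / 2 := by
                rw [mul_one_div, div_lt_div_iff₀ (by positivity) (by norm_num)]
                linarith
        have h2 := gm_mul (Y := Y / r) he.1 h1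
        have h3 : Y / ((r * e : ℕ) : ℝ) = Y / r / e := by
          push_cast
          rw [div_div]
        have h4 : β * ((r * e : ℕ) : ℝ) = β * r * e := by
          push_cast
          ring
        rw [h3, h4, h2]
        ring
    _ = (∑ e ∈ Icc 1 (D / r), 1 / (e : ℝ)) * gm (Y / r) (β * r) := by rw [sum_mul]
    _ ≤ (1 + Real.log D) * gm (Y / r) (β * r) := by
        refine mul_le_mul_of_nonneg_right ?_ hg0
        calc ∑ e ∈ Icc 1 (D / r), 1 / (e : ℝ) ≤ ∑ e ∈ Icc 1 D, 1 / (e : ℝ) := by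
              refine sum_le_sum_of_subset_of_nonneg ?_ (fun _ _ _ => by positivity)
              exact Icc_subset_Icc_right (Nat.div_le_self _ _)
          _ ≤ 1 + Real.log D := sum_inv_le D

/-- the other integers -/
lemma sum_nonmult {β : ℝ} {D r : ℕ} {a : ℤ} (hr : 1 ≤ r) (hr2 : r ≤ 2 * D)
    (hcop : IsCoprime a (r : ℤ)) (hβ : |β - a / r| ≤ 1 / ((2 * D + 1) * r)) (Y : ℕ → ℝ)
    (hY : ∀ d, 0 ≤ Y d) :
    ∑ d ∈ (Icc 1 D).filter (fun d => ¬ r ∣ d), gm (Y d) (β * d) ≤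
      48 * (D : ℝ) * (2 + Real.log (2 * D)) := by
  have hD : 1 ≤ D := by omega
  have hr0 : (0 : ℝ) < r := by exact_mod_cast hr
  have hD0 : (0 : ℝ) < D := by exact_mod_cast hD
  have h1 := gm_block ((a : ℝ) / r) 0 a r hr hcop (by simp) 0 D r hr0.le
  have hI : Icc 1 D = Ioc 0 (0 + D) := by
    ext n
    simp only [mem_Icc, mem_Ioc]
    omega
  rw [← hI] at h1
  have hlog : Real.log r ≤ Real.log (2 * D) := Real.log_le_log hr0 (by exact_mod_cast hr2)
  have hlog0 : 0 ≤ Real.log r := Real.log_natCast_nonneg r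
  have hrD : (r : ℝ) ≤ 2 * D := by exact_mod_cast hr2
  calc ∑ d ∈ (Icc 1 D).filter (fun d => ¬ r ∣ d), gm (Y d) (β * d)
      ≤ ∑ d ∈ (Icc 1 D).filter (fun d => ¬ r ∣ d), 2 * gm r (((a : ℝ) / r) * d + 0) := by
        refine sum_le_sum fun d hd => ?_
        rw [mem_filter, mem_Icc] at hd
        obtain ⟨⟨hd1, hd2⟩, hd3⟩ := hd
        have hdD : (d : ℝ) ≤ D := by exact_mod_cast hd2
        have hd0 : (0 : ℝ) < d := by exact_mod_cast hd1
        rw [add_zero]
        set γ : ℝ := ((a : ℝ) / r) * d with hγ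
        have hγd : ∀ m : ℤ, 1 / (r : ℝ) ≤ |γ - m| := by
          intro m
          have h2 : a * d - r * m ≠ 0 := by
            intro h2
            apply hd3
            have h3 : (r : ℤ) ∣ a * d := ⟨m, by linarith⟩
            have h4 : (r : ℤ) ∣ d := hcop.symm.dvd_of_dvd_mul_left h3
            exact_mod_cast h4
          have h3 : (1 : ℝ) ≤ |((a * d - r * m : ℤ) : ℝ)| := by
            exact_mod_cast Int.one_le_abs h2
          have h4 : γ - m = ((a * d - r * m : ℤ) : ℝ) / r := by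
            rw [hγ]
            push_cast
            field_simp
          rw [h4, abs_div, abs_of_pos hr0]
          exact div_le_div_of_nonneg_right h3 hr0.le
        have hβγ : |β * d - γ| ≤ 1 / (2 * r) := by
          have h2 : β * d - γ = (β - a / r) * d := by
            rw [hγ]
            ring
          rw [h2, abs_mul, Nat.abs_cast]
          calc |β - a / r| * d ≤ 1 / ((2 * D + 1) * r) * D := by gcongr
            _ = (D / (2 * D + 1)) * (1 / r) := by
                field_simp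
            _ ≤ (1 / 2) * (1 / r) := by
                refine mul_le_mul_of_nonneg_right ?_ (by positivity)
                rw [div_le_div_iff₀ (by positivity) (by norm_num)]
                linarith
            _ = 1 / (2 * r) := by
                field_simp
        -- the distance of `β d` to the integers
        have h5 : |γ - round γ| / 2 ≤ |β * d - round (β * d)| := by
          have h6 : |γ - round γ| ≤ |γ - round (β * d)| := round_le γ (round (β * d))
          have h7 : |γ - round (β * d)| ≤ |β * d - round (β * d)| + |β * d - γ| := by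
            have h8 : γ - round (β * d) = (β * d - round (β * d)) - (β * d - γ) := by ring
            rw [h8]
            exact abs_sub _ _
          have h8 := hγd (round γ)
          have h9 : 1 / (2 * (r : ℝ)) = (1 / r) / 2 := by
            field_simp
          have h10 : |β * d - γ| ≤ |γ - round γ| / 2 := by
            refine hβγ.trans ?_
            rw [h9]
            linarith
          linarith
        have h11 := hγd (round γ)
        have h12 : 0 < |γ - round γ| := lt_of_lt_of_le (by positivity) h11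
        have h13 : gm (r : ℝ) γ = 1 / (2 * |γ - round γ|) := by
          unfold gm
          rw [if_neg]
          rw [not_le]
          calc (1 : ℝ) < 2 * (r * (1 / r)) := by
                rw [mul_one_div_cancel hr0.ne']
                norm_num
            _ ≤ 2 * (r * |γ - round γ|) := by gcongr
            _ = _ := by ring
        have h14 := gm_le_of_dist (hY d) (by positivity) h5
        refine h14.trans ?_
        rw [h13]
        have : 2 * (|γ - round γ| / 2) = |γ - round γ| := by ring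
        rw [this, one_div, one_div, mul_inv, ← mul_assoc]
        norm_num
    _ = 2 * ∑ d ∈ (Icc 1 D).filter (fun d => ¬ r ∣ d), gm r (((a : ℝ) / r) * d + 0) := by
        rw [mul_sum]
    _ ≤ 2 * ∑ d ∈ Icc 1 D, gm r (((a : ℝ) / r) * d + 0) := by
        refine mul_le_mul_of_nonneg_left ?_ (by norm_num)
        exact sum_le_sum_of_subset_of_nonneg (filter_subset _ _) (fun d _ _ => gm_nonneg hr0.le _)
    _ ≤ 2 * (8 * ((D : ℝ) / r + 1) * (r + r * (1 + Real.log r))) := by gcongr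
    _ = 16 * ((D : ℝ) + r) * (2 + Real.log r) := by
        field_simp
        ring
    _ ≤ 16 * ((D : ℝ) + 2 * D) * (2 + Real.log (2 * D)) := by gcongr
    _ = _ := by ring

/-- pointwise bound -/
lemma pointwise {k D : ℕ} (hD : 1 ≤ D) {t : ℕ} {Y : ℝ} (hY : 0 ≤ Y) :
    (∑ d ∈ (Icc 1 D).filter (fun d => d.Coprime k), gm (Y / d) (((t : ℝ) / k) * d)) ^ 2 ≤
      2 * (48 * (D : ℝ) * (2 + Real.log (2 * D))) ^ 2 + 2 * (1 + Real.log D) ^ 2 *
        ∑ r ∈ (Icc 1 (2 * D)).filter (fun r => r.Coprime k), gm (Y / r) (((t : ℝ) / k) * r) ^ 2 := by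
  classical
  have hD0 : (0 : ℝ) < D := by exact_mod_cast hD
  have hlogD : 0 ≤ Real.log D := Real.log_natCast_nonneg D
  have hlog2D : 0 ≤ Real.log (2 * D) := by
    have := Real.log_natCast_nonneg (2 * D)
    push_cast at this
    exact this
  set β : ℝ := (t : ℝ) / k with hβ
  obtain ⟨ξ, hξ1, hξ2⟩ := Real.exists_rat_abs_sub_le_and_den_le β (n := 2 * D) (by omega)
  set r := ξ.den with hr
  set a := ξ.num with ha
  have hr1 : 1 ≤ r := ξ.den_pos
  have hr0 : (0 : ℝ) < r := by exact_mod_cast hr1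
  have hcop : IsCoprime a (r : ℤ) := by
    rw [Int.isCoprime_iff_gcd_eq_one]
    exact ξ.reduced
  have hξ : (ξ : ℝ) = (a : ℝ) / r := Rat.cast_def ξ
  have happ : |β - a / r| ≤ 1 / ((2 * D + 1) * r) := by
    rw [← hξ]
    convert hξ1 using 2
    push_cast
    ring
  have happ2 : |β * r - round (β * r)| ≤ 1 / (2 * D + 1) := by
    have h1 := round_le (β * r) a
    refine h1.trans ?_
    have h2 : β * r - a = (β - a / r) * r := by
      field_simp
    rw [h2, abs_mul, Nat.abs_cast]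
    calc |β - a / r| * r ≤ 1 / ((2 * D + 1) * r) * r := by gcongr
      _ = 1 / (2 * D + 1) := by
          field_simp
  have hY' : ∀ d : ℕ, 0 ≤ Y / d := fun d => by positivity
  set A : ℝ := 48 * (D : ℝ) * (2 + Real.log (2 * D)) with hA
  have hA0 : 0 ≤ A := by positivity
  have hS1 : ∑ d ∈ (Icc 1 D).filter (fun d => ¬ r ∣ d), gm (Y / d) (β * d) ≤ A :=
    sum_nonmult hr1 hξ2 hcop happ (fun d => Y / d) hY'
  have hsplit : ∑ d ∈ (Icc 1 D).filter (fun d => d.Coprime k), gm (Y / d) (β * d) ≤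
      A + ∑ d ∈ (Icc 1 D).filter (fun d => d.Coprime k ∧ r ∣ d), gm (Y / d) (β * d) := by
    have h1 := sum_filter_add_sum_filter_not ((Icc 1 D).filter (fun d => d.Coprime k))
      (fun d => r ∣ d) (fun d => gm (Y / d) (β * d))
    rw [filter_filter, filter_filter] at h1
    rw [← h1]
    have h2 : ∑ d ∈ (Icc 1 D).filter (fun d => d.Coprime k ∧ ¬ r ∣ d), gm (Y / d) (β * d) ≤
        ∑ d ∈ (Icc 1 D).filter (fun d => ¬ r ∣ d), gm (Y / d) (β * d) := by
      refine sum_le_sum_of_subset_of_nonneg ?_ (fun d _ _ => gm_nonneg (hY' d) _)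
      intro d hd
      rw [mem_filter] at hd ⊢
      exact ⟨hd.1, hd.2.2⟩
    linarith
  set S : ℝ := ∑ d ∈ (Icc 1 D).filter (fun d => d.Coprime k), gm (Y / d) (β * d) with hS
  have hS0 : 0 ≤ S := sum_nonneg fun d _ => gm_nonneg (hY' d) _
  set R : ℝ := ∑ r ∈ (Icc 1 (2 * D)).filter (fun r => r.Coprime k), gm (Y / r) (β * r) ^ 2 with hR
  have hR0 : 0 ≤ R := sum_nonneg fun _ _ => by positivity
  by_cases hrk : r.Coprime k
  · have h1 : ∑ d ∈ (Icc 1 D).filter (fun d => d.Coprime k ∧ r ∣ d), gm (Y / d) (β * d) ≤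
        (1 + Real.log D) * gm (Y / r) (β * r) := by
      refine le_trans ?_ (sum_mult hr1 hξ2 happ2 hY)
      refine sum_le_sum_of_subset_of_nonneg ?_ (fun d _ _ => gm_nonneg (hY' d) _)
      intro d hd
      rw [mem_filter] at hd ⊢
      exact ⟨hd.1, hd.2.2⟩
    set g : ℝ := gm (Y / r) (β * r) with hg
    have h2 : g ^ 2 ≤ R := by
      refine single_le_sum (f := fun r : ℕ => gm (Y / r) (β * r) ^ 2) (fun _ _ => by positivity) ?_
      rw [mem_filter, mem_Icc]
      exact ⟨⟨hr1, hξ2⟩, hrk⟩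
    have h3 : S ≤ A + (1 + Real.log D) * g := by linarith
    have h4 : S ^ 2 ≤ (A + (1 + Real.log D) * g) ^ 2 := pow_le_pow_left₀ hS0 h3 2
    have h5 : (A + (1 + Real.log D) * g) ^ 2 ≤ 2 * A ^ 2 + 2 * ((1 + Real.log D) * g) ^ 2 := by
      nlinarith [sq_nonneg (A - (1 + Real.log D) * g)]
    have h6 : (1 + Real.log D) ^ 2 * g ^ 2 ≤ (1 + Real.log D) ^ 2 * R :=
      mul_le_mul_of_nonneg_left h2 (by positivity)
    nlinarith
  · have h1 : ∑ d ∈ (Icc 1 D).filter (fun d => d.Coprime k ∧ r ∣ d), gm (Y / d) (β * d) = 0 := by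
      refine sum_eq_zero fun d hd => ?_
      rw [mem_filter] at hd
      exact absurd (Nat.Coprime.coprime_dvd_left hd.2.2 hd.2.1) hrk
    rw [h1, add_zero] at hsplit
    have h2 : S ^ 2 ≤ A ^ 2 := pow_le_pow_left₀ hS0 hsplit 2
    have h3 : 0 ≤ 2 * (1 + Real.log D) ^ 2 * R := by positivity
    nlinarith [sq_nonneg A]

end VDiff3

open VDiff2 VDiff3 in
open Classical in
/-- Type I sums, mean square over the non trivial characters mod `k`, without loss for large `k` -/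
theorem typeI_chars3 (k : ℕ) [NeZero k] (D : ℕ) (hD : 1 ≤ D) (w g : ℕ → ℂ) (N : ℕ → ℕ) (Y G W : ℝ)
    (hY0 : 0 ≤ Y) (hG0 : 0 ≤ G) (hW0 : 0 ≤ W) (hw : ∀ d ∈ Icc 1 D, ‖w d‖ ≤ W)
    (hN : ∀ d ∈ Icc 1 D, (N d : ℝ) + 1 ≤ Y / d)
    (hG : ∀ d ∈ Icc 1 D, ∀ β : ℝ, ‖∑ j ∈ Icc 1 (N d), g j * e (j * β)‖ ≤
      G * gm ((N d : ℝ) + 1) β) :
    ∑ χ ∈ (univ : Finset (DirichletCharacter ℂ k)).erase 1,
      ‖∑ d ∈ Icc 1 D, w d * χ (d : ZMod k) * ∑ j ∈ Icc 1 (N d), g j * χ (j : ZMod k)‖ ^ 2 ≤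
      (G * W) ^ 2 * (5000 * k * ((D : ℝ) ^ 2 + Y) * ((2 + Real.log (2 * D)) ^ 3 *
        (2 + Real.log k))) := by
  have hD0 : (0 : ℝ) < D := by exact_mod_cast hD
  have hlogD : 0 ≤ Real.log D := Real.log_natCast_nonneg D
  have hlogk : 0 ≤ Real.log k := Real.log_natCast_nonneg k
  have hlogD2 : Real.log D ≤ Real.log (2 * D) := Real.log_le_log hD0 (by linarith)
  have hk0 : (0 : ℝ) ≤ k := Nat.cast_nonneg k
  set F : ZMod k → ℂ := fun a => ∑ d ∈ (Icc 1 D).filter (fun d => d.Coprime k),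
    ∑ j ∈ Icc 1 (N d), if ((d * j : ℕ) : ZMod k) = a then w d * g j else 0 with hF
  have hsum : ∀ φ : ZMod k → ℂ, ∑ a, φ a * F a = ∑ d ∈ (Icc 1 D).filter (fun d => d.Coprime k),
      ∑ j ∈ Icc 1 (N d), w d * g j * φ ((d * j : ℕ) : ZMod k) := by
    intro φ
    simp only [hF, mul_sum]
    rw [sum_comm]
    refine sum_congr rfl fun d _ => ?_
    rw [sum_comm]
    refine sum_congr rfl fun j _ => ?_
    rw [Finset.sum_eq_single (((d * j : ℕ) : ZMod k))]
    · rw [if_pos rfl]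
      ring
    · intro a _ ha
      rw [if_neg (Ne.symm ha), mul_zero]
    · intro h
      exact absurd (mem_univ _) h
  have h1 : ∀ χ : DirichletCharacter ℂ k, ∑ d ∈ Icc 1 D, w d * χ (d : ZMod k) *
      ∑ j ∈ Icc 1 (N d), g j * χ (j : ZMod k) = ∑ a, χ a * F a := by
    intro χ
    rw [hsum, sum_filter]
    refine sum_congr rfl fun d _ => ?_
    split_ifs with hd
    · rw [mul_sum]
      refine sum_congr rfl fun j _ => ?_
      rw [Nat.cast_mul, map_mul]
      ring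
    · have : χ (d : ZMod k) = 0 := by
        apply MulChar.map_nonunit
        rw [ZMod.isUnit_iff_coprime]
        exact hd
      rw [this]
      ring
  set f : ℕ → ℝ := fun t => (∑ d ∈ (Icc 1 D).filter (fun d => d.Coprime k),
    gm (Y / d) (((t : ℝ) / k) * d)) ^ 2 with hf
  have hf0 : ∀ t, 0 ≤ f t := fun t => sq_nonneg _
  have h2 : ∀ t ∈ (univ : Finset (ZMod k)).erase 0, ‖∑ a, F a * ZMod.stdAddChar (t * a)‖ ^ 2 ≤
      (G * W) ^ 2 * f t.val := by
    intro t ht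
    have h3 : ∑ a, F a * ZMod.stdAddChar (t * a) = ∑ d ∈ (Icc 1 D).filter (fun d => d.Coprime k),
        w d * ∑ j ∈ Icc 1 (N d), g j * e (j * (((t.val : ℝ) / k) * d)) := by
      have := hsum (fun a => ZMod.stdAddChar (t * a))
      rw [sum_congr rfl fun a _ => mul_comm (F a) _, this]
      refine sum_congr rfl fun d _ => ?_
      rw [mul_sum]
      refine sum_congr rfl fun j _ => ?_
      have h4 := gaussLS_e (q := k) (d * j) t.val
      rw [ZMod.natCast_zmod_val t, mul_comm ((d * j : ℕ) : ZMod k)] at h4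
      rw [← h4, mul_assoc]
      congr 3
      push_cast
      ring
    rw [h3, hf, ← mul_pow]
    refine pow_le_pow_left₀ (norm_nonneg _) ?_ 2
    calc ‖∑ d ∈ (Icc 1 D).filter (fun d => d.Coprime k),
          w d * ∑ j ∈ Icc 1 (N d), g j * e (j * (((t.val : ℝ) / k) * d))‖
        ≤ ∑ d ∈ (Icc 1 D).filter (fun d => d.Coprime k),
          W * (G * gm (Y / d) (((t.val : ℝ) / k) * d)) := by
          refine (norm_sum_le _ _).trans (sum_le_sum fun d hd => ?_)
          rw [norm_mul]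
          have hd' := (mem_filter.1 hd).1
          refine mul_le_mul (hw d hd') ?_ (norm_nonneg _) hW0
          refine (hG d hd' _).trans ?_
          exact mul_le_mul_of_nonneg_left (gm_mono (by positivity) (hN d hd') _) hG0
      _ = G * W * ∑ d ∈ (Icc 1 D).filter (fun d => d.Coprime k),
          gm (Y / d) (((t.val : ℝ) / k) * d) := by
          rw [mul_sum]
          exact sum_congr rfl fun d _ => by ring
  have h3 : ∑ t ∈ (univ : Finset (ZMod k)).erase 0, f t.val ≤ ∑ t ∈ Ioo 0 k, f t := by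
    have h4 : ∑ t ∈ ((univ : Finset (ZMod k)).erase 0).image ZMod.val, f t =
        ∑ t ∈ (univ : Finset (ZMod k)).erase 0, f t.val :=
      sum_image fun a _ b _ h => ZMod.val_injective k h
    rw [← h4]
    refine sum_le_sum_of_subset_of_nonneg ?_ (fun t _ _ => hf0 t)
    intro t ht
    rw [mem_image] at ht
    obtain ⟨u, hu, rfl⟩ := ht
    have hu0 : u ≠ 0 := ne_of_mem_erase hu
    rw [mem_Ioo]
    exact ⟨Nat.pos_of_ne_zero (by rwa [Ne, ZMod.val_eq_zero]), ZMod.val_lt u⟩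
  have h4 : ∑ t ∈ Ioo 0 k, f t ≤ 5000 * k * ((D : ℝ) ^ 2 + Y) * ((2 + Real.log (2 * D)) ^ 3 *
        (2 + Real.log k)) := by
    rcases Nat.lt_or_ge 1 k with hk | hk
    · set A : ℝ := 48 * (D : ℝ) * (2 + Real.log (2 * D)) with hA
      set E : Finset ℕ := (Icc 1 (2 * D)).filter (fun r => r.Coprime k) with hE
      have h5 : ∑ t ∈ Ioo 0 k, f t ≤ ∑ t ∈ Ioo 0 k, (2 * A ^ 2 + 2 * (1 + Real.log D) ^ 2 *
          ∑ r ∈ E, gm (Y / r) (((t : ℝ) / k) * r) ^ 2) :=
        sum_le_sum fun t _ => pointwise hD hY0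
      have h6 : ∑ t ∈ Ioo 0 k, ∑ r ∈ E, gm (Y / r) (((t : ℝ) / k) * r) ^ 2 ≤
          16 * Y * k * (2 + Real.log k) * (2 + Real.log (2 * D)) := by
        rw [sum_comm]
        calc ∑ r ∈ E, ∑ t ∈ Ioo 0 k, gm (Y / r) (((t : ℝ) / k) * r) ^ 2
            ≤ ∑ r ∈ E, 16 * (Y / r) * k * (2 + Real.log k) :=
              sum_le_sum fun r hr => sum_t hk (mem_filter.1 hr).2 (by positivity)
          _ ≤ ∑ r ∈ Icc 1 (2 * D), 16 * (Y / r) * k * (2 + Real.log k) :=
              sum_le_sum_of_subset_of_nonneg (filter_subset _ _) (fun _ _ _ => by positivity)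
          _ = 16 * Y * k * (2 + Real.log k) * ∑ r ∈ Icc 1 (2 * D), 1 / (r : ℝ) := by
              rw [mul_sum]
              exact sum_congr rfl fun r _ => by ring
          _ ≤ 16 * Y * k * (2 + Real.log k) * (2 + Real.log (2 * D)) := by
              refine mul_le_mul_of_nonneg_left ?_ (by positivity)
              have h7 := sum_inv_le (2 * D)
              push_cast at h7
              linarith
      have h7 : ∑ t ∈ Ioo 0 k, (2 * A ^ 2 + 2 * (1 + Real.log D) ^ 2 *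
          ∑ r ∈ E, gm (Y / r) (((t : ℝ) / k) * r) ^ 2) ≤ k * (2 * A ^ 2) +
          2 * (1 + Real.log D) ^ 2 * (16 * Y * k * (2 + Real.log k) * (2 + Real.log (2 * D))) := by
        rw [sum_add_distrib, sum_const, Nat.card_Ioo, nsmul_eq_mul]
        refine add_le_add ?_ ((le_of_eq (mul_sum _ _ _).symm).trans
          (mul_le_mul_of_nonneg_left h6 (by positivity)))
        refine mul_le_mul_of_nonneg_right ?_ (by positivity)
        exact_mod_cast (by omega : k - 0 - 1 ≤ k)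
      refine (h5.trans h7).trans ?_
      set l : ℝ := 2 + Real.log (2 * D) with hl
      set m : ℝ := 2 + Real.log k with hm
      have hl2 : 2 ≤ l := by linarith
      have hm2 : 2 ≤ m := by linarith
      have h8 : (1 + Real.log D) ^ 2 ≤ l ^ 2 := pow_le_pow_left₀ (by linarith) (by linarith) 2
      have h9 : l ^ 2 ≤ l ^ 3 * m := by
        have : 1 ≤ l * m := by nlinarith
        calc l ^ 2 = l ^ 2 * 1 := by ring
          _ ≤ l ^ 2 * (l * m) := by gcongr
          _ = _ := by ring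
      have h10 : k * (2 * A ^ 2) ≤ 5000 * k * (D : ℝ) ^ 2 * (l ^ 3 * m) := by
        calc k * (2 * A ^ 2) = 4608 * k * (D : ℝ) ^ 2 * l ^ 2 := by
              rw [hA]
              ring
          _ ≤ 5000 * k * (D : ℝ) ^ 2 * (l ^ 3 * m) := by gcongr; norm_num
      have h11 : 2 * (1 + Real.log D) ^ 2 * (16 * Y * k * m * l) ≤
          5000 * k * Y * (l ^ 3 * m) := by
        calc 2 * (1 + Real.log D) ^ 2 * (16 * Y * k * m * l)
            ≤ 2 * l ^ 2 * (16 * Y * k * m * l) := by gcongr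
          _ = 32 * (k * Y * (l ^ 3 * m)) := by ring
          _ ≤ 5000 * (k * Y * (l ^ 3 * m)) := by gcongr; norm_num
          _ = _ := by ring
      calc k * (2 * A ^ 2) + 2 * (1 + Real.log D) ^ 2 * (16 * Y * k * m * l)
          ≤ 5000 * k * (D : ℝ) ^ 2 * (l ^ 3 * m) + 5000 * k * Y * (l ^ 3 * m) :=
            add_le_add h10 h11
        _ = _ := by ring
    · have : Ioo 0 k = ∅ := by
        rw [Finset.eq_empty_iff_forall_notMem]
        intro t ht
        rw [mem_Ioo] at ht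
        omega
      rw [this, sum_empty]
      have h5 : 0 ≤ 2 + Real.log (2 * D) := by linarith
      positivity
  rw [sum_congr rfl fun χ _ => by rw [h1 χ]]
  refine (chars_le k F).trans ((sum_le_sum h2).trans ?_)
  rw [← mul_sum]
  exact mul_le_mul_of_nonneg_left (h3.trans h4) (by positivity)

end Pool.Agent.HL
end

section
/-! # Module TypeIVar: type I sums over the non-principal characters mod `k`, level up to `x^(1-ε)/√k` for ALL `k ≤ x^(1-ε)`
(`vdiff2` has `k (D + k)²`, too large for `k > x^(2/3)`.) From `typeI_chars3` (VDiff3). -/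

namespace Pool.Agent.HS

open Finset Pool.Agent.BV Pool.Agent.HL

theorem typeI_var : ∃ (C : ℝ) (c : ℕ), 0 < C ∧ ∀ (k D y : ℕ) [NeZero k] (w : ℕ → ℂ) (W : ℝ), 3 ≤ y →
    k ≤ y → D ≤ y → 0 ≤ W → (∀ m, ‖w m‖ ≤ W) →
    ∑ χ ∈ (univ : Finset (DirichletCharacter ℂ k)).erase 1,
      ‖∑ m ∈ Icc 1 D, w m * χ (m : ZMod k) * ∑ j ∈ Icc 1 (y / m), χ (j : ZMod k)‖ ^ 2 ≤
      C * W ^ 2 * k * ((D : ℝ) ^ 2 + y) * (Real.log y) ^ c := by
  refine ⟨5000 * 2 * 64 * 3, 4, by norm_num, ?_⟩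
  intro k D y _ w W hy hky hDy hW hw
  have hL : 1 ≤ Real.log y := DivSum_log y hy
  have hk0 : (0 : ℝ) ≤ k := Nat.cast_nonneg k
  have hk1 : (1 : ℝ) ≤ k := by exact_mod_cast Nat.pos_of_ne_zero (NeZero.ne k)
  have hy0 : (0 : ℝ) < y := by exact_mod_cast (by omega : 0 < y)
  rcases Nat.eq_zero_or_pos D with hD | hD
  · subst hD
    simp only [show Icc 1 0 = (∅ : Finset ℕ) from rfl, sum_empty, norm_zero]
    rw [zero_pow two_ne_zero, sum_const_zero]
    positivity
  have hD1 : (1 : ℝ) ≤ D := by exact_mod_cast hD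
  have h := typeI_chars3 k D hD w (fun _ => (1 : ℂ)) (fun m => y / m) ((y : ℝ) + D) 1 W
    (by positivity) (by norm_num) hW (fun m _ => hw m) ?_
    (fun m _ β => VDiff2.geom_Icc (y / m) β)
  · have h2 : Real.log k ≤ Real.log y := Real.log_le_log (by linarith) (by exact_mod_cast hky)
    have h3 : 2 + Real.log (2 * D) ≤ 4 * Real.log y := by
      rw [Real.log_mul (by norm_num) (by linarith)]
      have h4 : Real.log D ≤ Real.log y := Real.log_le_log (by linarith) (by exact_mod_cast hDy)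
      have h5 := Real.log_two_lt_d9
      linarith
    have h3' : 0 ≤ 2 + Real.log (2 * D) := by
      have := Real.log_nonneg (show (1 : ℝ) ≤ 2 * D by linarith)
      linarith
    have h4 : 2 + Real.log k ≤ 3 * Real.log y := by linarith
    have h4' : 0 ≤ 2 + Real.log k := by
      have := Real.log_nonneg hk1
      linarith
    have h5 : (D : ℝ) ^ 2 + (y + D) ≤ 2 * ((D : ℝ) ^ 2 + y) := by nlinarith
    simp only [one_mul] at h
    refine h.trans ?_
    calc W ^ 2 * (5000 * k * ((D : ℝ) ^ 2 + (y + D)) * ((2 + Real.log (2 * D)) ^ 3 *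
        (2 + Real.log k)))
        ≤ W ^ 2 * (5000 * k * (2 * ((D : ℝ) ^ 2 + y)) * ((4 * Real.log y) ^ 3 *
        (3 * Real.log y))) := by gcongr
      _ = _ := by ring
  · intro m hm
    rw [mem_Icc] at hm
    have hm0 : (0 : ℝ) < m := by exact_mod_cast hm.1
    have h1 : ((y / m : ℕ) : ℝ) ≤ (y : ℝ) / m := Nat.cast_div_le
    rw [add_div]
    have h2 : (1 : ℝ) ≤ D / m := by
      rw [le_div_iff₀ hm0, one_mul]
      exact_mod_cast hm.2
    linarith

end Pool.Agent.HS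
end

section
/-! # Module Unif: Bombieri-Vinogradov uniformly in the length `y ≤ x`

Grid `y_i = min x (i h)`, `h = ⌈x/(log x)^(A+2)⌉₊`, `i ≤ I ≤ 2 (log x)^(A+2)` (for `x` below a constant
the claim is trivial: every summand is `≤ 2 x log x`). For `y_i ≤ y ≤ y_{i+1}`, monotonicity of `psiA q a` and
`psi` gives `|psiA q a y - psi y/φ(q)| ≤ E_i(q) + E_{i+1}(q) + 2 (psi y_{i+1} - psi y_i)/φ(q)` with
`E_i(q) = |psiA q (a q) y_i - psi y_i/φ(q)|`, and `psi y_{i+1} - psi y_i ≤ h log x` trivially. Hence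
`∑_q |...| ≤ 2 ∑_{i ≤ I} ∑_q E_i(q) + 2 h log x ∑_q 1/φ(q)`. Second term `≤ C x/(log x)^A`
(`sum_inv_totient`). First: for `y_i ≥ √x·(...)` say `y_i ≥ x^{0.99}` apply `bombieri_vinogradov (2A+4)` at
`y_i`; the condition `Q ≤ y_i^(9/20)` fails if only `Q ≤ x^(9/20)`, therefore the statement below has
`Q ≤ x^(4/9)` (`4/9 < 0.99 * 9/20 = 0.4455`). For `y_i < x^{0.99}`:
`E_i(q) ≤ (y_i/q + 1) log x + y_i log x/φ(q)`, so `∑_q E_i(q) ≤ C x^{0.99} (log x)^3 + Q log x`. -/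

namespace Pool.Agent.BV

open Finset
open scoped ArithmeticFunction.vonMangoldt

end Pool.Agent.BV
end

section
/-! # Module Primes: Bombieri-Vinogradov for `θ` and for `π`, uniformly in `y ≤ x`

`thetaA`, `theta`: logarithms of primes only. Prime powers: `0 ≤ psiA q a y - thetaA q a y ≤ psi y - theta y`
`≤ 2 √x log x` (Mathlib `Chebyshev.psi_sub_theta_le` or a direct count), times `Q ≤ x^(4/9)`:
negligible (`x^{17/18} log x`). `bv_theta` follows from `bv_uniform`.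

`bv_primes`: `piA q a y = ∑_{n ≤ y} (thetaA q a n - thetaA q a (n-1))/log n`, Abel summation:
`E^π_q(y) = E^θ_q(y)/log y + ∑_{2 ≤ n < y} E^θ_q(n) (1/log n - 1/log(n+1))` (for `y ≥ 2`), where
`E^θ_q(n) = thetaA q (a q) n - theta n/φ(q)`. Sum absolute values over `q`, use `bv_theta` (constant `y`) for
every `n` (bound `C x/(log x)^A` for all `n ≤ x`), and `∑_n (1/log n - 1/log(n+1)) ≤ 1/log 2`. -/

namespace Pool.Agent.BV

open Finset
open scoped ArithmeticFunction.vonMangoldt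

noncomputable section

def theta (x : ℕ) : ℝ := ∑ p ∈ (Icc 1 x).filter Nat.Prime, Real.log p

/-- powers of the logarithm are negligible -/
theorem primes_logpow (k : ℕ) (δ : ℝ) (hδ : 0 < δ) : ∃ C : ℝ, 0 < C ∧ ∀ x : ℝ, 1 ≤ x →
    (Real.log x) ^ k ≤ C * x ^ δ := by
  set ε : ℝ := δ / (k + 1) with hε
  have hk : (0 : ℝ) < (k : ℝ) + 1 := by positivity
  have hε0 : 0 < ε := div_pos hδ hk
  refine ⟨(1 / ε) ^ k, by positivity, fun x hx => ?_⟩
  have h0 : (0 : ℝ) ≤ x := by linarith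
  have h1 := Real.log_le_rpow_div h0 hε0
  have h2 : (Real.log x) ^ k ≤ (x ^ ε / ε) ^ k :=
    pow_le_pow_left₀ (Real.log_nonneg hx) h1 k
  have h3 : (x ^ ε / ε) ^ k = (1 / ε) ^ k * (x ^ ε) ^ k := by
    rw [← mul_pow]
    congr 1
    ring
  rw [h3] at h2
  refine h2.trans ?_
  apply mul_le_mul_of_nonneg_left _ (by positivity)
  rw [← Real.rpow_natCast, ← Real.rpow_mul h0]
  apply Real.rpow_le_rpow_of_exponent_le hx
  rw [hε, div_mul_eq_mul_div, div_le_iff₀ hk]
  nlinarith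

theorem primes_psi_eq (y : ℕ) : psi y = Chebyshev.psi (y : ℝ) := by
  unfold psi Chebyshev.psi
  rw [Nat.floor_natCast]
  apply sum_congr _ (fun _ _ => rfl)
  ext n
  simp
  omega

theorem primes_theta_eq (y : ℕ) : theta y = Chebyshev.theta (y : ℝ) := by
  unfold theta Chebyshev.theta
  rw [Nat.floor_natCast]
  apply sum_congr _ (fun _ _ => rfl)
  ext n
  simp
  omega

theorem primes_sub_le {x y : ℕ} (hx : 3 ≤ x) (hy : y ≤ x) :
    psi y - theta y ≤ 2 * Real.sqrt x * Real.log x := by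
  rw [primes_psi_eq, primes_theta_eq]
  have hx' : (1 : ℝ) ≤ x := by exact_mod_cast (by omega : 1 ≤ x)
  rcases Nat.eq_zero_or_pos y with h | h
  · subst h
    simp only [Nat.cast_zero, Chebyshev.psi_zero, Chebyshev.theta_zero, sub_zero]
    have := Real.log_nonneg hx'
    positivity
  · have hy' : (1 : ℝ) ≤ y := by exact_mod_cast h
    have hyx : (y : ℝ) ≤ x := by exact_mod_cast hy
    refine (Chebyshev.psi_sub_theta_le hy').trans ?_
    have h1 := Real.sqrt_le_sqrt hyx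
    have h2 := Real.log_le_log (by linarith) hyx
    have h3 := Real.log_nonneg hy'
    have h4 := Real.sqrt_nonneg (y : ℝ)
    exact mul_le_mul (mul_le_mul_of_nonneg_left h1 two_pos.le) h2 h3 (by positivity)

end

end Pool.Agent.BV
end

section
/-! # Module Evt: asymptotic comparison of powers of `log x` and of `x` (natural `x`) -/

namespace Pool.Agent.HL

open Filter Finset Pool.Agent.BV

/-- `log x ≥ M` eventually -/
theorem evt_log (M : ℝ) : ∀ᶠ x : ℕ in atTop, M ≤ Real.log x := by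
  have h : Tendsto (fun x : ℕ => Real.log (x : ℝ)) atTop atTop :=
    Real.tendsto_log_atTop.comp tendsto_natCast_atTop_atTop
  exact h.eventually_ge_atTop M

/-- `c (log x)^k ≤ x^δ` eventually -/
theorem evt_pow (c : ℝ) (k : ℕ) (δ : ℝ) (hδ : 0 < δ) :
    ∀ᶠ x : ℕ in atTop, c * (Real.log x) ^ k ≤ (x : ℝ) ^ δ := by
  obtain ⟨C, hC, h⟩ := primes_logpow k (δ / 2) (by linarith)
  have h2 : Tendsto (fun x : ℕ => ((x : ℝ)) ^ (δ / 2)) atTop atTop :=
    (tendsto_rpow_atTop (by linarith)).comp tendsto_natCast_atTop_atTop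
  filter_upwards [h2.eventually_ge_atTop (|c| * C), eventually_ge_atTop 1] with x hx hx1
  have hx1' : (1 : ℝ) ≤ x := by exact_mod_cast hx1
  have h3 := h x hx1'
  have h0 : 0 ≤ Real.log x := Real.log_natCast_nonneg x
  have hp : (0 : ℝ) ≤ (x : ℝ) ^ (δ / 2) := by positivity
  calc c * (Real.log x) ^ k ≤ |c| * (Real.log x) ^ k := by
        gcongr
        exact le_abs_self c
    _ ≤ |c| * (C * (x : ℝ) ^ (δ / 2)) := by gcongr
    _ = (|c| * C) * (x : ℝ) ^ (δ / 2) := by ring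
    _ ≤ (x : ℝ) ^ (δ / 2) * (x : ℝ) ^ (δ / 2) := by gcongr
    _ = (x : ℝ) ^ δ := by
        rw [← Real.rpow_add (by linarith)]
        congr 1
        ring

end Pool.Agent.HL
end

section
/-! # Module CtlVar: variance of controlled functions

Type I: `typeI_var`, `W = 1`, coefficients cut at `min D y`: `C k (D² + x) L^c` (for `y < k` trivially by `mean_value`: `(y + k) y L³`). Type II, fixed `j`: cells
`[w₁ (1+η)^i, w₁ (1+η)^(i+1))` for `c ∈ [w₁, w₂]`, at most `5 L/η`; replace `l ≤ y/c` by `l ≤ y/g(i+1)`: `A_i(χ) B_i(χ)`, `‖A_i‖ ≤ 2 g(i+1) ρ`,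
`∑_χ ‖B_i‖² ≤ (K + k) K L^c`, `K = y/g(i+1)`: total `C L^c ρ² η⁻² (x² + w₂ k x)`. Boundary: coefficients `≤ τ(n)³` on `y (1 - η) ≤ n ≤ y`:
`mean_value`, `tau_short 6`: `(η x + 1 + k) √(η x + 1) √x L^c`. Cauchy over `j < J`. Error: `(x + k) M`. As in HL/Mass2. -/

namespace Pool.Agent.HS

open Finset Pool.Agent.BV Pool.Agent.HL
open Pool.Agent.HT (tau_sum tau_short)

namespace CtlVar

/-- the grid from `w₁ - 1` to `w₂` -/
noncomputable def gg (η : ℝ) (w₁ w₂ i : ℕ) : ℕ := min w₂ (⌈(w₁ : ℝ) * (1 + η) ^ i⌉₊ - 1)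

lemma gg_mono {η : ℝ} (hη : 0 ≤ η) (w₁ w₂ : ℕ) : Monotone (gg η w₁ w₂) := by
  intro i j hij
  unfold gg
  refine min_le_min le_rfl (Nat.sub_le_sub_right (Nat.ceil_mono ?_) 1)
  exact mul_le_mul_of_nonneg_left (pow_le_pow_right₀ (by linarith) hij) (Nat.cast_nonneg _)

lemma gg_zero {η : ℝ} {w₁ w₂ : ℕ} (h : w₁ ≤ w₂) : gg η w₁ w₂ 0 = w₁ - 1 := by
  unfold gg
  rw [pow_zero, mul_one, Nat.ceil_natCast]
  omega

lemma gg_le (η : ℝ) (w₁ w₂ i : ℕ) : gg η w₁ w₂ i ≤ w₂ := min_le_left _ _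

lemma le_gg {η : ℝ} (hη : 0 < η) {w₁ w₂ i : ℕ} (h1 : 1 ≤ w₁) (h : w₁ ≤ w₂) (hi : i ≠ 0) :
    w₁ ≤ gg η w₁ w₂ i := by
  unfold gg
  refine le_min h ?_
  have h2 : w₁ < ⌈(w₁ : ℝ) * (1 + η) ^ i⌉₊ := by
    rw [Nat.lt_ceil]
    have h3 : 1 < (1 + η) ^ i := one_lt_pow₀ (by linarith) hi
    have h4 : (0 : ℝ) < w₁ := by exact_mod_cast h1
    nlinarith
  omega

lemma gg_ratio {η : ℝ} (hη : 0 < η) {w₁ w₂ i c : ℕ} (hc : gg η w₁ w₂ i < c) (hc2 : c ≤ w₂) :
    (gg η w₁ w₂ (i + 1) : ℝ) ≤ (1 + η) * c := by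
  have h1 : ⌈(w₁ : ℝ) * (1 + η) ^ i⌉₊ ≤ c := by
    unfold gg at hc
    omega
  have h2 : (w₁ : ℝ) * (1 + η) ^ i ≤ c := Nat.ceil_le.1 h1
  have h3 : (gg η w₁ w₂ (i + 1) : ℝ) ≤ (w₁ : ℝ) * (1 + η) ^ (i + 1) := by
    have h4 : gg η w₁ w₂ (i + 1) ≤ ⌈(w₁ : ℝ) * (1 + η) ^ (i + 1)⌉₊ - 1 := min_le_right _ _
    have h5 : (⌈(w₁ : ℝ) * (1 + η) ^ (i + 1)⌉₊ : ℝ) < (w₁ : ℝ) * (1 + η) ^ (i + 1) + 1 :=
      Nat.ceil_lt_add_one (by positivity)
    rcases Nat.eq_zero_or_pos ⌈(w₁ : ℝ) * (1 + η) ^ (i + 1)⌉₊ with h6 | h6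
    · rw [h6] at h4
      have h7 : gg η w₁ w₂ (i + 1) = 0 := by omega
      rw [h7, Nat.cast_zero]
      positivity
    · have h7 : (gg η w₁ w₂ (i + 1) : ℝ) + 1 ≤ ⌈(w₁ : ℝ) * (1 + η) ^ (i + 1)⌉₊ := by
        exact_mod_cast (by omega : gg η w₁ w₂ (i + 1) + 1 ≤ ⌈(w₁ : ℝ) * (1 + η) ^ (i + 1)⌉₊)
      linarith
  calc (gg η w₁ w₂ (i + 1) : ℝ) ≤ (w₁ : ℝ) * (1 + η) ^ (i + 1) := h3
    _ = (1 + η) * (w₁ * (1 + η) ^ i) := by ring
    _ ≤ (1 + η) * c := mul_le_mul_of_nonneg_left h2 (by linarith)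

lemma gg_end {η : ℝ} (hη : 0 < η) (hη1 : η ≤ 1) {x w₁ w₂ I : ℕ} (hx : 3 ≤ x) (h1 : 1 ≤ w₁)
    (h2 : w₂ ≤ x) (hI : 4 * Real.log x / η < I) : gg η w₁ w₂ I = w₂ := by
  have h3 : (x : ℝ) < gr η I := by
    by_contra h
    rw [not_lt] at h
    have := MassA.gr_count hη hη1 (x := x) (by exact_mod_cast (by omega : 2 ≤ x)) h
    linarith
  have h4 := MassA.gr_le_pow hη.le I
  have h5 : (w₂ : ℝ) < (w₁ : ℝ) * (1 + η) ^ I := by
    have h6 : (w₂ : ℝ) ≤ x := by exact_mod_cast h2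
    have h7 : (1 : ℝ) ≤ w₁ := by exact_mod_cast h1
    have h8 : (1 + η) ^ I ≤ (w₁ : ℝ) * (1 + η) ^ I := le_mul_of_one_le_left (by positivity) h7
    linarith
  have h6 : w₂ < ⌈(w₁ : ℝ) * (1 + η) ^ I⌉₊ := Nat.lt_ceil.2 h5
  unfold gg
  omega

/-- expansion of a sum of a Dirichlet convolution -/
lemma expand (y : ℕ) (a b ψ : ℕ → ℂ) :
    ∑ n ∈ Icc 1 y, (∑ p ∈ n.divisorsAntidiagonal, a p.1 * b p.2) * ψ n =
      ∑ c ∈ Icc 1 y, ∑ l ∈ Icc 1 y, if c * l ≤ y then a c * b l * ψ (c * l) else 0 := by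
  have h1 : ∀ n ∈ Icc 1 y,
      (∑ p ∈ n.divisorsAntidiagonal, a p.1 * b p.2) * ψ n =
      ∑ p ∈ Icc 1 y ×ˢ Icc 1 y, if p.1 * p.2 = n then
        (if p.1 * p.2 ≤ y then a p.1 * b p.2 * ψ (p.1 * p.2) else 0) else 0 := by
    intro n hn
    obtain ⟨hn1, hn2⟩ := mem_Icc.mp hn
    have hset : (Icc 1 y ×ˢ Icc 1 y).filter (fun p : ℕ × ℕ => p.1 * p.2 = n) =
        n.divisorsAntidiagonal := by
      ext p
      simp only [mem_filter, mem_product, mem_Icc, Nat.mem_divisorsAntidiagonal]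
      constructor
      · rintro ⟨_, h⟩
        exact ⟨h, by omega⟩
      · rintro ⟨h, _⟩
        have h1 : p.1 ≠ 0 := by
          intro h0
          rw [h0, zero_mul] at h
          omega
        have h2 : p.2 ≠ 0 := by
          intro h0
          rw [h0, mul_zero] at h
          omega
        refine ⟨⟨⟨by omega, ?_⟩, ⟨by omega, ?_⟩⟩, h⟩
        · exact le_trans (Nat.le_mul_of_pos_right _ (by omega)) (h.le.trans hn2)
        · exact le_trans (Nat.le_mul_of_pos_left _ (by omega)) (h.le.trans hn2)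
    rw [← sum_filter, hset, sum_mul]
    refine sum_congr rfl fun p hp => ?_
    have h2 := (Nat.mem_divisorsAntidiagonal.mp hp).1
    rw [if_pos (by rw [h2]; exact hn2), h2]
  rw [sum_congr rfl h1, sum_comm, sum_product]
  refine sum_congr rfl fun c hc => sum_congr rfl fun l hl => ?_
  rw [sum_ite_eq]
  rw [mem_Icc] at hc hl
  by_cases h : c * l ≤ y
  · rw [if_pos]
    rw [mem_Icc]
    exact ⟨Nat.mul_pos hc.1 hl.1, h⟩
  · rw [if_neg h]
    split_ifs <;> rfl

lemma sq_sum_le {ι : Type*} (s : Finset ι) (f : ι → ℂ) :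
    ‖∑ i ∈ s, f i‖ ^ 2 ≤ (s.card : ℝ) * ∑ i ∈ s, ‖f i‖ ^ 2 := by
  calc ‖∑ i ∈ s, f i‖ ^ 2 ≤ (∑ i ∈ s, ‖f i‖) ^ 2 :=
        pow_le_pow_left₀ (norm_nonneg _) (norm_sum_le _ _) 2
    _ ≤ _ := sq_sum_le_card_mul_sum_sq

/-- coefficients of the error term -/
noncomputable def ecf (a b : ℕ → ℂ) (g : ℕ → ℕ) (y I n : ℕ) : ℂ :=
  ∑ i ∈ range I, ∑ c ∈ Ioc (g i) (g (i + 1)), ∑ l ∈ Icc 1 y,
    if c * l = n ∧ y / g (i + 1) < l then a c * b l else 0

lemma sum_blocks0 {M : Type*} [AddCommMonoid M] (g : ℕ → ℕ) (hg : Monotone g) (f : ℕ → M)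
    (I : ℕ) : ∑ i ∈ range I, ∑ c ∈ Ioc (g i) (g (i + 1)), f c = ∑ c ∈ Ioc (g 0) (g I), f c := by
  rw [Finset.range_eq_Ico]
  exact MassA.sum_blocks g hg f 0 I (Nat.zero_le I)

theorem decomp {k : ℕ} (χ : DirichletCharacter ℂ k) (a b : ℕ → ℂ) (g : ℕ → ℕ) (hg : Monotone g)
    (y I M : ℕ) (hM : ∀ i < I, ∀ c ∈ Ioc (g i) (g (i + 1)), ∀ l, y / g (i + 1) < l → M < c * l)
    (ha : ∀ c, a c ≠ 0 → g 0 < c ∧ c ≤ g I) :
    ∑ n ∈ Icc 1 y, (∑ p ∈ n.divisorsAntidiagonal, a p.1 * b p.2) * χ (n : ZMod k) =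
      ∑ i ∈ range I, (∑ c ∈ Ioc (g i) (g (i + 1)), a c * χ (c : ZMod k)) *
        (∑ l ∈ Icc 1 (y / g (i + 1)), b l * χ (l : ZMod k)) +
      ∑ n ∈ Ioc M y, ecf a b g y I n * χ (n : ZMod k) := by
  set t : ℕ → ℕ → ℂ := fun c l => a c * b l * χ ((c * l : ℕ) : ZMod k) with ht
  set f : ℕ → ℂ := fun c => ∑ l ∈ Icc 1 y, if c * l ≤ y then t c l else 0 with hf
  have h1 : ∑ n ∈ Icc 1 y, (∑ p ∈ n.divisorsAntidiagonal, a p.1 * b p.2) * χ (n : ZMod k) =
      ∑ c ∈ Ioc (g 0) (g I), f c := by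
    rw [expand y a b (fun n => χ (n : ZMod k))]
    have hz1 : ∀ c, y < c → f c = 0 := by
      intro c hc
      refine Finset.sum_eq_zero fun l hl => ?_
      rw [mem_Icc] at hl
      have : y < c * l := lt_of_lt_of_le hc (Nat.le_mul_of_pos_right c (by omega))
      rw [if_neg (not_le.2 this)]
    have hz2 : ∀ c, ¬ (g 0 < c ∧ c ≤ g I) → f c = 0 := by
      intro c hc
      have h0 : a c = 0 := by
        by_contra h
        exact hc (ha c h)
      refine Finset.sum_eq_zero fun l _ => ?_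
      rw [ht]
      simp [h0]
    have e1 : ∑ c ∈ Icc 1 (max y (g I)), f c = ∑ c ∈ Icc 1 y, f c := by
      symm
      refine Finset.sum_subset (Icc_subset_Icc_right (le_max_left _ _)) ?_
      intro c hc hc'
      rw [mem_Icc] at hc hc'
      exact hz1 c (by omega)
    have e2 : ∑ c ∈ Icc 1 (max y (g I)), f c = ∑ c ∈ Ioc (g 0) (g I), f c := by
      symm
      refine Finset.sum_subset ?_ ?_
      · intro c hc
        rw [mem_Ioc] at hc
        rw [mem_Icc]
        exact ⟨by omega, hc.2.trans (le_max_right _ _)⟩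
      intro c hc hc'
      rw [mem_Ioc] at hc'
      exact hz2 c hc'
    rw [← e2, e1]
  rw [h1, ← sum_blocks0 g hg f I]
  have h2 : ∀ i ∈ range I, ∀ c ∈ Ioc (g i) (g (i + 1)), f c =
      a c * χ (c : ZMod k) * (∑ l ∈ Icc 1 (y / g (i + 1)), b l * χ (l : ZMod k)) +
      ∑ l ∈ Icc 1 y, if c * l ≤ y ∧ y / g (i + 1) < l then t c l else 0 := by
    intro i _ c hc
    rw [mem_Ioc] at hc
    have e1 : ∀ l ∈ Icc 1 y, (if c * l ≤ y then t c l else 0) =
        (if l ≤ y / g (i + 1) then t c l else 0) +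
          (if c * l ≤ y ∧ y / g (i + 1) < l then t c l else 0) := by
      intro l _
      by_cases hk : l ≤ y / g (i + 1)
      · have h3 : c * l ≤ y := by
          calc c * l ≤ g (i + 1) * (y / g (i + 1)) := Nat.mul_le_mul hc.2 hk
            _ ≤ y := Nat.mul_div_le y _
        rw [if_pos h3, if_pos hk, if_neg (fun h => absurd h.2 (not_lt.2 hk)), add_zero]
      · rw [if_neg hk, zero_add]
        simp only [not_le.1 hk, and_true]
    rw [hf]
    simp only
    rw [Finset.sum_congr rfl e1, Finset.sum_add_distrib]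
    congr 1
    rw [← Finset.sum_filter]
    have e2 : (Icc 1 y).filter (fun l => l ≤ y / g (i + 1)) = Icc 1 (y / g (i + 1)) := by
      ext l
      simp only [mem_filter, mem_Icc]
      have := Nat.div_le_self y (g (i + 1))
      omega
    rw [e2, Finset.mul_sum]
    refine Finset.sum_congr rfl fun l _ => ?_
    rw [ht]
    simp only [Nat.cast_mul, map_mul]
    ring
  have h3 : ∑ i ∈ range I, ∑ c ∈ Ioc (g i) (g (i + 1)), f c =
      ∑ i ∈ range I, (∑ c ∈ Ioc (g i) (g (i + 1)), a c * χ (c : ZMod k)) *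
        (∑ l ∈ Icc 1 (y / g (i + 1)), b l * χ (l : ZMod k)) +
      ∑ i ∈ range I, ∑ c ∈ Ioc (g i) (g (i + 1)),
        ∑ l ∈ Icc 1 y, if c * l ≤ y ∧ y / g (i + 1) < l then t c l else 0 := by
    rw [← Finset.sum_add_distrib]
    refine Finset.sum_congr rfl fun i hi => ?_
    rw [Finset.sum_congr rfl (h2 i hi), Finset.sum_add_distrib, ← Finset.sum_mul]
  rw [h3]
  congr 1
  have h4 : ∀ n ∈ Ioc M y, ecf a b g y I n * χ (n : ZMod k) =
      ∑ i ∈ range I, ∑ c ∈ Ioc (g i) (g (i + 1)), ∑ l ∈ Icc 1 y,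
        if c * l = n then (if y / g (i + 1) < l then t c l else 0) else 0 := by
    intro n _
    unfold ecf
    rw [Finset.sum_mul]
    refine Finset.sum_congr rfl fun i _ => ?_
    rw [Finset.sum_mul]
    refine Finset.sum_congr rfl fun c _ => ?_
    rw [Finset.sum_mul]
    refine Finset.sum_congr rfl fun l _ => ?_
    by_cases h5 : c * l = n
    · by_cases h6 : y / g (i + 1) < l
      · rw [if_pos ⟨h5, h6⟩, if_pos h5, if_pos h6, ht, ← h5]
      · rw [if_neg (fun h => h6 h.2), if_pos h5, if_neg h6, zero_mul]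
    · rw [if_neg (fun h => h5 h.1), if_neg h5, zero_mul]
  rw [Finset.sum_congr rfl h4]
  refine Eq.trans ?_ Finset.sum_comm
  refine Finset.sum_congr rfl fun i hi => ?_
  refine Eq.trans ?_ Finset.sum_comm
  refine Finset.sum_congr rfl fun c hc => ?_
  refine Eq.trans ?_ Finset.sum_comm
  refine Finset.sum_congr rfl fun l _ => ?_
  rw [Finset.sum_ite_eq]
  by_cases h6 : y / g (i + 1) < l
  · have h7 := hM i (mem_range.1 hi) c hc l h6
    simp only [h6, and_true, if_true, mem_Ioc, h7, true_and]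
  · simp only [h6, and_false, if_false, ite_self]

theorem norm_ecf_le (a b : ℕ → ℂ) (g : ℕ → ℕ) (hg : Monotone g) (y I n : ℕ) (hn : n ≠ 0)
    (ha : ∀ c, ‖a c‖ ≤ 1) (hb : ∀ l, ‖b l‖ ≤ (l.divisors.card : ℝ) ^ 2) :
    ‖ecf a b g y I n‖ ≤ (n.divisors.card : ℝ) ^ 3 := by
  unfold ecf
  have h1 : ‖∑ i ∈ range I, ∑ c ∈ Ioc (g i) (g (i + 1)), ∑ l ∈ Icc 1 y,
      (if c * l = n ∧ y / g (i + 1) < l then a c * b l else 0)‖ ≤
      ∑ i ∈ range I, ∑ c ∈ Ioc (g i) (g (i + 1)), ∑ l ∈ Icc 1 y,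
        (if c * l = n then (l.divisors.card : ℝ) ^ 2 else 0) := by
    refine (norm_sum_le _ _).trans (Finset.sum_le_sum fun i _ => ?_)
    refine (norm_sum_le _ _).trans (Finset.sum_le_sum fun c _ => ?_)
    refine (norm_sum_le _ _).trans (Finset.sum_le_sum fun l _ => ?_)
    by_cases h5 : c * l = n
    · rw [if_pos h5]
      by_cases h6 : y / g (i + 1) < l
      · rw [if_pos ⟨h5, h6⟩, norm_mul]
        calc ‖a c‖ * ‖b l‖ ≤ 1 * (l.divisors.card : ℝ) ^ 2 :=
              mul_le_mul (ha c) (hb l) (norm_nonneg _) zero_le_one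
          _ = _ := one_mul _
      · rw [if_neg (fun h => h6 h.2), norm_zero]
        positivity
    · rw [if_neg (fun h => h5 h.1), if_neg h5, norm_zero]
  refine h1.trans ?_
  rw [sum_blocks0 g hg (fun c => ∑ l ∈ Icc 1 y,
    (if c * l = n then (l.divisors.card : ℝ) ^ 2 else 0)) I]
  rw [← Finset.sum_product', ← Finset.sum_filter (fun p : ℕ × ℕ => p.1 * p.2 = n)]
  have hsub : ((Ioc (g 0) (g I)) ×ˢ (Icc 1 y)).filter (fun p : ℕ × ℕ => p.1 * p.2 = n) ⊆
      n.divisorsAntidiagonal := by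
    intro p hp
    rw [mem_filter] at hp
    rw [Nat.mem_divisorsAntidiagonal]
    exact ⟨hp.2, hn⟩
  refine (Finset.sum_le_sum_of_subset_of_nonneg hsub ?_).trans ?_
  · intro p _ _
    positivity
  · have h2 : ∀ p ∈ n.divisorsAntidiagonal, (p.2.divisors.card : ℝ) ^ 2 ≤
        (n.divisors.card : ℝ) ^ 2 := by
      intro p hp
      rw [Nat.mem_divisorsAntidiagonal] at hp
      refine pow_le_pow_left₀ (by positivity) ?_ 2
      exact_mod_cast Finset.card_le_card (Nat.divisors_subset_of_dvd hn ⟨p.1, by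
        rw [← hp.1]; ring⟩)
    refine (Finset.sum_le_sum h2).trans (le_of_eq ?_)
    have h6 : (n.divisorsAntidiagonal.card : ℝ) = n.divisors.card := by
      rw [DivSum_tau]
      simp
    rw [Finset.sum_const, nsmul_eq_mul, h6]
    ring

/-- mean value over `[1, N]` -/
lemma mv1 (k : ℕ) [NeZero k] (N : ℕ) (b : ℕ → ℂ) (X : Finset (DirichletCharacter ℂ k)) :
    ∑ χ ∈ X, ‖∑ n ∈ Icc 1 N, b n * χ (n : ZMod k)‖ ^ 2 ≤
      ((N : ℝ) + k) * ∑ n ∈ Icc 1 N, ‖b n‖ ^ 2 := by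
  have h1 := mean_value k 0 N b
  rw [Nat.zero_add] at h1
  exact (Finset.sum_le_sum_of_subset_of_nonneg (Finset.subset_univ X)
    (fun _ _ _ => sq_nonneg _)).trans h1

/-- mean square of the error term -/
theorem err_ms {C₁ : ℝ} (hC₁ : 0 < C₁) (hτ : ∀ x a b : ℕ, 3 ≤ x → a ≤ b → b ≤ x →
      ∑ n ∈ Ioc a b, (n.divisors.card : ℝ) ^ 6 ≤
        C₁ * Real.sqrt ((b : ℝ) - a) * Real.sqrt x * (Real.log x) ^ (2 ^ (2 * 6)))
    (k : ℕ) [NeZero k] (a b : ℕ → ℂ) (ha : ∀ c, ‖a c‖ ≤ 1)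
    (hb : ∀ l, ‖b l‖ ≤ (l.divisors.card : ℝ) ^ 2)
    (g : ℕ → ℕ) (hg : Monotone g) (y I M x : ℕ) (η : ℝ) (hη : 0 < η)
    (hx : 3 ≤ x) (hMy : M ≤ y) (hyx : y ≤ x) (hM : (y : ℝ) - M ≤ 2 * (η * x))
    (X : Finset (DirichletCharacter ℂ k)) :
    ∑ χ ∈ X, ‖∑ n ∈ Ioc M y, ecf a b g y I n * χ (n : ZMod k)‖ ^ 2 ≤
      3 * C₁ * (Real.log x) ^ 4096 * ((η * x + k) * Real.sqrt η * x) := by
  have h1 := mean_value k M (y - M) (ecf a b g y I)
  rw [Nat.add_sub_cancel' hMy] at h1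
  have hL : 1 ≤ Real.log x := DivSum_log x hx
  have hx0 : (0 : ℝ) < x := by exact_mod_cast (by omega : 0 < x)
  refine (Finset.sum_le_sum_of_subset_of_nonneg (Finset.subset_univ X)
    (fun _ _ _ => sq_nonneg _)).trans (h1.trans ?_)
  have h2 : ∑ n ∈ Ioc M y, ‖ecf a b g y I n‖ ^ 2 ≤
      C₁ * Real.sqrt ((y : ℝ) - M) * Real.sqrt x * (Real.log x) ^ 4096 := by
    refine le_trans ?_ (hτ x M y hx hMy hyx)
    refine Finset.sum_le_sum fun n hn => ?_
    rw [mem_Ioc] at hn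
    calc ‖ecf a b g y I n‖ ^ 2 ≤ ((n.divisors.card : ℝ) ^ 3) ^ 2 :=
          pow_le_pow_left₀ (norm_nonneg _) (norm_ecf_le a b g hg y I n (by omega) ha hb) 2
      _ = _ := by ring
  have h3 : (((y - M : ℕ) : ℝ) + k) ≤ 2 * (η * x + k) := by
    rw [Nat.cast_sub hMy]
    have : (0 : ℝ) ≤ k := Nat.cast_nonneg k
    linarith
  have h4 : Real.sqrt ((y : ℝ) - M) * Real.sqrt x ≤ 3 / 2 * (Real.sqrt η * x) := by
    calc Real.sqrt ((y : ℝ) - M) * Real.sqrt x ≤ Real.sqrt (2 * (η * x)) * Real.sqrt x :=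
          mul_le_mul_of_nonneg_right (Real.sqrt_le_sqrt hM) (Real.sqrt_nonneg _)
      _ = Real.sqrt 2 * (Real.sqrt η * (Real.sqrt x * Real.sqrt x)) := by
          rw [Real.sqrt_mul (by norm_num), Real.sqrt_mul hη.le]
          ring
      _ = Real.sqrt 2 * (Real.sqrt η * x) := by rw [Real.mul_self_sqrt hx0.le]
      _ ≤ 3 / 2 * (Real.sqrt η * x) := by
          refine mul_le_mul_of_nonneg_right ?_ (by positivity)
          rw [Real.sqrt_le_left (by norm_num)]
          norm_num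
  calc (((y - M : ℕ) : ℝ) + k) * ∑ n ∈ Ioc M y, ‖ecf a b g y I n‖ ^ 2
      ≤ (2 * (η * x + k)) * (C₁ * Real.sqrt ((y : ℝ) - M) * Real.sqrt x *
          (Real.log x) ^ 4096) := by
        refine mul_le_mul h3 h2 (Finset.sum_nonneg fun _ _ => sq_nonneg _) (by positivity)
    _ = (2 * (η * x + k)) * C₁ * (Real.log x) ^ 4096 *
          (Real.sqrt ((y : ℝ) - M) * Real.sqrt x) := by ring
    _ ≤ (2 * (η * x + k)) * C₁ * (Real.log x) ^ 4096 * (3 / 2 * (Real.sqrt η * x)) :=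
        mul_le_mul_of_nonneg_left h4 (by positivity)
    _ = _ := by ring

/-- type I sums as iterated sums -/
lemma typeI_eq {k : ℕ} (χ : DirichletCharacter ℂ k) (D y : ℕ) (β : ℕ → ℝ)
    (hβD : ∀ m, D < m → β m = 0) :
    ∑ n ∈ Icc 1 y, ((∑ m ∈ n.divisors, β m : ℝ) : ℂ) * χ (n : ZMod k) =
      ∑ m ∈ Icc 1 (min D y), ((β m : ℝ) : ℂ) * χ (m : ZMod k) *
        ∑ j ∈ Icc 1 (y / m), χ (j : ZMod k) := by
  have h2 : ∀ n ∈ Icc 1 y, ((∑ m ∈ n.divisors, β m : ℝ) : ℂ) * χ (n : ZMod k) =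
      (∑ p ∈ n.divisorsAntidiagonal, ((β p.1 : ℝ) : ℂ) * (1 : ℂ)) * χ (n : ZMod k) := by
    intro n _
    congr 1
    simp only [mul_one]
    rw [Nat.sum_divisorsAntidiagonal (f := fun i _ => ((β i : ℝ) : ℂ))]
    push_cast
    rfl
  rw [sum_congr rfl h2]
  rw [expand y (fun c => ((β c : ℝ) : ℂ)) (fun _ => (1 : ℂ)) (fun n => χ (n : ZMod k))]
  have h3 : ∀ c ∈ Icc 1 y, ∑ l ∈ Icc 1 y, (if c * l ≤ y then
      ((β c : ℝ) : ℂ) * 1 * χ ((c * l : ℕ) : ZMod k) else 0) =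
      ((β c : ℝ) : ℂ) * χ (c : ZMod k) * ∑ j ∈ Icc 1 (y / c), χ (j : ZMod k) := by
    intro c hc
    rw [mem_Icc] at hc
    rw [← Finset.sum_filter]
    have e2 : (Icc 1 y).filter (fun l => c * l ≤ y) = Icc 1 (y / c) := by
      ext l
      simp only [mem_filter, mem_Icc]
      rw [Nat.le_div_iff_mul_le hc.1, mul_comm l c]
      constructor
      · rintro ⟨h, h'⟩
        exact ⟨h.1, h'⟩
      · rintro ⟨h, h'⟩
        exact ⟨⟨h, (Nat.le_mul_of_pos_left l hc.1).trans h'⟩, h'⟩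
    rw [e2, Finset.mul_sum]
    refine Finset.sum_congr rfl fun l _ => ?_
    simp only [Nat.cast_mul, map_mul]
    ring
  rw [sum_congr rfl h3]
  symm
  refine Finset.sum_subset (Icc_subset_Icc_right (min_le_right _ _)) ?_
  intro c hc hc'
  rw [mem_Icc] at hc hc'
  have : D < c := by omega
  rw [hβD c this]
  simp

/-- type I part -/
theorem partI {C₁ C₂ : ℝ} {c : ℕ} (hC₁ : 0 < C₁) (hC₂ : 0 < C₂)
    (hI : ∀ (k D y : ℕ) [NeZero k] (w : ℕ → ℂ) (W : ℝ), 3 ≤ y →
    k ≤ y → D ≤ y → 0 ≤ W → (∀ m, ‖w m‖ ≤ W) →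
    ∑ χ ∈ (univ : Finset (DirichletCharacter ℂ k)).erase 1,
      ‖∑ m ∈ Icc 1 D, w m * χ (m : ZMod k) * ∑ j ∈ Icc 1 (y / m), χ (j : ZMod k)‖ ^ 2 ≤
      C₁ * W ^ 2 * k * ((D : ℝ) ^ 2 + y) * (Real.log y) ^ c)
    (hτ : ∀ x N : ℕ, 3 ≤ x → N ≤ x →
      ∑ n ∈ Icc 1 N, (n.divisors.card : ℝ) ^ 2 ≤ C₂ * N * (Real.log x) ^ (2 ^ 2))
    {x y D k : ℕ} [NeZero k] {β : ℕ → ℝ} (hβ : ∀ m, |β m| ≤ 1) (hβD : ∀ m, D < m → β m = 0)
    (hx : 3 ≤ x) (hyx : y ≤ x) (X : Finset (DirichletCharacter ℂ k)) (hX : ∀ χ ∈ X, χ ≠ 1) :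
    ∑ χ ∈ X, ‖∑ n ∈ Icc 1 y, ((∑ m ∈ n.divisors, β m : ℝ) : ℂ) * χ (n : ZMod k)‖ ^ 2 ≤
      (C₁ + 3 * C₂) * (Real.log x) ^ (c + 4) * (k * ((D : ℝ) ^ 2 + x)) := by
  classical
  have hL : 1 ≤ Real.log x := DivSum_log x hx
  have hx0 : (0 : ℝ) < x := by exact_mod_cast (by omega : 0 < x)
  have hyx' : (y : ℝ) ≤ x := by exact_mod_cast hyx
  have hk1 : (1 : ℝ) ≤ k := by exact_mod_cast Nat.one_le_iff_ne_zero.2 (NeZero.ne k)
  by_cases hy : 3 ≤ y ∧ k ≤ y
  · obtain ⟨hy3, hky⟩ := hy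
    have hsub : X ⊆ (univ : Finset (DirichletCharacter ℂ k)).erase 1 := by
      intro χ hχ
      rw [mem_erase]
      exact ⟨hX χ hχ, mem_univ _⟩
    have h1 := hI k (min D y) y (fun m => ((β m : ℝ) : ℂ)) 1 hy3 hky (min_le_right _ _)
      zero_le_one (fun m => by
        rw [Complex.norm_real, Real.norm_eq_abs]
        exact hβ m)
    have h2 : ∑ χ ∈ X, ‖∑ n ∈ Icc 1 y, ((∑ m ∈ n.divisors, β m : ℝ) : ℂ) *
        χ (n : ZMod k)‖ ^ 2 ≤
        C₁ * 1 ^ 2 * k * (((min D y : ℕ) : ℝ) ^ 2 + y) * (Real.log y) ^ c := by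
      refine le_trans ?_ ((Finset.sum_le_sum_of_subset_of_nonneg hsub
        (fun _ _ _ => sq_nonneg _)).trans h1)
      refine Finset.sum_le_sum fun χ _ => ?_
      rw [typeI_eq χ D y β hβD]
    refine h2.trans ?_
    have h3 : ((min D y : ℕ) : ℝ) ≤ D := by exact_mod_cast min_le_left _ _
    have h4 : 0 ≤ Real.log y := Real.log_natCast_nonneg y
    have h5 : Real.log y ≤ Real.log x :=
      Real.log_le_log (by exact_mod_cast (by omega : 0 < y)) hyx'
    have h6 : (Real.log y) ^ c ≤ (Real.log x) ^ (c + 4) :=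
      (pow_le_pow_left₀ h4 h5 c).trans (pow_le_pow_right₀ hL (by omega))
    calc C₁ * 1 ^ 2 * k * (((min D y : ℕ) : ℝ) ^ 2 + y) * (Real.log y) ^ c
        ≤ C₁ * 1 ^ 2 * k * ((D : ℝ) ^ 2 + x) * (Real.log x) ^ (c + 4) := by gcongr
      _ = C₁ * (Real.log x) ^ (c + 4) * (k * ((D : ℝ) ^ 2 + x)) := by ring
      _ ≤ (C₁ + 3 * C₂) * (Real.log x) ^ (c + 4) * (k * ((D : ℝ) ^ 2 + x)) := by
        gcongr
        linarith
  · have h0 : (y : ℝ) + k ≤ 3 * k := by
      have : y + k ≤ 3 * k := by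
        have : 1 ≤ k := Nat.one_le_iff_ne_zero.2 (NeZero.ne k)
        by_cases h : 3 ≤ y
        · have : ¬ k ≤ y := fun h' => hy ⟨h, h'⟩
          omega
        · omega
      exact_mod_cast this
    have h1 := mv1 k y (fun n => ((∑ m ∈ n.divisors, β m : ℝ) : ℂ)) X
    refine h1.trans ?_
    have h2 : ∑ n ∈ Icc 1 y, ‖((∑ m ∈ n.divisors, β m : ℝ) : ℂ)‖ ^ 2 ≤
        C₂ * x * (Real.log x) ^ 4 := by
      refine le_trans ?_ ((hτ x y hx hyx).trans ?_)
      · refine Finset.sum_le_sum fun n _ => ?_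
        rw [Complex.norm_real, Real.norm_eq_abs]
        refine pow_le_pow_left₀ (abs_nonneg _) ?_ 2
        refine (Finset.abs_sum_le_sum_abs _ _).trans ((Finset.sum_le_sum fun m _ => hβ m).trans ?_)
        simp
      · norm_num
        gcongr
    calc ((y : ℝ) + k) * ∑ n ∈ Icc 1 y, ‖((∑ m ∈ n.divisors, β m : ℝ) : ℂ)‖ ^ 2
        ≤ (3 * k) * (C₂ * x * (Real.log x) ^ 4) :=
          mul_le_mul h0 h2 (Finset.sum_nonneg fun _ _ => sq_nonneg _) (by positivity)
      _ = 3 * C₂ * (Real.log x) ^ 4 * (k * x) := by ring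
      _ ≤ (C₁ + 3 * C₂) * (Real.log x) ^ (c + 4) * (k * ((D : ℝ) ^ 2 + x)) := by
        have h3 : (Real.log x) ^ 4 ≤ (Real.log x) ^ (c + 4) := pow_le_pow_right₀ hL (by omega)
        have h4 : (x : ℝ) ≤ (D : ℝ) ^ 2 + x := by nlinarith
        gcongr
        linarith

end CtlVar

end Pool.Agent.HS
end

section
/-! # Module Minor: the minor arc estimate

Vaughan (`Pool.Agent.Work.BV.vaughan U V`, `sum_conv` in `BV/L_Vaughan.lean`) with
`U = V = ⌊x^(1/8)⌋₊ + 1`, `G n = φ n e(n α)` for `n ≤ x`. Since `φ` vanishes off the integers coprime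
to `q`, `FL q n * φ n = Λ(n) φ(n)`. `‖φ n‖ ≤ 1`.
* `FF V`: trivial, `≤ V log V`.
* `log * GG U`: `typeI_log`, `W = 1`, `D = U`; `ζ * CC U V`: `typeI`, `W = log x`, `D = U V`.
* `LF V * BB U`: dyadic blocks `c ∈ (2^i V, 2^(i+1) V]`, `k ∈ (2^j U, 2^(j+1) U]`, at most `C (log x)²` of
them, those with `2^i V 2^j U ≤ x` only; in each apply `typeII` with the LARGER of the two ranges in
the role of `k` (both orders are possible, the lemma has arbitrary coefficients). With `X₁ ≥ X₂`,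
`X₁ X₂ ≤ x`, `X₂ ≥ x^(1/8)`:
`X₁ X₂ (X₂/s + 1)(X₁/q + 1 + s(1 + log s)) ≤ 4 log x * (x²/q) (1/s + q/√x + x^(-1/8) + q s/x)`
(`X₂ ≤ √x`), and the coefficient sums are `≤ C X (log x)^3` (`tau_sq_sum`, `abs_BB_le`, `LF_le`).
* If `q s > x` the bound is trivial. -/

namespace Pool.Agent.HL

open Finset Pool.Agent.BV
open Pool.Agent.Work.BV (FF GG BB LF CC vaughan sum_conv FF_nonneg FF_le FF_apply abs_GG_le
  GG_of_lt abs_CC_le CC_of_lt LF_nonneg LF_le LF_apply BB_of_le abs_BB_le)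
open scoped ArithmeticFunction.vonMangoldt ArithmeticFunction.zeta

namespace Minor

lemma sum_periodic (q : ℕ) (f : ℕ → ℝ) (hf : ∀ n, f n = f (n % q)) (m : ℕ) :
    ∑ n ∈ range (m * q), f n = m * ∑ a ∈ range q, f a := by
  induction m with
  | zero => simp
  | succ m ih =>
    rw [Nat.succ_mul, sum_range_add, ih]
    have h1 : ∀ x ∈ range q, f (m * q + x) = f x := by
      intro x _
      rw [hf (m * q + x), Nat.mul_add_mod', ← hf x]
    rw [sum_congr rfl h1]
    push_cast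
    ring

lemma rearr (x D : ℕ) (φ : ℕ → ℂ) (α : ℝ) (f w : ℕ → ℂ) (hDx : D ≤ x)
    (hw : ∀ d, D < d → d ≤ x → w d = 0) :
    ∑ a ∈ Icc 1 x, ∑ b ∈ Icc 1 x,
        f a * w b * (if a * b ≤ x then φ (a * b) * e ((a * b : ℕ) * α) else 0) =
      ∑ d ∈ Icc 1 D, w d * ∑ k ∈ Icc 1 (x / d), f k * (φ (d * k) * e ((d * k : ℕ) * α)) := by
  rw [sum_comm, ← sum_subset (Icc_subset_Icc_right hDx)]
  · refine sum_congr rfl fun d hd => ?_
    have hd1 : 0 < d := (mem_Icc.mp hd).1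
    rw [mul_sum]
    have h1 : Icc 1 (x / d) = (Icc 1 x).filter (fun k => k * d ≤ x) := by
      ext k
      simp only [mem_Icc, mem_filter]
      rw [Nat.le_div_iff_mul_le hd1]
      constructor
      · rintro ⟨h1, h2⟩
        exact ⟨⟨h1, (Nat.le_mul_of_pos_right k hd1).trans h2⟩, h2⟩
      · rintro ⟨⟨h1, _⟩, h2⟩
        exact ⟨h1, h2⟩
    rw [h1, sum_filter]
    refine sum_congr rfl fun k _ => ?_
    split_ifs
    · rw [mul_comm d k]
      ring
    · simp
  · intro d hd1 hd2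
    have h1 : w d = 0 := by
      simp only [mem_Icc] at hd1 hd2
      exact hw d (by omega) hd1.2
    refine sum_eq_zero fun a _ => ?_
    rw [h1]
    ring

end Minor

end Pool.Agent.HL
end

section
/-! # Module PV: Polya-Vinogradov for all non-principal characters

Primitive `χ` mod `r > 1`: `χ(n) = τ(χ̄)⁻¹ ∑_b χ̄(b) e(bn/r)` (`prim_dual` in HT/FourthPrim: copy it, that file cannot be imported together with HT/Fourth; `norm_gaussSum_sq` in BV/GaussLS), `|∑_{n ≤ N} e(bn/r)| ≤ 1/(2‖b/r‖)`: `√r (1 + log r)`. `χ` mod `k` induced by `χ*` mod `r`: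
`imprim_sum` (HT/Fourth) : `∑_{d ∣ k, (d,r) = 1} μ(d) χ*(d) ∑_{n ≤ N/d} χ*(n)`, number of squarefree `d ∣ k` coprime to `r` is `≤ 2^ω(k/r) ≤ 2 √(k/r)`. -/

namespace Pool.Agent.HN

open Finset Pool.Agent.BV Pool.Agent.HL
open scoped ArithmeticFunction.Moebius

namespace PVaux

/-- the sum over residue classes, split into small positive and negative representatives -/
lemma sum_split (r : ℕ) [NeZero r] (F : ZMod r → ℂ) (h0 : F 0 = 0) :
    ∑ b, F b = ∑ h ∈ Icc 1 r, (if h ≤ r / 2 then F (h : ZMod r) else 0) +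
      ∑ h ∈ Icc 1 r, (if h ≤ (r - 1) / 2 then F (-(h : ZMod r)) else 0) := by
  have hr : 0 < r := Nat.pos_of_ne_zero (NeZero.ne r)
  have e0 : ∑ b, F b = ∑ j ∈ range r, F (j : ZMod r) := by
    symm
    refine Finset.sum_nbij' (fun j => (j : ZMod r)) (fun n => n.val) ?_ ?_ ?_ ?_ ?_
    · intro j _; simp
    · intro n _; simpa using ZMod.val_lt n
    · intro j hj; simpa using ZMod.val_cast_of_lt (mem_range.1 hj)
    · intro n _; simp
    · intro j _; rfl
  have e1 : range r = insert 0 (Icc 1 (r / 2) ∪ Icc (r / 2 + 1) (r - 1)) := by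
    ext n
    simp only [mem_range, mem_insert, mem_union, mem_Icc]
    omega
  have e2 : (0 : ℕ) ∉ Icc 1 (r / 2) ∪ Icc (r / 2 + 1) (r - 1) := by
    simp only [mem_union, mem_Icc]
    omega
  have e3 : Disjoint (Icc 1 (r / 2)) (Icc (r / 2 + 1) (r - 1)) := by
    rw [disjoint_left]
    intro n hn hn'
    rw [mem_Icc] at hn hn'
    omega
  rw [e0, e1, sum_insert e2, sum_union e3, Nat.cast_zero, h0, zero_add]
  congr 1
  · rw [← sum_filter]
    refine sum_congr ?_ fun _ _ => rfl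
    ext n
    simp only [mem_Icc, mem_filter]
    omega
  · rw [← sum_filter]
    refine sum_nbij' (fun n => r - n) (fun n => r - n) ?_ ?_ ?_ ?_ ?_
    · intro n hn
      simp only [mem_Icc, mem_filter] at hn ⊢
      omega
    · intro n hn
      simp only [mem_Icc, mem_filter] at hn ⊢
      omega
    · intro n hn
      simp only [mem_Icc] at hn
      omega
    · intro n hn
      simp only [mem_Icc, mem_filter] at hn
      omega
    · intro n hn
      rw [mem_Icc] at hn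
      congr 1
      rw [Nat.cast_sub (by omega), ZMod.natCast_self, zero_sub, neg_neg]

lemma dsum_le (r N h : ℕ) [NeZero r] (h1 : 1 ≤ h) (h2 : h ≤ r / 2) :
    ‖∑ n ∈ Icc 1 N, ZMod.stdAddChar ((n : ZMod r) * (h : ZMod r))‖ ≤ r / h := by
  have hr : 0 < r := Nat.pos_of_ne_zero (NeZero.ne r)
  have hrR : (0 : ℝ) < r := by exact_mod_cast hr
  have hhR : (0 : ℝ) < h := by exact_mod_cast h1
  have e1 : ∑ n ∈ Icc 1 N, ZMod.stdAddChar ((n : ZMod r) * (h : ZMod r)) =
      e ((h : ℝ) / r) * ∑ k ∈ range N, e (k * ((h : ℝ) / r)) := by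
    have h3 : ∑ n ∈ Icc 1 N, ZMod.stdAddChar ((n : ZMod r) * (h : ZMod r)) =
        ∑ k ∈ range N, ZMod.stdAddChar (((k + 1 : ℕ) : ZMod r) * (h : ZMod r)) := by
      symm
      refine sum_nbij' (fun k => k + 1) (fun n => n - 1) ?_ ?_ ?_ ?_ ?_
      · intro k hk
        rw [mem_range] at hk
        rw [mem_Icc]
        omega
      · intro k hk
        rw [mem_Icc] at hk
        rw [mem_range]
        omega
      · intro k _
        simp
      · intro k hk
        rw [mem_Icc] at hk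
        omega
      · intro k _
        rfl
    rw [h3, mul_sum]
    refine sum_congr rfl fun k _ => ?_
    rw [← gaussLS_e, ← add_e_add]
    congr 1
    push_cast
    ring
  have e2 : ‖∑ n ∈ Icc 1 N, ZMod.stdAddChar ((n : ZMod r) * (h : ZMod r))‖ ≤
      gm N ((h : ℝ) / r) := by
    rw [e1, norm_mul, add_norm_e, one_mul]
    exact geom_le N _
  refine e2.trans ?_
  have hβ : (h : ℝ) / r ≤ 1 / 2 := by
    rw [div_le_div_iff₀ hrR (by norm_num)]
    have : h * 2 ≤ 1 * r := by omega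
    exact_mod_cast this
  have hβ0 : 0 < (h : ℝ) / r := by positivity
  have h3 : (h : ℝ) / r ≤ |(h : ℝ) / r - round ((h : ℝ) / r)| := by
    rcases lt_or_ge ((round ((h : ℝ) / r) : ℤ)) 1 with h4 | h4
    · have h5 : ((round ((h : ℝ) / r) : ℤ) : ℝ) ≤ 0 := by
        exact_mod_cast (by omega : (round ((h : ℝ) / r) : ℤ) ≤ 0)
      rw [le_abs]
      left
      linarith
    · have h5 : (1 : ℝ) ≤ ((round ((h : ℝ) / r) : ℤ) : ℝ) := by exact_mod_cast h4
      rw [le_abs]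
      right
      linarith
  refine (gm_le_of_dist (by positivity) hβ0 h3).trans ?_
  rw [div_le_div_iff₀ (by positivity) hhR]
  rw [one_mul]
  have : (r : ℝ) * (2 * (h / r)) = 2 * h := by
    field_simp
  rw [this]
  linarith

lemma harm (r : ℕ) : ∑ h ∈ Icc 1 r, (r : ℝ) / h ≤ r * (1 + Real.log r) := by
  have : ∑ h ∈ Icc 1 r, (r : ℝ) / h = r * ∑ h ∈ Icc 1 r, ((h : ℝ))⁻¹ := by
    rw [mul_sum]
    exact sum_congr rfl fun h _ => div_eq_mul_inv _ _
  rw [this]
  exact mul_le_mul_of_nonneg_left (DivSum_H r) (Nat.cast_nonneg r)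

/-- primitive characters -/
lemma prim_pv (r : ℕ) [NeZero r] (hr2 : 2 ≤ r) (χ : DirichletCharacter ℂ r)
    (hp : χ.IsPrimitive) (N : ℕ) :
    ‖∑ n ∈ Icc 1 N, χ (n : ZMod r)‖ ≤ 2 * Real.sqrt r * (1 + Real.log r) := by
  have hr : 0 < r := Nat.pos_of_ne_zero (NeZero.ne r)
  have hrR : (0 : ℝ) < r := by exact_mod_cast hr
  have hlog : 0 ≤ Real.log r := Real.log_natCast_nonneg r
  set D : ZMod r → ℂ := fun b => ∑ n ∈ Icc 1 N, ZMod.stdAddChar ((n : ZMod r) * b) with hD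
  have hDneg : ∀ b : ZMod r, ‖D (-b)‖ = ‖D b‖ := by
    intro b
    have : D (-b) = (starRingEnd ℂ) (D b) := by
      rw [hD]
      simp only
      rw [map_sum]
      refine sum_congr rfl fun n _ => ?_
      rw [gaussLS_conj]
      congr 1
      ring
    rw [this, RCLike.norm_conj]
  have hp' : (χ⁻¹).IsPrimitive := by
    rw [DirichletCharacter.isPrimitive_def, DirichletCharacter.conductor_inv]
    exact hp
  have e1 : ∀ n : ZMod r, ∑ b, χ⁻¹ b * ZMod.stdAddChar (n * b) =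
      χ n * gaussSum χ⁻¹ (ZMod.stdAddChar (N := r)) := by
    intro n
    have h := gaussSum_mulShift_of_isPrimitive (ZMod.stdAddChar (N := r)) hp' n
    rw [inv_inv] at h
    rw [← h]
    simp [gaussSum, AddChar.mulShift_apply]
  have e2 : (∑ n ∈ Icc 1 N, χ (n : ZMod r)) * gaussSum χ⁻¹ (ZMod.stdAddChar (N := r)) =
      ∑ b, χ⁻¹ b * D b := by
    have e2' : ∀ n ∈ Icc 1 N, χ (n : ZMod r) * gaussSum χ⁻¹ (ZMod.stdAddChar (N := r)) =
        ∑ b, χ⁻¹ b * ZMod.stdAddChar ((n : ZMod r) * b) := fun n _ => (e1 (n : ZMod r)).symm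
    rw [sum_mul, sum_congr rfl e2', sum_comm]
    refine sum_congr rfl fun b _ => ?_
    rw [hD, mul_sum]
  have hz : χ⁻¹ (0 : ZMod r) = 0 := by
    apply MulChar.map_nonunit
    intro hu
    have : Fact (1 < r) := ⟨by omega⟩
    exact not_isUnit_zero hu
  have hn1 : ∀ b : ZMod r, ‖χ⁻¹ b * D b‖ ≤ ‖D b‖ := by
    intro b
    rw [norm_mul]
    exact mul_le_of_le_one_left (norm_nonneg _) (DirichletCharacter.norm_le_one _ _)
  have s1 : ‖∑ h ∈ Icc 1 r, (if h ≤ r / 2 then χ⁻¹ (h : ZMod r) * D (h : ZMod r) else 0)‖ ≤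
      r * (1 + Real.log r) := by
    refine le_trans ?_ (harm r)
    refine (norm_sum_le _ _).trans (sum_le_sum fun h hh => ?_)
    rw [mem_Icc] at hh
    split_ifs with h3
    · exact (hn1 _).trans (dsum_le r N h hh.1 h3)
    · rw [norm_zero]
      positivity
  have s2 : ‖∑ h ∈ Icc 1 r, (if h ≤ (r - 1) / 2 then χ⁻¹ (-(h : ZMod r)) * D (-(h : ZMod r))
      else 0)‖ ≤ r * (1 + Real.log r) := by
    refine le_trans ?_ (harm r)
    refine (norm_sum_le _ _).trans (sum_le_sum fun h hh => ?_)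
    rw [mem_Icc] at hh
    split_ifs with h3
    · refine (hn1 _).trans ?_
      rw [hDneg]
      exact dsum_le r N h hh.1 (by omega)
    · rw [norm_zero]
      positivity
  have e3 : ‖(∑ n ∈ Icc 1 N, χ (n : ZMod r)) * gaussSum χ⁻¹ (ZMod.stdAddChar (N := r))‖ ≤
      r * (1 + Real.log r) + r * (1 + Real.log r) := by
    rw [e2, sum_split r (fun b => χ⁻¹ b * D b) (by simp only [hz, zero_mul])]
    exact (norm_add_le _ _).trans (add_le_add s1 s2)
  have hg : ‖gaussSum χ⁻¹ (ZMod.stdAddChar (N := r))‖ = Real.sqrt r := by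
    rw [← norm_gaussSum_sq _ hp', Real.sqrt_sq (norm_nonneg _)]
  rw [norm_mul, hg] at e3
  have hs : 0 < Real.sqrt r := Real.sqrt_pos.2 hrR
  have h4 : ‖∑ n ∈ Icc 1 N, χ (n : ZMod r)‖ * Real.sqrt r ≤
      (2 * Real.sqrt r * (1 + Real.log r)) * Real.sqrt r := by
    refine e3.trans (le_of_eq ?_)
    have := Real.mul_self_sqrt hrR.le
    calc (r : ℝ) * (1 + Real.log r) + r * (1 + Real.log r) = 2 * r * (1 + Real.log r) := by ring
      _ = 2 * (Real.sqrt r * Real.sqrt r) * (1 + Real.log r) := by rw [this]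
      _ = _ := by ring
  exact le_of_mul_le_mul_right h4 hs

/-- the number of divisors is at most `2 √n` -/
lemma tau_le (n : ℕ) (hn : n ≠ 0) : (n.divisors.card : ℝ) ≤ 2 * Real.sqrt n := by
  have h1 : n.divisors ⊆ Icc 1 n.sqrt ∪ (Icc 1 n.sqrt).image (fun d => n / d) := by
    intro d hd
    rw [Nat.mem_divisors] at hd
    obtain ⟨⟨e, he⟩, _⟩ := hd
    have hd0 : 0 < d := Nat.pos_of_ne_zero (by rintro rfl; simp at he; exact hn he)
    have he0 : 0 < e := Nat.pos_of_ne_zero (by rintro rfl; simp at he; exact hn he)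
    rw [mem_union, mem_image, mem_Icc]
    rcases le_or_gt d n.sqrt with h | h
    · exact Or.inl ⟨hd0, h⟩
    · right
      refine ⟨e, ?_, ?_⟩
      · rw [mem_Icc]
        refine ⟨he0, ?_⟩
        by_contra h'
        rw [not_le] at h'
        have : n < d * e := by
          calc n < (n.sqrt + 1) * (n.sqrt + 1) := Nat.lt_succ_sqrt n
            _ ≤ d * e := Nat.mul_le_mul h h'
        omega
      · show n / e = d
        rw [he]
        exact Nat.mul_div_cancel d he0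
  have h2 : n.divisors.card ≤ 2 * n.sqrt := by
    refine (card_le_card h1).trans ((card_union_le _ _).trans ?_)
    have := card_image_le (s := Icc 1 n.sqrt) (f := fun d => n / d)
    rw [Nat.card_Icc] at *
    omega
  have h3 : (n.sqrt : ℝ) ≤ Real.sqrt n := by
    apply Real.le_sqrt_of_sq_le
    exact_mod_cast Nat.sqrt_le' n
  have h4 : (n.divisors.card : ℝ) ≤ 2 * n.sqrt := by exact_mod_cast h2
  linarith

end PVaux

open PVaux in
theorem pv : ∃ C : ℝ, 0 < C ∧ ∀ (k : ℕ) [NeZero k] (χ : DirichletCharacter ℂ k), χ ≠ 1 → ∀ N : ℕ,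
    ‖∑ n ∈ Icc 1 N, χ (n : ZMod k)‖ ≤ C * Real.sqrt k * (1 + Real.log k) := by
  classical
  refine ⟨4, by norm_num, ?_⟩
  intro k _ χ hχ N
  have hk : k ≠ 0 := NeZero.ne k
  have hkR : (0 : ℝ) < k := by exact_mod_cast Nat.pos_of_ne_zero hk
  set r := χ.conductor with hr
  have hrk : r ∣ k := χ.conductor_dvd_level
  have hr0 : r ≠ 0 := fun h => hk (Nat.eq_zero_of_zero_dvd (h ▸ hrk))
  have hr1 : r ≠ 1 := fun h => hχ (DirichletCharacter.eq_one_iff_conductor_eq_one.2 h)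
  haveI : NeZero r := ⟨hr0⟩
  have hr2 : 2 ≤ r := by omega
  have hrR : (0 : ℝ) < r := by exact_mod_cast Nat.pos_of_ne_zero hr0
  have hprim := DirichletCharacter.primitiveCharacter_isPrimitive χ
  set B : ℝ := 2 * Real.sqrt r * (1 + Real.log r) with hB
  have hlogr : 0 ≤ Real.log r := Real.log_natCast_nonneg r
  have hB0 : 0 ≤ B := by positivity
  have hmu : ∀ d : ℕ, ‖((μ d : ℤ) : ℂ)‖ ≤ 1 := by
    intro b
    rw [Complex.norm_intCast]
    have := ArithmeticFunction.abs_moebius_le_one (n := b)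
    exact_mod_cast this
  rw [HT.imprim_sum χ N]
  have hsub : (k / r).divisors ⊆ k.divisors := Nat.divisors_subset_of_dvd hk (Nat.div_dvd_of_dvd hrk)
  rw [← sum_subset hsub]
  · have h1 : ‖∑ d ∈ (k / r).divisors, ((μ d : ℤ) : ℂ) * χ.primitiveCharacter (d : ZMod χ.conductor) *
        ∑ m ∈ Icc 1 (N / d), χ.primitiveCharacter (m : ZMod χ.conductor)‖ ≤
        ∑ _d ∈ (k / r).divisors, B := by
      refine (norm_sum_le _ _).trans (sum_le_sum fun d _ => ?_)
      rw [norm_mul, norm_mul]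
      have h3 : ‖χ.primitiveCharacter (d : ZMod χ.conductor)‖ ≤ 1 :=
        DirichletCharacter.norm_le_one _ _
      have h4 := prim_pv r hr2 χ.primitiveCharacter hprim (N / d)
      calc _ ≤ 1 * 1 * B := by
            refine mul_le_mul ?_ h4 (norm_nonneg _) (by norm_num)
            exact mul_le_mul (hmu d) h3 (norm_nonneg _) (by norm_num)
        _ = B := by ring
    refine h1.trans ?_
    rw [sum_const, nsmul_eq_mul]
    have hkr : k / r ≠ 0 := (Nat.div_pos (Nat.le_of_dvd (Nat.pos_of_ne_zero hk) hrk)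
      (Nat.pos_of_ne_zero hr0)).ne'
    have h5 := tau_le (k / r) hkr
    have h6 : ((k / r : ℕ) : ℝ) = (k : ℝ) / r := by
      rw [Nat.cast_div hrk (by exact_mod_cast hr0)]
    rw [h6] at h5
    have h7 : Real.sqrt ((k : ℝ) / r) * Real.sqrt r = Real.sqrt k := by
      rw [← Real.sqrt_mul (by positivity)]
      congr 1
      field_simp
    have h8 : Real.log r ≤ Real.log k :=
      Real.log_le_log hrR (by exact_mod_cast Nat.le_of_dvd (Nat.pos_of_ne_zero hk) hrk)
    calc ((k / r).divisors.card : ℝ) * B ≤ (2 * Real.sqrt ((k : ℝ) / r)) * B :=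
          mul_le_mul_of_nonneg_right h5 hB0
      _ = 4 * (Real.sqrt ((k : ℝ) / r) * Real.sqrt r) * (1 + Real.log r) := by rw [hB]; ring
      _ = 4 * Real.sqrt k * (1 + Real.log r) := by rw [h7]
      _ ≤ 4 * Real.sqrt k * (1 + Real.log k) := by
          refine mul_le_mul_of_nonneg_left (by linarith) (by positivity)
  · intro d hd hd'
    have hdk := Nat.dvd_of_mem_divisors hd
    have : χ.primitiveCharacter (d : ZMod χ.conductor) = 0 := by
      apply MulChar.map_nonunit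
      rw [ZMod.isUnit_iff_coprime]
      intro hc
      apply hd'
      rw [Nat.mem_divisors]
      refine ⟨?_, (Nat.div_pos (Nat.le_of_dvd (Nat.pos_of_ne_zero hk) hrk)
        (Nat.pos_of_ne_zero hr0)).ne'⟩
      exact (Nat.dvd_div_iff_mul_dvd hrk).2 (Nat.Coprime.mul_dvd_of_dvd_of_dvd hc.symm hrk hdk)
    rw [this, mul_zero, zero_mul]

end Pool.Agent.HN
end

section
/-! # Module Basic: elementary properties of `bb`, `aa`

`aa_rough`: for `p < z` prime, `p ∣ n`: every `d` with `cc d ≠ 0` is coprime to `p`, so `p ∣ n/d` and `rho z (n/d) = 0`.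
`aa_eq`: on squarefree `z`-rough `n` every `rho` is `1`.
`aa_abs`: squarefree `z`-rough `n ≤ x < z^K` has fewer than `K` prime factors, at most `2^K` divisors.
`bb_abs`: `rho ≤ 1`. -/

namespace Pool.Agent.HS

open Finset Pool.Agent.BV Pool.Agent.HL

theorem rho_nonneg (y n : ℕ) : 0 ≤ rho y n := by
  unfold rho
  split_ifs <;> norm_num

theorem rho_le_one (y n : ℕ) : rho y n ≤ 1 := by
  unfold rho
  split_ifs <;> norm_num

theorem rho_eq_one {y n : ℕ} (h : ∀ p : ℕ, p.Prime → p ∣ n → y ≤ p) : rho y n = 1 := by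
  unfold rho
  rw [if_pos h]

theorem rho_eq_zero {y n p : ℕ} (hp : p.Prime) (hpn : p ∣ n) (h : p < y) : rho y n = 0 := by
  unfold rho
  rw [if_neg]
  intro h'
  exact absurd (h' p hp hpn) (by omega)

theorem aa_rough (z D0 : ℕ) (cc : ℕ → ℝ) (h : Wt z D0 cc) (n : ℕ) (hn : aa cc z n ≠ 0) :
    ∀ p : ℕ, p.Prime → p ∣ n → z ≤ p := by
  intro p hp hpn
  by_contra hz
  push Not at hz
  apply hn
  unfold aa bb
  split_ifs with hs
  · refine sum_eq_zero fun d hd => ?_
    rw [Nat.mem_divisors] at hd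
    by_cases hc : cc d = 0
    · rw [hc, zero_mul]
    have hpd : ¬ p ∣ d := fun h' => absurd ((h.sf d hc).2 p hp h') (by omega)
    have h1 : p ∣ d * (n / d) := by
      rw [Nat.mul_div_cancel' hd.1]
      exact hpn
    rcases (Nat.Prime.dvd_mul hp).1 h1 with h2 | h2
    · exact absurd h2 hpd
    · rw [rho_eq_zero hp h2 hz, mul_zero]
  · rfl

theorem aa_eq (z : ℕ) (cc : ℕ → ℝ) (n : ℕ) (hs : Squarefree n)
    (hr : ∀ p : ℕ, p.Prime → p ∣ n → z ≤ p) : aa cc z n = ∑ d ∈ n.divisors, cc d := by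
  unfold aa bb
  rw [if_pos hs]
  refine sum_congr rfl fun d hd => ?_
  rw [Nat.mem_divisors] at hd
  rw [rho_eq_one fun p hp h => hr p hp (h.trans (Nat.div_dvd_of_dvd hd.1)), mul_one]

theorem divisors_mul_prime {m p : ℕ} (hm : m ≠ 0) (hp : p.Prime) (hpm : ¬ p ∣ m) (f : ℕ → ℝ) :
    ∑ d ∈ (m * p).divisors, f d = ∑ d ∈ m.divisors, (f d + f (d * p)) := by
  have hp0 : 0 < p := hp.pos
  have hdj : Disjoint m.divisors (m.divisors.image (fun d => d * p)) := by
    rw [disjoint_left]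
    intro a ha hb
    rw [mem_image] at hb
    obtain ⟨b, -, rfl⟩ := hb
    exact hpm ((Dvd.intro_left b rfl).trans (Nat.dvd_of_mem_divisors ha))
  have heq : (m * p).divisors = m.divisors ∪ m.divisors.image (fun d => d * p) := by
    ext a
    rw [Nat.mem_divisors, mem_union, Nat.mem_divisors, mem_image]
    constructor
    · rintro ⟨ha, -⟩
      by_cases hpa : p ∣ a
      · obtain ⟨b, rfl⟩ := hpa
        refine Or.inr ⟨b, ?_, mul_comm _ _⟩
        rw [Nat.mem_divisors]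
        exact ⟨Nat.dvd_of_mul_dvd_mul_right hp0 (by rwa [mul_comm b p]), hm⟩
      · have hcop : Nat.Coprime a p := ((Nat.Prime.coprime_iff_not_dvd hp).2 hpa).symm
        exact Or.inl ⟨hcop.dvd_of_dvd_mul_right ha, hm⟩
    · rintro (⟨ha, -⟩ | ⟨b, hb, rfl⟩)
      · exact ⟨ha.mul_right p, mul_ne_zero hm hp0.ne'⟩
      · exact ⟨Nat.mul_dvd_mul_right (Nat.dvd_of_mem_divisors hb) p, mul_ne_zero hm hp0.ne'⟩
  rw [heq, sum_union hdj, sum_image (fun a _ b _ h => Nat.eq_of_mul_eq_mul_right hp0 h),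
    sum_add_distrib]

theorem aa_mul (z : ℕ) (V0 : ℝ) (cc : ℕ → ℝ) (E : ℕ → ℕ → ℝ) (h : WtE z V0 cc E) (m p : ℕ)
    (hs : Squarefree m) (hr : ∀ p' : ℕ, p'.Prime → p' ∣ m → z ≤ p') (hp : p.Prime) (hz : z ≤ p)
    (hpm : ¬ p ∣ m) : aa cc z (m * p) = ∑ d ∈ m.divisors, (cc d + E d p) := by
  have hm0 : m ≠ 0 := Squarefree.ne_zero hs
  have hcop : Nat.Coprime m p := ((Nat.Prime.coprime_iff_not_dvd hp).2 hpm).symm
  rw [aa_eq z cc (m * p) ((Nat.squarefree_mul hcop).2 ⟨hs, hp.squarefree⟩), divisors_mul_prime hm0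
    hp hpm]
  · refine sum_congr rfl fun d hd => ?_
    have hdm := Nat.dvd_of_mem_divisors hd
    rw [h.eq d p (Squarefree.squarefree_of_dvd hdm hs) (fun p' hp' h' => hr p' hp' (h'.trans hdm))
      hp hz (fun h' => hpm (h'.trans hdm))]
  · intro p' hp' h'
    rcases (Nat.Prime.dvd_mul hp').1 h' with h1 | h1
    · exact hr p' hp' h1
    · rw [(Nat.prime_dvd_prime_iff_eq hp' hp).1 h1]
      exact hz

theorem aa_abs (x z D0 K : ℕ) (cc : ℕ → ℝ) (h : Wt z D0 cc) (hz : 2 ≤ z) (hK : x < z ^ K) (n : ℕ)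
    (hn : n ≤ x) : |aa cc z n| ≤ 2 ^ K := by
  by_cases h0 : aa cc z n = 0
  · rw [h0, abs_zero]
    positivity
  have hr := aa_rough z D0 cc h n h0
  have hs : Squarefree n := by
    by_contra hs
    apply h0
    unfold aa
    rw [if_neg hs]
  have hn0 : n ≠ 0 := Squarefree.ne_zero hs
  have hcard : n.primeFactors.card ≤ K := by
    have h1 : z ^ n.primeFactors.card ≤ n := by
      calc z ^ n.primeFactors.card ≤ ∏ p ∈ n.primeFactors, p := by
            refine pow_card_le_prod _ _ _ fun p hp => ?_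
            exact hr p (Nat.prime_of_mem_primeFactors hp) (Nat.dvd_of_mem_primeFactors hp)
        _ ≤ n := Nat.le_of_dvd (Nat.pos_of_ne_zero hn0) (Nat.prod_primeFactors_dvd n)
    have h2 : z ^ n.primeFactors.card < z ^ K := lt_of_le_of_lt (h1.trans hn) hK
    exact ((Nat.pow_lt_pow_iff_right (by omega)).1 h2).le
  have hd : n.divisors.card ≤ 2 ^ K := by
    rw [Nat.card_divisors hn0]
    calc ∏ p ∈ n.primeFactors, (n.factorization p + 1) ≤ ∏ _p ∈ n.primeFactors, 2 := by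
          refine prod_le_prod' fun p _ => ?_
          have := hs.natFactorization_le_one p
          omega
      _ = 2 ^ n.primeFactors.card := by rw [prod_const]
      _ ≤ 2 ^ K := Nat.pow_le_pow_right (by norm_num) hcard
  rw [aa_eq z cc n hs hr]
  calc |∑ d ∈ n.divisors, cc d| ≤ ∑ d ∈ n.divisors, |cc d| := abs_sum_le_sum_abs _ _
    _ ≤ ∑ _d ∈ n.divisors, (1 : ℝ) := sum_le_sum fun d _ => h.bd d
    _ = n.divisors.card := by rw [sum_const, nsmul_eq_mul, mul_one]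
    _ ≤ 2 ^ K := by exact_mod_cast hd

theorem bb_abs (z D0 : ℕ) (cc : ℕ → ℝ) (h : Wt z D0 cc) (y n : ℕ) :
    |bb cc y n| ≤ (n.divisors.card : ℝ) := by
  unfold bb
  calc |∑ d ∈ n.divisors, cc d * rho y (n / d)| ≤ ∑ d ∈ n.divisors, |cc d * rho y (n / d)| :=
        abs_sum_le_sum_abs _ _
    _ ≤ ∑ _d ∈ n.divisors, (1 : ℝ) := by
        refine sum_le_sum fun d _ => ?_
        rw [abs_mul, abs_of_nonneg (rho_nonneg _ _)]
        exact mul_le_one₀ (h.bd d) (rho_nonneg _ _) (rho_le_one _ _)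
    _ = n.divisors.card := by rw [sum_const, nsmul_eq_mul, mul_one]

end Pool.Agent.HS
end

section
/-! # Module Rankin: few integers have a large divisor made of primes `< y0 x = exp (√(log x))`

Number `≤ ∑_{d > x^κ, d y0-smooth squarefree} x/d ≤ x x^(-κ δ) ∏_{p < y0} (1 + p^(δ-1))`, `δ = 1/√(log x)`, `p^δ ≤ 3`, and
`∏ (1 + 3/p) ≤ exp (3 ∑_{p < y0} 1/p) ≤ (log x)^C` (Mertens). `x^(-κδ) = exp (-κ √(log x))`. -/

namespace Pool.Agent.HS

open Finset Pool.Agent.BV Pool.Agent.HL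

namespace RankinAux

lemma card_mult (x d : ℕ) (s : Finset ℕ) (hs : s ⊆ Icc 1 x) (h : ∀ n ∈ s, d ∣ n) :
    (s.card : ℝ) ≤ (x : ℝ) / d := by
  have h1 : s ⊆ (Ioc 0 x).filter (fun n => d ∣ n) := by
    intro n hn
    have := mem_Icc.1 (hs hn)
    exact mem_filter.2 ⟨mem_Ioc.2 ⟨by omega, this.2⟩, h n hn⟩
  have h2 := card_le_card h1
  rw [Nat.Ioc_filter_dvd_card_eq_div] at h2
  calc (s.card : ℝ) ≤ ((x / d : ℕ) : ℝ) := by exact_mod_cast h2
    _ ≤ (x : ℝ) / d := Nat.cast_div_le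

/-- Rankin's trick -/
lemma trick (x : ℕ) (S : Finset ℕ) (hS : ∀ p ∈ S, 0 < p) (R δ : ℝ) (hR : 0 < R) (hδ : 0 ≤ δ) :
    ∑ T ∈ S.powerset.filter (fun T => R ≤ ((∏ p ∈ T, p : ℕ) : ℝ)), (x : ℝ) / ((∏ p ∈ T, p : ℕ) : ℝ) ≤
      x * R ^ (-δ) * ∏ p ∈ S, (1 + (p : ℝ) ^ (δ - 1)) := by
  rw [prod_one_add, mul_sum]
  have h1 : ∑ T ∈ S.powerset.filter (fun T => R ≤ ((∏ p ∈ T, p : ℕ) : ℝ)),
      x * R ^ (-δ) * ∏ i ∈ T, (i : ℝ) ^ (δ - 1) ≤
      ∑ T ∈ S.powerset, x * R ^ (-δ) * ∏ i ∈ T, (i : ℝ) ^ (δ - 1) := by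
    refine sum_le_sum_of_subset_of_nonneg (filter_subset _ _) ?_
    intro T _ _
    have : 0 ≤ ∏ i ∈ T, (i : ℝ) ^ (δ - 1) := prod_nonneg fun i _ => by positivity
    positivity
  refine le_trans ?_ h1
  · refine sum_le_sum fun T hT => ?_
    obtain ⟨hT1, hT2⟩ := mem_filter.1 hT
    have hpos : ∀ p ∈ T, (0 : ℝ) < p := fun p hp => by exact_mod_cast hS p (mem_powerset.1 hT1 hp)
    have hd : (0 : ℝ) < ((∏ p ∈ T, p : ℕ) : ℝ) := hR.trans_le hT2
    have e1 : ∏ i ∈ T, (i : ℝ) ^ (δ - 1) = ((∏ p ∈ T, p : ℕ) : ℝ) ^ (δ - 1) := by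
      rw [Real.finsetProd_rpow _ _ (fun i hi => (hpos i hi).le)]
      push_cast
      rfl
    rw [e1]
    set D : ℝ := ((∏ p ∈ T, p : ℕ) : ℝ) with hD
    have e2 : D ^ (δ - 1) = D ^ δ / D := by
      rw [Real.rpow_sub hd, Real.rpow_one]
    have e3 : R ^ δ ≤ D ^ δ := Real.rpow_le_rpow hR.le hT2 hδ
    have e4 : 1 ≤ R ^ (-δ) * D ^ δ := by
      rw [Real.rpow_neg hR.le]
      have : 0 < R ^ δ := Real.rpow_pos_of_pos hR δ
      rw [inv_mul_eq_div, le_div_iff₀ this, one_mul]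
      exact e3
    rw [e2]
    calc (x : ℝ) / D = x * 1 / D := by ring
      _ ≤ x * (R ^ (-δ) * D ^ δ) / D := by gcongr
      _ = x * R ^ (-δ) * (D ^ δ / D) := by ring

lemma log_pow_exp (κ : ℝ) (hκ : 0 < κ) (c : ℝ) (B : ℕ) : ∃ x₁ : ℕ, ∀ x : ℕ, x₁ ≤ x →
    c * (Real.log x) ^ B * Real.exp (-(κ * Real.sqrt (Real.log x))) ≤ 1 := by
  set M : ℝ := max 1 (|c| * (2 * B + 2).factorial / κ ^ (2 * B + 2)) with hM
  obtain ⟨x₁, hx₁⟩ := Filter.eventually_atTop.1 (evt_log M)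
  refine ⟨x₁, fun x hx => ?_⟩
  have hL := hx₁ x hx
  set L : ℝ := Real.log x with hLdef
  have hL1 : 1 ≤ L := (le_max_left _ _).trans hL
  have hL2 : |c| * (2 * B + 2).factorial / κ ^ (2 * B + 2) ≤ L := (le_max_right _ _).trans hL
  set u : ℝ := Real.sqrt L with hu
  have hu2 : u ^ 2 = L := Real.sq_sqrt (by linarith)
  have hu0 : 0 ≤ u := Real.sqrt_nonneg L
  have h1 : (κ * u) ^ (2 * B + 2) / (2 * B + 2).factorial ≤ Real.exp (κ * u) :=
    Real.pow_div_factorial_le_exp _ (by positivity) _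
  have h2 : (κ * u) ^ (2 * B + 2) = κ ^ (2 * B + 2) * L ^ (B + 1) := by
    rw [mul_pow, ← hu2, ← pow_mul]
    ring_nf
  have hf : (0 : ℝ) < (2 * B + 2).factorial := by exact_mod_cast Nat.factorial_pos _
  have hk : 0 < κ ^ (2 * B + 2) := by positivity
  rw [div_le_iff₀ hk] at hL2
  have h3 : |c| * L ^ B ≤ Real.exp (κ * u) := by
    refine le_trans ?_ h1
    rw [h2, le_div_iff₀ hf]
    calc |c| * L ^ B * (2 * B + 2).factorial = (|c| * (2 * B + 2).factorial) * L ^ B := by ring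
      _ ≤ (L * κ ^ (2 * B + 2)) * L ^ B := by gcongr
      _ = κ ^ (2 * B + 2) * L ^ (B + 1) := by ring
  rw [Real.exp_neg, ← div_eq_mul_inv, div_le_one (Real.exp_pos _)]
  refine le_trans ?_ h3
  gcongr
  exact le_abs_self c

end RankinAux

open Classical in
theorem rankin (κ : ℝ) (hκ : 0 < κ) (B : ℕ) : ∃ x₁ : ℕ, ∀ x : ℕ, x₁ ≤ x →
    (((Icc 1 x).filter (fun n => ∃ d : ℕ, d ∣ n ∧ Squarefree d ∧ (∀ p : ℕ, p.Prime → p ∣ d → p < y0 x) ∧
      (x : ℝ) ^ κ ≤ d)).card : ℝ) ≤ (x : ℝ) / (Real.log x) ^ B := by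
  obtain ⟨C, hC0, hC⟩ := Work.MP_e4117e_nt.mertens2
  obtain ⟨x₁, hx₁⟩ := RankinAux.log_pow_exp κ hκ (Real.exp (3 * (C + 1))) (B + 3)
  obtain ⟨x₂, hx₂⟩ := Filter.eventually_atTop.1 (evt_log 4)
  refine ⟨max x₁ (max x₂ 1), fun x hx => ?_⟩
  have h1 := hx₁ x ((le_max_left _ _).trans hx)
  have hL4 := hx₂ x (((le_max_left _ _).trans (le_max_right _ _)).trans hx)
  have hxpos : 1 ≤ x := ((le_max_right _ _).trans (le_max_right _ _)).trans hx
  have hx0 : (0 : ℝ) < x := by exact_mod_cast hxpos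
  set L : ℝ := Real.log x with hL
  set u : ℝ := Real.sqrt L with hu
  have hL0 : 0 < L := by linarith
  have hu2 : u ^ 2 = L := Real.sq_sqrt hL0.le
  have hu0 : 2 ≤ u := by
    rw [hu]
    exact Real.le_sqrt_of_sq_le (by linarith)
  set S : Finset ℕ := (Icc 0 (y0 x - 1)).filter Nat.Prime with hS
  set R : ℝ := (x : ℝ) ^ κ with hR
  have hR0 : 0 < R := Real.rpow_pos_of_pos hx0 κ
  -- step 1: the covering
  have hcov : ((Icc 1 x).filter (fun n => ∃ d : ℕ, d ∣ n ∧ Squarefree d ∧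
      (∀ p : ℕ, p.Prime → p ∣ d → p < y0 x) ∧ R ≤ d)) ⊆
      (S.powerset.filter (fun T => R ≤ ((∏ p ∈ T, p : ℕ) : ℝ))).biUnion
        (fun T => (Icc 1 x).filter (fun n => (∏ p ∈ T, p) ∣ n)) := by
    intro n hn
    obtain ⟨hn1, d, hdn, hd2, hd3, hd4⟩ := mem_filter.1 hn
    have hd : ∏ p ∈ d.primeFactors, p = d := Nat.prod_primeFactors_of_squarefree hd2
    rw [mem_biUnion]
    refine ⟨d.primeFactors, mem_filter.2 ⟨mem_powerset.2 ?_, ?_⟩, mem_filter.2 ⟨hn1, ?_⟩⟩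
    · intro p hp
      have hp1 := Nat.prime_of_mem_primeFactors hp
      have := hd3 p hp1 (Nat.dvd_of_mem_primeFactors hp)
      exact mem_filter.2 ⟨mem_Icc.2 ⟨Nat.zero_le _, by omega⟩, hp1⟩
    · rw [hd]
      exact hd4
    · rw [hd]
      exact hdn
  have h2 : (((Icc 1 x).filter (fun n => ∃ d : ℕ, d ∣ n ∧ Squarefree d ∧
      (∀ p : ℕ, p.Prime → p ∣ d → p < y0 x) ∧ R ≤ d)).card : ℝ) ≤
      ∑ T ∈ S.powerset.filter (fun T => R ≤ ((∏ p ∈ T, p : ℕ) : ℝ)),
        (x : ℝ) / ((∏ p ∈ T, p : ℕ) : ℝ) := by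
    calc _ ≤ (((S.powerset.filter (fun T => R ≤ ((∏ p ∈ T, p : ℕ) : ℝ))).biUnion
        (fun T => (Icc 1 x).filter (fun n => (∏ p ∈ T, p) ∣ n))).card : ℝ) := by
          exact_mod_cast card_le_card hcov
      _ ≤ ((∑ T ∈ S.powerset.filter (fun T => R ≤ ((∏ p ∈ T, p : ℕ) : ℝ)),
        ((Icc 1 x).filter (fun n => (∏ p ∈ T, p) ∣ n)).card : ℕ) : ℝ) := by
          exact_mod_cast card_biUnion_le
      _ ≤ _ := by
          push_cast
          refine sum_le_sum fun T _ => ?_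
          have := RankinAux.card_mult x (∏ p ∈ T, p) ((Icc 1 x).filter (fun n => (∏ p ∈ T, p) ∣ n))
            (filter_subset _ _) (fun n hn => (mem_filter.1 hn).2)
          push_cast at this
          exact this
  -- step 2: Rankin
  have hu1 : 0 < u := by linarith
  have h3 := RankinAux.trick x S (fun p hp => (mem_filter.1 hp).2.pos) R (1 / u) hR0
    (by positivity)
  -- step 3: the product
  have hlogp : ∀ p ∈ S, Real.log p ≤ u := by
    intro p hp
    obtain ⟨hp1, hp2⟩ := mem_filter.1 hp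
    have hp3 : p < y0 x := by
      have := (mem_Icc.1 hp1).2
      have := hp2.pos
      omega
    unfold y0 at hp3
    rw [Nat.lt_ceil] at hp3
    have hp0 : (0 : ℝ) < p := by exact_mod_cast hp2.pos
    rw [Real.log_le_iff_le_exp hp0]
    exact hp3.le
  have h4 : ∏ p ∈ S, (1 + (p : ℝ) ^ (1 / u - 1)) ≤ Real.exp (3 * ∑ p ∈ S, (1 : ℝ) / p) := by
    rw [mul_sum, Real.exp_sum]
    refine prod_le_prod (fun p _ => by positivity) fun p hp => ?_
    have hp0 : (0 : ℝ) < p := by exact_mod_cast (mem_filter.1 hp).2.pos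
    have e1 : (p : ℝ) ^ (1 / u) ≤ 3 := by
      rw [Real.rpow_def_of_pos hp0]
      have e2 : Real.log p * (1 / u) ≤ 1 := by
        rw [mul_one_div, div_le_one hu1]
        exact hlogp p hp
      calc Real.exp (Real.log p * (1 / u)) ≤ Real.exp 1 := Real.exp_le_exp.2 e2
        _ ≤ 3 := by have := Real.exp_one_lt_d9; linarith
    have e3 : (p : ℝ) ^ (1 / u - 1) ≤ 3 * (1 / p) := by
      rw [Real.rpow_sub hp0, Real.rpow_one, mul_one_div]
      gcongr
    have e4 := Real.add_one_le_exp (3 * (1 / (p : ℝ)))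
    linarith
  -- step 4: Mertens
  have hy : (y0 x : ℝ) ≤ Real.exp u + 1 := (Nat.ceil_lt_add_one (Real.exp_pos _).le).le
  have hyge : Real.exp u ≤ y0 x := Nat.le_ceil _
  have hexp2 : (3 : ℝ) ≤ Real.exp u := by
    have := Real.add_one_le_exp u
    linarith
  have hy3 : 3 ≤ y0 x := by exact_mod_cast hexp2.trans hyge
  have h5 : ∑ p ∈ S, (1 : ℝ) / p ≤ C + 1 + Real.log u := by
    have e1 := hC (y0 x - 1) (by omega)
    have e2 := (abs_le.1 e1).2
    have e3 : ((y0 x - 1 : ℕ) : ℝ) ≤ Real.exp u := by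
      rw [Nat.cast_sub (by omega)]
      push_cast
      linarith
    have e4 : (1 : ℝ) < ((y0 x - 1 : ℕ) : ℝ) := by
      have : 1 < y0 x - 1 := by omega
      exact_mod_cast this
    have e5 : Real.log ((y0 x - 1 : ℕ) : ℝ) ≤ u := by
      rw [Real.log_le_iff_le_exp (by linarith)]
      exact e3
    have e6 : Real.log (Real.log ((y0 x - 1 : ℕ) : ℝ)) ≤ Real.log u :=
      Real.log_le_log (Real.log_pos e4) e5
    rw [hS]
    linarith
  have h6 : Real.exp (3 * ∑ p ∈ S, (1 : ℝ) / p) ≤ Real.exp (3 * (C + 1)) * L ^ 3 := by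
    calc Real.exp (3 * ∑ p ∈ S, (1 : ℝ) / p) ≤ Real.exp (3 * (C + 1) + 3 * Real.log u) :=
          Real.exp_le_exp.2 (by linarith)
      _ = Real.exp (3 * (C + 1)) * u ^ 3 := by
          rw [Real.exp_add]
          congr 1
          have : (3 : ℝ) * Real.log u = ((3 : ℕ) : ℝ) * Real.log u := by norm_num
          rw [this, Real.exp_nat_mul, Real.exp_log hu1]
      _ ≤ Real.exp (3 * (C + 1)) * L ^ 3 := by
          have : u ≤ L := by nlinarith
          gcongr
  -- step 5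
  have h7 : R ^ (-(1 / u)) = Real.exp (-(κ * u)) := by
    rw [hR, ← Real.rpow_mul hx0.le, Real.rpow_def_of_pos hx0, ← hL]
    congr 1
    field_simp
    linarith [hu2]
  refine h2.trans (h3.trans ?_)
  rw [h7, le_div_iff₀ (by positivity)]
  calc ((x : ℝ) * Real.exp (-(κ * u)) * ∏ p ∈ S, (1 + (p : ℝ) ^ (1 / u - 1))) * L ^ B
      ≤ (x : ℝ) * Real.exp (-(κ * u)) * (Real.exp (3 * (C + 1)) * L ^ 3) * L ^ B := by
        gcongr
        exact h4.trans h6
    _ = (x : ℝ) * (Real.exp (3 * (C + 1)) * L ^ (B + 3) * Real.exp (-(κ * u))) := by ring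
    _ ≤ (x : ℝ) * 1 := by gcongr
    _ = x := mul_one _

namespace RankinAux

lemma gr_mono {η : ℝ} (hη : 0 < η) {i j : ℕ} (h : i ≤ j) : gr η i ≤ gr η j := by
  unfold gr
  refine Nat.floor_le_floor ?_
  exact pow_le_pow_right₀ (by linarith) h

lemma gr_step {η : ℝ} (hη : 0 < η) (hη1 : η ≤ 1) (a j Y : ℕ) (hY : 1 ≤ η * Y) (ha : gr η j ≤ a)
    (haY : Y ≤ a) : ∑ n ∈ Ico a (gr η (j + 1)), (1 : ℝ) / n ≤ 3 * η := by
  have haYR : (Y : ℝ) ≤ a := by exact_mod_cast haY
  have h1 : 1 ≤ η * a := hY.trans (by gcongr)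
  have ha0 : (0 : ℝ) < a := by
    by_contra h
    push Not at h
    nlinarith
  rcases le_total (gr η (j + 1)) a with h | h
  · rw [Ico_eq_empty_of_le h, sum_empty]
    positivity
  have h2 : ((gr η (j + 1) : ℕ) : ℝ) ≤ (a + 1) * (1 + η) := by
    have e1 : ((gr η (j + 1) : ℕ) : ℝ) ≤ (1 + η) ^ (j + 1) := Nat.floor_le (by positivity)
    have e2 : (1 + η) ^ j < (gr η j : ℝ) + 1 := Nat.lt_floor_add_one _
    have e3 : ((gr η j : ℕ) : ℝ) ≤ a := by exact_mod_cast ha
    calc _ ≤ (1 + η) ^ (j + 1) := e1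
      _ = (1 + η) ^ j * (1 + η) := pow_succ _ _
      _ ≤ (a + 1) * (1 + η) := by gcongr; linarith
  calc ∑ n ∈ Ico a (gr η (j + 1)), (1 : ℝ) / n ≤ ∑ n ∈ Ico a (gr η (j + 1)), (1 : ℝ) / a := by
        refine sum_le_sum fun n hn => ?_
        have : (a : ℝ) ≤ n := by exact_mod_cast (mem_Ico.1 hn).1
        exact one_div_le_one_div_of_le ha0 this
    _ = ((gr η (j + 1) : ℕ) - a : ℝ) * (1 / a) := by
        rw [sum_const, Nat.card_Ico, nsmul_eq_mul, Nat.cast_sub h]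
    _ ≤ (3 * η * a) * (1 / a) := by
        gcongr
        nlinarith
    _ = 3 * η := by field_simp

end RankinAux

open Classical in
/-- few integers have two prime factors in one cell -/
theorem two_cell : ∃ C : ℝ, 0 < C ∧ ∀ (x Y : ℕ) (η : ℝ), 3 ≤ x → 0 < η → η ≤ 1 → 1 ≤ η * Y →
    (((Icc 1 x).filter (fun n => ∃ j p p' : ℕ, p.Prime ∧ p'.Prime ∧ p ≠ p' ∧ p * p' ∣ n ∧ Y ≤ p ∧ Y ≤ p' ∧
      gr η j ≤ p ∧ p < gr η (j + 1) ∧ gr η j ≤ p' ∧ p' < gr η (j + 1))).card : ℝ) ≤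
      C * x * Real.log x * η := by
  refine ⟨6, by norm_num, ?_⟩
  intro x Y η hx hη hη1 hY
  set P : ℕ → Finset ℕ := fun p => (Icc 1 x).filter (fun p' => ∃ j, Y ≤ p' ∧
    gr η j ≤ p ∧ p < gr η (j + 1) ∧ gr η j ≤ p' ∧ p' < gr η (j + 1)) with hP
  have hP1 : ∀ p, ∑ p' ∈ P p, (1 : ℝ) / p' ≤ 3 * η := by
    intro p
    rcases (P p).eq_empty_or_nonempty with h | ⟨p₁, h₁⟩
    · rw [h, sum_empty]
      positivity
    · obtain ⟨_, j, _, hj1, hj2, _, _⟩ := mem_filter.1 h₁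
      have hsub : P p ⊆ Ico (max (gr η j) Y) (gr η (j + 1)) := by
        intro p' hp'
        obtain ⟨_, i, hi0, hi1, hi2, hi3, hi4⟩ := mem_filter.1 hp'
        have hij : i = j := by
          rcases lt_trichotomy i j with h | h | h
          · have := RankinAux.gr_mono hη (show i + 1 ≤ j from h)
            omega
          · exact h
          · have := RankinAux.gr_mono hη (show j + 1 ≤ i from h)
            omega
        subst hij
        exact mem_Ico.2 ⟨max_le hi3 hi0, hi4⟩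
      exact (sum_le_sum_of_subset_of_nonneg hsub fun _ _ _ => by positivity).trans
        (RankinAux.gr_step hη hη1 _ j Y hY (le_max_left _ _) (le_max_right _ _))
  have hcov : ((Icc 1 x).filter (fun n => ∃ j p p' : ℕ, p.Prime ∧ p'.Prime ∧ p ≠ p' ∧ p * p' ∣ n ∧
      Y ≤ p ∧ Y ≤ p' ∧ gr η j ≤ p ∧ p < gr η (j + 1) ∧ gr η j ≤ p' ∧ p' < gr η (j + 1))) ⊆
      (Icc 1 x).biUnion (fun p => (P p).biUnion (fun p' => (Icc 1 x).filter
        (fun n => p * p' ∣ n))) := by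
    intro n hn
    obtain ⟨hn1, j, p, p', hp, hp', hne, hdvd, h1, h2, h3, h4, h5, h6⟩ := mem_filter.1 hn
    have hn2 := mem_Icc.1 hn1
    have hle : ∀ d, d ∣ n → d ≤ x := fun d hd => (Nat.le_of_dvd (by omega) hd).trans hn2.2
    rw [mem_biUnion]
    refine ⟨p, mem_Icc.2 ⟨hp.pos, hle p ((dvd_mul_right p p').trans hdvd)⟩, ?_⟩
    rw [mem_biUnion]
    exact ⟨p', mem_filter.2 ⟨mem_Icc.2 ⟨hp'.pos, hle p' ((dvd_mul_left p' p).trans hdvd)⟩,
      j, h2, h3, h4, h5, h6⟩, mem_filter.2 ⟨hn1, hdvd⟩⟩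
  have hcard : (((Icc 1 x).filter (fun n => ∃ j p p' : ℕ, p.Prime ∧ p'.Prime ∧ p ≠ p' ∧
      p * p' ∣ n ∧ Y ≤ p ∧ Y ≤ p' ∧ gr η j ≤ p ∧ p < gr η (j + 1) ∧ gr η j ≤ p' ∧
      p' < gr η (j + 1))).card : ℝ) ≤ ∑ p ∈ Icc 1 x, ∑ p' ∈ P p, (x : ℝ) / (p * p' : ℕ) := by
    have e1 : ((Icc 1 x).biUnion (fun p => (P p).biUnion (fun p' => (Icc 1 x).filter
        (fun n => p * p' ∣ n)))).card ≤ ∑ p ∈ Icc 1 x, ∑ p' ∈ P p,
        ((Icc 1 x).filter (fun n => p * p' ∣ n)).card :=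
      card_biUnion_le.trans (sum_le_sum fun p _ => card_biUnion_le)
    calc _ ≤ ((∑ p ∈ Icc 1 x, ∑ p' ∈ P p,
        ((Icc 1 x).filter (fun n => p * p' ∣ n)).card : ℕ) : ℝ) := by
          exact_mod_cast (card_le_card hcov).trans e1
      _ ≤ _ := by
          push_cast
          refine sum_le_sum fun p _ => sum_le_sum fun p' _ => ?_
          have := RankinAux.card_mult x (p * p') ((Icc 1 x).filter (fun n => p * p' ∣ n))
            (filter_subset _ _) (fun n hn => (mem_filter.1 hn).2)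
          push_cast at this
          exact this
  have hx3 : (3 : ℝ) ≤ x := by exact_mod_cast hx
  have hlog : 1 ≤ Real.log x := by
    rw [Real.le_log_iff_exp_le (by linarith)]
    have := Real.exp_one_lt_d9
    linarith
  calc _ ≤ ∑ p ∈ Icc 1 x, ∑ p' ∈ P p, (x : ℝ) / (p * p' : ℕ) := hcard
    _ = ∑ p ∈ Icc 1 x, (x : ℝ) / p * ∑ p' ∈ P p, (1 : ℝ) / p' := by
        refine sum_congr rfl fun p _ => ?_
        rw [mul_sum]
        refine sum_congr rfl fun p' _ => ?_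
        push_cast
        rw [div_mul_div_comm, mul_one]
    _ ≤ ∑ p ∈ Icc 1 x, (x : ℝ) / p * (3 * η) :=
        sum_le_sum fun p _ => mul_le_mul_of_nonneg_left (hP1 p) (by positivity)
    _ = 3 * η * x * ∑ p ∈ Icc 1 x, ((p : ℝ))⁻¹ := by
        rw [mul_sum]
        refine sum_congr rfl fun p _ => ?_
        ring
    _ ≤ 3 * η * x * (1 + Real.log x) := by
        have h1 := harmonic_le_one_add_log x
        have h2 : ((harmonic x : ℚ) : ℝ) = ∑ p ∈ Icc 1 x, ((p : ℝ))⁻¹ := by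
          rw [harmonic_eq_sum_Icc]
          push_cast
          rfl
        rw [h2] at h1
        gcongr
    _ ≤ 3 * η * x * (2 * Real.log x) := by
        gcongr
        linarith
    _ = 6 * x * Real.log x * η := by ring

end Pool.Agent.HS
end

section
/-! # Module CtlAA3: few exceptional integers, mean squares -/

namespace Pool.Agent.HS

open Finset Pool.Agent.BV Pool.Agent.HL Pool.Agent.HT
open scoped ArithmeticFunction.Moebius ArithmeticFunction.zeta

namespace CtlA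

noncomputable section

variable {cc : ℕ → ℝ} {D0 y z w : ℕ}

/-- `aa - bb` -/
def e3 (cc : ℕ → ℝ) (z n : ℕ) : ℝ := aa cc z n - bb cc z n

theorem e3_abs (h : Wt z D0 cc) (n : ℕ) : |e3 cc z n| ≤ (n.divisors.card : ℝ) := by
  unfold e3 aa
  split_ifs
  · rw [sub_self, abs_zero]; positivity
  · rw [zero_sub, abs_neg]
    exact bb_abs z D0 cc h z n

theorem e3_bad (h : Wt z D0 cc) (n : ℕ) (hn : n ≠ 0) (h0 : e3 cc z n ≠ 0) :
    ∃ m : ℕ, z ≤ m ∧ m * m ∣ n := by
  unfold e3 aa at h0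
  split_ifs at h0 with hs
  · exact absurd (sub_self _) h0
  have hb : bb cc z n ≠ 0 := by
    intro hb
    apply h0
    rw [hb, sub_zero]
  unfold bb at hb
  obtain ⟨d, hd, hne⟩ := exists_ne_zero_of_sum_ne_zero hb
  have hcc := h.sf d (left_ne_zero_of_mul hne)
  have hr : ∀ p : ℕ, p.Prime → p ∣ n / d → z ≤ p := by
    by_contra hc
    apply right_ne_zero_of_mul hne
    unfold rho
    rw [if_neg hc]
  have hrn : ∀ p : ℕ, p.Prime → p ∣ n → z ≤ p := by
    intro p hp hpn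
    rw [← Nat.mul_div_cancel' (Nat.dvd_of_mem_divisors hd)] at hpn
    rcases (Nat.Prime.dvd_mul hp).1 hpn with h1 | h1
    · exact hcc.2 p hp h1
    · exact hr p hp h1
  rw [Nat.squarefree_iff_prime_squarefree] at hs
  push Not at hs
  obtain ⟨p, hp, hpp⟩ := hs
  exact ⟨p, hrn p hp ((Dvd.intro _ rfl).trans hpp), hpp⟩

open Classical in
theorem sq_count (x z : ℕ) (hz : 1 ≤ z) :
    (((Icc 1 x).filter (fun n => ∃ m : ℕ, z ≤ m ∧ m * m ∣ n)).card : ℝ) ≤ 2 * x / z := by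
  have h1 : ((Icc 1 x).filter (fun n => ∃ m : ℕ, z ≤ m ∧ m * m ∣ n)) ⊆
      (Ioo (z - 1) (x + 1)).biUnion (fun m => (Icc 1 x).filter (fun n => m * m ∣ n)) := by
    intro n hn
    obtain ⟨hn1, m, hm, hmn⟩ := mem_filter.1 hn
    refine mem_biUnion.2 ⟨m, mem_Ioo.2 ⟨by omega, ?_⟩, mem_filter.2 ⟨hn1, hmn⟩⟩
    have h2 := mem_Icc.1 hn1
    have h3 := Nat.le_of_dvd (by omega) hmn
    nlinarith
  calc (((Icc 1 x).filter (fun n => ∃ m : ℕ, z ≤ m ∧ m * m ∣ n)).card : ℝ)
      ≤ ∑ m ∈ Ioo (z - 1) (x + 1), (((Icc 1 x).filter (fun n => m * m ∣ n)).card : ℝ) := by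
        exact_mod_cast (card_le_card h1).trans card_biUnion_le
    _ ≤ ∑ m ∈ Ioo (z - 1) (x + 1), (x : ℝ) * ((m : ℝ) ^ 2)⁻¹ := by
        refine sum_le_sum fun m _ => ?_
        have h2 := RankinAux.card_mult x (m * m) ((Icc 1 x).filter (fun n => m * m ∣ n))
          (filter_subset _ _) (fun n hn => (mem_filter.1 hn).2)
        refine h2.trans (le_of_eq ?_)
        push_cast
        rw [div_eq_mul_inv, pow_two]
    _ = x * ∑ m ∈ Ioo (z - 1) (x + 1), ((m : ℝ) ^ 2)⁻¹ := by rw [mul_sum]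
    _ ≤ x * (2 / ((z - 1 : ℕ) + 1 : ℝ)) := by
        refine mul_le_mul_of_nonneg_left ?_ (Nat.cast_nonneg _)
        exact sum_Ioo_inv_sq_le (z - 1) (x + 1)
    _ = 2 * x / z := by
        have : ((z - 1 : ℕ) : ℝ) + 1 = z := by
          rw [Nat.cast_sub hz]; push_cast; ring
        rw [this]; ring

/-- mean squares of a function which is `≤ τ³` and supported on few integers -/
theorem mean_sq (B : ℕ) : ∃ B2 x₁ : ℕ, ∀ x : ℕ, x₁ ≤ x → ∀ (T : Finset ℕ) (e : ℕ → ℝ), T ⊆ Icc 1 x →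
    (T.card : ℝ) ≤ (x : ℝ) / (Real.log x) ^ B2 →
    (∀ n ∈ Icc 1 x, |e n| ≤ (n.divisors.card : ℝ) ^ 3) → (∀ n ∈ Icc 1 x, e n ≠ 0 → n ∈ T) →
    ∑ n ∈ Icc 1 x, (e n) ^ 2 ≤ (x : ℝ) / (9 * (Real.log x) ^ B) := by
  obtain ⟨C, hC, hτ⟩ := tau_sum 12
  obtain ⟨x₁, hx₁⟩ := Filter.eventually_atTop.1 (evt_log (81 * C + 1))
  refine ⟨2 * B + 2 ^ 12 + 1, max x₁ 3, fun x hx T e hT hcard he hs => ?_⟩
  have hx3 : 3 ≤ x := (le_max_right _ _).trans hx
  have hL := hx₁ x ((le_max_left _ _).trans hx)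
  set L : ℝ := Real.log x with hLdef
  have hL1 : 1 ≤ L := by linarith [mul_pos (by norm_num : (0 : ℝ) < 81) hC]
  have hL0 : 0 < L := by linarith
  have hx0 : (0 : ℝ) < x := by
    have : 0 < x := by omega
    exact_mod_cast this
  have h1 : ∑ n ∈ Icc 1 x, (e n) ^ 2 ≤ ∑ n ∈ T, (n.divisors.card : ℝ) ^ 6 := by
    calc ∑ n ∈ Icc 1 x, (e n) ^ 2 = ∑ n ∈ T, (e n) ^ 2 := by
          symm
          refine sum_subset hT fun n hn hnT => ?_
          have : e n = 0 := by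
            by_contra hc
            exact hnT (hs n hn hc)
          rw [this]; ring
      _ ≤ ∑ n ∈ T, (n.divisors.card : ℝ) ^ 6 := by
          refine sum_le_sum fun n hn => ?_
          have h2 := he n (hT hn)
          calc (e n) ^ 2 = |e n| ^ 2 := (sq_abs _).symm
            _ ≤ ((n.divisors.card : ℝ) ^ 3) ^ 2 := pow_le_pow_left₀ (abs_nonneg _) h2 2
            _ = _ := by ring
  have h2 : (∑ n ∈ T, (n.divisors.card : ℝ) ^ 6) ^ 2 ≤
      ((x : ℝ) / (9 * L ^ B)) ^ 2 := by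
    calc (∑ n ∈ T, (n.divisors.card : ℝ) ^ 6) ^ 2
        ≤ T.card * ∑ n ∈ T, ((n.divisors.card : ℝ) ^ 6) ^ 2 := sq_sum_le_card_mul_sum_sq
      _ ≤ ((x : ℝ) / L ^ (2 * B + 2 ^ 12 + 1)) * ∑ n ∈ Icc 1 x, (n.divisors.card : ℝ) ^ 12 := by
          refine mul_le_mul hcard ?_ (sum_nonneg fun n _ => by positivity) (by positivity)
          calc ∑ n ∈ T, ((n.divisors.card : ℝ) ^ 6) ^ 2 = ∑ n ∈ T, (n.divisors.card : ℝ) ^ 12 := by
                refine sum_congr rfl fun n _ => by ring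
            _ ≤ _ := sum_le_sum_of_subset_of_nonneg hT fun n _ _ => by positivity
      _ ≤ ((x : ℝ) / L ^ (2 * B + 2 ^ 12 + 1)) * (C * x * L ^ (2 ^ 12)) := by
          refine mul_le_mul_of_nonneg_left (hτ x x hx3 le_rfl) (by positivity)
      _ = (C / L) * (x ^ 2 / L ^ (2 * B)) := by
          generalize 2 ^ 12 = M
          rw [show 2 * B + M + 1 = 2 * B + (M + 1) by ring, pow_add L (2 * B), pow_succ L M]
          field_simp
      _ ≤ (1 / 81) * (x ^ 2 / L ^ (2 * B)) := by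
          refine mul_le_mul_of_nonneg_right ?_ (by positivity)
          rw [div_le_div_iff₀ hL0 (by norm_num)]
          linarith
      _ = _ := by rw [div_pow, mul_pow, ← pow_mul, mul_comm B 2]; ring
  have h3 : 0 ≤ ∑ n ∈ T, (n.divisors.card : ℝ) ^ 6 := sum_nonneg fun n _ => by positivity
  have h4 := (pow_le_pow_iff_left₀ h3 (by positivity) two_ne_zero).1 h2
  exact h1.trans h4

/-- the cells exhaust the primes up to `x` -/
theorem gr_JJ (B' : ℕ) (x : ℕ) (hx : 3 ≤ x) : x ≤ gr (1 / (Real.log x) ^ B') (JJ x B') := by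
  have hL1 : 1 ≤ Real.log x := by
    rw [Real.le_log_iff_exp_le (by positivity)]
    have h1 : Real.exp 1 < 3 := Real.exp_one_lt_d9.trans (by norm_num)
    have h2 : (3 : ℝ) ≤ x := by exact_mod_cast hx
    linarith
  set L : ℝ := Real.log x with hL
  set η : ℝ := 1 / L ^ B' with hη
  have hη0 : 0 < η := by rw [hη]; positivity
  have hη1 : η ≤ 1 := by
    rw [hη, div_le_one (by positivity)]
    exact one_le_pow₀ hL1
  unfold gr
  refine Nat.le_floor ?_
  have hx0 : (0 : ℝ) < x := by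
    have : 0 < x := by omega
    exact_mod_cast this
  have h1 : L ≤ JJ x B' * Real.log (1 + η) := by
    have h2 : 2 * L ^ (B' + 1) ≤ JJ x B' := by
      unfold JJ
      exact Nat.le_ceil _
    have h3 : η / 2 ≤ Real.log (1 + η) := by
      have h4 := Real.le_log_one_add_of_nonneg hη0.le
      refine le_trans ?_ h4
      rw [div_le_div_iff₀ (by norm_num) (by linarith)]
      nlinarith
    calc L = (2 * L ^ (B' + 1)) * (η / 2) := by
          rw [hη, pow_succ]; field_simp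
      _ ≤ JJ x B' * Real.log (1 + η) := mul_le_mul h2 h3 (by positivity) (by positivity)
  calc (x : ℝ) = Real.exp L := (Real.exp_log hx0).symm
    _ ≤ Real.exp (JJ x B' * Real.log (1 + η)) := Real.exp_le_exp.2 h1
    _ = (1 + η) ^ JJ x B' := by
        rw [mul_comm, Real.exp_mul, Real.exp_log (by linarith), Real.rpow_natCast]

end

end CtlA

end Pool.Agent.HS
end

section
/-! # Module EEVar

`c` not coprime to `q`: `EE = 0` (`FL` and `TM` vanish). `c` coprime to `q s`: `EE q Q s c y` is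
`psiA (q s) c y - y/φ(q s)` up to `4 (q/φ(q)) Q²` (`T_class`). `c` coprime to `q`, not to `s`: the `FL`-part is a sum of
`Λ(n)` over `n` not coprime to `q s`, total over `c` at most `2 (log x)²` (`coprime_defect`), the `TM`-part is
`≤ 4 (q/φ(q)) Q²` (`T_class`). -/

namespace Pool.Agent.HL

open Finset Pool.Agent.BV
open scoped ArithmeticFunction.vonMangoldt

end Pool.Agent.HL
end

section
/-! # Module BadCount: few primitive characters have a large prime sum at a given height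

`J`-th power of the prime sum and the multiplicative large sieve: for `Q ^ 2 ≤ u ^ J` the number of
primitive characters of modulus at most `Q` with `‖psiC χ u‖ > u / T` is at most
`C (log u) ^ J T ^ (2 J)`. -/

namespace Pool.Agent.HL

open Finset Pool.Agent.BV
open scoped ArithmeticFunction.vonMangoldt

noncomputable section

end

end Pool.Agent.HL
end

section
/-! # Module VLow: Mertens' theorem on intervals -/

namespace Pool.Agent.HS

open Finset Pool.Agent.BV Pool.Agent.HL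

/-- `∑_{p ≤ n} log p / p - log n` -/
noncomputable def RM (n : ℕ) : ℝ :=
  ∑ k ∈ Icc 0 n, Pool.Agent.Work.MP_b30479_gt.Mertens.lc k - Real.log n

theorem RM_bound : ∃ C : ℝ, 0 < C ∧ ∀ n : ℕ, 1 ≤ n → |RM n| ≤ C := by
  obtain ⟨C, hC, h⟩ := Pool.Agent.Work.MP_b30479_gt.Mertens.mertens_first
  refine ⟨C, hC, fun n hn => ?_⟩
  have h1 := h n (by exact_mod_cast hn)
  unfold Pool.Agent.Work.MP_b30479_gt.Mertens.A at h1
  rw [Nat.floor_natCast] at h1
  exact h1

theorem RM_succ (n : ℕ) : Pool.Agent.Work.MP_b30479_gt.Mertens.lc (n + 1) =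
    (Real.log (n + 1 : ℕ) - Real.log n) + RM (n + 1) - RM n := by
  unfold RM
  rw [Finset.sum_Icc_succ_top (by omega)]
  ring

theorem step_bound {n : ℕ} (hn : 2 ≤ n) :
    |(Real.log (n + 1 : ℕ) - Real.log n) * (Real.log (n + 1 : ℕ))⁻¹ -
      (Real.log (Real.log (n + 1 : ℕ)) - Real.log (Real.log n))| ≤
      (Real.log n)⁻¹ - (Real.log (n + 1 : ℕ))⁻¹ := by
  have hn1 : (1 : ℝ) < n := by exact_mod_cast (by omega : 1 < n)
  have hn2 : (1 : ℝ) < (n + 1 : ℕ) := by exact_mod_cast (by omega : 1 < n + 1)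
  have hu : 0 < Real.log n := Real.log_pos hn1
  have hv : 0 < Real.log (n + 1 : ℕ) := Real.log_pos hn2
  have hle : Real.log n ≤ Real.log (n + 1 : ℕ) :=
    Real.log_le_log (by linarith) (by push_cast; linarith)
  have hd : Real.log (n + 1 : ℕ) - Real.log n ≤ 1 := by
    rw [← Real.log_div (by positivity) (by positivity)]
    have h1 : (((n + 1 : ℕ) : ℝ)) / n ≤ 2 := by
      rw [div_le_iff₀ (by linarith)]
      push_cast
      linarith
    have h2 := Real.log_le_sub_one_of_pos (show (0 : ℝ) < ((n + 1 : ℕ) : ℝ) / n by positivity)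
    linarith
  generalize Real.log (n + 1 : ℕ) = v at hv hle hd
  generalize Real.log n = u at hu hle hd
  have h1 : 1 - u / v ≤ Real.log v - Real.log u := by
    have h := Real.log_le_sub_one_of_pos (show (0 : ℝ) < u / v by positivity)
    rw [Real.log_div hu.ne' hv.ne'] at h
    linarith
  have h2 : Real.log v - Real.log u ≤ v / u - 1 := by
    have h := Real.log_le_sub_one_of_pos (show (0 : ℝ) < v / u by positivity)
    rw [Real.log_div hv.ne' hu.ne'] at h
    linarith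
  have e1 : (v - u) * v⁻¹ = 1 - u / v := by
    field_simp
  have e2 : v / u - 1 - (v - u) * v⁻¹ = (v - u) * (u⁻¹ - v⁻¹) := by
    field_simp
  have h3 : 0 ≤ u⁻¹ - v⁻¹ := sub_nonneg.2 (inv_anti₀ hu hle)
  have h4 : (v - u) * (u⁻¹ - v⁻¹) ≤ 1 * (u⁻¹ - v⁻¹) := mul_le_mul_of_nonneg_right hd h3
  rw [abs_le]
  constructor <;> linarith

theorem mertens_inv {C : ℝ} (hR : ∀ n : ℕ, 1 ≤ n → |RM n| ≤ C) {M : ℕ} (hM : 2 ≤ M)
    {N : ℕ} (hN : M ≤ N) :
    |∑ p ∈ (Ioc M N).filter Nat.Prime, (1 : ℝ) / p -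
      (Real.log (Real.log N) - Real.log (Real.log M)) - RM N * (Real.log N)⁻¹ +
        RM M * (Real.log M)⁻¹| ≤ (C + 1) * ((Real.log M)⁻¹ - (Real.log N)⁻¹) := by
  induction N, hN using Nat.le_induction with
  | base => simp
  | succ n hn ih =>
    have hs : ∑ p ∈ (Ioc M (n + 1)).filter Nat.Prime, (1 : ℝ) / p =
        ∑ p ∈ (Ioc M n).filter Nat.Prime, (1 : ℝ) / p +
          Pool.Agent.Work.MP_b30479_gt.Mertens.lc (n + 1) * (Real.log (n + 1 : ℕ))⁻¹ := by
      rw [Finset.sum_filter, Finset.sum_filter, Finset.sum_Ioc_succ_top (by omega)]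
      congr 1
      unfold Pool.Agent.Work.MP_b30479_gt.Mertens.lc
      have hv : Real.log (n + 1 : ℕ) ≠ 0 :=
        (Real.log_pos (by exact_mod_cast (by omega : 1 < n + 1))).ne'
      split_ifs with h
      · field_simp
      · simp
    have h1 := step_bound (show 2 ≤ n by omega)
    have h2 := hR n (by omega)
    have hn1 : (1 : ℝ) < n := by exact_mod_cast (by omega : 1 < n)
    have hu : 0 < Real.log n := Real.log_pos hn1
    have hle : Real.log n ≤ Real.log (n + 1 : ℕ) :=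
      Real.log_le_log (by linarith) (by push_cast; linarith)
    have h3 : 0 ≤ (Real.log n)⁻¹ - (Real.log (n + 1 : ℕ))⁻¹ := sub_nonneg.2 (inv_anti₀ hu hle)
    have h4 : |RM n * ((Real.log n)⁻¹ - (Real.log (n + 1 : ℕ))⁻¹)| ≤
        C * ((Real.log n)⁻¹ - (Real.log (n + 1 : ℕ))⁻¹) := by
      rw [abs_mul, abs_of_nonneg h3]
      exact mul_le_mul_of_nonneg_right h2 h3
    rw [hs, RM_succ n]
    rw [abs_le] at h1 h4 ih ⊢
    constructor
    · linarith [h1.1, h4.1, ih.1]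
    · linarith [h1.2, h4.2, ih.2]

theorem mertens_two : ∃ C : ℝ, 0 < C ∧ ∀ M N : ℕ, 2 ≤ M → M ≤ N →
    |∑ p ∈ (Ioc M N).filter Nat.Prime, (1 : ℝ) / p -
      (Real.log (Real.log N) - Real.log (Real.log M))| ≤ C * (Real.log M)⁻¹ := by
  obtain ⟨C, hC, hR⟩ := RM_bound
  refine ⟨2 * C + 1, by linarith, fun M N hM hN => ?_⟩
  have h1 := mertens_inv hR hM hN
  have hu : 0 < (Real.log M)⁻¹ :=
    inv_pos.2 (Real.log_pos (by exact_mod_cast (by omega : 1 < M)))
  have hv : 0 < (Real.log N)⁻¹ :=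
    inv_pos.2 (Real.log_pos (by exact_mod_cast (by omega : 1 < N)))
  have h2 : |RM N * (Real.log N)⁻¹| ≤ C * (Real.log N)⁻¹ := by
    rw [abs_mul, abs_of_pos hv]
    exact mul_le_mul_of_nonneg_right (hR N (by omega)) hv.le
  have h3 : |RM M * (Real.log M)⁻¹| ≤ C * (Real.log M)⁻¹ := by
    rw [abs_mul, abs_of_pos hu]
    exact mul_le_mul_of_nonneg_right (hR M (by omega)) hu.le
  rw [abs_le] at h1 h2 h3 ⊢
  constructor
  · linarith [h1.1, h2.1, h3.1]
  · linarith [h1.2, h2.2, h3.2]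

end Pool.Agent.HS
end

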