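import Pool.Agent.Work.GBM.C01
import Pool.Agent.Work.GBM.C02
import Pool.Agent.Work.GBM.C12

section
/-! # Module CtlAA1: the type I part of the minorant -/

namespace Pool.Agent.HS

open Finset Pool.Agent.BV Pool.Agent.HL
open scoped ArithmeticFunction.Moebius ArithmeticFunction.zeta

namespace CtlA

noncomputable section

open Classical in
/-- Moebius function on the squarefree integers `< w` with all primes in `[y, z)` -/
def f1 (y z w : ℕ) : ArithmeticFunction ℝ where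
  toFun c := if CC y z c ∧ c < w then ((μ c : ℤ) : ℝ) else 0
  map_zero' := by
    rw [if_neg]
    rintro ⟨h, -⟩
    exact not_squarefree_zero h.1

/-- the weights -/
def f2 (cc : ℕ → ℝ) : ArithmeticFunction ℝ where
  toFun d := if d = 0 then 0 else cc d
  map_zero' := by rw [if_pos rfl]

open Classical in
/-- Moebius function on the squarefree integers with all primes `< y` -/
def g3 (y : ℕ) : ArithmeticFunction ℝ where
  toFun e := if Squarefree e ∧ ∀ p : ℕ, p.Prime → p ∣ e → p < y then ((μ e : ℤ) : ℝ) else 0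
  map_zero' := by
    rw [if_neg]
    rintro ⟨h, -⟩
    exact not_squarefree_zero h

/-- the part `< w` of `g3` -/
def f3 (y w : ℕ) : ArithmeticFunction ℝ where
  toFun e := if e < w then g3 y e else 0
  map_zero' := by simp

/-- type I coefficients -/
def be (cc : ℕ → ℝ) (y z w : ℕ) : ArithmeticFunction ℝ := f1 y z w * (f2 cc * f3 y w)

theorem f1_apply (y z w c : ℕ) [Decidable (CC y z c ∧ c < w)] :
    f1 y z w c = if CC y z c ∧ c < w then ((μ c : ℤ) : ℝ) else 0 := by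
  simp only [f1, ArithmeticFunction.coe_mk]
  congr

theorem f2_apply (cc : ℕ → ℝ) (d : ℕ) : f2 cc d = if d = 0 then 0 else cc d := rfl

theorem g3_apply (y e : ℕ) [Decidable (Squarefree e ∧ ∀ p : ℕ, p.Prime → p ∣ e → p < y)] :
    g3 y e = if Squarefree e ∧ ∀ p : ℕ, p.Prime → p ∣ e → p < y then ((μ e : ℤ) : ℝ) else 0 := by
  simp only [g3, ArithmeticFunction.coe_mk]
  congr

theorem f3_apply (y w e : ℕ) : f3 y w e = if e < w then g3 y e else 0 := rfl

theorem mu_abs (n : ℕ) : |((μ n : ℤ) : ℝ)| ≤ 1 := by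
  have := ArithmeticFunction.abs_moebius_le_one (n := n)
  exact_mod_cast this

theorem f1_abs (y z w c : ℕ) : |f1 y z w c| ≤ 1 := by
  classical
  rw [f1_apply]
  split_ifs
  · exact mu_abs c
  · rw [abs_zero]; exact zero_le_one

theorem f2_abs (cc : ℕ → ℝ) (h : ∀ d, |cc d| ≤ 1) (d : ℕ) : |f2 cc d| ≤ 1 := by
  rw [f2_apply]
  split_ifs
  · rw [abs_zero]; exact zero_le_one
  · exact h d

theorem g3_abs (y e : ℕ) : |g3 y e| ≤ 1 := by
  classical
  rw [g3_apply]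
  split_ifs
  · exact mu_abs e
  · rw [abs_zero]; exact zero_le_one

theorem f3_abs (y w e : ℕ) : |f3 y w e| ≤ 1 := by
  rw [f3_apply]
  split_ifs
  · exact g3_abs y e
  · rw [abs_zero]; exact zero_le_one

theorem f1_supp {y z w c : ℕ} (h : f1 y z w c ≠ 0) : CC y z c ∧ c < w := by
  classical
  rw [f1_apply] at h
  by_contra hc
  rw [if_neg hc] at h
  exact h rfl

theorem f2_supp {cc : ℕ → ℝ} {d : ℕ} (h : f2 cc d ≠ 0) : cc d ≠ 0 := by
  rw [f2_apply] at h
  split_ifs at h with h1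
  · exact absurd rfl h
  · exact h

theorem g3_supp {y e : ℕ} (h : g3 y e ≠ 0) : Squarefree e ∧ ∀ p : ℕ, p.Prime → p ∣ e → p < y := by
  classical
  rw [g3_apply] at h
  by_contra hc
  rw [if_neg hc] at h
  exact h rfl

theorem f3_supp {y w e : ℕ} (h : f3 y w e ≠ 0) : e < w ∧ g3 y e ≠ 0 := by
  rw [f3_apply] at h
  split_ifs at h with h1
  · exact ⟨h1, h⟩
  · exact absurd rfl h

/-- the factors of a nonzero value of a convolution -/
theorem mul_supp {F G : ArithmeticFunction ℝ} {n : ℕ} (h : (F * G) n ≠ 0) :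
    ∃ a b : ℕ, a * b = n ∧ F a ≠ 0 ∧ G b ≠ 0 ∧ n ≠ 0 := by
  rw [ArithmeticFunction.mul_apply] at h
  obtain ⟨p, hp, hne⟩ := exists_ne_zero_of_sum_ne_zero h
  rw [Nat.mem_divisorsAntidiagonal] at hp
  exact ⟨p.1, p.2, hp.1, left_ne_zero_of_mul hne, right_ne_zero_of_mul hne, hp.2⟩

/-- convolutions with unique representation are bounded by `1` -/
theorem mul_abs_le {F G : ArithmeticFunction ℝ} (hF : ∀ n, |F n| ≤ 1) (hG : ∀ n, |G n| ≤ 1)
    (φ : ℕ → ℕ) (h : ∀ a b, F a ≠ 0 → G b ≠ 0 → a = φ (a * b)) (n : ℕ) : |(F * G) n| ≤ 1 := by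
  rcases Nat.eq_zero_or_pos n with rfl | hn
  · rw [ArithmeticFunction.map_zero, abs_zero]; exact zero_le_one
  by_cases h0 : (F * G) n = 0
  · rw [h0, abs_zero]; exact zero_le_one
  obtain ⟨a, b, hab, ha, hb, -⟩ := mul_supp h0
  have haφ := h a b ha hb
  rw [hab] at haφ
  have ha0 : 0 < a := by
    rcases Nat.eq_zero_or_pos a with rfl | h1
    · rw [zero_mul] at hab; omega
    · exact h1
  rw [ArithmeticFunction.mul_apply, sum_eq_single (a, b)]
  · rw [abs_mul]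
    exact mul_le_one₀ (hF a) (abs_nonneg _) (hG b)
  · intro p hp hne
    rw [Nat.mem_divisorsAntidiagonal] at hp
    by_contra hc
    have h1 := h p.1 p.2 (left_ne_zero_of_mul hc) (right_ne_zero_of_mul hc)
    rw [hp.1, ← haφ] at h1
    apply hne
    refine Prod.ext h1 ?_
    have h2 : a * p.2 = a * b := by rw [← h1, hp.1, h1, hab]
    exact Nat.eq_of_mul_eq_mul_left ha0 h2
  · intro hc
    exact absurd (Nat.mem_divisorsAntidiagonal.2 ⟨hab, hn.ne'⟩) hc

open Classical in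
/-- the part of an integer composed of the primes in `S` -/
def part (S : ℕ → Prop) (n : ℕ) : ℕ := ∏ p ∈ n.primeFactors.filter S, p

theorem part_eq {S : ℕ → Prop} {a b : ℕ} (ha : Squarefree a) (haS : ∀ p : ℕ, p.Prime → p ∣ a → S p)
    (hb : b ≠ 0) (hbS : ∀ p : ℕ, p.Prime → p ∣ b → ¬ S p) : a = part S (a * b) := by
  classical
  unfold part
  rw [Nat.primeFactors_mul ha.ne_zero hb]
  have h1 : (a.primeFactors ∪ b.primeFactors).filter S = a.primeFactors := by
    ext p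
    simp only [mem_filter, mem_union]
    constructor
    · rintro ⟨h1 | h1, h2⟩
      · exact h1
      · exact absurd h2 (hbS p (Nat.prime_of_mem_primeFactors h1) (Nat.dvd_of_mem_primeFactors h1))
    · intro h1
      exact ⟨Or.inl h1, haS p (Nat.prime_of_mem_primeFactors h1) (Nat.dvd_of_mem_primeFactors h1)⟩
  have h2 : (a.primeFactors ∪ b.primeFactors).filter (fun x => S x) = a.primeFactors := h1
  rw [h1]
  exact (Nat.prod_primeFactors_of_squarefree ha).symm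

variable {cc : ℕ → ℝ} {D0 y z w : ℕ}

theorem inner_abs (h : Wt z D0 cc) (hyz : y ≤ z) (n : ℕ) : |(f2 cc * f3 y w) n| ≤ 1 := by
  refine mul_abs_le (f2_abs cc h.bd) (f3_abs y w) (part (fun p => z ≤ p)) ?_ n
  intro a b ha hb
  have h1 := h.sf a (f2_supp ha)
  have h2 := g3_supp (f3_supp hb).2
  refine part_eq h1.1 h1.2 h2.1.ne_zero ?_
  intro p hp hpb
  have := h2.2 p hp hpb
  omega

theorem be_abs (h : Wt z D0 cc) (hyz : y ≤ z) (n : ℕ) : |be cc y z w n| ≤ 1 := by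
  unfold be
  refine mul_abs_le (f1_abs y z w) (inner_abs h hyz) (part (fun p => y ≤ p ∧ p < z)) ?_ n
  intro a b ha hb
  have h1 := f1_supp ha
  obtain ⟨d, e, hde, hd, he, hb0⟩ := mul_supp hb
  have h2 := h.sf d (f2_supp hd)
  have h3 := g3_supp (f3_supp he).2
  refine part_eq h1.1.1 h1.1.2 hb0 ?_
  intro p hp hpb
  rw [← hde] at hpb
  rcases (Nat.Prime.dvd_mul hp).1 hpb with h4 | h4
  · have := h2.2 p hp h4
    omega
  · have := h3.2 p hp h4
    omega

theorem be_supp (h : Wt z D0 cc) (n : ℕ) (hn : w ^ 2 * D0 < n) : be cc y z w n = 0 := by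
  by_contra hc
  obtain ⟨c, b, hcb, hc1, hb1, -⟩ := mul_supp hc
  obtain ⟨d, e, hde, hd, he, -⟩ := mul_supp hb1
  have h1 := (f1_supp hc1).2
  have h2 := h.le d (f2_supp hd)
  have h3 := (f3_supp he).1
  have h4 : n ≤ w ^ 2 * D0 := by
    rw [← hcb, ← hde]
    calc c * (d * e) ≤ w * (D0 * w) := Nat.mul_le_mul h1.le (Nat.mul_le_mul h2 h3.le)
      _ = w ^ 2 * D0 := by ring
  omega

/-- the squarefree integers with all primes `< y` are the divisors of the product of these primes -/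
theorem dvd_prod_iff (y e : ℕ) : (Squarefree e ∧ ∀ p : ℕ, p.Prime → p ∣ e → p < y) ↔
    e ∣ ∏ p ∈ Nat.primesBelow y, p := by
  constructor
  · rintro ⟨h1, h2⟩
    rw [← Nat.prod_primeFactors_of_squarefree h1]
    refine prod_dvd_prod_of_subset _ _ _ ?_
    intro p hp
    have hp1 := Nat.prime_of_mem_primeFactors hp
    exact Nat.mem_primesBelow.2 ⟨h2 p hp1 (Nat.dvd_of_mem_primeFactors hp), hp1⟩
  · intro h
    have hs : Squarefree (∏ p ∈ Nat.primesBelow y, p) := by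
      refine (Finset.squarefree_prod_of_pairwise_isCoprime ?_ ?_)
      · intro p hp q hq hpq
        have h1 := (Nat.mem_primesBelow.1 hp).2
        have h2 := (Nat.mem_primesBelow.1 hq).2
        exact Nat.coprime_iff_isRelPrime.1 ((Nat.coprime_primes h1 h2).2 hpq)
      · intro p hp
        exact (Nat.mem_primesBelow.1 hp).2.squarefree
    refine ⟨hs.squarefree_of_dvd h, fun p hp hpe => ?_⟩
    have h1 := hpe.trans h
    obtain ⟨q, hq, hpq⟩ := (Prime.dvd_finsetProd_iff hp.prime _).1 h1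
    have h2 := Nat.mem_primesBelow.1 hq
    rw [(Nat.prime_dvd_prime_iff_eq hp h2.2).1 hpq]
    exact h2.1

theorem sum_g3 (y k : ℕ) (hk : k ≠ 0) : ∑ e ∈ k.divisors, g3 y e = rho y k := by
  classical
  set P := ∏ p ∈ Nat.primesBelow y, p with hP
  have hP0 : P ≠ 0 := prod_ne_zero_iff.2 fun p hp => (Nat.mem_primesBelow.1 hp).2.ne_zero
  have h1 : ∑ e ∈ k.divisors, g3 y e = ∑ e ∈ (Nat.gcd k P).divisors, ((μ e : ℤ) : ℝ) := by
    have h2 : (Nat.gcd k P).divisors =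
        k.divisors.filter (fun e => Squarefree e ∧ ∀ p : ℕ, p.Prime → p ∣ e → p < y) := by
      ext e
      rw [mem_filter, Nat.mem_divisors, Nat.mem_divisors, dvd_prod_iff, Nat.dvd_gcd_iff]
      constructor
      · rintro ⟨⟨h1, h2⟩, -⟩
        exact ⟨⟨h1, hk⟩, h2⟩
      · rintro ⟨⟨h1, -⟩, h2⟩
        exact ⟨⟨h1, h2⟩, (Nat.gcd_pos_of_pos_left _ (Nat.pos_of_ne_zero hk)).ne'⟩
    rw [h2, sum_filter]
    refine sum_congr rfl fun e _ => ?_
    rw [g3_apply]
  have h3 : ∑ e ∈ (Nat.gcd k P).divisors, ((μ e : ℤ) : ℝ) = if Nat.gcd k P = 1 then 1 else 0 := by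
    have h4 : ∑ e ∈ (Nat.gcd k P).divisors, (μ e : ℤ) = if Nat.gcd k P = 1 then 1 else 0 := by
      rw [← ArithmeticFunction.coe_mul_zeta_apply, ArithmeticFunction.moebius_mul_coe_zeta,
        ArithmeticFunction.one_apply]
    rw [← Int.cast_sum, h4]
    split_ifs <;> simp
  rw [h1, h3]
  unfold rho
  by_cases hr : ∀ p : ℕ, p.Prime → p ∣ k → y ≤ p
  · rw [if_pos hr, if_pos]
    by_contra hg
    obtain ⟨p, hp, hpg⟩ := Nat.exists_prime_and_dvd hg
    have h5 := hr p hp (hpg.trans (Nat.gcd_dvd_left _ _))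
    obtain ⟨q, hq, hpq⟩ := (Prime.dvd_finsetProd_iff hp.prime _).1 (hpg.trans (Nat.gcd_dvd_right k P))
    have h6 := Nat.mem_primesBelow.1 hq
    rw [(Nat.prime_dvd_prime_iff_eq hp h6.2).1 hpq] at h5
    omega
  · rw [if_neg hr, if_neg]
    push Not at hr
    obtain ⟨p, hp, hpk, hpy⟩ := hr
    intro hg
    have h5 : p ∣ Nat.gcd k P :=
      Nat.dvd_gcd hpk (dvd_prod_of_mem _ (Nat.mem_primesBelow.2 ⟨hpy, hp⟩))
    rw [hg] at h5
    exact hp.one_lt.ne' (Nat.dvd_one.1 h5)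

/-! ### the error -/

/-- `rho` as an arithmetic function -/
def rr (y : ℕ) : ArithmeticFunction ℝ := g3 y * (ζ : ArithmeticFunction ℝ)

theorem rr_apply (y k : ℕ) (hk : k ≠ 0) : rr y k = rho y k := by
  unfold rr
  rw [ArithmeticFunction.coe_mul_zeta_apply, sum_g3 y k hk]

theorem bb_eq (cc : ℕ → ℝ) (y n : ℕ) (hn : n ≠ 0) : bb cc y n = (f2 cc * rr y) n := by
  unfold bb
  rw [ArithmeticFunction.mul_apply, Nat.sum_divisorsAntidiagonal (fun a b => f2 cc a * rr y b)]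
  refine sum_congr rfl fun d hd => ?_
  have hd1 := Nat.dvd_of_mem_divisors hd
  have hd0 : d ≠ 0 := by
    rintro rfl
    exact hn (Nat.eq_zero_of_zero_dvd hd1)
  have hnd : n / d ≠ 0 := (Nat.div_pos (Nat.le_of_dvd (Nat.pos_of_ne_zero hn) hd1)
    (Nat.pos_of_ne_zero hd0)).ne'
  rw [f2_apply, if_neg hd0, rr_apply y _ hnd]

open Classical in
/-- the error of the type I part -/
def e1 (cc : ℕ → ℝ) (y z w n : ℕ) : ℝ :=
  ∑ c ∈ n.divisors.filter (fun c => CC y z c ∧ c < w), ((μ c : ℤ) : ℝ) * bb cc y (n / c) -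
    ∑ m ∈ n.divisors, be cc y z w m

theorem first_eq (cc : ℕ → ℝ) (y z w n : ℕ) (hn : n ≠ 0) [DecidablePred fun c => CC y z c ∧ c < w] :
    ∑ c ∈ n.divisors.filter (fun c => CC y z c ∧ c < w), ((μ c : ℤ) : ℝ) * bb cc y (n / c) =
      (f1 y z w * (f2 cc * rr y)) n := by
  rw [sum_filter, ArithmeticFunction.mul_apply,
    Nat.sum_divisorsAntidiagonal (fun a b => f1 y z w a * (f2 cc * rr y) b)]
  refine sum_congr rfl fun d hd => ?_
  have hd1 := Nat.dvd_of_mem_divisors hd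
  have hd0 : d ≠ 0 := by
    rintro rfl
    exact hn (Nat.eq_zero_of_zero_dvd hd1)
  have hnd : n / d ≠ 0 := (Nat.div_pos (Nat.le_of_dvd (Nat.pos_of_ne_zero hn) hd1)
    (Nat.pos_of_ne_zero hd0)).ne'
  rw [f1_apply, bb_eq cc y _ hnd]
  split_ifs
  · rfl
  · rw [zero_mul]

/-- the large part of `g3` -/
def t3 (y w : ℕ) : ArithmeticFunction ℝ := g3 y - f3 y w

theorem t3_apply (y w e : ℕ) : t3 y w e = if e < w then 0 else g3 y e := by
  unfold t3
  rw [sub_eq_add_neg, ArithmeticFunction.add_apply, ArithmeticFunction.neg_apply, f3_apply]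
  split_ifs
  · ring
  · ring

theorem t3_abs (y w e : ℕ) : |t3 y w e| ≤ 1 := by
  rw [t3_apply]
  split_ifs
  · rw [abs_zero]; exact zero_le_one
  · exact g3_abs y e

theorem t3_supp {y w e : ℕ} (h : t3 y w e ≠ 0) : w ≤ e ∧ g3 y e ≠ 0 := by
  rw [t3_apply] at h
  split_ifs at h with h1
  · exact absurd rfl h
  · exact ⟨not_lt.1 h1, h⟩

theorem e1_eq (cc : ℕ → ℝ) (y z w n : ℕ) (hn : n ≠ 0) :
    e1 cc y z w n = (f1 y z w * (f2 cc * (t3 y w * (ζ : ArithmeticFunction ℝ)))) n := by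
  classical
  unfold e1
  rw [← ArithmeticFunction.coe_mul_zeta_apply]
  have h1 := first_eq cc y z w n hn
  have h2 : (f1 y z w * (f2 cc * (t3 y w * (ζ : ArithmeticFunction ℝ)))) =
      f1 y z w * (f2 cc * rr y) + -(be cc y z w * (ζ : ArithmeticFunction ℝ)) := by
    unfold t3 rr be
    ring
  rw [h2, ArithmeticFunction.add_apply, ArithmeticFunction.neg_apply, ← h1, ← sub_eq_add_neg]

theorem conv_abs {F G : ArithmeticFunction ℝ} (hF : ∀ n, |F n| ≤ 1) (k : ℕ)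
    (hG : ∀ n, |G n| ≤ (n.divisors.card : ℝ) ^ k) (n : ℕ) :
    |(F * G) n| ≤ (n.divisors.card : ℝ) ^ (k + 1) := by
  rcases Nat.eq_zero_or_pos n with rfl | hn
  · rw [ArithmeticFunction.map_zero, abs_zero]; positivity
  rw [ArithmeticFunction.mul_apply, Nat.sum_divisorsAntidiagonal (fun a b => F a * G b)]
  calc |∑ d ∈ n.divisors, F d * G (n / d)| ≤ ∑ d ∈ n.divisors, |F d * G (n / d)| :=
        abs_sum_le_sum_abs _ _
    _ ≤ ∑ _d ∈ n.divisors, (n.divisors.card : ℝ) ^ k := by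
        refine sum_le_sum fun d hd => ?_
        rw [abs_mul]
        have h1 : |G (n / d)| ≤ (n.divisors.card : ℝ) ^ k := by
          refine (hG _).trans ?_
          have h2 : ((n / d).divisors.card : ℝ) ≤ (n.divisors.card : ℝ) := by
            exact_mod_cast card_le_card (Nat.divisors_subset_of_dvd hn.ne'
              (Nat.div_dvd_of_dvd (Nat.dvd_of_mem_divisors hd)))
          exact pow_le_pow_left₀ (Nat.cast_nonneg _) h2 k
        calc |F d| * |G (n / d)| ≤ 1 * (n.divisors.card : ℝ) ^ k :=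
              mul_le_mul (hF d) h1 (abs_nonneg _) zero_le_one
          _ = _ := one_mul _
    _ = (n.divisors.card : ℝ) ^ (k + 1) := by
        rw [sum_const, nsmul_eq_mul, pow_succ, mul_comm]

theorem e1_abs (h : Wt z D0 cc) (n : ℕ) (hn : n ≠ 0) :
    |e1 cc y z w n| ≤ (n.divisors.card : ℝ) ^ 3 := by
  rw [e1_eq cc y z w n hn]
  refine conv_abs (f1_abs y z w) 2 (fun m => conv_abs (f2_abs cc h.bd) 1 (fun m => ?_) m) n
  refine conv_abs (t3_abs y w) 0 (fun m => ?_) m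
  rw [pow_zero]
  rcases Nat.eq_zero_or_pos m with rfl | hm
  · rw [ArithmeticFunction.map_zero, abs_zero]; exact zero_le_one
  · rw [ArithmeticFunction.natCoe_apply, ArithmeticFunction.zeta_apply_ne hm.ne']
    norm_num

theorem e1_bad (cc : ℕ → ℝ) (y z w n : ℕ) (hn : n ≠ 0) (h0 : e1 cc y z w n ≠ 0) :
    ∃ d : ℕ, d ∣ n ∧ Squarefree d ∧ (∀ p : ℕ, p.Prime → p ∣ d → p < y) ∧ w ≤ d := by
  rw [e1_eq cc y z w n hn] at h0
  obtain ⟨a, b, hab, -, hb, -⟩ := mul_supp h0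
  obtain ⟨a', b', hab', -, hb', -⟩ := mul_supp hb
  obtain ⟨e, f, hef, he, -, -⟩ := mul_supp hb'
  have h1 := t3_supp he
  have h2 := g3_supp h1.2
  refine ⟨e, ?_, h2.1, h2.2, h1.1⟩
  rw [← hab, ← hab', ← hef]
  exact Dvd.dvd.mul_left (Dvd.dvd.mul_left (Dvd.intro _ rfl) _) _

end

end CtlA

end Pool.Agent.HS
end

section
/-! # Module CtlAA2: the type II part of the minorant, cells for the smallest prime factor

`gr η` is monotone, `gr η 0 = 1`, so every prime `p < gr η J` lies in exactly one cell `[gr η j, gr η (j+1))`, `j < J`. Hence the first sum is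
`∑_{j < J} ∑_{c ∣ n} AJ y z w η j c * bb cc c.minFac (n/c)`. The difference is `≤ ∑_{c ∣ n} τ(n/c) ≤ τ(n)²`; if it is not zero then for some `j`, `c`
with `AJ j c ≠ 0` and `d ∣ n/c` we have `rho c.minFac (n/c/d) ≠ rho (gr η j) (n/c/d)`: a prime `p'` of `n/c/d` with `gr η j ≤ p' < c.minFac`; `p = c.minFac`. -/

namespace Pool.Agent.HS

open Finset Pool.Agent.BV Pool.Agent.HL
open scoped ArithmeticFunction.Moebius

open Classical in
/-- error of the cells -/
noncomputable def e2 (cc : ℕ → ℝ) (y z w J : ℕ) (η : ℝ) (n : ℕ) : ℝ :=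
  ∑ c ∈ n.divisors.filter (fun c => CC y z c ∧ w ≤ c ∧ c / c.minFac < w),
    ((μ c : ℤ) : ℝ) * bb cc c.minFac (n / c) -
  ∑ j ∈ range J, ∑ p ∈ n.divisorsAntidiagonal, AJ y z w η j p.1 * bb cc (gr η j) p.2

namespace CtlAA2

lemma gr0 (η : ℝ) : gr η 0 = 1 := by simp [gr]

lemma grm {η : ℝ} (hη : 0 < η) : Monotone (gr η) := by
  intro i j hij
  unfold gr
  exact Nat.floor_mono (pow_le_pow_right₀ (by linarith) hij)

/-- every `p ≥ 1` below `gr η J` lies in a cell -/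
lemma cell {η : ℝ} (J p : ℕ) (h1 : 1 ≤ p) (h : p < gr η J) :
    ∃ j < J, gr η j ≤ p ∧ p < gr η (j + 1) := by
  induction J with
  | zero => rw [gr0] at h; omega
  | succ J ih =>
    rcases Nat.lt_or_ge p (gr η J) with h2 | h2
    · obtain ⟨j, hj, h3⟩ := ih h2
      exact ⟨j, by omega, h3⟩
    · exact ⟨J, by omega, h2, h⟩

/-- the cell is unique -/
lemma cell_unique {η : ℝ} (hη : 0 < η) {i j p : ℕ} (hi : gr η i ≤ p) (hi' : p < gr η (i + 1))
    (hj : gr η j ≤ p) (hj' : p < gr η (j + 1)) : i = j := by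
  rcases lt_trichotomy i j with h | h | h
  · have := grm hη (show i + 1 ≤ j from h); omega
  · exact h
  · have := grm hη (show j + 1 ≤ i from h); omega

/-- the sum over the cells -/
lemma sum_cells (cc : ℕ → ℝ) (y z w J : ℕ) (η : ℝ) (hw : 2 ≤ w) (hη : 0 < η)
    (hJ : z ≤ gr η J) (n c : ℕ) (hc : CC y z c ∧ w ≤ c ∧ c / c.minFac < w) :
    ∃ j < J, gr η j ≤ c.minFac ∧ c.minFac < gr η (j + 1) ∧
      ∑ i ∈ range J, AJ y z w η i c * bb cc (gr η i) (n / c) =
        ((μ c : ℤ) : ℝ) * bb cc (gr η j) (n / c) := by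
  have hc1 : c ≠ 1 := by omega
  have hp : c.minFac.Prime := Nat.minFac_prime hc1
  have hz := (hc.1.2 c.minFac hp (Nat.minFac_dvd c)).2
  obtain ⟨j, hj, h1, h2⟩ := cell (η := η) J c.minFac hp.one_lt.le (by omega)
  refine ⟨j, hj, h1, h2, ?_⟩
  rw [sum_eq_single_of_mem j (mem_range.2 hj)]
  · unfold AJ
    rw [if_pos ⟨hc.1, hc.2.1, hc.2.2, h1, h2⟩]
  · intro i _ hij
    unfold AJ
    rw [if_neg, zero_mul]
    rintro ⟨-, -, -, h3, h4⟩
    exact hij (cell_unique hη h3 h4 h1 h2)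

open Classical in
/-- the error as one sum -/
lemma e2_eq (cc : ℕ → ℝ) (y z w J : ℕ) (η : ℝ) (n : ℕ) :
    e2 cc y z w J η n =
      ∑ c ∈ n.divisors.filter (fun c => CC y z c ∧ w ≤ c ∧ c / c.minFac < w),
        (((μ c : ℤ) : ℝ) * bb cc c.minFac (n / c) -
          ∑ j ∈ range J, AJ y z w η j c * bb cc (gr η j) (n / c)) := by
  unfold e2
  rw [sum_sub_distrib]
  congr 1
  have h1 : ∀ j ∈ range J, ∑ p ∈ n.divisorsAntidiagonal, AJ y z w η j p.1 * bb cc (gr η j) p.2 =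
      ∑ c ∈ n.divisors.filter (fun c => CC y z c ∧ w ≤ c ∧ c / c.minFac < w),
        AJ y z w η j c * bb cc (gr η j) (n / c) := by
    intro j _
    rw [Nat.sum_divisorsAntidiagonal (f := fun c l => AJ y z w η j c * bb cc (gr η j) l)]
    symm
    refine sum_subset (filter_subset _ _) fun c hc hc2 => ?_
    have : AJ y z w η j c = 0 := by
      unfold AJ
      rw [if_neg]
      rintro ⟨h1, h2, h3, -, -⟩
      exact hc2 (mem_filter.2 ⟨hc, h1, h2, h3⟩)
    rw [this, zero_mul]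
  rw [sum_congr rfl h1, sum_comm]

lemma bb_diff (cc : ℕ → ℝ) (g p m : ℕ) :
    bb cc p m - bb cc g m = ∑ d ∈ m.divisors, cc d * (rho p (m / d) - rho g (m / d)) := by
  unfold bb
  rw [← sum_sub_distrib]
  exact sum_congr rfl fun d _ => by ring

lemma mu_abs (c : ℕ) : |((μ c : ℤ) : ℝ)| ≤ 1 := by
  have := ArithmeticFunction.abs_moebius_le_one (n := c)
  rw [← Int.cast_abs]
  exact_mod_cast this

end CtlAA2

theorem e2_abs (cc : ℕ → ℝ) (D0 y z w J : ℕ) (η : ℝ) (h : Wt z D0 cc) (hw : 2 ≤ w) (hη : 0 < η)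
    (hJ : z ≤ gr η J) (n : ℕ) (hn : 1 ≤ n) :
    |e2 cc y z w J η n| ≤ (n.divisors.card : ℝ) ^ 2 := by
  classical
  rw [CtlAA2.e2_eq]
  refine (abs_sum_le_sum_abs _ _).trans ?_
  have h1 : ∀ c ∈ n.divisors.filter (fun c => CC y z c ∧ w ≤ c ∧ c / c.minFac < w),
      |((μ c : ℤ) : ℝ) * bb cc c.minFac (n / c) -
          ∑ j ∈ range J, AJ y z w η j c * bb cc (gr η j) (n / c)| ≤ (n.divisors.card : ℝ) := by
    intro c hc
    rw [mem_filter] at hc
    obtain ⟨j, hj, hj1, hj2, hj3⟩ := CtlAA2.sum_cells cc y z w J η hw hη hJ n c hc.2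
    rw [hj3, ← mul_sub, abs_mul, CtlAA2.bb_diff]
    have h2 : |∑ d ∈ (n / c).divisors, cc d * (rho c.minFac (n / c / d) -
        rho (gr η j) (n / c / d))| ≤ ((n / c).divisors.card : ℝ) := by
      refine (abs_sum_le_sum_abs _ _).trans ?_
      calc ∑ d ∈ (n / c).divisors, |cc d * (rho c.minFac (n / c / d) - rho (gr η j) (n / c / d))|
          ≤ ∑ _d ∈ (n / c).divisors, (1 : ℝ) := by
            refine sum_le_sum fun d _ => ?_
            rw [abs_mul]
            refine mul_le_one₀ (h.bd d) (abs_nonneg _) ?_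
            have a1 := rho_nonneg c.minFac (n / c / d)
            have a2 := rho_le_one c.minFac (n / c / d)
            have a3 := rho_nonneg (gr η j) (n / c / d)
            have a4 := rho_le_one (gr η j) (n / c / d)
            rw [abs_le]
            constructor <;> linarith
        _ = ((n / c).divisors.card : ℝ) := by rw [sum_const, nsmul_eq_mul, mul_one]
    have h3 : ((n / c).divisors.card : ℝ) ≤ (n.divisors.card : ℝ) := by
      have : (n / c).divisors ⊆ n.divisors :=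
        Nat.divisors_subset_of_dvd (by omega) (Nat.div_dvd_of_dvd (Nat.dvd_of_mem_divisors hc.1))
      exact_mod_cast card_le_card this
    calc |((μ c : ℤ) : ℝ)| * |∑ d ∈ (n / c).divisors, cc d * (rho c.minFac (n / c / d) -
        rho (gr η j) (n / c / d))| ≤ 1 * ((n / c).divisors.card : ℝ) :=
          mul_le_mul (CtlAA2.mu_abs c) h2 (abs_nonneg _) zero_le_one
      _ ≤ _ := by rw [one_mul]; exact h3
  refine (sum_le_sum h1).trans ?_
  rw [sum_const, nsmul_eq_mul, sq]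
  refine mul_le_mul_of_nonneg_right ?_ (Nat.cast_nonneg _)
  exact_mod_cast card_le_card (filter_subset _ _)

set_option linter.unusedVariables false in
theorem e2_bad (cc : ℕ → ℝ) (D0 y z w J : ℕ) (η : ℝ) (h : Wt z D0 cc) (hw : 2 ≤ w) (hη : 0 < η)
    (hJ : z ≤ gr η J) (n : ℕ) (hn : 1 ≤ n) (h0 : e2 cc y z w J η n ≠ 0) :
    ∃ j p p' : ℕ, p.Prime ∧ p'.Prime ∧ p ≠ p' ∧ p * p' ∣ n ∧ y ≤ p ∧
      gr η j ≤ p ∧ p < gr η (j + 1) ∧ gr η j ≤ p' ∧ p' < gr η (j + 1) := by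
  classical
  rw [CtlAA2.e2_eq] at h0
  obtain ⟨c, hc, hc0⟩ := exists_ne_zero_of_sum_ne_zero h0
  rw [mem_filter] at hc
  obtain ⟨j, hj, hj1, hj2, hj3⟩ := CtlAA2.sum_cells cc y z w J η hw hη hJ n c hc.2
  rw [hj3, ← mul_sub, CtlAA2.bb_diff] at hc0
  obtain ⟨d, hd, hd0⟩ := exists_ne_zero_of_sum_ne_zero (right_ne_zero_of_mul hc0)
  have hr := right_ne_zero_of_mul hd0
  have hcn : c ∣ n := Nat.dvd_of_mem_divisors hc.1
  have hc1 : c ≠ 1 := by omega
  have hp : c.minFac.Prime := Nat.minFac_prime hc1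
  have hdn : d ∣ n / c := Nat.dvd_of_mem_divisors hd
  -- a prime of `n / c / d` below `c.minFac`
  have h1 : ¬ ∀ q : ℕ, q.Prime → q ∣ n / c / d → c.minFac ≤ q := by
    intro h1
    apply hr
    rw [rho_eq_one h1, rho_eq_one (fun q hq hqm => hj1.trans (h1 q hq hqm)), sub_self]
  push Not at h1
  obtain ⟨q, hq, hqm, hqp⟩ := h1
  have h2 : gr η j ≤ q := by
    by_contra h2
    push Not at h2
    apply hr
    rw [rho_eq_zero hq hqm hqp, rho_eq_zero hq hqm h2, sub_self]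
  refine ⟨j, c.minFac, q, hp, hq, by omega, ?_, (hc.2.1.2 _ hp (Nat.minFac_dvd c)).1, hj1, hj2, h2,
    by omega⟩
  have h3 : q ∣ n / c := hqm.trans (Nat.div_dvd_of_dvd hdn)
  have h4 := mul_dvd_mul (Nat.minFac_dvd c) h3
  rwa [Nat.mul_div_cancel' hcn] at h4

theorem AJ_abs (y z w : ℕ) (η : ℝ) (j c : ℕ) : |AJ y z w η j c| ≤ 1 := by
  unfold AJ
  split_ifs
  · exact CtlAA2.mu_abs c
  · simp

theorem AJ_supp (y z w : ℕ) (hw : 2 ≤ w) (η : ℝ) (j c : ℕ) (h : AJ y z w η j c ≠ 0) :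
    w ≤ c ∧ c ≤ w * z := by
  unfold AJ at h
  have h1 : CC y z c ∧ w ≤ c ∧ c / c.minFac < w ∧ gr η j ≤ c.minFac ∧ c.minFac < gr η (j + 1) := by
    by_contra h2
    exact h (if_neg h2)
  obtain ⟨h2, h3, h4, -, -⟩ := h1
  have hc1 : c ≠ 1 := by omega
  have hp : c.minFac.Prime := Nat.minFac_prime hc1
  have hz := (h2.2 c.minFac hp (Nat.minFac_dvd c)).2
  refine ⟨h3, ?_⟩
  calc c = c / c.minFac * c.minFac := (Nat.div_mul_cancel (Nat.minFac_dvd c)).symm
    _ ≤ w * z := Nat.mul_le_mul h4.le hz.le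

end Pool.Agent.HS
end

section
/-! # Module CtlAA: the minorant is a controlled function

`bb_id` with `y = y0 x`, `z = zx θ x`, `w = wk κ x`. First sum: `bb cc y m = ∑_{d ∣ m} cc(d) ∑_{e ∣ m/d, e squarefree, primes < y} μ(e)`
(Moebius); keep `e ≤ w`: `β(c d e) = μ(c) cc(d) μ(e)`: unique representation (`e` = part with primes `< y`, `c` = part with primes in `[y,z)`,
`d` = part with primes `≥ z`): `|β| ≤ 1`, `c d e ≤ w² D0`. Error: `≤ τ(n)³` on the `n` having such a divisor `e > w` (`rankin`).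
Second sum: cell of `minFac c` (`gr η j ≤ minFac c < gr η (j+1)`, `j < JJ x B'`: `gr η (JJ) ≥ x`; the first cell may start below `y0`): replace `bb cc c.minFac` by
`bb cc (gr η j)`; error `≤ τ(n)³` on the `n` with two primes in one cell (`η y ≥ 1`; `two_cell`; for a non-squarefree `n`, `p² ∣ n` with `p ≥ y0`: few).
`aa` and `bb` differ on the `z`-rough `n` divisible by `p²`, `p ≥ z`: at most `2x/z`. Mean squares: Cauchy-Schwarz, `tau_sum` (HT/Coef),
`rankin`, `two_cell`: `x L^(c - B'/2)`, choose `B'`. (`B j l := bb cc (gr η j) l`, `|.| ≤ τ(l)` (`bb_abs`).) -/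

namespace Pool.Agent.HS

open Finset Pool.Agent.BV Pool.Agent.HL
open scoped ArithmeticFunction.Moebius

/-- the parameters for large `x` -/
theorem ctl_par (θ κ : ℝ) (hθ : 1 / 2 ≤ θ) (hθ1 : θ < 1) (hκ : 0 < κ) (B' B2 : ℕ) (C : ℝ) :
    ∃ x₁ : ℕ, ∀ x : ℕ, x₁ ≤ x → 3 ≤ x ∧ 1 ≤ Real.log x ∧ C ≤ Real.log x ∧ 3 ≤ y0 x ∧ y0 x ≤ zx θ x ∧
      2 ≤ wk κ x ∧ zx θ x ≤ x ∧ 4 * (Real.log x) ^ B' ≤ (y0 x : ℝ) ∧
      2 * (Real.log x) ^ B2 ≤ (zx θ x : ℝ) := by
  obtain ⟨x₁, h₁⟩ := Filter.eventually_atTop.1 (evt_log (max (max C 1) (1 / (1 - θ) ^ 2)))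
  obtain ⟨x₂, h₂⟩ := RankinAux.log_pow_exp 1 one_pos 4 B'
  obtain ⟨x₃, h₃⟩ := Filter.eventually_atTop.1 (evt_pow 2 B2 (1 - θ) (by linarith))
  obtain ⟨x₄, h₄⟩ := Filter.eventually_atTop.1 (evt_pow 2 0 κ hκ)
  refine ⟨max (max x₁ x₂) (max (max x₃ x₄) 3), fun x hx => ?_⟩
  simp only [max_le_iff] at hx
  obtain ⟨⟨hx1, hx2⟩, ⟨hx3, hx4⟩, hx5⟩ := hx
  have g1 := h₁ x hx1
  have g2 := h₂ x hx2
  have g3 := h₃ x hx3
  have g4 := h₄ x hx4
  simp only [max_le_iff] at g1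
  obtain ⟨⟨hC, hL1⟩, hθL⟩ := g1
  set L : ℝ := Real.log x with hL
  have hx0 : (0 : ℝ) < x := by
    have : 0 < x := by omega
    exact_mod_cast this
  have hx1' : (1 : ℝ) ≤ x := by
    have : 1 ≤ x := by omega
    exact_mod_cast this
  set u : ℝ := Real.sqrt L with hu
  have hu2 : u ^ 2 = L := Real.sq_sqrt (by linarith)
  have hu1 : 1 ≤ u := by
    rw [hu]
    exact Real.one_le_sqrt.2 hL1
  have hy0 : Real.exp u ≤ y0 x := Nat.le_ceil _
  refine ⟨hx5, hL1, hC, ?_, ?_, ?_, ?_, ?_, ?_⟩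
  · have h1 : (2 : ℝ) < y0 x := by
      refine lt_of_lt_of_le ?_ hy0
      have h2 : Real.exp 1 ≤ Real.exp u := Real.exp_le_exp.2 hu1
      have h3 := Real.exp_one_gt_d9
      linarith
    have h4 : 2 < y0 x := by exact_mod_cast h1
    omega
  · unfold y0 zx
    refine Nat.ceil_le_ceil ?_
    rw [Real.rpow_def_of_pos hx0, ← hL, ← hu]
    refine Real.exp_le_exp.2 ?_
    have h1 : 1 / (1 - θ) ≤ u := by
      rw [hu]
      refine Real.le_sqrt_of_sq_le ?_
      rw [div_pow, one_pow]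
      exact hθL
    rw [div_le_iff₀ (by linarith)] at h1
    rw [← hu2]
    nlinarith
  · rw [pow_zero, mul_one] at g4
    have h1 : ((2 : ℕ) : ℝ) ≤ wk κ x := by
      push_cast
      exact g4.trans (Nat.le_ceil _)
    exact_mod_cast h1
  · unfold zx
    refine Nat.ceil_le.2 ?_
    calc (x : ℝ) ^ (1 - θ) ≤ (x : ℝ) ^ (1 : ℝ) := Real.rpow_le_rpow_of_exponent_le hx1' (by linarith)
      _ = x := Real.rpow_one _
  · refine le_trans ?_ hy0
    rw [one_mul, Real.exp_neg, ← div_eq_mul_inv, div_le_one (Real.exp_pos _)] at g2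
    exact g2
  · exact g3.trans (Nat.le_ceil _)

/-- a prime in the same cell as a prime `≥ y` -/
theorem cell_half (η : ℝ) (hη0 : 0 < η) (hη1 : η ≤ 1) (y j p : ℕ) (hy : y ≤ p) (hp : p < gr η (j + 1)) :
    (y - 1) / 2 ≤ gr η j := by
  have h1 : gr η (j + 1) ≤ 2 * (gr η j + 1) := by
    unfold gr
    have h2 := Nat.lt_floor_add_one ((1 + η) ^ j)
    have h3 : (1 + η) ^ (j + 1) ≤ ((2 * (⌊(1 + η) ^ j⌋₊ + 1) : ℕ) : ℝ) := by
      push_cast
      rw [pow_succ]
      have h4 : 0 < (1 + η) ^ j := by positivity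
      nlinarith
    exact Nat.floor_le_of_le h3
  omega

open CtlA in
theorem aa_ctl (θ κ : ℝ) (hθ : 1 / 2 ≤ θ) (hθ1 : θ < 1) (hκ : 0 < κ) (hκ1 : κ ≤ 1 / 8) (B : ℕ) :
    ∃ B' : ℕ, ∃ x₁ : ℕ, ∀ x : ℕ, x₁ ≤ x → ∀ (D0 : ℕ) (cc : ℕ → ℝ), Wt (zx θ x) D0 cc →
    ∃ (Bf : ℕ → ℕ → ℝ) (β err : ℕ → ℝ),
      Ctl x (wk κ x ^ 2 * D0) (wk κ x) (wk κ x * zx θ x) (JJ x B')
        (AJ (y0 x) (zx θ x) (wk κ x) (1 / (Real.log x) ^ B')) Bf β err (aa cc (zx θ x)) ∧
      ∑ n ∈ Icc 1 x, (err n) ^ 2 ≤ (x : ℝ) / (Real.log x) ^ B := by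
  classical
  obtain ⟨B2, x₁, hms⟩ := mean_sq B
  obtain ⟨C2, hC2, htc⟩ := two_cell
  obtain ⟨x₂, hrk⟩ := rankin κ hκ B2
  obtain ⟨x₃, hpar⟩ := ctl_par θ κ hθ hθ1 hκ (B2 + 2) B2 C2
  refine ⟨B2 + 2, max x₁ (max x₂ x₃), fun x hx D0 cc hW => ?_⟩
  simp only [max_le_iff] at hx
  obtain ⟨hx3, hL1, hCL, hy3, hyz, hw2, hzx, hyL, hzL⟩ := hpar x hx.2.2
  have hms := hms x hx.1
  have hrk := hrk x hx.2.1
  have hJ : zx θ x ≤ gr (1 / (Real.log x) ^ (B2 + 2)) (JJ x (B2 + 2)) :=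
    hzx.trans (gr_JJ (B2 + 2) x hx3)
  set L : ℝ := Real.log x with hL
  set y : ℕ := y0 x with hy
  set z : ℕ := zx θ x with hz
  set w : ℕ := wk κ x with hw
  set η : ℝ := 1 / L ^ (B2 + 2) with hη
  set J : ℕ := JJ x (B2 + 2) with hJd
  have hL0 : 0 < L := by linarith
  have hη0 : 0 < η := by rw [hη]; positivity
  have hη1 : η ≤ 1 := by
    rw [hη, div_le_one (by positivity)]
    exact one_le_pow₀ hL1
  have hx0 : (0 : ℝ) < x := by
    have : 0 < x := by omega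
    exact_mod_cast this
  refine ⟨fun j l => bb cc (gr η j) l, fun m => be cc y z w m,
    fun n => aa cc z n - ∑ m ∈ n.divisors, be cc y z w m -
      ∑ j ∈ range J, ∑ p ∈ n.divisorsAntidiagonal, AJ y z w η j p.1 * bb cc (gr η j) p.2, ?_, ?_⟩
  · refine ⟨be_abs hW hyz, fun m hm => be_supp hW m hm, fun j c => AJ_abs y z w η j c,
      fun j c h => AJ_supp y z w hw2 η j c h, fun j l => ?_, fun n _ _ => by ring⟩
    refine (bb_abs z D0 cc hW (gr η j) l).trans ?_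
    have h1 : l.divisors.card ≤ l.divisors.card ^ 2 := Nat.le_self_pow two_ne_zero _
    exact_mod_cast h1
  · -- the three errors
    have hsplit : ∀ n ∈ Icc 1 x, aa cc z n - ∑ m ∈ n.divisors, be cc y z w m -
        ∑ j ∈ range J, ∑ p ∈ n.divisorsAntidiagonal, AJ y z w η j p.1 * bb cc (gr η j) p.2 =
        e1 cc y z w n + e2 cc y z w J η n + e3 cc z n := by
      intro n hn
      have h1 := bb_id cc y z w n (by omega) hyz hw2 (mem_Icc.1 hn).1
      unfold e1 e2 e3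
      rw [h1]
      ring
    have hone : ∀ n ∈ Icc 1 x, (1 : ℝ) ≤ (n.divisors.card : ℝ) := by
      intro n hn
      have h1 : 0 < n.divisors.card := by
        rw [card_pos]
        exact ⟨1, Nat.one_mem_divisors.2 (by have := (mem_Icc.1 hn).1; omega)⟩
      exact_mod_cast h1
    -- first error
    have hE1 : ∑ n ∈ Icc 1 x, (e1 cc y z w n) ^ 2 ≤ (x : ℝ) / (9 * L ^ B) := by
      refine hms ((Icc 1 x).filter (fun n => ∃ d : ℕ, d ∣ n ∧ Squarefree d ∧
        (∀ p : ℕ, p.Prime → p ∣ d → p < y0 x) ∧ (x : ℝ) ^ κ ≤ d)) _ (filter_subset _ _) hrk ?_ ?_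
      · intro n hn
        exact e1_abs hW n (by have := (mem_Icc.1 hn).1; omega)
      · intro n hn h0
        obtain ⟨d, h1, h2, h3, h4⟩ := e1_bad cc y z w n (by have := (mem_Icc.1 hn).1; omega) h0
        refine mem_filter.2 ⟨hn, d, h1, h2, h3, ?_⟩
        have h5 : (x : ℝ) ^ κ ≤ w := Nat.le_ceil _
        have h6 : (w : ℝ) ≤ d := by exact_mod_cast h4
        exact h5.trans h6
    -- second error
    have hE2 : ∑ n ∈ Icc 1 x, (e2 cc y z w J η n) ^ 2 ≤ (x : ℝ) / (9 * L ^ B) := by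
      refine hms ((Icc 1 x).filter (fun n => ∃ j p p' : ℕ, p.Prime ∧ p'.Prime ∧ p ≠ p' ∧
        p * p' ∣ n ∧ (y - 1) / 2 ≤ p ∧ (y - 1) / 2 ≤ p' ∧
        gr η j ≤ p ∧ p < gr η (j + 1) ∧ gr η j ≤ p' ∧ p' < gr η (j + 1))) _ (filter_subset _ _) ?_ ?_ ?_
      · refine (htc x ((y - 1) / 2) η hx3 hη0 hη1 ?_).trans ?_
        · have h1 : (y : ℝ) - 2 ≤ 2 * (((y - 1) / 2 : ℕ) : ℝ) := by
            have h2 : y ≤ 2 * ((y - 1) / 2) + 2 := by omega
            have h3 : (y : ℝ) ≤ ((2 * ((y - 1) / 2) + 2 : ℕ) : ℝ) := by exact_mod_cast h2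
            push_cast at h3
            linarith
          have h4 : 1 ≤ L ^ (B2 + 2) := one_le_pow₀ hL1
          rw [hη, one_div_mul_eq_div, le_div_iff₀ (by positivity)]
          linarith
        · rw [hη, le_div_iff₀ (by positivity)]
          have e : C2 * x * L * (1 / L ^ (B2 + 2)) * L ^ B2 = (C2 / L) * x := by
            rw [pow_add L B2 2]
            field_simp
          rw [e]
          have h1 : C2 / L ≤ 1 := (div_le_one hL0).2 hCL
          calc (C2 / L) * x ≤ 1 * x := mul_le_mul_of_nonneg_right h1 hx0.le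
            _ = x := one_mul _
      · intro n hn
        refine (e2_abs cc D0 y z w J η hW hw2 hη0 hJ n (mem_Icc.1 hn).1).trans ?_
        exact pow_le_pow_right₀ (hone n hn) (by norm_num)
      · intro n hn h0
        obtain ⟨j, p, p', hp, hp', hne, hdv, hyp, h1, h2, h3, h4⟩ :=
          e2_bad cc D0 y z w J η hW hw2 hη0 hJ n (mem_Icc.1 hn).1 h0
        have h5 := cell_half η hη0 hη1 y j p hyp h2
        exact mem_filter.2 ⟨hn, j, p, p', hp, hp', hne, hdv, h5.trans h1, h5.trans h3, h1, h2, h3, h4⟩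
    -- third error
    have hE3 : ∑ n ∈ Icc 1 x, (e3 cc z n) ^ 2 ≤ (x : ℝ) / (9 * L ^ B) := by
      refine hms ((Icc 1 x).filter (fun n => ∃ m : ℕ, z ≤ m ∧ m * m ∣ n)) _ (filter_subset _ _) ?_ ?_ ?_
      · refine (sq_count x z (by omega)).trans ?_
        have hz0 : (0 : ℝ) < z := by
          have : 0 < z := by omega
          exact_mod_cast this
        rw [div_le_div_iff₀ hz0 (by positivity)]
        nlinarith
      · intro n hn
        refine (e3_abs hW n).trans ?_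
        exact le_self_pow₀ (hone n hn) (by norm_num)
      · intro n hn h0
        obtain ⟨m, h1, h2⟩ := e3_bad hW n (by have := (mem_Icc.1 hn).1; omega) h0
        exact mem_filter.2 ⟨hn, m, h1, h2⟩
    calc ∑ n ∈ Icc 1 x, (aa cc z n - ∑ m ∈ n.divisors, be cc y z w m -
          ∑ j ∈ range J, ∑ p ∈ n.divisorsAntidiagonal, AJ y z w η j p.1 * bb cc (gr η j) p.2) ^ 2
        ≤ ∑ n ∈ Icc 1 x, 3 * ((e1 cc y z w n) ^ 2 + (e2 cc y z w J η n) ^ 2 + (e3 cc z n) ^ 2) := by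
          refine sum_le_sum fun n hn => ?_
          rw [hsplit n hn]
          nlinarith [sq_nonneg (e1 cc y z w n - e2 cc y z w J η n),
            sq_nonneg (e1 cc y z w n - e3 cc z n), sq_nonneg (e2 cc y z w J η n - e3 cc z n)]
      _ = 3 * (∑ n ∈ Icc 1 x, (e1 cc y z w n) ^ 2 + ∑ n ∈ Icc 1 x, (e2 cc y z w J η n) ^ 2 +
          ∑ n ∈ Icc 1 x, (e3 cc z n) ^ 2) := by
          rw [← mul_sum, sum_add_distrib, sum_add_distrib]
      _ ≤ 3 * ((x : ℝ) / (9 * L ^ B) + (x : ℝ) / (9 * L ^ B) + (x : ℝ) / (9 * L ^ B)) := by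
          gcongr
      _ = (x : ℝ) / L ^ B := by
          field_simp
          ring

end Pool.Agent.HS
end

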