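import Pool.Agent.Work.BV.Reduce
import Pool.Agent.Work.BV.SW
import Pool.Agent.Work.GBM.C01
import Pool.Agent.Work.GBM.C08
import Pool.Agent.Work.GBM.C12

section
/-! # Module VarB: the sum over the non-principal characters mod `q s` for good `q`

Split by the conductor: small conductors by Siegel-Walfisz, large conductors are not bad, so `mass`. -/

namespace Pool.Agent.HL

open Finset Pool.Agent.BV Filter
open scoped ArithmeticFunction.vonMangoldt

/-- passing to the primitive character, for sums up to `u ≤ x` -/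
theorem psiC_prim' {k : ℕ} [NeZero k] (χ : DirichletCharacter ℂ k) (x u : ℕ) (hu : u ≤ x)
    (hk : k ≤ x) (hx : 3 ≤ x) :
    ‖psiC χ u - psiC χ.primitiveCharacter u‖ ≤ 2 * (Real.log x) ^ 2 := by
  unfold psiC
  rw [← sum_sub_distrib]
  have hc : ∀ n : ℕ, n.Coprime k → χ (n : ZMod k) =
      χ.primitiveCharacter (n : ZMod χ.conductor) := by
    intro n hn
    have h1 : IsCoprime (n : ℤ) (k : ℤ) := Nat.isCoprime_iff_coprime.2 hn
    have h2 := DirichletCharacter.primitiveCharacter_apply_of_isCoprime χ h1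
    simp only [Int.cast_natCast] at h2
    exact h2.symm
  have h1 : ∑ n ∈ Icc 1 u, (((Λ n : ℝ) : ℂ) * χ (n : ZMod k) -
      ((Λ n : ℝ) : ℂ) * χ.primitiveCharacter (n : ZMod χ.conductor)) =
      ∑ n ∈ (Icc 1 u).filter (fun n => ¬ n.Coprime k),
        (((Λ n : ℝ) : ℂ) * χ (n : ZMod k) -
          ((Λ n : ℝ) : ℂ) * χ.primitiveCharacter (n : ZMod χ.conductor)) := by
    symm
    apply sum_subset (filter_subset _ _)
    intro n hn hn'
    have h2 : n.Coprime k := by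
      by_contra h
      exact hn' (mem_filter.2 ⟨hn, h⟩)
    rw [hc n h2, sub_self]
  rw [h1]
  have hf : ∀ n : ℕ, ¬ n.Coprime k → χ (n : ZMod k) = 0 := by
    intro n hn
    apply MulChar.map_nonunit
    rw [ZMod.isUnit_iff_coprime]
    exact hn
  refine (norm_sum_le _ _).trans ?_
  refine le_trans ?_ (coprime_defect k x (Nat.pos_of_ne_zero (NeZero.ne k)) hk hx)
  calc ∑ n ∈ (Icc 1 u).filter (fun n => ¬ n.Coprime k), ‖((Λ n : ℝ) : ℂ) * χ (n : ZMod k) -
          ((Λ n : ℝ) : ℂ) * χ.primitiveCharacter (n : ZMod χ.conductor)‖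
      ≤ ∑ n ∈ (Icc 1 u).filter (fun n => ¬ n.Coprime k), (Λ n : ℝ) := by
        refine sum_le_sum fun n hn => ?_
        rw [hf n (mem_filter.1 hn).2, mul_zero, zero_sub, norm_neg, norm_mul, Complex.norm_real,
          Real.norm_of_nonneg ArithmeticFunction.vonMangoldt_nonneg]
        exact mul_le_of_le_one_right ArithmeticFunction.vonMangoldt_nonneg
          (DirichletCharacter.norm_le_one _ _)
    _ ≤ ∑ n ∈ (Icc 1 x).filter (fun n => ¬ n.Coprime k), (Λ n : ℝ) := by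
        refine sum_le_sum_of_subset_of_nonneg ?_ (fun _ _ _ =>
          ArithmeticFunction.vonMangoldt_nonneg)
        exact filter_subset_filter _ (Icc_subset_Icc_right hu)

open Classical in
theorem prim_char_mem {k : ℕ} (χ : DirichletCharacter ℂ k) :
    χ.primitiveCharacter ∈ prim χ.conductor := by
  unfold prim
  rw [mem_filter]
  exact ⟨mem_univ _, DirichletCharacter.primitiveCharacter_isPrimitive χ⟩

open Classical in
/-- the number of characters mod `k` of conductor at most `R` -/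
theorem card_small_conductor (k : ℕ) [NeZero k] (R : ℝ) (hR : 0 ≤ R)
    (X : Finset (DirichletCharacter ℂ k)) (hX : ∀ χ ∈ X, (χ.conductor : ℝ) ≤ R) :
    (X.card : ℝ) ≤ R ^ 2 := by
  set Φ : DirichletCharacter ℂ k → (Σ r : ℕ, DirichletCharacter ℂ r) :=
    fun χ => ⟨χ.conductor, χ.primitiveCharacter⟩ with hΦ
  have hinj : Function.Injective Φ := by
    have hleft : ∀ χ : DirichletCharacter ℂ k,
        (fun p : (Σ r : ℕ, DirichletCharacter ℂ r) =>
          if h : p.1 ∣ k then DirichletCharacter.changeLevel h p.2 else 1) (Φ χ) = χ := by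
      intro χ
      simp only [hΦ, χ.conductor_dvd_level, dif_pos]
      exact DirichletCharacter.changeLevel_primitiveCharacter χ
    intro a b hab
    rw [← hleft a, ← hleft b, hab]
  have hle : X.card ≤ ((Icc 1 ⌊R⌋₊).sigma (fun r => prim r)).card := by
    rw [← card_image_of_injective X hinj]
    refine card_le_card fun p hp => ?_
    obtain ⟨χ, hχ, rfl⟩ := mem_image.1 hp
    rw [mem_sigma]
    refine ⟨mem_Icc.2 ⟨?_, Nat.le_floor (hX χ hχ)⟩, ?_⟩
    · exact Nat.pos_of_dvd_of_pos χ.conductor_dvd_level (Nat.pos_of_ne_zero (NeZero.ne k))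
    · unfold prim
      rw [mem_filter]
      exact ⟨mem_univ _, DirichletCharacter.primitiveCharacter_isPrimitive χ⟩
  have hpr : ∀ r ∈ Icc 1 ⌊R⌋₊, (prim r).card ≤ ⌊R⌋₊ := by
    intro r hr
    obtain ⟨hr1, hr2⟩ := mem_Icc.1 hr
    have : NeZero r := ⟨by omega⟩
    calc (prim r).card ≤ (univ : Finset (DirichletCharacter ℂ r)).card := card_filter_le _ _
      _ = r.totient := by
        rw [card_univ, ← Nat.card_eq_fintype_card]
        exact DirichletCharacter.card_eq_totient_of_hasEnoughRootsOfUnity ℂ r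
      _ ≤ r := Nat.totient_le r
      _ ≤ ⌊R⌋₊ := hr2
  have h2 : ((Icc 1 ⌊R⌋₊).sigma (fun r => prim r)).card ≤ ⌊R⌋₊ * ⌊R⌋₊ := by
    rw [card_sigma]
    calc ∑ r ∈ Icc 1 ⌊R⌋₊, (prim r).card ≤ ∑ r ∈ Icc 1 ⌊R⌋₊, ⌊R⌋₊ := sum_le_sum hpr
      _ = ⌊R⌋₊ * ⌊R⌋₊ := by rw [sum_const, Nat.card_Icc, smul_eq_mul]; simp
  have h3 : (X.card : ℝ) ≤ (⌊R⌋₊ : ℝ) * ⌊R⌋₊ := by exact_mod_cast hle.trans h2
  have h4 : (⌊R⌋₊ : ℝ) ≤ R := Nat.floor_le hR
  calc (X.card : ℝ) ≤ (⌊R⌋₊ : ℝ) * ⌊R⌋₊ := h3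
    _ ≤ R * R := by gcongr
    _ = R ^ 2 := by ring

/-- the characters of small conductor -/
theorem var_small (A₁ B₆ : ℕ) : ∃ x₀ : ℕ, ∀ x : ℕ, x₀ ≤ x → ∀ (k : ℕ) [NeZero k], k ≤ x →
    ∀ u : ℕ, u ≤ x → (x : ℝ) / (Real.log x) ^ B₆ ≤ u →
    ∀ X : Finset (DirichletCharacter ℂ k), (∀ χ ∈ X, χ ≠ 1) →
    (∀ χ ∈ X, (χ.conductor : ℝ) ≤ (Real.log x) ^ A₁) →
    ∑ χ ∈ X, ‖psiC χ u‖ ^ 2 ≤ (x : ℝ) ^ 2 / (Real.log x) ^ B₆ := by
  obtain ⟨C, hC, hSW⟩ := siegel_walfisz (A₁ + B₆ + 1) (A₁ + 1)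
  set A : ℕ := A₁ + B₆ + 1 with hA
  have hev : ∀ᶠ x : ℕ in atTop, ∀ (k : ℕ) [NeZero k], k ≤ x →
    ∀ u : ℕ, u ≤ x → (x : ℝ) / (Real.log x) ^ B₆ ≤ u →
    ∀ X : Finset (DirichletCharacter ℂ k), (∀ χ ∈ X, χ ≠ 1) →
    (∀ χ ∈ X, (χ.conductor : ℝ) ≤ (Real.log x) ^ A₁) →
    ∑ χ ∈ X, ‖psiC χ u‖ ^ 2 ≤ (x : ℝ) ^ 2 / (Real.log x) ^ B₆ := by
    filter_upwards [eventually_ge_atTop 16, evt_log 1, evt_log (2 * 2 ^ A₁),
      evt_log ((C * 2 ^ A + 1) ^ 2), evt_pow 1 B₆ (1 / 2) (by norm_num),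
      evt_pow 2 (A + 2) 1 (by norm_num)] with x hx hL1 hL2 hL3 hP1 hP2
    intro k _ hk u hu hxu X hX1 hX2
    set L : ℝ := Real.log x with hL
    have hx16 : (16 : ℝ) ≤ x := by exact_mod_cast hx
    have hx0 : (0 : ℝ) < x := by linarith
    have hL0 : 0 < L := by linarith
    rw [Real.rpow_one] at hP2
    rw [one_mul] at hP1
    -- `u ≥ √x`
    have hsq : (x : ℝ) ^ (1 / 2 : ℝ) * (x : ℝ) ^ (1 / 2 : ℝ) = x := by
      rw [← Real.rpow_add hx0]; norm_num
    have hs0 : 0 < (x : ℝ) ^ (1 / 2 : ℝ) := by positivity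
    have hu1 : (x : ℝ) ^ (1 / 2 : ℝ) ≤ u := by
      refine le_trans ?_ hxu
      rw [le_div_iff₀ (by positivity)]
      calc (x : ℝ) ^ (1 / 2 : ℝ) * L ^ B₆ ≤ (x : ℝ) ^ (1 / 2 : ℝ) * (x : ℝ) ^ (1 / 2 : ℝ) := by
            gcongr
        _ = x := hsq
    have hu4 : (4 : ℝ) ≤ (x : ℝ) ^ (1 / 2 : ℝ) := by
      have h16 : (16 : ℝ) ^ (1 / 2 : ℝ) = 4 := by
        rw [show (16 : ℝ) = 4 ^ (2 : ℝ) by norm_num, ← Real.rpow_mul (by norm_num)]
        norm_num
      rw [← h16]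
      exact Real.rpow_le_rpow (by norm_num) hx16 (by norm_num)
    have hu3 : 3 ≤ u := by
      have : (3 : ℝ) ≤ u := by linarith
      exact_mod_cast this
    have hu0 : (0 : ℝ) < u := by linarith
    have hlu : L / 2 ≤ Real.log u := by
      have h1 : Real.log ((x : ℝ) ^ (1 / 2 : ℝ)) = L / 2 := by
        rw [Real.log_rpow hx0]; ring
      rw [← h1]
      exact Real.log_le_log hs0 hu1
    have hlu1 : 2 ^ A₁ ≤ Real.log u := by linarith
    have hlu0 : 0 < Real.log u := by linarith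
    have hbound : ∀ χ ∈ X, ‖psiC χ u‖ ≤ (C * 2 ^ A + 1) * x / L ^ A := by
      intro χ hχ
      have h1 := psiC_prim' χ x u hu hk (by omega)
      have hr1 : 1 < χ.conductor := by
        have h2 : χ.conductor ≠ 1 := by
          intro h
          exact hX1 χ hχ ((DirichletCharacter.eq_one_iff_conductor_eq_one (χ := χ)).2 h)
        have h3 : 0 < χ.conductor :=
          Nat.pos_of_dvd_of_pos χ.conductor_dvd_level (Nat.pos_of_ne_zero (NeZero.ne k))
        omega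
      have hr2 : (χ.conductor : ℝ) ≤ (Real.log u) ^ (A₁ + 1) := by
        calc (χ.conductor : ℝ) ≤ L ^ A₁ := hX2 χ hχ
          _ ≤ (2 * Real.log u) ^ A₁ := by gcongr; linarith
          _ = 2 ^ A₁ * (Real.log u) ^ A₁ := by rw [mul_pow]
          _ ≤ Real.log u * (Real.log u) ^ A₁ := by gcongr
          _ = (Real.log u) ^ (A₁ + 1) := by ring
      have hpr : χ.primitiveCharacter ∈ prim χ.conductor := prim_char_mem χ
      have h2 := hSW u hu3 χ.conductor hr1 hr2 _ hpr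
      have h3 : C * u / (Real.log u) ^ A ≤ C * 2 ^ A * x / L ^ A := by
        have h4 : (L / 2) ^ A ≤ (Real.log u) ^ A := by gcongr
        have h5 : (u : ℝ) ≤ x := by exact_mod_cast hu
        calc C * u / (Real.log u) ^ A ≤ C * x / (L / 2) ^ A := by gcongr
          _ = C * 2 ^ A * x / L ^ A := by
            rw [div_pow]
            field_simp
      have h6 : 2 * L ^ 2 ≤ x / L ^ A := by
        rw [le_div_iff₀ (by positivity)]
        calc 2 * L ^ 2 * L ^ A = 2 * L ^ (A + 2) := by ring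
          _ ≤ x := hP2
      calc ‖psiC χ u‖ = ‖(psiC χ u - psiC χ.primitiveCharacter u) +
            psiC χ.primitiveCharacter u‖ := by congr 1; ring
        _ ≤ ‖psiC χ u - psiC χ.primitiveCharacter u‖ + ‖psiC χ.primitiveCharacter u‖ :=
            norm_add_le _ _
        _ ≤ 2 * L ^ 2 + C * u / (Real.log u) ^ A := add_le_add h1 h2
        _ ≤ x / L ^ A + C * 2 ^ A * x / L ^ A := add_le_add h6 h3
        _ = (C * 2 ^ A + 1) * x / L ^ A := by ring
    have hcard := card_small_conductor k (L ^ A₁) (by positivity) X hX2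
    calc ∑ χ ∈ X, ‖psiC χ u‖ ^ 2 ≤ ∑ χ ∈ X, ((C * 2 ^ A + 1) * x / L ^ A) ^ 2 :=
          sum_le_sum fun χ hχ => by
            have := hbound χ hχ
            gcongr
      _ = X.card * ((C * 2 ^ A + 1) * x / L ^ A) ^ 2 := by rw [sum_const, nsmul_eq_mul]
      _ ≤ (L ^ A₁) ^ 2 * ((C * 2 ^ A + 1) * x / L ^ A) ^ 2 := by gcongr
      _ = (C * 2 ^ A + 1) ^ 2 * (x : ℝ) ^ 2 * ((L ^ A₁) ^ 2 / (L ^ A) ^ 2) := by
          rw [div_pow, mul_pow]
          ring
      _ = (C * 2 ^ A + 1) ^ 2 * (x : ℝ) ^ 2 * (1 / L ^ (2 * B₆ + 2)) := by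
          congr 1
          have : (L ^ A) ^ 2 = (L ^ A₁) ^ 2 * L ^ (2 * B₆ + 2) := by
            rw [hA]; ring
          rw [this]
          field_simp
      _ ≤ L * (x : ℝ) ^ 2 * (1 / L ^ (2 * B₆ + 2)) := by gcongr
      _ = (x : ℝ) ^ 2 / L ^ (2 * B₆ + 1) := by
          rw [show 2 * B₆ + 2 = (2 * B₆ + 1) + 1 by ring, pow_succ L (2 * B₆ + 1)]
          field_simp
      _ ≤ (x : ℝ) ^ 2 / L ^ B₆ := by
          gcongr
          omega
  obtain ⟨x₀, hx₀⟩ := eventually_atTop.1 hev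
  exact ⟨x₀, hx₀⟩

end Pool.Agent.HL
end

section
/-! # Module SwFA: from the primitive characters to all characters mod `q s` (part of SwF) -/

namespace Pool.Agent.HS

open Finset Pool.Agent.BV Pool.Agent.HL Filter

/-- the number of prime factors -/
theorem card_primeFactors_le (k : ℕ) (hk : k ≠ 0) :
    (k.primeFactors.card : ℝ) ≤ 2 * Real.log k := by
  have h1 : 2 ^ k.primeFactors.card ≤ k := by
    calc 2 ^ k.primeFactors.card ≤ ∏ p ∈ k.primeFactors, p := by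
          apply Finset.pow_card_le_prod
          intro p hp
          exact (Nat.prime_of_mem_primeFactors hp).two_le
      _ ≤ k := Nat.le_of_dvd (Nat.pos_of_ne_zero hk) (Nat.prod_primeFactors_dvd k)
  have h2 : (2 : ℝ) ^ k.primeFactors.card ≤ k := by exact_mod_cast h1
  have h3 : Real.log ((2 : ℝ) ^ k.primeFactors.card) ≤ Real.log k :=
    Real.log_le_log (by positivity) h2
  rw [Real.log_pow] at h3
  have h4 := Real.log_two_gt_d9
  have h5 : (0 : ℝ) ≤ k.primeFactors.card := by positivity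
  nlinarith

/-- the number of integers up to `u` with a prime factor `≥ y` in common with `k` -/
theorem card_common (k y u : ℕ) (hk : k ≠ 0) (hy : 1 ≤ y) :
    (((Icc 1 u).filter (fun c => ∃ p ∈ k.primeFactors, y ≤ p ∧ p ∣ c)).card : ℝ) ≤
      2 * Real.log k * (u / y) := by
  have h1 : (Icc 1 u).filter (fun c => ∃ p ∈ k.primeFactors, y ≤ p ∧ p ∣ c) ⊆
      (k.primeFactors.filter (fun p => y ≤ p)).biUnion
        (fun p => (Icc 1 u).filter (fun c => p ∣ c)) := by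
    intro c hc
    obtain ⟨hc1, p, hp, hyp, hpc⟩ := mem_filter.1 hc
    rw [mem_biUnion]
    exact ⟨p, mem_filter.2 ⟨hp, hyp⟩, mem_filter.2 ⟨hc1, hpc⟩⟩
  have hy0 : (0 : ℝ) < y := by exact_mod_cast hy
  calc (((Icc 1 u).filter (fun c => ∃ p ∈ k.primeFactors, y ≤ p ∧ p ∣ c)).card : ℝ)
      ≤ (((k.primeFactors.filter (fun p => y ≤ p)).biUnion
        (fun p => (Icc 1 u).filter (fun c => p ∣ c))).card : ℝ) := by
        exact_mod_cast card_le_card h1
    _ ≤ ∑ p ∈ k.primeFactors.filter (fun p => y ≤ p),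
        (((Icc 1 u).filter (fun c => p ∣ c)).card : ℝ) := by
        exact_mod_cast card_biUnion_le
    _ ≤ ∑ p ∈ k.primeFactors.filter (fun p => y ≤ p), (u / y : ℝ) := by
        refine sum_le_sum fun p hp => ?_
        obtain ⟨hp1, hp2⟩ := mem_filter.1 hp
        have h2 : ((Icc 1 u).filter (fun c => p ∣ c)).card = u / p := by
          have := Nat.Ioc_filter_dvd_card_eq_div u p
          rw [← this]
          congr 1
        rw [h2]
        calc ((u / p : ℕ) : ℝ) ≤ (u : ℝ) / p := Nat.cast_div_le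
          _ ≤ (u : ℝ) / y := by
            have : (y : ℝ) ≤ p := by exact_mod_cast hp2
            gcongr
    _ = ((k.primeFactors.filter (fun p => y ≤ p)).card : ℝ) * (u / y) := by
        rw [sum_const, nsmul_eq_mul]
    _ ≤ (k.primeFactors.card : ℝ) * (u / y) := by
        have : ((k.primeFactors.filter (fun p => y ≤ p)).card : ℝ) ≤ k.primeFactors.card := by
          exact_mod_cast card_filter_le _ _
        gcongr
    _ ≤ 2 * Real.log k * (u / y) := by
        have := card_primeFactors_le k hk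
        gcongr

/-- passing to the primitive character, for coefficients supported on integers without small prime
factors -/
theorem sum_prim' {k : ℕ} [NeZero k] (χ : DirichletCharacter ℂ k) (A : ℕ → ℝ) (y u : ℕ)
    (hy : 1 ≤ y) (hA : ∀ c, |A c| ≤ 1) (hAy : ∀ c, A c ≠ 0 → ∀ p : ℕ, p.Prime → p ∣ c → y ≤ p) :
    ‖∑ c ∈ Icc 1 u, ((A c : ℝ) : ℂ) * χ (c : ZMod k) -
      ∑ c ∈ Icc 1 u, ((A c : ℝ) : ℂ) * χ.primitiveCharacter (c : ZMod χ.conductor)‖ ≤
      2 * Real.log k * (u / y) := by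
  have hk : k ≠ 0 := NeZero.ne k
  rw [← sum_sub_distrib]
  have hc : ∀ n : ℕ, n.Coprime k → χ (n : ZMod k) =
      χ.primitiveCharacter (n : ZMod χ.conductor) := by
    intro n hn
    have h1 : IsCoprime (n : ℤ) (k : ℤ) := Nat.isCoprime_iff_coprime.2 hn
    have h2 := DirichletCharacter.primitiveCharacter_apply_of_isCoprime χ h1
    simp only [Int.cast_natCast] at h2
    exact h2.symm
  have hf : ∀ n : ℕ, ¬ n.Coprime k → χ (n : ZMod k) = 0 := by
    intro n hn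
    apply MulChar.map_nonunit
    rw [ZMod.isUnit_iff_coprime]
    exact hn
  have h1 : ∑ n ∈ Icc 1 u, (((A n : ℝ) : ℂ) * χ (n : ZMod k) -
      ((A n : ℝ) : ℂ) * χ.primitiveCharacter (n : ZMod χ.conductor)) =
      ∑ n ∈ (Icc 1 u).filter (fun c => ∃ p ∈ k.primeFactors, y ≤ p ∧ p ∣ c),
        (((A n : ℝ) : ℂ) * χ (n : ZMod k) -
          ((A n : ℝ) : ℂ) * χ.primitiveCharacter (n : ZMod χ.conductor)) := by
    symm
    apply sum_subset (filter_subset _ _)
    intro n hn hn'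
    by_cases hA0 : A n = 0
    · rw [hA0]; simp
    have h2 : n.Coprime k := by
      by_contra h
      apply hn'
      obtain ⟨p, hp, hpn, hpk⟩ := Nat.Prime.not_coprime_iff_dvd.1 h
      exact mem_filter.2 ⟨hn, p, Nat.mem_primeFactors.2 ⟨hp, hpk, hk⟩, hAy n hA0 p hp hpn, hpn⟩
    rw [hc n h2, sub_self]
  rw [h1]
  refine (norm_sum_le _ _).trans ?_
  refine le_trans ?_ (card_common k y u hk hy)
  rw [card_eq_sum_ones, Nat.cast_sum]
  refine sum_le_sum fun n hn => ?_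
  obtain ⟨hn1, p, hp, hyp, hpn⟩ := mem_filter.1 hn
  have hncop : ¬ n.Coprime k :=
    Nat.Prime.not_coprime_iff_dvd.2 ⟨p, Nat.prime_of_mem_primeFactors hp, hpn,
      Nat.dvd_of_mem_primeFactors hp⟩
  rw [hf n hncop, mul_zero, zero_sub, norm_neg, norm_mul, Complex.norm_real, Real.norm_eq_abs]
  calc |A n| * ‖χ.primitiveCharacter (n : ZMod χ.conductor)‖ ≤ 1 * 1 := by
        gcongr
        · exact hA n
        · exact DirichletCharacter.norm_le_one _ _
    _ = ((1 : ℕ) : ℝ) := by norm_num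

/-- `y0` beats the powers of the logarithm -/
theorem evt_y0 (c : ℝ) (k : ℕ) : ∀ᶠ x : ℕ in atTop, c * (Real.log x) ^ k ≤ y0 x := by
  have h1 : Tendsto (fun t : ℝ => Real.exp t / t ^ (2 * k)) atTop atTop :=
    Real.tendsto_exp_div_pow_atTop (2 * k)
  have h2 : Tendsto (fun x : ℕ => Real.sqrt (Real.log (x : ℝ))) atTop atTop :=
    Real.tendsto_sqrt_atTop.comp (Real.tendsto_log_atTop.comp tendsto_natCast_atTop_atTop)
  have h3 := h1.comp h2
  filter_upwards [h3.eventually_ge_atTop c, evt_log 1] with x hx hL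
  have hL0 : 0 < Real.log x := by linarith
  have hs : 0 < Real.sqrt (Real.log x) := Real.sqrt_pos.2 hL0
  simp only [Function.comp] at hx
  rw [le_div_iff₀ (by positivity)] at hx
  rw [pow_mul, Real.sq_sqrt hL0.le] at hx
  exact hx.trans (Nat.le_ceil _)

theorem AJ_abs_le (y z w : ℕ) (η : ℝ) (j c : ℕ) : |AJ y z w η j c| ≤ 1 := by
  unfold AJ
  split_ifs
  · exact_mod_cast ArithmeticFunction.abs_moebius_le_one
  · simp

theorem AJ_prime_ge (y z w : ℕ) (η : ℝ) (j c : ℕ) (h : AJ y z w η j c ≠ 0) (p : ℕ)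
    (hp : p.Prime) (hpc : p ∣ c) : y ≤ p := by
  unfold AJ at h
  split_ifs at h with h1
  · exact (h1.1.2 p hp hpc).1
  · exact absurd rfl h

/-- from the primitive characters of small conductor (Siegel-Walfisz) and the goodness of `q` to
all the non-principal characters mod `q s` -/
theorem goodF_all_of (θ κ : ℝ) (B' A₁ B₁ B9 : ℕ)
    (hsw : ∃ x₁ : ℕ, ∀ x : ℕ, x₁ ≤ x → ∀ r : ℕ, 1 < r → (r : ℝ) ≤ (Real.log x) ^ A₁ →
    ∀ χ ∈ prim r, ∀ j u : ℕ, wk κ x ≤ u → u ≤ wk κ x * zx θ x →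
    ‖∑ c ∈ Icc 1 u, ((AJ (y0 x) (zx θ x) (wk κ x) (1 / (Real.log x) ^ B') j c : ℝ) : ℂ) *
      χ (c : ZMod r)‖ ≤ (u : ℝ) / (Real.log x) ^ B9) :
    ∃ x₁ : ℕ, ∀ x : ℕ, x₁ ≤ x → ∀ q : ℕ, 1 ≤ q → (q : ℝ) * (Real.log x) ^ B₁ ≤ x →
    GoodF x (wk κ x) (wk κ x * zx θ x) (JJ x B') B9
      (AJ (y0 x) (zx θ x) (wk κ x) (1 / (Real.log x) ^ B')) ((Real.log x) ^ A₁)
      ((Real.log x) ^ B₁) q →
    ∀ s : ℕ, 1 ≤ s → (s : ℝ) ≤ (Real.log x) ^ B₁ → ∀ [NeZero (q * s)],
    ∀ χ : DirichletCharacter ℂ (q * s), χ ≠ 1 → ∀ j < JJ x B', ∀ u : ℕ, wk κ x ≤ u →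
    u ≤ wk κ x * zx θ x →
    ‖∑ c ∈ Icc 1 u, ((AJ (y0 x) (zx θ x) (wk κ x) (1 / (Real.log x) ^ B') j c : ℝ) : ℂ) *
      χ (c : ZMod (q * s))‖ ≤ u * (2 / (Real.log x) ^ B9) := by
  obtain ⟨x₀, hx₀⟩ := hsw
  have hev := ((evt_y0 2 (B9 + 1)).and ((evt_log 1).and (eventually_ge_atTop x₀)))
  obtain ⟨x₁, hx₁⟩ := eventually_atTop.1 hev
  refine ⟨x₁, fun x hx q hq hqx hgood s hs hsL hne χ hχ j hj u hu1 hu2 => ?_⟩
  obtain ⟨hy0, hL1, hxx⟩ := hx₁ x hx
  set L : ℝ := Real.log x with hL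
  have hL0 : 0 < L := by linarith
  set A := AJ (y0 x) (zx θ x) (wk κ x) (1 / L ^ B') with hA
  have hk : q * s ≠ 0 := NeZero.ne _
  have hkx : ((q * s : ℕ) : ℝ) ≤ x := by
    push_cast
    have hq0 : (0 : ℝ) ≤ q := by positivity
    calc (q : ℝ) * s ≤ q * L ^ B₁ := by gcongr
      _ ≤ x := hqx
  have hk0 : (0 : ℝ) < ((q * s : ℕ) : ℝ) := by
    exact_mod_cast Nat.pos_of_ne_zero hk
  have hlogk : Real.log ((q * s : ℕ) : ℝ) ≤ L := Real.log_le_log hk0 hkx
  have hy1 : 1 ≤ y0 x := by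
    unfold y0
    exact Nat.one_le_ceil_iff.2 (Real.exp_pos _)
  have hd := sum_prim' χ (A j) (y0 x) u hy1 (fun c => AJ_abs_le _ _ _ _ _ _)
    (fun c hc p hp hpc => AJ_prime_ge _ _ _ _ _ _ hc p hp hpc)
  have hyy : (0 : ℝ) < y0 x := by exact_mod_cast hy1
  have hd2 : 2 * Real.log ((q * s : ℕ) : ℝ) * ((u : ℝ) / y0 x) ≤ u / L ^ B9 := by
    have hu0 : (0 : ℝ) ≤ u := by positivity
    calc 2 * Real.log ((q * s : ℕ) : ℝ) * ((u : ℝ) / y0 x) ≤ 2 * L * (u / y0 x) := by gcongr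
      _ ≤ 2 * L * (u / (2 * L ^ (B9 + 1))) := by gcongr
      _ = u / L ^ B9 := by
        rw [pow_succ]
        field_simp
  -- the primitive character
  have hr0 : χ.conductor ≠ 0 := by
    intro h0
    have := χ.conductor_dvd_level
    rw [h0] at this
    exact hk (Nat.eq_zero_of_zero_dvd this)
  have hr1 : χ.conductor ≠ 1 := fun h1 =>
    hχ (DirichletCharacter.eq_one_iff_conductor_eq_one.2 h1)
  have hr : 1 < χ.conductor := by omega
  have hmem := prim_char_mem χ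
  have hp : ‖∑ c ∈ Icc 1 u, ((A j c : ℝ) : ℂ) *
      χ.primitiveCharacter (c : ZMod χ.conductor)‖ ≤ (u : ℝ) / L ^ B9 := by
    by_cases hsmall : (χ.conductor : ℝ) ≤ L ^ A₁
    · exact hx₀ x hxx χ.conductor hr hsmall _ hmem j u hu1 hu2
    · push Not at hsmall
      have h := hgood s hs hsL χ.conductor χ.conductor_dvd_level hsmall _ hmem
      unfold BadF at h
      push Not at h
      exact h j hj u hu1 hu2
  calc ‖∑ c ∈ Icc 1 u, ((A j c : ℝ) : ℂ) * χ (c : ZMod (q * s))‖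
      = ‖(∑ c ∈ Icc 1 u, ((A j c : ℝ) : ℂ) * χ (c : ZMod (q * s)) -
        ∑ c ∈ Icc 1 u, ((A j c : ℝ) : ℂ) * χ.primitiveCharacter (c : ZMod χ.conductor)) +
        ∑ c ∈ Icc 1 u, ((A j c : ℝ) : ℂ) * χ.primitiveCharacter (c : ZMod χ.conductor)‖ := by
        rw [sub_add_cancel]
    _ ≤ u / L ^ B9 + u / L ^ B9 := (norm_add_le _ _).trans (add_le_add (hd.trans hd2) hp)
    _ = u * (2 / L ^ B9) := by ring

end Pool.Agent.HS
end

section
/-! # Module SwFB: character sums over primes in intervals, and decomposition by the largest prime factor (part of SwF) -/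

namespace Pool.Agent.HS

open Finset Pool.Agent.BV Pool.Agent.HL Filter
open scoped ArithmeticFunction.vonMangoldt ArithmeticFunction.Moebius

noncomputable section

/-- the sum of `χ(p) log p` over the primes up to `n` -/
def thC {r : ℕ} (χ : DirichletCharacter ℂ r) (n : ℕ) : ℂ :=
  ∑ p ∈ (Icc 1 n).filter Nat.Prime, ((Real.log p : ℝ) : ℂ) * χ (p : ZMod r)

theorem thC_sub {r : ℕ} (χ : DirichletCharacter ℂ r) (n N : ℕ) (hn : n ≤ N) (hN : 3 ≤ N) :
    ‖psiC χ n - thC χ n‖ ≤ 2 * Real.sqrt N * Real.log N := by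
  refine le_trans ?_ (primes_sub_le hN hn)
  have e1 : psiC χ n - thC χ n =
      ∑ k ∈ Icc 1 n, (((if k.Prime then 0 else Λ k : ℝ) : ℝ) : ℂ) * χ (k : ZMod r) := by
    unfold psiC thC
    rw [sum_filter, ← sum_sub_distrib]
    refine sum_congr rfl fun k _ => ?_
    by_cases h2 : k.Prime
    · simp [h2, ArithmeticFunction.vonMangoldt_apply_prime h2]
    · simp [h2]
  have e2 : psi n - theta n = ∑ k ∈ Icc 1 n, (if k.Prime then 0 else Λ k : ℝ) := by
    unfold psi theta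
    rw [sum_filter, ← sum_sub_distrib]
    refine sum_congr rfl fun k _ => ?_
    by_cases h2 : k.Prime
    · simp [h2, ArithmeticFunction.vonMangoldt_apply_prime h2]
    · simp [h2]
  rw [e1, e2]
  refine (norm_sum_le _ _).trans (sum_le_sum fun k _ => ?_)
  have h0 : 0 ≤ (if k.Prime then 0 else Λ k : ℝ) := by
    split_ifs
    · exact le_rfl
    · exact ArithmeticFunction.vonMangoldt_nonneg
  rw [norm_mul, Complex.norm_real, Real.norm_of_nonneg h0]
  exact mul_le_of_le_one_right h0 (DirichletCharacter.norm_le_one _ _)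

/-- Abel's inequality -/
theorem abelC (f : ℕ → ℂ) (g : ℕ → ℝ) (a b : ℕ) (M : ℝ) (hab : a ≤ b)
    (hM : ∀ k, a ≤ k → k ≤ b → ‖∑ i ∈ Ico a k, f i‖ ≤ M)
    (hg : ∀ i, a ≤ i → g (i + 1) ≤ g i) (hg0 : ∀ i, a ≤ i → 0 ≤ g i) :
    ‖∑ i ∈ Ico a b, ((g i : ℝ) : ℂ) * f i‖ ≤ M * g a := by
  have key : ∀ N, a ≤ N → N ≤ b →
      ‖∑ i ∈ Ico a N, ((g i : ℝ) : ℂ) * f i - ((g N : ℝ) : ℂ) * ∑ i ∈ Ico a N, f i‖ ≤
        M * (g a - g N) := by
    intro N hN
    induction N, hN using Nat.le_induction with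
    | base => intro _; simp
    | succ N hN ih =>
      intro hb
      have ih' := ih (by omega)
      have h3 : 0 ≤ g N - g (N + 1) := by have := hg N hN; linarith
      have e : ∑ i ∈ Ico a (N + 1), ((g i : ℝ) : ℂ) * f i -
          ((g (N + 1) : ℝ) : ℂ) * ∑ i ∈ Ico a (N + 1), f i =
          (∑ i ∈ Ico a N, ((g i : ℝ) : ℂ) * f i - ((g N : ℝ) : ℂ) * ∑ i ∈ Ico a N, f i) +
          ((g N - g (N + 1) : ℝ) : ℂ) * ∑ i ∈ Ico a (N + 1), f i := by
        rw [sum_Ico_succ_top hN, sum_Ico_succ_top hN]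
        push_cast
        ring
      rw [e]
      refine (norm_add_le _ _).trans ?_
      have h4 : ‖((g N - g (N + 1) : ℝ) : ℂ) * ∑ i ∈ Ico a (N + 1), f i‖ ≤
          (g N - g (N + 1)) * M := by
        rw [norm_mul, Complex.norm_real, Real.norm_of_nonneg h3]
        exact mul_le_mul_of_nonneg_left (hM _ (by omega) hb) h3
      linarith
  have h1 := key b hab le_rfl
  have h2 := hM b hab le_rfl
  have h3 : ‖((g b : ℝ) : ℂ) * ∑ i ∈ Ico a b, f i‖ ≤ g b * M := by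
    rw [norm_mul, Complex.norm_real, Real.norm_of_nonneg (hg0 b hab)]
    exact mul_le_mul_of_nonneg_left h2 (hg0 b hab)
  calc ‖∑ i ∈ Ico a b, ((g i : ℝ) : ℂ) * f i‖
      = ‖(∑ i ∈ Ico a b, ((g i : ℝ) : ℂ) * f i - ((g b : ℝ) : ℂ) * ∑ i ∈ Ico a b, f i) +
        ((g b : ℝ) : ℂ) * ∑ i ∈ Ico a b, f i‖ := by rw [sub_add_cancel]
    _ ≤ _ := norm_add_le _ _
    _ ≤ M * g a := by linarith

/-- the sum over the primes in an interval -/
theorem prime_sum_aux {r : ℕ} (χ : DirichletCharacter ℂ r) (a b N : ℕ) (T : ℝ) (ha : 3 ≤ a)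
    (hb : b ≤ N + 1) (hT : ∀ n, a - 1 ≤ n → n ≤ N → ‖thC χ n‖ ≤ T) (hT0 : 0 ≤ T) :
    ‖∑ p ∈ (Ico a b).filter Nat.Prime, χ (p : ZMod r)‖ ≤ 2 * T := by
  rcases Nat.lt_or_ge b a with hba | hab
  · rw [Ico_eq_empty (by omega)]; simpa using hT0
  rcases Nat.eq_or_lt_of_le hab with hab' | hab'
  · rw [← hab']; simpa using hT0
  set f : ℕ → ℂ := fun i => if i.Prime then ((Real.log i : ℝ) : ℂ) * χ (i : ZMod r) else 0 with hf
  have hS : ∀ k, a ≤ k → ∑ i ∈ Ico a k, f i = thC χ (k - 1) - thC χ (a - 1) := by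
    intro k hk
    have h1 : ∀ n, thC χ n = ∑ i ∈ Ico 1 (n + 1), f i := by
      intro n
      unfold thC
      rw [sum_filter]
      rfl
    rw [h1, h1, show k - 1 + 1 = k by omega, show a - 1 + 1 = a by omega,
      ← sum_Ico_consecutive f (by omega : 1 ≤ a) hk]
    ring
  have hM : ∀ k, a ≤ k → k ≤ b → ‖∑ i ∈ Ico a k, f i‖ ≤ 2 * T := by
    intro k hk hkb
    rw [hS k hk]
    have h1 := hT (k - 1) (by omega) (by omega)
    have h2 := hT (a - 1) le_rfl (by omega)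
    exact (norm_sub_le _ _).trans (by linarith)
  have hlog : ∀ i : ℕ, a ≤ i → 1 ≤ Real.log i := by
    intro i hi
    have h3 : (3 : ℝ) ≤ i := by exact_mod_cast ha.trans hi
    rw [Real.le_log_iff_exp_le (by linarith)]
    have := Real.exp_one_lt_d9
    linarith
  have h := abelC f (fun i => 1 / Real.log i) a b (2 * T) hab hM
    (fun i hi => by
      have h1 := hlog i hi
      apply one_div_le_one_div_of_le (by linarith)
      apply Real.log_le_log
      · have : 0 < i := by omega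
        exact_mod_cast this
      · push_cast; linarith)
    (fun i hi => by
      have h1 := hlog i hi
      positivity)
  have e : ∑ p ∈ (Ico a b).filter Nat.Prime, χ (p : ZMod r) =
      ∑ i ∈ Ico a b, ((1 / Real.log i : ℝ) : ℂ) * f i := by
    rw [sum_filter]
    refine sum_congr rfl fun i hi => ?_
    have h1 := hlog i (mem_Ico.1 hi).1
    simp only [hf]
    split_ifs
    · rw [← mul_assoc, ← Complex.ofReal_mul, one_div_mul_cancel (by linarith), Complex.ofReal_one,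
        one_mul]
    · simp
  rw [e]
  refine h.trans ?_
  have h1 := hlog a le_rfl
  have h2 : 1 / Real.log a ≤ 1 := by
    rw [div_le_one (by linarith)]; exact h1
  calc 2 * T * (1 / Real.log a) ≤ 2 * T * 1 := by gcongr
    _ = 2 * T := by ring

/-- Siegel-Walfisz for the primes in intervals `[a, b)`, `y0 x ≤ a` -/
theorem prime_sum_char (A₁ A : ℕ) : ∀ᶠ x : ℕ in atTop, ∀ r : ℕ, 1 < r →
    (r : ℝ) ≤ (Real.log x) ^ A₁ → ∀ χ ∈ prim r, ∀ N a b : ℕ, y0 x ≤ a → b ≤ N + 1 → y0 x ≤ N →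
    ‖∑ p ∈ (Ico a b).filter Nat.Prime, χ (p : ZMod r)‖ ≤ N / (Real.log x) ^ A := by
  obtain ⟨C, hC, hSW⟩ := siegel_walfisz (2 * (A + 1)) (2 * A₁ + 1)
  have hs : Tendsto (fun x : ℕ => Real.sqrt (Real.log (x : ℝ))) atTop atTop :=
    Real.tendsto_sqrt_atTop.comp (Real.tendsto_log_atTop.comp tendsto_natCast_atTop_atTop)
  filter_upwards [hs.eventually_ge_atTop (2 * (2 ^ (2 * A₁) + 2)), evt_log 1,
    evt_log (4 * C * 4 ^ (A + 1)), evt_y0 (32 ^ 4) (4 * A)] with x hx1 hL1 hL2 hy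
  intro r hr hrL χ hχ N a b ha hb hN
  set L : ℝ := Real.log x with hL
  set s : ℝ := Real.sqrt L / 2 with hsd
  have hL0 : 0 < L := by linarith
  have hsq : Real.sqrt L * Real.sqrt L = L := Real.mul_self_sqrt hL0.le
  have hs2 : 2 ^ (2 * A₁) + 2 ≤ s := by rw [hsd]; linarith
  have hp1 : (1 : ℝ) ≤ 2 ^ (2 * A₁) := one_le_pow₀ (by norm_num)
  have hs3 : 3 ≤ s := by linarith
  have hsL : Real.sqrt L = 2 * s := by rw [hsd]; ring
  have hLs : L = 4 * s ^ 2 := by rw [← hsq, hsL]; ring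
  -- `y0 - 1 ≥ exp s`
  have hy1 : Real.exp s + 1 ≤ y0 x := by
    have h1 : Real.exp (Real.sqrt L) ≤ y0 x := Nat.le_ceil _
    rw [hsL, two_mul, Real.exp_add] at h1
    have h2 : s + 1 ≤ Real.exp s := Real.add_one_le_exp s
    nlinarith
  have hes : s + 1 ≤ Real.exp s := Real.add_one_le_exp s
  have hy3 : 5 ≤ y0 x := by
    have : (5 : ℝ) ≤ y0 x := by linarith
    exact_mod_cast this
  have hNx : (y0 x : ℝ) ≤ N := by exact_mod_cast hN
  have hN0 : (0 : ℝ) < N := by linarith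
  have hlogn : ∀ n : ℕ, a - 1 ≤ n → s ≤ Real.log n ∧ 3 ≤ n := by
    intro n hn
    have h1 : y0 x ≤ n + 1 := by omega
    have h2 : (y0 x : ℝ) ≤ n + 1 := by exact_mod_cast h1
    have h3 : Real.exp s ≤ n := by linarith
    refine ⟨?_, by omega⟩
    rw [Real.le_log_iff_exp_le (by linarith [Real.exp_pos s])]
    exact h3
  -- the bound for `psiC`
  have hpsi : ∀ n : ℕ, a - 1 ≤ n → n ≤ N → ‖psiC χ n‖ ≤ (N : ℝ) / (4 * L ^ A) := by
    intro n hn hnN
    obtain ⟨hln, hn3⟩ := hlogn n hn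
    have hr' : (r : ℝ) ≤ (Real.log n) ^ (2 * A₁ + 1) := by
      calc (r : ℝ) ≤ L ^ A₁ := hrL
        _ = 2 ^ (2 * A₁) * s ^ (2 * A₁) := by
          rw [hLs, mul_pow, pow_mul, pow_mul]; norm_num
        _ ≤ s * s ^ (2 * A₁) := by
          have : (2 : ℝ) ^ (2 * A₁) ≤ s := by linarith
          gcongr
        _ = s ^ (2 * A₁ + 1) := by ring
        _ ≤ (Real.log n) ^ (2 * A₁ + 1) := by gcongr
    have h := hSW n hn3 r hr hr' χ hχ
    refine h.trans ?_
    have hnN' : (n : ℝ) ≤ N := by exact_mod_cast hnN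
    have h5 : (L / 4) ^ (A + 1) ≤ (Real.log n) ^ (2 * (A + 1)) := by
      rw [pow_mul]
      have : L / 4 = s ^ 2 := by rw [hLs]; ring
      rw [this]
      gcongr
    calc C * n / (Real.log n) ^ (2 * (A + 1)) ≤ C * N / (L / 4) ^ (A + 1) := by gcongr
      _ = (4 * C * 4 ^ (A + 1)) * (N / (4 * L ^ (A + 1))) := by
        rw [div_pow]; field_simp
      _ ≤ L * (N / (4 * L ^ (A + 1))) := by gcongr
      _ = N / (4 * L ^ A) := by rw [pow_succ]; field_simp
  -- the prime powers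
  have hpp : 2 * Real.sqrt N * Real.log N ≤ (N : ℝ) / (4 * L ^ A) := by
    have h1 : (32 * L ^ A) ^ 4 ≤ (N : ℝ) := by
      calc (32 * L ^ A) ^ 4 = 32 ^ 4 * L ^ (4 * A) := by rw [mul_pow, ← pow_mul, mul_comm A 4]
        _ ≤ (y0 x : ℝ) := hy
        _ ≤ (N : ℝ) := hNx
    set v : ℝ := (N : ℝ) ^ (1 / 4 : ℝ) with hv
    have hv0 : 0 < v := by positivity
    have hv4 : v ^ 4 = N := by
      rw [hv, ← Real.rpow_natCast, ← Real.rpow_mul hN0.le]; norm_num
    have hv2 : Real.sqrt N = v ^ 2 := by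
      rw [← hv4, show v ^ 4 = (v ^ 2) ^ 2 by ring, Real.sqrt_sq (by positivity)]
    have h2 : 32 * L ^ A ≤ v := by
      have : (32 * L ^ A) ^ 4 ≤ v ^ 4 := by rw [hv4]; exact h1
      exact le_of_pow_le_pow_left₀ (by norm_num) hv0.le this
    have h3 : Real.log N ≤ 4 * v := by
      have := Real.log_le_rpow_div hN0.le (by norm_num : (0 : ℝ) < 1 / 4)
      rw [← hv] at this
      linarith
    rw [le_div_iff₀ (by positivity), hv2]
    have hLA : 0 < L ^ A := by positivity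
    calc 2 * v ^ 2 * Real.log N * (4 * L ^ A) ≤ 2 * v ^ 2 * (4 * v) * (4 * L ^ A) := by gcongr
      _ = v ^ 3 * (32 * L ^ A) := by ring
      _ ≤ v ^ 3 * v := by gcongr
      _ = N := by rw [← hv4]; ring
  have hT : ∀ n, a - 1 ≤ n → n ≤ N → ‖thC χ n‖ ≤ (N : ℝ) / (2 * L ^ A) := by
    intro n hn hnN
    have h1 := hpsi n hn hnN
    have h2 := (thC_sub χ n N hnN (by omega)).trans hpp
    calc ‖thC χ n‖ = ‖psiC χ n - (psiC χ n - thC χ n)‖ := by rw [sub_sub_cancel]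
      _ ≤ ‖psiC χ n‖ + ‖psiC χ n - thC χ n‖ := norm_sub_le _ _
      _ ≤ (N : ℝ) / (4 * L ^ A) + (N : ℝ) / (4 * L ^ A) := add_le_add h1 h2
      _ = (N : ℝ) / (2 * L ^ A) := by field_simp; norm_num
  have h := prime_sum_aux χ a b N _ (by omega) hb hT (by positivity)
  calc ‖∑ p ∈ (Ico a b).filter Nat.Prime, χ (p : ZMod r)‖ ≤ 2 * ((N : ℝ) / (2 * L ^ A)) := h
    _ = N / L ^ A := by field_simp

end

end Pool.Agent.HS
end

section
/-! # Explicit weights for `θ = 5/6`: definitions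

`s = log d / log x`, `κ = log 4 / log x`. See the note of helper55 (10:15) on MP_92f640_nt. -/

namespace Pool.Agent.HS

open Finset

noncomputable section

/-- the weight of an integer with `j` prime factors and logarithmic size `s` -/
def gE (κ : ℝ) (j : ℕ) (s : ℝ) : ℝ :=
  if j = 0 then 1
  else if j = 1 then (if s ≤ 5 / 12 ∨ (1 / 2 - κ < s ∧ s ≤ 7 / 12) then -1 else 0)
  else if j = 2 then (if s < 19 / 50 ∨ (1 / 2 < s ∧ s ≤ 7 / 12 - 2 * κ) then 1 else 0)
  else if j = 3 then (if 1 / 2 - κ < s ∧ s ≤ 7 / 12 then -1 else 0)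
  else 0

def kap (x : ℕ) : ℝ := Real.log 4 / Real.log x

/-- logarithmic size -/
def ex (x n : ℕ) : ℝ := Real.log n / Real.log x

/-- squarefree `z`-rough integers -/
def Rough (z d : ℕ) : Prop := Squarefree d ∧ ∀ p : ℕ, p.Prime → p ∣ d → z ≤ p

open Classical in
/-- the weights -/
def cw (x d : ℕ) : ℝ :=
  if Rough (zx (5 / 6) x) d then gE (kap x) d.primeFactors.card (ex x d) else 0

/-- primes `p ≤ x` with exponent in `[u, v]` -/
def PS (x : ℕ) (u v : ℝ) : Finset ℕ :=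
  (Icc 1 x).filter (fun p => p.Prime ∧ u ≤ ex x p ∧ ex x p ≤ v)

/-- the primes that occur -/
def PP (x : ℕ) : Finset ℕ := PS x (1 / 6) (5 / 6)

end

end Pool.Agent.HS
end

section
/-! # Module W.LinL: lower bounds (linear arithmetic); `t` is anywhere in the order

`F2`: `1 + g1 a + g1 t`, both counted only if `a` is in a window.
`F3`: `1 + ∑ h`, `h(a) = g1 a + g2 (S - a) ≥ -1`; `h = 1` for `a ∈ [5/12 + 2κ, 1/2 - 2κ]` and for `a > 31/50`; `h ≥ 0` for `a > 7/12`.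
`F4`: `g1 a + g3 (S - a) ≥ -1 - [Win a]`; for `a = t`: `Win κ (a + b + c)`; `g2 s + g2 (S - s) ≥ 1 - [QQ s]`.
`F5`: five primes `≥ -1`, ten pairs `≥ 0`, ten triples `≥ -1`, quadruples `0` (sum `≥ 4/6`), all five: `0`. -/

namespace Pool.Agent.HS

end Pool.Agent.HS
end

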