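import Mathlib
import Pool.Agent.Work.GBM.C01
import Pool.Agent.Work.GBM.C02
import Pool.Agent.Work.GBM.C07
import Pool.Agent.Work.GBM.C08
import Pool.Agent.Work.GBM.C09
import Pool.Agent.Work.GBM.C11
import Pool.Agent.Work.GBM.C12
import Pool.Agent.Work.GBM.C13
import Pool.Agent.Work.GBM.C15

section
/-! # Module MinorII: type II sums on the minor arcs

Cells for `c` as in HS/CtlVar (`gg`, at most `5 L/η` of them): `c` in a cell `(g i, g (i+1)]`, `l ≤ y/g(i+1)`: `box_minor` with `X₁ = g(i+1) ≤ w₂`, `X₂ = y/g(i+1) ≤ x/w₁`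
(`A` cut to the cell, both cut to the integers coprime to `q`); Cauchy over the cells. Boundary: `n ∈ (M, y]`, `y - M ≤ 2 η x`, coefficients `≤ τ(n)³` (`ecf`, `norm_ecf_le`): `∑_a |∑_{n ≡ a}|² ≤ (2 η x/q + 1) ∑ τ(n)⁶`
(`tau_short 6`; `q ≤ η x`). `expand`, `decomp` of HS/CtlVar are for characters; here the same with `ψ n = 1_{n % q = a} e(nα)` is not multiplicative: only the splitting of the sum over `(c, l)` is needed. -/

namespace Pool.Agent.HN

open Finset Pool.Agent.BV Pool.Agent.HL Pool.Agent.HS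

theorem minor_II (η₁ : ℝ) (hη₁ : 0 < η₁) : ∃ (C : ℝ) (c : ℕ), 0 < C ∧ ∀ (x y q s w₁ w₂ : ℕ)
    (A B : ℕ → ℝ) (α η : ℝ) (b : ℤ), 3 ≤ x → y ≤ x → 1 ≤ q → (q : ℝ) ≤ (x : ℝ) ^ (1 - η₁) →
    1 ≤ w₁ → w₁ ≤ w₂ → w₂ ≤ x → (∀ c, |A c| ≤ 1) → (∀ c, A c ≠ 0 → w₁ ≤ c ∧ c ≤ w₂) →
    (∀ l, |B l| ≤ (l.divisors.card : ℝ) ^ 2) → 1 ≤ s → s ≤ x → IsCoprime b (s : ℤ) →
    |q * α - b / s| ≤ (q : ℝ) / x → 0 < η → η ≤ 1 → 2 ≤ η * w₁ → (q : ℝ) ≤ η * x →
    VV q y (FA q (fun n => ∑ p ∈ n.divisorsAntidiagonal, A p.1 * B p.2)) α ≤ C * (Real.log x) ^ c *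
      (1 / η ^ 2 * ((s : ℝ) * x + (x : ℝ) ^ 2 / (q * w₁) + (x : ℝ) * w₂ / q +
        (x : ℝ) ^ 2 / (q * (s : ℝ) ^ (1 / 4 : ℝ))) + (x : ℝ) ^ 2 / q * Real.sqrt η) := by
  obtain ⟨K, c, hK, hbox⟩ := box_minor η₁ hη₁
  obtain ⟨C₁, hC₁, hτs⟩ := Pool.Agent.HT.tau_short 6
  refine ⟨50 * K + 9 * C₁, c + 2 + 4096, by positivity, ?_⟩
  intro x y q s w₁ w₂ A B α η b hx hyx hq hqx h1 h12 h2 hA hAs hB hs hsx hbs hα hη hη1 hηw hqη
  have hL : 1 ≤ Real.log x := DivSum_log x hx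
  have hx0 : (0 : ℝ) < x := by exact_mod_cast (by omega : 0 < x)
  have hq0 : (0 : ℝ) < q := by exact_mod_cast hq
  have hw0 : (0 : ℝ) < w₁ := by exact_mod_cast h1
  have hs0 : (0 : ℝ) < s := by exact_mod_cast hs
  have hyx' : (y : ℝ) ≤ x := by exact_mod_cast hyx
  -- coefficients
  set a := MinII.cu q A with ha
  set bb := MinII.cu q B with hbb
  have ha1 : ∀ c, ‖a c‖ ≤ 1 := by
    intro c
    rw [ha]
    unfold MinII.cu
    split_ifs
    · rw [Complex.norm_real, Real.norm_eq_abs]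
      exact hA c
    · rw [norm_zero]
      exact zero_le_one
  have has : ∀ c, a c ≠ 0 → w₁ ≤ c ∧ c ≤ w₂ := by
    intro c hc
    apply hAs c
    intro h0
    apply hc
    rw [ha]
    unfold MinII.cu
    rw [h0]
    simp
  have hac : ∀ c, ¬ c.Coprime q → a c = 0 := by
    intro c hc
    rw [ha]
    unfold MinII.cu
    rw [if_neg hc]
  have hb1 : ∀ l, ‖bb l‖ ≤ (l.divisors.card : ℝ) ^ 2 := by
    intro l
    rw [hbb]
    unfold MinII.cu
    split_ifs
    · rw [Complex.norm_real, Real.norm_eq_abs]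
      exact hB l
    · rw [norm_zero]
      positivity
  have hbc : ∀ l, ¬ l.Coprime q → bb l = 0 := by
    intro l hl
    rw [hbb]
    unfold MinII.cu
    rw [if_neg hl]
  have hFA : FA q (fun n => ∑ p ∈ n.divisorsAntidiagonal, A p.1 * B p.2) =
      fun n => ∑ p ∈ n.divisorsAntidiagonal, a p.1 * bb p.2 := by
    funext n
    exact MinII.FA_conv q A B n
  rw [hFA]
  -- cells
  set I : ℕ := ⌊4 * Real.log x / η⌋₊ + 1 with hI
  have hI1 : 4 * Real.log x / η < I := by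
    rw [hI]
    push_cast
    exact Nat.lt_floor_add_one _
  have hI2 : (I : ℝ) ≤ 5 * Real.log x / η := by
    rw [hI]
    push_cast
    have h3 : (⌊4 * Real.log x / η⌋₊ : ℝ) ≤ 4 * Real.log x / η := Nat.floor_le (by positivity)
    have h4 : 1 ≤ Real.log x / η := by
      rw [le_div_iff₀ hη]
      linarith
    calc (⌊4 * Real.log x / η⌋₊ : ℝ) + 1 ≤ 4 * Real.log x / η + Real.log x / η := by linarith
      _ = _ := by ring
  set g := CtlVar.gg η w₁ w₂ with hg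
  have hgm : Monotone g := CtlVar.gg_mono hη.le w₁ w₂
  have hg0 : g 0 = w₁ - 1 := CtlVar.gg_zero h12
  have hgI : g I = w₂ := CtlVar.gg_end hη hη1 hx h1 h2 hI1
  obtain ⟨M, hMle, hMlt⟩ : ∃ M : ℕ, (M : ℝ) ≤ (y : ℝ) * (1 - η) ∧
      (y : ℝ) * (1 - η) < M + 1 :=
    ⟨⌊(y : ℝ) * (1 - η)⌋₊, Nat.floor_le (mul_nonneg (Nat.cast_nonneg _) (by linarith)),
      Nat.lt_floor_add_one _⟩
  have hηx : 1 ≤ η * x := by
    have h3 : (w₁ : ℝ) ≤ x := by exact_mod_cast h12.trans h2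
    have h4 : η * w₁ ≤ η * x := mul_le_mul_of_nonneg_left h3 hη.le
    linarith
  have hηy : 0 ≤ η * y := mul_nonneg hη.le (Nat.cast_nonneg _)
  have hηyx : η * y ≤ η * x := mul_le_mul_of_nonneg_left hyx' hη.le
  have hMy : M ≤ y := by
    have : (M : ℝ) ≤ y := by linarith
    exact_mod_cast this
  have hMd : (y : ℝ) - M ≤ 2 * (η * x) := by linarith
  have hM : ∀ i < I, ∀ c ∈ Ioc (g i) (g (i + 1)), ∀ l, y / g (i + 1) < l → M < c * l := by
    intro i _ c hc l hl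
    rw [mem_Ioc] at hc
    have hgp : 0 < g (i + 1) := by omega
    rw [Nat.div_lt_iff_lt_mul hgp] at hl
    have h4 : (y : ℝ) < l * g (i + 1) := by exact_mod_cast hl
    have h5 : (g (i + 1) : ℝ) ≤ (1 + η) * c :=
      CtlVar.gg_ratio hη hc.1 (hc.2.trans (CtlVar.gg_le η w₁ w₂ (i + 1)))
    have hl0 : 0 < l := Nat.pos_of_ne_zero (by rintro rfl; simp at hl)
    have hc0 : 0 < c := by omega
    have hcl : (0 : ℝ) < c * l := by exact_mod_cast Nat.mul_pos hc0 hl0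
    have h6 : (y : ℝ) ≤ (1 + η) * (c * l) := by
      calc (y : ℝ) ≤ l * g (i + 1) := h4.le
        _ ≤ l * ((1 + η) * c) := mul_le_mul_of_nonneg_left h5 (Nat.cast_nonneg _)
        _ = _ := by ring
    have h7 : (M : ℝ) < c * l := by
      calc (M : ℝ) ≤ (y : ℝ) * (1 - η) := hMle
        _ ≤ ((1 + η) * (c * l)) * (1 - η) := mul_le_mul_of_nonneg_right h6 (by linarith)
        _ = (c * l) - η * η * (c * l) := by ring
        _ < c * l := by
            have : 0 < η * η * ((c : ℝ) * l) := by positivity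
            linarith
    exact_mod_cast h7
  have hsup : ∀ c, a c ≠ 0 → g 0 < c ∧ c ≤ g I := by
    intro c hc
    have := has c hc
    rw [hg0, hgI]
    omega
  refine (MinII.VV_le a bb α g hgm y I M hM hsup).trans ?_
  -- the boxes
  set S4 : ℝ := (s : ℝ) ^ (1 / 4 : ℝ) with hS4
  have hS40 : 0 < S4 := Real.rpow_pos_of_pos hs0 _
  set P : ℝ := (s : ℝ) * x + (x : ℝ) ^ 2 / (q * w₁) + (x : ℝ) * w₂ / q +
    (x : ℝ) ^ 2 / (q * S4) with hP
  have hP0 : 0 ≤ P := by positivity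
  have hboxes : ∀ i ∈ range I, VB q (Icc 1 (g (i + 1))) (Icc 1 (y / g (i + 1)))
      (MinII.cut a (g i)) bb α ≤ K * (Real.log x) ^ c * P := by
    intro i _
    have hgi : w₁ ≤ g (i + 1) := CtlVar.le_gg hη h1 h12 (Nat.succ_ne_zero i)
    have hgi2 : g (i + 1) ≤ w₂ := CtlVar.gg_le η w₁ w₂ (i + 1)
    have e1 : g (i + 1) * (y / g (i + 1)) ≤ x := (Nat.mul_div_le _ _).trans hyx
    have e2 : ∀ c, ‖MinII.cut a (g i) c‖ ≤ 1 := by
      intro c
      unfold MinII.cut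
      split_ifs
      · exact ha1 c
      · rw [norm_zero]
        exact zero_le_one
    have e3 : ∀ c, ¬ c.Coprime q → MinII.cut a (g i) c = 0 := by
      intro c hc
      unfold MinII.cut
      split_ifs
      · exact hac c hc
      · rfl
    refine (hbox x q s (g (i + 1)) (y / g (i + 1)) (MinII.cut a (g i)) bb α b hx hq hqx hs hsx e1
      e2 hb1 e3 hbc hbs hα).trans ?_
    refine mul_le_mul_of_nonneg_left ?_ (by positivity)
    have e4 : ((y / g (i + 1) : ℕ) : ℝ) ≤ x / w₁ := by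
      rw [le_div_iff₀ hw0]
      have : (y / g (i + 1)) * w₁ ≤ x :=
        (Nat.mul_le_mul_left _ hgi).trans (by rw [mul_comm]; exact e1)
      exact_mod_cast this
    have e5 : ((g (i + 1) : ℕ) : ℝ) ≤ w₂ := by exact_mod_cast hgi2
    have e6 : (x : ℝ) * ((g (i + 1) : ℕ) + ((y / g (i + 1) : ℕ) : ℝ)) / q ≤
        (x : ℝ) ^ 2 / (q * w₁) + (x : ℝ) * w₂ / q := by
      calc (x : ℝ) * ((g (i + 1) : ℕ) + ((y / g (i + 1) : ℕ) : ℝ)) / q
          ≤ (x : ℝ) * (w₂ + x / w₁) / q := by gcongr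
        _ = _ := by
          field_simp
          ring
    rw [hP]
    linarith
  have hmain : 2 * ((I : ℝ) * ∑ i ∈ range I, VB q (Icc 1 (g (i + 1))) (Icc 1 (y / g (i + 1)))
      (MinII.cut a (g i)) bb α) ≤ 50 * K * (Real.log x) ^ (c + 2) * (1 / η ^ 2 * P) := by
    have e1 : ∑ i ∈ range I, VB q (Icc 1 (g (i + 1))) (Icc 1 (y / g (i + 1)))
        (MinII.cut a (g i)) bb α ≤ I * (K * (Real.log x) ^ c * P) := by
      refine (sum_le_sum hboxes).trans (le_of_eq ?_)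
      rw [sum_const, card_range, nsmul_eq_mul]
    have e2 : (I : ℝ) ^ 2 ≤ (5 * Real.log x / η) ^ 2 := pow_le_pow_left₀ (Nat.cast_nonneg _) hI2 2
    calc 2 * ((I : ℝ) * ∑ i ∈ range I, VB q (Icc 1 (g (i + 1))) (Icc 1 (y / g (i + 1)))
          (MinII.cut a (g i)) bb α)
        ≤ 2 * ((I : ℝ) * (I * (K * (Real.log x) ^ c * P))) := by gcongr
      _ = (I : ℝ) ^ 2 * (2 * (K * (Real.log x) ^ c * P)) := by ring
      _ ≤ (5 * Real.log x / η) ^ 2 * (2 * (K * (Real.log x) ^ c * P)) :=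
          mul_le_mul_of_nonneg_right e2 (by positivity)
      _ = _ := by
          field_simp
          ring
  -- the boundary
  have hbd : 2 * ∑ r ∈ range q, ‖∑ n ∈ Ioc M y, (if n % q = r then
      CtlVar.ecf a bb g y I n * e (n * α) else 0)‖ ^ 2 ≤
      9 * C₁ * (Real.log x) ^ 4096 * ((x : ℝ) ^ 2 / q * Real.sqrt η) := by
    have e1 := MinII.classes_sq hq hMy (fun n => CtlVar.ecf a bb g y I n * e (n * α))
    have e2 : ∑ n ∈ Ioc M y, ‖CtlVar.ecf a bb g y I n * e (n * α)‖ ^ 2 ≤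
        C₁ * Real.sqrt ((y : ℝ) - M) * Real.sqrt x * (Real.log x) ^ 4096 := by
      refine le_trans ?_ (hτs x M y hx hMy hyx)
      refine Finset.sum_le_sum fun n hn => ?_
      rw [mem_Ioc] at hn
      rw [norm_mul, add_norm_e, mul_one]
      calc ‖CtlVar.ecf a bb g y I n‖ ^ 2 ≤ ((n.divisors.card : ℝ) ^ 3) ^ 2 :=
            pow_le_pow_left₀ (norm_nonneg _)
              (CtlVar.norm_ecf_le a bb g hgm y I n (by omega) ha1 hb1) 2
        _ = _ := by ring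
    have e3 : Real.sqrt ((y : ℝ) - M) * Real.sqrt x ≤ 3 / 2 * (Real.sqrt η * x) := by
      calc Real.sqrt ((y : ℝ) - M) * Real.sqrt x ≤ Real.sqrt (2 * (η * x)) * Real.sqrt x :=
            mul_le_mul_of_nonneg_right (Real.sqrt_le_sqrt hMd) (Real.sqrt_nonneg _)
        _ = Real.sqrt 2 * (Real.sqrt η * (Real.sqrt x * Real.sqrt x)) := by
            rw [Real.sqrt_mul (by norm_num), Real.sqrt_mul hη.le]
            ring
        _ = Real.sqrt 2 * (Real.sqrt η * x) := by rw [Real.mul_self_sqrt hx0.le]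
        _ ≤ 3 / 2 * (Real.sqrt η * x) := by
            refine mul_le_mul_of_nonneg_right ?_ (by positivity)
            rw [Real.sqrt_le_left (by norm_num)]
            norm_num
    have e4 : ((y : ℝ) - M) / q + 1 ≤ 3 * (η * x) / q := by
      have e5 : 1 ≤ η * x / q := by
        rw [le_div_iff₀ hq0, one_mul]
        exact hqη
      have e6 : ((y : ℝ) - M) / q ≤ 2 * (η * x) / q := by gcongr
      calc ((y : ℝ) - M) / q + 1 ≤ 2 * (η * x) / q + η * x / q := add_le_add e6 e5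
        _ = _ := by ring
    calc 2 * ∑ r ∈ range q, ‖∑ n ∈ Ioc M y, (if n % q = r then
          CtlVar.ecf a bb g y I n * e (n * α) else 0)‖ ^ 2
        ≤ 2 * ((((y : ℝ) - M) / q + 1) *
            ∑ n ∈ Ioc M y, ‖CtlVar.ecf a bb g y I n * e (n * α)‖ ^ 2) :=
          mul_le_mul_of_nonneg_left e1 (by norm_num)
      _ ≤ 2 * ((3 * (η * x) / q) *
            (C₁ * Real.sqrt ((y : ℝ) - M) * Real.sqrt x * (Real.log x) ^ 4096)) := by
          refine mul_le_mul_of_nonneg_left ?_ (by norm_num)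
          exact mul_le_mul e4 e2 (sum_nonneg fun _ _ => sq_nonneg _) (by positivity)
      _ = 6 * (η * x) / q * C₁ * (Real.log x) ^ 4096 *
            (Real.sqrt ((y : ℝ) - M) * Real.sqrt x) := by ring
      _ ≤ 6 * (η * x) / q * C₁ * (Real.log x) ^ 4096 * (3 / 2 * (Real.sqrt η * x)) :=
          mul_le_mul_of_nonneg_left e3 (by positivity)
      _ = η * (9 * C₁ * (Real.log x) ^ 4096 * ((x : ℝ) ^ 2 / q * Real.sqrt η)) := by
          field_simp
          ring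
      _ ≤ 1 * (9 * C₁ * (Real.log x) ^ 4096 * ((x : ℝ) ^ 2 / q * Real.sqrt η)) :=
          mul_le_mul_of_nonneg_right hη1 (by positivity)
      _ = _ := one_mul _
  -- conclusion
  set R : ℝ := (x : ℝ) ^ 2 / q * Real.sqrt η with hR
  have hR0 : 0 ≤ R := by positivity
  set T : ℝ := 1 / η ^ 2 * P with hT
  have hT0 : 0 ≤ T := by positivity
  have l1 : (Real.log x) ^ (c + 2) ≤ (Real.log x) ^ (c + 2 + 4096) :=
    pow_le_pow_right₀ hL (by omega)
  have l2 : (Real.log x) ^ 4096 ≤ (Real.log x) ^ (c + 2 + 4096) :=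
    pow_le_pow_right₀ hL (by omega)
  set Z : ℝ := (Real.log x) ^ (c + 2 + 4096) with hZ
  have hZ0 : 0 ≤ Z := by positivity
  calc _ ≤ 50 * K * (Real.log x) ^ (c + 2) * T + 9 * C₁ * (Real.log x) ^ 4096 * R :=
        add_le_add hmain hbd
    _ ≤ 50 * K * Z * T + 9 * C₁ * Z * R := by gcongr
    _ ≤ 50 * K * Z * T + 9 * C₁ * Z * R + (50 * K * Z * R + 9 * C₁ * Z * T) := by
        have : 0 ≤ 50 * K * Z * R + 9 * C₁ * Z * T := by positivity
        linarith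
    _ = (50 * K + 9 * C₁) * Z * (T + R) := by ring

end Pool.Agent.HN
end

section
/-! # Module CtlMinor: controlled functions on the minor arcs

`VV_le` (HL/Dual) for the function `FA q f` on `[1, y]`; `φ` vanishes off the integers coprime to `q`. Type I: `typeIG` at `y` with
`W = 1` (coefficients cut at `min D y`); type II for each `j`: dyadic blocks as in HL/Minor, `typeII` with the short variable `c` as inner one:
`X₁ X₂ ((X₂/s + 1)(X₁/q + 1 + s (1 + log s))) ≤ C L (x²/q)(1/s + 1/w₁ + q w₂/x + q s/x)` (`X₁ X₂ ≤ x`, `X₂ ≤ w₂`, `X₁ ≤ x/w₁`), coefficient sums by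
`tau_sum 4`, Cauchy over `j`; error: `≤ √(∑ err²) √(∑_{n ≤ x} ‖φ n‖²)`, `∑_{n ≤ x} ‖φ n‖² ≤ x/q + 1`. -/

namespace Pool.Agent.HS

open Finset Pool.Agent.BV Pool.Agent.HL
open Pool.Agent.HT (tau_sum)
open Pool.Agent.HT.IIMinor (tm decomp tgt tgt_nonneg tgt_eq calc_block one_le_log log_le'
  log2_le sq_sum_le norm_tw)

namespace CtlMinor

lemma expandG (y : ℕ) (φ : ℕ → ℂ) (α : ℝ) (a g : ℕ → ℂ) :
    ∑ n ∈ Icc 1 y, (∑ p ∈ n.divisorsAntidiagonal, g p.1 * a p.2) * (φ n * e (n * α)) =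
      ∑ k ∈ Icc 1 y, ∑ c ∈ Icc 1 y, tm y φ α a g k c := by
  have h1 : ∀ n ∈ Icc 1 y,
      (∑ p ∈ n.divisorsAntidiagonal, g p.1 * a p.2) * (φ n * e (n * α)) =
      ∑ p ∈ (Icc 1 y ×ˢ Icc 1 y).filter (fun p : ℕ × ℕ => p.1 * p.2 = n),
        tm y φ α a g p.2 p.1 := by
    intro n hn
    obtain ⟨hn1, hn2⟩ := mem_Icc.mp hn
    have hset : (Icc 1 y ×ˢ Icc 1 y).filter (fun p : ℕ × ℕ => p.1 * p.2 = n) =
        n.divisorsAntidiagonal := by
      ext p
      simp only [mem_filter, mem_product, mem_Icc, Nat.mem_divisorsAntidiagonal]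
      constructor
      · rintro ⟨_, h⟩
        exact ⟨h, by omega⟩
      · rintro ⟨h, _⟩
        have h1 : p.1 ≠ 0 := by
          intro h0
          rw [h0, zero_mul] at h
          omega
        have h2 : p.2 ≠ 0 := by
          intro h0
          rw [h0, mul_zero] at h
          omega
        refine ⟨⟨⟨by omega, ?_⟩, ⟨by omega, ?_⟩⟩, h⟩
        · exact le_trans (Nat.le_mul_of_pos_right _ (by omega)) (h.le.trans hn2)
        · exact le_trans (Nat.le_mul_of_pos_left _ (by omega)) (h.le.trans hn2)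
    rw [hset, sum_mul]
    refine sum_congr rfl fun p hp => ?_
    have h2 := (Nat.mem_divisorsAntidiagonal.mp hp).1
    unfold tm
    rw [if_pos (by rw [h2]; exact hn2), h2]
    ring
  rw [sum_congr rfl h1]
  simp only [sum_filter]
  rw [sum_comm]
  have h2 : ∀ p ∈ Icc 1 y ×ˢ Icc 1 y, ∑ n ∈ Icc 1 y,
      (if p.1 * p.2 = n then tm y φ α a g p.2 p.1 else 0) =
      tm y φ α a g p.2 p.1 := by
    intro p hp
    rw [sum_ite_eq]
    obtain ⟨hp1, hp2⟩ := mem_product.mp hp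
    rw [mem_Icc] at hp1 hp2
    by_cases h : p.1 * p.2 ≤ y
    · rw [if_pos]
      exact mem_Icc.mpr ⟨Nat.mul_pos hp1.1 hp2.1, h⟩
    · rw [if_neg]
      · unfold tm
        rw [if_neg h]
      · intro h3
        exact h (mem_Icc.mp h3).2
  rw [sum_congr rfl h2, sum_product_right]

/-- `∑ ‖φ n‖²` -/
lemma sum_sq_tw {q : ℕ} (hq : 1 ≤ q) {φ : ℕ → ℂ} (hφ : Tw q φ) (y : ℕ) :
    ∑ n ∈ Icc 1 y, ‖φ n‖ ^ 2 ≤ y / q + 1 := by
  have h1 : ∑ n ∈ Icc 1 y, ‖φ n‖ ^ 2 ≤ ∑ n ∈ range ((y / q + 1) * q), ‖φ n‖ ^ 2 := by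
    refine sum_le_sum_of_subset_of_nonneg ?_ fun _ _ _ => by positivity
    intro n hn
    rw [mem_range]
    have h2 := Nat.lt_div_mul_add (a := y) (b := q) hq
    have h3 := (mem_Icc.mp hn).2
    rw [add_mul, one_mul]
    omega
  have h3 : ∑ n ∈ range ((y / q + 1) * q), ‖φ n‖ ^ 2 =
      ((y / q + 1 : ℕ) : ℝ) * ∑ a ∈ range q, ‖φ a‖ ^ 2 :=
    Minor.sum_periodic q (fun n => ‖φ n‖ ^ 2) (fun n => by rw [hφ.per n]) _
  have h4 : ((y / q : ℕ) : ℝ) ≤ (y : ℝ) / q := Nat.cast_div_le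
  calc _ ≤ _ := h1
    _ = _ := h3
    _ ≤ ((y / q + 1 : ℕ) : ℝ) * 1 := mul_le_mul_of_nonneg_left hφ.l2 (Nat.cast_nonneg _)
    _ ≤ _ := by push_cast; linarith

/-- the trivial bound -/
lemma trivial_le {q : ℕ} (hq : 1 ≤ q) {φ : ℕ → ℂ} (hφ : Tw q φ) (y : ℕ) (α : ℝ) (f : ℕ → ℂ)
    (M : ℝ) (hM : ∑ n ∈ Icc 1 y, ‖f n‖ ^ 2 ≤ M) :
    ‖∑ n ∈ Icc 1 y, f n * (φ n * e (n * α))‖ ^ 2 ≤ M * (y / q + 1) := by
  have h1 : ‖∑ n ∈ Icc 1 y, f n * (φ n * e (n * α))‖ ≤ ∑ n ∈ Icc 1 y, ‖f n‖ * ‖φ n‖ := by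
    refine (norm_sum_le _ _).trans (sum_le_sum fun n _ => ?_)
    rw [norm_mul, norm_mul, add_norm_e, mul_one]
  calc _ ≤ (∑ n ∈ Icc 1 y, ‖f n‖ * ‖φ n‖) ^ 2 := pow_le_pow_left₀ (norm_nonneg _) h1 2
    _ ≤ (∑ n ∈ Icc 1 y, ‖f n‖ ^ 2) * ∑ n ∈ Icc 1 y, ‖φ n‖ ^ 2 := sum_mul_sq_le_sq_mul_sq _ _ _
    _ ≤ M * (y / q + 1) := by
      refine mul_le_mul hM (sum_sq_tw hq hφ y) (sum_nonneg fun _ _ => by positivity) ?_
      exact (sum_nonneg fun _ _ => by positivity).trans hM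

/-- type I part -/
lemma partI {C₁ : ℝ} (hC₁ : 0 < C₁)
    (hI : ∀ (x q D s : ℕ) (φ : ℕ → ℂ) (α : ℝ) (b : ℤ) (w : ℕ → ℂ) (W : ℝ),
    3 ≤ x → 1 ≤ q → q ≤ x → Tw q φ → D ≤ x → 1 ≤ s → s ≤ x → IsCoprime b (s : ℤ) →
    |q * α - b / s| ≤ 1 / (s : ℝ) ^ 2 → 0 ≤ W → (∀ d ∈ Icc 1 D, ‖w d‖ ≤ W) →
    ‖∑ d ∈ Icc 1 D, w d * ∑ k ∈ Icc 1 (x / d), φ (d * k) * e ((d * k : ℕ) * α)‖ ≤
      C₁ * W * ((x : ℝ) / Real.sqrt q) *
        (1 / Real.sqrt s + Real.sqrt (q * s / x) + Real.sqrt q * D / x) * (Real.log x) ^ 3)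
    {x y q s D : ℕ} {β : ℕ → ℝ} (hβ : ∀ m, |β m| ≤ 1) (hβD : ∀ m, D < m → β m = 0)
    {φ : ℕ → ℂ} {α : ℝ} {b : ℤ} (hy : 3 ≤ y) (hyx : y ≤ x)
    (hq : 1 ≤ q) (hqs : q * s ≤ y) (hφ : Tw q φ) (hs : 1 ≤ s)
    (hbs : IsCoprime b (s : ℤ)) (hα : |q * α - b / s| ≤ 1 / (s : ℝ) ^ 2) :
    ‖∑ n ∈ Icc 1 y, ((∑ m ∈ n.divisors, β m : ℝ) : ℂ) * (φ n * e (n * α))‖ ^ 2 ≤
      3 * C₁ ^ 2 * (Real.log x) ^ 6 *
        (((x : ℝ) ^ 2 / q) * (1 / s + q * s / x + q * D ^ 2 / x ^ 2)) := by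
  have hx : 3 ≤ x := hy.trans hyx
  have h1 : ∑ n ∈ Icc 1 y, ((∑ m ∈ n.divisors, β m : ℝ) : ℂ) * (φ n * e (n * α)) =
      ∑ d ∈ Icc 1 (min D y), ((β d : ℝ) : ℂ) *
        ∑ k ∈ Icc 1 (y / d), φ (d * k) * e ((d * k : ℕ) * α) := by
    have h2 : ∀ n ∈ Icc 1 y, ((∑ m ∈ n.divisors, β m : ℝ) : ℂ) * (φ n * e (n * α)) =
        (∑ p ∈ n.divisorsAntidiagonal, ((β p.1 : ℝ) : ℂ) * (1 : ℂ)) * (φ n * e (n * α)) := by
      intro n _
      congr 1
      simp only [mul_one]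
      rw [Nat.sum_divisorsAntidiagonal (f := fun i _ => ((β i : ℝ) : ℂ))]
      push_cast
      rfl
    rw [sum_congr rfl h2]
    have h3 := expandG y φ α (fun _ => (1 : ℂ)) (fun c => ((β c : ℝ) : ℂ))
    rw [h3]
    have h4 := Minor.rearr y (min D y) φ α (fun _ => 1) (fun c => ((β c : ℝ) : ℂ))
      (min_le_right _ _) (by
        intro d hd hdy
        have : D < d := by
          rcases le_total D y with h | h
          · rwa [min_eq_left h] at hd
          · rw [min_eq_right h] at hd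
            omega
        simp [hβD d this])
    simp only [one_mul] at h4
    rw [← h4]
    refine sum_congr rfl fun k _ => sum_congr rfl fun c _ => ?_
    unfold tm
    rw [mul_comm c k]
    split_ifs <;> simp
  rw [h1]
  have hqy : q ≤ y := le_trans (Nat.le_mul_of_pos_right _ hs) hqs
  have hsy : s ≤ y := le_trans (Nat.le_mul_of_pos_left _ hq) hqs
  have h2 := hI y q (min D y) s φ α b (fun c => ((β c : ℝ) : ℂ)) 1 hy hq hqy hφ
    (min_le_right _ _) hs hsy hbs hα zero_le_one (fun d _ => by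
      rw [Complex.norm_real, Real.norm_eq_abs]
      exact hβ d)
  set S := ∑ d ∈ Icc 1 (min D y), ((β d : ℝ) : ℂ) *
        ∑ k ∈ Icc 1 (y / d), φ (d * k) * e ((d * k : ℕ) * α) with hS
  have hq0 : (0 : ℝ) < q := by exact_mod_cast hq
  have hs0 : (0 : ℝ) < s := by exact_mod_cast hs
  have hy0 : (0 : ℝ) < y := by exact_mod_cast (by omega : 0 < y)
  have hx0 : (0 : ℝ) < x := by exact_mod_cast (by omega : 0 < x)
  have hyxr : (y : ℝ) ≤ x := by exact_mod_cast hyx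
  have hL : 1 ≤ Real.log y := one_le_log hy
  have hLL : Real.log y ≤ Real.log x := log_le' (by omega) hyx
  have hD : ((min D y : ℕ) : ℝ) ≤ D := by exact_mod_cast min_le_left _ _
  have h3 : (y : ℝ) ^ 2 / q * (1 / Real.sqrt s + Real.sqrt (q * s / y) +
      Real.sqrt q * (min D y : ℕ) / y) ^ 2 ≤
      3 * (((x : ℝ) ^ 2 / q) * (1 / s + q * s / x + q * D ^ 2 / x ^ 2)) := by
    have e1 : (1 / Real.sqrt s) ^ 2 = 1 / s := by
      rw [div_pow, one_pow, Real.sq_sqrt hs0.le]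
    have e2 : Real.sqrt (q * s / y) ^ 2 = q * s / y := Real.sq_sqrt (by positivity)
    have e3 : (Real.sqrt q * (min D y : ℕ) / y) ^ 2 = q * ((min D y : ℕ) : ℝ) ^ 2 / y ^ 2 := by
      rw [div_pow, mul_pow, Real.sq_sqrt hq0.le]
    have h4 : (1 / Real.sqrt s + Real.sqrt (q * s / y) + Real.sqrt q * (min D y : ℕ) / y) ^ 2 ≤
        3 * (1 / s + q * s / y + q * ((min D y : ℕ) : ℝ) ^ 2 / y ^ 2) := by
      have key : ∀ a b c : ℝ, (a + b + c) ^ 2 ≤ 3 * (a ^ 2 + b ^ 2 + c ^ 2) := by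
        intro a b c
        nlinarith [sq_nonneg (a - b), sq_nonneg (a - c), sq_nonneg (b - c)]
      have h5 := key (1 / Real.sqrt s) (Real.sqrt (q * s / y)) (Real.sqrt q * (min D y : ℕ) / y)
      rw [e1, e2, e3] at h5
      exact h5
    have h5 : (y : ℝ) ^ 2 / q * (1 / s + q * s / y + q * ((min D y : ℕ) : ℝ) ^ 2 / y ^ 2) =
        y ^ 2 / (q * s) + y * s + ((min D y : ℕ) : ℝ) ^ 2 := by
      field_simp
    have h6 : (x : ℝ) ^ 2 / q * (1 / s + q * s / x + q * D ^ 2 / x ^ 2) =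
        x ^ 2 / (q * s) + x * s + D ^ 2 := by
      field_simp
    calc _ ≤ (y : ℝ) ^ 2 / q * (3 * (1 / s + q * s / y +
          q * ((min D y : ℕ) : ℝ) ^ 2 / y ^ 2)) := mul_le_mul_of_nonneg_left h4 (by positivity)
      _ = 3 * ((y : ℝ) ^ 2 / q * (1 / s + q * s / y +
          q * ((min D y : ℕ) : ℝ) ^ 2 / y ^ 2)) := by ring
      _ = 3 * (y ^ 2 / (q * s) + y * s + ((min D y : ℕ) : ℝ) ^ 2) := by rw [h5]
      _ ≤ 3 * (x ^ 2 / (q * s) + x * s + (D : ℝ) ^ 2) := by gcongr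
      _ = _ := by rw [h6]
  have hfac : 0 ≤ 1 / Real.sqrt s + Real.sqrt (q * s / y) + Real.sqrt q * (min D y : ℕ) / y := by
    positivity
  calc ‖S‖ ^ 2 ≤ (C₁ * 1 * ((y : ℝ) / Real.sqrt q) *
        (1 / Real.sqrt s + Real.sqrt (q * s / y) + Real.sqrt q * (min D y : ℕ) / y) *
          (Real.log y) ^ 3) ^ 2 := pow_le_pow_left₀ (norm_nonneg _) h2 2
    _ = C₁ ^ 2 * ((Real.log y) ^ 6) * ((y : ℝ) ^ 2 / q * (1 / Real.sqrt s +
        Real.sqrt (q * s / y) + Real.sqrt q * (min D y : ℕ) / y) ^ 2) := by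
      have : ((y : ℝ) / Real.sqrt q) ^ 2 = y ^ 2 / q := by rw [div_pow, Real.sq_sqrt hq0.le]
      rw [← this]
      ring
    _ ≤ C₁ ^ 2 * ((Real.log x) ^ 6) *
        (3 * (((x : ℝ) ^ 2 / q) * (1 / s + q * s / x + q * D ^ 2 / x ^ 2))) := by
      refine mul_le_mul ?_ h3 (by positivity) (by positivity)
      exact mul_le_mul_of_nonneg_left (pow_le_pow_left₀ (by linarith) hLL 6) (by positivity)
    _ = _ := by ring

end CtlMinor

end Pool.Agent.HS
end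

section
/-! # Module SupFA: auxiliary lemmas for SupF -/

namespace Pool.Agent.HS

open Finset Filter Pool.Agent.BV Pool.Agent.HL

namespace SupFaux

lemma norm_sub_sq_le (a b : ℂ) : ‖a - b‖ ^ 2 ≤ 2 * ‖a‖ ^ 2 + 2 * ‖b‖ ^ 2 := by
  have h := norm_sub_le a b
  have h2 : ‖a - b‖ ^ 2 ≤ (‖a‖ + ‖b‖) ^ 2 := pow_le_pow_left₀ (norm_nonneg _) h 2
  nlinarith [sq_nonneg (‖a‖ - ‖b‖)]

lemma VV_cut (q x : ℕ) (f : ℕ → ℝ) (α : ℝ) :
    VV q x (FA q (cut x f)) α ≤ 2 * VV q x (FA q f) α + 2 * VV q (x / 8) (FA q f) α := by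
  unfold VV
  rw [mul_sum, mul_sum, ← sum_add_distrib]
  refine sum_le_sum fun a _ => ?_
  have h1 : ∑ n ∈ (Icc 1 x).filter (fun n => n % q = a), FA q (cut x f) n * e (n * α) =
      ∑ n ∈ (Icc 1 x).filter (fun n => n % q = a), FA q f n * e (n * α) -
      ∑ n ∈ (Icc 1 (x / 8)).filter (fun n => n % q = a), FA q f n * e (n * α) := by
    have hsub : (Icc 1 (x / 8)).filter (fun n => n % q = a) =
        ((Icc 1 x).filter (fun n => n % q = a)).filter (fun n => n ≤ x / 8) := by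
      ext n
      simp only [mem_filter, mem_Icc]
      constructor
      · rintro ⟨⟨h1, h2⟩, h3⟩
        exact ⟨⟨⟨h1, h2.trans (Nat.div_le_self _ _)⟩, h3⟩, h2⟩
      · rintro ⟨⟨⟨h1, _⟩, h3⟩, h2⟩
        exact ⟨⟨h1, h2⟩, h3⟩
    rw [hsub, sum_filter (p := fun n => n ≤ x / 8), ← sum_sub_distrib]
    refine sum_congr rfl fun n hn => ?_
    have hnx : n ≤ x := (mem_Icc.1 (mem_filter.1 hn).1).2
    by_cases h : n ≤ x / 8
    · rw [if_pos h, sub_self]
      have : cut x f n = 0 := by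
        unfold cut
        rw [if_neg]
        rintro ⟨h1, _⟩
        omega
      unfold FA
      rw [this]
      split_ifs <;> simp
    · rw [if_neg h, sub_zero]
      have : cut x f n = f n := by
        unfold cut
        rw [if_pos ⟨by omega, hnx⟩]
      unfold FA
      rw [this]
  rw [h1]
  exact norm_sub_sq_le _ _

lemma abel_eq (v : ℕ → ℝ) (a : ℕ → ℂ) (y : ℕ) :
    ∑ n ∈ Icc 1 y, ((v n : ℝ) : ℂ) * a n = ((v y : ℝ) : ℂ) * ∑ n ∈ Icc 1 y, a n -
      ∑ n ∈ range y, (((v (n + 1) - v n : ℝ)) : ℂ) * ∑ m ∈ Icc 1 n, a m := by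
  induction y with
  | zero => simp
  | succ y ih =>
    rw [sum_Icc_succ_top (by omega), sum_Icc_succ_top (by omega), sum_range_succ, ih]
    push_cast
    ring

lemma abel (x : ℕ) (v : ℕ → ℝ) (V : ℝ) (hv : BVar x V v) (a : ℕ → ℂ)
    (W : ℝ) (hW : 0 ≤ W) (h : ∀ y' ≤ x, ‖∑ n ∈ Icc 1 y', a n‖ ≤ W) :
    ‖∑ n ∈ Icc 1 x, ((v n : ℝ) : ℂ) * a n‖ ≤ 2 * V * W := by
  rw [abel_eq]
  refine (norm_sub_le _ _).trans ?_
  have h1 : ‖((v x : ℝ) : ℂ) * ∑ n ∈ Icc 1 x, a n‖ ≤ V * W := by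
    rw [norm_mul, Complex.norm_real, Real.norm_eq_abs]
    exact mul_le_mul (hv.bd x) (h x le_rfl) (norm_nonneg _) ((abs_nonneg _).trans (hv.bd x))
  have h2 : ‖∑ n ∈ range x, (((v (n + 1) - v n : ℝ)) : ℂ) * ∑ m ∈ Icc 1 n, a m‖ ≤ V * W := by
    refine (norm_sum_le _ _).trans ?_
    calc ∑ n ∈ range x, ‖(((v (n + 1) - v n : ℝ)) : ℂ) * ∑ m ∈ Icc 1 n, a m‖
        ≤ ∑ n ∈ range x, |v (n + 1) - v n| * W := by
          refine sum_le_sum fun n hn => ?_
          rw [norm_mul, Complex.norm_real, Real.norm_eq_abs]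
          exact mul_le_mul_of_nonneg_left (h n (mem_range.1 hn).le) (abs_nonneg _)
      _ = (∑ n ∈ range x, |v (n + 1) - v n|) * W := by rw [sum_mul]
      _ ≤ V * W := mul_le_mul_of_nonneg_right hv.tv hW
  linarith

/-- the sizes of the parameters -/
lemma sizes (θ κ : ℝ) (x : ℕ) (hθ : 1 / 2 ≤ θ) (hθ1 : θ < 1) (hκ : 0 < κ)
    (hκθ : 8 * κ ≤ 1 - θ) (hx : 1 ≤ x) :
    (x : ℝ) ^ κ ≤ wk κ x ∧ (wk κ x : ℝ) ≤ 2 * (x : ℝ) ^ κ ∧ (x : ℝ) ^ (1 - θ) ≤ zx θ x ∧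
      (zx θ x : ℝ) ≤ 2 * (x : ℝ) ^ (1 - θ) ∧
      ((⌈(x : ℝ) ^ (1 - θ / 2)⌉₊ : ℕ) : ℝ) ≤ 2 * (x : ℝ) ^ (1 - θ / 2) := by
  have hX1 : (1 : ℝ) ≤ x := by exact_mod_cast hx
  have key : ∀ δ : ℝ, 0 ≤ δ → ((⌈(x : ℝ) ^ δ⌉₊ : ℕ) : ℝ) ≤ 2 * (x : ℝ) ^ δ := by
    intro δ hδ
    have h1 : 1 ≤ (x : ℝ) ^ δ := Real.one_le_rpow hX1 hδ
    have h2 := Nat.ceil_lt_add_one (show 0 ≤ (x : ℝ) ^ δ by linarith)
    linarith
  refine ⟨Nat.le_ceil _, key κ hκ.le, Nat.le_ceil _, key (1 - θ) (by linarith), key _ (by linarith)⟩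

/-- arithmetic of the major arcs -/
lemma major_arith (B'' B₂ E : ℕ) (G X L q s φ z V1 V2 T3 : ℝ) (hG : 0 < G) (hL : 1000 ≤ L)
    (hLG : 1148 * G ≤ L) (hX : 1 ≤ X) (hq : 1 ≤ q) (hs : 1 ≤ s) (hE : E = B'' + 2 * B₂ + 2)
    (hz : 0 < z) (hφ : 0 < φ)
    (hsφ : q * s / φ ≤ 4 * L) (h1 : V1 ≤ X ^ 2 / L ^ E) (h2 : V2 ≤ X ^ 2 / L ^ E)
    (h3 : (X / z) ^ 2 ≤ X ^ 2 / L ^ E) (h4 : X ^ 2 / z ≤ X ^ 2 / L ^ E)
    (h5 : q * s * (q * s * T3) ≤ X ^ 2 / L ^ E) :
    2 * s * (1 + (2 * Real.pi * (L ^ B₂)) ^ 2) *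
      (G * ((V1 + V2 + (X / z) ^ 2) / φ + X ^ 2 / (q * s * z) + (q * s) * T3)) ≤
    X ^ 2 / (q * L ^ B'') := by
  have hL0 : 0 < L := by linarith
  have hL1 : 1 ≤ L := by linarith
  have hq0 : 0 < q := by linarith
  have hs0 : 0 < s := by linarith
  have hX0 : 0 < X := by linarith
  have hpi : Real.pi ^ 2 ≤ 10 := by nlinarith [Real.pi_lt_d2, Real.pi_pos]
  have hB2 : 1 ≤ L ^ B₂ := one_le_pow₀ hL1
  have hT : 1 + (2 * Real.pi * (L ^ B₂)) ^ 2 ≤ 41 * L ^ (2 * B₂) := by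
    have e1 : L ^ (2 * B₂) = (L ^ B₂) ^ 2 := by rw [mul_comm, pow_mul]
    rw [e1]
    nlinarith [one_le_pow₀ hB2 (n := 2), sq_nonneg (L ^ B₂)]
  have hT0 : 0 ≤ 1 + (2 * Real.pi * (L ^ B₂)) ^ 2 := by positivity
  set T := 1 + (2 * Real.pi * (L ^ B₂)) ^ 2 with hTdef
  set P := X ^ 2 / L ^ E with hP
  have hP0 : 0 < P := by positivity
  have a1 : q * (s * ((V1 + V2 + (X / z) ^ 2) / φ)) ≤ 12 * L * P := by
    calc q * (s * ((V1 + V2 + (X / z) ^ 2) / φ)) = q * s / φ * (V1 + V2 + (X / z) ^ 2) := by ring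
      _ ≤ q * s / φ * (3 * P) := by
          refine mul_le_mul_of_nonneg_left ?_ (by positivity)
          linarith
      _ ≤ 4 * L * (3 * P) := by gcongr
      _ = _ := by ring
  have a2 : q * (s * (X ^ 2 / (q * s * z))) ≤ L * P := by
    have : q * (s * (X ^ 2 / (q * s * z))) = X ^ 2 / z := by field_simp
    rw [this]
    nlinarith
  have a3 : q * (s * ((q * s) * T3)) ≤ L * P := by
    have : q * (s * ((q * s) * T3)) = q * s * (q * s * T3) := by ring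
    rw [this]
    nlinarith
  rw [le_div_iff₀ (by positivity)]
  calc 2 * s * T * (G * ((V1 + V2 + (X / z) ^ 2) / φ + X ^ 2 / (q * s * z) + (q * s) * T3)) *
        (q * L ^ B'')
      = 2 * G * L ^ B'' * T * (q * (s * ((V1 + V2 + (X / z) ^ 2) / φ)) +
          q * (s * (X ^ 2 / (q * s * z))) + q * (s * ((q * s) * T3))) := by ring
    _ ≤ 2 * G * L ^ B'' * T * (14 * L * P) := by
        refine mul_le_mul_of_nonneg_left ?_ (by positivity)
        linarith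
    _ ≤ 2 * G * L ^ B'' * (41 * L ^ (2 * B₂)) * (14 * L * P) := by gcongr
    _ = (1148 * G) * (L ^ (B'' + 2 * B₂ + 1) * P) := by ring
    _ ≤ L * (L ^ (B'' + 2 * B₂ + 1) * P) := by gcongr
    _ = X ^ 2 := by
        rw [hP, hE]
        have : L ^ (B'' + 2 * B₂ + 2) = L * L ^ (B'' + 2 * B₂ + 1) := by ring
        rw [this]
        field_simp

end SupFaux

end Pool.Agent.HS
end

section
/-! # Module W.Mer: uniform Mertens, Riemann sums, logarithms

`mer`: from `mertens_two` (HS/VLow). `mer_sum`: cover by the intervals of the list. `log_pade`: derivative. -/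

namespace Pool.Agent.HS

open Finset Pool.Agent.HL

theorem ex_le_one {x p : ℕ} (hx : 2 ≤ x) (hp : p ∈ Icc 1 x) : ex x p ≤ 1 := by
  rw [mem_Icc] at hp
  have hlx : 0 < Real.log x := Real.log_pos (by exact_mod_cast (by omega : 1 < x))
  unfold ex
  rw [div_le_one hlx]
  exact Real.log_le_log (by exact_mod_cast (by omega : 0 < p)) (by exact_mod_cast hp.2)

theorem mer (δ : ℝ) (hδ : 0 < δ) : ∃ x₁ : ℕ, ∀ x : ℕ, x₁ ≤ x → ∀ u v : ℝ, 1 / 6 ≤ u → u ≤ v →
    ∑ p ∈ PS x u v, (1 : ℝ) / p ≤ Real.log (v / u) + δ := by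
  obtain ⟨C, hC, h⟩ := mertens_two
  have ev := evt_log (max 48 (6 * ((1 + C) / δ + 1)))
  obtain ⟨x₁, hx₁⟩ := Filter.eventually_atTop.1 ev
  refine ⟨max x₁ 2, fun x hx u v hu huv => ?_⟩
  have hL := hx₁ x ((le_max_left _ _).trans hx)
  have hx2 : 2 ≤ x := (le_max_right _ _).trans hx
  have hx0 : (0 : ℝ) < x := by exact_mod_cast (by omega : 0 < x)
  have hx1 : (1 : ℝ) ≤ x := by exact_mod_cast (by omega : 1 ≤ x)
  have hL1 : 48 ≤ Real.log x := (le_max_left _ _).trans hL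
  have hL2 : 6 * ((1 + C) / δ + 1) ≤ Real.log x := (le_max_right _ _).trans hL
  have hlx : 0 < Real.log x := by linarith
  have hu0 : 0 < u := by linarith
  have hv0 : 0 < v := by linarith
  have hlog : 0 ≤ Real.log (v / u) := Real.log_nonneg (by rwa [one_le_div hu0])
  rcases lt_or_ge 1 u with h1u | hu1
  · have : PS x u v = ∅ := by
      rw [Finset.eq_empty_iff_forall_notMem]
      intro p hp
      unfold PS at hp
      rw [mem_filter] at hp
      have := ex_le_one hx2 hp.1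
      linarith [hp.2.2.1]
    rw [this, sum_empty]
    linarith
  -- the bounds
  obtain ⟨w, hw⟩ : ∃ w, w = min v 1 := ⟨_, rfl⟩
  have hwv : w ≤ v := by rw [hw]; exact min_le_left _ _
  have huw : u ≤ w := by rw [hw]; exact le_min huv hu1
  have hw0 : 0 < w := by linarith
  have elu : Real.log ((x : ℝ) ^ u) = u * Real.log x := Real.log_rpow hx0 u
  have elw : Real.log ((x : ℝ) ^ w) = w * Real.log x := Real.log_rpow hx0 w
  have huL : 8 ≤ u * Real.log x := by nlinarith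
  have hxu : (4 : ℝ) ≤ (x : ℝ) ^ u := by
    have h1 := Real.add_one_le_exp (u * Real.log x)
    rw [← elu, Real.exp_log (by positivity), elu] at h1
    linarith
  have hxuw : (x : ℝ) ^ u ≤ (x : ℝ) ^ w := Real.rpow_le_rpow_of_exponent_le hx1 huw
  have hc1 : (x : ℝ) ^ u ≤ ⌈(x : ℝ) ^ u⌉₊ := Nat.le_ceil _
  have hc2 : (⌈(x : ℝ) ^ u⌉₊ : ℝ) < (x : ℝ) ^ u + 1 := Nat.ceil_lt_add_one (by linarith)
  have hf1 : (⌊(x : ℝ) ^ w⌋₊ : ℝ) ≤ (x : ℝ) ^ w := Nat.floor_le (by linarith)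
  have hf2 : (x : ℝ) ^ w < ⌊(x : ℝ) ^ w⌋₊ + 1 := Nat.lt_floor_add_one _
  obtain ⟨M, hM⟩ : ∃ M, ⌈(x : ℝ) ^ u⌉₊ = M + 1 := by
    have : 0 < ⌈(x : ℝ) ^ u⌉₊ := Nat.ceil_pos.2 (by linarith)
    exact ⟨⌈(x : ℝ) ^ u⌉₊ - 1, by omega⟩
  obtain ⟨N, hN⟩ : ∃ N, N = ⌊(x : ℝ) ^ w⌋₊ := ⟨_, rfl⟩
  have hsub : PS x u v ⊆ (Ioc M N).filter Nat.Prime := by
    intro p hp
    unfold PS at hp
    rw [mem_filter] at hp
    have hp1 := mem_Icc.1 hp.1
    have hp0 : (0 : ℝ) < p := by exact_mod_cast (by omega : 0 < p)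
    have h1 : u * Real.log x ≤ Real.log p := by
      have := hp.2.2.1
      unfold ex at this
      rwa [le_div_iff₀ hlx] at this
    have h2 : Real.log p ≤ w * Real.log x := by
      have h3 := hp.2.2.2
      have h4 := ex_le_one hx2 hp.1
      have h5 : ex x p ≤ w := by
        rw [hw]
        exact le_min h3 h4
      unfold ex at h5
      rwa [div_le_iff₀ hlx] at h5
    rw [mem_filter, mem_Ioc]
    refine ⟨⟨?_, ?_⟩, hp.2.1⟩
    · have h3 : (x : ℝ) ^ u ≤ p := by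
        rw [← elu] at h1
        exact (Real.log_le_log_iff (by positivity) hp0).1 h1
      have h4 : ⌈(x : ℝ) ^ u⌉₊ ≤ p := Nat.ceil_le.2 h3
      omega
    · have h3 : (p : ℝ) ≤ (x : ℝ) ^ w := by
        rw [← elw] at h2
        exact (Real.log_le_log_iff hp0 (by positivity)).1 h2
      rw [hN]
      exact Nat.le_floor h3
  refine (Finset.sum_le_sum_of_subset_of_nonneg hsub fun p _ _ => by positivity).trans ?_
  rw [hM] at hc1 hc2
  rw [← hN] at hf1 hf2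
  push_cast at hc1 hc2
  have hM2 : 2 ≤ M := by
    have : (2 : ℝ) < M := by linarith
    have h2 : 2 < M := by exact_mod_cast this
    omega
  have hMN : M ≤ N := by
    have : (M : ℝ) < N + 1 := by linarith
    have h2 : M < N + 1 := by exact_mod_cast this
    omega
  have hmain := (abs_le.1 (h M N hM2 hMN)).2
  have hM0 : (0 : ℝ) < M := by exact_mod_cast (by omega : 0 < M)
  have hN0 : (0 : ℝ) < N := by exact_mod_cast (by omega : 0 < N)
  have hlog2 : Real.log 2 ≤ 1 := by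
    rw [Real.log_le_iff_le_exp (by norm_num)]
    have := Real.add_one_le_exp (1 : ℝ)
    linarith
  have m1 : u * Real.log x - 1 ≤ Real.log M := by
    have h1 : (x : ℝ) ^ u ≤ 2 * M := by linarith
    have h2 := Real.log_le_log (by linarith) h1
    rw [elu, Real.log_mul (by norm_num) hM0.ne'] at h2
    linarith
  have n2 : Real.log N ≤ w * Real.log x := by
    rw [← elw]
    exact Real.log_le_log hN0 hf1
  have hlM : 0 < Real.log M := by linarith
  have hlN : 0 < Real.log N := Real.log_pos (by exact_mod_cast (by omega : 1 < N))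
  have k1 : Real.log (Real.log N) ≤ Real.log (w * Real.log x) := Real.log_le_log hlN n2
  have k2 : Real.log (u * Real.log x) - Real.log (Real.log M) ≤ 1 / Real.log M := by
    have h1 := Real.log_le_sub_one_of_pos (show 0 < (u * Real.log x) / Real.log M by positivity)
    rw [Real.log_div (by positivity) hlM.ne'] at h1
    refine h1.trans ?_
    rw [div_sub_one hlM.ne']
    exact div_le_div_of_nonneg_right (by linarith) hlM.le
  have e1 : Real.log (w * Real.log x) - Real.log (u * Real.log x) = Real.log (w / u) := by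
    rw [Real.log_mul hw0.ne' hlx.ne', Real.log_mul hu0.ne' hlx.ne', Real.log_div hw0.ne' hu0.ne']
    ring
  have k3 : Real.log (w / u) ≤ Real.log (v / u) :=
    Real.log_le_log (by positivity) (div_le_div_of_nonneg_right hwv hu0.le)
  have k4 : (1 + C) / Real.log M ≤ δ := by
    rw [div_le_iff₀ hlM]
    have h1 : (1 + C) / δ ≤ Real.log M := by nlinarith
    rw [div_le_iff₀ hδ] at h1
    linarith
  have k5 : (1 + C) / Real.log M = 1 / Real.log M + C * (Real.log M)⁻¹ := by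
    rw [add_div, div_eq_mul_inv C]
  linarith

theorem log_pade (u : ℝ) (hu : 0 ≤ u) : Real.log (1 + u) ≤ u * (6 + u) / (6 + 4 * u) := by
  have hd : ∀ t : ℝ, 0 ≤ t → HasDerivAt
      (fun t : ℝ => t * (6 + t) / (6 + 4 * t) - Real.log (1 + t))
      (((6 + 2 * t) * (6 + 4 * t) - (t * (6 + t)) * 4) / (6 + 4 * t) ^ 2 - 1 / (1 + t)) t := by
    intro t ht
    have h1 : HasDerivAt (fun t : ℝ => t * (6 + t)) (6 + 2 * t) t := by
      have := (hasDerivAt_id t).mul ((hasDerivAt_id t).const_add 6)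
      refine this.congr_deriv ?_
      simp only [id]
      ring
    have h2 : HasDerivAt (fun t : ℝ => 6 + 4 * t) 4 t := by
      have := ((hasDerivAt_id t).const_mul 4).const_add 6
      refine this.congr_deriv ?_
      ring
    have h3 : HasDerivAt (fun t : ℝ => 1 + t) 1 t := (hasDerivAt_id t).const_add 1
    have h4 := h1.div h2 (by positivity)
    have h5 := h3.log (by positivity)
    exact h4.sub h5
  have hmono : MonotoneOn (fun t : ℝ => t * (6 + t) / (6 + 4 * t) - Real.log (1 + t))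
      (Set.Ici 0) := by
    apply monotoneOn_of_deriv_nonneg (convex_Ici 0)
    · intro t ht
      exact (hd t ht).continuousAt.continuousWithinAt
    · intro t ht
      rw [interior_Ici] at ht
      exact (hd t (le_of_lt ht)).differentiableAt.differentiableWithinAt
    · intro t ht
      rw [interior_Ici] at ht
      have ht0 : (0 : ℝ) < t := ht
      rw [(hd t ht0.le).deriv]
      have h1 : ((6 + 2 * t) * (6 + 4 * t) - (t * (6 + t)) * 4) / (6 + 4 * t) ^ 2 - 1 / (1 + t) =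
          4 * t ^ 3 / ((6 + 4 * t) ^ 2 * (1 + t)) := by
        have h2 : (6 + 4 * t) ≠ 0 := by positivity
        have h3 : (1 + t) ≠ 0 := by positivity
        field_simp
        ring
      rw [h1]
      positivity
  have h := hmono (Set.mem_Ici.2 le_rfl) (Set.mem_Ici.2 hu) hu
  simp only [zero_mul, zero_div, add_zero, Real.log_one, sub_zero] at h
  linarith

end Pool.Agent.HS
end

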