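import Pool.Agent.Work.GBM.C01
import Pool.Agent.Work.Shared.PNT.Tauber

section
/-! # Module VarC: the prime number theorem for `psi` -/

namespace Pool.Agent.HL

open Finset Pool.Agent.BV
open scoped ArithmeticFunction.vonMangoldt

theorem varC_psi_eq (y : ℕ) : psi y = Chebyshev.psi (y : ℝ) := by
  unfold psi Chebyshev.psi
  rw [Nat.floor_natCast]
  apply sum_congr _ (fun _ _ => rfl)
  ext n
  simp
  omega

theorem psi_pnt (A : ℕ) : ∃ C : ℝ, 0 < C ∧ ∀ y : ℕ, 2 ≤ y →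
    |psi y - y| ≤ C * y / (Real.log y) ^ A := by
  obtain ⟨C, hC, h⟩ := Pool.Agent.Work.Shared.PNT.psi_sub_self_le (A : ℝ)
  refine ⟨C, hC, fun y hy => ?_⟩
  have h1 := h (y : ℝ) (by exact_mod_cast hy)
  rw [Real.rpow_natCast] at h1
  rw [varC_psi_eq]
  exact h1

end Pool.Agent.HL
end

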