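import Pool.Agent.Work.GBM.C01

section
/-! # Module Sing: lower bound for the truncated singular series for most `m`

Let `P` be the set of primes `p ≤ Q` not dividing `q`, and for a finite set of primes `W ⊆ P` let `s = ∏ W`.
For `(s, q) = 1`, `p ∣ q m ↔ p ∣ m` for the primes `p ∣ s`. With `g p = if p ∣ m then (p-1) else -1`:
`∑_{W ⊆ P} ∏_{p ∈ W} g p/(p-1)² = ∏_{p ∈ P} (1 + g p/(p-1)²)` (`Finset.prod_one_add`), the sum over the `W` with
`∏ W ≤ Q` is `Sg q Q m` (squarefree integers `≤ Q` coprime to `q`), so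
`Sg q Q m ≥ ∏_{p ∈ P} (1 + g p/(p-1)²) - tail`, `tail = ∑_{W, ∏ W > Q} ∏_{p ∈ W} |g p|/(p-1)²`.
Product: factors with `p ∣ m` are `≥ 1` (for `p = 2 ∣ m`, `q` odd: `= 2`), the others are `1 - 1/(p-1)²`, `p ≥ 3`
(if `q` is odd then `m` is even); `∏_{p ≥ 3} ≥ 1/2` (`DivSum_half` with the integers `p - 1 ≥ 2`); and
`q/φ(q) ≥ 2` for even `q`. So `(q/φ(q)) * product ≥ 1`.
Tail: `∑_{m ≤ M} ∏_{p ∈ W} |g p| ≤ M 2^{|W|}` (`∏ |g p| ≤ ∏ (1 + p 1[p ∣ m])`, expanded), so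
`∑_{m ≤ M} tail ≤ M ∑_{∏ W > Q} ∏_{p∈W} 2/(p-1)² ≤ M Q^(-1/2) ∏_{p ∈ P} (1 + 2 √p/(p-1)²) ≤ C M/√Q`. Markov, with
threshold `tail * (q/φ(q)) > 1/5`, `q/φ(q) ≤ 2 (1 + log q)` (`ratio_le`). -/

namespace Pool.Agent.HL

open Finset Pool.Agent.BV
open scoped ArithmeticFunction.vonMangoldt ArithmeticFunction.Moebius

namespace Sing

noncomputable section

/-- the primes `p ≤ Q` not dividing `q` -/
def PP (q Q : ℕ) : Finset ℕ := (Icc 1 Q).filter (fun p => p.Prime ∧ ¬ p ∣ q)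

/-- local factor of the Ramanujan sum -/
def gp (n p : ℕ) : ℝ := if p ∣ n then (p : ℝ) - 1 else -1

/-- local factor of the singular series -/
def G (n p : ℕ) : ℝ := gp n p / ((p : ℝ) - 1) ^ 2

theorem prime_of_mem {q Q p : ℕ} (h : p ∈ PP q Q) : p.Prime := (mem_filter.1 h).2.1

theorem sqfree_prod (W : Finset ℕ) (h : ∀ p ∈ W, p.Prime) : Squarefree (∏ p ∈ W, p) := by
  refine Finset.squarefree_prod_of_pairwise_isCoprime ?_ fun p hp =>
    (h p hp).prime.irreducible.squarefree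
  intro p hp p' hp' hne
  simp only [Function.onFun]
  rw [← Nat.coprime_iff_isRelPrime]
  exact (Nat.coprime_primes (h p hp) (h p' hp')).2 hne

theorem totient_sqfree (s : ℕ) (hs : Squarefree s) :
    (s.totient : ℝ) = ∏ p ∈ s.primeFactors, ((p : ℝ) - 1) := by
  have h1 := Nat.totient_mul_prod_primeFactors s
  rw [Nat.prod_primeFactors_of_squarefree hs, mul_comm] at h1
  have h2 := Nat.eq_of_mul_eq_mul_left (Nat.pos_of_ne_zero hs.ne_zero) h1
  rw [h2]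
  push_cast
  refine prod_congr rfl fun p hp => ?_
  rw [Nat.cast_sub (Nat.prime_of_mem_primeFactors hp).one_lt.le, Nat.cast_one]

theorem term_eq (s n : ℕ) (hs : Squarefree s) :
    ((μ s : ℤ) : ℝ) ^ 2 / (s.totient : ℝ) ^ 2 * (ram s n).re = ∏ p ∈ s.primeFactors, G n p := by
  have h1 : (ram s n).re = ∏ p ∈ s.primeFactors, gp n p := by
    rw [ram_sqfree s n hs]
    have : ∏ p ∈ s.primeFactors, (if p ∣ n then (p : ℂ) - 1 else -1) =
        ((∏ p ∈ s.primeFactors, gp n p : ℝ) : ℂ) := by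
      push_cast
      refine prod_congr rfl fun p _ => ?_
      unfold gp
      split_ifs <;> simp
    rw [this, Complex.ofReal_re]
  have h2 : ((μ s : ℤ) : ℝ) ^ 2 = 1 := by
    have := ArithmeticFunction.moebius_sq_eq_one_of_squarefree hs
    exact_mod_cast this
  rw [h1, h2, totient_sqfree s hs, ← prod_pow, div_mul_eq_mul_div, one_mul, ← prod_div_distrib]
  rfl

theorem Sg_eq (q Q m : ℕ) :
    Sg q Q m = ∑ W ∈ (PP q Q).powerset.filter (fun W => ∏ p ∈ W, p ≤ Q), ∏ p ∈ W, G (q * m) p := by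
  unfold Sg
  have h1 : ∑ s ∈ (Icc 1 Q).filter (fun s => s.Coprime q),
      ((μ s : ℤ) : ℝ) ^ 2 / (s.totient : ℝ) ^ 2 * (ram s (q * m)).re =
      ∑ s ∈ ((Icc 1 Q).filter (fun s => s.Coprime q)).filter (fun s => Squarefree s),
      ((μ s : ℤ) : ℝ) ^ 2 / (s.totient : ℝ) ^ 2 * (ram s (q * m)).re := by
    symm
    refine sum_subset (filter_subset _ _) ?_
    intro s hs hs'
    have : ¬ Squarefree s := fun h => hs' (mem_filter.2 ⟨hs, h⟩)
    rw [ArithmeticFunction.moebius_eq_zero_of_not_squarefree this]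
    simp
  rw [h1]
  refine sum_nbij' (fun s => s.primeFactors) (fun W => ∏ p ∈ W, p) ?_ ?_ ?_ ?_ ?_
  · intro s hs
    rw [mem_filter, mem_filter, mem_Icc] at hs
    obtain ⟨⟨⟨h1, h2⟩, h3⟩, h4⟩ := hs
    rw [mem_filter, mem_powerset]
    refine ⟨?_, by rw [Nat.prod_primeFactors_of_squarefree h4]; exact h2⟩
    intro p hp
    have hpp := Nat.prime_of_mem_primeFactors hp
    have hps := Nat.dvd_of_mem_primeFactors hp
    rw [PP, mem_filter, mem_Icc]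
    refine ⟨⟨hpp.one_lt.le, (Nat.le_of_dvd h1 hps).trans h2⟩, hpp, ?_⟩
    intro hpq
    have := Nat.dvd_gcd hps hpq
    rw [Nat.Coprime] at h3
    rw [h3] at this
    exact hpp.one_lt.ne' (Nat.dvd_one.1 this)
  · intro W hW
    rw [mem_filter, mem_powerset] at hW
    have hp : ∀ p ∈ W, p.Prime := fun p h => prime_of_mem (hW.1 h)
    rw [mem_filter, mem_filter, mem_Icc]
    refine ⟨⟨⟨?_, hW.2⟩, ?_⟩, sqfree_prod W hp⟩
    · exact prod_pos fun p h => (hp p h).pos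
    · refine Nat.Coprime.prod_left fun p h => ?_
      exact (Nat.Prime.coprime_iff_not_dvd (hp p h)).2 (mem_filter.1 (hW.1 h)).2.2
  · intro s hs
    exact Nat.prod_primeFactors_of_squarefree (mem_filter.1 hs).2
  · intro W hW
    rw [mem_filter, mem_powerset] at hW
    exact Nat.primeFactors_prod fun p h => prime_of_mem (hW.1 h)
  · intro s hs
    exact term_eq s (q * m) (mem_filter.1 hs).2

/-- the tail -/
def T (q Q m : ℕ) : ℝ :=
  ∑ W ∈ (PP q Q).powerset.filter (fun W => ¬ ∏ p ∈ W, p ≤ Q), ∏ p ∈ W, |G (q * m) p|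

theorem Sg_ge (q Q m : ℕ) : ∏ p ∈ PP q Q, (1 + G (q * m) p) - T q Q m ≤ Sg q Q m := by
  rw [prod_one_add, ← sum_filter_add_sum_filter_not _ (fun W => ∏ p ∈ W, p ≤ Q), ← Sg_eq]
  have : ∑ W ∈ (PP q Q).powerset.filter (fun W => ¬ ∏ p ∈ W, p ≤ Q), ∏ p ∈ W, G (q * m) p ≤
      T q Q m := by
    unfold T
    refine sum_le_sum fun W _ => ?_
    rw [← abs_prod]
    exact le_abs_self _
  linarith

theorem T_nonneg (q Q m : ℕ) : 0 ≤ T q Q m :=
  sum_nonneg fun _ _ => prod_nonneg fun _ _ => abs_nonneg _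

theorem mult_le (s M : ℕ) :
    ∑ m ∈ Icc 1 M, (if s ∣ m then (s : ℝ) else 0) ≤ M := by
  rw [← sum_filter, sum_const, nsmul_eq_mul]
  have h1 : (Icc 1 M).filter (fun m => s ∣ m) = (Ioc 0 M).filter (fun m => s ∣ m) := by
    congr 1
  rw [h1, Nat.Ioc_filter_dvd_card_eq_div]
  exact_mod_cast Nat.div_mul_le_self M s

theorem gp_abs_le {q Q p : ℕ} (hp : p ∈ PP q Q) (m : ℕ) :
    |gp (q * m) p| ≤ 1 + (if p ∣ m then (p : ℝ) else 0) := by
  have hpp := prime_of_mem hp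
  have hpq := (mem_filter.1 hp).2.2
  have h1 : (1 : ℝ) ≤ p := by exact_mod_cast hpp.one_lt.le
  have h2 : p ∣ q * m ↔ p ∣ m := by
    rw [hpp.dvd_mul]
    tauto
  unfold gp
  by_cases h : p ∣ m
  · rw [if_pos (h2.2 h), if_pos h, abs_of_nonneg (by linarith)]
    linarith
  · rw [if_neg (fun h' => h (h2.1 h')), if_neg h]
    simp

theorem prod_gp_le {q Q : ℕ} (W : Finset ℕ) (hW : W ⊆ PP q Q) (M : ℕ) :
    ∑ m ∈ Icc 1 M, ∏ p ∈ W, |gp (q * m) p| ≤ M * 2 ^ W.card := by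
  have h1 : ∀ m : ℕ, ∏ p ∈ W, |gp (q * m) p| ≤
      ∑ V ∈ W.powerset, (if (∏ p ∈ V, p) ∣ m then ((∏ p ∈ V, p : ℕ) : ℝ) else 0) := by
    intro m
    have h2 : ∏ p ∈ W, |gp (q * m) p| ≤ ∏ p ∈ W, (1 + (if p ∣ m then (p : ℝ) else 0)) :=
      prod_le_prod (fun _ _ => abs_nonneg _) fun p hp => gp_abs_le (hW hp) m
    refine h2.trans ?_
    rw [prod_one_add]
    refine sum_le_sum fun V hV => ?_
    rw [mem_powerset] at hV
    by_cases h : ∀ p ∈ V, p ∣ m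
    · have h3 : (∏ p ∈ V, p) ∣ m :=
        prod_primes_dvd m (fun p hp => (prime_of_mem (hW (hV hp))).prime) h
      rw [if_pos h3]
      push_cast
      refine le_of_eq (prod_congr rfl fun p hp => ?_)
      rw [if_pos (h p hp)]
    · push Not at h
      obtain ⟨p, hp, hpm⟩ := h
      rw [prod_eq_zero hp (by rw [if_neg hpm])]
      split_ifs <;> positivity
  calc ∑ m ∈ Icc 1 M, ∏ p ∈ W, |gp (q * m) p|
      ≤ ∑ m ∈ Icc 1 M, ∑ V ∈ W.powerset,
          (if (∏ p ∈ V, p) ∣ m then ((∏ p ∈ V, p : ℕ) : ℝ) else 0) :=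
        sum_le_sum fun m _ => h1 m
    _ = ∑ V ∈ W.powerset, ∑ m ∈ Icc 1 M,
          (if (∏ p ∈ V, p) ∣ m then ((∏ p ∈ V, p : ℕ) : ℝ) else 0) := sum_comm
    _ ≤ ∑ V ∈ W.powerset, (M : ℝ) := sum_le_sum fun V _ => mult_le _ M
    _ = M * 2 ^ W.card := by
        rw [sum_const, card_powerset, nsmul_eq_mul]
        push_cast
        ring

/-- the constant -/
def C1 : ℝ := Real.exp (∑' n : ℕ, 8 * (1 / (n : ℝ) ^ (3 / 2 : ℝ)))

theorem loc_le {p : ℕ} (hp : p.Prime) :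
    2 * √(p : ℝ) / ((p : ℝ) - 1) ^ 2 ≤ 8 * (1 / (p : ℝ) ^ (3 / 2 : ℝ)) := by
  have h2 : (2 : ℝ) ≤ p := by exact_mod_cast hp.two_le
  have hp0 : (0 : ℝ) < p := by linarith
  have h3 : (p : ℝ) ^ 2 / 4 ≤ ((p : ℝ) - 1) ^ 2 := by nlinarith
  have h4 : (p : ℝ) ^ (3 / 2 : ℝ) = p * √(p : ℝ) := by
    rw [Real.sqrt_eq_rpow, show (3 / 2 : ℝ) = 1 + 1 / 2 by norm_num, Real.rpow_add hp0,
      Real.rpow_one]
  have hs : 0 < √(p : ℝ) := Real.sqrt_pos.2 hp0
  have hss : √(p : ℝ) * √(p : ℝ) = p := Real.mul_self_sqrt hp0.le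
  rw [h4]
  calc 2 * √(p : ℝ) / ((p : ℝ) - 1) ^ 2 ≤ 2 * √(p : ℝ) / ((p : ℝ) ^ 2 / 4) := by
        apply div_le_div_of_nonneg_left (by positivity) (by positivity) h3
    _ = 8 * (1 / (p * √(p : ℝ))) := by
        have : (p : ℝ) ^ 2 = p * (√(p : ℝ) * √(p : ℝ)) := by rw [hss]; ring
        rw [this]
        field_simp
        ring

theorem prod_loc_le (q Q : ℕ) :
    ∏ p ∈ PP q Q, (1 + 2 * √(p : ℝ) / ((p : ℝ) - 1) ^ 2) ≤ C1 := by
  have hsum : Summable (fun n : ℕ => 8 * (1 / (n : ℝ) ^ (3 / 2 : ℝ))) :=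
    (Real.summable_one_div_nat_rpow.2 (by norm_num)).mul_left 8
  calc ∏ p ∈ PP q Q, (1 + 2 * √(p : ℝ) / ((p : ℝ) - 1) ^ 2)
      ≤ ∏ p ∈ PP q Q, Real.exp (8 * (1 / (p : ℝ) ^ (3 / 2 : ℝ))) := by
        refine prod_le_prod (fun p _ => by positivity) fun p hp => ?_
        have h1 := loc_le (prime_of_mem hp)
        have h2 := Real.add_one_le_exp (8 * (1 / (p : ℝ) ^ (3 / 2 : ℝ)))
        linarith
    _ = Real.exp (∑ p ∈ PP q Q, 8 * (1 / (p : ℝ) ^ (3 / 2 : ℝ))) := by rw [Real.exp_sum]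
    _ ≤ C1 := by
        unfold C1
        rw [Real.exp_le_exp]
        exact hsum.sum_le_tsum _ fun n _ => by positivity

theorem sum_T_le (q Q M : ℕ) (hQ : 1 ≤ Q) :
    ∑ m ∈ Icc 1 M, T q Q m ≤ C1 * M / √(Q : ℝ) := by
  have hQ0 : (0 : ℝ) < Q := by exact_mod_cast hQ
  have hsQ : 0 < √(Q : ℝ) := Real.sqrt_pos.2 hQ0
  unfold T
  rw [sum_comm]
  have h1 : ∀ W ∈ (PP q Q).powerset.filter (fun W => ¬ ∏ p ∈ W, p ≤ Q),
      ∑ m ∈ Icc 1 M, ∏ p ∈ W, |G (q * m) p| ≤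
        (M / √(Q : ℝ)) * ∏ p ∈ W, (2 * √(p : ℝ) / ((p : ℝ) - 1) ^ 2) := by
    intro W hW
    rw [mem_filter, mem_powerset] at hW
    obtain ⟨hW1, hW2⟩ := hW
    have h2 : ∀ m, ∏ p ∈ W, |G (q * m) p| =
        (∏ p ∈ W, (1 / ((p : ℝ) - 1) ^ 2)) * ∏ p ∈ W, |gp (q * m) p| := by
      intro m
      rw [← prod_mul_distrib]
      refine prod_congr rfl fun p _ => ?_
      unfold G
      rw [abs_div, abs_of_nonneg (sq_nonneg ((p : ℝ) - 1))]
      ring
    simp only [h2]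
    rw [← mul_sum]
    have h3 := prod_gp_le W hW1 M
    have h4 : (0 : ℝ) ≤ ∏ p ∈ W, (1 / ((p : ℝ) - 1) ^ 2) := prod_nonneg fun _ _ => by positivity
    have h5 : √(Q : ℝ) ≤ ∏ p ∈ W, √(p : ℝ) := by
      have h6 : (Q : ℝ) ≤ ((∏ p ∈ W, p : ℕ) : ℝ) := by
        exact_mod_cast (not_le.1 hW2).le
      have h7 := Real.sqrt_le_sqrt h6
      rw [Nat.cast_prod, Real.sqrt_prod _ (fun p _ => Nat.cast_nonneg p)] at h7
      exact h7
    have h8 : ∏ p ∈ W, (2 * √(p : ℝ) / ((p : ℝ) - 1) ^ 2) =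
        (∏ p ∈ W, (1 / ((p : ℝ) - 1) ^ 2)) * (2 ^ W.card * ∏ p ∈ W, √(p : ℝ)) := by
      rw [← prod_const, ← prod_mul_distrib, ← prod_mul_distrib]
      refine prod_congr rfl fun p _ => ?_
      ring
    rw [h8]
    calc (∏ p ∈ W, (1 / ((p : ℝ) - 1) ^ 2)) * ∑ m ∈ Icc 1 M, ∏ p ∈ W, |gp (q * m) p|
        ≤ (∏ p ∈ W, (1 / ((p : ℝ) - 1) ^ 2)) * (M * 2 ^ W.card) :=
          mul_le_mul_of_nonneg_left h3 h4
      _ = (∏ p ∈ W, (1 / ((p : ℝ) - 1) ^ 2)) * (M * 2 ^ W.card) * (√(Q : ℝ) / √(Q : ℝ)) := by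
          rw [div_self hsQ.ne', mul_one]
      _ ≤ (∏ p ∈ W, (1 / ((p : ℝ) - 1) ^ 2)) * (M * 2 ^ W.card) *
            ((∏ p ∈ W, √(p : ℝ)) / √(Q : ℝ)) := by
          gcongr
      _ = _ := by ring
  calc ∑ W ∈ (PP q Q).powerset.filter (fun W => ¬ ∏ p ∈ W, p ≤ Q),
        ∑ m ∈ Icc 1 M, ∏ p ∈ W, |G (q * m) p|
      ≤ ∑ W ∈ (PP q Q).powerset.filter (fun W => ¬ ∏ p ∈ W, p ≤ Q),
        (M / √(Q : ℝ)) * ∏ p ∈ W, (2 * √(p : ℝ) / ((p : ℝ) - 1) ^ 2) := sum_le_sum h1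
    _ ≤ ∑ W ∈ (PP q Q).powerset,
        (M / √(Q : ℝ)) * ∏ p ∈ W, (2 * √(p : ℝ) / ((p : ℝ) - 1) ^ 2) := by
        refine sum_le_sum_of_subset_of_nonneg (filter_subset _ _) fun W _ _ => ?_
        exact mul_nonneg (by positivity) (prod_nonneg fun _ _ => by positivity)
    _ = (M / √(Q : ℝ)) * ∏ p ∈ PP q Q, (1 + 2 * √(p : ℝ) / ((p : ℝ) - 1) ^ 2) := by
        rw [← mul_sum, prod_one_add]
    _ ≤ (M / √(Q : ℝ)) * C1 := mul_le_mul_of_nonneg_left (prod_loc_le q Q) (by positivity)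
    _ = C1 * M / √(Q : ℝ) := by ring

theorem G_ge {n p : ℕ} (hp : p.Prime) : 1 - ((((p - 1 : ℕ) : ℝ)) ^ 2)⁻¹ ≤ 1 + G n p := by
  have h2 : (2 : ℝ) ≤ p := by exact_mod_cast hp.two_le
  have h1 : (((p - 1 : ℕ) : ℝ)) = (p : ℝ) - 1 := by
    rw [Nat.cast_sub hp.one_lt.le, Nat.cast_one]
  rw [h1]
  unfold G gp
  have h3 : 0 < ((p : ℝ) - 1) ^ 2 := by nlinarith
  have h4 : 0 ≤ (((p : ℝ) - 1) ^ 2)⁻¹ := (inv_pos.2 h3).le
  split_ifs with h
  · have : 0 ≤ ((p : ℝ) - 1) / ((p : ℝ) - 1) ^ 2 := div_nonneg (by linarith) h3.le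
    linarith
  · rw [neg_div, one_div]
    linarith

theorem prod_odd_ge (n : ℕ) (W : Finset ℕ) (hW : ∀ p ∈ W, p.Prime ∧ p ≠ 2) :
    (1 / 2 : ℝ) ≤ ∏ p ∈ W, (1 + G n p) := by
  have h1 := DivSum_half (W.image (fun p => p - 1)) (by
    intro k hk
    obtain ⟨p, hp, rfl⟩ := mem_image.1 hk
    have := (hW p hp).1.two_le
    have := (hW p hp).2
    omega)
  rw [prod_image (by
    intro a ha b hb hab
    have h2 := (hW a ha).1.two_le
    have h3 := (hW b hb).1.two_le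
    simp only at hab
    omega)] at h1
  refine h1.trans (prod_le_prod ?_ fun p hp => G_ge (hW p hp).1)
  intro p hp
  have h2 := (hW p hp).1.two_le
  have h3 : (1 : ℝ) ≤ ((p - 1 : ℕ) : ℝ) := by exact_mod_cast (by omega : 1 ≤ p - 1)
  have h4 : (1 : ℝ) ≤ (((p - 1 : ℕ) : ℝ)) ^ 2 := by nlinarith
  have := inv_le_one_of_one_le₀ h4
  linarith

theorem two_totient_le (q : ℕ) (hq : 1 ≤ q) (h : Even q) : 2 * q.totient ≤ q := by
  induction q using Nat.strong_induction_on with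
  | _ q ih =>
    obtain ⟨k, hk⟩ := h
    have hk' : q = 2 * k := by omega
    have hk0 : 0 < k := by omega
    subst hk'
    by_cases hke : Even k
    · rw [Nat.totient_two_mul_of_even hke]
      have := ih k (by omega) hk0 hke
      omega
    · rw [Nat.totient_two_mul_of_odd (Nat.not_even_iff_odd.1 hke)]
      have := Nat.totient_le k
      omega

theorem totient_even_le (q : ℕ) (hq : 1 ≤ q) (h : Even q) : (2 : ℝ) ≤ (q : ℝ) / q.totient := by
  have hφ : 0 < q.totient := Nat.totient_pos.2 hq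
  rw [le_div_iff₀ (by exact_mod_cast hφ)]
  exact_mod_cast two_totient_le q hq h

theorem main_ge (q Q m : ℕ) (hq : 1 ≤ q) (hm : Even (q * m)) :
    1 ≤ (q : ℝ) / q.totient * ∏ p ∈ PP q Q, (1 + G (q * m) p) := by
  have hφ : 0 < q.totient := Nat.totient_pos.2 hq
  have h0 : (1 : ℝ) ≤ (q : ℝ) / q.totient := by
    rw [le_div_iff₀ (by exact_mod_cast hφ), one_mul]
    exact_mod_cast Nat.totient_le q
  by_cases hqe : Even q
  · have h1 := totient_even_le q hq hqe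
    have h2 := prod_odd_ge (q * m) (PP q Q) (by
      intro p hp
      refine ⟨prime_of_mem hp, ?_⟩
      rintro rfl
      exact (mem_filter.1 hp).2.2 hqe.two_dvd)
    calc (1 : ℝ) = 2 * (1 / 2) := by norm_num
      _ ≤ _ := mul_le_mul h1 h2 (by norm_num) (by linarith)
  · have hqm : 2 ∣ q * m := hm.two_dvd
    have hq2 : ¬ 2 ∣ q := fun h => hqe (even_iff_two_dvd.2 h)
    by_cases hQ : 2 ≤ Q
    · have h2 : 2 ∈ PP q Q := by
        rw [PP, mem_filter, mem_Icc]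
        exact ⟨⟨by norm_num, hQ⟩, Nat.prime_two, hq2⟩
      rw [← mul_prod_erase _ _ h2]
      have h3 := prod_odd_ge (q * m) ((PP q Q).erase 2) (by
        intro p hp
        exact ⟨prime_of_mem (mem_of_mem_erase hp), ne_of_mem_erase hp⟩)
      have h4 : 1 + G (q * m) 2 = 2 := by
        unfold G gp
        rw [if_pos hqm]
        norm_num
      rw [h4]
      have h5 : (1 : ℝ) ≤ 2 * ∏ p ∈ (PP q Q).erase 2, (1 + G (q * m) p) := by linarith
      calc (1 : ℝ) = 1 * 1 := by norm_num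
        _ ≤ _ := mul_le_mul h0 h5 (by norm_num) (by linarith)
    · have h2 : PP q Q = ∅ := by
        rw [PP, filter_eq_empty_iff]
        intro p hp hpp
        have := hpp.1.two_le
        have := (mem_Icc.1 hp).2
        omega
      rw [h2, prod_empty, mul_one]
      exact h0

end

end Sing

open Sing in
theorem sing : ∃ C : ℝ, 0 < C ∧ ∀ q Q M : ℕ, 1 ≤ q → 1 ≤ Q →
    (((Icc 1 M).filter (fun m => Even (q * m) ∧ (q : ℝ) / q.totient * Sg q Q m < 4 / 5)).card : ℝ) ≤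
      C * M * (1 + Real.log q) / Real.sqrt Q := by
  refine ⟨10 * C1, by unfold C1; positivity, ?_⟩
  intro q Q M hq hQ
  have hφ : 0 < q.totient := Nat.totient_pos.2 hq
  have hφ' : (0 : ℝ) < q.totient := by exact_mod_cast hφ
  have hq0 : (0 : ℝ) < q := by exact_mod_cast hq
  have hr0 : 0 < (q : ℝ) / q.totient := div_pos hq0 hφ'
  have hr := ratio_le q hq
  have hT := sum_T_le q Q M hQ
  have hTn : 0 ≤ ∑ m ∈ Icc 1 M, T q Q m := sum_nonneg fun m _ => T_nonneg q Q m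
  have h1 : (((Icc 1 M).filter (fun m => Even (q * m) ∧
      (q : ℝ) / q.totient * Sg q Q m < 4 / 5)).card : ℝ) ≤
      ∑ m ∈ Icc 1 M, 5 * ((q : ℝ) / q.totient) * T q Q m := by
    rw [card_eq_sum_ones, Nat.cast_sum]
    calc ∑ m ∈ (Icc 1 M).filter (fun m => Even (q * m) ∧
          (q : ℝ) / q.totient * Sg q Q m < 4 / 5), ((1 : ℕ) : ℝ)
        ≤ ∑ m ∈ (Icc 1 M).filter (fun m => Even (q * m) ∧
          (q : ℝ) / q.totient * Sg q Q m < 4 / 5), 5 * ((q : ℝ) / q.totient) * T q Q m := by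
          refine sum_le_sum fun m hm => ?_
          rw [mem_filter] at hm
          obtain ⟨_, hm1, hm2⟩ := hm
          have h2 := main_ge q Q m hq hm1
          have h3 := mul_le_mul_of_nonneg_left (Sg_ge q Q m) hr0.le
          rw [Nat.cast_one]
          rw [mul_sub] at h3
          linarith
      _ ≤ _ := by
          refine sum_le_sum_of_subset_of_nonneg (filter_subset _ _) fun m _ _ => ?_
          have := T_nonneg q Q m
          positivity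
  refine h1.trans ?_
  rw [← mul_sum]
  have hsQ : 0 ≤ √(Q : ℝ) := Real.sqrt_nonneg _
  have hlog : 0 ≤ Real.log q := Real.log_nonneg (by exact_mod_cast hq)
  have hC : 0 ≤ C1 * M / √(Q : ℝ) := hTn.trans hT
  calc 5 * ((q : ℝ) / q.totient) * ∑ m ∈ Icc 1 M, T q Q m
      ≤ 5 * (2 * (1 + Real.log q)) * (C1 * M / √(Q : ℝ)) := by
        gcongr
    _ = 10 * C1 * M * (1 + Real.log q) / √(Q : ℝ) := by ring

end Pool.Agent.HL
end

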