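import Pool.Agent.Work.BV.SW
import Pool.Agent.Work.GBM.C01
import Pool.Agent.Work.GBM.C02
import Pool.Agent.Work.GBM.C12
import Pool.Agent.Work.GBM.C15
import Pool.Agent.Work.GBM.C16
import Pool.Agent.Work.GBM.C17
import Pool.Agent.Work.GBM.C19

section
/-! # Module TLMain: the main term

`sw_exp`: `∑_{k ≤ y} Λ(k) e(k b/s) = y μ(s)/φ(s) + O(x/(log x)^B)` for `(b,s) = 1`, `s ≤ (log x)^B₁`, `y ≤ x`: classes mod `s` (`psiA`, `psiA_parseval_real` (VarA) or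
characters directly), `siegel_walfisz` for the non-principal characters mod `s` (`psiC_prim'`), `psi_pnt`, `coprime_defect`; `∑_{c coprime} e(c b/s) = μ(s)`
(Ramanujan sum `ram s b`; in HL/Ram).
`tl_main`: `cv (v TM) (FL q) (q m) = ∑_{n₁ + n₂ = q m} v(n₁) TM(n₁) FL(n₂)`, with `n = q m`: `(n₁,q) = 1` iff `(n₂,q) = 1`;
`TM(n - n₂) = (q/φ(q)) ∑_{s ≤ Q, (s,q)=1} (μ(s)/φ(s)) ∑_b e(n b/s) e(-n₂ b/s)`; Abel summation with the weight `v(n - n₂)` of bounded variation and `sw_exp` (with `-b`; `FL q` and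
`Λ` differ by `coprime_defect q x`): main `(q/φ(q)) ∑ μ(s)²/φ(s)² ram(s,n) ∑_{n₁ < n} v(n₁)`; error `≤ (q/φ(q)) ∑_s ∑_b (1/φ(s)) 2 V x/(log x)^B₀`. -/

namespace Pool.Agent.HS

open Finset Pool.Agent.BV Pool.Agent.HL Filter
open scoped ArithmeticFunction.vonMangoldt ArithmeticFunction.Moebius

namespace TLMain

/-- the Ramanujan sum at an argument prime to the modulus -/
lemma ram_coprime (s n : ℕ) (hs : 1 ≤ s) (h : Nat.gcd s n = 1) :
    ram s n = ((μ s : ℤ) : ℂ) := by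
  rw [ram_eq s n hs, h]
  simp

/-- reduction of the frequency mod `s` -/
lemma e_red (s : ℕ) (hs : 1 ≤ s) (b : ℤ) (k : ℕ) :
    e (k * ((b : ℝ) / s)) = e (k * ((((b % s).toNat : ℕ) : ℝ) / s)) := by
  have hs0 : (s : ℝ) ≠ 0 := by positivity
  have h0 : 0 ≤ b % s := Int.emod_nonneg b (by omega)
  have h1 : (((b % s).toNat : ℕ) : ℝ) = ((b % s : ℤ) : ℝ) := by
    have := congrArg (Int.cast : ℤ → ℝ) (Int.toNat_of_nonneg h0)
    rw [← this]
    exact (Int.cast_natCast _).symm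
  have h2 : (b : ℝ) = s * ((b / s : ℤ) : ℝ) + ((b % s : ℤ) : ℝ) := by
    have := Int.mul_ediv_add_emod b s
    exact_mod_cast this.symm
  rw [h1]
  have h3 : (k : ℝ) * ((b : ℝ) / s) =
      k * (((b % s : ℤ) : ℝ) / s) - ((-(k * (b / s)) : ℤ) : ℝ) := by
    calc (k : ℝ) * ((b : ℝ) / s) = k * ((s * ((b / s : ℤ) : ℝ) + ((b % s : ℤ) : ℝ)) / s) := by
          rw [← h2]
      _ = _ := by
          push_cast
          field_simp
          ring
  rw [h3, add_e_sub_int]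

/-- reduction of the argument mod `s` -/
lemma e_mod (s : ℕ) (hs : 1 ≤ s) (a k : ℕ) :
    e (k * ((a : ℝ) / s)) = e (((k % s : ℕ) : ℝ) * ((a : ℝ) / s)) := by
  have hs0 : (s : ℝ) ≠ 0 := by positivity
  have h2 : (k : ℝ) = s * ((k / s : ℕ) : ℝ) + ((k % s : ℕ) : ℝ) := by
    exact_mod_cast (Nat.div_add_mod k s).symm
  obtain ⟨t, ht⟩ : ∃ t : ℕ, t = k / s := ⟨_, rfl⟩
  rw [← ht] at h2
  have h3 : (k : ℝ) * ((a : ℝ) / s) =
      ((k % s : ℕ) : ℝ) * ((a : ℝ) / s) - ((-((t : ℤ) * a) : ℤ) : ℝ) := by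
    calc (k : ℝ) * ((a : ℝ) / s) =
          (s * (t : ℝ) + ((k % s : ℕ) : ℝ)) * ((a : ℝ) / s) := by rw [← h2]
      _ = _ := by
          push_cast
          field_simp
          ring
  rw [h3, add_e_sub_int]

/-- splitting into the residue classes mod `s` -/
lemma class_split (s : ℕ) (hs : 1 ≤ s) (a y : ℕ) :
    ∑ k ∈ (Icc 1 y).filter (fun k => k.Coprime s), ((Λ k : ℝ) : ℂ) * e (k * ((a : ℝ) / s)) =
      ∑ c ∈ (range s).filter (fun c => c.Coprime s),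
        e (c * ((a : ℝ) / s)) * (psiA s c y : ℂ) := by
  rw [← sum_fiberwise_of_maps_to (g := fun k => k % s)
    (t := (range s).filter (fun c => c.Coprime s))]
  · refine sum_congr rfl fun c hc => ?_
    obtain ⟨hc1, hc2⟩ := mem_filter.1 hc
    have hc3 : c < s := mem_range.1 hc1
    have h1 : ((Icc 1 y).filter (fun k => k.Coprime s)).filter (fun k => k % s = c) =
        (Icc 1 y).filter (fun k => k ≡ c [MOD s]) := by
      ext k
      simp only [mem_filter]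
      constructor
      · rintro ⟨⟨h, _⟩, h2⟩
        refine ⟨h, ?_⟩
        unfold Nat.ModEq
        rw [h2, Nat.mod_eq_of_lt hc3]
      · rintro ⟨h, h2⟩
        have h3 : k % s = c := by
          have := h2
          unfold Nat.ModEq at this
          rwa [Nat.mod_eq_of_lt hc3] at this
        refine ⟨⟨h, ?_⟩, h3⟩
        have h4 : (k % s).Coprime s := by rw [h3]; exact hc2
        unfold Nat.Coprime at h4 ⊢
        rw [← h4, ← Nat.gcd_rec, Nat.gcd_comm]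
    rw [h1]
    unfold psiA
    push_cast
    rw [mul_sum]
    refine sum_congr rfl fun k hk => ?_
    obtain ⟨hk1, hk2⟩ := mem_filter.1 hk
    have h3 : k % s = c := by
      have := hk2
      unfold Nat.ModEq at this
      rwa [Nat.mod_eq_of_lt hc3] at this
    rw [e_mod s hs a k, h3, mul_comm]
  · intro k hk
    obtain ⟨hk1, hk2⟩ := mem_filter.1 hk
    refine mem_filter.2 ⟨mem_range.2 (Nat.mod_lt _ (by omega)), ?_⟩
    unfold Nat.Coprime at hk2 ⊢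
    rw [← Nat.gcd_rec, Nat.gcd_comm]
    exact hk2

/-- the primes in the coprime classes, twisted by an additive character -/
lemma class_bound (s : ℕ) [NeZero s] (a y : ℕ) (ha : Nat.gcd s a = 1) :
    ‖∑ k ∈ (Icc 1 y).filter (fun k => k.Coprime s), ((Λ k : ℝ) : ℂ) * e (k * ((a : ℝ) / s)) -
      psiC (1 : DirichletCharacter ℂ s) y / (s.totient : ℂ) * ((μ s : ℤ) : ℂ)‖ ^ 2 ≤
      ∑ χ ∈ (univ : Finset (DirichletCharacter ℂ s)).erase 1, ‖psiC χ y‖ ^ 2 := by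
  have hs : 1 ≤ s := Nat.pos_of_ne_zero (NeZero.ne s)
  have hφ : 0 < s.totient := Nat.totient_pos.2 hs
  have hφR : (0 : ℝ) < s.totient := by exact_mod_cast hφ
  set P : ℂ := psiC (1 : DirichletCharacter ℂ s) y / (s.totient : ℂ) with hP
  have h1 : ((μ s : ℤ) : ℂ) = ∑ c ∈ (range s).filter (fun c => c.Coprime s),
      e (c * ((a : ℝ) / s)) := by
    rw [← ram_coprime s a hs ha]
    unfold ram
    refine sum_congr rfl fun c _ => ?_
    congr 1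
    ring
  have h2 : ∑ k ∈ (Icc 1 y).filter (fun k => k.Coprime s), ((Λ k : ℝ) : ℂ) * e (k * ((a : ℝ) / s)) -
      P * ((μ s : ℤ) : ℂ) = ∑ c ∈ (range s).filter (fun c => c.Coprime s),
        e (c * ((a : ℝ) / s)) * ((psiA s c y : ℂ) - P) := by
    rw [class_split s hs a y, h1, mul_sum, ← sum_sub_distrib]
    refine sum_congr rfl fun c _ => ?_
    ring
  rw [h2]
  have hcard : (((range s).filter (fun c => c.Coprime s)).card : ℝ) = s.totient := by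
    rw [Nat.totient_eq_card_coprime]
    congr 2
    refine Finset.filter_congr fun b _ => ?_
    exact Nat.coprime_comm
  have h3 := psiA_parseval s y
  calc ‖∑ c ∈ (range s).filter (fun c => c.Coprime s),
        e (c * ((a : ℝ) / s)) * ((psiA s c y : ℂ) - P)‖ ^ 2
      ≤ (∑ c ∈ (range s).filter (fun c => c.Coprime s), ‖(psiA s c y : ℂ) - P‖) ^ 2 := by
        gcongr
        refine (norm_sum_le _ _).trans (sum_le_sum fun c _ => ?_)
        rw [norm_mul, add_norm_e, one_mul]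
    _ ≤ ((range s).filter (fun c => c.Coprime s)).card *
        ∑ c ∈ (range s).filter (fun c => c.Coprime s), ‖(psiA s c y : ℂ) - P‖ ^ 2 :=
        sq_sum_le_card_mul_sum_sq
    _ = s.totient * (1 / (s.totient : ℝ) *
        ∑ χ ∈ (univ : Finset (DirichletCharacter ℂ s)).erase 1, ‖psiC χ y‖ ^ 2) := by
        rw [hcard, ← h3]
    _ = _ := by
        field_simp

/-- trivial bound -/
lemma triv (x y : ℕ) (hy : y ≤ x) :
    ∑ k ∈ Icc 1 y, (Λ k : ℝ) ≤ y * Real.log x := by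
  have h1 : ∀ k ∈ Icc 1 y, (Λ k : ℝ) ≤ Real.log x := by
    intro k hk
    obtain ⟨hk1, hk2⟩ := mem_Icc.1 hk
    refine ArithmeticFunction.vonMangoldt_le_log.trans ?_
    apply Real.log_le_log (by exact_mod_cast hk1)
    exact_mod_cast hk2.trans hy
  calc ∑ k ∈ Icc 1 y, (Λ k : ℝ) ≤ ∑ k ∈ Icc 1 y, Real.log x := sum_le_sum h1
    _ = y * Real.log x := by
      rw [sum_const, Nat.card_Icc, nsmul_eq_mul]
      simp

/-- Abel summation -/
lemma abel (w : ℕ → ℝ) (a : ℕ → ℂ) (N : ℕ) :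
    ∑ j ∈ Icc 1 N, ((w j : ℝ) : ℂ) * a j = ((w N : ℝ) : ℂ) * ∑ j ∈ Icc 1 N, a j +
      ∑ i ∈ Ico 1 N, ((w i - w (i + 1) : ℝ) : ℂ) * ∑ j ∈ Icc 1 i, a j := by
  induction N with
  | zero => simp
  | succ N ih =>
    rw [sum_Icc_succ_top (by omega), sum_Icc_succ_top (by omega), ih]
    rcases Nat.eq_zero_or_pos N with h | h
    · subst h
      simp
    · rw [sum_Ico_succ_top h]
      push_cast
      ring

lemma abel_bound (N : ℕ) (w : ℕ → ℝ) (a : ℕ → ℂ) (δ V : ℝ) (hδ : 0 ≤ δ)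
    (hA : ∀ u, u ≤ N → ‖∑ j ∈ Icc 1 u, a j‖ ≤ δ) (hw : |w N| ≤ V)
    (hv : ∑ j ∈ Ico 1 N, |w j - w (j + 1)| ≤ V) :
    ‖∑ j ∈ Icc 1 N, ((w j : ℝ) : ℂ) * a j‖ ≤ 2 * V * δ := by
  rw [abel]
  have h1 : ‖((w N : ℝ) : ℂ) * ∑ j ∈ Icc 1 N, a j‖ ≤ V * δ := by
    rw [norm_mul, Complex.norm_real, Real.norm_eq_abs]
    have := hA N le_rfl
    have h0 : 0 ≤ |w N| := abs_nonneg _
    calc |w N| * ‖∑ j ∈ Icc 1 N, a j‖ ≤ |w N| * δ := by gcongr
      _ ≤ V * δ := by gcongr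
  have h2 : ‖∑ i ∈ Ico 1 N, ((w i - w (i + 1) : ℝ) : ℂ) * ∑ j ∈ Icc 1 i, a j‖ ≤ V * δ := by
    refine (norm_sum_le _ _).trans ?_
    calc ∑ i ∈ Ico 1 N, ‖((w i - w (i + 1) : ℝ) : ℂ) * ∑ j ∈ Icc 1 i, a j‖
        ≤ ∑ i ∈ Ico 1 N, |w i - w (i + 1)| * δ := by
          refine sum_le_sum fun i hi => ?_
          rw [norm_mul, Complex.norm_real, Real.norm_eq_abs]
          have := hA i (mem_Ico.1 hi).2.le
          gcongr
      _ = (∑ i ∈ Ico 1 N, |w i - w (i + 1)|) * δ := by rw [sum_mul]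
      _ ≤ V * δ := by gcongr
  calc _ ≤ _ := norm_add_le _ _
    _ ≤ V * δ + V * δ := add_le_add h1 h2
    _ = 2 * V * δ := by ring

/-- variation of the reversed weight -/
lemma var_rev (x n : ℕ) (V : ℝ) (v : ℕ → ℝ) (hv : BVar x V v) (hn : 1 ≤ n) (hnx : n ≤ x) :
    ∑ j ∈ Ico 1 (n - 1), |v (n - j) - v (n - (j + 1))| ≤ V := by
  have h1 : ∑ j ∈ Ico 1 (n - 1), |v (n - j) - v (n - (j + 1))| =
      ∑ j ∈ Ico 1 (n - 1), (fun i => |v (i + 1) - v i|) (n - 1 - j) := by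
    refine sum_congr rfl fun j hj => ?_
    obtain ⟨hj1, hj2⟩ := mem_Ico.1 hj
    simp only
    have h2 : n - 1 - j + 1 = n - j := by omega
    have h3 : n - (j + 1) = n - 1 - j := by omega
    rw [h2, h3]
  rw [h1, sum_Ico_reflect (fun i => |v (i + 1) - v i|) 1 (by omega)]
  refine le_trans ?_ hv.tv
  refine sum_le_sum_of_subset_of_nonneg ?_ (fun _ _ _ => abs_nonneg _)
  intro i hi
  obtain ⟨hi1, hi2⟩ := mem_Ico.1 hi
  exact mem_range.2 (by omega)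

/-- `FL q` and `Λ` differ little -/
lemma FL_diff (q x u : ℕ) (hq : 1 ≤ q) (hqx : q ≤ x) (hx : 3 ≤ x) (hu : u ≤ x) (g : ℕ → ℂ)
    (hg : ∀ j, ‖g j‖ ≤ 1) :
    ‖∑ j ∈ Icc 1 u, FL q j * g j - ∑ j ∈ Icc 1 u, ((Λ j : ℝ) : ℂ) * g j‖ ≤
      2 * (Real.log x) ^ 2 := by
  rw [← sum_sub_distrib]
  have h1 : ∑ j ∈ Icc 1 u, (FL q j * g j - ((Λ j : ℝ) : ℂ) * g j) =
      ∑ j ∈ (Icc 1 u).filter (fun j => ¬ j.Coprime q),
        (FL q j * g j - ((Λ j : ℝ) : ℂ) * g j) := by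
    symm
    apply sum_subset (filter_subset _ _)
    intro j hj hj'
    have h2 : j.Coprime q := by
      by_contra h
      exact hj' (mem_filter.2 ⟨hj, h⟩)
    rw [FL, if_pos h2, sub_self]
  rw [h1]
  refine (norm_sum_le _ _).trans ?_
  refine le_trans ?_ (coprime_defect q x hq hqx hx)
  calc ∑ j ∈ (Icc 1 u).filter (fun j => ¬ j.Coprime q), ‖FL q j * g j - ((Λ j : ℝ) : ℂ) * g j‖
      ≤ ∑ j ∈ (Icc 1 u).filter (fun j => ¬ j.Coprime q), (Λ j : ℝ) := by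
        refine sum_le_sum fun j hj => ?_
        rw [FL, if_neg (mem_filter.1 hj).2, zero_mul, zero_sub, norm_neg, norm_mul,
          Complex.norm_real, Real.norm_of_nonneg ArithmeticFunction.vonMangoldt_nonneg]
        exact mul_le_of_le_one_right ArithmeticFunction.vonMangoldt_nonneg (hg j)
    _ ≤ ∑ j ∈ (Icc 1 x).filter (fun j => ¬ j.Coprime q), (Λ j : ℝ) := by
        refine sum_le_sum_of_subset_of_nonneg ?_ (fun _ _ _ =>
          ArithmeticFunction.vonMangoldt_nonneg)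
        exact filter_subset_filter _ (Icc_subset_Icc_right hu)

/-- the convolution as a sum over the frequencies -/
lemma cv_expand (q Q n : ℕ) (v : ℕ → ℝ) (hqn : q ∣ n) :
    cv (fun n => ((v n : ℝ) : ℂ) * TM q Q n) (FL q) n = ((q : ℂ) / (q.totient : ℂ)) *
      ∑ s ∈ (Icc 1 Q).filter (fun s => s.Coprime q), ((μ s : ℤ) : ℂ) / (s.totient : ℂ) *
        ∑ b ∈ (range s).filter (fun b => b.Coprime s), e (n * ((b : ℝ) / s)) *
          ∑ j ∈ Icc 1 (n - 1), ((v (n - j) : ℝ) : ℂ) * (FL q j * e (j * (((-(b : ℤ) : ℤ) : ℝ) / s))) := by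
  have h0 : cv (fun n => ((v n : ℝ) : ℂ) * TM q Q n) (FL q) n =
      ∑ j ∈ Icc 1 (n - 1), ((v (n - j) : ℝ) : ℂ) * TM q Q (n - j) * FL q j := by
    unfold cv
    have h1 := sum_Ico_reflect (fun k => ((v k : ℝ) : ℂ) * TM q Q k * FL q (n - k)) 1
      (m := n) (n := n) (by omega)
    have h2 : n + 1 - n = 1 := by omega
    have h3 : n + 1 - 1 = n := by omega
    rw [h2, h3] at h1
    rw [← h1]
    have h4 : Ico 1 n = Icc 1 (n - 1) := by
      ext i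
      simp only [mem_Ico, mem_Icc]
      omega
    rw [h4]
    refine sum_congr rfl fun j hj => ?_
    obtain ⟨hj1, hj2⟩ := mem_Icc.1 hj
    have h5 : n - (n - j) = j := by omega
    rw [h5]
  rw [h0, mul_sum]
  have h6 : ∀ j ∈ Icc 1 (n - 1), ((v (n - j) : ℝ) : ℂ) * TM q Q (n - j) * FL q j =
      ∑ s ∈ (Icc 1 Q).filter (fun s => s.Coprime q), ∑ b ∈ (range s).filter (fun b => b.Coprime s),
        ((q : ℂ) / (q.totient : ℂ)) * (((μ s : ℤ) : ℂ) / (s.totient : ℂ)) *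
        (e (n * ((b : ℝ) / s)) * (((v (n - j) : ℝ) : ℂ) *
          (FL q j * e (j * (((-(b : ℤ) : ℤ) : ℝ) / s))))) := by
    intro j hj
    obtain ⟨hj1, hj2⟩ := mem_Icc.1 hj
    by_cases hc : j.Coprime q
    · have hc' : (n - j).Coprime q := by
        obtain ⟨m, rfl⟩ := hqn
        have h7 : q * m = (q * m - j) + j := by omega
        unfold Nat.Coprime at hc ⊢
        have h8 : Nat.gcd (q * m - j) q ∣ j := by
          have h9 : Nat.gcd (q * m - j) q ∣ q * m := (Nat.gcd_dvd_right _ _).mul_right m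
          have h10 : Nat.gcd (q * m - j) q ∣ q * m - j := Nat.gcd_dvd_left _ _
          generalize Nat.gcd (q * m - j) q = d at h9 h10 ⊢
          rw [h7] at h9
          exact (Nat.dvd_add_right h10).1 h9
        have h11 : Nat.gcd (q * m - j) q ∣ Nat.gcd j q := Nat.dvd_gcd h8 (Nat.gcd_dvd_right _ _)
        rw [hc] at h11
        exact Nat.dvd_one.1 h11
      rw [TM, if_pos hc', mul_sum, mul_sum, sum_mul]
      refine sum_congr rfl fun s _ => ?_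
      unfold ram
      rw [mul_sum, mul_sum, mul_sum, sum_mul]
      refine sum_congr rfl fun b _ => ?_
      have h12 : e (((n - j : ℕ) : ℝ) * ((b : ℝ) / s)) =
          e (n * ((b : ℝ) / s)) * e (j * (((-(b : ℤ) : ℤ) : ℝ) / s)) := by
        rw [← add_e_add]
        congr 1
        rw [Nat.cast_sub (by omega)]
        push_cast
        ring
      rw [h12]
      ring
    · have h13 : FL q j = 0 := by rw [FL, if_neg hc]
      rw [h13, mul_zero]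
      symm
      refine sum_eq_zero fun s _ => sum_eq_zero fun b _ => ?_
      ring
  rw [sum_congr rfl h6, sum_comm]
  refine sum_congr rfl fun s _ => ?_
  rw [sum_comm, ← mul_assoc, mul_sum]
  refine sum_congr rfl fun b _ => ?_
  rw [← mul_sum, ← mul_sum]

/-- one frequency -/
lemma one_freq (x q n s b : ℕ) (v : ℕ → ℝ) (V δ : ℝ) (hv : BVar x V v) (hn : 1 ≤ n) (hnx : n ≤ x)
    (hq : 1 ≤ q) (hqx : q ≤ x) (hx : 3 ≤ x) (hδ : 0 ≤ δ)
    (h : ∀ y : ℕ, y ≤ x → ‖∑ k ∈ Icc 1 y, ((Λ k : ℝ) : ℂ) * e (k * (((-(b : ℤ) : ℤ) : ℝ) / s)) -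
      (y : ℂ) * ((μ s : ℤ) : ℂ) / (s.totient : ℂ)‖ ≤ δ) :
    ‖∑ j ∈ Icc 1 (n - 1), ((v (n - j) : ℝ) : ℂ) * (FL q j * e (j * (((-(b : ℤ) : ℤ) : ℝ) / s))) -
      ((μ s : ℤ) : ℂ) / (s.totient : ℂ) * ∑ j ∈ Icc 1 (n - 1), ((v (n - j) : ℝ) : ℂ)‖ ≤
      2 * V * (2 * (Real.log x) ^ 2 + δ) := by
  have h1 : ∑ j ∈ Icc 1 (n - 1), ((v (n - j) : ℝ) : ℂ) *
      (FL q j * e (j * (((-(b : ℤ) : ℤ) : ℝ) / s))) -
      ((μ s : ℤ) : ℂ) / (s.totient : ℂ) * ∑ j ∈ Icc 1 (n - 1), ((v (n - j) : ℝ) : ℂ) =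
      ∑ j ∈ Icc 1 (n - 1), (((fun i => v (n - i)) j : ℝ) : ℂ) *
        (FL q j * e (j * (((-(b : ℤ) : ℤ) : ℝ) / s)) - ((μ s : ℤ) : ℂ) / (s.totient : ℂ)) := by
    rw [mul_sum, ← sum_sub_distrib]
    refine sum_congr rfl fun j _ => ?_
    ring
  rw [h1]
  refine abel_bound (n - 1) (fun i => v (n - i)) _ _ V (by positivity) ?_ (hv.bd _)
    (var_rev x n V v hv hn hnx)
  intro u hu
  have hux : u ≤ x := by omega
  have h2 := FL_diff q x u hq hqx hx hux (fun j => e (j * (((-(b : ℤ) : ℤ) : ℝ) / s)))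
    (fun j => (add_norm_e _).le)
  have h3 := h u hux
  have h4 : ∑ j ∈ Icc 1 u, (FL q j * e (j * (((-(b : ℤ) : ℤ) : ℝ) / s)) -
      ((μ s : ℤ) : ℂ) / (s.totient : ℂ)) =
      (∑ j ∈ Icc 1 u, FL q j * e (j * (((-(b : ℤ) : ℤ) : ℝ) / s)) -
        ∑ j ∈ Icc 1 u, ((Λ j : ℝ) : ℂ) * e (j * (((-(b : ℤ) : ℤ) : ℝ) / s))) +
      (∑ k ∈ Icc 1 u, ((Λ k : ℝ) : ℂ) * e (k * (((-(b : ℤ) : ℤ) : ℝ) / s)) -
      (u : ℂ) * ((μ s : ℤ) : ℂ) / (s.totient : ℂ)) := by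
    rw [sum_sub_distrib, sum_const, Nat.card_Icc, nsmul_eq_mul]
    simp only [Nat.add_sub_cancel]
    ring
  rw [h4]
  exact (norm_add_le _ _).trans (add_le_add h2 h3)

end TLMain

open TLMain

theorem sw_exp (B₁ B : ℕ) : ∃ x₁ : ℕ, ∀ x : ℕ, x₁ ≤ x → ∀ (s : ℕ) (b : ℤ), 1 ≤ s →
    (s : ℝ) ≤ (Real.log x) ^ B₁ → IsCoprime b (s : ℤ) → ∀ y : ℕ, y ≤ x →
    ‖∑ k ∈ Icc 1 y, ((Λ k : ℝ) : ℂ) * e (k * ((b : ℝ) / s)) -
      (y : ℂ) * ((μ s : ℤ) : ℂ) / (s.totient : ℂ)‖ ≤ (x : ℝ) / (Real.log x) ^ B := by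
  obtain ⟨x₂, hsmall⟩ := var_small B₁ (2 * B + 2)
  obtain ⟨C, hC, hPNT⟩ := psi_pnt (B + 2)
  have hev : ∀ᶠ x : ℕ in atTop, ∀ (s : ℕ) (b : ℤ), 1 ≤ s →
    (s : ℝ) ≤ (Real.log x) ^ B₁ → IsCoprime b (s : ℤ) → ∀ y : ℕ, y ≤ x →
    ‖∑ k ∈ Icc 1 y, ((Λ k : ℝ) : ℂ) * e (k * ((b : ℝ) / s)) -
      (y : ℂ) * ((μ s : ℤ) : ℂ) / (s.totient : ℂ)‖ ≤ (x : ℝ) / (Real.log x) ^ B := by
    filter_upwards [eventually_ge_atTop x₂, eventually_ge_atTop 16, evt_log 3,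
      evt_log (C * 2 ^ (B + 2)), evt_pow 4 (B + 3) 1 (by norm_num),
      evt_pow 1 B₁ (1 / 2) (by norm_num),
      evt_pow 1 (2 * B + 2) (1 / 2) (by norm_num)] with x hx2 hx16' hL3 hLC hP1 hP2 hP3
    intro s b hs hsL hb y hy
    set L : ℝ := Real.log x with hL
    have hx16 : (16 : ℝ) ≤ x := by exact_mod_cast hx16'
    have hx0 : (0 : ℝ) < x := by linarith
    have hL0 : 0 < L := by linarith
    rw [Real.rpow_one] at hP1
    rw [one_mul] at hP2 hP3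
    have hs0 : NeZero s := ⟨by omega⟩
    have hφ : 0 < s.totient := Nat.totient_pos.2 hs
    have hφR : (1 : ℝ) ≤ s.totient := by exact_mod_cast hφ
    have hμ : ‖((μ s : ℤ) : ℂ)‖ ≤ 1 := by
      rw [Complex.norm_intCast]
      exact_mod_cast ArithmeticFunction.abs_moebius_le_one
    by_cases hxy : (x : ℝ) / L ^ (2 * B + 2) ≤ y
    · -- the main case
      have hsq : (x : ℝ) ^ (1 / 2 : ℝ) * (x : ℝ) ^ (1 / 2 : ℝ) = x := by
        rw [← Real.rpow_add hx0]; norm_num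
      have hs0' : 0 < (x : ℝ) ^ (1 / 2 : ℝ) := by positivity
      have hu1 : (x : ℝ) ^ (1 / 2 : ℝ) ≤ y := by
        refine le_trans ?_ hxy
        rw [le_div_iff₀ (by positivity)]
        calc (x : ℝ) ^ (1 / 2 : ℝ) * L ^ (2 * B + 2) ≤
              (x : ℝ) ^ (1 / 2 : ℝ) * (x : ℝ) ^ (1 / 2 : ℝ) := by gcongr
          _ = x := hsq
      have hu4 : (4 : ℝ) ≤ (x : ℝ) ^ (1 / 2 : ℝ) := by
        have h16 : (16 : ℝ) ^ (1 / 2 : ℝ) = 4 := by
          rw [show (16 : ℝ) = 4 ^ (2 : ℝ) by norm_num, ← Real.rpow_mul (by norm_num)]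
          norm_num
        rw [← h16]
        exact Real.rpow_le_rpow (by norm_num) hx16 (by norm_num)
      have hu3 : 3 ≤ y := by
        have : (3 : ℝ) ≤ y := by linarith
        exact_mod_cast this
      have hu0 : (0 : ℝ) < y := by linarith
      have hsy : s ≤ y := by exact_mod_cast (hsL.trans hP2).trans hu1
      have hsx : s ≤ x := hsy.trans hy
      have hlu : L / 2 ≤ Real.log y := by
        have h1 : Real.log ((x : ℝ) ^ (1 / 2 : ℝ)) = L / 2 := by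
          rw [Real.log_rpow hx0]; ring
        rw [← h1]
        exact Real.log_le_log hs0' hu1
      -- reduce the frequency
      set a : ℕ := (b % s).toNat with ha
      have hga : Nat.gcd s a = 1 := by
        have h0 : 0 ≤ b % s := Int.emod_nonneg b (by omega)
        have h1 : Int.gcd b s = 1 := Int.isCoprime_iff_gcd_eq_one.1 hb
        have h2 : Int.gcd (s : ℤ) (a : ℤ) = 1 := by
          rw [ha, Int.toNat_of_nonneg h0, ← h1, Int.gcd_comm (s : ℤ) (b % s)]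
          exact Int.gcd_emod b s
        rwa [Int.gcd_natCast_natCast] at h2
      have hred : ∀ k : ℕ, e (k * ((b : ℝ) / s)) = e (k * ((a : ℝ) / s)) :=
        fun k => e_red s hs b k
      simp only [hred]
      set P : ℂ := psiC (1 : DirichletCharacter ℂ s) y with hP
      have h1 := class_bound s a y hga
      have h2 := hsmall x hx2 s hsx y hy hxy (univ.erase 1)
        (fun χ hχ => (mem_erase.1 hχ).1) (fun χ _ => by
          have h3 : χ.conductor ≤ s := Nat.le_of_dvd hs χ.conductor_dvd_level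
          have h4 : (χ.conductor : ℝ) ≤ s := by exact_mod_cast h3
          exact h4.trans hsL)
      have h3 : ‖∑ k ∈ (Icc 1 y).filter (fun k => k.Coprime s),
          ((Λ k : ℝ) : ℂ) * e (k * ((a : ℝ) / s)) - P / (s.totient : ℂ) * ((μ s : ℤ) : ℂ)‖ ≤
          x / L ^ (B + 1) := by
        apply le_of_sq_le_sq _ (by positivity)
        refine (h1.trans h2).trans (le_of_eq ?_)
        rw [div_pow]
        congr 1
        ring
      -- the terms not coprime to `s`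
      have h4 : ‖∑ k ∈ Icc 1 y, ((Λ k : ℝ) : ℂ) * e (k * ((a : ℝ) / s)) -
          ∑ k ∈ (Icc 1 y).filter (fun k => k.Coprime s),
          ((Λ k : ℝ) : ℂ) * e (k * ((a : ℝ) / s))‖ ≤ 2 * L ^ 2 := by
        rw [← sum_filter_add_sum_filter_not (Icc 1 y) (fun k => k.Coprime s), add_sub_cancel_left]
        refine (norm_sum_le _ _).trans ?_
        refine le_trans ?_ (coprime_defect s x hs hsx (by omega))
        calc ∑ n ∈ (Icc 1 y).filter (fun n => ¬ n.Coprime s), ‖((Λ n : ℝ) : ℂ) *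
              e (n * ((a : ℝ) / s))‖
            = ∑ n ∈ (Icc 1 y).filter (fun n => ¬ n.Coprime s), (Λ n : ℝ) := by
              refine sum_congr rfl fun n _ => ?_
              rw [norm_mul, add_norm_e, mul_one, Complex.norm_real,
                Real.norm_of_nonneg ArithmeticFunction.vonMangoldt_nonneg]
          _ ≤ ∑ n ∈ (Icc 1 x).filter (fun n => ¬ n.Coprime s), (Λ n : ℝ) := by
              refine sum_le_sum_of_subset_of_nonneg ?_ (fun _ _ _ =>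
                ArithmeticFunction.vonMangoldt_nonneg)
              exact filter_subset_filter _ (Icc_subset_Icc_right hy)
      -- the main term
      have h5 : ‖P - y‖ ≤ 2 * L ^ 2 + x / L ^ (B + 1) := by
        have h6 := psiC_one s y hsy hu3
        have h7 := hPNT y (by omega)
        have h8 : ‖((psi y : ℝ) : ℂ) - y‖ ≤ x / L ^ (B + 1) := by
          have h9 : ((psi y : ℝ) : ℂ) - y = ((psi y - y : ℝ) : ℂ) := by push_cast; ring
          rw [h9, Complex.norm_real, Real.norm_eq_abs]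
          refine h7.trans ?_
          have h4 : (L / 2) ^ (B + 2) ≤ (Real.log y) ^ (B + 2) := by gcongr
          have h5 : (y : ℝ) ≤ x := by exact_mod_cast hy
          calc C * y / (Real.log y) ^ (B + 2) ≤ C * x / (L / 2) ^ (B + 2) := by gcongr
            _ = C * 2 ^ (B + 2) * x / L ^ (B + 2) := by
              rw [div_pow]
              field_simp
            _ ≤ L * x / L ^ (B + 2) := by gcongr
            _ = x / L ^ (B + 1) := by
              rw [pow_succ L (B + 1)]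
              field_simp
        have h10 : (Real.log y) ^ 2 ≤ L ^ 2 := by
          have h5 : (y : ℝ) ≤ x := by exact_mod_cast hy
          have h11 : 0 ≤ Real.log y := by linarith
          gcongr
          exact Real.log_le_log hu0 h5
        calc ‖P - y‖ = ‖(P - psi y) + (((psi y : ℝ) : ℂ) - y)‖ := by congr 1; ring
          _ ≤ ‖P - psi y‖ + ‖((psi y : ℝ) : ℂ) - y‖ := norm_add_le _ _
          _ ≤ 2 * (Real.log y) ^ 2 + x / L ^ (B + 1) := add_le_add h6 h8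
          _ ≤ 2 * L ^ 2 + x / L ^ (B + 1) := by linarith
      have h6 : ‖P / (s.totient : ℂ) * ((μ s : ℤ) : ℂ) -
          (y : ℂ) * ((μ s : ℤ) : ℂ) / (s.totient : ℂ)‖ ≤ 2 * L ^ 2 + x / L ^ (B + 1) := by
        have h7 : P / (s.totient : ℂ) * ((μ s : ℤ) : ℂ) -
          (y : ℂ) * ((μ s : ℤ) : ℂ) / (s.totient : ℂ) =
            (P - y) * (((μ s : ℤ) : ℂ) / (s.totient : ℂ)) := by ring
        rw [h7, norm_mul]
        have h8 : ‖((μ s : ℤ) : ℂ) / (s.totient : ℂ)‖ ≤ 1 := by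
          rw [norm_div, Complex.norm_natCast]
          rw [div_le_one (by linarith)]
          exact hμ.trans hφR
        calc ‖P - y‖ * ‖((μ s : ℤ) : ℂ) / (s.totient : ℂ)‖ ≤ ‖P - y‖ * 1 := by gcongr
          _ ≤ _ := by rw [mul_one]; exact h5
      have h7 : 4 * L ^ 2 ≤ x / L ^ (B + 1) := by
        rw [le_div_iff₀ (by positivity)]
        calc 4 * L ^ 2 * L ^ (B + 1) = 4 * L ^ (B + 3) := by ring
          _ ≤ x := hP1
      calc ‖∑ k ∈ Icc 1 y, ((Λ k : ℝ) : ℂ) * e (k * ((a : ℝ) / s)) -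
            (y : ℂ) * ((μ s : ℤ) : ℂ) / (s.totient : ℂ)‖
          = ‖(∑ k ∈ Icc 1 y, ((Λ k : ℝ) : ℂ) * e (k * ((a : ℝ) / s)) -
          ∑ k ∈ (Icc 1 y).filter (fun k => k.Coprime s),
          ((Λ k : ℝ) : ℂ) * e (k * ((a : ℝ) / s))) + (∑ k ∈ (Icc 1 y).filter
            (fun k => k.Coprime s), ((Λ k : ℝ) : ℂ) * e (k * ((a : ℝ) / s)) -
              P / (s.totient : ℂ) * ((μ s : ℤ) : ℂ)) + (P / (s.totient : ℂ) * ((μ s : ℤ) : ℂ) -
          (y : ℂ) * ((μ s : ℤ) : ℂ) / (s.totient : ℂ))‖ := by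
            congr 1; ring
        _ ≤ 2 * L ^ 2 + x / L ^ (B + 1) + (2 * L ^ 2 + x / L ^ (B + 1)) :=
            (norm_add₃_le).trans (add_le_add (add_le_add h4 h3) h6)
        _ = 4 * L ^ 2 + 2 * (x / L ^ (B + 1)) := by ring
        _ ≤ 3 * (x / L ^ (B + 1)) := by linarith
        _ ≤ L * (x / L ^ (B + 1)) := by gcongr
        _ = x / L ^ B := by
            rw [pow_succ L B]
            field_simp
    · -- the trivial case
      rw [not_le] at hxy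
      have h1 : ‖∑ k ∈ Icc 1 y, ((Λ k : ℝ) : ℂ) * e (k * ((b : ℝ) / s))‖ ≤ y * L := by
        refine (norm_sum_le _ _).trans ?_
        refine le_trans (le_of_eq ?_) (triv x y hy)
        refine sum_congr rfl fun n _ => ?_
        rw [norm_mul, add_norm_e, mul_one, Complex.norm_real,
          Real.norm_of_nonneg ArithmeticFunction.vonMangoldt_nonneg]
      have h2 : ‖(y : ℂ) * ((μ s : ℤ) : ℂ) / (s.totient : ℂ)‖ ≤ y := by
        rw [norm_div, norm_mul, Complex.norm_natCast, Complex.norm_natCast]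
        rw [div_le_iff₀ (by linarith)]
        have hy0 : (0 : ℝ) ≤ y := by positivity
        calc (y : ℝ) * ‖((μ s : ℤ) : ℂ)‖ ≤ y * 1 := by gcongr
          _ ≤ y * s.totient := by gcongr
      have h3 : (y : ℝ) ≤ x / L ^ (B + 2) := by
        refine hxy.le.trans ?_
        gcongr
        · linarith
        · omega
      calc _ ≤ ‖∑ k ∈ Icc 1 y, ((Λ k : ℝ) : ℂ) * e (k * ((b : ℝ) / s))‖ +
            ‖(y : ℂ) * ((μ s : ℤ) : ℂ) / (s.totient : ℂ)‖ := norm_sub_le _ _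
        _ ≤ y * L + y := add_le_add h1 h2
        _ = y * (L + 1) := by ring
        _ ≤ x / L ^ (B + 2) * (L ^ 2) := by
            gcongr
            nlinarith
        _ = x / L ^ B := by
            rw [pow_add L B 2]
            field_simp
  obtain ⟨x₀, hx₀⟩ := eventually_atTop.1 hev
  exact ⟨x₀, hx₀⟩

theorem tl_main (B₁ B : ℕ) (V : ℝ) (hV : 0 < V) : ∃ x₁ : ℕ, ∀ x : ℕ, x₁ ≤ x →
    ∀ (q Q m : ℕ) (v : ℕ → ℝ), 1 ≤ q → q ≤ x → 1 ≤ Q → (Q : ℝ) ≤ (Real.log x) ^ B₁ → BVar x V v →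
    1 ≤ m → q * m ≤ x →
    ‖cv (fun n => ((v n : ℝ) : ℂ) * TM q Q n) (FL q) (q * m) -
      (((q : ℝ) / q.totient * Sg q Q m * ∑ n ∈ Ico 1 (q * m), v n : ℝ) : ℂ)‖ ≤
      (x : ℝ) / (Real.log x) ^ B := by
  obtain ⟨x₂, hsw⟩ := sw_exp B₁ (B + B₁ + 3)
  have hev : ∀ᶠ x : ℕ in atTop,
    ∀ (q Q m : ℕ) (v : ℕ → ℝ), 1 ≤ q → q ≤ x → 1 ≤ Q → (Q : ℝ) ≤ (Real.log x) ^ B₁ → BVar x V v →
    1 ≤ m → q * m ≤ x →
    ‖cv (fun n => ((v n : ℝ) : ℂ) * TM q Q n) (FL q) (q * m) -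
      (((q : ℝ) / q.totient * Sg q Q m * ∑ n ∈ Ico 1 (q * m), v n : ℝ) : ℂ)‖ ≤
      (x : ℝ) / (Real.log x) ^ B := by
    filter_upwards [eventually_ge_atTop x₂, eventually_ge_atTop 3, evt_log 1,
      evt_log (16 * V), evt_pow 2 (B + B₁ + 5) 1 (by norm_num)] with x hx2 hx3 hL1 hLV hP1
    intro q Q m v hq hqx hQ hQL hv hm hqm
    set L : ℝ := Real.log x with hL
    have hL0 : 0 < L := by linarith
    have hx0 : (0 : ℝ) < x := by exact_mod_cast (by omega : 0 < x)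
    rw [Real.rpow_one] at hP1
    set n : ℕ := q * m with hn
    have hn1 : 1 ≤ n := Nat.mul_pos hq hm
    set δ : ℝ := x / L ^ (B + B₁ + 3) with hδ
    have hδ0 : 0 ≤ δ := by positivity
    set W : ℂ := ∑ j ∈ Icc 1 (n - 1), ((v (n - j) : ℝ) : ℂ) with hW
    have hWeq : W = ((∑ k ∈ Ico 1 n, v k : ℝ) : ℂ) := by
      have h1 := sum_Ico_reflect v 1 (m := n) (n := n) (by omega)
      have h2 : n + 1 - n = 1 := by omega
      have h3 : n + 1 - 1 = n := by omega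
      rw [h2, h3] at h1
      have h4 : Ico 1 n = Icc 1 (n - 1) := by
        ext i
        simp only [mem_Ico, mem_Icc]
        omega
      rw [← h1, h4, hW]
      push_cast
      rfl
    rw [cv_expand q Q n v (Dvd.intro m rfl)]
    -- the main term
    have hmain : (((q : ℝ) / q.totient * Sg q Q m * ∑ k ∈ Ico 1 n, v k : ℝ) : ℂ) =
        ((q : ℂ) / (q.totient : ℂ)) *
      ∑ s ∈ (Icc 1 Q).filter (fun s => s.Coprime q), ((μ s : ℤ) : ℂ) / (s.totient : ℂ) *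
        ∑ b ∈ (range s).filter (fun b => b.Coprime s), e (n * ((b : ℝ) / s)) *
          (((μ s : ℤ) : ℂ) / (s.totient : ℂ) * W) := by
      have h1 : ((Sg q Q m : ℝ) : ℂ) = ∑ s ∈ (Icc 1 Q).filter (fun s => s.Coprime q),
          ((μ s : ℤ) : ℂ) ^ 2 / (s.totient : ℂ) ^ 2 * ram s n := by
        unfold Sg
        push_cast
        refine sum_congr rfl fun s _ => ?_
        by_cases hsq : Squarefree s
        · have h2 : ram s n = ((ram s n).re : ℂ) := by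
            apply Complex.ext
            · simp
            · rw [ram_im s n hsq]
              simp
          rw [h2]
          simp only [Complex.ofReal_re, hn]
        · rw [ArithmeticFunction.moebius_eq_zero_of_not_squarefree hsq]
          simp
      rw [Complex.ofReal_mul, Complex.ofReal_mul, h1, ← hWeq]
      push_cast
      rw [mul_assoc, sum_mul]
      congr 1
      refine sum_congr rfl fun s _ => ?_
      rw [← sum_mul]
      unfold ram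
      ring
    rw [hmain, ← mul_sub, ← sum_sub_distrib]
    have hterm : ∀ s ∈ (Icc 1 Q).filter (fun s => s.Coprime q),
        ‖((μ s : ℤ) : ℂ) / (s.totient : ℂ) *
        ∑ b ∈ (range s).filter (fun b => b.Coprime s), e (n * ((b : ℝ) / s)) *
          ∑ j ∈ Icc 1 (n - 1), ((v (n - j) : ℝ) : ℂ) *
            (FL q j * e (j * (((-(b : ℤ) : ℤ) : ℝ) / s))) -
        ((μ s : ℤ) : ℂ) / (s.totient : ℂ) *
        ∑ b ∈ (range s).filter (fun b => b.Coprime s), e (n * ((b : ℝ) / s)) *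
          (((μ s : ℤ) : ℂ) / (s.totient : ℂ) * W)‖ ≤ 2 * V * (2 * L ^ 2 + δ) := by
      intro s hs
      obtain ⟨hs1, _⟩ := mem_filter.1 hs
      obtain ⟨hs2, hs3⟩ := mem_Icc.1 hs1
      have hφ : 0 < s.totient := Nat.totient_pos.2 hs2
      have hφR : (0 : ℝ) < s.totient := by exact_mod_cast hφ
      have hsL : (s : ℝ) ≤ L ^ B₁ := le_trans (by exact_mod_cast hs3) hQL
      have hμ : ‖((μ s : ℤ) : ℂ)‖ ≤ 1 := by
        rw [Complex.norm_intCast]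
        exact_mod_cast ArithmeticFunction.abs_moebius_le_one
      have hcard : (((range s).filter (fun c => c.Coprime s)).card : ℝ) = s.totient := by
        rw [Nat.totient_eq_card_coprime]
        congr 2
        refine Finset.filter_congr fun b _ => ?_
        exact Nat.coprime_comm
      rw [← mul_sub, ← sum_sub_distrib, norm_mul]
      have h1 : ‖((μ s : ℤ) : ℂ) / (s.totient : ℂ)‖ ≤ 1 / s.totient := by
        rw [norm_div, Complex.norm_natCast]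
        gcongr
      have h2 : ‖∑ b ∈ (range s).filter (fun b => b.Coprime s), (e (n * ((b : ℝ) / s)) *
          ∑ j ∈ Icc 1 (n - 1), ((v (n - j) : ℝ) : ℂ) *
            (FL q j * e (j * (((-(b : ℤ) : ℤ) : ℝ) / s))) - e (n * ((b : ℝ) / s)) *
          (((μ s : ℤ) : ℂ) / (s.totient : ℂ) * W))‖ ≤
          s.totient * (2 * V * (2 * L ^ 2 + δ)) := by
        refine (norm_sum_le _ _).trans ?_
        calc _ ≤ ∑ b ∈ (range s).filter (fun b => b.Coprime s), 2 * V * (2 * L ^ 2 + δ) := by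
              refine sum_le_sum fun b hb => ?_
              rw [← mul_sub, norm_mul, add_norm_e, one_mul]
              have hb2 : b.Coprime s := (mem_filter.1 hb).2
              have hcop : IsCoprime (-(b : ℤ)) (s : ℤ) :=
                (Nat.isCoprime_iff_coprime.2 hb2).neg_left
              exact one_freq x q n s b v V δ hv hn1 hqm hq hqx hx3 hδ0
                (fun y hy => hsw x hx2 s (-(b : ℤ)) hs2 hsL hcop y hy)
          _ = _ := by rw [sum_const, nsmul_eq_mul, hcard]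
      calc _ ≤ 1 / (s.totient : ℝ) * (s.totient * (2 * V * (2 * L ^ 2 + δ))) := by
            gcongr
        _ = _ := by field_simp
    have hφq : 0 < q.totient := Nat.totient_pos.2 hq
    have hratio : (q : ℝ) / q.totient ≤ 4 * L := by
      refine (ratio_le q hq).trans ?_
      have h1 : Real.log q ≤ L := by
        apply Real.log_le_log (by exact_mod_cast hq)
        exact_mod_cast hqx
      linarith
    rw [norm_mul]
    have hn2 : ‖(q : ℂ) / (q.totient : ℂ)‖ = (q : ℝ) / q.totient := by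
      rw [norm_div, Complex.norm_natCast, Complex.norm_natCast]
    rw [hn2]
    have hsum : ‖∑ s ∈ (Icc 1 Q).filter (fun s => s.Coprime q), (((μ s : ℤ) : ℂ) / (s.totient : ℂ) *
        ∑ b ∈ (range s).filter (fun b => b.Coprime s), e (n * ((b : ℝ) / s)) *
          ∑ j ∈ Icc 1 (n - 1), ((v (n - j) : ℝ) : ℂ) *
            (FL q j * e (j * (((-(b : ℤ) : ℤ) : ℝ) / s))) -
        ((μ s : ℤ) : ℂ) / (s.totient : ℂ) *
        ∑ b ∈ (range s).filter (fun b => b.Coprime s), e (n * ((b : ℝ) / s)) *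
          (((μ s : ℤ) : ℂ) / (s.totient : ℂ) * W))‖ ≤ L ^ B₁ * (2 * V * (2 * L ^ 2 + δ)) := by
      refine (norm_sum_le _ _).trans ((sum_le_sum hterm).trans ?_)
      rw [sum_const, nsmul_eq_mul]
      gcongr
      have h1 : (((Icc 1 Q).filter (fun s => s.Coprime q)).card : ℝ) ≤ Q := by
        have : ((Icc 1 Q).filter (fun s => s.Coprime q)).card ≤ (Icc 1 Q).card :=
          card_filter_le _ _
        rw [Nat.card_Icc] at this
        exact_mod_cast (by omega : ((Icc 1 Q).filter (fun s => s.Coprime q)).card ≤ Q)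
      exact h1.trans hQL
    have h2L : 2 * L ^ 2 ≤ δ := by
      rw [hδ, le_div_iff₀ (by positivity)]
      calc 2 * L ^ 2 * L ^ (B + B₁ + 3) = 2 * L ^ (B + B₁ + 5) := by ring
        _ ≤ x := hP1
    calc _ ≤ 4 * L * (L ^ B₁ * (2 * V * (2 * L ^ 2 + δ))) := by gcongr
      _ ≤ 4 * L * (L ^ B₁ * (2 * V * (δ + δ))) := by gcongr
      _ = 16 * V * (L ^ (B₁ + 1) * δ) := by ring
      _ ≤ L * (L ^ (B₁ + 1) * δ) := by gcongr
      _ = L ^ (B₁ + 2) * (x / L ^ (B + B₁ + 3)) := by rw [hδ]; ring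
      _ = x / L ^ (B + 1) := by
          have h1 : L ^ (B + B₁ + 3) = L ^ (B₁ + 2) * L ^ (B + 1) := by ring
          rw [h1]
          field_simp
      _ ≤ x / L ^ B := by
          gcongr
          omega
  obtain ⟨x₀, hx₀⟩ := eventually_atTop.1 hev
  exact ⟨x₀, hx₀⟩

end Pool.Agent.HS
end

section
/-! # Module W.Sum2: three prime factors (exact value of the limit .7207; the bound is .815)

`p < p'`, exponents `a ≤ b`. The region where the weight is not zero is covered by rectangles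
`[lo, hi] × [u, v]`; the sum over a rectangle is at most `(log (hi/lo) + δ) (log (v/u) + δ)` by `mer`.
(1) `a` in 30 cells of `[1/6, 5/12 + ε]`, `b ∈ [max(lo, 7/12 - ε - hi), 5/12 + ε]`;
(2) `a` in 10 cells of `[1/6, 1/4 + ε]`, `b ∈ [max(lo, 5/12 - ε - hi), 1/2 + ε - lo]`;
(3) `b` in 10 cells of `[1/2 - ε, 7/12 + ε]`, `a ∈ [1/6, 5/6 - lo]` (weight 2 each);
(4) `a` in 5 cells of `[1/6, 5/24]`, `b ∈ [max(lo, 19/50 - ε - hi), 5/12 - lo]`;
(5) `b` in 4 cells of `[7/12, 31/50 + ε]`, `a ∈ [1/6, 5/6 - lo]` (weight 1 each). Total .8056. -/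

namespace Pool.Agent.HS

open Finset

namespace Sum2

/-- the bound for a list of rectangles -/
lemma region {x : ℕ} {δ : ℝ} (hm : ∀ u v : ℝ, 1 / 6 ≤ u → u ≤ v →
    ∑ p ∈ PS x u v, (1 : ℝ) / p ≤ Real.log (v / u) + δ) (n : ℕ) (lo hi u v : ℕ → ℝ)
    (h : ∀ i < n, 1 / 6 ≤ lo i ∧ lo i ≤ hi i ∧ 1 / 6 ≤ u i ∧ u i ≤ v i) (T : Finset (ℕ × ℕ))
    (hT : ∀ q ∈ T, (q.1 ∈ Icc 1 x ∧ q.1.Prime) ∧ (q.2 ∈ Icc 1 x ∧ q.2.Prime) ∧
      ∃ i < n, (lo i ≤ ex x q.1 ∧ ex x q.1 ≤ hi i) ∧ u i ≤ ex x q.2 ∧ ex x q.2 ≤ v i) :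
    ∑ q ∈ T, (1 : ℝ) / (q.1 * q.2) ≤
      ∑ i ∈ range n, (Real.log (hi i / lo i) + δ) * (Real.log (v i / u i) + δ) := by
  classical
  set B : ℕ → Finset (ℕ × ℕ) := fun i => PS x (lo i) (hi i) ×ˢ PS x (u i) (v i) with hB
  have h1 : ∀ q ∈ T, (1 : ℝ) / (q.1 * q.2) ≤
      ∑ i ∈ range n, if q ∈ B i then (1 : ℝ) / (q.1 * q.2) else 0 := by
    intro q hq
    obtain ⟨⟨a1, a2⟩, ⟨b1, b2⟩, i, hi, ⟨c1, c2⟩, c3, c4⟩ := hT q hq
    have h2 : q ∈ B i := by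
      rw [hB, mem_product]
      unfold PS
      exact ⟨mem_filter.2 ⟨a1, a2, c1, c2⟩, mem_filter.2 ⟨b1, b2, c3, c4⟩⟩
    have h3 : (if q ∈ B i then (1 : ℝ) / (q.1 * q.2) else 0) ≤
        ∑ i ∈ range n, if q ∈ B i then (1 : ℝ) / (q.1 * q.2) else 0 :=
      single_le_sum (f := fun i => if q ∈ B i then (1 : ℝ) / (q.1 * q.2) else 0)
        (fun i _ => by positivity) (mem_range.2 hi)
    rwa [if_pos h2] at h3
  refine (sum_le_sum h1).trans ?_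
  rw [sum_comm]
  refine sum_le_sum fun i hi' => ?_
  obtain ⟨g1, g2, g3, g4⟩ := h i (mem_range.1 hi')
  have e1 := hm _ _ g1 g2
  have e2 := hm _ _ g3 g4
  have n1 : 0 ≤ ∑ p ∈ PS x (lo i) (hi i), (1 : ℝ) / p := sum_nonneg fun _ _ => by positivity
  have n2 : 0 ≤ ∑ p ∈ PS x (u i) (v i), (1 : ℝ) / p := sum_nonneg fun _ _ => by positivity
  calc ∑ q ∈ T, (if q ∈ B i then (1 : ℝ) / (q.1 * q.2) else 0)
      = ∑ q ∈ T.filter (fun q => q ∈ B i), (1 : ℝ) / (q.1 * q.2) := by rw [sum_filter]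
    _ ≤ ∑ q ∈ B i, (1 : ℝ) / (q.1 * q.2) :=
        sum_le_sum_of_subset_of_nonneg (fun q hq => (mem_filter.1 hq).2)
          (fun _ _ _ => by positivity)
    _ = (∑ p ∈ PS x (lo i) (hi i), (1 : ℝ) / p) * ∑ p ∈ PS x (u i) (v i), (1 : ℝ) / p := by
        rw [hB, sum_product, sum_mul_sum]
        refine sum_congr rfl fun p _ => sum_congr rfl fun p' _ => ?_
        rw [div_mul_div_comm, one_mul]
    _ ≤ _ := mul_le_mul e1 e2 n2 (n1.trans e1)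

/-- a uniform grid -/
lemma grid {s h a : ℝ} (hh : 0 < h) {n : ℕ} (hn : 1 ≤ n) (h1 : s ≤ a) (h2 : a ≤ s + n * h) :
    ∃ i < n, s + (i : ℝ) * h ≤ a ∧ a ≤ s + ((i : ℝ) + 1) * h := by
  have h0 : 0 ≤ (a - s) / h := div_nonneg (by linarith) hh.le
  rcases h2.eq_or_lt with h3 | h3
  · refine ⟨n - 1, by omega, ?_, ?_⟩
    · rw [h3]
      have : ((n - 1 : ℕ) : ℝ) ≤ n := by exact_mod_cast Nat.sub_le _ _
      nlinarith
    · rw [h3, Nat.cast_sub hn]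
      apply le_of_eq
      push_cast
      ring
  · refine ⟨⌊(a - s) / h⌋₊, ?_, ?_, ?_⟩
    · rw [Nat.floor_lt h0, div_lt_iff₀ hh]
      linarith
    · have := Nat.floor_le h0
      rw [le_div_iff₀ hh] at this
      linarith
    · have := (Nat.lt_floor_add_one ((a - s) / h)).le
      rw [div_le_iff₀ hh] at this
      linarith

/-- upper bound for the logarithm of a quotient -/
noncomputable def pd (r : ℝ) : ℝ := (r - 1) * (5 + r) / (2 + 4 * r)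

lemma log_le_pd {r : ℝ} (hr : 1 ≤ r) : Real.log r ≤ pd r := by
  have h := log_pade (r - 1) (by linarith)
  have e1 : 1 + (r - 1) = r := by ring
  rw [e1] at h
  refine h.trans (le_of_eq ?_)
  unfold pd
  congr 1 <;> ring

lemma pd_nonneg {r : ℝ} (hr : 1 ≤ r) : 0 ≤ pd r := (Real.log_nonneg hr).trans (log_le_pd hr)

lemma sum_pd {δ : ℝ} (hδ : 0 ≤ δ) (n : ℕ) (lo hi u v : ℕ → ℝ)
    (h : ∀ i < n, 1 / 6 ≤ lo i ∧ lo i ≤ hi i ∧ 1 / 6 ≤ u i ∧ u i ≤ v i) :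
    ∑ i ∈ range n, (Real.log (hi i / lo i) + δ) * (Real.log (v i / u i) + δ) ≤
      ∑ i ∈ range n, (pd (hi i / lo i) + δ) * (pd (v i / u i) + δ) := by
  refine sum_le_sum fun i hi' => ?_
  obtain ⟨g1, g2, g3, g4⟩ := h i (mem_range.1 hi')
  have r1 : 1 ≤ hi i / lo i := by rw [le_div_iff₀ (by linarith)]; linarith
  have r2 : 1 ≤ v i / u i := by rw [le_div_iff₀ (by linarith)]; linarith
  have a1 := log_le_pd r1
  have a2 := log_le_pd r2
  have b2 := Real.log_nonneg r2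
  have c1 := pd_nonneg r1
  refine mul_le_mul (by linarith) (by linarith) (by linarith) (by linarith)

/-! the rectangles -/

section cover

variable {κ a b : ℝ} (hκ' : 8 * κ ≤ 1 / 1000) (ha : 1 / 6 ≤ a) (hab : a ≤ b)
  (hs : a + b ≤ 5 / 6)

end cover

lemma kap_small : ∃ x₁ : ℕ, ∀ x : ℕ, x₁ ≤ x → 0 ≤ kap x ∧ 8 * kap x ≤ 1 / 1000 := by
  refine ⟨⌈Real.exp (8000 * Real.log 4)⌉₊, fun x hx => ?_⟩
  have h1 : Real.exp (8000 * Real.log 4) ≤ x := (Nat.le_ceil _).trans (by exact_mod_cast hx)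
  have h2 : 8000 * Real.log 4 ≤ Real.log x := by
    rw [Real.le_log_iff_exp_le (lt_of_lt_of_le (Real.exp_pos _) h1)]
    exact h1
  have h4 : 0 < Real.log 4 := Real.log_pos (by norm_num)
  have h5 : 0 < Real.log x := by linarith
  unfold kap
  refine ⟨by positivity, ?_⟩
  rw [← mul_div_assoc, div_le_iff₀ h5]
  linarith

open Classical in
/-- indicator of a proposition -/
noncomputable def ind (P : Prop) : ℝ := if P then 1 else 0

lemma ind_pos {P : Prop} (h : P) : ind P = 1 := if_pos h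

lemma ind_neg {P : Prop} (h : ¬ P) : ind P = 0 := if_neg h

end Sum2

end Pool.Agent.HS
end

section
/-! # Module W.Sum2: three prime factors (model HS/W/Sum2)

True value `.780` (limit). `w2N` is a sum of five indicators; with `a = ex p < b = ex p'`, `a + b ≤ 9/11`, limits of the five sums:
A (weight 2): `∫_{2/11}^{3/11} log((5/11)/(6/11-a)) da/a + ∫_{3/11}^{4/11} log((5/11)/a) da/a + ∫_{4/11}^{9/22} log((9/11-a)/a) da/a` (= .1424 + .1058 + .0134);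
B1: `∫_{2/11}^{1/4} log((1/2-a)/a) da/a` (.0929); B2: `∫_{2/11}^{5/22} log((1/2-a)/(5/11-a)) da/a + ∫_{5/22}^{1/4} log((1/2-a)/a) da/a` (.0373 + .0088);
C1: `∫_{1/2}^{7/11} log((9/11-b)·11/2) db/b` (.0766); C2: `∫_{1/2}^{6/11} log((9/11-b)·11/2) db/b` (.0424) (here the sum over `p'` is the outer one).
Riemann sums with (24, 20, 10, 14, 6, 5, 16, 6) equal parts in this order, slack `1/2000` in the
limits and the Pade bound `log_pade` give `.821`. -/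

namespace Pool.Agent.HN

open Finset Pool.Agent.HS

namespace Sum2

open Pool.Agent.HS.Sum2

/-! the rectangles -/

noncomputable def loA1 (i : ℕ) : ℝ := 2 / 11 + (i : ℝ) * (1 / 264)
noncomputable def hiA1 (i : ℕ) : ℝ := 2 / 11 + ((i : ℝ) + 1) * (1 / 264)
noncomputable def uA1 (i : ℕ) : ℝ := 6 / 11 - 1 / 2000 - hiA1 i
noncomputable def vA1 (_i : ℕ) : ℝ := 5 / 11 + 1 / 2000

noncomputable def loA2 (i : ℕ) : ℝ := 3 / 11 + (i : ℝ) * (1 / 220)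
noncomputable def hiA2 (i : ℕ) : ℝ := 3 / 11 + ((i : ℝ) + 1) * (1 / 220)
noncomputable def uA2 (i : ℕ) : ℝ := loA2 i
noncomputable def vA2 (_i : ℕ) : ℝ := 5 / 11 + 1 / 2000

noncomputable def loA3 (i : ℕ) : ℝ := 4 / 11 + (i : ℝ) * (1 / 220)
noncomputable def hiA3 (i : ℕ) : ℝ := 4 / 11 + ((i : ℝ) + 1) * (1 / 220)
noncomputable def uA3 (i : ℕ) : ℝ := loA3 i
noncomputable def vA3 (i : ℕ) : ℝ := 9 / 11 - loA3 i

noncomputable def loB1 (i : ℕ) : ℝ := 2 / 11 + (i : ℝ) * (1511 / 308000)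
noncomputable def hiB1 (i : ℕ) : ℝ := 2 / 11 + ((i : ℝ) + 1) * (1511 / 308000)
noncomputable def uB1 (i : ℕ) : ℝ := loB1 i
noncomputable def vB1 (i : ℕ) : ℝ := 1 / 2 + 1 / 2000 - loB1 i

noncomputable def loB2 (i : ℕ) : ℝ := 2 / 11 + (i : ℝ) * (1 / 132)
noncomputable def hiB2 (i : ℕ) : ℝ := 2 / 11 + ((i : ℝ) + 1) * (1 / 132)
noncomputable def uB2 (i : ℕ) : ℝ := 5 / 11 - 1 / 2000 - hiB2 i
noncomputable def vB2 (i : ℕ) : ℝ := 1 / 2 + 1 / 2000 - loB2 i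

noncomputable def loB3 (i : ℕ) : ℝ := 5 / 22 + (i : ℝ) * (511 / 110000)
noncomputable def hiB3 (i : ℕ) : ℝ := 5 / 22 + ((i : ℝ) + 1) * (511 / 110000)
noncomputable def uB3 (i : ℕ) : ℝ := loB3 i
noncomputable def vB3 (i : ℕ) : ℝ := 1 / 2 + 1 / 2000 - loB3 i

noncomputable def uC1 (i : ℕ) : ℝ := 999 / 2000 + (i : ℝ) * (3011 / 352000)
noncomputable def vC1 (i : ℕ) : ℝ := 999 / 2000 + ((i : ℝ) + 1) * (3011 / 352000)
noncomputable def loC1 (_i : ℕ) : ℝ := 2 / 11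
noncomputable def hiC1 (i : ℕ) : ℝ := 9 / 11 - uC1 i

noncomputable def uC2 (i : ℕ) : ℝ := 999 / 2000 + (i : ℝ) * (511 / 66000)
noncomputable def vC2 (i : ℕ) : ℝ := 999 / 2000 + ((i : ℝ) + 1) * (511 / 66000)
noncomputable def loC2 (_i : ℕ) : ℝ := 2 / 11
noncomputable def hiC2 (i : ℕ) : ℝ := 9 / 11 - uC2 i

set_option maxRecDepth 10000 in
lemma numA1 : ∑ i ∈ range 24, (pd (hiA1 i / loA1 i) + 1 / 20000) *
    (pd (vA1 i / uA1 i) + 1 / 20000) ≤ 366 / 2500 := by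
  simp only [sum_range_succ, range_zero, sum_empty, pd, loA1, hiA1, uA1, vA1]
  norm_num

set_option maxRecDepth 10000 in
lemma numA2 : ∑ i ∈ range 20, (pd (hiA2 i / loA2 i) + 1 / 20000) *
    (pd (vA2 i / uA2 i) + 1 / 20000) ≤ 1087 / 10000 := by
  simp only [sum_range_succ, range_zero, sum_empty, pd, loA2, hiA2, uA2, vA2]
  norm_num

set_option maxRecDepth 10000 in
lemma numA3 : ∑ i ∈ range 10, (pd (hiA3 i / loA3 i) + 1 / 20000) *
    (pd (vA3 i / uA3 i) + 1 / 20000) ≤ 149 / 10000 := by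
  simp only [sum_range_succ, range_zero, sum_empty, pd, loA3, hiA3, uA3, vA3]
  norm_num

set_option maxRecDepth 10000 in
lemma numB1 : ∑ i ∈ range 14, (pd (hiB1 i / loB1 i) + 1 / 20000) *
    (pd (vB1 i / uB1 i) + 1 / 20000) ≤ 1002 / 10000 := by
  simp only [sum_range_succ, range_zero, sum_empty, pd, loB1, hiB1, uB1, vB1]
  norm_num

set_option maxRecDepth 10000 in
lemma numB2 : ∑ i ∈ range 6, (pd (hiB2 i / loB2 i) + 1 / 20000) *
    (pd (vB2 i / uB2 i) + 1 / 20000) ≤ 445 / 10000 := by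
  simp only [sum_range_succ, range_zero, sum_empty, pd, loB2, hiB2, uB2, vB2]
  norm_num

set_option maxRecDepth 10000 in
lemma numB3 : ∑ i ∈ range 5, (pd (hiB3 i / loB3 i) + 1 / 20000) *
    (pd (vB3 i / uB3 i) + 1 / 20000) ≤ 109 / 10000 := by
  simp only [sum_range_succ, range_zero, sum_empty, pd, loB3, hiB3, uB3, vB3]
  norm_num

set_option maxRecDepth 10000 in
lemma numC1 : ∑ i ∈ range 16, (pd (hiC1 i / loC1 i) + 1 / 20000) *
    (pd (vC1 i / uC1 i) + 1 / 20000) ≤ 817 / 10000 := by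
  simp only [sum_range_succ, range_zero, sum_empty, pd, loC1, hiC1, uC1, vC1]
  norm_num

set_option maxRecDepth 10000 in
lemma numC2 : ∑ i ∈ range 6, (pd (hiC2 i / loC2 i) + 1 / 20000) *
    (pd (vC2 i / uC2 i) + 1 / 20000) ≤ 448 / 10000 := by
  simp only [sum_range_succ, range_zero, sum_empty, pd, loC2, hiC2, uC2, vC2]
  norm_num

lemma okA1 : ∀ i < 24, 1 / 6 ≤ loA1 i ∧ loA1 i ≤ hiA1 i ∧ 1 / 6 ≤ uA1 i ∧
    uA1 i ≤ vA1 i := by
  intro i hi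
  have h1 : (i : ℝ) ≤ 23 := by exact_mod_cast (by omega : i ≤ 23)
  have h0 : (0 : ℝ) ≤ i := Nat.cast_nonneg i
  unfold uA1 vA1 hiA1 loA1
  refine ⟨?_, ?_, ?_, ?_⟩ <;> linarith

lemma okA2 : ∀ i < 20, 1 / 6 ≤ loA2 i ∧ loA2 i ≤ hiA2 i ∧ 1 / 6 ≤ uA2 i ∧
    uA2 i ≤ vA2 i := by
  intro i hi
  have h1 : (i : ℝ) ≤ 19 := by exact_mod_cast (by omega : i ≤ 19)
  have h0 : (0 : ℝ) ≤ i := Nat.cast_nonneg i
  unfold uA2 vA2 loA2 hiA2
  refine ⟨?_, ?_, ?_, ?_⟩ <;> linarith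

lemma okA3 : ∀ i < 10, 1 / 6 ≤ loA3 i ∧ loA3 i ≤ hiA3 i ∧ 1 / 6 ≤ uA3 i ∧
    uA3 i ≤ vA3 i := by
  intro i hi
  have h1 : (i : ℝ) ≤ 9 := by exact_mod_cast (by omega : i ≤ 9)
  have h0 : (0 : ℝ) ≤ i := Nat.cast_nonneg i
  unfold uA3 vA3 loA3 hiA3
  refine ⟨?_, ?_, ?_, ?_⟩ <;> linarith

lemma okB1 : ∀ i < 14, 1 / 6 ≤ loB1 i ∧ loB1 i ≤ hiB1 i ∧ 1 / 6 ≤ uB1 i ∧
    uB1 i ≤ vB1 i := by
  intro i hi
  have h1 : (i : ℝ) ≤ 13 := by exact_mod_cast (by omega : i ≤ 13)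
  have h0 : (0 : ℝ) ≤ i := Nat.cast_nonneg i
  unfold uB1 vB1 loB1 hiB1
  refine ⟨?_, ?_, ?_, ?_⟩ <;> linarith

lemma okB2 : ∀ i < 6, 1 / 6 ≤ loB2 i ∧ loB2 i ≤ hiB2 i ∧ 1 / 6 ≤ uB2 i ∧
    uB2 i ≤ vB2 i := by
  intro i hi
  have h1 : (i : ℝ) ≤ 5 := by exact_mod_cast (by omega : i ≤ 5)
  have h0 : (0 : ℝ) ≤ i := Nat.cast_nonneg i
  unfold uB2 vB2 hiB2 loB2
  refine ⟨?_, ?_, ?_, ?_⟩ <;> linarith

lemma okB3 : ∀ i < 5, 1 / 6 ≤ loB3 i ∧ loB3 i ≤ hiB3 i ∧ 1 / 6 ≤ uB3 i ∧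
    uB3 i ≤ vB3 i := by
  intro i hi
  have h1 : (i : ℝ) ≤ 4 := by exact_mod_cast (by omega : i ≤ 4)
  have h0 : (0 : ℝ) ≤ i := Nat.cast_nonneg i
  unfold uB3 vB3 loB3 hiB3
  refine ⟨?_, ?_, ?_, ?_⟩ <;> linarith

lemma okC1 : ∀ i < 16, 1 / 6 ≤ loC1 i ∧ loC1 i ≤ hiC1 i ∧ 1 / 6 ≤ uC1 i ∧
    uC1 i ≤ vC1 i := by
  intro i hi
  have h1 : (i : ℝ) ≤ 15 := by exact_mod_cast (by omega : i ≤ 15)
  have h0 : (0 : ℝ) ≤ i := Nat.cast_nonneg i
  unfold loC1 hiC1 uC1 vC1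
  refine ⟨?_, ?_, ?_, ?_⟩ <;> linarith

lemma okC2 : ∀ i < 6, 1 / 6 ≤ loC2 i ∧ loC2 i ≤ hiC2 i ∧ 1 / 6 ≤ uC2 i ∧
    uC2 i ≤ vC2 i := by
  intro i hi
  have h1 : (i : ℝ) ≤ 5 := by exact_mod_cast (by omega : i ≤ 5)
  have h0 : (0 : ℝ) ≤ i := Nat.cast_nonneg i
  unfold loC2 hiC2 uC2 vC2
  refine ⟨?_, ?_, ?_, ?_⟩ <;> linarith

section cover

variable {κ a b : ℝ} (hκ' : 8 * κ ≤ 1 / 1000) (ha : 2 / 11 ≤ a) (hab : a ≤ b)
  (hs : a + b ≤ 9 / 11)

include hκ' ha in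
lemma coverA1 (h0 : a ≤ 3 / 11) (h1 : b ≤ 5 / 11 + 2 * κ) (h2 : 6 / 11 - 4 * κ ≤ a + b) :
    ∃ i < 24, (loA1 i ≤ a ∧ a ≤ hiA1 i) ∧ uA1 i ≤ b ∧ b ≤ vA1 i := by
  obtain ⟨i, hi, g1, g2⟩ := grid (s := 2 / 11) (h := 1 / 264) (a := a) (by norm_num)
    (n := 24) (by norm_num) ha (by push_cast; linarith)
  refine ⟨i, hi, ⟨g1, g2⟩, ?_, ?_⟩
  · unfold uA1 hiA1
    linarith
  · unfold vA1
    linarith

include hκ' hab in
lemma coverA2 (h0 : 3 / 11 ≤ a) (h00 : a ≤ 4 / 11) (h1 : b ≤ 5 / 11 + 2 * κ) :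
    ∃ i < 20, (loA2 i ≤ a ∧ a ≤ hiA2 i) ∧ uA2 i ≤ b ∧ b ≤ vA2 i := by
  obtain ⟨i, hi, g1, g2⟩ := grid (s := 3 / 11) (h := 1 / 220) (a := a) (by norm_num)
    (n := 20) (by norm_num) h0 (by push_cast; linarith)
  refine ⟨i, hi, ⟨g1, g2⟩, ?_, ?_⟩
  · unfold uA2 loA2
    linarith
  · unfold vA2
    linarith

include hab hs in
lemma coverA3 (h0 : 4 / 11 ≤ a) :
    ∃ i < 10, (loA3 i ≤ a ∧ a ≤ hiA3 i) ∧ uA3 i ≤ b ∧ b ≤ vA3 i := by
  obtain ⟨i, hi, g1, g2⟩ := grid (s := 4 / 11) (h := 1 / 220) (a := a) (by norm_num)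
    (n := 10) (by norm_num) h0 (by push_cast; linarith)
  refine ⟨i, hi, ⟨g1, g2⟩, ?_, ?_⟩
  · unfold uA3 loA3
    linarith
  · unfold vA3 loA3
    linarith

include hκ' ha hab in
lemma coverB1 (h2 : a + b ≤ 1 / 2 + 2 * κ) :
    ∃ i < 14, (loB1 i ≤ a ∧ a ≤ hiB1 i) ∧ uB1 i ≤ b ∧ b ≤ vB1 i := by
  obtain ⟨i, hi, g1, g2⟩ := grid (s := 2 / 11) (h := 1511 / 308000) (a := a) (by norm_num)
    (n := 14) (by norm_num) ha (by push_cast; linarith)
  refine ⟨i, hi, ⟨g1, g2⟩, ?_, ?_⟩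
  · unfold uB1 loB1
    linarith
  · unfold vB1 loB1
    linarith

include hκ' ha in
lemma coverB2 (h0 : a ≤ 5 / 22) (h1 : 5 / 11 - 2 * κ ≤ a + b) (h2 : a + b ≤ 1 / 2 + 2 * κ)
    :
    ∃ i < 6, (loB2 i ≤ a ∧ a ≤ hiB2 i) ∧ uB2 i ≤ b ∧ b ≤ vB2 i := by
  obtain ⟨i, hi, g1, g2⟩ := grid (s := 2 / 11) (h := 1 / 132) (a := a) (by norm_num)
    (n := 6) (by norm_num) ha (by push_cast; linarith)
  refine ⟨i, hi, ⟨g1, g2⟩, ?_, ?_⟩
  · unfold uB2 hiB2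
    linarith
  · unfold vB2 loB2
    linarith

include hκ' hab in
lemma coverB3 (h0 : 5 / 22 ≤ a) (h2 : a + b ≤ 1 / 2 + 2 * κ) :
    ∃ i < 5, (loB3 i ≤ a ∧ a ≤ hiB3 i) ∧ uB3 i ≤ b ∧ b ≤ vB3 i := by
  obtain ⟨i, hi, g1, g2⟩ := grid (s := 5 / 22) (h := 511 / 110000) (a := a) (by norm_num)
    (n := 5) (by norm_num) h0 (by push_cast; linarith)
  refine ⟨i, hi, ⟨g1, g2⟩, ?_, ?_⟩
  · unfold uB3 loB3
    linarith
  · unfold vB3 loB3
    linarith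

include hκ' ha hs in
lemma coverC1 (h1 : 1 / 2 - 2 * κ ≤ b) :
    ∃ i < 16, (loC1 i ≤ a ∧ a ≤ hiC1 i) ∧ uC1 i ≤ b ∧ b ≤ vC1 i := by
  obtain ⟨i, hi, g1, g2⟩ := grid (s := 999 / 2000) (h := 3011 / 352000) (a := b) (by norm_num)
    (n := 16) (by norm_num) (by linarith) (by push_cast; linarith)
  refine ⟨i, hi, ⟨ha, ?_⟩, g1, g2⟩
  unfold hiC1 uC1
  linarith

include hκ' ha hs in
lemma coverC2 (h1 : 1 / 2 - 2 * κ ≤ b) (h2 : b ≤ 6 / 11 + 2 * κ) :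
    ∃ i < 6, (loC2 i ≤ a ∧ a ≤ hiC2 i) ∧ uC2 i ≤ b ∧ b ≤ vC2 i := by
  obtain ⟨i, hi, g1, g2⟩ := grid (s := 999 / 2000) (h := 511 / 66000) (a := b) (by norm_num)
    (n := 6) (by norm_num) (by linarith) (by push_cast; linarith)
  refine ⟨i, hi, ⟨ha, ?_⟩, g1, g2⟩
  unfold hiC2 uC2
  linarith

end cover

lemma w2N_le (κ a b : ℝ) : w2N κ a b ≤
    2 * ind (a ≤ 3 / 11 ∧ b ≤ 5 / 11 + 2 * κ ∧ 6 / 11 - 4 * κ ≤ a + b) +
    2 * ind (3 / 11 ≤ a ∧ a ≤ 4 / 11 ∧ b ≤ 5 / 11 + 2 * κ) +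
    2 * ind (4 / 11 ≤ a) +
    ind (a + b ≤ 1 / 2 + 2 * κ) +
    ind (a ≤ 5 / 22 ∧ 5 / 11 - 2 * κ ≤ a + b ∧ a + b ≤ 1 / 2 + 2 * κ) +
    ind (5 / 22 ≤ a ∧ a + b ≤ 1 / 2 + 2 * κ) +
    ind (1 / 2 - 2 * κ ≤ b) +
    ind (1 / 2 - 2 * κ ≤ b ∧ b ≤ 6 / 11 + 2 * κ) := by
  classical
  have i0 : ∀ P : Prop, 0 ≤ ind P := fun P => by
    by_cases h : P
    · rw [ind_pos h]; norm_num
    · rw [ind_neg h]
  have e1 : (if b ≤ 5 / 11 + 2 * κ ∧ 6 / 11 - 4 * κ ≤ a + b then (2 : ℝ) else 0) ≤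
      2 * ind (a ≤ 3 / 11 ∧ b ≤ 5 / 11 + 2 * κ ∧ 6 / 11 - 4 * κ ≤ a + b) +
      2 * ind (3 / 11 ≤ a ∧ a ≤ 4 / 11 ∧ b ≤ 5 / 11 + 2 * κ) +
      2 * ind (4 / 11 ≤ a) := by
    have j1 := i0 (a ≤ 3 / 11 ∧ b ≤ 5 / 11 + 2 * κ ∧ 6 / 11 - 4 * κ ≤ a + b)
    have j2 := i0 (3 / 11 ≤ a ∧ a ≤ 4 / 11 ∧ b ≤ 5 / 11 + 2 * κ)
    have j3 := i0 (4 / 11 ≤ a)
    split_ifs with h
    · rcases le_total a (3 / 11) with h1 | h1
      · rw [ind_pos ⟨h1, h⟩]
        linarith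
      · rcases le_total a (4 / 11) with h2 | h2
        · rw [ind_pos (P := 3 / 11 ≤ a ∧ a ≤ 4 / 11 ∧ b ≤ 5 / 11 + 2 * κ) ⟨h1, h2, h.1⟩]
          linarith
        · rw [ind_pos h2]
          linarith
    · linarith
  have e2 : (if 5 / 11 - 2 * κ ≤ a + b ∧ a + b ≤ 1 / 2 + 2 * κ then (1 : ℝ) else 0) ≤
      ind (a ≤ 5 / 22 ∧ 5 / 11 - 2 * κ ≤ a + b ∧ a + b ≤ 1 / 2 + 2 * κ) +
      ind (5 / 22 ≤ a ∧ a + b ≤ 1 / 2 + 2 * κ) := by
    have j1 := i0 (a ≤ 5 / 22 ∧ 5 / 11 - 2 * κ ≤ a + b ∧ a + b ≤ 1 / 2 + 2 * κ)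
    have j2 := i0 (5 / 22 ≤ a ∧ a + b ≤ 1 / 2 + 2 * κ)
    split_ifs with h
    · rcases le_total a (5 / 22) with h1 | h1
      · rw [ind_pos ⟨h1, h⟩]
        linarith
      · rw [ind_pos (P := 5 / 22 ≤ a ∧ a + b ≤ 1 / 2 + 2 * κ) ⟨h1, h.2⟩]
        linarith
    · linarith
  have e3 : (if a + b ≤ 1 / 2 + 2 * κ then (1 : ℝ) else 0) = ind (a + b ≤ 1 / 2 + 2 * κ) := rfl
  have e4 : (if 1 / 2 - 2 * κ ≤ b then (1 : ℝ) else 0) = ind (1 / 2 - 2 * κ ≤ b) := rfl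
  have e5 : (if 1 / 2 - 2 * κ ≤ b ∧ b ≤ 6 / 11 + 2 * κ then (1 : ℝ) else 0) =
    ind (1 / 2 - 2 * κ ≤ b ∧ b ≤ 6 / 11 + 2 * κ) := by
    unfold ind
    split_ifs <;> rfl
  unfold w2N
  rw [← e3, ← e4, ← e5]
  linarith

end Sum2

open Sum2 Pool.Agent.HS.Sum2 in
theorem L2N_le : ∃ x₁ : ℕ, ∀ x : ℕ, x₁ ≤ x → L2N x ≤ 33 / 40 := by
  classical
  obtain ⟨x₁, hx₁⟩ := mer (1 / 20000) (by norm_num)
  obtain ⟨x₂, hx₂⟩ := kap_small
  refine ⟨max (max x₁ x₂) 3, fun x hx => ?_⟩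
  have hm := hx₁ x ((le_max_left _ _).trans ((le_max_left _ _).trans hx))
  obtain ⟨hκ, hκ'⟩ := hx₂ x ((le_max_right _ _).trans ((le_max_left _ _).trans hx))
  have hx3 : 3 ≤ x := (le_max_right _ _).trans hx
  set κ := kap x with hκdef
  obtain ⟨T, hT⟩ : ∃ T, T = (PN x ×ˢ PN x).filter
    (fun q => q.1 < q.2 ∧ ex x q.1 + ex x q.2 ≤ 9 / 11) := ⟨_, rfl⟩
  have hlog : 0 < Real.log x := Real.log_pos (by exact_mod_cast (by omega : 1 < x))
  have hTm : ∀ q ∈ T, ((q.1 ∈ Icc 1 x ∧ q.1.Prime) ∧ (q.2 ∈ Icc 1 x ∧ q.2.Prime)) ∧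
      2 / 11 ≤ ex x q.1 ∧ ex x q.1 ≤ ex x q.2 ∧ ex x q.1 + ex x q.2 ≤ 9 / 11 := by
    intro q hq
    rw [hT, mem_filter, mem_product] at hq
    obtain ⟨⟨h1, h2⟩, h3, h4⟩ := hq
    unfold PN PS at h1 h2
    rw [mem_filter] at h1 h2
    refine ⟨⟨⟨h1.1, h1.2.1⟩, ⟨h2.1, h2.2.1⟩⟩, h1.2.2.1, ?_, h4⟩
    unfold ex
    apply div_le_div_of_nonneg_right _ hlog.le
    exact Real.log_le_log (by exact_mod_cast h1.2.1.pos) (by exact_mod_cast h3.le)
  have h1 : L2N x = ∑ q ∈ T, w2N κ (ex x q.1) (ex x q.2) * (1 / ((q.1 : ℝ) * q.2)) := by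
    unfold L2N
    rw [hT, sum_filter, sum_product]
    refine sum_congr rfl fun p _ => ?_
    rw [sum_filter]
    refine sum_congr rfl fun p' _ => ?_
    split_ifs
    · rw [mul_one_div]
    · rfl
  have h2 : ∀ (P : ℝ → ℝ → Prop) (n : ℕ) (lo hi u v : ℕ → ℝ)
      (_ : ∀ i < n, 1 / 6 ≤ lo i ∧ lo i ≤ hi i ∧ 1 / 6 ≤ u i ∧ u i ≤ v i)
      (_ : ∀ a b : ℝ, 2 / 11 ≤ a → a ≤ b → a + b ≤ 9 / 11 → P a b →
        ∃ i < n, (lo i ≤ a ∧ a ≤ hi i) ∧ u i ≤ b ∧ b ≤ v i) (R : ℝ)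
      (_ : ∑ i ∈ range n, (pd (hi i / lo i) + 1 / 20000) * (pd (v i / u i) + 1 / 20000) ≤ R),
      ∑ q ∈ T, ind (P (ex x q.1) (ex x q.2)) * (1 / ((q.1 : ℝ) * q.2)) ≤ R := by
    intro P n lo hi u v ok cov R hR
    have e1 : ∑ q ∈ T, ind (P (ex x q.1) (ex x q.2)) * (1 / ((q.1 : ℝ) * q.2)) =
        ∑ q ∈ T.filter (fun q => P (ex x q.1) (ex x q.2)), (1 : ℝ) / ((q.1 : ℝ) * q.2) := by
      rw [sum_filter]
      refine sum_congr rfl fun q _ => ?_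
      split_ifs with h
      · rw [ind_pos h, one_mul]
      · rw [ind_neg h, zero_mul]
    rw [e1]
    refine (region hm n lo hi u v ok _ ?_).trans ((sum_pd (by norm_num) n lo hi u v ok).trans hR)
    intro q hq
    rw [mem_filter] at hq
    obtain ⟨⟨a1, a2⟩, a3, a4, a5⟩ := hTm q hq.1
    exact ⟨a1, a2, cov _ _ a3 a4 a5 hq.2⟩
  have r1 := h2 (fun a b => a ≤ 3 / 11 ∧ b ≤ 5 / 11 + 2 * κ ∧ 6 / 11 - 4 * κ ≤ a + b)
    24 loA1 hiA1 uA1 vA1 okA1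
    (fun a b g1 _ _ g4 => coverA1 hκ' g1 g4.1 g4.2.1 g4.2.2) _ numA1
  have r2 := h2 (fun a b => 3 / 11 ≤ a ∧ a ≤ 4 / 11 ∧ b ≤ 5 / 11 + 2 * κ)
    20 loA2 hiA2 uA2 vA2 okA2
    (fun a b _ g2 _ g4 => coverA2 hκ' g2 g4.1 g4.2.1 g4.2.2) _ numA2
  have r3 := h2 (fun a _ => 4 / 11 ≤ a) 10 loA3 hiA3 uA3 vA3 okA3
    (fun a b _ g2 g3 g4 => coverA3 g2 g3 g4) _ numA3
  have r4 := h2 (fun a b => a + b ≤ 1 / 2 + 2 * κ) 14 loB1 hiB1 uB1 vB1 okB1
    (fun a b g1 g2 _ g4 => coverB1 hκ' g1 g2 g4) _ numB1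
  have r5 := h2 (fun a b => a ≤ 5 / 22 ∧ 5 / 11 - 2 * κ ≤ a + b ∧ a + b ≤ 1 / 2 + 2 * κ)
    6 loB2 hiB2 uB2 vB2 okB2
    (fun a b g1 _ _ g4 => coverB2 hκ' g1 g4.1 g4.2.1 g4.2.2) _ numB2
  have r6 := h2 (fun a b => 5 / 22 ≤ a ∧ a + b ≤ 1 / 2 + 2 * κ) 5 loB3 hiB3 uB3 vB3 okB3
    (fun a b _ g2 _ g4 => coverB3 hκ' g2 g4.1 g4.2) _ numB3
  have r7 := h2 (fun _ b => 1 / 2 - 2 * κ ≤ b) 16 loC1 hiC1 uC1 vC1 okC1
    (fun a b g1 _ g3 g4 => coverC1 hκ' g1 g3 g4) _ numC1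
  have r8 := h2 (fun _ b => 1 / 2 - 2 * κ ≤ b ∧ b ≤ 6 / 11 + 2 * κ) 6 loC2 hiC2 uC2 vC2 okC2
    (fun a b g1 _ g3 g4 => coverC2 hκ' g1 g3 g4.1 g4.2) _ numC2
  rw [h1]
  have h3 : ∑ q ∈ T, w2N κ (ex x q.1) (ex x q.2) * (1 / ((q.1 : ℝ) * q.2)) ≤
      2 * ∑ q ∈ T, ind (ex x q.1 ≤ 3 / 11 ∧ ex x q.2 ≤ 5 / 11 + 2 * κ ∧
        6 / 11 - 4 * κ ≤ ex x q.1 + ex x q.2) * (1 / ((q.1 : ℝ) * q.2)) +
      2 * ∑ q ∈ T, ind (3 / 11 ≤ ex x q.1 ∧ ex x q.1 ≤ 4 / 11 ∧ ex x q.2 ≤ 5 / 11 + 2 * κ) *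
        (1 / ((q.1 : ℝ) * q.2)) +
      2 * ∑ q ∈ T, ind (4 / 11 ≤ ex x q.1) * (1 / ((q.1 : ℝ) * q.2)) +
      ∑ q ∈ T, ind (ex x q.1 + ex x q.2 ≤ 1 / 2 + 2 * κ) * (1 / ((q.1 : ℝ) * q.2)) +
      ∑ q ∈ T, ind (ex x q.1 ≤ 5 / 22 ∧ 5 / 11 - 2 * κ ≤ ex x q.1 + ex x q.2 ∧
        ex x q.1 + ex x q.2 ≤ 1 / 2 + 2 * κ) * (1 / ((q.1 : ℝ) * q.2)) +
      ∑ q ∈ T, ind (5 / 22 ≤ ex x q.1 ∧ ex x q.1 + ex x q.2 ≤ 1 / 2 + 2 * κ) *
        (1 / ((q.1 : ℝ) * q.2)) +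
      ∑ q ∈ T, ind (1 / 2 - 2 * κ ≤ ex x q.2) * (1 / ((q.1 : ℝ) * q.2)) +
      ∑ q ∈ T, ind (1 / 2 - 2 * κ ≤ ex x q.2 ∧ ex x q.2 ≤ 6 / 11 + 2 * κ) *
        (1 / ((q.1 : ℝ) * q.2)) := by
    rw [mul_sum, mul_sum, mul_sum, ← sum_add_distrib, ← sum_add_distrib, ← sum_add_distrib,
      ← sum_add_distrib, ← sum_add_distrib, ← sum_add_distrib, ← sum_add_distrib]
    refine sum_le_sum fun q _ => ?_
    have g := mul_le_mul_of_nonneg_right (w2N_le κ (ex x q.1) (ex x q.2))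
      (by positivity : (0 : ℝ) ≤ 1 / ((q.1 : ℝ) * q.2))
    refine g.trans (le_of_eq ?_)
    ring
  linarith

end Pool.Agent.HN
end

section
/-! # Module W.SumL3: four prime factors

`L3`: a sorted triple with a marked pair `s ∈ QQ` and the third prime with exponent in
`[1/6, 5/6 - s]`; windows are negligible. -/

namespace Pool.Agent.HS

open Finset

namespace SL3

open Classical

theorem mem_PS {x : ℕ} {u v : ℝ} {p : ℕ} :
    p ∈ PS x u v ↔ (1 ≤ p ∧ p ≤ x) ∧ p.Prime ∧ u ≤ ex x p ∧ ex x p ≤ v := by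
  unfold PS
  rw [mem_filter, mem_Icc]

theorem ex_mono {x p q : ℕ} (hx : 1 < x) (hp : 1 ≤ p) (h : p ≤ q) : ex x p ≤ ex x q := by
  unfold ex
  have h1 : 0 < Real.log x := Real.log_pos (by exact_mod_cast hx)
  apply div_le_div_of_nonneg_right _ h1.le
  exact Real.log_le_log (by exact_mod_cast hp) (by exact_mod_cast h)

/-- the hypothesis delivered by `mer` -/
def MerB (x : ℕ) (δ : ℝ) : Prop := ∀ u v : ℝ, 1 / 6 ≤ u → u ≤ v →
  ∑ p ∈ PS x u v, (1 : ℝ) / p ≤ Real.log (v / u) + δ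

theorem inner_le {x : ℕ} {δ : ℝ} (hm : MerB x δ) (hδ : 0 ≤ δ) {R : ℝ} (hR : 1 ≤ R)
    {s : Finset ℕ} {u v : ℝ} (hu : 1 / 6 ≤ u) (hs : s ⊆ PS x u v) (hv : v ≤ R * u) :
    ∑ p ∈ s, (1 : ℝ) / p ≤ Real.log R + δ := by
  have h0 : 0 ≤ Real.log R := Real.log_nonneg hR
  rcases le_or_gt u v with h | h
  · calc ∑ p ∈ s, (1 : ℝ) / p ≤ ∑ p ∈ PS x u v, (1 : ℝ) / p :=
          sum_le_sum_of_subset_of_nonneg hs (fun _ _ _ => by positivity)
      _ ≤ Real.log (v / u) + δ := hm u v hu h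
      _ ≤ Real.log R + δ := by
          have h1 : v / u ≤ R := by
            rw [div_le_iff₀ (by linarith)]
            exact hv
          have h2 : 0 < v / u := div_pos (by linarith) (by linarith)
          linarith [Real.log_le_log h2 h1]
  · have h1 : s = ∅ := by
      rw [eq_empty_iff_forall_notMem]
      intro p hp
      have := hs hp
      rw [mem_PS] at this
      linarith [this.2.2.1, this.2.2.2]
    rw [h1, sum_empty]
    linarith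

theorem log_small {t : ℝ} (ht : 0 ≤ t) : Real.log (1 + t) ≤ t := by
  have := Real.log_le_sub_one_of_pos (by linarith : (0 : ℝ) < 1 + t)
  linarith

/-- primes in a short band -/
theorem band_le {x : ℕ} {δ : ℝ} (hm : MerB x δ) (hδ : 0 ≤ δ) {base t h : ℝ} (hh : 0 ≤ h) :
    ∑ p ∈ (PP x).filter (fun p => |base + ex x p - t| ≤ h), (1 : ℝ) / p ≤ 12 * h + δ := by
  have h1 := inner_le hm hδ (R := 1 + 12 * h) (by linarith)
    (s := (PP x).filter (fun p => |base + ex x p - t| ≤ h)) (u := max (1 / 6) (t - base - h))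
    (v := t - base + h) (le_max_left _ _) (by
      intro p hp
      rw [mem_filter, PP, mem_PS, abs_le] at hp
      rw [mem_PS]
      refine ⟨hp.1.1, hp.1.2.1, max_le hp.1.2.2.1 ?_, ?_⟩
      · linarith [hp.2.1]
      · linarith [hp.2.2]) (by
      have h2 := le_max_left (1 / 6 : ℝ) (t - base - h)
      have h3 := le_max_right (1 / 6 : ℝ) (t - base - h)
      nlinarith)
  have h2 := log_small (by linarith : (0 : ℝ) ≤ 12 * h)
  linarith

theorem T_le {x : ℕ} {δ : ℝ} (hm : MerB x δ) (hδ : 0 ≤ δ) (hδ1 : δ ≤ 1 / 10) :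
    ∑ p ∈ PP x, (1 : ℝ) / p ≤ 2 := by
  have h1 := inner_le hm hδ (R := 1 + 4) (by norm_num) (s := PP x) (u := 1 / 6) (v := 5 / 6)
    (le_refl _) (subset_refl _) (by norm_num)
  have h2 := log_pade 4 (by norm_num)
  norm_num at h2 h1 ⊢
  linarith

/-- pair sums -/
noncomputable def SP (x : ℕ) (lo hi : ℝ) : ℝ := ∑ p ∈ PP x, ∑ p' ∈ PP x,
  (if p < p' ∧ lo ≤ ex x p + ex x p' ∧ ex x p + ex x p' ≤ hi then (1 : ℝ) / (p * p') else 0)

theorem SC_le {x : ℕ} {δ κ : ℝ} (hm : MerB x δ) (hδ : 0 ≤ δ) (hδ1 : δ ≤ 1 / 10 ^ 8)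
    (hκ : 0 ≤ κ) (hκ1 : κ ≤ 1 / 10 ^ 8) : SP x (1 / 2 - 4 * κ) (1 / 2 + 4 * κ) ≤ 1 / 10 ^ 5 := by
  have h1 : ∀ p ∈ PP x, ∑ p' ∈ PP x, (if p < p' ∧ 1 / 2 - 4 * κ ≤ ex x p + ex x p' ∧
      ex x p + ex x p' ≤ 1 / 2 + 4 * κ then (1 : ℝ) / (p * p') else 0) ≤
      1 / p * (48 * κ + δ) := by
    intro p _
    have h2 := band_le hm hδ (base := ex x p) (t := 1 / 2) (h := 4 * κ) (by linarith)
    calc ∑ p' ∈ PP x, (if p < p' ∧ 1 / 2 - 4 * κ ≤ ex x p + ex x p' ∧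
      ex x p + ex x p' ≤ 1 / 2 + 4 * κ then (1 : ℝ) / (p * p') else 0) ≤
        ∑ p' ∈ PP x, 1 / p * (if |ex x p + ex x p' - 1 / 2| ≤ 4 * κ then (1 : ℝ) / p' else 0) := by
          refine sum_le_sum fun p' _ => ?_
          have hp : (0 : ℝ) ≤ 1 / (p * p') := by positivity
          by_cases hc : p < p' ∧ 1 / 2 - 4 * κ ≤ ex x p + ex x p' ∧ ex x p + ex x p' ≤ 1 / 2 + 4 * κ
          · rw [if_pos hc, if_pos (by rw [abs_le]; constructor <;> linarith [hc.2.1, hc.2.2]),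
              one_div_mul_one_div]
          · rw [if_neg hc]
            split_ifs <;> positivity
      _ = 1 / p * ∑ p' ∈ (PP x).filter (fun p' => |ex x p + ex x p' - 1 / 2| ≤ 4 * κ),
            (1 : ℝ) / p' := by rw [← mul_sum, sum_filter]
      _ ≤ 1 / p * (48 * κ + δ) := by
          apply mul_le_mul_of_nonneg_left _ (by positivity)
          linarith
  unfold SP
  refine (sum_le_sum h1).trans ?_
  rw [← sum_mul]
  have h2 := T_le hm hδ (by linarith)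
  have h3 : 0 ≤ 48 * κ + δ := by positivity
  calc (∑ p ∈ PP x, (1 : ℝ) / p) * (48 * κ + δ) ≤ 2 * (48 * κ + δ) :=
        mul_le_mul_of_nonneg_right h2 h3
    _ ≤ _ := by linarith

end SL3

end Pool.Agent.HS
end

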