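import Pool.Agent.Work.GBM.C12
import Pool.Agent.Work.GBM.C15

section
/-! # Module W.Wt

`wt`: `cw x d ≠ 0` gives `gE ≠ 0`, so `ex x d ≤ 7/12` (or `d = 1`).
`wte`: `ex x (d t)` is nondecreasing in `t` (also from `t = 0`, `log 0 = 0`); for `κ ≤ 1/100` `gE κ j` is a combination of at most three indicators of half-lines. -/

namespace Pool.Agent.HS

open Finset

theorem kap_nonneg {x : ℕ} : 0 ≤ kap x :=
  div_nonneg (Real.log_nonneg (by norm_num)) (Real.log_natCast_nonneg x)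

theorem kap_le {x : ℕ} (hx : 4 ^ 100 ≤ x) : kap x ≤ 1 / 100 := by
  have h4 : 0 < Real.log 4 := Real.log_pos (by norm_num)
  have h1 : (100 : ℝ) * Real.log 4 ≤ Real.log x := by
    have h2 : Real.log ((4 : ℝ) ^ 100) = 100 * Real.log 4 := by
      rw [Real.log_pow]
      norm_num
    rw [← h2]
    exact Real.log_le_log (by positivity) (by exact_mod_cast hx)
  unfold kap
  rw [div_le_div_iff₀ (by linarith) (by norm_num)]
  linarith

theorem tv_mono (f : ℕ → ℝ) (hf : ∀ t, f t ≤ f (t + 1)) (h0 : ∀ t, 0 ≤ f t) (h1 : ∀ t, f t ≤ 1)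
    (N : ℕ) : ∑ t ∈ range N, |f (t + 1) - f t| ≤ 1 := by
  have : ∑ t ∈ range N, |f (t + 1) - f t| = f N - f 0 := by
    rw [← sum_range_sub]
    exact sum_congr rfl fun t _ => abs_of_nonneg (sub_nonneg.2 (hf t))
  rw [this]
  linarith [h0 0, h1 N]

open Classical in
/-- indicator of `s > c` along a sequence -/
theorem tv_gt (s : ℕ → ℝ) (hs : ∀ t, s t ≤ s (t + 1)) (P : ℝ → Prop)
    (hP : ∀ a b, a ≤ b → P a → P b) (N : ℕ) :
    ∑ t ∈ range N, |(if P (s (t + 1)) then (1 : ℝ) else 0) - (if P (s t) then 1 else 0)| ≤ 1 := by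
  refine tv_mono (fun t => if P (s t) then (1 : ℝ) else 0) ?_ ?_ ?_ N
  · intro t
    by_cases h : P (s t)
    · simp only [if_pos h, if_pos (hP _ _ (hs t) h)]
      exact le_refl _
    · simp only [if_neg h]
      split_ifs <;> norm_num
  · intro t
    split_ifs <;> norm_num
  · intro t
    split_ifs <;> norm_num

open Classical in
theorem tv_three (s : ℕ → ℝ) (hs : ∀ t, s t ≤ s (t + 1)) (P Q R : ℝ → Prop)
    (hP : ∀ a b, a ≤ b → P a → P b) (hQ : ∀ a b, a ≤ b → Q a → Q b)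
    (hR : ∀ a b, a ≤ b → R a → R b) (c0 c1 c2 c3 : ℝ) (h1 : |c1| ≤ 1) (h2 : |c2| ≤ 1)
    (h3 : |c3| ≤ 1) (g : ℝ → ℝ) (hg : ∀ a, g a = c0 + c1 * (if P a then 1 else 0) +
      c2 * (if Q a then 1 else 0) + c3 * (if R a then 1 else 0)) (N : ℕ) :
    ∑ t ∈ range N, |g (s (t + 1)) - g (s t)| ≤ 3 := by
  have b1 := tv_gt s hs P hP N
  have b2 := tv_gt s hs Q hQ N
  have b3 := tv_gt s hs R hR N
  have : ∑ t ∈ range N, |g (s (t + 1)) - g (s t)| ≤
      ∑ t ∈ range N, (|(if P (s (t + 1)) then (1 : ℝ) else 0) - (if P (s t) then 1 else 0)| +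
        |(if Q (s (t + 1)) then (1 : ℝ) else 0) - (if Q (s t) then 1 else 0)| +
        |(if R (s (t + 1)) then (1 : ℝ) else 0) - (if R (s t) then 1 else 0)|) := by
    refine sum_le_sum fun t _ => ?_
    rw [hg, hg]
    set p := (if P (s (t + 1)) then (1 : ℝ) else 0) - (if P (s t) then 1 else 0)
    set q := (if Q (s (t + 1)) then (1 : ℝ) else 0) - (if Q (s t) then 1 else 0)
    set r := (if R (s (t + 1)) then (1 : ℝ) else 0) - (if R (s t) then 1 else 0)
    have e : c0 + c1 * (if P (s (t + 1)) then (1 : ℝ) else 0) +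
        c2 * (if Q (s (t + 1)) then 1 else 0) + c3 * (if R (s (t + 1)) then 1 else 0) -
        (c0 + c1 * (if P (s t) then (1 : ℝ) else 0) + c2 * (if Q (s t) then 1 else 0) +
          c3 * (if R (s t) then 1 else 0)) = c1 * p + c2 * q + c3 * r := by
      ring
    rw [e]
    refine (abs_add_le _ _).trans (add_le_add ((abs_add_le _ _).trans (add_le_add ?_ ?_)) ?_)
    · rw [abs_mul]
      exact mul_le_of_le_one_left (abs_nonneg _) h1
    · rw [abs_mul]
      exact mul_le_of_le_one_left (abs_nonneg _) h2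
    · rw [abs_mul]
      exact mul_le_of_le_one_left (abs_nonneg _) h3
  rw [sum_add_distrib, sum_add_distrib] at this
  linarith

theorem ex_mono (x d : ℕ) (t : ℕ) : ex x (d * t) ≤ ex x (d * (t + 1)) := by
  unfold ex
  refine div_le_div_of_nonneg_right ?_ (Real.log_natCast_nonneg x)
  rcases Nat.eq_zero_or_pos (d * t) with h | h
  · rw [h, Nat.cast_zero, Real.log_zero]
    exact Real.log_natCast_nonneg _
  · refine Real.log_le_log (by exact_mod_cast h) ?_
    exact_mod_cast Nat.mul_le_mul_left d (Nat.le_succ t)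

end Pool.Agent.HS
end

section
/-! # Module W.LinU: upper bounds (linear arithmetic)

Put `S` for the sum. Group the subsets with their complements.
`F3`: `1 + ∑ h(a_i)`, `h(a) = g1 a + g2 (S - a)`: `h = -1` for `a ≤ 5/12`, `h ≤ 1` always.
`F4`: `g1 a + g3 (S - a) ≤ -1` (four times), `g2 s + g2 (S - s) ≤ 1` (three times), `g4 S = 0`.
`F5`: all exponents are `≤ 1/3 + ..`: five primes give `-5`; `g4 = 0` on sums `≥ 2/3`; a pair and its complementary triple give
`≤ w s`, `w = 1` if `s < 19/50`, `0` in `[19/50, 5/12)`, `-1` if `s ≥ 5/12`. Sorted `a ≤ b ≤ c ≤ d ≤ e` (so `e` largest): if `e + b ≥ 5/12` or `d + c ≥ 5/12` then three of the ten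
`w` are `-1`: sum `≤ 4`. Otherwise `e + b, d + c > 7/12 - 3/2 κ - a > 19/50` (`a ≤ 1/5`); then cases `e + d`, `e + c` `≥ 5/12` or not, as in the note (sum `≤ 4`). -/

namespace Pool.Agent.HS

end Pool.Agent.HS
end

section
/-! # Module W.Div: divisor sums as `Fr`, and the minorant property

`sum_gE`: induction on `l`: the divisors of `p m` are those of `m` and `p` times those of `m`.
`minor56`: `n` composite, `aa ≠ 0`: `n` squarefree `z`-rough, `n = p₁ ⋯ p_k` sorted, `2 ≤ k ≤ 5` (`z⁶ ≥ x`), `aa_eq`, `sum_gE`, `F2_le` - `F5_le`; `S = ex x n > 1 - 3/2 κ` as `n > x/8`. -/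

namespace Pool.Agent.HS

open Finset

namespace Dv

theorem ex_one' (x : ℕ) : ex x 1 = 0 := by
  unfold ex
  rw [Nat.cast_one, Real.log_one, zero_div]

theorem ex_mul' (x : ℕ) {m n : ℕ} (hm : m ≠ 0) (hn : n ≠ 0) : ex x (m * n) = ex x m + ex x n := by
  unfold ex
  rw [Nat.cast_mul, Real.log_mul (Nat.cast_ne_zero.2 hm) (Nat.cast_ne_zero.2 hn), add_div]

theorem prod_ne' {l : List ℕ} (hp : ∀ p ∈ l, p.Prime) : l.prod ≠ 0 :=
  List.prod_ne_zero fun h => Nat.not_prime_zero (hp 0 h)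

theorem ex_prod' (x : ℕ) (l : List ℕ) (hp : ∀ p ∈ l, p.Prime) :
    ex x l.prod = (l.map (ex x)).sum := by
  induction l with
  | nil => simp [ex_one']
  | cons a l ih =>
    have h1 : ∀ p ∈ l, p.Prime := fun p h => hp p (List.mem_cons_of_mem _ h)
    rw [List.prod_cons, List.map_cons, List.sum_cons,
      ex_mul' x (hp a (List.mem_cons_self ..)).ne_zero (prod_ne' h1), ih h1]

theorem card_pf_mul {d p : ℕ} (hp : p.Prime) (hpd : ¬ p ∣ d) :
    (d * p).primeFactors.card = d.primeFactors.card + 1 := by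
  have hcop : Nat.Coprime d p := ((Nat.Prime.coprime_iff_not_dvd hp).2 hpd).symm
  rw [hcop.primeFactors_mul, hp.primeFactors, card_union_of_disjoint, card_singleton]
  rw [disjoint_singleton_right, Nat.mem_primeFactors]
  exact fun h => hpd h.2.1

theorem not_dvd_prod' {a : ℕ} {l : List ℕ} (ha : a.Prime) (hp : ∀ p ∈ l, p.Prime) (h : a ∉ l) :
    ¬ a ∣ l.prod := by
  intro h1
  rw [(Nat.prime_iff.1 ha).dvd_prod_iff] at h1
  obtain ⟨b, hb, hab⟩ := h1
  rw [(Nat.prime_dvd_prime_iff_eq ha (hp b hb))] at hab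
  exact h (hab ▸ hb)

end Dv

open Dv

namespace Dv

theorem rough_prod {z : ℕ} {l : List ℕ} (hp : ∀ p ∈ l, p.Prime) (hz : ∀ p ∈ l, z ≤ p)
    (hd : l.Nodup) : Rough z l.prod := by
  induction l with
  | nil =>
    rw [List.prod_nil]
    refine ⟨squarefree_one, fun p h1 h2 => ?_⟩
    exact absurd (Nat.dvd_one.1 h2) h1.ne_one
  | cons a l ih =>
    have h1 : ∀ p ∈ l, p.Prime := fun p h => hp p (List.mem_cons_of_mem _ h)
    have ha : a.Prime := hp a (List.mem_cons_self ..)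
    have hd' := List.nodup_cons.1 hd
    have hnd := not_dvd_prod' ha h1 hd'.1
    obtain ⟨h2, h3⟩ := ih h1 (fun p h => hz p (List.mem_cons_of_mem _ h)) hd'.2
    rw [List.prod_cons]
    refine ⟨(Nat.squarefree_mul ((Nat.Prime.coprime_iff_not_dvd ha).2 hnd)).2 ⟨ha.squarefree, h2⟩,
      fun p h4 h5 => ?_⟩
    rcases (Nat.Prime.dvd_mul h4).1 h5 with h6 | h6
    · rw [(Nat.prime_dvd_prime_iff_eq h4 ha).1 h6]
      exact hz a (List.mem_cons_self ..)
    · exact h3 p h4 h6

theorem rough_dvd {z m d : ℕ} (h : Rough z m) (hd : d ∣ m) : Rough z d :=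
  ⟨Squarefree.squarefree_of_dvd hd h.1, fun p h1 h2 => h.2 p h1 (h2.trans hd)⟩

end Dv

namespace Dv

theorem ex_le_one {x n : ℕ} (hx : 2 ≤ x) (hn : n ≤ x) : ex x n ≤ 1 := by
  have hx1 : (1 : ℝ) < x := by exact_mod_cast (by omega : 1 < x)
  have hL := Real.log_pos hx1
  unfold ex
  rw [div_le_one hL]
  rcases Nat.eq_zero_or_pos n with h0 | h0
  · rw [h0, Nat.cast_zero, Real.log_zero]
    exact hL.le
  · exact Real.log_le_log (by exact_mod_cast h0) (by exact_mod_cast hn)

theorem ex_gt_of {x n : ℕ} (hx : 2 ≤ x) (hn : x / 8 < n) : 1 - 3 / 2 * kap x < ex x n := by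
  have hx1 : (1 : ℝ) < x := by exact_mod_cast (by omega : 1 < x)
  have hL := Real.log_pos hx1
  have h1 : (x : ℝ) < 8 * n := by exact_mod_cast (by omega : x < 8 * n)
  have hn0 : (0 : ℝ) < n := by exact_mod_cast (by omega : 0 < n)
  have h2 : Real.log x < Real.log 8 + Real.log n := by
    rw [← Real.log_mul (by norm_num) hn0.ne']
    exact Real.log_lt_log (by linarith) h1
  have h3 : Real.log 8 = 3 * Real.log 2 := by
    rw [show (8 : ℝ) = 2 ^ 3 by norm_num, Real.log_pow]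
    norm_num
  have h4 : Real.log 4 = 2 * Real.log 2 := by
    rw [show (4 : ℝ) = 2 ^ 2 by norm_num, Real.log_pow]
    norm_num
  unfold ex kap
  rw [show 1 - 3 / 2 * (Real.log 4 / Real.log x) = (Real.log x - 3 / 2 * Real.log 4) / Real.log x by
    field_simp]
  rw [div_lt_div_iff_of_pos_right hL]
  linarith

theorem kap_nn (x : ℕ) : 0 ≤ kap x := by
  unfold kap
  rcases Nat.eq_zero_or_pos x with h0 | h0
  · rw [h0, Nat.cast_zero, Real.log_zero, div_zero]
  · exact div_nonneg (Real.log_nonneg (by norm_num)) (Real.log_nonneg (by exact_mod_cast h0))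

theorem kap_small (c : ℝ) (hc : 0 < c) : ∃ x₁ : ℕ, ∀ x : ℕ, x₁ ≤ x → kap x ≤ c := by
  refine ⟨⌈Real.exp (Real.log 4 / c)⌉₊, fun x hx => ?_⟩
  have h4 : 0 < Real.log 4 := Real.log_pos (by norm_num)
  have h1 : Real.exp (Real.log 4 / c) ≤ x := by
    calc Real.exp (Real.log 4 / c) ≤ (⌈Real.exp (Real.log 4 / c)⌉₊ : ℝ) := Nat.le_ceil _
      _ ≤ x := by exact_mod_cast hx
  have h2 : Real.log 4 / c ≤ Real.log x := by
    rw [← Real.log_exp (Real.log 4 / c)]
    exact Real.log_le_log (Real.exp_pos _) h1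
  have h3 : 0 < Real.log x := lt_of_lt_of_le (div_pos h4 hc) h2
  unfold kap
  rw [div_le_iff₀ h3, mul_comm]
  rwa [div_le_iff₀ hc] at h2

theorem ex_mono' {x m n : ℕ} (hm : 1 ≤ m) (h : m ≤ n) : ex x m ≤ ex x n := by
  unfold ex
  rcases Nat.eq_zero_or_pos x with h0 | h0
  · rw [h0, Nat.cast_zero, Real.log_zero, div_zero, div_zero]
  · refine div_le_div_of_nonneg_right ?_ (Real.log_nonneg (by exact_mod_cast h0))
    exact Real.log_le_log (by exact_mod_cast hm) (by exact_mod_cast h)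

end Dv

end Pool.Agent.HS
end

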