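import Pool.Agent.Work.GBM.C01
import Pool.Agent.Work.GBM.C02
import Pool.Agent.Work.GBM.C12
import Pool.Agent.Work.GBM.C15
import Pool.Agent.Work.GBM.C16
import Pool.Agent.Work.GBM.C19
import Pool.Agent.Work.GBM.C21

section
/-! # Module CtlMinorN: controlled functions on the minor arcs

As HS/CtlMinor: type I part `CtlMinor.partI` (`VV_le`), type II part `minor_II` for each `j`, Cauchy over `j < J`, error `CtlMinor.trivial_le`. (`VV (f₁ + f₂ + f₃) ≤ 3 ∑ VV f_i`.) -/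

namespace Pool.Agent.HN

open Finset Pool.Agent.BV Pool.Agent.HL Pool.Agent.HS
open Pool.Agent.HT.IIMinor (one_le_log sq_sum_le)

namespace CtlMinorN

lemma VV_congr {q y : ℕ} {f g : ℕ → ℂ} (α : ℝ) (h : ∀ n, 1 ≤ n → n ≤ y → f n = g n) :
    VV q y f α = VV q y g α := by
  unfold VV
  refine sum_congr rfl fun a _ => ?_
  congr 2
  refine sum_congr rfl fun n hn => ?_
  obtain ⟨hn1, _⟩ := mem_filter.mp hn
  obtain ⟨h1, h2⟩ := mem_Icc.mp hn1
  rw [h n h1 h2]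

lemma norm3_sq (a b c : ℂ) : ‖a + b + c‖ ^ 2 ≤ 3 * (‖a‖ ^ 2 + ‖b‖ ^ 2 + ‖c‖ ^ 2) := by
  have b1 : ‖a + b + c‖ ≤ ‖a‖ + ‖b‖ + ‖c‖ :=
    (norm_add_le _ _).trans (add_le_add_left (norm_add_le _ _) _)
  have b2 := pow_le_pow_left₀ (norm_nonneg _) b1 2
  nlinarith [sq_nonneg (‖a‖ - ‖b‖), sq_nonneg (‖a‖ - ‖c‖), sq_nonneg (‖b‖ - ‖c‖)]

lemma VV_add3 (q y : ℕ) (f g h : ℕ → ℂ) (α : ℝ) :
    VV q y (fun n => f n + g n + h n) α ≤ 3 * (VV q y f α + VV q y g α + VV q y h α) := by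
  unfold VV
  rw [← sum_add_distrib, ← sum_add_distrib, mul_sum]
  refine sum_le_sum fun a _ => ?_
  have h1 : ∑ n ∈ (Icc 1 y).filter (fun n => n % q = a), (f n + g n + h n) * e (n * α) =
      ∑ n ∈ (Icc 1 y).filter (fun n => n % q = a), f n * e (n * α) +
      ∑ n ∈ (Icc 1 y).filter (fun n => n % q = a), g n * e (n * α) +
      ∑ n ∈ (Icc 1 y).filter (fun n => n % q = a), h n * e (n * α) := by
    rw [← sum_add_distrib, ← sum_add_distrib]
    exact sum_congr rfl fun n _ => by ring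
  rw [h1]
  exact norm3_sq _ _ _

lemma VV_sum (q y J : ℕ) (g : ℕ → ℕ → ℂ) (α : ℝ) :
    VV q y (fun n => ∑ j ∈ range J, g j n) α ≤ J * ∑ j ∈ range J, VV q y (g j) α := by
  unfold VV
  rw [sum_comm, mul_sum]
  refine sum_le_sum fun a _ => ?_
  have h1 : ∑ n ∈ (Icc 1 y).filter (fun n => n % q = a), (∑ j ∈ range J, g j n) * e (n * α) =
      ∑ j ∈ range J, ∑ n ∈ (Icc 1 y).filter (fun n => n % q = a), g j n * e (n * α) := by
    rw [sum_comm]
    exact sum_congr rfl fun n _ => by rw [sum_mul]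
  rw [h1]
  have h2 := sq_sum_le (range J)
    (fun j => ∑ n ∈ (Icc 1 y).filter (fun n => n % q = a), g j n * e (n * α))
  rwa [card_range] at h2

lemma FA_mul {q : ℕ} {φ : ℕ → ℂ} (hφ : Tw q φ) (f : ℕ → ℝ) (n : ℕ) :
    FA q f n * φ n = ((f n : ℝ) : ℂ) * φ n := by
  unfold FA
  split_ifs with h
  · rfl
  · rw [hφ.cop n h]
    simp

lemma VV_FA_le {q y : ℕ} (hq : 1 ≤ q) (f : ℕ → ℝ) (α K : ℝ) (hK : 0 ≤ K)
    (h : ∀ φ, Tw q φ → ‖∑ n ∈ Icc 1 y, ((f n : ℝ) : ℂ) * (φ n * e (n * α))‖ ^ 2 ≤ K) :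
    VV q y (FA q f) α ≤ K := by
  have h1 : VV q y (FA q f) α ≤ (Real.sqrt K) ^ 2 := by
    refine VV_le q y hq (FA q f) (fun n hn => by unfold FA; rw [if_neg hn]) α _
      (Real.sqrt_nonneg _) ?_
    intro φ hφ
    refine Real.le_sqrt_of_sq_le ?_
    have h2 : ∑ n ∈ Icc 1 y, FA q f n * φ n * e (n * α) =
        ∑ n ∈ Icc 1 y, ((f n : ℝ) : ℂ) * (φ n * e (n * α)) := by
      refine sum_congr rfl fun n _ => ?_
      rw [FA_mul hφ, mul_assoc]
    rw [h2]
    exact h φ hφ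
  rwa [Real.sq_sqrt hK] at h1

lemma FA_split {x D w₁ w₂ J : ℕ} {A B : ℕ → ℕ → ℝ} {β err f : ℕ → ℝ}
    (h : Ctl x D w₁ w₂ J A B β err f) (q : ℕ) {n : ℕ} (h1 : 1 ≤ n) (h2 : n ≤ x) :
    FA q f n = FA q (fun n => ∑ m ∈ n.divisors, β m) n +
      ∑ j ∈ range J, FA q (fun n => ∑ p ∈ n.divisorsAntidiagonal, A j p.1 * B j p.2) n +
      FA q err n := by
  unfold FA
  split_ifs
  · rw [h.eq n h1 h2]
    push_cast
    rfl
  · simp

end CtlMinorN

open CtlMinorN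

theorem ctl_minorN (η₁ : ℝ) (hη₁ : 0 < η₁) : ∃ (C : ℝ) (c : ℕ), 0 < C ∧ ∀ (x y q s D w₁ w₂ J : ℕ)
    (A B : ℕ → ℕ → ℝ) (β err f : ℕ → ℝ) (M α η : ℝ) (b : ℤ), Ctl x D w₁ w₂ J A B β err f →
    ∑ n ∈ Icc 1 x, (err n) ^ 2 ≤ M → 3 ≤ y → y ≤ x → 1 ≤ q → (q : ℝ) ≤ (x : ℝ) ^ (1 - η₁) →
    1 ≤ w₁ → w₁ ≤ w₂ → w₂ ≤ x → D ≤ x → 1 ≤ s → q * s ≤ y → IsCoprime b (s : ℤ) →
    |q * α - b / s| ≤ 1 / (s : ℝ) ^ 2 → |q * α - b / s| ≤ (q : ℝ) / x → 0 < η → η ≤ 1 →
    2 ≤ η * w₁ → (q : ℝ) ≤ η * x →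
    VV q y (FA q f) α ≤ C * (Real.log x) ^ c *
      (((x : ℝ) ^ 2 / q) * (1 / s + q * s / x + q * D ^ 2 / x ^ 2) +
        (J : ℝ) ^ 2 * (1 / η ^ 2 * ((s : ℝ) * x + (x : ℝ) ^ 2 / (q * w₁) + (x : ℝ) * w₂ / q +
          (x : ℝ) ^ 2 / (q * (s : ℝ) ^ (1 / 4 : ℝ))) + (x : ℝ) ^ 2 / q * Real.sqrt η) +
        (x / q + 1) * M) := by
  obtain ⟨C₁, hC₁, hI⟩ := typeIG
  obtain ⟨C₂, c₂, hC₂, hII⟩ := minor_II η₁ hη₁
  refine ⟨9 * C₁ ^ 2 + 3 * C₂ + 3, 6 + c₂, by positivity, ?_⟩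
  intro x y q s D w₁ w₂ J A B β err f M α η b hctl hM hy hyx hq hqx hw₁ hw₁₂ hw₂ hDx hs hqs hbs
    hα hα' hη hη1 hηw hqη
  have hx : 3 ≤ x := hy.trans hyx
  have hL := one_le_log hx
  have hq0 : (0 : ℝ) < q := by exact_mod_cast hq
  have hs0 : (0 : ℝ) < s := by exact_mod_cast hs
  have hx0 : (0 : ℝ) < x := by exact_mod_cast (by omega : 0 < x)
  have hw0 : (0 : ℝ) < w₁ := by exact_mod_cast hw₁
  have hM0 : 0 ≤ M := (sum_nonneg fun _ _ => sq_nonneg _).trans hM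
  have hsx : s ≤ x := (le_trans (Nat.le_mul_of_pos_left _ hq) hqs).trans hyx
  set T₁ := ((x : ℝ) ^ 2 / q) * (1 / s + q * s / x + q * D ^ 2 / x ^ 2) with hT₁
  set T₂ := 1 / η ^ 2 * ((s : ℝ) * x + (x : ℝ) ^ 2 / (q * w₁) + (x : ℝ) * w₂ / q +
          (x : ℝ) ^ 2 / (q * (s : ℝ) ^ (1 / 4 : ℝ))) + (x : ℝ) ^ 2 / q * Real.sqrt η with hT₂
  have hT₁0 : 0 ≤ T₁ := by positivity
  have hT₂0 : 0 ≤ T₂ := by positivity
  set L := Real.log x with hLdef
  -- type I
  have a1 : VV q y (FA q (fun n => ∑ m ∈ n.divisors, β m)) α ≤ 3 * C₁ ^ 2 * L ^ 6 * T₁ := by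
    refine VV_FA_le hq _ α _ (by positivity) ?_
    intro φ hφ
    exact CtlMinor.partI hC₁ hI hctl.hβ hctl.hβD hy hyx hq hqs hφ hs hbs hα
  -- error
  have a3 : VV q y (FA q err) α ≤ M * (x / q + 1) := by
    refine VV_FA_le hq _ α _ (by positivity) ?_
    intro φ hφ
    have a4 := CtlMinor.trivial_le hq hφ y α (fun n => ((err n : ℝ) : ℂ)) M (by
      refine le_trans ?_ hM
      calc ∑ n ∈ Icc 1 y, ‖((err n : ℝ) : ℂ)‖ ^ 2 = ∑ n ∈ Icc 1 y, (err n) ^ 2 := by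
            refine sum_congr rfl fun n _ => ?_
            rw [Complex.norm_real, Real.norm_eq_abs, sq_abs]
        _ ≤ _ := sum_le_sum_of_subset_of_nonneg (Icc_subset_Icc_right hyx)
            (fun _ _ _ => sq_nonneg _))
    refine a4.trans ?_
    have : (y : ℝ) ≤ x := by exact_mod_cast hyx
    gcongr
  -- type II
  have a2 : VV q y (fun n => ∑ j ∈ range J,
      FA q (fun n => ∑ p ∈ n.divisorsAntidiagonal, A j p.1 * B j p.2) n) α ≤
      (J : ℝ) ^ 2 * (C₂ * L ^ c₂ * T₂) := by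
    refine (VV_sum q y J (fun j => FA q (fun n => ∑ p ∈ n.divisorsAntidiagonal,
      A j p.1 * B j p.2)) α).trans ?_
    calc (J : ℝ) * ∑ j ∈ range J, VV q y (FA q (fun n => ∑ p ∈ n.divisorsAntidiagonal,
          A j p.1 * B j p.2)) α ≤ J * ∑ _j ∈ range J, C₂ * L ^ c₂ * T₂ := by
          refine mul_le_mul_of_nonneg_left (sum_le_sum fun j _ => ?_) (Nat.cast_nonneg _)
          exact hII x y q s w₁ w₂ (A j) (B j) α η b hx hyx hq hqx hw₁ hw₁₂ hw₂ (hctl.hA j)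
            (hctl.hAs j) (hctl.hB j) hs hsx hbs hα' hη hη1 hηw hqη
      _ = _ := by
          rw [sum_const, card_range, nsmul_eq_mul]
          ring
  have h1 : VV q y (FA q f) α ≤ 3 * (3 * C₁ ^ 2 * L ^ 6 * T₁ +
      (J : ℝ) ^ 2 * (C₂ * L ^ c₂ * T₂) + M * (x / q + 1)) := by
    rw [VV_congr α (fun n h1 h2 => FA_split hctl q h1 (h2.trans hyx))]
    refine (VV_add3 q y _ _ _ α).trans ?_
    linarith
  refine h1.trans ?_
  set N := (J : ℝ) ^ 2 * T₂ with hN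
  have hN0 : 0 ≤ N := by positivity
  set E := ((x : ℝ) / q + 1) * M with hE
  have hE0 : 0 ≤ E := by positivity
  have hL0 : 0 ≤ L := by linarith
  have hL6 : L ^ 6 ≤ L ^ (6 + c₂) := pow_le_pow_right₀ hL (by omega)
  have hLc : L ^ c₂ ≤ L ^ (6 + c₂) := pow_le_pow_right₀ hL (by omega)
  have hL1 : 1 ≤ L ^ (6 + c₂) := one_le_pow₀ hL
  have hP0 : 0 ≤ L ^ (6 + c₂) := by positivity
  have g1 : L ^ 6 * T₁ ≤ L ^ (6 + c₂) * T₁ := mul_le_mul_of_nonneg_right hL6 hT₁0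
  have g2 : L ^ c₂ * N ≤ L ^ (6 + c₂) * N := mul_le_mul_of_nonneg_right hLc hN0
  have g3 : E ≤ L ^ (6 + c₂) * E := le_mul_of_one_le_left hE0 hL1
  have p1 : 0 ≤ L ^ (6 + c₂) * T₁ := mul_nonneg hP0 hT₁0
  have p2 : 0 ≤ L ^ (6 + c₂) * N := mul_nonneg hP0 hN0
  have p3 : 0 ≤ L ^ (6 + c₂) * E := mul_nonneg hP0 hE0
  have q1 : 0 ≤ C₁ ^ 2 * (L ^ (6 + c₂) * N) := mul_nonneg (sq_nonneg _) p2
  have q2 : 0 ≤ C₁ ^ 2 * (L ^ (6 + c₂) * E) := mul_nonneg (sq_nonneg _) p3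
  have q3 : 0 ≤ C₂ * (L ^ (6 + c₂) * T₁) := mul_nonneg hC₂.le p1
  have q4 : 0 ≤ C₂ * (L ^ (6 + c₂) * E) := mul_nonneg hC₂.le p3
  have r1 : C₁ ^ 2 * (L ^ 6 * T₁) ≤ C₁ ^ 2 * (L ^ (6 + c₂) * T₁) :=
    mul_le_mul_of_nonneg_left g1 (sq_nonneg _)
  have r2 : C₂ * (L ^ c₂ * N) ≤ C₂ * (L ^ (6 + c₂) * N) := mul_le_mul_of_nonneg_left g2 hC₂.le
  have e1 : 3 * (3 * C₁ ^ 2 * L ^ 6 * T₁ + (J : ℝ) ^ 2 * (C₂ * L ^ c₂ * T₂) +
      M * (x / q + 1)) = 9 * (C₁ ^ 2 * (L ^ 6 * T₁)) + 3 * (C₂ * (L ^ c₂ * N)) + 3 * E := by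
    rw [hN, hE]
    ring
  have e2 : (9 * C₁ ^ 2 + 3 * C₂ + 3) * L ^ (6 + c₂) * (T₁ + N + E) =
      9 * (C₁ ^ 2 * (L ^ (6 + c₂) * T₁)) + 9 * (C₁ ^ 2 * (L ^ (6 + c₂) * N)) +
      9 * (C₁ ^ 2 * (L ^ (6 + c₂) * E)) + 3 * (C₂ * (L ^ (6 + c₂) * T₁)) +
      3 * (C₂ * (L ^ (6 + c₂) * N)) + 3 * (C₂ * (L ^ (6 + c₂) * E)) +
      3 * (L ^ (6 + c₂) * T₁) + 3 * (L ^ (6 + c₂) * N) + 3 * (L ^ (6 + c₂) * E) := by
    ring
  rw [e1, e2]
  linarith

end Pool.Agent.HN
end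

section
/-! # Module SwFC: decomposition by the largest prime factor, and the proof of `swF` -/

namespace Pool.Agent.HS

open Finset Pool.Agent.BV Pool.Agent.HL Filter
open scoped ArithmeticFunction.vonMangoldt ArithmeticFunction.Moebius

/-- `P` exceeds all the prime factors of `m` -/
def Top (m P : ℕ) : Prop := ∀ p : ℕ, p.Prime → p ∣ m → p < P

theorem Top.not_dvd {m P : ℕ} (h : Top m P) (hP : P.Prime) : ¬ P ∣ m := fun hd =>
  lt_irrefl _ (h P hP hd)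

theorem top_inj {m m' P P' : ℕ} (hP : P.Prime) (hP' : P'.Prime) (h : Top m P) (h' : Top m' P')
    (he : m * P = m' * P') : m = m' ∧ P = P' := by
  have key : P = P' := by
    rcases lt_trichotomy P P' with hlt | heq | hgt
    · exfalso
      have h1 : P' ∣ m * P := by rw [he]; exact Dvd.intro_left m' rfl
      rcases (Nat.Prime.dvd_mul hP').1 h1 with h2 | h2
      · have := h P' hP' h2; omega
      · have := (Nat.prime_dvd_prime_iff_eq hP' hP).1 h2; omega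
    · exact heq
    · exfalso
      have h1 : P ∣ m' * P' := by rw [← he]; exact Dvd.intro_left m rfl
      rcases (Nat.Prime.dvd_mul hP).1 h1 with h2 | h2
      · have := h' P hP h2; omega
      · have := (Nat.prime_dvd_prime_iff_eq hP hP').1 h2; omega
  subst key
  exact ⟨Nat.eq_of_mul_eq_mul_right hP.pos he, rfl⟩

theorem exists_top {c : ℕ} (hc : 2 ≤ c) (hsf : Squarefree c) :
    ∃ m P : ℕ, P.Prime ∧ Top m P ∧ c = m * P ∧ 1 ≤ m := by
  have hne : c.primeFactors.Nonempty := by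
    rw [Nat.nonempty_primeFactors]; omega
  set P := c.primeFactors.max' hne with hP
  have hPm : P ∈ c.primeFactors := max'_mem _ _
  have hPp : P.Prime := Nat.prime_of_mem_primeFactors hPm
  have hPc : P ∣ c := Nat.dvd_of_mem_primeFactors hPm
  obtain ⟨m, hm⟩ := hPc
  rw [mul_comm] at hm
  refine ⟨m, P, hPp, ?_, hm, ?_⟩
  · intro p hp hpm
    have h1 : p ∈ c.primeFactors := by
      rw [Nat.mem_primeFactors]
      exact ⟨hp, by rw [hm]; exact Dvd.dvd.mul_right hpm P, by omega⟩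
    have h2 : p ≤ P := le_max' _ _ h1
    rcases Nat.eq_or_lt_of_le h2 with h3 | h3
    · exfalso
      rw [h3] at hpm
      have h4 : P * P ∣ c := by rw [hm]; exact Nat.mul_dvd_mul_right hpm P
      have h5 := hsf P h4
      exact hPp.one_lt.ne' (Nat.isUnit_iff.1 h5)
    · exact h3
  · rcases Nat.eq_zero_or_pos m with h | h
    · rw [h] at hm; omega
    · exact h

open Classical in
/-- decomposition by the largest prime factor -/
theorem sum_top (f : ℕ → ℂ) (y u : ℕ) (hy : 1 ≤ y)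
    (hf : ∀ c, f c ≠ 0 → 2 ≤ c ∧ Squarefree c ∧ ∀ p : ℕ, p.Prime → p ∣ c → y ≤ p) :
    ∑ c ∈ Icc 1 u, f c = ∑ m ∈ Icc 1 (u / y),
      ∑ P ∈ (Icc y (u / m)).filter (fun P => P.Prime ∧ Top m P), f (m * P) := by
  rw [sum_sigma']
  symm
  apply sum_of_injOn (fun s : (Σ _ : ℕ, ℕ) => s.1 * s.2)
  · rintro ⟨m, P⟩ h1 ⟨m', P'⟩ h2 he
    simp only [coe_sigma, Set.mem_sigma_iff, mem_coe, mem_filter, mem_Icc] at h1 h2
    obtain ⟨e1, e2⟩ := top_inj h1.2.2.1 h2.2.2.1 h1.2.2.2 h2.2.2.2 he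
    rw [e1, e2]
  · rintro ⟨m, P⟩ h1
    simp only [coe_sigma, Set.mem_sigma_iff, mem_coe, mem_filter, mem_Icc] at h1
    obtain ⟨⟨hm1, _⟩, ⟨hP1, hP2⟩, hPp, _⟩ := h1
    simp only [coe_Icc, Set.mem_Icc]
    refine ⟨Nat.mul_pos hm1 hPp.pos, ?_⟩
    calc m * P ≤ m * (u / m) := Nat.mul_le_mul_left _ hP2
      _ ≤ u := Nat.mul_div_le u m
  · intro c hc hc'
    by_contra hne
    obtain ⟨h2, hsf, hpy⟩ := hf c hne
    obtain ⟨m, P, hPp, hT, hcm, hm1⟩ := exists_top h2 hsf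
    apply hc'
    refine ⟨⟨m, P⟩, ?_, hcm.symm⟩
    simp only [coe_sigma, Set.mem_sigma_iff, mem_coe, mem_filter, mem_Icc]
    have hyP : y ≤ P := hpy P hPp (by rw [hcm]; exact Dvd.intro_left m rfl)
    have hcu := (mem_Icc.1 hc).2
    refine ⟨⟨hm1, ?_⟩, ⟨hyP, ?_⟩, hPp, hT⟩
    · rw [Nat.le_div_iff_mul_le (by omega)]
      calc m * y ≤ m * P := Nat.mul_le_mul_left _ hyP
        _ = c := hcm.symm
        _ ≤ u := hcu
    · rw [Nat.le_div_iff_mul_le (by omega), mul_comm, ← hcm]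
      exact hcu
  · rintro ⟨m, P⟩ _
    rfl

/-- convex sets of integers are intervals -/
theorem interval_of_convex (p : ℕ → Prop) (y N : ℕ) (hp : ∀ n, p n → y ≤ n ∧ n ≤ N)
    (hc : ∀ i j k, p i → p k → i ≤ j → j ≤ k → p j) :
    ∃ a b, y ≤ a ∧ b ≤ N + 1 ∧ ∀ n, p n ↔ a ≤ n ∧ n < b := by
  classical
  by_cases h : ∃ n, p n
  · have h1 : p (Nat.find h) := Nat.find_spec h
    have h2 : p (Nat.findGreatest p N) :=
      Nat.findGreatest_spec (P := p) (hp _ h1).2 h1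
    refine ⟨Nat.find h, Nat.findGreatest p N + 1, (hp _ h1).1, ?_, fun n => ⟨fun hn => ?_, ?_⟩⟩
    · have := Nat.findGreatest_le (P := p) N; omega
    · exact ⟨Nat.find_min' h hn, Nat.lt_succ_of_le (Nat.le_findGreatest (hp n hn).2 hn)⟩
    · rintro ⟨h3, h4⟩
      exact hc _ n _ h1 h2 h3 (Nat.lt_succ_iff.1 h4)
  · push Not at h
    exact ⟨y, 0, le_rfl, Nat.zero_le _, fun n => ⟨fun hn => absurd hn (h n), fun hn => by omega⟩⟩

theorem minFac_mul_top {m P : ℕ} (hm : m ≠ 1) (hm0 : m ≠ 0) (hP : P.Prime) (h : Top m P) :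
    (m * P).minFac = m.minFac := by
  have hmp := Nat.minFac_prime hm
  apply le_antisymm
  · exact Nat.minFac_le_of_dvd hmp.two_le ((Nat.minFac_dvd m).mul_right P)
  · have hne : m * P ≠ 1 := by
      intro h1
      exact hm (Nat.eq_one_of_mul_eq_one_right h1)
    have hq := Nat.minFac_prime hne
    rcases (Nat.Prime.dvd_mul hq).1 (Nat.minFac_dvd (m * P)) with h2 | h2
    · exact Nat.minFac_le_of_dvd hq.two_le h2
    · have h3 := (Nat.prime_dvd_prime_iff_eq hq hP).1 h2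
      rw [h3]
      exact (h _ hmp (Nat.minFac_dvd m)).le

theorem CC_mul_top {y z m P : ℕ} (hP : P.Prime) (h : Top m P) :
    CC y z (m * P) ↔ CC y z m ∧ y ≤ P ∧ P < z := by
  have hco : m.Coprime P := by
    rw [Nat.coprime_comm]
    exact (Nat.Prime.coprime_iff_not_dvd hP).2 (h.not_dvd hP)
  unfold CC
  rw [Nat.squarefree_mul hco]
  constructor
  · rintro ⟨⟨h1, _⟩, h2⟩
    exact ⟨⟨h1, fun p hp hpm => h2 p hp (hpm.mul_right P)⟩, h2 P hP (Dvd.intro_left m rfl)⟩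
  · rintro ⟨⟨h1, h2⟩, h3⟩
    refine ⟨⟨h1, hP.squarefree⟩, fun p hp hpm => ?_⟩
    rcases (Nat.Prime.dvd_mul hp).1 hpm with h4 | h4
    · exact h2 p hp h4
    · rw [(Nat.prime_dvd_prime_iff_eq hp hP).1 h4]; exact h3

theorem moebius_mul_top {m P : ℕ} (hP : P.Prime) (h : Top m P) :
    (μ (m * P) : ℤ) = - μ m := by
  have hco : m.Coprime P := by
    rw [Nat.coprime_comm]
    exact (Nat.Prime.coprime_iff_not_dvd hP).2 (h.not_dvd hP)
  rw [ArithmeticFunction.isMultiplicative_moebius.map_mul_of_coprime hco,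
    ArithmeticFunction.moebius_apply_prime hP]
  ring

open Classical in
/-- for a fixed cofactor, the conditions on the largest prime factor define an interval -/
theorem AJ_top (y z w : ℕ) (η : ℝ) (j m u : ℕ) (hm : 1 ≤ m) :
    ∃ (κ : ℝ) (a b : ℕ), |κ| ≤ 1 ∧ y ≤ a ∧ b ≤ u / m + 1 ∧
      (∀ P : ℕ, P.Prime → a ≤ P → P < b → P ∈ (Icc y (u / m)).filter (fun P => P.Prime ∧ Top m P)) ∧
      ∀ P ∈ (Icc y (u / m)).filter (fun P => P.Prime ∧ Top m P),
        AJ y z w η j (m * P) = if a ≤ P ∧ P < b then κ else 0 := by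
  set p : ℕ → Prop := fun P => Top m P ∧ y ≤ P ∧ P ≤ u / m ∧ P < z ∧ w ≤ m * P ∧
    (if m = 1 then 1 < w ∧ gr η j ≤ P ∧ P < gr η (j + 1) else
      m / m.minFac * P < w ∧ gr η j ≤ m.minFac ∧ m.minFac < gr η (j + 1)) with hp
  obtain ⟨a, b, ha, hb, hab⟩ := interval_of_convex p y (u / m)
    (fun n hn => ⟨hn.2.1, hn.2.2.1⟩) (by
      rintro i k l ⟨h1, h2, h3, h4, h5, h6⟩ ⟨g1, g2, g3, g4, g5, g6⟩ hik hkl
      refine ⟨fun q hq hqm => (h1 q hq hqm).trans_le hik, h2.trans hik, hkl.trans g3,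
        hkl.trans_lt g4, h5.trans (Nat.mul_le_mul_left _ hik), ?_⟩
      split_ifs with hm1
      · rw [if_pos hm1] at h6 g6
        exact ⟨h6.1, h6.2.1.trans hik, hkl.trans_lt g6.2.2⟩
      · rw [if_neg hm1] at h6 g6
        exact ⟨(Nat.mul_le_mul_left _ hkl).trans_lt g6.1, h6.2⟩)
  refine ⟨if CC y z m then - ((μ m : ℤ) : ℝ) else 0, a, b, ?_, ha, hb, ?_, ?_⟩
  · split_ifs
    · rw [abs_neg]; exact_mod_cast ArithmeticFunction.abs_moebius_le_one
    · simp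
  · intro P hP h1 h2
    have h3 := (hab P).2 ⟨h1, h2⟩
    rw [mem_filter, mem_Icc]
    exact ⟨⟨h3.2.1, h3.2.2.1⟩, hP, h3.1⟩
  · intro P hP
    rw [mem_filter, mem_Icc] at hP
    obtain ⟨⟨hyP, hPu⟩, hPp, hT⟩ := hP
    have hiff : (CC y z (m * P) ∧ w ≤ m * P ∧ (m * P) / (m * P).minFac < w ∧
        gr η j ≤ (m * P).minFac ∧ (m * P).minFac < gr η (j + 1)) ↔ (CC y z m ∧ a ≤ P ∧ P < b) := by
      rw [← hab P, CC_mul_top hPp hT]
      by_cases hm1 : m = 1
      · subst hm1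
        simp only [one_mul, hp, if_true, hPp.minFac_eq, Nat.div_self hPp.pos]
        constructor
        · rintro ⟨⟨h1, h2, h3⟩, h4, h5, h6, h7⟩
          exact ⟨h1, hT, h2, hPu, h3, h4, h5, h6, h7⟩
        · rintro ⟨h1, _, h2, _, h3, h4, h5, h6, h7⟩
          exact ⟨⟨h1, h2, h3⟩, h4, h5, h6, h7⟩
      · have hdiv : m * P / m.minFac = m / m.minFac * P :=
          (Nat.div_mul_right_comm (Nat.minFac_dvd m) P).symm
        simp only [hp, if_neg hm1, minFac_mul_top hm1 (by omega) hPp hT, hdiv]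
        constructor
        · rintro ⟨⟨h1, h2, h3⟩, h4, h5, h6, h7⟩
          exact ⟨h1, hT, h2, hPu, h3, h4, h5, h6, h7⟩
        · rintro ⟨h1, _, h2, _, h3, h4, h5, h6, h7⟩
          exact ⟨⟨h1, h2, h3⟩, h4, h5, h6, h7⟩
    unfold AJ
    rw [moebius_mul_top hPp hT]
    by_cases hC : CC y z m
    · by_cases hI : a ≤ P ∧ P < b
      · rw [if_pos (hiff.2 ⟨hC, hI⟩), if_pos hI, if_pos hC]; push_cast; ring
      · rw [if_neg (fun h => hI (hiff.1 h).2), if_neg hI]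
    · rw [if_neg (fun h => hC (hiff.1 h).1), if_neg hC]; simp

open Classical in
theorem AJ_inner {r : ℕ} (χ : DirichletCharacter ℂ r) (y z w : ℕ) (η : ℝ) (j m u : ℕ) (hm : 1 ≤ m)
    (K : ℝ) (hK : ∀ a b : ℕ, y ≤ a → b ≤ u / m + 1 →
      ‖∑ p ∈ (Ico a b).filter Nat.Prime, χ (p : ZMod r)‖ ≤ K) :
    ‖∑ P ∈ (Icc y (u / m)).filter (fun P => P.Prime ∧ Top m P),
      ((AJ y z w η j (m * P) : ℝ) : ℂ) * χ ((m * P : ℕ) : ZMod r)‖ ≤ K := by
  obtain ⟨κ, a, b, hκ, ha, hb, hsub, heq⟩ := AJ_top y z w η j m u hm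
  have e : ∑ P ∈ (Icc y (u / m)).filter (fun P => P.Prime ∧ Top m P),
      ((AJ y z w η j (m * P) : ℝ) : ℂ) * χ ((m * P : ℕ) : ZMod r) =
      ((κ : ℂ) * χ (m : ZMod r)) * ∑ p ∈ (Ico a b).filter Nat.Prime, χ (p : ZMod r) := by
    rw [mul_sum]
    symm
    rw [← sum_subset (s₁ := (Ico a b).filter Nat.Prime)
      (s₂ := (Icc y (u / m)).filter (fun P => P.Prime ∧ Top m P))]
    · refine sum_congr rfl fun P hP => ?_
      rw [mem_filter, mem_Ico] at hP
      rw [heq P (hsub P hP.2 hP.1.1 hP.1.2), if_pos hP.1]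
      push_cast
      rw [map_mul]
      ring
    · intro P hP
      rw [mem_filter, mem_Ico] at hP
      exact hsub P hP.2 hP.1.1 hP.1.2
    · intro P hP hP'
      rw [heq P hP, if_neg]
      · simp
      · intro hI
        apply hP'
        rw [mem_filter, mem_Ico]
        rw [mem_filter] at hP
        exact ⟨hI, hP.2.1⟩
  rw [e, norm_mul, norm_mul, Complex.norm_real, Real.norm_eq_abs]
  have h1 := hK a b ha hb
  have h2 : |κ| * ‖χ (m : ZMod r)‖ ≤ 1 := by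
    calc |κ| * ‖χ (m : ZMod r)‖ ≤ 1 * 1 := by
          gcongr
          exact DirichletCharacter.norm_le_one _ _
      _ = 1 := one_mul 1
  calc |κ| * ‖χ (m : ZMod r)‖ * ‖∑ p ∈ (Ico a b).filter Nat.Prime, χ (p : ZMod r)‖
      ≤ 1 * K := by gcongr
    _ = K := one_mul K

open Classical in
theorem swF_main (θ κ : ℝ) (hθ : 1 / 2 ≤ θ) (hθ1 : θ < 1) (hκ : 0 < κ) (hκ1 : κ ≤ 1 / 8)
    (B' A₁ B : ℕ) :
    ∃ x₁ : ℕ, ∀ x : ℕ, x₁ ≤ x → ∀ r : ℕ, 1 < r → (r : ℝ) ≤ (Real.log x) ^ A₁ → ∀ χ ∈ prim r,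
    ∀ j u : ℕ, wk κ x ≤ u → u ≤ wk κ x * zx θ x →
    ‖∑ c ∈ Icc 1 u, ((AJ (y0 x) (zx θ x) (wk κ x) (1 / (Real.log x) ^ B') j c : ℝ) : ℂ) *
      χ (c : ZMod r)‖ ≤ (u : ℝ) / (Real.log x) ^ B := by
  have hev := ((prime_sum_char A₁ (B + 2)).and ((evt_log 7).and
    ((evt_pow 2 0 κ hκ).and (eventually_ge_atTop 3))))
  obtain ⟨x₁, hx₁⟩ := eventually_atTop.1 hev
  refine ⟨x₁, fun x hx r hr hrL χ hχ j u hu1 hu2 => ?_⟩
  obtain ⟨hps, hL7, hw2, hx3⟩ := hx₁ x hx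
  set L : ℝ := Real.log x with hL
  have hL0 : 0 < L := by linarith
  have hx1 : (1 : ℝ) ≤ x := by
    have : (3 : ℝ) ≤ x := by exact_mod_cast hx3
    linarith
  have hw : 2 ≤ wk κ x := by
    have h1 : (2 : ℝ) ≤ wk κ x := by
      rw [pow_zero, mul_one] at hw2
      exact hw2.trans (Nat.le_ceil _)
    exact_mod_cast h1
  have hy1 : 1 ≤ y0 x := by
    unfold y0
    exact Nat.one_le_ceil_iff.2 (Real.exp_pos _)
  have hlogu : Real.log u ≤ 4 * L := by
    have hceil : ∀ t : ℝ, t ≤ 1 → 0 ≤ t → ((⌈(x : ℝ) ^ t⌉₊ : ℕ) : ℝ) ≤ 2 * x := by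
      intro t ht1 ht0
      have h1 : (x : ℝ) ^ t ≤ x := by
        calc (x : ℝ) ^ t ≤ (x : ℝ) ^ (1 : ℝ) := Real.rpow_le_rpow_of_exponent_le hx1 ht1
          _ = x := Real.rpow_one _
      have h2 := (Nat.ceil_lt_add_one (by positivity : (0 : ℝ) ≤ (x : ℝ) ^ t)).le
      linarith
    have h1 : ((wk κ x : ℕ) : ℝ) ≤ 2 * x := hceil κ (by linarith) hκ.le
    have h2 : ((zx θ x : ℕ) : ℝ) ≤ 2 * x := hceil (1 - θ) (by linarith) (by linarith)
    have h3 : (u : ℝ) ≤ x ^ 4 := by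
      have h4 : (u : ℝ) ≤ (wk κ x : ℝ) * (zx θ x : ℝ) := by exact_mod_cast hu2
      have h5 : (3 : ℝ) ≤ x := by exact_mod_cast hx3
      calc (u : ℝ) ≤ (wk κ x : ℝ) * (zx θ x : ℝ) := h4
        _ ≤ (2 * x) * (2 * x) := by gcongr
        _ = 2 ^ 2 * x ^ 2 := by ring
        _ ≤ x ^ 2 * x ^ 2 := by gcongr; linarith
        _ = x ^ 4 := by ring
    have hu0 : (0 : ℝ) < u := by
      have : 0 < u := by omega
      exact_mod_cast this
    have h6 := Real.log_le_log hu0 h3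
    rw [Real.log_pow] at h6
    exact_mod_cast h6
  have hu0 : (0 : ℝ) ≤ u := Nat.cast_nonneg u
  rw [sum_top (fun c => ((AJ (y0 x) (zx θ x) (wk κ x) (1 / L ^ B') j c : ℝ) : ℂ) * χ (c : ZMod r))
    (y0 x) u hy1]
  · calc ‖∑ m ∈ Icc 1 (u / y0 x), ∑ P ∈ (Icc (y0 x) (u / m)).filter
          (fun P => P.Prime ∧ Top m P), ((AJ (y0 x) (zx θ x) (wk κ x) (1 / L ^ B') j (m * P) : ℝ) : ℂ) *
            χ ((m * P : ℕ) : ZMod r)‖
        ≤ ∑ m ∈ Icc 1 (u / y0 x), ((u : ℝ) / L ^ (B + 2)) * (1 / (m : ℝ)) := by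
          refine (norm_sum_le _ _).trans (sum_le_sum fun m hm => ?_)
          obtain ⟨hm1, hm2⟩ := mem_Icc.1 hm
          have hyN : y0 x ≤ u / m := by
            rw [Nat.le_div_iff_mul_le (by omega)]
            rw [Nat.le_div_iff_mul_le (by omega)] at hm2
            rw [mul_comm]; exact hm2
          refine (AJ_inner χ _ _ _ _ j m u hm1 _
            (fun a b ha hb => hps r hr hrL χ hχ (u / m) a b ha hb hyN)).trans ?_
          have h1 : ((u / m : ℕ) : ℝ) ≤ (u : ℝ) / m := Nat.cast_div_le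
          calc ((u / m : ℕ) : ℝ) / L ^ (B + 2) ≤ ((u : ℝ) / m) / L ^ (B + 2) := by gcongr
            _ = ((u : ℝ) / L ^ (B + 2)) * (1 / (m : ℝ)) := by ring
      _ = ((u : ℝ) / L ^ (B + 2)) * ∑ m ∈ Icc 1 (u / y0 x), (1 / (m : ℝ)) := by rw [mul_sum]
      _ ≤ ((u : ℝ) / L ^ (B + 2)) * (L ^ 2) := by
          have h1 : ∑ m ∈ Icc 1 (u / y0 x), (1 / (m : ℝ)) ≤ ∑ m ∈ Icc 1 u, (1 / (m : ℝ)) := by
            apply sum_le_sum_of_subset_of_nonneg
            · exact Icc_subset_Icc_right (Nat.div_le_self _ _)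
            · intro i _ _; positivity
          have h2 : ∑ m ∈ Icc 1 u, (1 / (m : ℝ)) ≤ 1 + Real.log u := by
            have h3 := harmonic_le_one_add_log u
            rw [harmonic_eq_sum_Icc] at h3
            push_cast at h3
            simpa [one_div] using h3
          have h4 : ∑ m ∈ Icc 1 (u / y0 x), (1 / (m : ℝ)) ≤ L ^ 2 := by nlinarith
          gcongr
      _ = (u : ℝ) / L ^ B := by
          rw [pow_add]; field_simp
  · intro c hc
    have hA : AJ (y0 x) (zx θ x) (wk κ x) (1 / L ^ B') j c ≠ 0 := by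
      intro h0; apply hc; rw [h0]; simp
    refine ⟨?_, ?_, fun p hp hpc => AJ_prime_ge _ _ _ _ _ _ hA p hp hpc⟩
    · unfold AJ at hA
      split_ifs at hA with h1
      · exact hw.trans h1.2.1
      · exact absurd rfl hA
    · unfold AJ at hA
      split_ifs at hA with h1
      · exact h1.1.1
      · exact absurd rfl hA

end Pool.Agent.HS
end

section
/-! # Module Major

`α = b/(q s) + θ/q`, `|θ| ≤ Θ`. In the class `a` mod `q` split `n` into the classes `c` mod `q s`,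
`c % q = a` (`s` of them, Cauchy: factor `s`): `e(n α) = e(b c/(q s)) e(n θ/q)`, and by Abel summation
`‖∑_{n ≤ x, n ≡ c} h(n) e(n θ/q)‖ ≤ ‖E(x)‖ + (2πΘ/q) ∑_{y < x} ‖E(y)‖` (`‖e t - 1‖ ≤ 2π|t|`), square, Cauchy, sum over
`c < q s`. -/

namespace Pool.Agent.HL

open Finset Pool.Agent.BV

end Pool.Agent.HL
end

section
/-! # Module MajorGen: `major` (HL/Major) and Parseval for an arbitrary function -/

namespace Pool.Agent.HS

open Finset Pool.Agent.BV Pool.Agent.HL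

/-- Abel summation for exponential sums. -/
private lemma mg_abel (f : ℕ → ℂ) (β : ℝ) (x : ℕ) :
    ∑ n ∈ Icc 1 x, f n * e (n * β) = (∑ n ∈ Icc 1 x, f n) * e (x * β) +
      ∑ y ∈ range x, (∑ n ∈ Icc 1 y, f n) * (e (y * β) - e ((y + 1 : ℕ) * β)) := by
  induction x with
  | zero => simp
  | succ x ih =>
    rw [Finset.sum_Icc_succ_top (by omega), Finset.sum_Icc_succ_top (by omega), ih,
      Finset.sum_range_succ]
    ring

private lemma mg_e_sub (β : ℝ) (y : ℕ) :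
    ‖e (y * β) - e ((y + 1 : ℕ) * β)‖ ≤ 2 * Real.pi * |β| := by
  have h1 : e ((y + 1 : ℕ) * β) = e (y * β) * e β := by
    rw [← add_e_add]; congr 1; push_cast; ring
  have h2 : e (y * β) - e (y * β) * e β = e (y * β) * (1 - e β) := by ring
  rw [h1, h2, norm_mul, add_norm_e, one_mul, norm_sub_rev]
  have h3 : e β = Complex.exp (Complex.I * ((2 * Real.pi * β : ℝ) : ℂ)) := by
    unfold e
    congr 1
    push_cast
    ring
  rw [h3]
  refine (Real.norm_exp_I_mul_ofReal_sub_one_le).trans ?_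
  rw [Real.norm_eq_abs, abs_mul, abs_mul, abs_of_pos Real.pi_pos, abs_two]

private lemma mg_abel_norm (f : ℕ → ℂ) (β : ℝ) (x : ℕ) :
    ‖∑ n ∈ Icc 1 x, f n * e (n * β)‖ ≤ ‖∑ n ∈ Icc 1 x, f n‖ +
      2 * Real.pi * |β| * ∑ y ∈ range x, ‖∑ n ∈ Icc 1 y, f n‖ := by
  rw [mg_abel]
  refine (norm_add_le _ _).trans (add_le_add ?_ ?_)
  · rw [norm_mul, add_norm_e, mul_one]
  · refine (norm_sum_le _ _).trans ?_
    rw [Finset.mul_sum]
    refine Finset.sum_le_sum fun y _ => ?_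
    rw [norm_mul, mul_comm]
    exact mul_le_mul_of_nonneg_right (mg_e_sub β y) (norm_nonneg _)

theorem major_gen (f : ℕ → ℂ) (x q s : ℕ) (hq : 1 ≤ q) (hs : 1 ≤ s) (α Θ Kv : ℝ) (b : ℤ)
    (hα : |q * α - b / s| ≤ Θ)
    (hv : ∀ y ≤ x, ∑ c ∈ range (q * s), ‖∑ n ∈ (Icc 1 y).filter (fun n => n ≡ c [MOD q * s]), f n‖ ^ 2
      ≤ Kv) :
    VV q x f α ≤ 2 * s * (1 + (2 * Real.pi * Θ * x / q) ^ 2) * Kv := by
  set Ef : ℕ → ℕ → ℂ := fun c y => ∑ n ∈ (Icc 1 y).filter (fun n => n ≡ c [MOD q * s]), f n with hEf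
  replace hv : ∀ y ≤ x, ∑ c ∈ range (q * s), ‖Ef c y‖ ^ 2 ≤ Kv := hv
  have hq0 : (0 : ℝ) < q := by exact_mod_cast hq
  have hs0 : (0 : ℝ) < s := by exact_mod_cast hs
  have hΘ : 0 ≤ Θ := (abs_nonneg _).trans hα
  set θ : ℝ := q * α - b / s with hθ
  set β : ℝ := θ / q with hβ
  have hαeq : α = b / (q * s) + β := by
    rw [hβ, hθ]; field_simp; ring
  set h : ℕ → ℂ := f with hh
  -- the sum over a class modulo `q s`
  set G : ℕ → ℂ := fun c => ∑ n ∈ (Icc 1 x).filter (fun n => n ≡ c [MOD q * s]), h n * e (n * α)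
    with hG
  have hGn : ∀ c, ‖G c‖ ≤ ‖Ef c x‖ +
      2 * Real.pi * |β| * ∑ y ∈ range x, ‖Ef c y‖ := by
    intro c
    have h1 : G c = e (c * (b / (q * s))) *
        ∑ n ∈ Icc 1 x, (if n ≡ c [MOD q * s] then h n else 0) * e (n * β) := by
      rw [hG]
      simp only
      rw [Finset.sum_filter, Finset.mul_sum]
      refine Finset.sum_congr rfl fun n _ => ?_
      split_ifs with hn
      · have h2 : e (n * α) = e (c * (b / (q * s))) * e (n * β) := by
          rw [← add_e_add, hαeq]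
          obtain ⟨k, hk⟩ := (Nat.modEq_iff_dvd.1 hn)
          have h3 : (n : ℝ) = c - (q * s) * k := by
            have : ((c : ℤ) : ℝ) - ((n : ℤ) : ℝ) = ((q * s : ℕ) : ℤ) * k := by
              exact_mod_cast congrArg (Int.cast : ℤ → ℝ) hk
            push_cast at this
            linarith
          have h4 : (n : ℝ) * (b / (q * s) + β) = c * (b / (q * s)) + n * β - ((k * b : ℤ) : ℝ) := by
            rw [mul_add, h3]
            push_cast
            field_simp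
            ring
          rw [h4, add_e_sub_int]
        rw [h2]; ring
      · simp
    rw [h1, norm_mul, add_norm_e, one_mul]
    refine (mg_abel_norm _ β x).trans ?_
    have h5 : ∀ y, ∑ n ∈ Icc 1 y, (if n ≡ c [MOD q * s] then h n else 0) = Ef c y := by
      intro y
      rw [hEf]
      simp only
      rw [Finset.sum_filter]
    simp only [h5]
    exact le_rfl
  have hβΘ : |β| ≤ Θ / q := by
    rw [hβ, abs_div, abs_of_pos hq0]
    exact div_le_div_of_nonneg_right hα hq0.le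
  have hG2 : ∀ c, ‖G c‖ ^ 2 ≤ 2 * ‖Ef c x‖ ^ 2 +
      2 * (2 * Real.pi * Θ / q) ^ 2 * (x * ∑ y ∈ range x, ‖Ef c y‖ ^ 2) := by
    intro c
    have hS0 : 0 ≤ ∑ y ∈ range x, ‖Ef c y‖ := Finset.sum_nonneg fun _ _ => norm_nonneg _
    have h1 : ‖G c‖ ≤ ‖Ef c x‖ + (2 * Real.pi * Θ / q) * ∑ y ∈ range x, ‖Ef c y‖ := by
      refine (hGn c).trans (add_le_add le_rfl (mul_le_mul_of_nonneg_right ?_ hS0))
      rw [mul_div_assoc]
      exact mul_le_mul_of_nonneg_left hβΘ (by positivity)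
    have h2 : (∑ y ∈ range x, ‖Ef c y‖) ^ 2 ≤ x * ∑ y ∈ range x, ‖Ef c y‖ ^ 2 := by
      have := sq_sum_le_card_mul_sum_sq (s := range x) (f := fun y => ‖Ef c y‖)
      rwa [Finset.card_range] at this
    calc ‖G c‖ ^ 2 ≤ (‖Ef c x‖ + (2 * Real.pi * Θ / q) *
          ∑ y ∈ range x, ‖Ef c y‖) ^ 2 := by gcongr
      _ ≤ 2 * (‖Ef c x‖ ^ 2 + ((2 * Real.pi * Θ / q) *
          ∑ y ∈ range x, ‖Ef c y‖) ^ 2) := add_sq_le
      _ = 2 * ‖Ef c x‖ ^ 2 + 2 * (2 * Real.pi * Θ / q) ^ 2 *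
          (∑ y ∈ range x, ‖Ef c y‖) ^ 2 := by ring
      _ ≤ _ := by gcongr
  -- splitting of the classes modulo `q`
  have hsplit : ∀ a, a < q → ∑ n ∈ (Icc 1 x).filter (fun n => n % q = a), h n * e (n * α) =
      ∑ c ∈ (range (q * s)).filter (fun c => c % q = a), G c := by
    intro a ha
    have hqs : 0 < q * s := Nat.mul_pos hq hs
    have hmaps : ∀ n ∈ (Icc 1 x).filter (fun n => n % q = a),
        n % (q * s) ∈ (range (q * s)).filter (fun c => c % q = a) := by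
      intro n hn
      rw [mem_filter] at hn ⊢
      refine ⟨mem_range.2 (Nat.mod_lt _ hqs), ?_⟩
      rw [Nat.mod_mul_right_mod, hn.2]
    rw [← Finset.sum_fiberwise_of_maps_to hmaps]
    refine Finset.sum_congr rfl fun c hc => ?_
    rw [hG]
    simp only
    refine Finset.sum_congr ?_ fun _ _ => rfl
    rw [mem_filter, mem_range] at hc
    ext n
    simp only [mem_filter]
    constructor
    · rintro ⟨⟨h1, _⟩, h3⟩
      refine ⟨h1, ?_⟩
      rw [Nat.ModEq, h3, Nat.mod_eq_of_lt hc.1]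
    · rintro ⟨h1, h2⟩
      have h3 : n % (q * s) = c := by
        rw [Nat.ModEq, Nat.mod_eq_of_lt hc.1] at h2
        exact h2
      refine ⟨⟨h1, ?_⟩, h3⟩
      rw [← hc.2, ← h3, Nat.mod_mul_right_mod]
  have hcard : ∀ a, a < q → ((range (q * s)).filter (fun c => c % q = a)).card ≤ s := by
    intro a ha
    have h1 : (range (q * s)).filter (fun c => c % q = a) ⊆
        (range s).image (fun i => q * i + a) := by
      intro c hc
      rw [mem_filter, mem_range] at hc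
      rw [mem_image]
      refine ⟨c / q, mem_range.2 (Nat.div_lt_of_lt_mul hc.1), ?_⟩
      have := Nat.div_add_mod c q
      rw [hc.2] at this
      exact this
    refine (Finset.card_le_card h1).trans (Finset.card_image_le.trans ?_)
    rw [Finset.card_range]
  have hKv0 : 0 ≤ Kv := (Finset.sum_nonneg fun _ _ => by positivity).trans (hv 0 (Nat.zero_le _))
  have hVV : VV q x h α ≤ s * ∑ c ∈ range (q * s), ‖G c‖ ^ 2 := by
    unfold VV
    calc ∑ a ∈ range q, ‖∑ n ∈ (Icc 1 x).filter (fun n => n % q = a), h n * e (n * α)‖ ^ 2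
        ≤ ∑ a ∈ range q, s * ∑ c ∈ (range (q * s)).filter (fun c => c % q = a), ‖G c‖ ^ 2 := by
          refine Finset.sum_le_sum fun a ha => ?_
          rw [mem_range] at ha
          rw [hsplit a ha]
          have h1 : ‖∑ c ∈ (range (q * s)).filter (fun c => c % q = a), G c‖ ≤
              ∑ c ∈ (range (q * s)).filter (fun c => c % q = a), ‖G c‖ := norm_sum_le _ _
          have h2 := sq_sum_le_card_mul_sum_sq (s := (range (q * s)).filter (fun c => c % q = a))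
            (f := fun c => ‖G c‖)
          have h3 : (((range (q * s)).filter (fun c => c % q = a)).card : ℝ) ≤ s := by
            exact_mod_cast hcard a ha
          calc _ ≤ (∑ c ∈ (range (q * s)).filter (fun c => c % q = a), ‖G c‖) ^ 2 := by gcongr
            _ ≤ _ := h2
            _ ≤ _ := by gcongr
      _ = s * ∑ a ∈ range q, ∑ c ∈ (range (q * s)).filter (fun c => c % q = a), ‖G c‖ ^ 2 := by
          rw [Finset.mul_sum]
      _ = s * ∑ c ∈ range (q * s), ‖G c‖ ^ 2 := by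
          congr 1
          exact Finset.sum_fiberwise_of_maps_to (fun c _ => mem_range.2 (Nat.mod_lt _ hq)) _
  refine hVV.trans ?_
  have hsum : ∑ c ∈ range (q * s), ‖G c‖ ^ 2 ≤
      2 * Kv + 2 * (2 * Real.pi * Θ / q) ^ 2 * (x * (x * Kv)) := by
    calc ∑ c ∈ range (q * s), ‖G c‖ ^ 2
        ≤ ∑ c ∈ range (q * s), (2 * ‖Ef c x‖ ^ 2 +
          2 * (2 * Real.pi * Θ / q) ^ 2 * (x * ∑ y ∈ range x, ‖Ef c y‖ ^ 2)) :=
          Finset.sum_le_sum fun c _ => hG2 c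
      _ = 2 * ∑ c ∈ range (q * s), ‖Ef c x‖ ^ 2 +
          2 * (2 * Real.pi * Θ / q) ^ 2 *
            (x * ∑ y ∈ range x, ∑ c ∈ range (q * s), ‖Ef c y‖ ^ 2) := by
          rw [Finset.sum_add_distrib, ← Finset.mul_sum, ← Finset.mul_sum, ← Finset.mul_sum,
            Finset.sum_comm]
      _ ≤ _ := by
          have h1 : ∑ y ∈ range x, ∑ c ∈ range (q * s), ‖Ef c y‖ ^ 2 ≤ x * Kv := by
            calc _ ≤ ∑ y ∈ range x, Kv :=
                  Finset.sum_le_sum fun y hy => hv y (mem_range.1 hy).le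
              _ = _ := by rw [Finset.sum_const, Finset.card_range, nsmul_eq_mul]
          have h2 := hv x le_rfl
          gcongr
  calc (s : ℝ) * ∑ c ∈ range (q * s), ‖G c‖ ^ 2
      ≤ s * (2 * Kv + 2 * (2 * Real.pi * Θ / q) ^ 2 * (x * (x * Kv))) := by gcongr
    _ = _ := by ring

/-- the sum of a function over a residue class, by characters -/
lemma mg_class (k : ℕ) [NeZero k] (y : ℕ) (f : ℕ → ℂ) (u : (ZMod k)ˣ) :
    ∑ n ∈ (Icc 1 y).filter (fun n => n ≡ (u : ZMod k).val [MOD k]), f n =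
      (1 / (k.totient : ℂ)) * ∑ χ : DirichletCharacter ℂ k, χ ((u⁻¹ : (ZMod k)ˣ) : ZMod k) *
        ∑ n ∈ Icc 1 y, f n * χ (n : ZMod k) := by
  have hφ : (k.totient : ℂ) ≠ 0 := by
    exact_mod_cast (Nat.totient_pos.2 (Nat.pos_of_ne_zero (NeZero.ne k))).ne'
  have h1 : ∀ n : ℕ, ∑ χ : DirichletCharacter ℂ k, χ ((u⁻¹ : (ZMod k)ˣ) : ZMod k) *
      χ (n : ZMod k) = if (u : ZMod k) = (n : ZMod k) then (k.totient : ℂ) else 0 := by
    intro n
    have h := DirichletCharacter.sum_char_inv_mul_char_eq ℂ u.isUnit (n : ZMod k)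
    rw [← h]
    refine sum_congr rfl fun χ _ => ?_
    rw [ZMod.inv_coe_unit]
  simp only [mul_sum]
  rw [sum_comm]
  have h2 : ∀ n ∈ Icc 1 y, ∑ χ : DirichletCharacter ℂ k, 1 / (k.totient : ℂ) *
      (χ ((u⁻¹ : (ZMod k)ˣ) : ZMod k) * (f n * χ (n : ZMod k))) =
      if n ≡ (u : ZMod k).val [MOD k] then f n else 0 := by
    intro n _
    have h3 : ∑ χ : DirichletCharacter ℂ k, 1 / (k.totient : ℂ) *
        (χ ((u⁻¹ : (ZMod k)ˣ) : ZMod k) * (f n * χ (n : ZMod k))) =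
        (1 / (k.totient : ℂ)) * f n * ∑ χ : DirichletCharacter ℂ k,
          χ ((u⁻¹ : (ZMod k)ˣ) : ZMod k) * χ (n : ZMod k) := by
      rw [mul_sum]
      exact sum_congr rfl fun χ _ => by ring
    rw [h3, h1 n]
    have h4 : (u : ZMod k) = (n : ZMod k) ↔ n ≡ (u : ZMod k).val [MOD k] := by
      rw [← ZMod.natCast_eq_natCast_iff, ZMod.natCast_zmod_val]
      exact eq_comm
    by_cases h5 : n ≡ (u : ZMod k).val [MOD k]
    · rw [if_pos (h4.2 h5), if_pos h5]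
      field_simp
    · rw [if_neg (fun h => h5 (h4.1 h)), if_neg h5, mul_zero]
  rw [sum_congr rfl h2, sum_filter]

/-- Parseval: a function in the coprime classes mod `k`, without the principal character -/
theorem parseval_gen (k y : ℕ) [NeZero k] (f : ℕ → ℂ) :
    ∑ c ∈ (range k).filter (fun c => c.Coprime k),
      ‖∑ n ∈ (Icc 1 y).filter (fun n => n ≡ c [MOD k]), f n -
        (∑ n ∈ (Icc 1 y).filter (fun n => n.Coprime k), f n) / (k.totient : ℂ)‖ ^ 2 =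
      (1 / (k.totient : ℝ)) * ∑ χ ∈ (univ : Finset (DirichletCharacter ℂ k)).erase 1,
        ‖∑ n ∈ Icc 1 y, f n * χ (n : ZMod k)‖ ^ 2 := by
  have hφ : 0 < k.totient := Nat.totient_pos.2 (Nat.pos_of_ne_zero (NeZero.ne k))
  have hφR : (0 : ℝ) < k.totient := by exact_mod_cast hφ
  have hφC : (k.totient : ℂ) ≠ 0 := by exact_mod_cast hφ.ne'
  set S : DirichletCharacter ℂ k → ℂ := fun χ => ∑ n ∈ Icc 1 y, f n * χ (n : ZMod k) with hS
  set g : DirichletCharacter ℂ k → ℂ := fun χ => if χ = 1 then 0 else S χ with hg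
  have hone : ∑ n ∈ (Icc 1 y).filter (fun n => n.Coprime k), f n = S 1 := by
    rw [hS]
    simp only
    rw [sum_filter]
    refine sum_congr rfl fun n _ => ?_
    by_cases hn : n.Coprime k
    · rw [if_pos hn, MulChar.one_apply ((ZMod.isUnit_iff_coprime n k).2 hn), mul_one]
    · rw [if_neg hn, MulChar.map_nonunit _ (fun h => hn ((ZMod.isUnit_iff_coprime n k).1 h)),
        mul_zero]
  rw [hone]
  have h1 : ∀ u : (ZMod k)ˣ,
      ‖∑ n ∈ (Icc 1 y).filter (fun n => n ≡ (u : ZMod k).val [MOD k]), f n -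
        S 1 / (k.totient : ℂ)‖ ^ 2 =
      (1 / (k.totient : ℝ)) ^ 2 *
        ‖∑ χ : DirichletCharacter ℂ k, χ ((u⁻¹ : (ZMod k)ˣ) : ZMod k) * g χ‖ ^ 2 := by
    intro u
    have h2 : ∑ n ∈ (Icc 1 y).filter (fun n => n ≡ (u : ZMod k).val [MOD k]), f n -
        S 1 / (k.totient : ℂ) =
        (1 / (k.totient : ℂ)) *
          ∑ χ : DirichletCharacter ℂ k, χ ((u⁻¹ : (ZMod k)ˣ) : ZMod k) * g χ := by
      rw [mg_class, ← add_sum_erase univ _ (mem_univ (1 : DirichletCharacter ℂ k)),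
        ← add_sum_erase univ (fun χ : DirichletCharacter ℂ k =>
          χ ((u⁻¹ : (ZMod k)ˣ) : ZMod k) * g χ) (mem_univ (1 : DirichletCharacter ℂ k)),
        MulChar.one_apply (u⁻¹ : (ZMod k)ˣ).isUnit, one_mul]
      have h3 : ∑ χ ∈ (univ : Finset (DirichletCharacter ℂ k)).erase 1,
          χ ((u⁻¹ : (ZMod k)ˣ) : ZMod k) * g χ =
          ∑ χ ∈ (univ : Finset (DirichletCharacter ℂ k)).erase 1,
            χ ((u⁻¹ : (ZMod k)ˣ) : ZMod k) * ∑ n ∈ Icc 1 y, f n * χ (n : ZMod k) := by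
        refine sum_congr rfl fun χ hχ => ?_
        rw [hg]
        simp only
        rw [if_neg (mem_erase.1 hχ).1]
      rw [h3]
      have h4 : g 1 = 0 := by rw [hg]; simp
      rw [h4]
      simp only [hS]
      ring
    rw [h2, norm_mul, mul_pow]
    congr 2
    rw [norm_div, norm_one, Complex.norm_natCast]
  rw [varA_sum_units k (fun c => ‖∑ n ∈ (Icc 1 y).filter (fun n => n ≡ c [MOD k]), f n -
        S 1 / (k.totient : ℂ)‖ ^ 2)]
  rw [sum_congr rfl fun u _ => h1 u, ← mul_sum]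
  have h5 : ∑ u : (ZMod k)ˣ,
      ‖∑ χ : DirichletCharacter ℂ k, χ ((u⁻¹ : (ZMod k)ˣ) : ZMod k) * g χ‖ ^ 2 =
      ∑ u : (ZMod k)ˣ, ‖∑ χ : DirichletCharacter ℂ k, χ (u : ZMod k) * g χ‖ ^ 2 :=
    Equiv.sum_comp (Equiv.inv (ZMod k)ˣ)
      (fun u : (ZMod k)ˣ => ‖∑ χ : DirichletCharacter ℂ k, χ (u : ZMod k) * g χ‖ ^ 2)
  rw [h5, varA_parseval]
  have h6 : ∑ χ : DirichletCharacter ℂ k, ‖g χ‖ ^ 2 =
      ∑ χ ∈ (univ : Finset (DirichletCharacter ℂ k)).erase 1, ‖S χ‖ ^ 2 := by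
    rw [← add_sum_erase univ _ (mem_univ (1 : DirichletCharacter ℂ k))]
    have h4 : g 1 = 0 := by rw [hg]; simp
    rw [h4, norm_zero]
    have h7 : ∀ χ ∈ (univ : Finset (DirichletCharacter ℂ k)).erase 1, ‖g χ‖ ^ 2 = ‖S χ‖ ^ 2 := by
      intro χ hχ
      rw [hg]
      simp only
      rw [if_neg (mem_erase.1 hχ).1]
    rw [sum_congr rfl h7]
    simp
  rw [h6]
  field_simp
  rfl

end Pool.Agent.HS
end

section
/-! # Module W.Kd: lower bound for `KK`

`m ≤ n/z` squarefree `z`-rough has at most four prime factors (`z⁵ > x/z`), `ex x m ≤ 5/6`; `t = n/m ≥ z`, `n - m < m t ≤ n`, so `1 - 2κ < ex x m + ex x t ≤ 1`. `m = 1`: `1 + Ew x 1 n = 1`.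
`ω(m) = j`: `psi_Fr`, `F(j+1)_ge`; the map (sorted tuple of primes) `↦` product covers these `m`, all summands `≥ 0`. -/

namespace Pool.Agent.HS

open Finset Pool.Agent.HL Filter

lemma sum_cover {ι κ : Type*} [DecidableEq κ] {S : Finset ι} {T : Finset κ} {f : ι → ℝ} {g : κ → ℝ}
    (ψ : ι → κ) (h1 : ∀ i ∈ S, ψ i ∈ T) (h2 : Set.InjOn ψ S) (h3 : ∀ i ∈ S, f i ≤ g (ψ i))
    (h4 : ∀ k ∈ T, 0 ≤ g k) : ∑ i ∈ S, f i ≤ ∑ k ∈ T, g k := by
  calc ∑ i ∈ S, f i ≤ ∑ i ∈ S, g (ψ i) := sum_le_sum h3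
    _ = ∑ k ∈ S.image ψ, g k := (sum_image h2).symm
    _ ≤ ∑ k ∈ T, g k :=
      sum_le_sum_of_subset_of_nonneg (image_subset_iff.2 h1) fun k hk _ => h4 k hk

/-- logarithmic size of a product -/
lemma ex_mul (x : ℕ) {m n : ℕ} (hm : m ≠ 0) (hn : n ≠ 0) : ex x (m * n) = ex x m + ex x n := by
  unfold ex
  rw [Nat.cast_mul, Real.log_mul (by exact_mod_cast hm) (by exact_mod_cast hn), add_div]

/-- the data of `n`, `m` -/
structure KdOK (x n m : ℕ) : Prop where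
  sf : Squarefree m
  pr : ∀ p : ℕ, p.Prime → p ∣ m → zx (5 / 6) x ≤ p
  pos : 1 ≤ m
  le : m ≤ n / zx (5 / 6) x

/-- consequences for large `x` -/
structure KdLog (x n m : ℕ) : Prop where
  t1 : 1 ≤ n / m
  tz : 1 / 6 ≤ ex x (n / m)
  up : ex x m ≤ 5 / 6
  sum0 : 1 - 2 * kap x < ex x (n / m) + ex x m
  sum1 : ex x (n / m) + ex x m ≤ 1
  pex : ∀ p : ℕ, p.Prime → p ∣ m → 1 / 6 ≤ ex x p
  px : ∀ p : ℕ, p.Prime → p ∣ m → p ∈ PP x
  sm : m.primeFactorsList.length < 5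

lemma prod_ge {z : ℕ} : ∀ l : List ℕ, (∀ p ∈ l, z ≤ p) → z ^ l.length ≤ l.prod := by
  intro l
  induction l with
  | nil => intro _; simp
  | cons a l ih =>
    intro h
    rw [List.length_cons, List.prod_cons, pow_succ']
    exact Nat.mul_le_mul (h a (by simp)) (ih fun p hp => h p (by simp [hp]))

/-- the list of the prime factors is strictly increasing -/
lemma list_lt {m : ℕ} (h0 : m ≠ 0) (hm : Squarefree m) : m.primeFactorsList.Pairwise (· < ·) := by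
  have h1 := (Nat.primeFactorsList_sorted m).pairwise
  have h2 := (Nat.squarefree_iff_nodup_primeFactorsList h0).1 hm
  exact (h1.and h2).imp fun h => lt_of_le_of_ne h.1 h.2

lemma fin_ineq {m F w : ℝ} (hm : 0 < m) (h : -w ≤ F) : -(1 / m * F) ≤ w / m := by
  rw [div_eq_mul_one_div w m]
  have h1 : 0 < 1 / m := by positivity
  nlinarith

lemma len_four {l : List ℕ} (h : l.length = 4) : ∃ a b c d, l = [a, b, c, d] := by
  match l, h with
  | [a, b, c, d], _ => exact ⟨a, b, c, d, rfl⟩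

end Pool.Agent.HS
end

section
/-! # Module W.Sum14: two and five prime factors

`L1`: three windows of width `16 κ → 0`: `mer`.
`L4` (true value about .0009): `p₃` largest, exponent `v`: the others have exponents in `[1/6, min(v, 1/2 - v)]`,
`∑_{p<p'<p''} ≤ (∑)³/6`: `L4 ≤ ∫_{1/6}^{1/4} (log 6v)³/6 dv/v + ∫_{1/4}^{1/3} (log(3-6v))³/6 dv/v ≈ .0019`. -/

namespace Pool.Agent.HS

open Finset

namespace Sum14

lemma kap_small (c : ℝ) (hc : 0 < c) : ∃ x₁ : ℕ, ∀ x : ℕ, x₁ ≤ x → 0 ≤ kap x ∧ kap x ≤ c := by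
  obtain ⟨x₁, h⟩ := Filter.eventually_atTop.1 (HL.evt_log (max 1 (Real.log 4 / c)))
  refine ⟨x₁, fun x hx => ?_⟩
  have h1 := h x hx
  have h2 : 1 ≤ Real.log x := (le_max_left _ _).trans h1
  have h3 : Real.log 4 / c ≤ Real.log x := (le_max_right _ _).trans h1
  have h4 : 0 ≤ Real.log 4 := Real.log_nonneg (by norm_num)
  unfold kap
  refine ⟨by positivity, ?_⟩
  rw [div_le_iff₀ (by linarith)]
  rw [div_le_iff₀ hc] at h3
  linarith

lemma log_ratio {u v : ℝ} (hu : 0 < u) (huv : u ≤ v) : Real.log (v / u) ≤ (v - u) / u := by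
  have h1 := Real.log_le_sub_one_of_pos (div_pos (hu.trans_le huv) hu)
  have h2 : v / u - 1 = (v - u) / u := by field_simp
  linarith

/-- nested sums of products -/
lemma nest2 (s : Finset ℕ) (f : ℕ → ℝ) (hf : ∀ i ∈ s, 0 ≤ f i) :
    ∑ i ∈ s, ∑ j ∈ s.filter (fun j => i < j), f i * f j ≤ (∑ i ∈ s, f i) ^ 2 / 2 := by
  induction s using Finset.induction_on_min with
  | empty => simp
  | insert a s ha ih =>
    have ha' : a ∉ s := fun h => lt_irrefl a (ha a h)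
    have ih' := ih (fun i hi => hf i (mem_insert_of_mem hi))
    have e1 : (insert a s).filter (fun j => a < j) = s := by
      ext j
      simp only [mem_filter, mem_insert]
      constructor
      · rintro ⟨rfl | h, h'⟩
        · exact absurd h' (lt_irrefl _)
        · exact h
      · intro h
        exact ⟨Or.inr h, ha j h⟩
    have e2 : ∀ i ∈ s, (insert a s).filter (fun j => i < j) = s.filter (fun j => i < j) := by
      intro i hi
      rw [filter_insert, if_neg (not_lt.2 (ha i hi).le)]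
    rw [sum_insert ha', e1, sum_insert ha']
    have e3 : ∑ i ∈ s, ∑ j ∈ (insert a s).filter (fun j => i < j), f i * f j =
        ∑ i ∈ s, ∑ j ∈ s.filter (fun j => i < j), f i * f j :=
      sum_congr rfl fun i hi => by rw [e2 i hi]
    rw [e3, ← mul_sum]
    have h0 : 0 ≤ f a := hf a (mem_insert_self a s)
    nlinarith [sq_nonneg (f a)]

lemma nest3 (s : Finset ℕ) (f : ℕ → ℝ) (hf : ∀ i ∈ s, 0 ≤ f i) :
    ∑ i ∈ s, ∑ j ∈ s.filter (fun j => i < j), ∑ k ∈ s.filter (fun k => j < k), f i * f j * f k ≤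
      (∑ i ∈ s, f i) ^ 3 / 6 := by
  induction s using Finset.induction_on_min with
  | empty => simp
  | insert a s ha ih =>
    have ha' : a ∉ s := fun h => lt_irrefl a (ha a h)
    have hf' : ∀ i ∈ s, 0 ≤ f i := fun i hi => hf i (mem_insert_of_mem hi)
    have ih' := ih hf'
    have n2 := nest2 s f hf'
    have e1 : (insert a s).filter (fun j => a < j) = s := by
      ext j
      simp only [mem_filter, mem_insert]
      constructor
      · rintro ⟨rfl | h, h'⟩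
        · exact absurd h' (lt_irrefl _)
        · exact h
      · intro h
        exact ⟨Or.inr h, ha j h⟩
    have e2 : ∀ i ∈ s, (insert a s).filter (fun j => i < j) = s.filter (fun j => i < j) := by
      intro i hi
      rw [filter_insert, if_neg (not_lt.2 (ha i hi).le)]
    rw [sum_insert ha', e1, sum_insert ha']
    have e3 : ∑ i ∈ s, ∑ j ∈ (insert a s).filter (fun j => i < j),
        ∑ k ∈ (insert a s).filter (fun k => j < k), f i * f j * f k =
        ∑ i ∈ s, ∑ j ∈ s.filter (fun j => i < j), ∑ k ∈ s.filter (fun k => j < k),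
          f i * f j * f k := by
      refine sum_congr rfl fun i hi => ?_
      rw [e2 i hi]
      refine sum_congr rfl fun j hj => ?_
      rw [e2 j (mem_filter.1 hj).1]
    have e4 : ∑ j ∈ s, ∑ k ∈ (insert a s).filter (fun k => j < k), f a * f j * f k =
        f a * ∑ j ∈ s, ∑ k ∈ s.filter (fun k => j < k), f j * f k := by
      rw [mul_sum]
      refine sum_congr rfl fun j hj => ?_
      rw [e2 j hj, mul_sum]
      refine sum_congr rfl fun k _ => ?_
      ring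
    rw [e3, e4]
    have h0 : 0 ≤ f a := hf a (mem_insert_self a s)
    have hS : 0 ≤ ∑ i ∈ s, f i := sum_nonneg hf'
    have h1 := mul_le_mul_of_nonneg_left n2 h0
    set A := ∑ i ∈ s, f i with hA
    have h2 : 0 ≤ f a ^ 2 * A := by positivity
    have h3 : 0 ≤ f a ^ 3 := by positivity
    nlinarith

end Sum14

open Sum14

end Pool.Agent.HS
end

section
/-! # Module W.Sum14: two and five prime factors (model HS/W/Sum14)

`L1N`: three windows of width `16 κ → 0`. `L4N`: four increasing primes, all with exponents in `[2/11, 3/11]` (`9/11 - 3·2/11`): `≤ (log(3/2) + δ)⁴/24 ≤ .0012`. -/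

namespace Pool.Agent.HN

open Finset Pool.Agent.HS

namespace Sum14

open Pool.Agent.HS.Sum14

lemma nest4 (s : Finset ℕ) (f : ℕ → ℝ) (hf : ∀ i ∈ s, 0 ≤ f i) :
    ∑ i ∈ s, ∑ j ∈ s.filter (fun j => i < j), ∑ k ∈ s.filter (fun k => j < k),
      ∑ l ∈ s.filter (fun l => k < l), f i * f j * f k * f l ≤ (∑ i ∈ s, f i) ^ 4 / 24 := by
  induction s using Finset.induction_on_min with
  | empty => simp
  | insert a s ha ih =>
    have ha' : a ∉ s := fun h => lt_irrefl a (ha a h)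
    have hf' : ∀ i ∈ s, 0 ≤ f i := fun i hi => hf i (mem_insert_of_mem hi)
    have ih' := ih hf'
    have n3 := nest3 s f hf'
    have e1 : (insert a s).filter (fun j => a < j) = s := by
      ext j
      simp only [mem_filter, mem_insert]
      constructor
      · rintro ⟨rfl | h, h'⟩
        · exact absurd h' (lt_irrefl _)
        · exact h
      · intro h
        exact ⟨Or.inr h, ha j h⟩
    have e2 : ∀ i ∈ s, (insert a s).filter (fun j => i < j) = s.filter (fun j => i < j) := by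
      intro i hi
      rw [filter_insert, if_neg (not_lt.2 (ha i hi).le)]
    rw [sum_insert ha', e1, sum_insert ha']
    have e3 : ∑ i ∈ s, ∑ j ∈ (insert a s).filter (fun j => i < j),
        ∑ k ∈ (insert a s).filter (fun k => j < k), ∑ l ∈ (insert a s).filter (fun l => k < l),
          f i * f j * f k * f l =
        ∑ i ∈ s, ∑ j ∈ s.filter (fun j => i < j), ∑ k ∈ s.filter (fun k => j < k),
          ∑ l ∈ s.filter (fun l => k < l), f i * f j * f k * f l := by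
      refine sum_congr rfl fun i hi => ?_
      rw [e2 i hi]
      refine sum_congr rfl fun j hj => ?_
      rw [e2 j (mem_filter.1 hj).1]
      refine sum_congr rfl fun k hk => ?_
      rw [e2 k (mem_filter.1 hk).1]
    have e4 : ∑ j ∈ s, ∑ k ∈ (insert a s).filter (fun k => j < k),
        ∑ l ∈ (insert a s).filter (fun l => k < l), f a * f j * f k * f l =
        f a * ∑ j ∈ s, ∑ k ∈ s.filter (fun k => j < k), ∑ l ∈ s.filter (fun l => k < l),
          f j * f k * f l := by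
      rw [mul_sum]
      refine sum_congr rfl fun j hj => ?_
      rw [e2 j hj, mul_sum]
      refine sum_congr rfl fun k hk => ?_
      rw [e2 k (mem_filter.1 hk).1, mul_sum]
      refine sum_congr rfl fun l _ => ?_
      ring
    rw [e3, e4]
    have h0 : 0 ≤ f a := hf a (mem_insert_self a s)
    have hS : 0 ≤ ∑ i ∈ s, f i := sum_nonneg hf'
    have h1 := mul_le_mul_of_nonneg_left n3 h0
    set A := ∑ i ∈ s, f i with hA
    have h2 : 0 ≤ f a ^ 2 * A ^ 2 := by positivity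
    have h3 : 0 ≤ f a ^ 3 * A := by positivity
    have h4 : 0 ≤ f a ^ 4 := by positivity
    nlinarith

open Classical in
/-- the reciprocal on the primes with exponent at most `3/11` -/
noncomputable def rb (x : ℕ) (p : ℕ) : ℝ := if ex x p ≤ 3 / 11 then 1 / (p : ℝ) else 0

lemma rb_nonneg (x : ℕ) (p : ℕ) : 0 ≤ rb x p := by
  unfold rb
  split_ifs <;> positivity

lemma rb_sum (x : ℕ) : ∑ p ∈ PN x, rb x p ≤ ∑ p ∈ PS x (2 / 11) (3 / 11), (1 : ℝ) / p := by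
  unfold rb
  rw [← sum_filter]
  refine sum_le_sum_of_subset_of_nonneg ?_ (fun _ _ _ => by positivity)
  intro p hp
  obtain ⟨h1, h2⟩ := mem_filter.1 hp
  unfold PN PS at h1
  obtain ⟨h3, h4, h5, h6⟩ := mem_filter.1 h1
  exact mem_filter.2 ⟨h3, h4, h5, h2⟩

lemma L4_nest (x : ℕ) : L4N x ≤ ∑ p ∈ PN x, ∑ p' ∈ (PN x).filter (fun p' => p < p'),
    ∑ p'' ∈ (PN x).filter (fun p'' => p' < p''), ∑ q ∈ (PN x).filter (fun q => p'' < q),
      rb x p * rb x p' * rb x p'' * rb x q := by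
  have hPN : ∀ p ∈ PN x, 2 / 11 ≤ ex x p := by
    intro p hp
    unfold PN PS at hp
    obtain ⟨h3, h4, h5, h6⟩ := mem_filter.1 hp
    exact h5
  unfold L4N
  refine sum_le_sum fun p hp => sum_le_sum fun p' hp' => sum_le_sum fun p'' hp'' => ?_
  have a1 := hPN p hp
  have a2 := hPN p' (mem_filter.1 hp').1
  have a3 := hPN p'' (mem_filter.1 hp'').1
  calc ∑ p₃ ∈ (PN x).filter (fun p₃ => p'' < p₃ ∧ ex x p + ex x p' + ex x p'' + ex x p₃ ≤ 9 / 11),
        1 / ((p : ℝ) * p' * p'' * p₃)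
      = ∑ q ∈ (PN x).filter (fun p₃ => p'' < p₃ ∧ ex x p + ex x p' + ex x p'' + ex x p₃ ≤ 9 / 11),
        rb x p * rb x p' * rb x p'' * rb x q := by
        refine sum_congr rfl fun q hq => ?_
        obtain ⟨hq1, hq2, hq3⟩ := mem_filter.1 hq
        have a4 := hPN q hq1
        unfold rb
        rw [if_pos (by linarith), if_pos (by linarith), if_pos (by linarith),
          if_pos (by linarith), div_mul_div_comm, div_mul_div_comm, div_mul_div_comm]
        norm_num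
    _ ≤ _ := by
        refine sum_le_sum_of_subset_of_nonneg ?_ fun q _ _ => ?_
        · intro q hq
          obtain ⟨hq1, hq2, hq3⟩ := mem_filter.1 hq
          exact mem_filter.2 ⟨hq1, hq2⟩
        · have n1 := rb_nonneg x p
          have n2 := rb_nonneg x p'
          have n3 := rb_nonneg x p''
          have n4 := rb_nonneg x q
          positivity

end Sum14

open Sum14 Pool.Agent.HS.Sum14

theorem L1N_le : ∃ x₁ : ℕ, ∀ x : ℕ, x₁ ≤ x → L1N x ≤ 1 / 500 := by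
  classical
  obtain ⟨x₁, h1⟩ := mer (1 / 5000) (by norm_num)
  obtain ⟨x₂, h2⟩ := kap_small (1 / 100000) (by norm_num)
  refine ⟨max x₁ x₂, fun x hx => ?_⟩
  have hm := h1 x ((le_max_left _ _).trans hx)
  obtain ⟨hk0, hk1⟩ := h2 x ((le_max_right _ _).trans hx)
  set κ := kap x with hκ
  have key : ∀ c : ℝ, 5 / 12 ≤ c → ∑ p ∈ PS x (c - 8 * κ) (c + 8 * κ), (1 : ℝ) / p ≤ 1 / 1500 := by
    intro c hc
    refine (hm (c - 8 * κ) (c + 8 * κ) (by linarith) (by linarith)).trans ?_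
    have h3 := log_ratio (u := c - 8 * κ) (v := c + 8 * κ) (by linarith) (by linarith)
    have h4 : (c + 8 * κ - (c - 8 * κ)) / (c - 8 * κ) ≤ 40 * κ := by
      rw [div_le_iff₀ (by linarith)]
      nlinarith
    linarith
  have h5 : L1N x ≤ ∑ p ∈ PS x (5 / 11 - 8 * κ) (5 / 11 + 8 * κ), (1 : ℝ) / p +
      ∑ p ∈ PS x (1 / 2 - 8 * κ) (1 / 2 + 8 * κ), (1 : ℝ) / p +
      ∑ p ∈ PS x (6 / 11 - 8 * κ) (6 / 11 + 8 * κ), (1 : ℝ) / p := by
    unfold L1N
    have e1 : ∑ p ∈ PN x, w1N (kap x) (ex x p) / p =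
        ∑ p ∈ (PN x).filter (fun p => WinN κ (ex x p)), (1 : ℝ) / p := by
      rw [sum_filter]
      refine sum_congr rfl fun p _ => ?_
      unfold w1N
      rw [← hκ]
      split_ifs <;> simp
    rw [e1]
    have hsub : (PN x).filter (fun p => WinN κ (ex x p)) ⊆
        (PS x (5 / 11 - 8 * κ) (5 / 11 + 8 * κ) ∪ PS x (1 / 2 - 8 * κ) (1 / 2 + 8 * κ)) ∪
          PS x (6 / 11 - 8 * κ) (6 / 11 + 8 * κ) := by
      intro p hp
      obtain ⟨hp1, hp2⟩ := mem_filter.1 hp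
      unfold PN PS at hp1
      obtain ⟨h3, h4, _, _⟩ := mem_filter.1 hp1
      simp only [mem_union]
      rcases hp2 with h | h | h
      · have := abs_le.1 h
        exact Or.inl (Or.inl (mem_filter.2 ⟨h3, h4, by linarith, by linarith⟩))
      · have := abs_le.1 h
        exact Or.inl (Or.inr (mem_filter.2 ⟨h3, h4, by linarith, by linarith⟩))
      · have := abs_le.1 h
        exact Or.inr (mem_filter.2 ⟨h3, h4, by linarith, by linarith⟩)
    refine (sum_le_sum_of_subset_of_nonneg hsub fun _ _ _ => by positivity).trans ?_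
    have u1 := sum_union_inter (s₁ := PS x (5 / 11 - 8 * κ) (5 / 11 + 8 * κ) ∪
      PS x (1 / 2 - 8 * κ) (1 / 2 + 8 * κ)) (s₂ := PS x (6 / 11 - 8 * κ) (6 / 11 + 8 * κ))
      (f := fun p : ℕ => (1 : ℝ) / p)
    have u2 := sum_union_inter (s₁ := PS x (5 / 11 - 8 * κ) (5 / 11 + 8 * κ))
      (s₂ := PS x (1 / 2 - 8 * κ) (1 / 2 + 8 * κ)) (f := fun p : ℕ => (1 : ℝ) / p)
    have n1 : 0 ≤ ∑ p ∈ (PS x (5 / 11 - 8 * κ) (5 / 11 + 8 * κ) ∪
      PS x (1 / 2 - 8 * κ) (1 / 2 + 8 * κ)) ∩ PS x (6 / 11 - 8 * κ) (6 / 11 + 8 * κ),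
      (1 : ℝ) / p := sum_nonneg fun _ _ => by positivity
    have n2 : 0 ≤ ∑ p ∈ PS x (5 / 11 - 8 * κ) (5 / 11 + 8 * κ) ∩
      PS x (1 / 2 - 8 * κ) (1 / 2 + 8 * κ), (1 : ℝ) / p := sum_nonneg fun _ _ => by positivity
    linarith
  have k1 := key (5 / 11) (by norm_num)
  have k2 := key (1 / 2) (by norm_num)
  have k3 := key (6 / 11) (by norm_num)
  linarith

theorem L4N_le : ∃ x₁ : ℕ, ∀ x : ℕ, x₁ ≤ x → L4N x ≤ 1 / 500 := by
  obtain ⟨x₁, h1⟩ := mer (1 / 10000) (by norm_num)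
  refine ⟨x₁, fun x hx => ?_⟩
  have hm := h1 x hx (2 / 11) (3 / 11) (by norm_num) (by norm_num)
  have g3 : Real.log (3 / 2) ≤ 4063 / 10000 := by
    have := log_pade (1 / 2) (by norm_num)
    norm_num at this ⊢
    linarith
  have e : (3 / 11 : ℝ) / (2 / 11) = 3 / 2 := by norm_num
  rw [e] at hm
  have h2 := (rb_sum x).trans hm
  have h3 : 0 ≤ ∑ p ∈ PN x, rb x p := sum_nonneg fun p _ => rb_nonneg x p
  have h4 : ∑ p ∈ PN x, rb x p ≤ 4064 / 10000 := by linarith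
  calc L4N x ≤ (∑ p ∈ PN x, rb x p) ^ 4 / 24 :=
        (L4_nest x).trans (nest4 (PN x) (rb x) fun p _ => rb_nonneg x p)
    _ ≤ (4064 / 10000) ^ 4 / 24 := by gcongr
    _ ≤ 1 / 500 := by norm_num

end Pool.Agent.HN
end

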