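import Mathlib
import Pool.Agent.Work.BV.GaussLS
import Pool.Agent.Work.BV.L_Tau
import Pool.Agent.Work.BV.Reduce
import Pool.Agent.Work.BV.SW
import Pool.Agent.Work.GBM.C01
import Pool.Agent.Work.GBM.C02
import Pool.Agent.Work.GBM.C08
import Pool.Agent.Work.GBM.C09
import Pool.Agent.Work.GBM.C12
import Pool.Agent.Work.GBM.C15
import Pool.Agent.Work.GBM.C16
import Pool.Agent.Work.GBM.C17
import Pool.Agent.Work.GBM.C18
import Pool.Agent.Work.GBM.C22
import Pool.Agent.Work.Shared.PNT.Tauber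

section
/-! # Module TMinor2: the model on the minor arcs, all `s > Q`

Geometric sums as in HL/TMinor (`gm`): for `r` coprime to `t ≤ Q`, `(t,q) = 1`: bound `1/(2‖qα + q r/t‖)`. As `s > Q ≥ t`, `‖b/s + q r/t‖ ≥ 1/(s t)`, so `‖qα + q r/t‖ ≥ 1/(2 s t)`.
Two different fractions with denominators `≤ Q` differ by `≥ 1/Q²` mod 1: at most one of all the `qα + q r/t` is within `1/(2Q²)` of an integer; it contributes `≤ s t/φ(t) ≤ C s (1 + log Q)`
(`ratio_le`), the others `≤ Q²` each, `∑_t φ(t) (1/φ(t)) Q² ≤ Q³`. `∑_a |φ(a)| ≤ √q`. -/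

namespace Pool.Agent.HN

open Finset Pool.Agent.BV Pool.Agent.HL
open scoped ArithmeticFunction.Moebius

/-- reduction to geometric sums (as in `T_minor`) -/
theorem tm2_expand (x q Q : ℕ) (φ : ℕ → ℂ) (α : ℝ) (hq : 1 ≤ q) (hφ : Tw q φ) :
    ‖∑ n ∈ Icc 1 x, TM q Q n * φ n * e (n * α)‖ ≤
      ((q : ℝ) / q.totient) * (Real.sqrt q *
        ∑ t ∈ (Icc 1 Q).filter (fun t => t.Coprime q), 1 / (t.totient : ℝ) *
          ∑ b' ∈ (range t).filter (fun b => b.Coprime t),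
            gm ((x : ℝ) / q + 1) (q * ((b' : ℝ) / t + α))) := by
  set K : ℂ := (q : ℂ) / (q.totient : ℂ) with hK
  have hKn : ‖K‖ = (q : ℝ) / q.totient := by
    rw [hK, norm_div]; simp
  set Y : ℝ := (x : ℝ) / q + 1 with hY
  have hY0 : 0 ≤ Y := by positivity
  set D := (Icc 1 Q).filter (fun t => t.Coprime q) with hD
  set Bt : ℕ → Finset ℕ := fun t => (range t).filter (fun b => b.Coprime t) with hBt
  have hBcard : ∀ t, 1 ≤ t → ((Bt t).card : ℝ) = t.totient := by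
    intro t _
    have h3 : (Bt t).card = t.totient := by
      unfold Nat.totient
      congr 1
      ext b
      simp only [hBt, mem_filter, mem_range, Nat.coprime_comm]
    rw [h3]
  have hexp : ∑ n ∈ Icc 1 x, TM q Q n * φ n * e (n * α) =
      K * ∑ t ∈ D, ((μ t : ℤ) : ℂ) / (t.totient : ℂ) * ∑ b' ∈ Bt t,
        ∑ n ∈ Icc 1 x, φ n * e (n * ((b' : ℝ) / t + α)) := by
    have h1 : ∀ n ∈ Icc 1 x, TM q Q n * φ n * e (n * α) =
        K * ∑ t ∈ D, ((μ t : ℤ) : ℂ) / (t.totient : ℂ) * ∑ b' ∈ Bt t,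
          φ n * e (n * ((b' : ℝ) / t + α)) := by
      intro n _
      by_cases hn : n.Coprime q
      · unfold TM
        rw [if_pos hn, mul_assoc, mul_assoc, Finset.sum_mul]
        congr 1
        refine Finset.sum_congr rfl fun t _ => ?_
        rw [mul_assoc]
        congr 1
        unfold ram
        rw [Finset.sum_mul]
        refine Finset.sum_congr rfl fun b' _ => ?_
        rw [mul_add, add_e_add]
        ring
      · rw [hφ.cop n hn]
        simp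
    rw [Finset.sum_congr rfl h1, ← Finset.mul_sum]
    congr 1
    rw [Finset.sum_comm]
    refine Finset.sum_congr rfl fun t _ => ?_
    rw [← Finset.mul_sum]
    congr 1
    rw [Finset.sum_comm]
  rw [hexp, norm_mul, hKn]
  apply mul_le_mul_of_nonneg_left _ (by positivity)
  have hw : ∀ t, 1 ≤ t → ‖((μ t : ℤ) : ℂ) / (t.totient : ℂ)‖ ≤ 1 / (t.totient : ℝ) := by
    intro t ht
    have h0 : (0 : ℝ) < t.totient := by exact_mod_cast Nat.totient_pos.2 ht
    rw [norm_div]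
    have h1 : ‖((μ t : ℤ) : ℂ)‖ ≤ 1 := by
      rw [Complex.norm_intCast]
      exact_mod_cast ArithmeticFunction.abs_moebius_le_one
    have h2 : ‖(t.totient : ℂ)‖ = (t.totient : ℝ) := by simp
    rw [h2]
    exact div_le_div_of_nonneg_right h1 h0.le
  have hsq : 0 ≤ Real.sqrt q := Real.sqrt_nonneg _
  have hstep : ‖∑ t ∈ D, ((μ t : ℤ) : ℂ) / (t.totient : ℂ) * ∑ b' ∈ Bt t,
        ∑ n ∈ Icc 1 x, φ n * e (n * ((b' : ℝ) / t + α))‖ ≤
      Real.sqrt q * ∑ t ∈ D, 1 / (t.totient : ℝ) * ∑ b' ∈ Bt t,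
        gm Y (q * ((b' : ℝ) / t + α)) := by
    rw [Finset.mul_sum]
    refine (norm_sum_le _ _).trans (Finset.sum_le_sum fun t ht => ?_)
    have ht1 : 1 ≤ t := (mem_Icc.1 (mem_filter.1 ht).1).1
    rw [norm_mul]
    have h1 : ‖∑ b' ∈ Bt t, ∑ n ∈ Icc 1 x, φ n * e (n * ((b' : ℝ) / t + α))‖ ≤
        Real.sqrt q * ∑ b' ∈ Bt t, gm Y (q * ((b' : ℝ) / t + α)) := by
      rw [Finset.mul_sum]
      exact (norm_sum_le _ _).trans (Finset.sum_le_sum fun b' _ => tmi_twist x q φ _ hq hφ)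
    calc _ ≤ 1 / (t.totient : ℝ) *
          (Real.sqrt q * ∑ b' ∈ Bt t, gm Y (q * ((b' : ℝ) / t + α))) :=
          mul_le_mul (hw t ht1) h1 (norm_nonneg _) (by positivity)
      _ = _ := by ring
  exact hstep

/-- the bound for every pair -/
theorem tm2_off (q Q s t : ℕ) (α Y : ℝ) (b : ℤ) (b' : ℕ) (hY : 0 ≤ Y)
    (hs : 1 ≤ s) (ht : 1 ≤ t) (htQ : t ≤ Q) (hα : |q * α - b / s| ≤ 1 / (2 * s * Q))
    (h : ¬ ((s * t : ℕ) : ℤ) ∣ (q : ℤ) * b' * s + b * t) :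
    gm Y (q * ((b' : ℝ) / t + α)) ≤ s * t := by
  have hs' : (1 : ℝ) ≤ s := by exact_mod_cast hs
  have ht' : (1 : ℝ) ≤ t := by exact_mod_cast ht
  have htQ' : (t : ℝ) ≤ Q := by exact_mod_cast htQ
  have hst : 0 < (s : ℝ) * t := by positivity
  have h2 : 1 / (2 * ((s : ℝ) * t)) ≤
      |q * ((b' : ℝ) / t + α) - round (q * ((b' : ℝ) / t + α))| := by
    have h3 := tmi_dist ((q : ℤ) * b' * s + b * t) (s * t) (Nat.mul_pos hs ht) h
      (round (q * ((b' : ℝ) / t + α)))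
    have h4 : (((q : ℤ) * b' * s + b * t : ℤ) : ℝ) / ((s * t : ℕ) : ℝ) =
        q * ((b' : ℝ) / t) + b / s := by
      push_cast
      field_simp
    rw [h4] at h3
    have h5 : |q * α - b / s| ≤ 1 / (2 * ((s : ℝ) * t)) := by
      refine hα.trans ?_
      apply one_div_le_one_div_of_le (by positivity)
      nlinarith
    have h6 : 1 / (((s * t : ℕ) : ℝ)) = 1 / (2 * ((s : ℝ) * t)) + 1 / (2 * ((s : ℝ) * t)) := by
      push_cast
      field_simp
      ring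
    rw [h6] at h3
    have h7 : (q : ℝ) * ((b' : ℝ) / t) + b / s - round (q * ((b' : ℝ) / t + α)) =
        (q * ((b' : ℝ) / t + α) - round (q * ((b' : ℝ) / t + α))) - (q * α - b / s) := by
      ring
    rw [h7] at h3
    have h8 := abs_sub (q * ((b' : ℝ) / t + α) - round (q * ((b' : ℝ) / t + α)) : ℝ)
      (q * α - b / s)
    linarith
  have h9 := gm_le_of_dist hY (by positivity) h2
  refine h9.trans (le_of_eq ?_)
  field_simp

/-- at most one pair is close to an integer -/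
theorem tm2_uniq (q Q t t' : ℕ) (α : ℝ) (b1 b2 : ℕ) (hQ : 1 ≤ Q) (ht : 1 ≤ t) (htQ : t ≤ Q)
    (ht' : 1 ≤ t') (htQ' : t' ≤ Q) (htq : t.Coprime q) (htq' : t'.Coprime q)
    (hb1 : b1 < t) (hb1t : b1.Coprime t) (hb2 : b2 < t') (hb2t : b2.Coprime t')
    (h1 : |q * ((b1 : ℝ) / t + α) - round (q * ((b1 : ℝ) / t + α))| < 1 / (2 * (Q : ℝ) ^ 2))
    (h2 : |q * ((b2 : ℝ) / t' + α) - round (q * ((b2 : ℝ) / t' + α))| < 1 / (2 * (Q : ℝ) ^ 2)) :
    t = t' ∧ b1 = b2 := by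
  have hQ' : (1 : ℝ) ≤ Q := by exact_mod_cast hQ
  have htr : (1 : ℝ) ≤ t := by exact_mod_cast ht
  have htr' : (1 : ℝ) ≤ t' := by exact_mod_cast ht'
  have htQr : (t : ℝ) ≤ Q := by exact_mod_cast htQ
  have htQr' : (t' : ℝ) ≤ Q := by exact_mod_cast htQ'
  set m1 := round (q * ((b1 : ℝ) / t + α)) with hm1
  set m2 := round (q * ((b2 : ℝ) / t' + α)) with hm2
  -- the difference is an integer
  have hdvd : ((t * t' : ℕ) : ℤ) ∣ (q : ℤ) * b1 * t' - q * b2 * t := by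
    by_contra hnot
    have h3 := tmi_dist ((q : ℤ) * b1 * t' - q * b2 * t) (t * t') (Nat.mul_pos ht ht') hnot
      (m1 - m2)
    have h4 : (((q : ℤ) * b1 * t' - q * b2 * t : ℤ) : ℝ) / ((t * t' : ℕ) : ℝ) =
        q * ((b1 : ℝ) / t) - q * ((b2 : ℝ) / t') := by
      push_cast
      field_simp
    rw [h4] at h3
    have h5 : q * ((b1 : ℝ) / t) - q * ((b2 : ℝ) / t') - ((m1 - m2 : ℤ) : ℝ) =
        (q * ((b1 : ℝ) / t + α) - m1) - (q * ((b2 : ℝ) / t' + α) - m2) := by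
      push_cast
      ring
    rw [h5] at h3
    have h6 := abs_sub (q * ((b1 : ℝ) / t + α) - m1 : ℝ) (q * ((b2 : ℝ) / t' + α) - m2)
    have h7 : 1 / ((Q : ℝ) ^ 2) ≤ 1 / ((t * t' : ℕ) : ℝ) := by
      apply one_div_le_one_div_of_le
      · push_cast; positivity
      · push_cast
        rw [sq]
        exact mul_le_mul htQr htQr' (by linarith) (by linarith)
    have h8 : 1 / ((Q : ℝ) ^ 2) = 1 / (2 * (Q : ℝ) ^ 2) + 1 / (2 * (Q : ℝ) ^ 2) := by
      field_simp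
      ring
    linarith
  have e1 : (t : ℤ) ∣ (q : ℤ) * b1 * t' := by
    have h3 : (t : ℤ) ∣ (q : ℤ) * b1 * t' - q * b2 * t :=
      dvd_trans (by push_cast; exact dvd_mul_right _ _) hdvd
    have h4 := dvd_add h3 (dvd_mul_left (t : ℤ) ((q : ℤ) * b2))
    simpa using h4
  have e2 : (t' : ℤ) ∣ (q : ℤ) * b2 * t := by
    have h3 : (t' : ℤ) ∣ (q : ℤ) * b1 * t' - q * b2 * t :=
      dvd_trans (by push_cast; exact dvd_mul_left _ _) hdvd
    have h4 := dvd_sub (dvd_mul_left (t' : ℤ) ((q : ℤ) * b1)) h3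
    simpa using h4
  have f1 : t ∣ t' := by
    have h3 : t ∣ q * b1 * t' := by exact_mod_cast e1
    exact (htq.mul_right hb1t.symm).dvd_of_dvd_mul_left h3
  have f2 : t' ∣ t := by
    have h3 : t' ∣ q * b2 * t := by exact_mod_cast e2
    exact (htq'.mul_right hb2t.symm).dvd_of_dvd_mul_left h3
  have htt : t = t' := Nat.dvd_antisymm f1 f2
  subst htt
  refine ⟨rfl, ?_⟩
  have h3 : ((t : ℤ) * t) ∣ t * ((q : ℤ) * (b1 - b2)) := by
    have : (t : ℤ) * ((q : ℤ) * (b1 - b2)) = (q : ℤ) * b1 * t - q * b2 * t := by ring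
    rw [this]
    exact_mod_cast hdvd
  have h4 : (t : ℤ) ∣ (q : ℤ) * (b1 - b2) :=
    (mul_dvd_mul_iff_left (by exact_mod_cast (by omega : t ≠ 0))).1 h3
  have h5 : (t : ℤ) ∣ (b1 : ℤ) - b2 := by
    have h8 : IsCoprime (t : ℤ) (q : ℤ) := Nat.isCoprime_iff_coprime.2 htq
    exact h8.dvd_of_dvd_mul_left h4
  have h9 : ((b2 : ℕ) : ℤ) ≡ b1 [ZMOD t] := Int.modEq_iff_dvd.2 h5
  have h10 : b2 ≡ b1 [MOD t] := (Int.natCast_modEq_iff).1 h9
  rw [Nat.ModEq, Nat.mod_eq_of_lt hb2, Nat.mod_eq_of_lt hb1] at h10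
  exact h10.symm

theorem T_minor2 : ∃ C : ℝ, 0 < C ∧ ∀ (y q Q s : ℕ) (φ : ℕ → ℂ) (α : ℝ) (b : ℤ), 1 ≤ q → 1 ≤ Q →
    Tw q φ → Q < s → IsCoprime b (s : ℤ) → |q * α - b / s| ≤ 1 / (2 * s * Q) →
    ‖∑ n ∈ Icc 1 y, TM q Q n * φ n * e (n * α)‖ ≤
      C * ((q : ℝ) / q.totient) * Real.sqrt q * (s * (1 + Real.log Q) + (Q : ℝ) ^ 3) := by
  refine ⟨2, by norm_num, ?_⟩
  intro y q Q s φ α b hq hQ hφ hQs hbs hα
  refine (tm2_expand y q Q φ α hq hφ).trans ?_
  set Y : ℝ := (y : ℝ) / q + 1 with hY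
  have hY0 : 0 ≤ Y := by positivity
  have hQ' : (1 : ℝ) ≤ Q := by exact_mod_cast hQ
  have hs1 : 1 ≤ s := by omega
  have hlog : 0 ≤ Real.log Q := Real.log_nonneg hQ'
  classical
  set D := (Icc 1 Q).filter (fun t => t.Coprime q) with hD
  set Bt : ℕ → Finset ℕ := fun t => (range t).filter (fun b => b.Coprime t) with hBt
  have hBcard : ∀ t, ((Bt t).card : ℝ) = t.totient := by
    intro t
    have h3 : (Bt t).card = t.totient := by
      unfold Nat.totient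
      congr 1
      ext b
      simp only [hBt, mem_filter, mem_range, Nat.coprime_comm]
    rw [h3]
  have hmemD : ∀ t ∈ D, 1 ≤ t ∧ t ≤ Q ∧ t.Coprime q := fun t ht =>
    ⟨(mem_Icc.1 (mem_filter.1 ht).1).1, (mem_Icc.1 (mem_filter.1 ht).1).2, (mem_filter.1 ht).2⟩
  have hmemB : ∀ t, ∀ b' ∈ Bt t, b' < t ∧ b'.Coprime t := fun t b' hb =>
    ⟨mem_range.1 (mem_filter.1 hb).1, (mem_filter.1 hb).2⟩
  let X : ℕ → ℕ → Prop := fun t b' =>
    |q * ((b' : ℝ) / t + α) - round (q * ((b' : ℝ) / t + α))| < 1 / (2 * (Q : ℝ) ^ 2)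
  have hone : ∀ t ∈ D, ∀ b' ∈ Bt t, gm Y (q * ((b' : ℝ) / t + α)) ≤
      (Q : ℝ) ^ 2 + if X t b' then (s : ℝ) * t else 0 := by
    intro t ht b' hb'
    obtain ⟨ht1, ht2, htq⟩ := hmemD t ht
    obtain ⟨hb1, hb2⟩ := hmemB t b' hb'
    by_cases hx : X t b'
    · rw [if_pos hx]
      have h1 : gm Y (q * ((b' : ℝ) / t + α)) ≤ s * t := by
        refine tm2_off q Q s t α Y b b' hY0 hs1 ht1 ht2 hα ?_
        intro hdvd
        have := (tmi_diag q s t b b' hs1 ht1 htq hb2 hbs hdvd).1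
        omega
      have h2 : (0 : ℝ) ≤ (Q : ℝ) ^ 2 := by positivity
      linarith
    · rw [if_neg hx, add_zero]
      have h1 : 1 / (2 * (Q : ℝ) ^ 2) ≤
          |q * ((b' : ℝ) / t + α) - round (q * ((b' : ℝ) / t + α))| := not_lt.1 hx
      refine (gm_le_of_dist hY0 (by positivity) h1).trans (le_of_eq ?_)
      field_simp
  have hexc : ∑ t ∈ D, 1 / (t.totient : ℝ) * ∑ b' ∈ Bt t, (if X t b' then (s : ℝ) * t else 0) ≤
      2 * (s * (1 + Real.log Q)) := by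
    by_cases hex : ∃ t0 ∈ D, ∃ b0 ∈ Bt t0, X t0 b0
    · obtain ⟨t0, ht0, b0, hb0, hx0⟩ := hex
      obtain ⟨t01, t02, t03⟩ := hmemD t0 ht0
      obtain ⟨b01, b02⟩ := hmemB t0 b0 hb0
      have huniq : ∀ t ∈ D, ∀ b' ∈ Bt t, X t b' → t = t0 ∧ b' = b0 := by
        intro t ht b' hb' hx
        obtain ⟨ht1, ht2, htq⟩ := hmemD t ht
        obtain ⟨hb1, hb2⟩ := hmemB t b' hb'
        exact tm2_uniq q Q t t0 α b' b0 hQ ht1 ht2 t01 t02 htq t03 hb1 hb2 b01 b02 hx hx0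
      have h1 : ∀ t ∈ D, 1 / (t.totient : ℝ) *
          ∑ b' ∈ Bt t, (if X t b' then (s : ℝ) * t else 0) ≤
          if t = t0 then 1 / (t0.totient : ℝ) * (s * t0) else 0 := by
        intro t ht
        by_cases htt : t = t0
        · rw [if_pos htt]
          subst htt
          apply mul_le_mul_of_nonneg_left _ (by positivity)
          calc ∑ b' ∈ Bt t, (if X t b' then (s : ℝ) * t else 0)
              ≤ ∑ b' ∈ Bt t, (if b' = b0 then (s : ℝ) * t else 0) := by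
                refine Finset.sum_le_sum fun b' hb' => ?_
                by_cases hx : X t b'
                · rw [if_pos hx, if_pos (huniq t ht b' hb' hx).2]
                · rw [if_neg hx]
                  split_ifs
                  · positivity
                  · exact le_rfl
            _ ≤ s * t := by
                rw [Finset.sum_ite_eq' (Bt t) b0, if_pos hb0]
        · rw [if_neg htt]
          apply le_of_eq
          rw [Finset.sum_eq_zero, mul_zero]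
          intro b' hb'
          rw [if_neg]
          intro hx
          exact htt (huniq t ht b' hb' hx).1
      refine (Finset.sum_le_sum h1).trans ?_
      rw [Finset.sum_ite_eq' D t0, if_pos ht0]
      have h2 := ratio_le t0 t01
      have h3 : Real.log t0 ≤ Real.log Q :=
        Real.log_le_log (by exact_mod_cast t01) (by exact_mod_cast t02)
      have h4 : 1 / (t0.totient : ℝ) * (s * t0) = s * ((t0 : ℝ) / t0.totient) := by ring
      rw [h4]
      have h5 : (0 : ℝ) ≤ s := Nat.cast_nonneg _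
      calc (s : ℝ) * ((t0 : ℝ) / t0.totient) ≤ s * (2 * (1 + Real.log Q)) := by
            apply mul_le_mul_of_nonneg_left _ h5
            linarith
        _ = 2 * (s * (1 + Real.log Q)) := by ring
    · push Not at hex
      have h1 : ∑ t ∈ D, 1 / (t.totient : ℝ) *
          ∑ b' ∈ Bt t, (if X t b' then (s : ℝ) * t else 0) = 0 := by
        refine Finset.sum_eq_zero fun t ht => ?_
        rw [Finset.sum_eq_zero, mul_zero]
        intro b' hb'
        rw [if_neg (hex t ht b' hb')]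
      rw [h1]
      positivity
  have hmain : ∑ t ∈ D, 1 / (t.totient : ℝ) * ∑ b' ∈ Bt t, gm Y (q * ((b' : ℝ) / t + α)) ≤
      2 * (s * (1 + Real.log Q)) + (Q : ℝ) ^ 3 := by
    have h1 : ∀ t ∈ D, 1 / (t.totient : ℝ) * ∑ b' ∈ Bt t, gm Y (q * ((b' : ℝ) / t + α)) ≤
        (Q : ℝ) ^ 2 + 1 / (t.totient : ℝ) * ∑ b' ∈ Bt t, (if X t b' then (s : ℝ) * t else 0) := by
      intro t ht
      obtain ⟨ht1, ht2, htq⟩ := hmemD t ht
      have h0 : (0 : ℝ) < t.totient := by exact_mod_cast Nat.totient_pos.2 ht1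
      have h2 := Finset.sum_le_sum (hone t ht)
      rw [Finset.sum_add_distrib, Finset.sum_const, nsmul_eq_mul, hBcard t] at h2
      have h3 := mul_le_mul_of_nonneg_left h2 (by positivity : (0 : ℝ) ≤ 1 / (t.totient : ℝ))
      refine h3.trans (le_of_eq ?_)
      rw [mul_add]
      congr 1
      field_simp
    refine (Finset.sum_le_sum h1).trans ?_
    rw [Finset.sum_add_distrib, Finset.sum_const, nsmul_eq_mul]
    have h2 : (D.card : ℝ) ≤ Q := by
      have h3 : D.card ≤ Q := by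
        refine (Finset.card_filter_le _ _).trans ?_
        simp
      exact_mod_cast h3
    have h4 : (D.card : ℝ) * (Q : ℝ) ^ 2 ≤ (Q : ℝ) ^ 3 := by
      calc (D.card : ℝ) * (Q : ℝ) ^ 2 ≤ Q * (Q : ℝ) ^ 2 :=
            mul_le_mul_of_nonneg_right h2 (by positivity)
        _ = (Q : ℝ) ^ 3 := by ring
    linarith
  have hK : (0 : ℝ) ≤ (q : ℝ) / q.totient := by positivity
  have hsq : 0 ≤ Real.sqrt q := Real.sqrt_nonneg _
  have h3 : (0 : ℝ) ≤ (Q : ℝ) ^ 3 := by positivity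
  calc (q : ℝ) / q.totient * (Real.sqrt q * ∑ t ∈ D, 1 / (t.totient : ℝ) *
        ∑ b' ∈ Bt t, gm Y (q * ((b' : ℝ) / t + α)))
      ≤ (q : ℝ) / q.totient * (Real.sqrt q * (2 * (s * (1 + Real.log Q) + (Q : ℝ) ^ 3))) := by
        apply mul_le_mul_of_nonneg_left _ hK
        apply mul_le_mul_of_nonneg_left _ hsq
        linarith
    _ = 2 * ((q : ℝ) / q.totient) * Real.sqrt q * (s * (1 + Real.log Q) + (Q : ℝ) ^ 3) := by
        ring

end Pool.Agent.HN
end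

section
/-! # Module SupNA: auxiliary lemmas for SupN -/

namespace Pool.Agent.HN

open Finset Filter Pool.Agent.BV Pool.Agent.HL Pool.Agent.HS

namespace SupNaux

/-- arithmetic of the minor arcs, type I and II part -/
lemma minor_arithN (B'' c b e₀ e1 Bm : ℕ) (C X L q s D w₁ w₂ J M η s4 τ : ℝ) (hC : 0 < C)
    (hL : 1000 ≤ L) (hLC : 800 * C ≤ L) (hX : 1 ≤ X) (hq : 1 ≤ q) (hqX : q ≤ X)
    (hτ : τ = 1 / L ^ e1) (he₀ : e₀ = 2 * b + 4 + c + B'' + 3)
    (he1 : e1 = 2 * b + 4 + 4 * e₀ + c + B'' + 3) (hBm : Bm = c + B'' + 2)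
    (hη : η = 1 / L ^ (2 * e₀))
    (h1 : 1 / s ≤ τ) (h2 : q * s / X ≤ τ) (h3 : q * D ^ 2 / X ^ 2 ≤ τ) (h4 : 1 / w₁ ≤ τ)
    (h5 : w₂ / X ≤ τ) (h6 : 1 / s4 ≤ τ) (hJ0 : 0 ≤ J) (hJ : J ≤ 3 * L ^ (b + 1))
    (hM : M = X / L ^ Bm) :
    C * L ^ c * ((X ^ 2 / q) * (1 / s + q * s / X + q * D ^ 2 / X ^ 2) +
        J ^ 2 * (1 / η ^ 2 * (s * X + X ^ 2 / (q * w₁) + X * w₂ / q + X ^ 2 / (q * s4)) +
          X ^ 2 / q * Real.sqrt η) +
        (X / q + 1) * M) ≤ 1 / 16 * (X ^ 2 / (q * L ^ B'')) := by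
  have hL0 : 0 < L := by linarith
  have hL1 : 1 ≤ L := by linarith
  have hq0 : 0 < q := by linarith
  have hX0 : 0 < X := by linarith
  set W := X ^ 2 / q with hW
  have hW0 : 0 < W := by positivity
  have hτ0 : 0 < τ := by rw [hτ]; positivity
  have hM0 : 0 < M := by rw [hM]; positivity
  have hη0 : 0 < η := by rw [hη]; positivity
  have hXq : 1 ≤ X / q := by rw [le_div_iff₀ hq0]; linarith
  have hsq : Real.sqrt η = 1 / L ^ e₀ := by
    rw [Real.sqrt_eq_iff_mul_self_eq hη0.le (by positivity), hη]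
    rw [two_mul, pow_add]
    field_simp
  set P := W / L ^ (c + B'' + 2) with hP
  have hP0 : 0 < P := by positivity
  have a1 : W * (1 / s + q * s / X + q * D ^ 2 / X ^ 2) ≤ 3 * P := by
    have e2 : τ ≤ 1 / L ^ (c + B'' + 2) := by
      rw [hτ]
      exact div_le_div_of_nonneg_left zero_le_one (by positivity) (pow_le_pow_right₀ hL1 (by omega))
    calc W * (1 / s + q * s / X + q * D ^ 2 / X ^ 2) ≤ W * (3 * (1 / L ^ (c + B'' + 2))) := by
          refine mul_le_mul_of_nonneg_left ?_ hW0.le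
          linarith
      _ = 3 * P := by rw [hP]; ring
  have a2 : s * X + X ^ 2 / (q * w₁) + X * w₂ / q + X ^ 2 / (q * s4) ≤ 4 * (W * τ) := by
    have e1' : s * X = W * (q * s / X) := by rw [hW]; field_simp
    have e2 : X ^ 2 / (q * w₁) = W * (1 / w₁) := by rw [hW, div_mul_div_comm, mul_one]
    have e3 : X * w₂ / q = W * (w₂ / X) := by rw [hW]; field_simp
    have e4 : X ^ 2 / (q * s4) = W * (1 / s4) := by rw [hW, div_mul_div_comm, mul_one]
    rw [e1', e2, e3, e4, ← mul_add, ← mul_add, ← mul_add, ← mul_assoc, mul_comm 4 W, mul_assoc]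
    refine mul_le_mul_of_nonneg_left ?_ hW0.le
    linarith
  have hJ2 : J ^ 2 ≤ 9 * L ^ (2 * b + 2) := by
    calc J ^ 2 ≤ (3 * L ^ (b + 1)) ^ 2 := pow_le_pow_left₀ hJ0 hJ 2
      _ = _ := by ring
  have a3 : J ^ 2 * (1 / η ^ 2 * (s * X + X ^ 2 / (q * w₁) + X * w₂ / q + X ^ 2 / (q * s4)) +
          W * Real.sqrt η) ≤ 45 * P := by
    have e5 : L ^ e1 = L ^ (2 * b + 2) * (L ^ (4 * e₀) * (L ^ 3 * L ^ (c + B'' + 2))) := by
      rw [he1, ← pow_add, ← pow_add, ← pow_add]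
      congr 1
      ring
    have e6 : L ^ e₀ = L ^ (2 * b + 2) * (L ^ 3 * L ^ (c + B'' + 2)) := by
      rw [he₀, ← pow_add, ← pow_add]
      congr 1
      ring
    have hL3 : 1 ≤ L ^ 3 := one_le_pow₀ hL1
    have e7 : 9 * L ^ (2 * b + 2) * (1 / η ^ 2 * (4 * (W * τ))) = 36 * (P / L ^ 3) := by
      have : 1 / η ^ 2 = L ^ (4 * e₀) := by
        rw [hη, div_pow, one_pow, one_div_one_div, ← pow_mul]
        congr 1
        ring
      rw [this, hτ, e5, hP]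
      field_simp
      norm_num
    have e8 : 9 * L ^ (2 * b + 2) * (W * Real.sqrt η) = 9 * (P / L ^ 3) := by
      rw [hsq, e6, hP]
      field_simp
    have e9 : P / L ^ 3 ≤ P := div_le_self hP0.le hL3
    calc J ^ 2 * (1 / η ^ 2 * (s * X + X ^ 2 / (q * w₁) + X * w₂ / q + X ^ 2 / (q * s4)) +
          W * Real.sqrt η)
        ≤ J ^ 2 * (1 / η ^ 2 * (4 * (W * τ)) + W * Real.sqrt η) := by gcongr
      _ ≤ 9 * L ^ (2 * b + 2) * (1 / η ^ 2 * (4 * (W * τ)) + W * Real.sqrt η) := by gcongr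
      _ = 36 * (P / L ^ 3) + 9 * (P / L ^ 3) := by rw [mul_add, e7, e8]
      _ ≤ 45 * P := by linarith
  have a4 : (X / q + 1) * M ≤ 2 * P := by
    calc (X / q + 1) * M ≤ (X / q + X / q) * M := by gcongr
      _ = 2 * P := by
        rw [hM, hP, hW, hBm]
        field_simp
        ring
  have hsum : W * (1 / s + q * s / X + q * D ^ 2 / X ^ 2) +
        J ^ 2 * (1 / η ^ 2 * (s * X + X ^ 2 / (q * w₁) + X * w₂ / q + X ^ 2 / (q * s4)) +
          W * Real.sqrt η) +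
        (X / q + 1) * M ≤ 50 * P := by linarith
  calc C * L ^ c * (W * (1 / s + q * s / X + q * D ^ 2 / X ^ 2) +
        J ^ 2 * (1 / η ^ 2 * (s * X + X ^ 2 / (q * w₁) + X * w₂ / q + X ^ 2 / (q * s4)) +
          W * Real.sqrt η) +
        (X / q + 1) * M)
      ≤ C * L ^ c * (50 * P) := mul_le_mul_of_nonneg_left hsum (by positivity)
    _ = (50 * C) * (W / L ^ (B'' + 2)) := by
        have e2 : L ^ (c + B'' + 2) = L ^ c * L ^ (B'' + 2) := by
          rw [← pow_add]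
          congr 1
        rw [hP, e2]
        field_simp
    _ ≤ (1 / 16 * L) * (W / L ^ (B'' + 2)) := by
        refine mul_le_mul_of_nonneg_right ?_ (by positivity)
        linarith
    _ ≤ 1 / 16 * (X ^ 2 / (q * L ^ B'')) := by
        have e1 : X ^ 2 / (q * L ^ B'') = W / L ^ B'' := by rw [hW]; field_simp
        rw [e1, mul_assoc]
        refine mul_le_mul_of_nonneg_left ?_ (by norm_num)
        rw [← mul_div_assoc, div_le_div_iff₀ (by positivity) (by positivity)]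
        have e2 : L * L ^ B'' ≤ L ^ (B'' + 2) := by
          rw [← pow_succ']
          exact pow_le_pow_right₀ hL1 (by omega)
        calc L * W * L ^ B'' = W * (L * L ^ B'') := by ring
          _ ≤ W * L ^ (B'' + 2) := by gcongr

/-- arithmetic of the variance -/
lemma var_arithN (E c b b₃ : ℕ) (C X L k D J M η ρ T1 T2 : ℝ) (hC : 0 < C) (hL : 1000 ≤ L)
    (hLC : 66 * C ≤ L) (hX : 1 ≤ X) (hk0 : 0 ≤ k) (hkX : k ≤ X)
    (hb₃ : b₃ = 2 * b + 2 + E + c + 1)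
    (hη : η = 1 / L ^ (2 * b₃)) (hρ : ρ = 2 / L ^ (3 * b₃))
    (hM : M = X / L ^ (E + c + 1)) (hJ0 : 0 ≤ J) (hJ : J ≤ 3 * L ^ (b + 1))
    (h1 : k * (D ^ 2 + X) ≤ X ^ 2 / L ^ (E + c + 1)) (h2 : T1 + T2 ≤ X ^ 2 / L ^ (5 * b₃)) :
    C * L ^ c * (k * (D ^ 2 + X) + J ^ 2 * (1 / η ^ 2 * (ρ ^ 2 * X ^ 2 + T1 + T2) +
        (η * X + k) * Real.sqrt η * X) + (X + k) * M) ≤ X ^ 2 / L ^ E := by
  have hL0 : 0 < L := by linarith
  have hL1 : 1 ≤ L := by linarith
  have hX0 : 0 < X := by linarith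
  have hη0 : 0 < η := by rw [hη]; positivity
  have hη1 : η ≤ 1 := by
    rw [hη, div_le_one (by positivity)]
    exact one_le_pow₀ hL1
  have hM0 : 0 < M := by rw [hM]; positivity
  have hsq : Real.sqrt η = 1 / L ^ b₃ := by
    rw [Real.sqrt_eq_iff_mul_self_eq hη0.le (by positivity), hη]
    rw [two_mul, pow_add]
    field_simp
  set P := X ^ 2 / L ^ (E + c + 1) with hP
  have hP0 : 0 < P := by positivity
  have hJ2 : J ^ 2 ≤ 9 * L ^ (2 * b + 2) := by
    calc J ^ 2 ≤ (3 * L ^ (b + 1)) ^ 2 := pow_le_pow_left₀ hJ0 hJ 2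
      _ = _ := by ring
  have hexp : L ^ b₃ = L ^ (2 * b + 2) * L ^ (E + c + 1) := by
    rw [hb₃, ← pow_add]
    congr 1
    ring
  have hη2 : 1 / η ^ 2 = L ^ (4 * b₃) := by
    rw [hη, div_pow, one_pow, one_div_one_div, ← pow_mul]
    congr 1
    ring
  have a1 : 1 / η ^ 2 * (ρ ^ 2 * X ^ 2 + T1 + T2) ≤ 5 * (X ^ 2 / L ^ b₃) := by
    have e1 : L ^ (4 * b₃) * (ρ ^ 2 * X ^ 2) ≤ 4 * (X ^ 2 / L ^ b₃) := by
      have e2 : L ^ (4 * b₃) * (ρ ^ 2 * X ^ 2) = 4 * (X ^ 2 / L ^ (2 * b₃)) := by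
        have h3 : (L ^ (3 * b₃)) ^ 2 = L ^ (4 * b₃) * L ^ (2 * b₃) := by
          rw [← pow_mul, ← pow_add]; congr 1; ring
        rw [hρ, div_pow, h3]
        field_simp
        norm_num
      rw [e2]
      have e3 : L ^ b₃ ≤ L ^ (2 * b₃) := pow_le_pow_right₀ hL1 (by omega)
      gcongr
    have e4 : L ^ (4 * b₃) * (T1 + T2) ≤ X ^ 2 / L ^ b₃ := by
      calc L ^ (4 * b₃) * (T1 + T2) ≤ L ^ (4 * b₃) * (X ^ 2 / L ^ (5 * b₃)) := by gcongr
        _ = X ^ 2 / L ^ b₃ := by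
          have : L ^ (5 * b₃) = L ^ (4 * b₃) * L ^ b₃ := by rw [← pow_add]; congr 1; ring
          rw [this]
          field_simp
    rw [hη2]
    calc L ^ (4 * b₃) * (ρ ^ 2 * X ^ 2 + T1 + T2)
        = L ^ (4 * b₃) * (ρ ^ 2 * X ^ 2) + L ^ (4 * b₃) * (T1 + T2) := by ring
      _ ≤ _ := by linarith
  have a2 : (η * X + k) * Real.sqrt η * X ≤ 2 * (X ^ 2 / L ^ b₃) := by
    rw [hsq]
    have : η * X + k ≤ 2 * X := by nlinarith
    calc (η * X + k) * (1 / L ^ b₃) * X ≤ 2 * X * (1 / L ^ b₃) * X := by gcongr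
      _ = _ := by ring
  have a3 : J ^ 2 * (1 / η ^ 2 * (ρ ^ 2 * X ^ 2 + T1 + T2) + (η * X + k) * Real.sqrt η * X) ≤
      63 * P := by
    have h0 : 0 ≤ 5 * (X ^ 2 / L ^ b₃) + 2 * (X ^ 2 / L ^ b₃) := by positivity
    calc J ^ 2 * (1 / η ^ 2 * (ρ ^ 2 * X ^ 2 + T1 + T2) + (η * X + k) * Real.sqrt η * X)
        ≤ J ^ 2 * (5 * (X ^ 2 / L ^ b₃) + 2 * (X ^ 2 / L ^ b₃)) := by gcongr
      _ ≤ 9 * L ^ (2 * b + 2) * (5 * (X ^ 2 / L ^ b₃) + 2 * (X ^ 2 / L ^ b₃)) := by gcongr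
      _ = 63 * P := by
          rw [hP, hexp]
          field_simp
          ring
  have a4 : (X + k) * M ≤ 2 * P := by
    calc (X + k) * M ≤ (X + X) * M := by gcongr
      _ = 2 * P := by rw [hM, hP]; ring
  calc C * L ^ c * (k * (D ^ 2 + X) + J ^ 2 * (1 / η ^ 2 * (ρ ^ 2 * X ^ 2 + T1 + T2) +
        (η * X + k) * Real.sqrt η * X) + (X + k) * M)
      ≤ C * L ^ c * (66 * P) := by
        refine mul_le_mul_of_nonneg_left ?_ (by positivity)
        linarith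
    _ = (66 * C) * (X ^ 2 / L ^ (E + 1)) := by
        rw [hP]
        have : L ^ (E + c + 1) = L ^ c * L ^ (E + 1) := by rw [← pow_add]; congr 1; ring
        rw [this]
        field_simp
    _ ≤ L * (X ^ 2 / L ^ (E + 1)) := by gcongr
    _ = X ^ 2 / L ^ E := by
        rw [pow_succ' L E]
        field_simp

/-- the large value terms -/
lemma large_arith (X k w₂ ε R : ℝ) (hX : 1 ≤ X) (hε : 0 < ε) (hk0 : 0 ≤ k) (hw0 : 0 ≤ w₂)
    (hR : 0 < R) (hk : k ≤ X ^ (10 / 11 - 3 * ε / 4)) (hw : w₂ ≤ X ^ (2 / 11 + ε / 4))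
    (h3 : 3 * R ≤ X ^ (ε / 4)) :
    X ^ 2 / X ^ (ε / 4) + (X ^ (ε / 4)) ^ 4 * (w₂ ^ 5 * k ^ 4 * Real.sqrt k + k ^ 5 * Real.sqrt k) /
      X ^ 3 ≤ X ^ 2 / R := by
  have hX0 : 0 < X := by linarith
  have mono : ∀ a b : ℝ, a ≤ b → X ^ a ≤ X ^ b := fun a b h =>
    Real.rpow_le_rpow_of_exponent_le hX h
  have pw : ∀ (a : ℝ) (n : ℕ), (X ^ a) ^ n = X ^ (a * n) := fun a n => by
    rw [Real.rpow_mul hX0.le, Real.rpow_natCast]
  have hsk : Real.sqrt k ≤ X ^ (5 / 11 - 3 * ε / 8) := by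
    refine (Real.sqrt_le_sqrt hk).trans_eq ?_
    rw [Real.sqrt_eq_rpow, ← Real.rpow_mul hX0.le]
    congr 1
    ring
  have hX2 : X ^ 2 = X ^ (2 : ℝ) := by rw [← Real.rpow_natCast]; norm_num
  have hX3 : X ^ 3 = X ^ (3 : ℝ) := by rw [← Real.rpow_natCast]; norm_num
  have t1' : w₂ ^ 5 * k ^ 4 * Real.sqrt k ≤ X ^ (5 - 5 * ε / 4) := by
    calc w₂ ^ 5 * k ^ 4 * Real.sqrt k
        ≤ (X ^ (2 / 11 + ε / 4)) ^ 5 * (X ^ (10 / 11 - 3 * ε / 4)) ^ 4 *
          X ^ (5 / 11 - 3 * ε / 8) := by gcongr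
      _ = X ^ (5 - 17 * ε / 8) := by
          rw [pw, pw, ← Real.rpow_add hX0, ← Real.rpow_add hX0]
          congr 1
          push_cast
          ring
      _ ≤ _ := mono _ _ (by linarith)
  have t2' : k ^ 5 * Real.sqrt k ≤ X ^ (5 - 5 * ε / 4) := by
    calc k ^ 5 * Real.sqrt k
        ≤ (X ^ (10 / 11 - 3 * ε / 4)) ^ 5 * X ^ (5 / 11 - 3 * ε / 8) := by gcongr
      _ = X ^ (5 - 33 * ε / 8) := by
          rw [pw, ← Real.rpow_add hX0]
          congr 1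
          push_cast
          ring
      _ ≤ _ := mono _ _ (by linarith)
  have e1 : X ^ 2 / X ^ (ε / 4) = X ^ (2 - ε / 4) := by
    rw [hX2, ← Real.rpow_sub hX0]
  have e2 : (X ^ (ε / 4)) ^ 4 * (X ^ (5 - 5 * ε / 4) + X ^ (5 - 5 * ε / 4)) / X ^ 3 =
      2 * X ^ (2 - ε / 4) := by
    have e3 : (X ^ (ε / 4)) ^ 4 * X ^ (5 - 5 * ε / 4) = X ^ (2 - ε / 4) * X ^ 3 := by
      rw [pw, hX3, ← Real.rpow_add hX0, ← Real.rpow_add hX0]
      congr 1
      push_cast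
      ring
    rw [← two_mul, show (X ^ (ε / 4)) ^ 4 * (2 * X ^ (5 - 5 * ε / 4)) =
      2 * ((X ^ (ε / 4)) ^ 4 * X ^ (5 - 5 * ε / 4)) by ring, e3]
    field_simp
  have e4 : (X ^ (ε / 4)) ^ 4 * (w₂ ^ 5 * k ^ 4 * Real.sqrt k + k ^ 5 * Real.sqrt k) / X ^ 3 ≤
      2 * X ^ (2 - ε / 4) := by
    rw [← e2]
    gcongr
  calc _ ≤ X ^ (2 - ε / 4) + 2 * X ^ (2 - ε / 4) := by rw [e1]; gcongr
    _ = 3 * X ^ (2 - ε / 4) := by ring
    _ ≤ X ^ 2 / R := by
      rw [le_div_iff₀ hR]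
      calc 3 * X ^ (2 - ε / 4) * R = X ^ (2 - ε / 4) * (3 * R) := by ring
        _ ≤ X ^ (2 - ε / 4) * X ^ (ε / 4) := by gcongr
        _ = X ^ 2 := by
          rw [hX2, ← Real.rpow_add hX0]
          congr 1
          ring

/-- the model on the minor arcs -/
lemma VV_vT2 (C : ℝ) (hC : 0 < C) (hT : ∀ (y q Q s : ℕ) (φ : ℕ → ℂ) (α : ℝ) (b : ℤ), 1 ≤ q →
      1 ≤ Q → Tw q φ → Q < s → IsCoprime b (s : ℤ) → |q * α - b / s| ≤ 1 / (2 * s * Q) →
      ‖∑ n ∈ Icc 1 y, TM q Q n * φ n * e (n * α)‖ ≤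
        C * ((q : ℝ) / q.totient) * Real.sqrt q * (s * (1 + Real.log Q) + (Q : ℝ) ^ 3))
    (x q Q s : ℕ) (V α : ℝ) (b : ℤ) (v : ℕ → ℝ) (hv : BVar x V v) (hV : 0 ≤ V)
    (hq : 1 ≤ q) (hQ : 1 ≤ Q) (hsQ : Q < s) (hbs : IsCoprime b (s : ℤ))
    (hα : |q * α - b / s| ≤ 1 / (2 * s * Q)) :
    VV q x (fun n => ((v n : ℝ) : ℂ) * TM q Q n) α ≤ (2 * V * (C * ((q : ℝ) / q.totient) *
      Real.sqrt q * (s * (1 + Real.log Q) + (Q : ℝ) ^ 3))) ^ 2 := by
  have hlQ : 0 ≤ Real.log Q := Real.log_natCast_nonneg Q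
  refine VV_le q x hq _ (fun n hn => ?_) α _ (by positivity) ?_
  · show ((v n : ℝ) : ℂ) * TM q Q n = 0
    unfold TM
    rw [if_neg hn, mul_zero]
  intro φ hφ
  have h1 : ∑ n ∈ Icc 1 x, (((v n : ℝ) : ℂ) * TM q Q n) * φ n * e (n * α) =
      ∑ n ∈ Icc 1 x, ((v n : ℝ) : ℂ) * (TM q Q n * φ n * e (n * α)) :=
    sum_congr rfl fun n _ => by ring
  rw [h1]
  refine SupFaux.abel x v V hv _ _ (by positivity) fun y' hy' => ?_
  exact hT y' q Q s φ α b hq hQ hφ hsQ hbs hα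

/-- arithmetic of the model on the minor arcs -/
lemma T_arith (B'' B₁ : ℕ) (C V X L q ρ s Q lQ : ℝ) (hC : 0 < C) (hV : 0 < V)
    (hL : 1000 ≤ L) (hLC : 2 ^ 17 * (C * V) ^ 2 ≤ L) (hX : 1 ≤ X) (hq : 1 ≤ q)
    (hρ0 : 0 ≤ ρ) (hρ : ρ ≤ 4 * L) (hs0 : 0 ≤ s) (hs : q * s ≤ X / L ^ B₁) (hQ0 : 0 ≤ Q)
    (hQ : Q ≤ 2 * L ^ B₁) (hl0 : 0 ≤ lQ) (hl : lQ ≤ L) (hB : B'' + 5 ≤ B₁)
    (hqX : q ^ 2 * (L ^ (6 * B₁) * L ^ (2 * B₁)) ≤ X ^ 2) :
    (2 * V * (C * ρ * Real.sqrt q * (s * (1 + lQ) + Q ^ 3))) ^ 2 ≤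
      1 / 4 * (X ^ 2 / (q * L ^ B'')) := by
  have hL0 : 0 < L := by linarith
  have hL1 : 1 ≤ L := by linarith
  have hX0 : 0 < X := by linarith
  have hq0 : 0 < q := by linarith
  have hsq : Real.sqrt q ^ 2 = q := Real.sq_sqrt hq0.le
  have h1 : s * (1 + lQ) ≤ 2 * L * s := by nlinarith
  have h2 : Q ^ 3 ≤ 8 * L ^ (3 * B₁) := by
    calc Q ^ 3 ≤ (2 * L ^ B₁) ^ 3 := by gcongr
      _ = 8 * L ^ (3 * B₁) := by rw [mul_pow, ← pow_mul, mul_comm B₁ 3]; norm_num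
  have h3 : (s * (1 + lQ) + Q ^ 3) ^ 2 ≤ 2 * (2 * L * s) ^ 2 + 2 * (8 * L ^ (3 * B₁)) ^ 2 := by
    have h4 : s * (1 + lQ) + Q ^ 3 ≤ 2 * L * s + 8 * L ^ (3 * B₁) := by linarith
    have h5 : 0 ≤ s * (1 + lQ) + Q ^ 3 := by positivity
    calc (s * (1 + lQ) + Q ^ 3) ^ 2 ≤ (2 * L * s + 8 * L ^ (3 * B₁)) ^ 2 :=
          pow_le_pow_left₀ h5 h4 2
      _ ≤ _ := by nlinarith [sq_nonneg (2 * L * s - 8 * L ^ (3 * B₁))]
  -- the two terms
  have h6 : q * (q * s ^ 2) ≤ X ^ 2 / L ^ (2 * B₁) := by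
    calc q * (q * s ^ 2) = (q * s) ^ 2 := by ring
      _ ≤ (X / L ^ B₁) ^ 2 := by gcongr
      _ = X ^ 2 / L ^ (2 * B₁) := by rw [div_pow, ← pow_mul, mul_comm B₁ 2]
  have h7 : q * (q * L ^ (6 * B₁)) ≤ X ^ 2 / L ^ (2 * B₁) := by
    rw [le_div_iff₀ (by positivity)]
    calc q * (q * L ^ (6 * B₁)) * L ^ (2 * B₁) = q ^ 2 * (L ^ (6 * B₁) * L ^ (2 * B₁)) := by ring
      _ ≤ X ^ 2 := hqX
  rw [show X ^ 2 / (q * L ^ B'') = X ^ 2 / L ^ B'' / q by field_simp, ← mul_div_assoc,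
    le_div_iff₀ hq0]
  have e6 : (L ^ (3 * B₁)) ^ 2 = L ^ (6 * B₁) := by rw [← pow_mul]; congr 1; ring
  calc (2 * V * (C * ρ * Real.sqrt q * (s * (1 + lQ) + Q ^ 3))) ^ 2 * q
      = 4 * (C * V) ^ 2 * ρ ^ 2 * (q * (Real.sqrt q ^ 2 * (s * (1 + lQ) + Q ^ 3) ^ 2)) := by ring
    _ = 4 * (C * V) ^ 2 * ρ ^ 2 * (q * (q * (s * (1 + lQ) + Q ^ 3) ^ 2)) := by rw [hsq]
    _ ≤ 4 * (C * V) ^ 2 * (4 * L) ^ 2 *
        (q * (q * (2 * (2 * L * s) ^ 2 + 2 * (8 * L ^ (3 * B₁)) ^ 2))) := by gcongr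
    _ = 64 * (C * V) ^ 2 * L ^ 2 *
        (8 * L ^ 2 * (q * (q * s ^ 2)) + 128 * (q * (q * (L ^ (3 * B₁)) ^ 2))) := by ring
    _ = 64 * (C * V) ^ 2 * L ^ 2 *
        (8 * L ^ 2 * (q * (q * s ^ 2)) + 128 * (q * (q * L ^ (6 * B₁)))) := by rw [e6]
    _ ≤ 64 * (C * V) ^ 2 * L ^ 2 *
        (8 * L ^ 2 * (X ^ 2 / L ^ (2 * B₁)) + 128 * (X ^ 2 / L ^ (2 * B₁))) := by gcongr
    _ ≤ 64 * (C * V) ^ 2 * L ^ 2 *
        (136 * L ^ 2 * (X ^ 2 / L ^ (2 * B₁))) := by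
        have h8 : 0 ≤ X ^ 2 / L ^ (2 * B₁) := by positivity
        have h9 : 1 ≤ L ^ 2 := one_le_pow₀ hL1
        have h10 : X ^ 2 / L ^ (2 * B₁) ≤ L ^ 2 * (X ^ 2 / L ^ (2 * B₁)) :=
          le_mul_of_one_le_left h8 h9
        refine mul_le_mul_of_nonneg_left ?_ (by positivity)
        linarith
    _ = 8704 * (C * V) ^ 2 * (L ^ 4 * (X ^ 2 / L ^ (2 * B₁))) := by ring
    _ ≤ 1 / 4 * L * (L ^ 4 * (X ^ 2 / L ^ (2 * B₁))) := by
        refine mul_le_mul_of_nonneg_right ?_ (by positivity)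
        norm_num at hLC
        linarith [sq_nonneg (C * V)]
    _ = 1 / 4 * (X ^ 2 * (L ^ 5 / L ^ (2 * B₁))) := by ring
    _ ≤ 1 / 4 * (X ^ 2 * (1 / L ^ B'')) := by
        have : L ^ 5 / L ^ (2 * B₁) ≤ 1 / L ^ B'' := by
          rw [div_le_div_iff₀ (by positivity) (by positivity), one_mul, ← pow_add]
          exact pow_le_pow_right₀ hL1 (by omega)
        gcongr
    _ = 1 / 4 * (X ^ 2 / L ^ B'') := by ring

end SupNaux

end Pool.Agent.HN
end

section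
/-! # Module SwF: Siegel-Walfisz for the family `AJ`, and all characters mod `q s`

`prime_sum_char`: `∑_{p ≤ u} χ(p)` from `psiC` by Abel summation (prime powers `≤ 2 √u log u`); for `u ≥ y0 x`: `log u ≥ √(log x)`, so
`siegel_walfisz (2 A') (2 A₁)` gives `≤ C u/(log x)^A'`; for `u < y0 x`... only used as upper limits `≥ y0 x` (trivial bound `u` below, the
intervals start at `≥ y0 x`: write the sum over `(a, b]` as a difference, `a ≥ y0 x - 1`).
`swF`: `AJ y z w η j c ≠ 0`: write `c = c' P`, `P` = largest prime factor. For fixed `c'` the conditions on `P` are: `P` prime, `P ∤ c'`,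
`P >` all primes of `c'`, `y ≤ P < z`, `c' P ≤ u`, `w ≤ c' P`, and (`c' = 1`: `P` in cell `j`; `c' > 1`: `minFac c'` in cell `j` and
`c' P / minFac c' < w`): an interval. So `‖∑‖ ≤ ∑_{c' ≤ u/y0} 2 C (u/c') /(log x)^A' ≤ u/(log x)^B`.
`goodF_all`: for `χ ≠ 1` mod `k = q s`: `χ* = χ.primitiveCharacter` of conductor `r > 1`, `r ∣ k`; `r ≤ L^A₁`: `swF`; `r > L^A₁`: `GoodF`; and
`|∑ A (χ - χ*)| ≤ #{c ≤ u : ∃ p ∣ (c, k), p ≥ y0}  ≤ ∑_{p ∣ k, p ≥ y0} u/p ≤ 2 log x u/y0`. -/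

namespace Pool.Agent.HS

open Finset Pool.Agent.BV Pool.Agent.HL

theorem swF (θ κ : ℝ) (hθ : 1 / 2 ≤ θ) (hθ1 : θ < 1) (hκ : 0 < κ) (hκ1 : κ ≤ 1 / 8) (B' A₁ B : ℕ) :
    ∃ x₁ : ℕ, ∀ x : ℕ, x₁ ≤ x → ∀ r : ℕ, 1 < r → (r : ℝ) ≤ (Real.log x) ^ A₁ → ∀ χ ∈ prim r,
    ∀ j u : ℕ, wk κ x ≤ u → u ≤ wk κ x * zx θ x →
    ‖∑ c ∈ Icc 1 u, ((AJ (y0 x) (zx θ x) (wk κ x) (1 / (Real.log x) ^ B') j c : ℝ) : ℂ) *
      χ (c : ZMod r)‖ ≤ (u : ℝ) / (Real.log x) ^ B :=
  swF_main θ κ hθ hθ1 hκ hκ1 B' A₁ B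

theorem goodF_all (θ κ : ℝ) (hθ : 1 / 2 ≤ θ) (hθ1 : θ < 1) (hκ : 0 < κ) (hκ1 : κ ≤ 1 / 8)
    (B' A₁ B₁ B9 : ℕ) :
    ∃ x₁ : ℕ, ∀ x : ℕ, x₁ ≤ x → ∀ q : ℕ, 1 ≤ q → (q : ℝ) * (Real.log x) ^ B₁ ≤ x →
    GoodF x (wk κ x) (wk κ x * zx θ x) (JJ x B') B9
      (AJ (y0 x) (zx θ x) (wk κ x) (1 / (Real.log x) ^ B')) ((Real.log x) ^ A₁)
      ((Real.log x) ^ B₁) q →
    ∀ s : ℕ, 1 ≤ s → (s : ℝ) ≤ (Real.log x) ^ B₁ → ∀ [NeZero (q * s)],
    ∀ χ : DirichletCharacter ℂ (q * s), χ ≠ 1 → ∀ j < JJ x B', ∀ u : ℕ, wk κ x ≤ u →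
    u ≤ wk κ x * zx θ x →
    ‖∑ c ∈ Icc 1 u, ((AJ (y0 x) (zx θ x) (wk κ x) (1 / (Real.log x) ^ B') j c : ℝ) : ℂ) *
      χ (c : ZMod (q * s))‖ ≤ u * (2 / (Real.log x) ^ B9) := by
  exact goodF_all_of θ κ B' A₁ B₁ B9 (swF θ κ hθ hθ1 hκ hκ1 B' A₁ B9)

end Pool.Agent.HS
end

section
/-! # Module Bset: the exceptional moduli

`B = { r / g : 1 ≤ r ≤ √x, (log x)^(A+B₁+1) < r, some χ ∈ prim r is bad (BadC), g ∣ r, 1 ≤ g ≤ (log x)^B₁ }`.
Cardinality: for every grid point `u = gr η i ∈ [x^(ε/8), x]` apply `badcount` with `J = ⌈8/ε⌉₊` (then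
`u^J ≥ x ≥ R²`, `R = ⌊√x⌋₊`); number of `i` with `gr η i ≤ x`: `(1+η)^i < x + 1`, and
`log (1+η) ≥ η/2`, so `i ≤ 4 (log x)^(B₈+1)`; times `(log x)^B₁` values `g`.
Elements: `r/g > (log x)^(A+B₁+1)/(log x)^B₁ > (log x)^A`.
Good: let `r ∣ q s`, `s ≤ (log x)^B₁`, `r > (log x)^(A+B₁+1)`, `χ ∈ prim r` bad. Then
`r ≤ q s ≤ x^(1/2-ε) (log x)^B₁ ≤ √x`, and `g = gcd r s ≤ s` satisfies `r / g ∣ q` (coprime to `s / g`),
and `r / g ∈ B`, contradiction. -/

namespace Pool.Agent.HL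

open Finset Pool.Agent.BV

/-- `(log x) ^ B ≤ x ^ ε` for large `x` -/
lemma bset_log (B : ℕ) (ε : ℝ) (hε : 0 < ε) : ∃ x₀ : ℕ, ∀ x : ℕ, x₀ ≤ x →
    (Real.log x) ^ B ≤ (x : ℝ) ^ ε := by
  have h := (isLittleO_log_rpow_rpow_atTop (B : ℝ) hε).bound (show (0 : ℝ) < 1 by norm_num)
  have h2 := (tendsto_natCast_atTop_atTop (R := ℝ)).eventually h
  obtain ⟨x₀, hx₀⟩ := Filter.eventually_atTop.1 h2
  refine ⟨max x₀ 1, fun x hx => ?_⟩
  have h3 := hx₀ x (le_trans (le_max_left _ _) hx)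
  have hx1 : (1 : ℝ) ≤ x := by exact_mod_cast le_trans (le_max_right _ _) hx
  rw [Real.rpow_natCast, one_mul, Real.norm_of_nonneg (by have := Real.log_nonneg hx1; positivity),
    Real.norm_of_nonneg (by positivity)] at h3
  exact h3

lemma bset_log_large (K : ℝ) : ∃ x₀ : ℕ, ∀ x : ℕ, x₀ ≤ x → K ≤ Real.log x := by
  have h := (Real.tendsto_log_atTop.comp (tendsto_natCast_atTop_atTop (R := ℝ))).eventually
    (Filter.eventually_ge_atTop K)
  obtain ⟨x₀, hx₀⟩ := Filter.eventually_atTop.1 h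
  exact ⟨x₀, fun x hx => hx₀ x hx⟩

end Pool.Agent.HL
end

section
/-! # Module BadF: counting the bad characters of a family, and the exceptional set

As HL/BadCount, for arbitrary coefficients `|f| ≤ 1`: the `J'`-th power of `∑_{c ≤ v} f(c) χ(c)` has coefficients `≤ τ_{J'}(n) ≤ τ(n)^J'` on
`n ≤ v^J'`; large sieve, `tau_sum (2 J')`. Bad at `u`: take the grid point `v ≤ u` (`η = 1/(4 L^(B9+1))`, `exists_gr`, `gr_succ_le`):
the sum up to `v` is `≥ v/(2 L^B9)`; but `v` may be `< w₁` by one cell: use `v ≥ w₁/2` (`R² ≤ (w₁/2)^J'`, so take `J'` one larger).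
`bsetF`: as `bset_gen` (HL/Bset2); `w₁ ≥ x^κ`, so `J' ≥ 2θ/κ + 1`. -/

namespace Pool.Agent.HS

open Finset Pool.Agent.BV Pool.Agent.HL

namespace BadFaux

noncomputable section

/-- coefficients of the `J`-th power of the sum of `f(n)` over `n ≤ v` -/
def pcf (f : ℕ → ℝ) (v : ℕ) : ℕ → ℕ → ℝ
  | 0 => fun n => if n = 1 then 1 else 0
  | J + 1 => fun n => ∑ p ∈ n.divisorsAntidiagonal, (if p.1 ≤ v then f p.1 else 0) * pcf f v J p.2

lemma pcf_succ (f : ℕ → ℝ) (v J n : ℕ) : pcf f v (J + 1) n =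
    ∑ p ∈ n.divisorsAntidiagonal, (if p.1 ≤ v then f p.1 else 0) * pcf f v J p.2 := rfl

lemma pcf_abs {f : ℕ → ℝ} (hf : ∀ n, |f n| ≤ 1) (v J n : ℕ) (hn : 1 ≤ n) :
    |pcf f v J n| ≤ (n.divisors.card : ℝ) ^ J := by
  induction J generalizing n with
  | zero => unfold pcf; split_ifs <;> simp
  | succ J ih =>
    rw [pcf_succ]
    calc |∑ p ∈ n.divisorsAntidiagonal, (if p.1 ≤ v then f p.1 else 0) * pcf f v J p.2|
        ≤ ∑ p ∈ n.divisorsAntidiagonal, |(if p.1 ≤ v then f p.1 else 0) * pcf f v J p.2| :=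
          abs_sum_le_sum_abs _ _
      _ ≤ ∑ p ∈ n.divisorsAntidiagonal, (n.divisors.card : ℝ) ^ J := by
          refine sum_le_sum fun p hp => ?_
          rw [Nat.mem_divisorsAntidiagonal] at hp
          have hp2 : 1 ≤ p.2 := Nat.pos_of_ne_zero (by
            rintro h; rw [h, mul_zero] at hp; omega)
          have h1 : |pcf f v J p.2| ≤ (n.divisors.card : ℝ) ^ J := by
            refine (ih _ hp2).trans (pow_le_pow_left₀ (by positivity) ?_ _)
            have : p.2.divisors ⊆ n.divisors :=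
              Nat.divisors_subset_of_dvd hp.2 (Dvd.intro_left _ hp.1)
            exact_mod_cast card_le_card this
          have h2 : |(if p.1 ≤ v then f p.1 else 0 : ℝ)| ≤ 1 := by
            split_ifs
            · exact hf _
            · simp
          rw [abs_mul]
          calc |(if p.1 ≤ v then f p.1 else 0 : ℝ)| * |pcf f v J p.2|
              ≤ 1 * (n.divisors.card : ℝ) ^ J :=
                mul_le_mul h2 h1 (abs_nonneg _) zero_le_one
            _ = _ := one_mul _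
      _ = (n.divisors.card : ℝ) ^ (J + 1) := by
          rw [sum_const, nsmul_eq_mul, pow_succ, mul_comm]
          congr 2
          rw [← Nat.map_div_right_divisors, card_map]

lemma pcf_zero_of_lt (f : ℕ → ℝ) {v : ℕ} (J n : ℕ) (hn : v ^ J < n) : pcf f v J n = 0 := by
  induction J generalizing n with
  | zero => unfold pcf; rw [if_neg]; simpa using (by simpa using hn : 1 < n).ne'
  | succ J ih =>
    rw [pcf_succ]
    refine sum_eq_zero fun p hp => ?_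
    rw [Nat.mem_divisorsAntidiagonal] at hp
    by_cases h : p.1 ≤ v
    · rw [ih, mul_zero]
      by_contra h2
      push Not at h2
      have : p.1 * p.2 ≤ v ^ (J + 1) := by
        rw [pow_succ, mul_comm (v ^ J)]
        exact Nat.mul_le_mul h h2
      omega
    · rw [if_neg h, zero_mul]

/-- product formula for a completely multiplicative weight -/
lemma pcf_sum (f : ℕ → ℝ) {v : ℕ} (w : ℕ → ℂ) (h1 : w 1 = 1)
    (hw : ∀ a b, w (a * b) = w a * w b) (J : ℕ) :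
    ∑ n ∈ Icc 1 (v ^ J), (pcf f v J n : ℂ) * w n = (∑ n ∈ Icc 1 v, ((f n : ℝ) : ℂ) * w n) ^ J := by
  induction J with
  | zero => simp [pcf, h1]
  | succ J ih =>
    have e1 : ∑ n ∈ Icc 1 (v ^ (J + 1)), (pcf f v (J + 1) n : ℂ) * w n =
        ∑ n ∈ Icc 1 (v ^ (J + 1)), ∑ p ∈ n.divisorsAntidiagonal,
          (((if p.1 ≤ v then f p.1 else 0 : ℝ) : ℂ) * w p.1) * ((pcf f v J p.2 : ℂ) * w p.2) := by
      refine sum_congr rfl fun n _ => ?_
      rw [pcf_succ]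
      rw [Complex.ofReal_sum, sum_mul]
      refine sum_congr rfl fun p hp => ?_
      rw [Nat.mem_divisorsAntidiagonal] at hp
      rw [← hp.1, hw, Complex.ofReal_mul]
      ring
    rw [e1, vaughan_sum_conv (fun a => ((if a ≤ v then f a else 0 : ℝ) : ℂ) * w a)
      (fun b => (pcf f v J b : ℂ) * w b)]
    have e2 : ∀ a ∈ Icc 1 (v ^ (J + 1)), ∑ b ∈ Icc 1 (v ^ (J + 1) / a),
        (((if a ≤ v then f a else 0 : ℝ) : ℂ) * w a) * ((pcf f v J b : ℂ) * w b) =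
        (if a ≤ v then ((f a : ℝ) : ℂ) * w a else 0) *
          ∑ b ∈ Icc 1 (v ^ J), (pcf f v J b : ℂ) * w b := by
      intro a ha
      rw [mem_Icc] at ha
      by_cases h : a ≤ v
      · rw [← mul_sum]
        simp only [h, if_true]
        congr 1
        symm
        refine sum_subset ?_ ?_
        · intro b hb
          rw [mem_Icc] at hb ⊢
          refine ⟨hb.1, hb.2.trans ?_⟩
          rw [Nat.le_div_iff_mul_le ha.1, pow_succ]
          exact Nat.mul_le_mul_left _ h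
        · intro b _ hb
          rw [mem_Icc] at hb
          by_cases hb0 : b = 0
          · subst hb0
            have : pcf f v J 0 = 0 := by
              cases J with
              | zero => simp [pcf]
              | succ J => simp [pcf]
            simp [this]
          · rw [pcf_zero_of_lt f J b (by omega)]
            simp
      · simp [h]
    rw [sum_congr rfl e2, ← sum_mul, ih, pow_succ, mul_comm, ← sum_filter]
    congr 1
    refine sum_congr ?_ fun _ _ => rfl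
    ext n
    simp only [mem_filter, mem_Icc]
    constructor
    · rintro ⟨⟨h1, -⟩, h2⟩; exact ⟨h1, h2⟩
    · rintro ⟨h1, h2⟩
      exact ⟨⟨h1, h2.trans (Nat.le_self_pow (Nat.succ_ne_zero J) v)⟩, h2⟩

/-- the sum of the coefficients against a character -/
def cS (f : ℕ → ℝ) {r : ℕ} (χ : DirichletCharacter ℂ r) (v : ℕ) : ℂ :=
  ∑ c ∈ Icc 1 v, ((f c : ℝ) : ℂ) * χ (c : ZMod r)

open Classical in
/-- **Few characters with a large sum at a given height.** -/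
theorem pcf_count (J : ℕ) (hJ : 1 ≤ J) : ∃ C : ℝ, 0 < C ∧ ∀ (x R v : ℕ) (f : ℕ → ℝ) (T : ℝ),
    (∀ n, |f n| ≤ 1) → 3 ≤ x → 1 ≤ v → v ≤ x → 1 ≤ R → (R : ℝ) ^ 2 ≤ (v : ℝ) ^ J → 0 < T →
    ∑ r ∈ Icc 1 R, (((prim r).filter (fun χ => (v : ℝ) / T < ‖cS f χ v‖)).card : ℝ) ≤
      C * (Real.log x) ^ (2 ^ (2 * J)) * T ^ (2 * J) := by
  obtain ⟨C, hC, hτ⟩ := Pool.Agent.HT.tau_sum (2 * J)
  refine ⟨40 * C * (J : ℝ) ^ (2 ^ (2 * J)), by positivity, ?_⟩
  intro x R v f T hf hx hv hvx hR hRv hT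
  have hvR : (0 : ℝ) < v := by exact_mod_cast (by omega : 0 < v)
  have key := large_sieve R hR 0 (v ^ J) (fun n => (pcf f v J n : ℂ))
  have e0 : Ioc 0 (0 + v ^ J) = Icc 1 (v ^ J) := by
    ext n; simp only [mem_Ioc, mem_Icc]; omega
  rw [e0] at key
  have h1 : ∀ q ∈ Icc 1 R, (((prim q).filter (fun χ => (v : ℝ) / T < ‖cS f χ v‖)).card : ℝ) *
      ((v : ℝ) / T) ^ (2 * J) ≤ (q : ℝ) / q.totient *
      ∑ χ ∈ prim q, ‖∑ n ∈ Icc 1 (v ^ J), (pcf f v J n : ℂ) * χ (n : ZMod q)‖ ^ 2 := by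
    intro q hq
    rw [mem_Icc] at hq
    have hφ : (0 : ℝ) < q.totient := by exact_mod_cast Nat.totient_pos.2 (by omega)
    have hq1 : (1 : ℝ) ≤ (q : ℝ) / q.totient := by
      rw [le_div_iff₀ hφ, one_mul]
      exact_mod_cast Nat.totient_le q
    have e1 : ∀ χ ∈ prim q, ‖∑ n ∈ Icc 1 (v ^ J), (pcf f v J n : ℂ) * χ (n : ZMod q)‖ ^ 2 =
        ‖cS f χ v‖ ^ (2 * J) := by
      intro χ _
      rw [pcf_sum f (fun n => χ (n : ZMod q)) (by simp) (fun a b => by push_cast; rw [map_mul]) J]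
      rw [norm_pow, ← pow_mul, mul_comm J 2]
      rfl
    rw [sum_congr rfl e1]
    calc (((prim q).filter (fun χ => (v : ℝ) / T < ‖cS f χ v‖)).card : ℝ) * ((v : ℝ) / T) ^ (2 * J)
        = ∑ χ ∈ (prim q).filter (fun χ => (v : ℝ) / T < ‖cS f χ v‖), ((v : ℝ) / T) ^ (2 * J) := by
          rw [sum_const, nsmul_eq_mul]
      _ ≤ ∑ χ ∈ (prim q).filter (fun χ => (v : ℝ) / T < ‖cS f χ v‖), ‖cS f χ v‖ ^ (2 * J) := by
          refine sum_le_sum fun χ hχ => pow_le_pow_left₀ (by positivity) ?_ _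
          exact (mem_filter.1 hχ).2.le
      _ ≤ ∑ χ ∈ prim q, ‖cS f χ v‖ ^ (2 * J) :=
          sum_le_sum_of_subset_of_nonneg (filter_subset _ _) fun _ _ _ => by positivity
      _ ≤ (q : ℝ) / q.totient * ∑ χ ∈ prim q, ‖cS f χ v‖ ^ (2 * J) :=
          le_mul_of_one_le_left (sum_nonneg fun _ _ => by positivity) hq1
  have h2 := (sum_le_sum h1).trans key
  rw [← sum_mul] at h2
  have hx1 : 1 ≤ x := by omega
  have h3 : ∑ n ∈ Icc 1 (v ^ J), ‖(pcf f v J n : ℂ)‖ ^ 2 ≤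
      C * (v : ℝ) ^ J * ((J : ℝ) * Real.log x) ^ (2 ^ (2 * J)) := by
    have e : ∀ n ∈ Icc 1 (v ^ J), ‖(pcf f v J n : ℂ)‖ ^ 2 ≤ (n.divisors.card : ℝ) ^ (2 * J) := by
      intro n hn
      rw [mem_Icc] at hn
      rw [Complex.norm_real, Real.norm_eq_abs, mul_comm 2 J, pow_mul]
      exact pow_le_pow_left₀ (abs_nonneg _) (pcf_abs hf v J n hn.1) 2
    refine (sum_le_sum e).trans ?_
    have h4 := hτ (x ^ J) (v ^ J) (le_trans hx (Nat.le_self_pow (by omega) x))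
      (Nat.pow_le_pow_left hvx J)
    push_cast at h4
    rw [Real.log_pow] at h4
    exact h4
  have h4 : (20 : ℝ) * (((v ^ J : ℕ) : ℝ) + (R : ℝ) ^ 2) ≤ 40 * (v : ℝ) ^ J := by
    push_cast
    linarith
  have h5 : (∑ q ∈ Icc 1 R, (((prim q).filter (fun χ => (v : ℝ) / T < ‖cS f χ v‖)).card : ℝ)) *
      ((v : ℝ) / T) ^ (2 * J) ≤
      40 * (v : ℝ) ^ J * (C * (v : ℝ) ^ J * ((J : ℝ) * Real.log x) ^ (2 ^ (2 * J))) := by
    refine h2.trans (mul_le_mul h4 h3 (sum_nonneg fun _ _ => by positivity) (by positivity))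
  have h6 : (0 : ℝ) < ((v : ℝ) / T) ^ (2 * J) := by positivity
  rw [← le_div_iff₀ h6] at h5
  refine h5.trans (le_of_eq ?_)
  rw [div_pow, mul_pow]
  have : (v : ℝ) ^ (2 * J) = (v : ℝ) ^ J * (v : ℝ) ^ J := by rw [← pow_add]; congr 1; ring
  rw [this]
  field_simp

/-- from a bad height to a bad grid point -/
lemma to_grid {L η : ℝ} (B9 : ℕ) (hL : 2 ≤ L) (hη : η = 1 / (4 * L ^ (B9 + 1))) {w₁ u : ℕ}
    (hw : L ^ (B9 + 3) ≤ w₁) (hu : w₁ ≤ u) {f : ℕ → ℝ} (hf : ∀ n, |f n| ≤ 1) {r : ℕ}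
    (χ : DirichletCharacter ℂ r) (hb : (u : ℝ) / L ^ B9 < ‖cS f χ u‖) :
    ∃ i : ℕ, gr η i ≤ u ∧ (w₁ : ℝ) / 2 ≤ gr η i ∧
      (gr η i : ℝ) / (2 * L ^ B9) < ‖cS f χ (gr η i)‖ := by
  have hL0 : 0 < L := by linarith
  have hLB : 1 ≤ L ^ (B9 + 1) := one_le_pow₀ (by linarith)
  have hLB9 : 1 ≤ L ^ B9 := one_le_pow₀ (by linarith)
  have hη0 : 0 < η := by rw [hη]; positivity
  have hη4 : η ≤ 1 / 4 := by
    rw [hη]
    exact div_le_div_of_nonneg_left (by norm_num) (by norm_num) (by linarith)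
  have h8 : 8 * L ^ B9 ≤ w₁ := by
    refine le_trans ?_ hw
    rw [pow_add]
    have : (8 : ℝ) ≤ L ^ 3 := by
      have := pow_le_pow_left₀ (by norm_num : (0 : ℝ) ≤ 2) hL 3
      norm_num at this
      exact this
    nlinarith
  have hu' : (w₁ : ℝ) ≤ u := by exact_mod_cast hu
  have hu8 : 8 * L ^ B9 ≤ u := h8.trans hu'
  have hu1 : 1 ≤ u := by
    have : (0 : ℝ) < u := by linarith
    exact_mod_cast this
  classical
  have hex : ∃ i, u < gr η i := by
    obtain ⟨i, hi⟩ := MassA.exists_gr hη0 ((u : ℝ) + 1)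
    exact ⟨i, by
      have : (u : ℝ) < gr η i := by linarith
      exact_mod_cast this⟩
  set i' := Nat.find hex with hi'
  have hspec : u < gr η i' := Nat.find_spec hex
  have hi0 : i' ≠ 0 := by
    intro h
    rw [h, MassA.gr_zero] at hspec
    omega
  obtain ⟨i, hi⟩ := Nat.exists_eq_succ_of_ne_zero hi0
  have hle : gr η i ≤ u := by
    have := Nat.find_min hex (m := i) (by omega)
    exact not_lt.1 this
  have hlt : (u : ℝ) < (1 + η) * (gr η i + 1) := by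
    have h1 : (u : ℝ) < gr η (i + 1) := by
      rw [hi] at hspec
      exact_mod_cast hspec
    exact h1.trans_le (MassA.gr_succ_le hη0.le i)
  set v := gr η i with hv
  have hvu : (v : ℝ) ≤ u := by exact_mod_cast hle
  refine ⟨i, hle, ?_, ?_⟩
  · nlinarith
  · have hdiff : ‖cS f χ u - cS f χ v‖ ≤ (u : ℝ) - v := by
      have e1 : cS f χ u - cS f χ v = ∑ c ∈ Ioc v u, ((f c : ℝ) : ℂ) * χ (c : ZMod r) := by
        unfold cS
        have e2 : Icc 1 u = Icc 1 v ∪ Ioc v u := by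
          ext n; simp only [mem_union, mem_Icc, mem_Ioc]; omega
        have e3 : Disjoint (Icc 1 v) (Ioc v u) := by
          rw [Finset.disjoint_left]
          intro n h1 h2
          rw [mem_Icc] at h1
          rw [mem_Ioc] at h2
          omega
        rw [e2, sum_union e3]
        ring
      rw [e1]
      calc ‖∑ c ∈ Ioc v u, ((f c : ℝ) : ℂ) * χ (c : ZMod r)‖
          ≤ ∑ c ∈ Ioc v u, ‖((f c : ℝ) : ℂ) * χ (c : ZMod r)‖ := norm_sum_le _ _
        _ ≤ ∑ c ∈ Ioc v u, (1 : ℝ) := by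
            refine sum_le_sum fun c _ => ?_
            rw [norm_mul, Complex.norm_real, Real.norm_eq_abs]
            calc |f c| * ‖χ (c : ZMod r)‖ ≤ 1 * 1 :=
                  mul_le_mul (hf c) (DirichletCharacter.norm_le_one χ _) (norm_nonneg _) zero_le_one
              _ = 1 := one_mul 1
        _ = (u : ℝ) - v := by
            rw [sum_const, Nat.card_Ioc, nsmul_eq_mul, mul_one, Nat.cast_sub hle]
    have h1 : ‖cS f χ u‖ - ‖cS f χ v‖ ≤ (u : ℝ) - v := (norm_sub_norm_le _ _).trans hdiff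
    have h2 : (u : ℝ) - v ≤ η * u + 2 := by nlinarith
    have h3 : η * u ≤ u / (8 * L ^ B9) := by
      rw [hη, div_mul_eq_mul_div, one_mul]
      refine div_le_div_of_nonneg_left (by positivity) (by positivity) ?_
      rw [pow_succ]
      nlinarith
    have h4 : (2 : ℝ) ≤ u / (4 * L ^ B9) := by
      rw [le_div_iff₀ (by positivity)]
      linarith
    have h5 : (v : ℝ) / (2 * L ^ B9) ≤ u / (2 * L ^ B9) :=
      div_le_div_of_nonneg_right hvu (by positivity)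
    have e5 : (u : ℝ) / (8 * L ^ B9) = (u / L ^ B9) / 8 := by field_simp
    have e6 : (u : ℝ) / (4 * L ^ B9) = (u / L ^ B9) / 4 := by field_simp
    have e7 : (u : ℝ) / (2 * L ^ B9) = (u / L ^ B9) / 2 := by field_simp
    rw [e5] at h3
    rw [e6] at h4
    rw [e7] at h5
    have h6 : 0 < (u : ℝ) / L ^ B9 := by
      have : (0 : ℝ) < u := by exact_mod_cast hu1
      positivity
    linarith

end

end BadFaux

open BadFaux

open Classical in
theorem badF_count (J' c₁ B9 : ℕ) (hJ : 1 ≤ J') : ∃ C x₁ : ℕ, ∀ x : ℕ, x₁ ≤ x →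
    ∀ (w₁ w₂ J R : ℕ) (A : ℕ → ℕ → ℝ), (∀ j c, |A j c| ≤ 1) → w₂ ≤ x → (J : ℝ) ≤ (Real.log x) ^ c₁ →
    (Real.log x) ^ (B9 + 3) ≤ w₁ → 1 ≤ R → (R : ℝ) ^ 2 ≤ ((w₁ : ℝ) / 2) ^ J' →
    ∑ r ∈ Icc 1 R, (((prim r).filter (fun χ => BadF x w₁ w₂ J B9 A χ)).card : ℝ) ≤
      (Real.log x) ^ C := by
  obtain ⟨C₀, hC₀, hcount⟩ := pcf_count J' hJ
  obtain ⟨x₂, hx₂⟩ := bset_log_large (max 2 (17 * C₀ * 2 ^ (2 * J')))
  refine ⟨c₁ + (B9 + 2) + 2 ^ (2 * J') + B9 * (2 * J') + 1, max 3 x₂, ?_⟩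
  intro x hx w₁ w₂ J R A hA hw₂ hJc hw₁ hR hRw
  have hx3 : 3 ≤ x := le_trans (le_max_left _ _) hx
  have hL := hx₂ x (le_trans (le_max_right _ _) hx)
  have hL2 : 2 ≤ Real.log x := le_trans (le_max_left _ _) hL
  have hLK : 17 * C₀ * 2 ^ (2 * J') ≤ Real.log x := le_trans (le_max_right _ _) hL
  have hx3R : (3 : ℝ) ≤ x := by exact_mod_cast hx3
  set L := Real.log x with hLdef
  have hL0 : 0 < L := by linarith
  have hL1 : 1 ≤ L := by linarith
  set η : ℝ := 1 / (4 * L ^ (B9 + 1)) with hη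
  have hη0 : 0 < η := by positivity
  have hLB : 1 ≤ L ^ (B9 + 1) := one_le_pow₀ hL1
  have hη1 : η ≤ 1 := by
    rw [hη, div_le_one (by positivity)]
    linarith
  set N : ℕ := ⌊16 * L ^ (B9 + 2)⌋₊ with hN
  set I : Finset ℕ := (range (N + 1)).filter
    (fun i => (w₁ : ℝ) / 2 ≤ gr η i ∧ (gr η i : ℝ) ≤ x) with hI
  have hIcard : (I.card : ℝ) ≤ 17 * L ^ (B9 + 2) := by
    have h1 : (I.card : ℝ) ≤ N + 1 := by
      have : I.card ≤ N + 1 := (card_filter_le _ _).trans (by rw [card_range])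
      exact_mod_cast this
    have h2 : (N : ℝ) ≤ 16 * L ^ (B9 + 2) := Nat.floor_le (by positivity)
    have h3 : 1 ≤ L ^ (B9 + 2) := one_le_pow₀ hL1
    linarith
  have hmain : ∀ r ∈ Icc 1 R, (((prim r).filter (fun χ => BadF x w₁ w₂ J B9 A χ)).card : ℝ) ≤
      ∑ j ∈ range J, ∑ i ∈ I, (((prim r).filter (fun χ => (gr η i : ℝ) / (2 * L ^ B9) <
        ‖cS (A j) χ (gr η i)‖)).card : ℝ) := by
    intro r _
    have hsub : (prim r).filter (fun χ => BadF x w₁ w₂ J B9 A χ) ⊆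
        (range J).biUnion (fun j => I.biUnion (fun i => (prim r).filter
          (fun χ => (gr η i : ℝ) / (2 * L ^ B9) < ‖cS (A j) χ (gr η i)‖))) := by
      intro χ hχ
      rw [mem_filter] at hχ
      obtain ⟨hχp, j, hj, u, hu1, hu2, hu3⟩ := hχ
      obtain ⟨i, hi1, hi2, hi3⟩ := to_grid B9 hL2 hη hw₁ hu1 (hA j) χ hu3
      have hix : (gr η i : ℝ) ≤ x := by exact_mod_cast hi1.trans (hu2.trans hw₂)
      rw [mem_biUnion]
      refine ⟨j, mem_range.2 hj, ?_⟩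
      rw [mem_biUnion]
      refine ⟨i, ?_, mem_filter.2 ⟨hχp, hi3⟩⟩
      rw [hI, mem_filter, mem_range]
      refine ⟨?_, hi2, hix⟩
      refine Nat.lt_succ_of_le (Nat.le_floor ?_)
      have := MassA.gr_count hη0 hη1 (by linarith : (2 : ℝ) ≤ x) hix
      refine this.trans (le_of_eq ?_)
      rw [hη, ← hLdef]
      field_simp
      ring
    have h2 := (card_le_card hsub).trans (card_biUnion_le.trans
      (sum_le_sum fun j _ => card_biUnion_le))
    exact_mod_cast h2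
  refine (sum_le_sum hmain).trans ?_
  rw [sum_comm]
  have hj : ∀ j ∈ range J, ∑ r ∈ Icc 1 R, ∑ i ∈ I, (((prim r).filter (fun χ =>
      (gr η i : ℝ) / (2 * L ^ B9) < ‖cS (A j) χ (gr η i)‖)).card : ℝ) ≤
      17 * L ^ (B9 + 2) * (C₀ * L ^ (2 ^ (2 * J')) * (2 * L ^ B9) ^ (2 * J')) := by
    intro j _
    rw [sum_comm]
    have hi : ∀ i ∈ I, ∑ r ∈ Icc 1 R, (((prim r).filter (fun χ =>
        (gr η i : ℝ) / (2 * L ^ B9) < ‖cS (A j) χ (gr η i)‖)).card : ℝ) ≤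
        C₀ * L ^ (2 ^ (2 * J')) * (2 * L ^ B9) ^ (2 * J') := by
      intro i hi
      rw [hI, mem_filter] at hi
      refine hcount x R (gr η i) (A j) (2 * L ^ B9) (hA j) hx3 (MassA.one_le_gr hη0.le i)
        (by exact_mod_cast hi.2.2) hR ?_ (by positivity)
      exact hRw.trans (pow_le_pow_left₀ (by positivity) hi.2.1 _)
    refine (sum_le_sum hi).trans ?_
    rw [sum_const, nsmul_eq_mul]
    exact mul_le_mul_of_nonneg_right hIcard (by positivity)
  refine (sum_le_sum hj).trans ?_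
  rw [sum_const, card_range, nsmul_eq_mul]
  calc (J : ℝ) * (17 * L ^ (B9 + 2) * (C₀ * L ^ (2 ^ (2 * J')) * (2 * L ^ B9) ^ (2 * J')))
      ≤ L ^ c₁ * (17 * L ^ (B9 + 2) * (C₀ * L ^ (2 ^ (2 * J')) * (2 * L ^ B9) ^ (2 * J'))) :=
        mul_le_mul_of_nonneg_right hJc (by positivity)
    _ = (17 * C₀ * 2 ^ (2 * J')) * L ^ (c₁ + (B9 + 2) + 2 ^ (2 * J') + B9 * (2 * J')) := by
        rw [mul_pow, ← pow_mul, pow_add, pow_add, pow_add]
        ring
    _ ≤ L * L ^ (c₁ + (B9 + 2) + 2 ^ (2 * J') + B9 * (2 * J')) :=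
        mul_le_mul_of_nonneg_right hLK (by positivity)
    _ = L ^ (c₁ + (B9 + 2) + 2 ^ (2 * J') + B9 * (2 * J') + 1) := by
        rw [pow_succ, mul_comm]

theorem bsetF (θ κ ε : ℝ) (hθ : 0 < θ) (hκ : 0 < κ) (hε : 0 < ε) (c₁ B₁ B9 : ℕ) : ∃ C : ℕ,
    ∀ A : ℕ, ∃ x₁ : ℕ, ∀ x : ℕ, x₁ ≤ x → ∀ (w₂ J : ℕ) (Af : ℕ → ℕ → ℝ), (∀ j c, |Af j c| ≤ 1) →
    w₂ ≤ x → (J : ℝ) ≤ (Real.log x) ^ c₁ →
    ∃ B : Finset ℕ, (B.card : ℝ) ≤ (Real.log x) ^ C ∧ (∀ b ∈ B, (Real.log x) ^ A < (b : ℝ)) ∧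
      ∀ q : ℕ, 1 ≤ q → (q : ℝ) ≤ (x : ℝ) ^ (θ - ε) → (∀ b ∈ B, ¬ b ∣ q) →
        GoodF x (wk κ x) w₂ J B9 Af ((Real.log x) ^ (A + B₁ + 1)) ((Real.log x) ^ B₁) q := by
  classical
  set J' : ℕ := ⌈2 * θ / κ⌉₊ + 1 with hJ'
  have hJ1 : 1 ≤ J' := by omega
  have hJκ : 2 * θ + κ ≤ κ * J' := by
    have h1 : 2 * θ / κ + 1 ≤ J' := by
      have h0 : 2 * θ / κ ≤ ⌈2 * θ / κ⌉₊ := Nat.le_ceil _
      rw [hJ']
      push_cast
      linarith
    have h2 : κ * (2 * θ / κ + 1) = 2 * θ + κ := by field_simp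
    rw [← h2]
    exact mul_le_mul_of_nonneg_left h1 hκ.le
  obtain ⟨C₀, x₀, hcount⟩ := badF_count J' c₁ B9 hJ1
  obtain ⟨x₁, hx₁⟩ := bset_log B₁ ε hε
  obtain ⟨x₂, hx₂⟩ := bset_log (B9 + 3) κ hκ
  obtain ⟨x₃, hx₃⟩ := bset_log J' κ hκ
  obtain ⟨x₄, hx₄⟩ := bset_log_large 2
  refine ⟨C₀ + B₁, fun A => ⟨max 3 (max x₀ (max x₁ (max x₂ (max x₃ x₄)))), ?_⟩⟩
  intro x hx w₂ J Af hAf hw₂ hJc
  simp only [max_le_iff] at hx
  obtain ⟨hx3, hx0', hx1', hx2', hx3', hx4'⟩ := hx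
  have hlogε := hx₁ x hx1'
  have hlogκ := hx₂ x hx2'
  have hlogJ := hx₃ x hx3'
  have hL2 := hx₄ x hx4'
  have hx3R : (3 : ℝ) ≤ x := by exact_mod_cast hx3
  have hx1R : (1 : ℝ) ≤ x := by linarith
  have hx0R : (0 : ℝ) < x := by linarith
  set L := Real.log x with hL
  have hL0 : 0 < L := by linarith
  have hlx : 1 ≤ L := by linarith
  set R : ℕ := ⌊(x : ℝ) ^ θ⌋₊ with hR
  have hR1 : 1 ≤ R := Nat.le_floor (by push_cast; exact Real.one_le_rpow hx1R hθ.le)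
  have hwk : (x : ℝ) ^ κ ≤ wk κ x := Nat.le_ceil _
  have hRw : (R : ℝ) ^ 2 ≤ ((wk κ x : ℝ) / 2) ^ J' := by
    have h1 : (R : ℝ) ≤ (x : ℝ) ^ θ := Nat.floor_le (by positivity)
    have h2 : (R : ℝ) ^ 2 ≤ (x : ℝ) ^ (2 * θ) := by
      calc (R : ℝ) ^ 2 ≤ ((x : ℝ) ^ θ) ^ 2 := pow_le_pow_left₀ (by positivity) h1 2
        _ = (x : ℝ) ^ (2 * θ) := by
            rw [← Real.rpow_natCast, ← Real.rpow_mul hx0R.le]
            norm_num
            ring_nf
    have h3 : (2 : ℝ) ^ J' ≤ (x : ℝ) ^ κ :=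
      (pow_le_pow_left₀ (by norm_num) hL2 J').trans hlogJ
    have h4 : (x : ℝ) ^ (2 * θ) * 2 ^ J' ≤ ((x : ℝ) ^ κ) ^ J' := by
      calc (x : ℝ) ^ (2 * θ) * 2 ^ J' ≤ (x : ℝ) ^ (2 * θ) * (x : ℝ) ^ κ :=
            mul_le_mul_of_nonneg_left h3 (by positivity)
        _ = (x : ℝ) ^ (2 * θ + κ) := by rw [Real.rpow_add hx0R]
        _ ≤ (x : ℝ) ^ (κ * J') := Real.rpow_le_rpow_of_exponent_le hx1R hJκ
        _ = ((x : ℝ) ^ κ) ^ J' := by rw [Real.rpow_mul hx0R.le, Real.rpow_natCast]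
    calc (R : ℝ) ^ 2 ≤ (x : ℝ) ^ (2 * θ) := h2
      _ ≤ ((x : ℝ) ^ κ) ^ J' / 2 ^ J' := by rw [le_div_iff₀ (by positivity)]; exact h4
      _ = ((x : ℝ) ^ κ / 2) ^ J' := by rw [div_pow]
      _ ≤ ((wk κ x : ℝ) / 2) ^ J' := pow_le_pow_left₀ (by positivity)
          (div_le_div_of_nonneg_right hwk (by norm_num)) _
  have hcnt := hcount x hx0' (wk κ x) w₂ J R Af hAf hw₂ hJc (hlogκ.trans hwk) hR1 hRw
  set Rb : Finset ℕ := (Icc 1 R).filter (fun r => ∃ χ ∈ prim r, BadF x (wk κ x) w₂ J B9 Af χ)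
    with hRb
  have hRbcard : (Rb.card : ℝ) ≤ L ^ C₀ := by
    refine le_trans ?_ hcnt
    rw [hRb, card_filter]
    push_cast
    refine sum_le_sum fun r hr => ?_
    split_ifs with h
    · obtain ⟨χ, hχ, hbad⟩ := h
      have : 0 < ((prim r).filter (fun χ => BadF x (wk κ x) w₂ J B9 Af χ)).card :=
        card_pos.2 ⟨χ, mem_filter.2 ⟨hχ, hbad⟩⟩
      exact_mod_cast this
    · positivity
  set G : ℕ := ⌊L ^ B₁⌋₊ with hG
  set P : Finset (ℕ × ℕ) := (Rb ×ˢ Icc 1 G).filter (fun p => L ^ (A + B₁ + 1) < (p.1 : ℝ) ∧ p.2 ∣ p.1)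
    with hP
  refine ⟨P.image (fun p => p.1 / p.2), ?_, ?_, ?_⟩
  · have h1 : ((P.image (fun p => p.1 / p.2)).card : ℝ) ≤ Rb.card * G := by
      have h2 : (P.image (fun p => p.1 / p.2)).card ≤ Rb.card * G := by
        refine card_image_le.trans ((card_filter_le _ _).trans ?_)
        rw [card_product, Nat.card_Icc, Nat.add_sub_cancel]
      exact_mod_cast h2
    have h3 : (G : ℝ) ≤ L ^ B₁ := Nat.floor_le (by positivity)
    calc ((P.image (fun p => p.1 / p.2)).card : ℝ) ≤ Rb.card * G := h1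
      _ ≤ L ^ C₀ * L ^ B₁ := mul_le_mul hRbcard h3 (by positivity) (by positivity)
      _ = L ^ (C₀ + B₁) := by rw [pow_add]
  · intro b hb
    obtain ⟨p, hp, rfl⟩ := mem_image.1 hb
    rw [hP, mem_filter, mem_product, mem_Icc] at hp
    obtain ⟨⟨hp1, hp2, hp3⟩, hp4, hp5⟩ := hp
    have hg0 : (0 : ℝ) < p.2 := by exact_mod_cast hp2
    have hg : (p.2 : ℝ) ≤ L ^ B₁ := by
      have h3 : (G : ℝ) ≤ L ^ B₁ := Nat.floor_le (by positivity)
      have : (p.2 : ℝ) ≤ G := by exact_mod_cast hp3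
      linarith
    rw [Nat.cast_div hp5 hg0.ne', lt_div_iff₀ hg0]
    calc L ^ A * p.2 ≤ L ^ A * L ^ B₁ := by gcongr
      _ ≤ L ^ A * L ^ B₁ * L := le_mul_of_one_le_right (by positivity) hlx
      _ = L ^ (A + B₁ + 1) := by ring
      _ < p.1 := hp4
  · intro q hq hqx hqB s hs hsS r hr hrR χ hχ hbad
    have hs0 : (0 : ℝ) < s := by exact_mod_cast hs
    have hqs : q * s ≠ 0 := Nat.mul_ne_zero (by omega) (by omega)
    have hr1 : 1 ≤ r := Nat.pos_of_dvd_of_pos hr (Nat.pos_of_ne_zero hqs)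
    have hrle : (r : ℝ) ≤ (x : ℝ) ^ θ := by
      calc (r : ℝ) ≤ ((q * s : ℕ) : ℝ) := by
            exact_mod_cast Nat.le_of_dvd (Nat.pos_of_ne_zero hqs) hr
        _ = q * s := by push_cast; ring
        _ ≤ (x : ℝ) ^ (θ - ε) * (x : ℝ) ^ ε :=
            mul_le_mul hqx (hsS.trans hlogε) hs0.le (by positivity)
        _ = (x : ℝ) ^ θ := by
            rw [← Real.rpow_add hx0R]; congr 1; ring
    have hrR2 : r ≤ R := Nat.le_floor hrle
    set g := Nat.gcd r s with hg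
    have hg1 : 1 ≤ g := Nat.gcd_pos_of_pos_left s hr1
    have hgr : g ∣ r := Nat.gcd_dvd_left r s
    have hgs : g ∣ s := Nat.gcd_dvd_right r s
    have hgG : g ≤ G := by
      refine Nat.le_floor ?_
      have : (g : ℝ) ≤ s := by exact_mod_cast Nat.le_of_dvd hs hgs
      exact this.trans hsS
    refine hqB (r / g) ?_ ?_
    · refine mem_image.2 ⟨(r, g), ?_, rfl⟩
      rw [hP, mem_filter, mem_product, mem_Icc, hRb, mem_filter, mem_Icc]
      exact ⟨⟨⟨⟨hr1, hrR2⟩, χ, hχ, hbad⟩, hg1, hgG⟩, hrR, hgr⟩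
    · have hcop : Nat.Coprime (r / g) (s / g) := Nat.coprime_div_gcd_div_gcd hg1
      have h2 : r / g ∣ q * (s / g) := by
        rw [← Nat.mul_div_assoc q hgs]
        exact Nat.div_dvd_div hgr hr
      exact hcop.dvd_of_dvd_mul_right h2

end Pool.Agent.HS
end

section
/-! # Module DensK: extraction of a prime

`a` is supported on squarefree `z`-rough integers and `a (p m) = H m p` for primes `p ≥ z`, `p ∤ m`.
Since `log n = ∑_{c ∣ n} Λ c`, the sum of `a n log n f n` is a sum over `m` of prime sums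
(`prime_out`). `KH` is the density. -/

namespace Pool.Agent.HS

open Finset Pool.Agent.BV
open scoped ArithmeticFunction.vonMangoldt

noncomputable section

open Classical

/-- all prime factors are at least `z` -/
def Rh (z n : ℕ) : Prop := ∀ p, p.Prime → p ∣ n → z ≤ p

/-- data of a lower bound function: `H m t` extends `p ↦ a (p m)` -/
structure WTd (x z : ℕ) (B : ℝ) (a : ℕ → ℝ) (H : ℕ → ℕ → ℝ) : Prop where
  supp : ∀ n, a n ≠ 0 → 1 ≤ n ∧ Rh z n ∧ Squarefree n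
  ext : ∀ p m, p.Prime → z ≤ p → 1 ≤ m → Rh z m → Squarefree m → ¬ p ∣ m → p * m ≤ x →
    a (p * m) = H m p
  bd : ∀ m t, |H m t| ≤ B
  tv : ∀ m, ∑ t ∈ Ico z x, |H m (t + 1) - H m t| ≤ B

/-- the `m` that occur -/
def Ms (z M : ℕ) : Finset ℕ := (Icc 1 M).filter (fun m => Rh z m ∧ Squarefree m)

/-- the density times `log n` -/
def KH (z : ℕ) (H : ℕ → ℕ → ℝ) (n : ℕ) : ℝ := ∑ m ∈ Ms z (n / z), H m (n / m) / m

/-- the main term: `c = p` a prime `≥ z`, `m` rough and squarefree -/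
def F0 (z : ℕ) (H : ℕ → ℕ → ℝ) (f : ℕ → ℂ) (c m : ℕ) : ℂ :=
  if c.Prime ∧ z ≤ c ∧ 1 ≤ m ∧ Rh z m ∧ Squarefree m then
    ((Real.log c * H m c : ℝ) : ℂ) * (f c * f m) else 0

theorem dk_swap {E : Type*} [AddCommMonoid E] (N : ℕ) (F : ℕ → ℕ → E) :
    ∑ n ∈ Icc 1 N, ∑ p ∈ n.divisorsAntidiagonal, F p.1 p.2 =
      ∑ m ∈ Icc 1 N, ∑ c ∈ Icc 1 (N / m), F c m := by
  rw [sum_sigma', sum_sigma']
  refine sum_bij' (fun a _ => ⟨a.2.2, a.2.1⟩) (fun b _ => ⟨b.2 * b.1, (b.2, b.1)⟩) ?_ ?_ ?_ ?_ ?_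
  · rintro ⟨n, c, m⟩ h
    simp only [mem_sigma, mem_Icc, Nat.mem_divisorsAntidiagonal] at h ⊢
    obtain ⟨⟨h1, h2⟩, h3, h4⟩ := h
    have hc : 1 ≤ c := by
      rcases Nat.eq_zero_or_pos c with h | h
      · rw [h] at h3; omega
      · exact h
    have hm : 1 ≤ m := by
      rcases Nat.eq_zero_or_pos m with h | h
      · rw [h] at h3; omega
      · exact h
    refine ⟨⟨hm, ?_⟩, hc, ?_⟩
    · calc m = 1 * m := (one_mul m).symm
        _ ≤ c * m := Nat.mul_le_mul_right m hc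
        _ ≤ N := by rw [h3]; exact h2
    · rw [Nat.le_div_iff_mul_le hm, h3]
      exact h2
  · rintro ⟨m, c⟩ h
    simp only [mem_sigma, mem_Icc, Nat.mem_divisorsAntidiagonal] at h ⊢
    obtain ⟨⟨h1, h2⟩, h3, h4⟩ := h
    have h5 : 0 < c * m := Nat.mul_pos h3 h1
    refine ⟨⟨h5, ?_⟩, trivial, by omega⟩
    rw [Nat.le_div_iff_mul_le h1] at h4
    exact h4
  · rintro ⟨n, c, m⟩ h
    simp only [mem_sigma, Nat.mem_divisorsAntidiagonal] at h
    obtain ⟨_, h3, _⟩ := h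
    simp only [h3]
  · rintro ⟨m, c⟩ _
    rfl
  · rintro ⟨n, c, m⟩ _
    rfl

/-- one `n`: exact identity, with the condition `¬ c ∣ m` -/
theorem per_n {x z : ℕ} {B : ℝ} {a : ℕ → ℝ} {H : ℕ → ℕ → ℝ} (h : WTd x z B a H) (f : ℕ → ℂ)
    (hf : ∀ a b, f (a * b) = f a * f b) {n : ℕ} (hn : 1 ≤ n) (hnx : n ≤ x) :
    ((a n * Real.log n : ℝ) : ℂ) * f n =
      ∑ p ∈ n.divisorsAntidiagonal, (if p.1 ∣ p.2 then 0 else F0 z H f p.1 p.2) := by
  have h1 : Real.log n = ∑ p ∈ n.divisorsAntidiagonal, Λ p.1 := by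
    rw [Nat.sum_divisorsAntidiagonal (fun c _ => (Λ c : ℝ))]
    exact (ArithmeticFunction.vonMangoldt_sum).symm
  rw [h1, mul_sum]
  push_cast
  rw [sum_mul]
  refine sum_congr rfl ?_
  rintro ⟨c, m⟩ hcm
  rw [Nat.mem_divisorsAntidiagonal] at hcm
  obtain ⟨hcm, hn0⟩ := hcm
  simp only at hcm ⊢
  have hm0 : m ≠ 0 := by
    rintro rfl
    simp at hcm
    omega
  by_cases hc : c.Prime
  · by_cases hcm2 : c ∣ m
    · rw [if_pos hcm2]
      have : a n = 0 := by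
        by_contra hne
        have h2 := (h.supp n hne).2.2
        rw [← hcm] at h2
        obtain ⟨t, rfl⟩ := hcm2
        have h3 : c * c ∣ c * (c * t) := ⟨t, by ring⟩
        have h4 := h2 c h3
        exact hc.one_lt.ne' (Nat.isUnit_iff.1 h4)
      rw [this]
      simp
    · rw [if_neg hcm2]
      unfold F0
      by_cases hr : z ≤ c ∧ Rh z m ∧ Squarefree m
      · rw [if_pos (show c.Prime ∧ z ≤ c ∧ 1 ≤ m ∧ Rh z m ∧ Squarefree m from
          ⟨hc, hr.1, Nat.one_le_iff_ne_zero.2 hm0, hr.2.1, hr.2.2⟩)]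
        rw [ArithmeticFunction.vonMangoldt_apply_prime hc, ← h.ext c m hc hr.1
          (Nat.one_le_iff_ne_zero.2 hm0) hr.2.1 hr.2.2 hcm2 (by rw [hcm]; exact hnx), hcm]
        have h5 : f n = f c * f m := by rw [← hf, hcm]
        rw [h5]
        push_cast
        ring
      · rw [if_neg (show ¬ (c.Prime ∧ z ≤ c ∧ 1 ≤ m ∧ Rh z m ∧ Squarefree m) from
          fun h' => hr ⟨h'.2.1, h'.2.2.2.1, h'.2.2.2.2⟩)]
        have : a n = 0 := by
          by_contra hne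
          have h2 := h.supp n hne
          apply hr
          refine ⟨h2.2.1 c hc ⟨m, hcm.symm⟩, ?_, ?_⟩
          · intro r hr' hrm
            exact h2.2.1 r hr' (hcm ▸ hrm.mul_left c)
          · exact h2.2.2.squarefree_of_dvd ⟨c, by rw [← hcm]; ring⟩
        rw [this]
        simp
  · have hz : F0 z H f c m = 0 := by
      unfold F0
      rw [if_neg (fun h' => hc h'.1)]
    rw [hz, ite_self]
    by_cases hL : Λ c = 0
    · rw [hL]; simp
    · have hpp : IsPrimePow c := ArithmeticFunction.vonMangoldt_ne_zero_iff.1 hL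
      rw [isPrimePow_nat_iff] at hpp
      obtain ⟨p, k, hp, hk, rfl⟩ := hpp
      have : a n = 0 := by
        by_contra hne
        have h2 := (h.supp n hne).2.2
        have hk2 : 2 ≤ k := by
          by_contra hlt
          have : k = 1 := by omega
          rw [this, pow_one] at hc
          exact hc hp
        have h3 : p * p ∣ n := by
          rw [← sq, ← hcm]
          exact (pow_dvd_pow p hk2).mul_right m
        have h4 := h2 p h3
        exact hp.one_lt.ne' (Nat.isUnit_iff.1 h4)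
      rw [this]
      simp

theorem F0_norm_le {z : ℕ} {B : ℝ} {H : ℕ → ℕ → ℝ} (hB : ∀ m t, |H m t| ≤ B) {f : ℕ → ℂ}
    (hf1 : ∀ n, ‖f n‖ ≤ 1) {L : ℝ} {c m : ℕ} (hc : Real.log c ≤ L) (hL : 0 ≤ L) :
    ‖F0 z H f c m‖ ≤ L * B := by
  have hB0 : 0 ≤ B := (abs_nonneg _).trans (hB 0 0)
  unfold F0
  split_ifs
  · rw [norm_mul, norm_mul, Complex.norm_real, Real.norm_eq_abs, abs_mul,
      abs_of_nonneg (Real.log_natCast_nonneg c)]
    calc Real.log c * |H m c| * (‖f c‖ * ‖f m‖) ≤ L * B * (1 * 1) := by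
          have := Real.log_natCast_nonneg c
          gcongr
          · exact hB m c
          · exact hf1 c
          · exact hf1 m
      _ = L * B := by ring
  · rw [norm_zero]
    positivity

/-- the number of pairs `(c, m)`, `c ≥ z`, `c ∣ m`, `c m ≤ N` -/
theorem dk_pairs (z N : ℕ) (hz : 2 ≤ z) :
    (∑ m ∈ Icc 1 N, ∑ c ∈ Icc 1 (N / m), if z ≤ c ∧ c ∣ m then (1 : ℝ) else 0) ≤ 2 * N / z := by
  have hz0 : (0 : ℝ) < z := by exact_mod_cast (by omega : 0 < z)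
  have h1 : (∑ m ∈ Icc 1 N, ∑ c ∈ Icc 1 (N / m), if z ≤ c ∧ c ∣ m then (1 : ℝ) else 0) ≤
      ∑ c ∈ Icc z N, ∑ m ∈ Icc 1 N, if c ∣ m ∧ c * m ≤ N then (1 : ℝ) else 0 := by
    refine le_trans ?_ (le_of_eq sum_comm)
    apply sum_le_sum
    intro m hm
    rw [mem_Icc] at hm
    rw [← sum_filter, ← sum_filter]
    apply sum_le_sum_of_subset_of_nonneg
    · intro c hc
      rw [mem_filter, mem_Icc] at hc ⊢
      have h2 : c * m ≤ N := by
        have := hc.1.2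
        rwa [Nat.le_div_iff_mul_le (by omega)] at this
      refine ⟨⟨hc.2.1, ?_⟩, hc.2.2, h2⟩
      exact (Nat.le_mul_of_pos_right c (by omega)).trans h2
    · intro _ _ _
      exact zero_le_one
  refine h1.trans ?_
  have h2 : ∀ c ∈ Icc z N, (∑ m ∈ Icc 1 N, if c ∣ m ∧ c * m ≤ N then (1 : ℝ) else 0) ≤
      N * ((c : ℝ) ^ 2)⁻¹ := by
    intro c hc
    rw [mem_Icc] at hc
    have hc0 : 0 < c := by omega
    have hc0' : (0 : ℝ) < c := by exact_mod_cast hc0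
    rw [← sum_filter, sum_const, nsmul_eq_mul, mul_one]
    have h3 : (Icc 1 N).filter (fun m => c ∣ m ∧ c * m ≤ N) ⊆
        (Icc 1 (N / c ^ 2)).image (fun t => c * t) := by
      intro m hm
      rw [mem_filter, mem_Icc] at hm
      obtain ⟨t, rfl⟩ := hm.2.1
      rw [mem_image]
      refine ⟨t, ?_, rfl⟩
      rw [mem_Icc, Nat.le_div_iff_mul_le (by positivity)]
      constructor
      · rcases Nat.eq_zero_or_pos t with h | h
        · rw [h] at hm; omega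
        · exact h
      · calc t * c ^ 2 = c * (c * t) := by ring
          _ ≤ N := hm.2.2
    have h4 : ((Icc 1 N).filter (fun m => c ∣ m ∧ c * m ≤ N)).card ≤ N / c ^ 2 := by
      refine (card_le_card h3).trans (card_image_le.trans ?_)
      simp
    calc (((Icc 1 N).filter (fun m => c ∣ m ∧ c * m ≤ N)).card : ℝ) ≤ ((N / c ^ 2 : ℕ) : ℝ) := by
          exact_mod_cast h4
      _ ≤ (N : ℝ) / ((c ^ 2 : ℕ) : ℝ) := Nat.cast_div_le
      _ = N * ((c : ℝ) ^ 2)⁻¹ := by push_cast; rw [div_eq_mul_inv]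
  refine (sum_le_sum h2).trans ?_
  rw [← mul_sum]
  have h3 : ∑ c ∈ Icc z N, ((c : ℝ) ^ 2)⁻¹ ≤ 2 / z := by
    have h4 := sum_Ioo_inv_sq_le (α := ℝ) (z - 1) (N + 1)
    have h5 : Icc z N = Ioo (z - 1) (N + 1) := by
      ext c; simp only [mem_Icc, mem_Ioo]; omega
    rw [h5]
    refine h4.trans (le_of_eq ?_)
    have : ((z - 1 : ℕ) : ℝ) + 1 = z := by
      have : z - 1 + 1 = z := by omega
      exact_mod_cast this
    rw [this]
  calc (N : ℝ) * ∑ c ∈ Icc z N, ((c : ℝ) ^ 2)⁻¹ ≤ N * (2 / z) :=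
        mul_le_mul_of_nonneg_left h3 (Nat.cast_nonneg N)
    _ = _ := by ring

/-- extraction of a prime -/
theorem prime_out {x z : ℕ} {B : ℝ} {a : ℕ → ℝ} {H : ℕ → ℕ → ℝ} (h : WTd x z B a H) (f : ℕ → ℂ)
    (hf : ∀ a b, f (a * b) = f a * f b) (hf1 : ∀ n, ‖f n‖ ≤ 1) (hz : 2 ≤ z) {N : ℕ} (hN : N ≤ x) :
    ‖∑ n ∈ Icc 1 N, ((a n * Real.log n : ℝ) : ℂ) * f n -
      ∑ m ∈ Ms z (N / z), f m * ∑ p ∈ (Icc z (N / m)).filter Nat.Prime,
        ((Real.log p * H m p : ℝ) : ℂ) * f p‖ ≤ 2 * B * Real.log x * N / z := by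
  have hB0 : 0 ≤ B := (abs_nonneg _).trans (h.bd 0 0)
  have h1 : ∑ n ∈ Icc 1 N, ((a n * Real.log n : ℝ) : ℂ) * f n =
      ∑ m ∈ Icc 1 N, ∑ c ∈ Icc 1 (N / m), (if c ∣ m then 0 else F0 z H f c m) := by
    rw [← dk_swap N (fun c m => if c ∣ m then 0 else F0 z H f c m)]
    refine sum_congr rfl fun n hn => ?_
    rw [mem_Icc] at hn
    exact per_n h f hf hn.1 (hn.2.trans hN)
  have h2 : ∑ m ∈ Ms z (N / z), f m * ∑ p ∈ (Icc z (N / m)).filter Nat.Prime,
        ((Real.log p * H m p : ℝ) : ℂ) * f p =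
      ∑ m ∈ Icc 1 N, ∑ c ∈ Icc 1 (N / m), F0 z H f c m := by
    have e1 : ∀ m ∈ Icc 1 N, ∑ c ∈ Icc 1 (N / m), F0 z H f c m =
        if Rh z m ∧ Squarefree m ∧ m ≤ N / z then
          f m * ∑ p ∈ (Icc z (N / m)).filter Nat.Prime,
            ((Real.log p * H m p : ℝ) : ℂ) * f p else 0 := by
      intro m hm
      rw [mem_Icc] at hm
      by_cases hr : Rh z m ∧ Squarefree m ∧ m ≤ N / z
      · rw [if_pos hr, mul_sum, sum_filter]
        symm
        apply sum_subset_zero_on_sdiff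
        · intro c hc
          rw [mem_Icc] at hc ⊢
          omega
        · intro c hc
          rw [mem_sdiff, mem_Icc, mem_Icc] at hc
          unfold F0
          rw [if_neg]
          rintro ⟨_, h3, _⟩
          apply hc.2
          omega
        · intro c hc
          rw [mem_Icc] at hc
          unfold F0
          by_cases hp : c.Prime
          · rw [if_pos hp, if_pos ⟨hp, hc.1, hm.1, hr.1, hr.2.1⟩]
            ring
          · rw [if_neg hp, if_neg (fun h' => hp h'.1)]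
      · rw [if_neg hr]
        apply sum_eq_zero
        intro c hc
        rw [mem_Icc] at hc
        unfold F0
        rw [if_neg]
        rintro ⟨_, h3, _, h4, h5⟩
        apply hr
        refine ⟨h4, h5, ?_⟩
        rw [Nat.le_div_iff_mul_le (by omega)]
        have := hc.2
        rw [Nat.le_div_iff_mul_le hm.1] at this
        calc m * z ≤ m * c := Nat.mul_le_mul_left m h3
          _ = c * m := mul_comm _ _
          _ ≤ N := this
    rw [sum_congr rfl e1, ← sum_filter]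
    apply sum_congr _ (fun _ _ => rfl)
    unfold Ms
    ext m
    simp only [mem_filter, mem_Icc]
    have : N / z ≤ N := Nat.div_le_self N z
    constructor
    · rintro ⟨⟨h3, h4⟩, h5, h6⟩
      exact ⟨⟨h3, h4.trans this⟩, h5, h6, h4⟩
    · rintro ⟨⟨h3, h4⟩, h5, h6, h7⟩
      exact ⟨⟨h3, h7⟩, h5, h6⟩
  rw [h1, h2, ← sum_sub_distrib]
  have h3 : ∀ m ∈ Icc 1 N, ‖∑ c ∈ Icc 1 (N / m), (if c ∣ m then 0 else F0 z H f c m) -
      ∑ c ∈ Icc 1 (N / m), F0 z H f c m‖ ≤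
      ∑ c ∈ Icc 1 (N / m), (Real.log x * B) * (if z ≤ c ∧ c ∣ m then (1 : ℝ) else 0) := by
    intro m hm
    rw [mem_Icc] at hm
    rw [← sum_sub_distrib]
    refine (norm_sum_le _ _).trans ?_
    apply sum_le_sum
    intro c hc
    rw [mem_Icc] at hc
    have hcx : c ≤ x := (hc.2.trans (Nat.div_le_self N m)).trans hN
    have hlc : Real.log c ≤ Real.log x :=
      Real.log_le_log (by exact_mod_cast hc.1) (by exact_mod_cast hcx)
    have hlx : 0 ≤ Real.log x := Real.log_natCast_nonneg x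
    by_cases hcm : c ∣ m
    · rw [if_pos hcm]
      by_cases hzc : z ≤ c
      · rw [if_pos ⟨hzc, hcm⟩, zero_sub, norm_neg, mul_one]
        exact F0_norm_le h.bd hf1 hlc hlx
      · rw [if_neg (by tauto)]
        unfold F0
        rw [if_neg (by tauto)]
        simp
    · rw [if_neg hcm, sub_self, norm_zero]
      split_ifs <;> positivity
  refine (norm_sum_le _ _).trans ((sum_le_sum h3).trans ?_)
  simp_rw [← mul_sum]
  have h4 := dk_pairs z N hz
  have hlx : 0 ≤ Real.log x := Real.log_natCast_nonneg x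
  calc (Real.log x * B) *
        ∑ m ∈ Icc 1 N, ∑ c ∈ Icc 1 (N / m), (if z ≤ c ∧ c ∣ m then (1 : ℝ) else 0)
      ≤ (Real.log x * B) * (2 * N / z) := mul_le_mul_of_nonneg_left h4 (by positivity)
    _ = _ := by ring

end

end Pool.Agent.HS
end

section
/-! # Module DensP: asymptotic formulas for the lower bound function

`dens_log`: `∑_{n ≤ N} a n log n = ∑_{n ≤ N} KH n + O(B x / L^A)`; `dens_log_chi`: twisted by a
primitive character of small conductor. -/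

namespace Pool.Agent.HS

open Finset Pool.Agent.BV
open scoped ArithmeticFunction.vonMangoldt

noncomputable section

open Classical

/-- prime number theorem for `theta` -/
theorem theta_pnt (A : ℕ) : ∃ C : ℝ, 0 < C ∧ ∀ y : ℕ, 3 ≤ y →
    |theta y - y| ≤ C * y / (Real.log y) ^ A := by
  obtain ⟨C, hC, h⟩ := Pool.Agent.HL.psi_pnt A
  obtain ⟨C', hC', h'⟩ := primes_logpow (A + 1) (1 / 2) (by norm_num)
  refine ⟨C + 2 * C', by positivity, fun y hy => ?_⟩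
  have hy0 : (0 : ℝ) < y := by exact_mod_cast (by omega : 0 < y)
  have hy1 : (1 : ℝ) ≤ y := by exact_mod_cast (by omega : 1 ≤ y)
  have hl : 0 < Real.log y := Real.log_pos (by exact_mod_cast (by omega : 1 < y))
  have h1 := h y (by omega)
  have h2 := primes_sub_le hy (le_refl y)
  have h3 : 0 ≤ psi y - theta y := by
    rw [primes_psi_eq, primes_theta_eq, sub_nonneg]
    exact Chebyshev.theta_le_psi _
  have h4 : 2 * Real.sqrt y * Real.log y ≤ 2 * C' * y / (Real.log y) ^ A := by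
    rw [le_div_iff₀ (by positivity)]
    have h5 := h' y hy1
    rw [← Real.sqrt_eq_rpow] at h5
    calc 2 * Real.sqrt y * Real.log y * (Real.log y) ^ A
        = 2 * Real.sqrt y * (Real.log y) ^ (A + 1) := by ring
      _ ≤ 2 * Real.sqrt y * (C' * Real.sqrt y) := by gcongr
      _ = 2 * C' * (Real.sqrt y * Real.sqrt y) := by ring
      _ = 2 * C' * y := by rw [Real.mul_self_sqrt hy0.le]
  have h6 : theta y - y = (psi y - y) - (psi y - theta y) := by ring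
  rw [h6]
  refine (abs_sub _ _).trans ?_
  rw [abs_of_nonneg h3]
  calc |psi y - y| + (psi y - theta y) ≤ C * y / (Real.log y) ^ A + 2 * C' * y / (Real.log y) ^ A :=
        add_le_add h1 (h2.trans h4)
    _ = _ := by ring

/-- Abel summation against a weight of bounded variation on `[z, x]` -/
theorem abel_tv {x z T : ℕ} {B E : ℝ} (g : ℕ → ℝ) (hg : ∀ t, |g t| ≤ B)
    (htv : ∑ t ∈ Ico z x, |g (t + 1) - g t| ≤ B) (hT : T ≤ x) (hz : 1 ≤ z)
    (b : ℕ → ℂ)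
    (hb : ∀ T', T' ≤ T → ‖∑ t ∈ Icc z T', b t‖ ≤ E) :
    ‖∑ t ∈ Icc z T, b t * ((g t : ℝ) : ℂ)‖ ≤ 2 * B * E := by
  set f : ℕ → ℂ := fun t => if z ≤ t ∧ t ≤ T then b t else 0 with hf
  set φ : ℕ → ℝ := fun t => g (max t z) with hφ
  have hE : 0 ≤ E := (norm_nonneg _).trans (hb 0 (by omega))
  have hB0 : 0 ≤ B := (abs_nonneg _).trans (hg 0)
  have h1 : ∀ n, ‖∑ k ∈ Icc 1 n, f k‖ ≤ E := by
    intro n
    have h2 : ∑ k ∈ Icc 1 n, f k = ∑ k ∈ Icc z (min n T), b k := by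
      rw [hf]
      simp only []
      rw [← sum_filter]
      apply sum_congr _ (fun _ _ => rfl)
      ext k
      simp only [mem_filter, mem_Icc, le_min_iff]
      omega
    rw [h2]
    exact hb _ (min_le_right _ _)
  have h2 := Pool.Agent.Work.BV.abel_le h1 φ T
  have h3 : ∑ t ∈ Icc z T, b t * ((g t : ℝ) : ℂ) = ∑ n ∈ Icc 1 T, f n * ((φ n : ℝ) : ℂ) := by
    have e1 : ∀ n ∈ Icc 1 T, f n * ((φ n : ℝ) : ℂ) =
        if z ≤ n then b n * ((g n : ℝ) : ℂ) else 0 := by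
      intro n hn
      rw [mem_Icc] at hn
      simp only [hf, hφ]
      by_cases h : z ≤ n
      · rw [if_pos ⟨h, hn.2⟩, if_pos h, max_eq_left h]
      · rw [if_neg (by tauto), if_neg h, zero_mul]
    rw [sum_congr rfl e1, ← sum_filter]
    apply sum_congr _ (fun _ _ => rfl)
    ext k
    simp only [mem_filter, mem_Icc]
    omega
  rw [h3]
  refine h2.trans ?_
  have h4 : ∑ n ∈ Ico 1 T, |φ (n + 1) - φ n| ≤ B := by
    refine le_trans ?_ htv
    have e2 : ∑ n ∈ Ico 1 T, |φ (n + 1) - φ n| = ∑ n ∈ (Ico 1 T).filter (fun n => z ≤ n),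
        |g (n + 1) - g n| := by
      rw [sum_filter]
      refine sum_congr rfl fun n hn => ?_
      simp only [hφ]
      by_cases h : z ≤ n
      · rw [if_pos h, max_eq_left h, max_eq_left (by omega)]
      · rw [if_neg h, max_eq_right (by omega), max_eq_right (by omega), sub_self, abs_zero]
    rw [e2]
    apply sum_le_sum_of_subset_of_nonneg
    · intro n hn
      simp only [mem_filter, mem_Ico] at hn ⊢
      omega
    · intro _ _ _
      exact abs_nonneg _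
  calc E * (|φ T| + ∑ n ∈ Ico 1 T, |φ (n + 1) - φ n|) ≤ E * (B + B) := by
        apply mul_le_mul_of_nonneg_left _ hE
        exact add_le_add (hg _) h4
    _ = _ := by ring

/-- regrouping `n` by `n / m` -/
theorem sum_div_block (g : ℕ → ℝ) (m z : ℕ) (hm : 1 ≤ m) : ∀ T : ℕ, z ≤ T →
    ∑ n ∈ Ico (m * z) (m * T), g (n / m) = m * ∑ t ∈ Ico z T, g t := by
  intro T hT
  induction T, hT using Nat.le_induction with
  | base => simp
  | succ T hT ih =>
    rw [sum_Ico_succ_top hT, mul_add (m : ℝ), ← ih,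
      ← sum_Ico_consecutive _ (Nat.mul_le_mul_left m hT) (Nat.mul_le_mul_left m (Nat.le_succ T))]
    congr 1
    have h1 : ∀ n ∈ Ico (m * T) (m * (T + 1)), g (n / m) = g T := by
      intro n hn
      rw [mem_Ico] at hn
      have : n / m = T := by
        rw [Nat.div_eq_iff (by omega)]
        constructor
        · rw [mul_comm]; exact hn.1
        · have := hn.2
          rw [mul_add, mul_one] at this
          rw [mul_comm T m]
          omega
      rw [this]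
    rw [sum_congr rfl h1, sum_const, Nat.card_Ico, nsmul_eq_mul]
    congr 1
    have : m * (T + 1) - m * T = m := by rw [mul_add, mul_one]; omega
    exact_mod_cast this

theorem KH_sum {z : ℕ} {B : ℝ} {H : ℕ → ℕ → ℝ} (hB : ∀ m t, |H m t| ≤ B) (hz : 1 ≤ z) (N : ℕ) :
    |∑ n ∈ Icc 1 N, KH z H n - ∑ m ∈ Ms z (N / z), ∑ t ∈ Icc z (N / m), H m t| ≤ B * N / z := by
  have hB0 : 0 ≤ B := (abs_nonneg _).trans (hB 0 0)
  have h1 : ∑ n ∈ Icc 1 N, KH z H n =
      ∑ m ∈ Ms z (N / z), ∑ n ∈ Icc (m * z) N, H m (n / m) / m := by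
    unfold KH
    apply sum_comm'
    intro n m
    unfold Ms
    simp only [mem_Icc, mem_filter]
    rw [Nat.le_div_iff_mul_le (by omega), Nat.le_div_iff_mul_le (by omega)]
    constructor
    · rintro ⟨⟨h2, h3⟩, ⟨h4, h5⟩, h6⟩
      exact ⟨⟨h5, h3⟩, ⟨h4, h5.trans h3⟩, h6⟩
    · rintro ⟨⟨h2, h3⟩, ⟨h4, h5⟩, h6⟩
      exact ⟨⟨(Nat.mul_pos h4 hz).trans_le h2, h3⟩, ⟨h4, h2⟩, h6⟩
  rw [h1, ← sum_sub_distrib]
  have h2 : ∀ m ∈ Ms z (N / z), |∑ n ∈ Icc (m * z) N, H m (n / m) / m -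
      ∑ t ∈ Icc z (N / m), H m t| ≤ B := by
    intro m hm
    unfold Ms at hm
    rw [mem_filter, mem_Icc, Nat.le_div_iff_mul_le (by omega)] at hm
    have hm1 := hm.1.1
    have hm0 : (0 : ℝ) < m := by exact_mod_cast hm1
    set T := N / m with hT
    have hzT : z ≤ T := by
      rw [hT, Nat.le_div_iff_mul_le hm1, mul_comm]
      exact hm.1.2
    have hNT : N < m * (T + 1) := by
      have := Nat.lt_div_mul_add hm1 (a := N)
      rw [← hT] at this
      calc N < T * m + m := this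
        _ = m * (T + 1) := by ring
    have hTN : m * T ≤ N := by rw [hT]; exact Nat.mul_div_le N m
    have h3 := sum_div_block (fun t => H m t) m z hm1 (T + 1) (by omega)
    have h4 : ∑ n ∈ Ico (m * z) (m * (T + 1)), H m (n / m) =
        ∑ n ∈ Icc (m * z) N, H m (n / m) + ∑ n ∈ Ico (N + 1) (m * (T + 1)), H m (n / m) := by
      have e1 : Icc (m * z) N = Ico (m * z) (N + 1) := by
        ext n
        rw [mem_Icc, mem_Ico]
        omega
      rw [e1, sum_Ico_consecutive _ (by omega) (by omega)]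
    have e2 : Icc z T = Ico z (T + 1) := by
      ext n
      rw [mem_Icc, mem_Ico]
      omega
    rw [e2, ← sum_div]
    have h5 : ∑ n ∈ Icc (m * z) N, H m (n / m) / (m : ℝ) =
        ∑ t ∈ Ico z (T + 1), H m t - (∑ n ∈ Ico (N + 1) (m * (T + 1)), H m (n / m)) / m := by
      rw [← sum_div]
      have : ∑ n ∈ Icc (m * z) N, H m (n / m) = m * ∑ t ∈ Ico z (T + 1), H m t -
          ∑ n ∈ Ico (N + 1) (m * (T + 1)), H m (n / m) := by linarith
      rw [this, sub_div, mul_div_cancel_left₀ _ hm0.ne']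
    rw [← sum_div] at h5
    rw [h5]
    have h6 : |∑ n ∈ Ico (N + 1) (m * (T + 1)), H m (n / m)| ≤ m * B := by
      refine (abs_sum_le_sum_abs _ _).trans ?_
      refine (sum_le_sum fun n _ => hB m (n / m)).trans ?_
      rw [sum_const, Nat.card_Ico, nsmul_eq_mul]
      apply mul_le_mul_of_nonneg_right _ hB0
      have : m * (T + 1) - (N + 1) ≤ m := by rw [mul_add, mul_one]; omega
      exact_mod_cast this
    have h7 : ∑ t ∈ Ico z (T + 1), H m t - (∑ n ∈ Ico (N + 1) (m * (T + 1)), H m (n / m)) / m -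
        ∑ t ∈ Ico z (T + 1), H m t = -((∑ n ∈ Ico (N + 1) (m * (T + 1)), H m (n / m)) / m) := by
      ring
    rw [h7, abs_neg, abs_div, abs_of_pos hm0, div_le_iff₀ hm0]
    linarith
  refine (abs_sum_le_sum_abs _ _).trans ((sum_le_sum h2).trans ?_)
  rw [sum_const, nsmul_eq_mul]
  have h3 : ((Ms z (N / z)).card : ℝ) ≤ (N : ℝ) / z := by
    have h4 : (Ms z (N / z)).card ≤ N / z := by
      unfold Ms
      refine (card_filter_le _ _).trans ?_
      simp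
    calc ((Ms z (N / z)).card : ℝ) ≤ ((N / z : ℕ) : ℝ) := by exact_mod_cast h4
      _ ≤ _ := Nat.cast_div_le
  calc ((Ms z (N / z)).card : ℝ) * B ≤ (N : ℝ) / z * B := mul_le_mul_of_nonneg_right h3 hB0
    _ = _ := by ring

theorem Ms_inv_le (z M : ℕ) : ∑ m ∈ Ms z M, 1 / (m : ℝ) ≤ 1 + Real.log M := by
  have h := Pool.Agent.Work.BV.sum_inv_le M
  refine le_trans ?_ h
  apply sum_le_sum_of_subset_of_nonneg
  · intro m hm
    unfold Ms at hm
    rw [mem_filter, mem_Icc] at hm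
    rw [mem_Ioc]
    omega
  · intro _ _ _
    positivity

/-- abstract form: from bounds for the prime sums `∑_{z ≤ p ≤ T} log p f p - main` -/
theorem dens_abs {x z : ℕ} {B : ℝ} {a : ℕ → ℝ} {H : ℕ → ℕ → ℝ} (h : WTd x z B a H) (f : ℕ → ℂ)
    (hf : ∀ a b, f (a * b) = f a * f b) (hf1 : ∀ n, ‖f n‖ ≤ 1) (hz : 2 ≤ z) {N : ℕ} (hN : N ≤ x)
    (g : ℂ) (E : ℝ) (hE : 0 ≤ E)
    (hp : ∀ T, z ≤ T → T ≤ x →
      ‖∑ t ∈ Icc z T, ((if t.Prime then ((Real.log t : ℝ) : ℂ) * f t else 0) - g)‖ ≤ E * T) :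
    ‖∑ n ∈ Icc 1 N, ((a n * Real.log n : ℝ) : ℂ) * f n -
      ∑ m ∈ Ms z (N / z), f m * (g * ((∑ t ∈ Icc z (N / m), H m t : ℝ) : ℂ))‖ ≤
      2 * B * Real.log x * N / z + 2 * B * E * N * (1 + Real.log x) := by
  have hB0 : 0 ≤ B := (abs_nonneg _).trans (h.bd 0 0)
  have h1 := prime_out h f hf hf1 hz hN
  have h2 : ‖∑ m ∈ Ms z (N / z), f m * ∑ p ∈ (Icc z (N / m)).filter Nat.Prime,
        ((Real.log p * H m p : ℝ) : ℂ) * f p -
      ∑ m ∈ Ms z (N / z), f m * (g * ((∑ t ∈ Icc z (N / m), H m t : ℝ) : ℂ))‖ ≤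
      2 * B * E * N * (1 + Real.log x) := by
    rw [← sum_sub_distrib]
    have h3 : ∀ m ∈ Ms z (N / z), ‖f m * ∑ p ∈ (Icc z (N / m)).filter Nat.Prime,
        ((Real.log p * H m p : ℝ) : ℂ) * f p -
        f m * (g * ((∑ t ∈ Icc z (N / m), H m t : ℝ) : ℂ))‖ ≤ (2 * B * E * N) * (1 / m) := by
      intro m hm
      unfold Ms at hm
      rw [mem_filter, mem_Icc, Nat.le_div_iff_mul_le (by omega)] at hm
      have hm1 := hm.1.1
      have hm0 : (0 : ℝ) < m := by exact_mod_cast hm1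
      have hzT : z ≤ N / m := by
        rw [Nat.le_div_iff_mul_le hm1, mul_comm]
        exact hm.1.2
      have hTx : N / m ≤ x := (Nat.div_le_self N m).trans hN
      rw [← mul_sub, norm_mul]
      have e1 : ∑ p ∈ (Icc z (N / m)).filter Nat.Prime, ((Real.log p * H m p : ℝ) : ℂ) * f p -
          g * ((∑ t ∈ Icc z (N / m), H m t : ℝ) : ℂ) =
          ∑ t ∈ Icc z (N / m), ((if t.Prime then ((Real.log t : ℝ) : ℂ) * f t else 0) - g) *
            ((H m t : ℝ) : ℂ) := by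
        rw [sum_filter]
        push_cast
        rw [mul_sum, ← sum_sub_distrib]
        refine sum_congr rfl fun t _ => ?_
        split_ifs <;> ring
      rw [e1]
      have h4 := abel_tv (T := N / m) (E := E * ((N / m : ℕ) : ℝ)) (fun t => H m t) (h.bd m) (h.tv m) hTx
        (by omega) (fun t => (if t.Prime then ((Real.log t : ℝ) : ℂ) * f t else 0) - g) (by
          intro T' hT'
          rcases le_or_gt z T' with h5 | h5
          · refine (hp T' h5 (hT'.trans hTx)).trans ?_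
            apply mul_le_mul_of_nonneg_left _ hE
            exact_mod_cast hT'
          · rw [Icc_eq_empty (by omega), sum_empty, norm_zero]
            positivity)
      have h5 : ((N / m : ℕ) : ℝ) ≤ (N : ℝ) / m := Nat.cast_div_le
      calc ‖f m‖ * ‖∑ t ∈ Icc z (N / m), ((if t.Prime then ((Real.log t : ℝ) : ℂ) * f t else 0) - g) *
            ((H m t : ℝ) : ℂ)‖ ≤ 1 * (2 * B * (E * ((N / m : ℕ) : ℝ))) :=
            mul_le_mul (hf1 m) h4 (norm_nonneg _) zero_le_one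
        _ ≤ 1 * (2 * B * (E * ((N : ℝ) / m))) := by gcongr
        _ = _ := by ring
    refine (norm_sum_le _ _).trans ((sum_le_sum h3).trans ?_)
    rw [← mul_sum]
    apply mul_le_mul_of_nonneg_left _ (by positivity)
    refine (Ms_inv_le z (N / z)).trans ?_
    have : Real.log ((N / z : ℕ) : ℝ) ≤ Real.log x := by
      rcases Nat.eq_zero_or_pos (N / z) with h5 | h5
      · rw [h5]; simp [Real.log_natCast_nonneg]
      · apply Real.log_le_log (by exact_mod_cast h5)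
        exact_mod_cast (Nat.div_le_self N z).trans hN
    linarith
  have h3 : ∑ n ∈ Icc 1 N, ((a n * Real.log n : ℝ) : ℂ) * f n -
      ∑ m ∈ Ms z (N / z), f m * (g * ((∑ t ∈ Icc z (N / m), H m t : ℝ) : ℂ)) =
      (∑ n ∈ Icc 1 N, ((a n * Real.log n : ℝ) : ℂ) * f n -
      ∑ m ∈ Ms z (N / z), f m * ∑ p ∈ (Icc z (N / m)).filter Nat.Prime,
        ((Real.log p * H m p : ℝ) : ℂ) * f p) +
      (∑ m ∈ Ms z (N / z), f m * ∑ p ∈ (Icc z (N / m)).filter Nat.Prime,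
        ((Real.log p * H m p : ℝ) : ℂ) * f p -
      ∑ m ∈ Ms z (N / z), f m * (g * ((∑ t ∈ Icc z (N / m), H m t : ℝ) : ℂ))) := by ring
  rw [h3]
  exact (norm_add_le _ _).trans (add_le_add h1 h2)

end

end Pool.Agent.HS
end

section
/-! # Module DensQ: untwisted density, removal of the logarithm, variation of the density -/

namespace Pool.Agent.HS

open Finset Pool.Agent.BV
open scoped ArithmeticFunction.vonMangoldt

noncomputable section

open Classical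

theorem theta_diff {z T : ℕ} (hz : 1 ≤ z) (hT : z ≤ T) :
    ∑ t ∈ Icc z T, (if t.Prime then Real.log t else 0) = theta T - theta (z - 1) := by
  unfold theta
  rw [sum_filter, sum_filter]
  have h1 : ∑ t ∈ Icc 1 T, (if t.Prime then Real.log t else 0) =
      ∑ t ∈ Icc 1 (z - 1), (if t.Prime then Real.log t else 0) +
      ∑ t ∈ Icc z T, (if t.Prime then Real.log t else 0) := by
    rw [← sum_union]
    · apply sum_congr _ (fun _ _ => rfl)
      ext t
      simp only [mem_union, mem_Icc]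
      omega
    · rw [disjoint_left]
      intro t
      simp only [mem_Icc]
      omega
  rw [h1]
  ring

/-- prime sums over `[z, T]` -/
theorem prime_int {C : ℝ} (hC : 0 < C) {A : ℕ} (hpnt : ∀ y : ℕ, 3 ≤ y →
    |theta y - y| ≤ C * y / (Real.log y) ^ A) {l : ℝ} (hl : 0 < l) {z : ℕ} (hz : 4 ≤ z)
    (hlz : l ≤ Real.log ((z - 1 : ℕ) : ℝ)) {T : ℕ} (hT : z ≤ T) :
    ‖∑ t ∈ Icc z T, ((if t.Prime then ((Real.log t : ℝ) : ℂ) * 1 else 0) - 1)‖ ≤
      (2 * C / l ^ A) * T := by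
  have e1 : ∑ t ∈ Icc z T, ((if t.Prime then ((Real.log t : ℝ) : ℂ) * 1 else 0) - 1) =
      ((∑ t ∈ Icc z T, (if t.Prime then Real.log t else 0) - ((T + 1 - z : ℕ) : ℝ) : ℝ) : ℂ) := by
    rw [sum_sub_distrib, sum_const, Nat.card_Icc]
    push_cast
    congr 1
    · refine sum_congr rfl fun t _ => ?_
      split_ifs <;> simp
    · simp
  rw [e1, Complex.norm_real, Real.norm_eq_abs, theta_diff (by omega) hT]
  have h1 := hpnt T (by omega)
  have h2 := hpnt (z - 1) (by omega)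
  have e2 : theta T - theta (z - 1) - ((T + 1 - z : ℕ) : ℝ) =
      (theta T - T) - (theta (z - 1) - ((z - 1 : ℕ) : ℝ)) := by
    have e3 : ((T + 1 - z : ℕ) : ℝ) = (T : ℝ) - ((z - 1 : ℕ) : ℝ) := by
      rw [eq_sub_iff_add_eq]
      exact_mod_cast (by omega : T + 1 - z + (z - 1) = T)
    rw [e3]
    ring
  rw [e2]
  refine (abs_sub _ _).trans ?_
  have hT0 : (0 : ℝ) ≤ T := Nat.cast_nonneg T
  have hz1 : (0 : ℝ) < ((z - 1 : ℕ) : ℝ) := by exact_mod_cast (by omega : 0 < z - 1)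
  have h3 : ∀ y : ℕ, z - 1 ≤ y → y ≤ T → C * y / (Real.log y) ^ A ≤ C * T / l ^ A := by
    intro y hy1 hy2
    have h4 : l ≤ Real.log y := hlz.trans (Real.log_le_log hz1 (by exact_mod_cast hy1))
    have h5 : (y : ℝ) ≤ T := by exact_mod_cast hy2
    gcongr
  calc |theta T - T| + |theta (z - 1) - ((z - 1 : ℕ) : ℝ)| ≤ C * T / l ^ A + C * T / l ^ A :=
        add_le_add (h1.trans (h3 T (by omega) (le_refl T)))
          (h2.trans (h3 (z - 1) (le_refl _) (by omega)))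
    _ = _ := by ring

/-- the sum of `a n log n` is the sum of `KH` -/
theorem dens_sum {x z : ℕ} {B : ℝ} {a : ℕ → ℝ} {H : ℕ → ℕ → ℝ} (h : WTd x z B a H)
    {C : ℝ} (hC : 0 < C) {A : ℕ} (hpnt : ∀ y : ℕ, 3 ≤ y →
    |theta y - y| ≤ C * y / (Real.log y) ^ A) {l : ℝ} (hl : 0 < l) (hz : 4 ≤ z)
    (hlz : l ≤ Real.log ((z - 1 : ℕ) : ℝ)) (hL : 1 ≤ Real.log x) {N : ℕ} (hN : N ≤ x) :
    |∑ n ∈ Icc 1 N, (a n * Real.log n - KH z H n)| ≤
      3 * B * Real.log x * x / z + 8 * B * C * Real.log x / l ^ A * x := by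
  have hB0 : 0 ≤ B := (abs_nonneg _).trans (h.bd 0 0)
  have hz0 : (0 : ℝ) < z := by exact_mod_cast (by omega : 0 < z)
  have hNx : (N : ℝ) ≤ x := by exact_mod_cast hN
  have h1 := dens_abs h (fun _ => (1 : ℂ)) (fun _ _ => by simp) (fun _ => by simp) (by omega) hN 1
    (2 * C / l ^ A) (by positivity) (fun T hT _ => prime_int hC hpnt hl hz hlz hT)
  have h2 := KH_sum h.bd (by omega : 1 ≤ z) N
  have e1 : ∑ n ∈ Icc 1 N, ((a n * Real.log n : ℝ) : ℂ) * (1 : ℂ) -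
      ∑ m ∈ Ms z (N / z), (1 : ℂ) * (1 * ((∑ t ∈ Icc z (N / m), H m t : ℝ) : ℂ)) =
      ((∑ n ∈ Icc 1 N, a n * Real.log n - ∑ m ∈ Ms z (N / z), ∑ t ∈ Icc z (N / m), H m t : ℝ) : ℂ) := by
    push_cast
    simp
  rw [e1, Complex.norm_real, Real.norm_eq_abs] at h1
  rw [sum_sub_distrib]
  have e2 : ∑ n ∈ Icc 1 N, a n * Real.log n - ∑ n ∈ Icc 1 N, KH z H n =
      (∑ n ∈ Icc 1 N, a n * Real.log n - ∑ m ∈ Ms z (N / z), ∑ t ∈ Icc z (N / m), H m t) -
      (∑ n ∈ Icc 1 N, KH z H n - ∑ m ∈ Ms z (N / z), ∑ t ∈ Icc z (N / m), H m t) := by ring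
  rw [e2]
  refine (abs_sub _ _).trans ((add_le_add h1 h2).trans ?_)
  have h3 : 2 * B * Real.log x * N / z + B * N / z ≤ 3 * B * Real.log x * x / z := by
    rw [← add_div]
    apply div_le_div_of_nonneg_right _ hz0.le
    have h5 : B * N ≤ B * Real.log x * x := by
      calc B * N = B * 1 * N := by ring
        _ ≤ B * Real.log x * x := by gcongr
    have h6 : 2 * B * Real.log x * N ≤ 2 * B * Real.log x * x := by
      have : 0 ≤ Real.log x := by linarith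
      gcongr
    linarith
  have h4 : 2 * B * (2 * C / l ^ A) * N * (1 + Real.log x) ≤ 8 * B * C * Real.log x / l ^ A * x := by
    calc 2 * B * (2 * C / l ^ A) * N * (1 + Real.log x)
        ≤ 2 * B * (2 * C / l ^ A) * x * (Real.log x + Real.log x) := by
          have : 0 ≤ Real.log x := by linarith
          gcongr
      _ = _ := by ring
  linarith

theorem inv_log_le (t : ℕ) : |1 / Real.log t| ≤ 2 := by
  rcases Nat.lt_or_ge t 2 with ht | ht
  · interval_cases t <;> simp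
  · have h2 : Real.log 2 ≤ Real.log t := Real.log_le_log (by norm_num) (by exact_mod_cast ht)
    have h3 : (1 : ℝ) / 2 ≤ Real.log 2 := by
      have := Real.log_two_gt_d9
      linarith
    rw [abs_of_nonneg (by positivity)]
    rw [div_le_iff₀ (by linarith)]
    linarith

theorem inv_log_anti {t : ℕ} (ht : 2 ≤ t) : 1 / Real.log ((t + 1 : ℕ) : ℝ) ≤ 1 / Real.log t := by
  have h2 : 0 < Real.log t := Real.log_pos (by exact_mod_cast (by omega : 1 < t))
  apply one_div_le_one_div_of_le h2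
  apply Real.log_le_log (by exact_mod_cast (by omega : 0 < t))
  exact_mod_cast Nat.le_succ t

theorem log_tv {w X : ℕ} (hw : 2 ≤ w) (hX : w ≤ X) :
    ∑ t ∈ Ico w X, |1 / Real.log ((t + 1 : ℕ) : ℝ) - 1 / Real.log t| =
      1 / Real.log w - 1 / Real.log X := by
  induction X, hX using Nat.le_induction with
  | base => simp
  | succ X hX ih =>
    rw [sum_Ico_succ_top hX, ih, abs_sub_comm,
      abs_of_nonneg (sub_nonneg.2 (inv_log_anti (by omega)))]
    ring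

/-- removal of the logarithm -/
theorem unlog {x z : ℕ} {a : ℕ → ℝ} {H : ℕ → ℕ → ℝ} {E : ℝ}
    (hE : ∀ N, N ≤ x → |∑ n ∈ Icc 1 N, (a n * Real.log n - KH z H n)| ≤ E) {w : ℕ} (hw : 2 ≤ w)
    {y : ℕ} (hy : y ≤ x) :
    |∑ n ∈ Icc w y, (a n - KH z H n / Real.log n)| ≤ 8 * E := by
  have hE0 : 0 ≤ E := (abs_nonneg _).trans (hE 0 (by omega))
  rcases le_or_gt w y with hwy | hwy
  swap
  · rw [Icc_eq_empty (by omega), sum_empty, abs_zero]
    positivity
  have hg := inv_log_le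
  have htv := fun X (hX : w ≤ X) => log_tv hw hX
  have htv2 : ∑ t ∈ Ico w x, |1 / Real.log ((t + 1 : ℕ) : ℝ) - 1 / Real.log t| ≤ 2 := by
    rw [htv x (hwy.trans hy)]
    have h1 := (le_abs_self _).trans (hg w)
    have h2 : 0 ≤ 1 / Real.log (x : ℝ) := one_div_nonneg.2 (Real.log_natCast_nonneg x)
    linarith
  have h1 := abel_tv (x := x) (z := w) (T := y) (B := 2) (E := 2 * E)
    (fun t => 1 / Real.log (t : ℝ)) hg htv2 hy (by omega)
    (fun n => ((a n * Real.log n - KH z H n : ℝ) : ℂ)) (by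
      intro T' hT'
      rcases le_or_gt w T' with h5 | h5
      · have e1 : ∑ n ∈ Icc 1 T', (a n * Real.log n - KH z H n) =
            ∑ n ∈ Icc 1 (w - 1), (a n * Real.log n - KH z H n) +
            ∑ n ∈ Icc w T', (a n * Real.log n - KH z H n) := by
          rw [← sum_union]
          · apply sum_congr _ (fun _ _ => rfl)
            ext t
            simp only [mem_union, mem_Icc]
            omega
          · rw [disjoint_left]
            intro t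
            simp only [mem_Icc]
            omega
        rw [← Complex.ofReal_sum, Complex.norm_real, Real.norm_eq_abs]
        have h6 := hE T' (hT'.trans hy)
        have h7 := hE (w - 1) (by omega)
        have e2 : ∑ n ∈ Icc w T', (a n * Real.log n - KH z H n) =
            ∑ n ∈ Icc 1 T', (a n * Real.log n - KH z H n) -
            ∑ n ∈ Icc 1 (w - 1), (a n * Real.log n - KH z H n) := by
          rw [e1]
          ring
        rw [e2]
        refine (abs_sub _ _).trans ?_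
        linarith
      · rw [Icc_eq_empty (by omega), sum_empty, norm_zero]
        positivity)
  have e3 : ∑ n ∈ Icc w y, ((a n * Real.log n - KH z H n : ℝ) : ℂ) *
      ((1 / Real.log (n : ℝ) : ℝ) : ℂ) = ((∑ n ∈ Icc w y, (a n - KH z H n / Real.log n) : ℝ) : ℂ) := by
    rw [Complex.ofReal_sum]
    refine sum_congr rfl fun n hn => ?_
    rw [mem_Icc] at hn
    have h2 : Real.log (n : ℝ) ≠ 0 :=
      (Real.log_pos (by exact_mod_cast (by omega : 1 < n))).ne'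
    rw [← Complex.ofReal_mul]
    congr 1
    field_simp
  rw [e3, Complex.norm_real, Real.norm_eq_abs] at h1
  linarith

/-- variation along a step function -/
theorem tv_step (g : ℕ → ℝ) (σ : ℕ → ℕ) (hσ : ∀ n, σ (n + 1) = σ n ∨ σ (n + 1) = σ n + 1)
    (a : ℕ) : ∀ b, a ≤ b → σ a ≤ σ b ∧ ∑ n ∈ Ico a b, |g (σ (n + 1)) - g (σ n)| =
      ∑ t ∈ Ico (σ a) (σ b), |g (t + 1) - g t| := by
  intro b hb
  induction b, hb using Nat.le_induction with
  | base => simp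
  | succ b hb ih =>
    obtain ⟨ih1, ih2⟩ := ih
    rw [sum_Ico_succ_top hb, ih2]
    rcases hσ b with h | h
    · rw [h]
      exact ⟨ih1, by simp⟩
    · rw [h]
      exact ⟨by omega, by rw [sum_Ico_succ_top ih1]⟩

theorem KH_eq {x z : ℕ} (hz : 1 ≤ z) (H : ℕ → ℕ → ℝ) {n : ℕ} (hn : n ≤ x) :
    KH z H n = ∑ m ∈ Ms z (x / z), (1 / (m : ℝ)) * (if m * z ≤ n then H m (n / m) else 0) := by
  unfold KH
  have h1 : Ms z (n / z) = (Ms z (x / z)).filter (fun m => m * z ≤ n) := by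
    ext m
    unfold Ms
    simp only [mem_filter, mem_Icc, Nat.le_div_iff_mul_le (by omega : 0 < z)]
    constructor
    · rintro ⟨⟨h1, h2⟩, h3⟩
      exact ⟨⟨⟨h1, h2.trans hn⟩, h3⟩, h2⟩
    · rintro ⟨⟨⟨h1, _⟩, h3⟩, h4⟩
      exact ⟨⟨h1, h4⟩, h3⟩
  rw [h1, sum_filter]
  refine sum_congr rfl fun m _ => ?_
  split_ifs <;> ring

theorem Ms_inv_le' {x z : ℕ} : ∑ m ∈ Ms z (x / z), 1 / (m : ℝ) ≤ 1 + Real.log x := by
  refine (Ms_inv_le z (x / z)).trans ?_
  have : Real.log ((x / z : ℕ) : ℝ) ≤ Real.log x := by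
    rcases Nat.eq_zero_or_pos (x / z) with h5 | h5
    · rw [h5]; simp [Real.log_natCast_nonneg]
    · apply Real.log_le_log (by exact_mod_cast h5)
      exact_mod_cast Nat.div_le_self x z
  linarith

theorem KH_abs {x z : ℕ} {B : ℝ} {H : ℕ → ℕ → ℝ} (hB : ∀ m t, |H m t| ≤ B) (hz : 1 ≤ z)
    {n : ℕ} (hn : n ≤ x) : |KH z H n| ≤ B * (1 + Real.log x) := by
  have hB0 : 0 ≤ B := (abs_nonneg _).trans (hB 0 0)
  rw [KH_eq hz H hn]
  refine (abs_sum_le_sum_abs _ _).trans ?_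
  calc ∑ m ∈ Ms z (x / z), |1 / (m : ℝ) * (if m * z ≤ n then H m (n / m) else 0)|
      ≤ ∑ m ∈ Ms z (x / z), 1 / (m : ℝ) * B := by
        refine sum_le_sum fun m _ => ?_
        rw [abs_mul, abs_of_nonneg (by positivity : (0 : ℝ) ≤ 1 / (m : ℝ))]
        apply mul_le_mul_of_nonneg_left _ (by positivity)
        split_ifs
        · exact hB _ _
        · rw [abs_zero]; exact hB0
    _ = (∑ m ∈ Ms z (x / z), 1 / (m : ℝ)) * B := by rw [sum_mul]
    _ ≤ (1 + Real.log x) * B := mul_le_mul_of_nonneg_right (Ms_inv_le') hB0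
    _ = _ := by ring

theorem KH_tv {x z : ℕ} {B : ℝ} {H : ℕ → ℕ → ℝ} (hB : ∀ m t, |H m t| ≤ B)
    (htv : ∀ m, ∑ t ∈ Ico z x, |H m (t + 1) - H m t| ≤ B) (hz : 1 ≤ z) : ∑ n ∈ range x, |KH z H (n + 1) - KH z H n| ≤ 2 * B * (1 + Real.log x) := by
  have hB0 : 0 ≤ B := (abs_nonneg _).trans (hB 0 0)
  have h1 : ∀ m ∈ Ms z (x / z), ∑ n ∈ range x, |(if m * z ≤ n + 1 then H m ((n + 1) / m) else 0) -
      (if m * z ≤ n then H m (n / m) else 0)| ≤ 2 * B := by
    intro m hm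
    unfold Ms at hm
    rw [mem_filter, mem_Icc, Nat.le_div_iff_mul_le (by omega)] at hm
    have hm1 := hm.1.1
    have hmz : 1 ≤ m * z := Nat.mul_pos hm1 hz
    obtain ⟨M, hM⟩ : ∃ M, m * z = M + 1 := ⟨m * z - 1, by omega⟩
    have hMx : M + 1 ≤ x := by rw [← hM]; exact hm.1.2
    rw [range_eq_Ico, ← sum_Ico_consecutive _ (Nat.zero_le M) (by omega : M ≤ x),
      sum_eq_sum_Ico_succ_bot (by omega : M < x)]
    have h2 : ∑ n ∈ Ico 0 M, |(if m * z ≤ n + 1 then H m ((n + 1) / m) else 0) -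
      (if m * z ≤ n then H m (n / m) else 0)| = 0 := by
      refine sum_eq_zero fun n hn => ?_
      rw [mem_Ico] at hn
      rw [if_neg (by omega), if_neg (by omega)]
      simp
    have h3 : |(if m * z ≤ M + 1 then H m ((M + 1) / m) else 0) -
      (if m * z ≤ M then H m (M / m) else 0)| ≤ B := by
      rw [if_pos (by omega), if_neg (by omega), sub_zero]
      exact hB _ _
    have h4 : ∑ n ∈ Ico (M + 1) x, |(if m * z ≤ n + 1 then H m ((n + 1) / m) else 0) -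
      (if m * z ≤ n then H m (n / m) else 0)| ≤ B := by
      have h5 := tv_step (fun t => H m t) (fun n => n / m) (by
        intro n
        simp only [Nat.succ_div]
        split_ifs <;> omega) (M + 1) x hMx
      have h6 : ∑ n ∈ Ico (M + 1) x, |(if m * z ≤ n + 1 then H m ((n + 1) / m) else 0) -
        (if m * z ≤ n then H m (n / m) else 0)| =
        ∑ n ∈ Ico (M + 1) x, |H m ((n + 1) / m) - H m (n / m)| := by
        refine sum_congr rfl fun n hn => ?_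
        rw [mem_Ico] at hn
        rw [if_pos (by omega), if_pos (by omega)]
      rw [h6, h5.2]
      refine le_trans ?_ (htv m)
      apply sum_le_sum_of_subset_of_nonneg
      · intro t ht
        rw [mem_Ico] at ht ⊢
        have e1 : (M + 1) / m = z := by
          rw [← hM]
          exact Nat.mul_div_cancel_left z hm1
        have e2 : x / m ≤ x := Nat.div_le_self x m
        rw [e1] at ht
        omega
      · intro _ _ _
        exact abs_nonneg _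
    rw [h2]
    linarith
  have h2 : ∀ n ∈ range x, |KH z H (n + 1) - KH z H n| ≤ ∑ m ∈ Ms z (x / z), 1 / (m : ℝ) *
      |(if m * z ≤ n + 1 then H m ((n + 1) / m) else 0) -
      (if m * z ≤ n then H m (n / m) else 0)| := by
    intro n hn
    rw [mem_range] at hn
    rw [KH_eq hz H (by omega : n + 1 ≤ x), KH_eq hz H (by omega : n ≤ x), ← sum_sub_distrib]
    refine (abs_sum_le_sum_abs _ _).trans (le_of_eq ?_)
    refine sum_congr rfl fun m _ => ?_
    rw [← mul_sub, abs_mul, abs_of_nonneg (by positivity : (0 : ℝ) ≤ 1 / (m : ℝ))]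
  refine (sum_le_sum h2).trans ?_
  rw [sum_comm]
  calc ∑ m ∈ Ms z (x / z), ∑ n ∈ range x, 1 / (m : ℝ) *
      |(if m * z ≤ n + 1 then H m ((n + 1) / m) else 0) -
      (if m * z ≤ n then H m (n / m) else 0)|
      ≤ ∑ m ∈ Ms z (x / z), 1 / (m : ℝ) * (2 * B) := by
        refine sum_le_sum fun m hm => ?_
        rw [← mul_sum]
        exact mul_le_mul_of_nonneg_left (h1 m hm) (by positivity)
    _ = (∑ m ∈ Ms z (x / z), 1 / (m : ℝ)) * (2 * B) := by rw [sum_mul]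
    _ ≤ (1 + Real.log x) * (2 * B) := mul_le_mul_of_nonneg_right (Ms_inv_le') (by positivity)
    _ = _ := by ring

end

end Pool.Agent.HS
end

section
/-! # Module Final

`main_nat` (given `ε`, `K`): `B'' = 2 K + 8`, `B₁, B₈, B₉` from `sup_VV` (`B'' ≤ B₁`), `B` from `bset ε B₁ B₈ B₉`,
`h = FL q - TM q Q`, `cv F F - cv T T = cv h F + cv h T` (`cv_comm`), `circle` twice, `∑ ‖FL‖² ≤ x (log x)²`, `T_l2`:
the number of `m ≤ x/q` with `‖cv F F (q m) - cv T T (q m)‖ ≥ x/40` is at most `(x/q)/(2 (log x)^K)`; `sing`;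
`T_main`; so for the other `n = q m ∈ (x/2, x]`, `n` even: `(cv F F n).re ≥ (7/10) n`, and
`(cv F F n).re ≤ (log n)² g(n) + 2 log n (ψ(n) - θ(n)) ≤ (log n)² g(n) + 4 √n (log n)²` (`primes_sub_le`).
`half_level`: `X = ⌊x⌋₊`, `main_nat` with `ε/2`, `K + 1` and `A + 1`, `x ≤ 2 X`. -/

namespace Pool.Agent.HL

open Finset Pool.Agent.BV
open scoped ArithmeticFunction.vonMangoldt

theorem not_prime_sum_le (n : ℕ) :
    ∑ k ∈ (Ico 1 n).filter (fun k => ¬ k.Prime), Λ k ≤ psi n - theta n := by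
  have h1 : psi n - theta n = ∑ k ∈ (Icc 1 n).filter (fun k => ¬ k.Prime), Λ k := by
    have h2 : psi n = ∑ k ∈ (Icc 1 n).filter Nat.Prime, Λ k +
        ∑ k ∈ (Icc 1 n).filter (fun k => ¬ k.Prime), Λ k := by
      unfold psi
      rw [sum_filter_add_sum_filter_not]
    have h3 : theta n = ∑ k ∈ (Icc 1 n).filter Nat.Prime, Λ k := by
      unfold theta
      apply sum_congr rfl
      intro p hp
      rw [mem_filter] at hp
      rw [ArithmeticFunction.vonMangoldt_apply_prime hp.2]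
    rw [h2, h3]
    ring
  rw [h1]
  apply sum_le_sum_of_subset_of_nonneg
  · intro k hk
    rw [mem_filter, mem_Ico] at hk
    rw [mem_filter, mem_Icc]
    exact ⟨⟨hk.1.1, hk.1.2.le⟩, hk.2⟩
  · intro k _ _
    exact ArithmeticFunction.vonMangoldt_nonneg

theorem mangoldt_le_log' {k n : ℕ} (hk : 1 ≤ k) (hkn : k ≤ n) : Λ k ≤ Real.log n := by
  refine ArithmeticFunction.vonMangoldt_le_log.trans ?_
  apply Real.log_le_log (by exact_mod_cast hk)
  exact_mod_cast hkn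

theorem fl_sq_sum_le (q x : ℕ) :
    ∑ n ∈ Icc 1 x, ‖FL q n‖ ^ 2 ≤ x * (Real.log x) ^ 2 := by
  have h : ∀ n ∈ Icc 1 x, ‖FL q n‖ ^ 2 ≤ (Real.log x) ^ 2 := by
    intro n hn
    rw [mem_Icc] at hn
    apply pow_le_pow_left₀ (norm_nonneg _)
    unfold FL
    split_ifs
    · rw [Complex.norm_real, Real.norm_of_nonneg ArithmeticFunction.vonMangoldt_nonneg]
      exact mangoldt_le_log' hn.1 hn.2
    · rw [norm_zero]
      exact Real.log_natCast_nonneg x
  refine (sum_le_sum h).trans ?_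
  simp

theorem one_le_log {x : ℕ} (hx : 3 ≤ x) : 1 ≤ Real.log x := by
  have h3 : (3 : ℝ) ≤ x := by exact_mod_cast hx
  rw [Real.le_log_iff_exp_le (by linarith)]
  linarith [Real.exp_one_lt_d9]

theorem ev_pow_log (k : ℕ) (c : ℝ) :
    ∀ᶠ x : ℕ in Filter.atTop, c * (Real.log x) ^ k * Real.sqrt x ≤ x := by
  obtain ⟨C, hC, h⟩ := primes_logpow k (1 / 4) (by norm_num)
  have h1 : ∀ᶠ x : ℕ in Filter.atTop, |c| * C ≤ (x : ℝ) ^ (1 / 4 : ℝ) :=
    ((tendsto_rpow_atTop (by norm_num : (0 : ℝ) < 1 / 4)).comp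
      tendsto_natCast_atTop_atTop).eventually_ge_atTop _
  filter_upwards [h1, Filter.eventually_ge_atTop 1] with x hx h1x
  have hx1 : (1 : ℝ) ≤ x := by exact_mod_cast h1x
  have hx0 : (0 : ℝ) < x := by linarith
  have hL : 0 ≤ Real.log x := Real.log_nonneg hx1
  have h2 := h x hx1
  have e1 : (x : ℝ) = (x : ℝ) ^ (1 / 4 : ℝ) * (x : ℝ) ^ (1 / 4 : ℝ) * Real.sqrt x := by
    rw [Real.sqrt_eq_rpow, ← Real.rpow_add hx0, ← Real.rpow_add hx0]
    norm_num
  have h3 : c * (Real.log x) ^ k ≤ (x : ℝ) ^ (1 / 4 : ℝ) * (x : ℝ) ^ (1 / 4 : ℝ) := by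
    have a0 : 0 ≤ (Real.log x) ^ k := by positivity
    calc c * (Real.log x) ^ k ≤ |c| * (Real.log x) ^ k :=
          mul_le_mul_of_nonneg_right (le_abs_self c) a0
      _ ≤ |c| * (C * (x : ℝ) ^ (1 / 4 : ℝ)) := mul_le_mul_of_nonneg_left h2 (abs_nonneg c)
      _ = (|c| * C) * (x : ℝ) ^ (1 / 4 : ℝ) := by ring
      _ ≤ _ := mul_le_mul_of_nonneg_right hx (by positivity)
  calc c * (Real.log x) ^ k * Real.sqrt x ≤
        ((x : ℝ) ^ (1 / 4 : ℝ) * (x : ℝ) ^ (1 / 4 : ℝ)) * Real.sqrt x :=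
        mul_le_mul_of_nonneg_right h3 (Real.sqrt_nonneg _)
    _ = x := e1.symm

theorem ev_log_ge (k : ℕ) (hk : 1 ≤ k) (c : ℝ) :
    ∀ᶠ x : ℕ in Filter.atTop, c ≤ (Real.log x) ^ k := by
  have h1 : ∀ᶠ x : ℕ in Filter.atTop, max c 1 ≤ Real.log x :=
    (Real.tendsto_log_atTop.comp tendsto_natCast_atTop_atTop).eventually_ge_atTop _
  filter_upwards [h1] with x hx
  have h2 : 1 ≤ Real.log x := (le_max_right _ _).trans hx
  calc c ≤ Real.log x := (le_max_left _ _).trans hx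
    _ = (Real.log x) ^ 1 := (pow_one _).symm
    _ ≤ _ := pow_le_pow_right₀ h2 hk

end Pool.Agent.HL
end

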