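import Pool.Agent.Work.GBM.C01
import Pool.Agent.Work.GBM.C09
import Pool.Agent.Work.GBM.C12
import Pool.Agent.Work.GBM.C22

section
/-! # Module ClassF: class sums of `h = FA q (cut x f) - v * TM q Q` mod `k = q s`

`f` supported on `z`-rough integers, `|f| ≤ F`, `x < z^K`.
Classes `c` coprime to `k`: `parseval_gen` for `cut x f` (a difference of two initial segments of `f`: `4 Vb/φ(k)`); `∑_{n ≤ y, (n,k)=1} = ∑_{n ≤ y} - O(F #{n ≤ x : f ≠ 0, (n,k) > 1})`,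
the number is `≤ ∑_{p ∣ k, p ≥ z} x/p ≤ K x/z` (fewer than `K` primes `≥ z` divide `k ≤ x`); `T_class` and Abel summation with `v`:
`∑_{n ≤ y, n ≡ c} v TM = (1/φ(k)) ∑_{n ≤ y} v + O(2 V 4 (q/φ(q)) Q²)`; `|∑_{n ≤ y} (cut x f - v)| ≤ δ`.
Classes not coprime to `k` but coprime to `q`: `cut x f`: counts `N_c ≤ x/k + 1 ≤ 2x/k`, `∑_c N_c ≤ K x/z`, so `∑_c |.|² ≤ F² (2x/k)(K x/z)`; `TM`: `T_class`
(value `0`) and Abel. Classes not coprime to `q`: `h = 0`. (The constant may be changed.) -/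

namespace Pool.Agent.HS

open Finset Pool.Agent.BV Pool.Agent.HL

private lemma cf_cop {q s c n : ℕ} (h : n ≡ c [MOD q * s]) : n.Coprime q ↔ c.Coprime q := by
  have h1 : n ≡ c [MOD q] := h.of_mul_right s
  unfold Nat.Coprime
  rw [Nat.gcd_comm n q, Nat.gcd_comm c q, Nat.gcd_rec q n, Nat.gcd_rec q c, h1]

private lemma cf_cop' {m c n : ℕ} (h : n ≡ c [MOD m]) : n.Coprime m ↔ c.Coprime m := by
  unfold Nat.Coprime
  rw [Nat.gcd_comm n m, Nat.gcd_comm c m, Nat.gcd_rec m n, Nat.gcd_rec m c, h]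

/-- Abel summation with a function of bounded variation -/
private lemma cf_abel_eq (v : ℕ → ℝ) (a : ℕ → ℂ) (y : ℕ) :
    ∑ n ∈ Icc 1 y, ((v n : ℝ) : ℂ) * a n = ((v y : ℝ) : ℂ) * ∑ n ∈ Icc 1 y, a n -
      ∑ n ∈ range y, (((v (n + 1) - v n : ℝ)) : ℂ) * ∑ m ∈ Icc 1 n, a m := by
  induction y with
  | zero => simp
  | succ y ih =>
    rw [sum_Icc_succ_top (by omega), sum_Icc_succ_top (by omega), sum_range_succ, ih]
    push_cast
    ring

private lemma cf_abel (x y : ℕ) (hy : y ≤ x) (v : ℕ → ℝ) (V : ℝ) (hv : BVar x V v) (a : ℕ → ℂ)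
    (W : ℝ) (hW : 0 ≤ W) (h : ∀ y' ≤ y, ‖∑ n ∈ Icc 1 y', a n‖ ≤ W) :
    ‖∑ n ∈ Icc 1 y, ((v n : ℝ) : ℂ) * a n‖ ≤ 2 * V * W := by
  rw [cf_abel_eq]
  refine (norm_sub_le _ _).trans ?_
  have h1 : ‖((v y : ℝ) : ℂ) * ∑ n ∈ Icc 1 y, a n‖ ≤ V * W := by
    rw [norm_mul, Complex.norm_real, Real.norm_eq_abs]
    exact mul_le_mul (hv.bd y) (h y le_rfl) (norm_nonneg _) ((abs_nonneg _).trans (hv.bd y))
  have h2 : ‖∑ n ∈ range y, (((v (n + 1) - v n : ℝ)) : ℂ) * ∑ m ∈ Icc 1 n, a m‖ ≤ V * W := by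
    refine (norm_sum_le _ _).trans ?_
    calc ∑ n ∈ range y, ‖(((v (n + 1) - v n : ℝ)) : ℂ) * ∑ m ∈ Icc 1 n, a m‖
        ≤ ∑ n ∈ range y, |v (n + 1) - v n| * W := by
          refine sum_le_sum fun n hn => ?_
          rw [norm_mul, Complex.norm_real, Real.norm_eq_abs]
          exact mul_le_mul_of_nonneg_left (h n (mem_range.1 hn).le) (abs_nonneg _)
      _ = (∑ n ∈ range y, |v (n + 1) - v n|) * W := by rw [sum_mul]
      _ ≤ (∑ n ∈ range x, |v (n + 1) - v n|) * W := by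
          gcongr
      _ ≤ V * W := mul_le_mul_of_nonneg_right hv.tv hW
  linarith

/-- few rough integers have a common factor with `k` -/
private lemma cf_count (x z K k : ℕ) (hz : 2 ≤ z) (hK : x < z ^ K) (hk0 : k ≠ 0) (hk : k ≤ x)
    (S : Finset ℕ) (hS : ∀ n ∈ S, 1 ≤ n ∧ n ≤ x ∧ ¬ n.Coprime k ∧
      ∀ p : ℕ, p.Prime → p ∣ n → z ≤ p) :
    (S.card : ℝ) ≤ K * ((x : ℝ) / z) := by
  set P : Finset ℕ := k.primeFactors.filter (fun p => z ≤ p) with hP
  have hPc : P.card ≤ K := by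
    have h1 : z ^ P.card ≤ ∏ p ∈ P, p := by
      rw [← prod_const]
      exact prod_le_prod' fun p hp => (mem_filter.1 hp).2
    have h2 : ∏ p ∈ P, p ≤ k := by
      refine le_trans ?_ (Nat.le_of_dvd (Nat.pos_of_ne_zero hk0) (Nat.prod_primeFactors_dvd k))
      refine prod_le_prod_of_subset_of_one_le' (filter_subset _ _) ?_
      intro p hp _
      exact (Nat.prime_of_mem_primeFactors hp).one_le
    have h3 : z ^ P.card < z ^ K := lt_of_le_of_lt (h1.trans (h2.trans hk)) hK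
    exact (Nat.pow_lt_pow_iff_right (by omega : 1 < z)).1 h3 |>.le
  have hsub : S ⊆ P.biUnion (fun p => (Ioc 0 x).filter (fun n => p ∣ n)) := by
    intro n hn
    obtain ⟨h1, h2, h3, h4⟩ := hS n hn
    obtain ⟨p, hp, hpn, hpk⟩ := Nat.Prime.not_coprime_iff_dvd.1 h3
    rw [mem_biUnion]
    refine ⟨p, ?_, ?_⟩
    · rw [hP, mem_filter, Nat.mem_primeFactors]
      exact ⟨⟨hp, hpk, hk0⟩, h4 p hp hpn⟩
    · rw [mem_filter, mem_Ioc]
      exact ⟨⟨by omega, h2⟩, hpn⟩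
  have hz0 : (0 : ℝ) < z := by exact_mod_cast (by omega : 0 < z)
  calc (S.card : ℝ) ≤ ((P.biUnion (fun p => (Ioc 0 x).filter (fun n => p ∣ n))).card : ℝ) := by
        exact_mod_cast card_le_card hsub
    _ ≤ ∑ p ∈ P, (((Ioc 0 x).filter (fun n => p ∣ n)).card : ℝ) := by
        exact_mod_cast card_biUnion_le
    _ ≤ ∑ p ∈ P, (x : ℝ) / z := by
        refine sum_le_sum fun p hp => ?_
        have hp1 : z ≤ p := (mem_filter.1 hp).2
        rw [Nat.Ioc_filter_dvd_card_eq_div]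
        calc ((x / p : ℕ) : ℝ) ≤ (x : ℝ) / p := Nat.cast_div_le
          _ ≤ (x : ℝ) / z := by
              have : (z : ℝ) ≤ p := by exact_mod_cast hp1
              gcongr
    _ = P.card * ((x : ℝ) / z) := by rw [sum_const, nsmul_eq_mul]
    _ ≤ K * ((x : ℝ) / z) := by
        have : (P.card : ℝ) ≤ K := by exact_mod_cast hPc
        gcongr

private lemma cf_sq4 (a b c d : ℝ) : (a + b + c + d) ^ 2 ≤ 4 * (a ^ 2 + b ^ 2 + c ^ 2 + d ^ 2) := by
  nlinarith [sq_nonneg (a - b), sq_nonneg (a - c), sq_nonneg (a - d), sq_nonneg (b - c),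
    sq_nonneg (b - d), sq_nonneg (c - d)]

private lemma cf_class_card (k c y : ℕ) (hk : 1 ≤ k) :
    (((Icc 1 y).filter (fun n => n ≡ c [MOD k])).card : ℝ) ≤ (y : ℝ) / k + 1 := by
  have h1 := abs_le.1 (tcl_count k c y hk)
  linarith [h1.2]

/-- `T_class` with a weight of bounded variation -/
private lemma cf_TM (x q Q s c y : ℕ) (hq : 1 ≤ q) (hs : 1 ≤ s) (hsQ : s ≤ Q) (hy : y ≤ x)
    (hc : c.Coprime q) (v : ℕ → ℝ) (V : ℝ) (hv : BVar x V v) :
    ‖∑ n ∈ (Icc 1 y).filter (fun n => n ≡ c [MOD q * s]), ((v n : ℝ) : ℂ) * TM q Q n -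
        (if c.Coprime (q * s) then (∑ n ∈ Icc 1 y, ((v n : ℝ) : ℂ)) / ((q * s).totient : ℂ) else 0)‖ ≤
      2 * V * (4 * ((q : ℝ) / q.totient) * (Q : ℝ) ^ 2) := by
  classical
  set b : ℂ := if c.Coprime (q * s) then 1 / ((q * s).totient : ℂ) else 0 with hb
  set a : ℕ → ℂ := fun n => (if n ≡ c [MOD q * s] then TM q Q n else 0) - b with ha
  have hpart : ∀ y' : ℕ, ∑ n ∈ Icc 1 y', a n =
      ∑ n ∈ (Icc 1 y').filter (fun n => n ≡ c [MOD q * s]), TM q Q n -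
        (if c.Coprime (q * s) then (y' : ℂ) / ((q * s).totient : ℂ) else 0) := by
    intro y'
    rw [ha, sum_sub_distrib, sum_filter, sum_const, Nat.card_Icc, nsmul_eq_mul, hb]
    congr 1
    split_ifs
    · push_cast [Nat.add_sub_cancel]
      ring
    · simp
  have h1 := cf_abel x y hy v V hv a (4 * ((q : ℝ) / q.totient) * (Q : ℝ) ^ 2) (by positivity)
    (fun y' _ => by
      rw [hpart]
      exact T_class q Q s c y' hq hs hsQ hc)
  have h2 : ∑ n ∈ Icc 1 y, ((v n : ℝ) : ℂ) * a n =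
      ∑ n ∈ (Icc 1 y).filter (fun n => n ≡ c [MOD q * s]), ((v n : ℝ) : ℂ) * TM q Q n -
        (if c.Coprime (q * s) then (∑ n ∈ Icc 1 y, ((v n : ℝ) : ℂ)) / ((q * s).totient : ℂ) else 0) := by
    rw [ha]
    simp only [mul_sub]
    rw [sum_sub_distrib, sum_filter, ← sum_mul, hb]
    congr 1
    · refine sum_congr rfl fun n _ => ?_
      split_ifs <;> simp
    · split_ifs <;> ring
  rw [← h2]
  exact h1

/-- characters: the cut function -/
private lemma cf_cut (x y k : ℕ) (hy : y ≤ x) (f : ℕ → ℝ) (χ : DirichletCharacter ℂ k) :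
    ‖∑ n ∈ Icc 1 y, ((cut x f n : ℝ) : ℂ) * χ (n : ZMod k)‖ ^ 2 ≤
      2 * ‖∑ n ∈ Icc 1 y, ((f n : ℝ) : ℂ) * χ (n : ZMod k)‖ ^ 2 +
      2 * ‖∑ n ∈ Icc 1 (min y (x / 8)), ((f n : ℝ) : ℂ) * χ (n : ZMod k)‖ ^ 2 := by
  have h1 : ∑ n ∈ Icc 1 y, ((cut x f n : ℝ) : ℂ) * χ (n : ZMod k) =
      ∑ n ∈ Icc 1 y, ((f n : ℝ) : ℂ) * χ (n : ZMod k) -
      ∑ n ∈ Icc 1 (min y (x / 8)), ((f n : ℝ) : ℂ) * χ (n : ZMod k) := by
    have h2 : Icc 1 (min y (x / 8)) = (Icc 1 y).filter (fun n => n ≤ x / 8) := by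
      ext n
      simp only [mem_filter, mem_Icc]
      omega
    rw [h2, sum_filter, ← sum_sub_distrib]
    refine sum_congr rfl fun n hn => ?_
    rw [mem_Icc] at hn
    unfold cut
    by_cases h : n ≤ x / 8
    · rw [if_neg (by omega), if_pos h]
      simp
    · rw [if_pos (by omega), if_neg h]
      simp
  rw [h1]
  have h3 := norm_sub_le (∑ n ∈ Icc 1 y, ((f n : ℝ) : ℂ) * χ (n : ZMod k))
    (∑ n ∈ Icc 1 (min y (x / 8)), ((f n : ℝ) : ℂ) * χ (n : ZMod k))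
  calc _ ≤ (‖∑ n ∈ Icc 1 y, ((f n : ℝ) : ℂ) * χ (n : ZMod k)‖ +
        ‖∑ n ∈ Icc 1 (min y (x / 8)), ((f n : ℝ) : ℂ) * χ (n : ZMod k)‖) ^ 2 := by gcongr
    _ ≤ _ := by
        have := add_sq_le (a := ‖∑ n ∈ Icc 1 y, ((f n : ℝ) : ℂ) * χ (n : ZMod k)‖)
          (b := ‖∑ n ∈ Icc 1 (min y (x / 8)), ((f n : ℝ) : ℂ) * χ (n : ZMod k)‖)
        linarith

/-- grouping by residue classes -/
private lemma cf_group (k y : ℕ) (hk : 0 < k) (p : ℕ → Prop) [DecidablePred p] :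
    ∑ c ∈ (range k).filter (fun c => ¬ c.Coprime k),
      (((Icc 1 y).filter (fun n => n ≡ c [MOD k] ∧ p n)).card : ℝ) =
      (((Icc 1 y).filter (fun n => ¬ n.Coprime k ∧ p n)).card : ℝ) := by
  have hmaps : ∀ n ∈ (Icc 1 y).filter (fun n => ¬ n.Coprime k ∧ p n),
      n % k ∈ (range k).filter (fun c => ¬ c.Coprime k) := by
    intro n hn
    rw [mem_filter] at hn ⊢
    refine ⟨mem_range.2 (Nat.mod_lt _ hk), fun h => hn.2.1 ?_⟩
    exact (cf_cop' (Nat.mod_modEq n k).symm).2 h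
  rw [← Nat.cast_sum, card_eq_sum_card_fiberwise hmaps]
  norm_cast
  refine sum_congr rfl fun c hc => ?_
  congr 1
  ext n
  rw [mem_filter, mem_range] at hc
  simp only [mem_filter]
  constructor
  · rintro ⟨h1, h2, h3⟩
    refine ⟨⟨h1, fun h => hc.2 ((cf_cop' h2).1 h), h3⟩, ?_⟩
    have := h2
    unfold Nat.ModEq at this
    rw [this, Nat.mod_eq_of_lt hc.1]
  · rintro ⟨⟨h1, h2, h3⟩, h4⟩
    refine ⟨h1, ?_, h3⟩
    unfold Nat.ModEq
    rw [h4, Nat.mod_eq_of_lt hc.1]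

theorem class_F (x z K q Q s y : ℕ) [NeZero (q * s)] (Vb V δ F : ℝ) (f v : ℕ → ℝ) (hx : 3 ≤ x)
    (hz : 2 ≤ z) (hK : x < z ^ K) (hq : 1 ≤ q) (hs : 1 ≤ s) (hsQ : s ≤ Q)
    (hqs : q * s ≤ x) (hy : y ≤ x) (hF : 1 ≤ F) (hf : ∀ n, n ≤ x → |f n| ≤ F)
    (hfr : ∀ n, f n ≠ 0 → ∀ p : ℕ, p.Prime → p ∣ n → z ≤ p) (hv : BVar x V v) (hV0 : 0 ≤ V)
    (hδ : ∀ y' ≤ x, |∑ n ∈ Icc 1 y', (cut x f n - v n)| ≤ δ)
    (hV : ∀ y' ≤ x, ∑ χ ∈ (univ : Finset (DirichletCharacter ℂ (q * s))).erase 1,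
      ‖∑ n ∈ Icc 1 y', ((f n : ℝ) : ℂ) * χ (n : ZMod (q * s))‖ ^ 2 ≤ Vb) :
    ∑ c ∈ range (q * s), ‖∑ n ∈ (Icc 1 y).filter (fun n => n ≡ c [MOD q * s]),
      (FA q (cut x f) n - ((v n : ℝ) : ℂ) * TM q Q n)‖ ^ 2 ≤
    1000 * (K : ℝ) ^ 2 * F ^ 2 * (1 + V) ^ 2 * ((Vb + δ ^ 2 + ((x : ℝ) / z) ^ 2) / (q * s).totient +
      (x : ℝ) ^ 2 / (q * s * z) + (q * s) * ((q : ℝ) / q.totient * Q ^ 2) ^ 2) := by
  classical
  have hk : 0 < q * s := Nat.mul_pos hq hs
  set k : ℕ := q * s with hkdef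
  have hφ : 0 < k.totient := Nat.totient_pos.2 hk
  have hφ0 : (0 : ℝ) < k.totient := by exact_mod_cast hφ
  have hk0 : (0 : ℝ) < k := by exact_mod_cast hk
  have hφk : (k.totient : ℝ) ≤ k := by exact_mod_cast Nat.totient_le k
  have hz0 : (0 : ℝ) < z := by exact_mod_cast (by omega : 0 < z)
  have hx0 : (0 : ℝ) < x := by exact_mod_cast (by omega : 0 < x)
  have hK1 : 1 ≤ K := by
    rcases Nat.eq_zero_or_pos K with h | h
    · rw [h, pow_zero] at hK; omega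
    · exact h
  have hK1' : (1 : ℝ) ≤ K := by exact_mod_cast hK1
  have hF0 : 0 < F := by linarith
  have hVb : 0 ≤ Vb := le_trans (sum_nonneg fun _ _ => by positivity) (hV 0 (Nat.zero_le x))
  have hδ0 : 0 ≤ δ := (abs_nonneg _).trans (hδ 0 (Nat.zero_le x))
  set W : ℝ := 2 * V * (4 * ((q : ℝ) / q.totient) * (Q : ℝ) ^ 2) with hW
  have hW0 : 0 ≤ W := by positivity
  set g : ℕ → ℝ := cut x f with hg
  have hgF : ∀ n, |g n| ≤ F := by
    intro n
    rw [hg]
    unfold cut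
    split_ifs with h
    · exact hf n h.2
    · rw [abs_zero]; linarith
  set h : ℕ → ℂ := fun c => ∑ n ∈ (Icc 1 y).filter (fun n => n ≡ c [MOD k]),
    (FA q g n - ((v n : ℝ) : ℂ) * TM q Q n) with hh
  -- the number of exceptional integers
  set Nb : ℝ := K * ((x : ℝ) / z) with hNb
  have hNb0 : 0 ≤ Nb := by positivity
  have hcount : (((Icc 1 y).filter (fun n => ¬ n.Coprime k ∧ f n ≠ 0)).card : ℝ) ≤ Nb := by
    refine cf_count x z K k hz hK hk.ne' hqs _ ?_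
    intro n hn
    rw [mem_filter, mem_Icc] at hn
    exact ⟨hn.1.1, hn.1.2.trans hy, hn.2.1, hfr n hn.2.2⟩
  -- split
  have hsplit : ∀ c, h c = ∑ n ∈ (Icc 1 y).filter (fun n => n ≡ c [MOD k]), FA q g n -
      ∑ n ∈ (Icc 1 y).filter (fun n => n ≡ c [MOD k]), ((v n : ℝ) : ℂ) * TM q Q n := by
    intro c
    rw [hh]
    simp only
    rw [sum_sub_distrib]
  set N : ℕ → ℝ := fun c => (((Icc 1 y).filter (fun n => n ≡ c [MOD k] ∧ f n ≠ 0)).card : ℝ) with hN
  have hN0 : ∀ c, 0 ≤ N c := fun c => by rw [hN]; positivity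
  -- classes not coprime to `k`
  have hnc : ∀ c, ¬ c.Coprime k → ‖h c‖ ^ 2 ≤ 2 * (F ^ 2 * (2 * x / k) * N c) + 2 * W ^ 2 := by
    intro c hc
    by_cases hcq : c.Coprime q
    · have h1 := cf_TM x q Q s c y hq hs hsQ hy hcq v V hv
      rw [← hkdef, if_neg hc, sub_zero, ← hW] at h1
      have h2 : ‖∑ n ∈ (Icc 1 y).filter (fun n => n ≡ c [MOD k]), FA q g n‖ ≤ F * N c := by
        have h3 : ∑ n ∈ (Icc 1 y).filter (fun n => n ≡ c [MOD k]), FA q g n =
            ∑ n ∈ (Icc 1 y).filter (fun n => n ≡ c [MOD k] ∧ f n ≠ 0), FA q g n := by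
          symm
          apply sum_subset
          · intro n hn
            rw [mem_filter] at hn ⊢
            exact ⟨hn.1, hn.2.1⟩
          · intro n hn hn'
            rw [mem_filter] at hn hn'
            have h4 : f n = 0 := by
              by_contra h5
              exact hn' ⟨hn.1, hn.2, h5⟩
            have h6 : g n = 0 := by
              rw [hg]
              unfold cut
              rw [h4]
              simp
            unfold FA
            rw [h6]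
            simp
        rw [h3]
        refine (norm_sum_le _ _).trans ?_
        calc ∑ n ∈ (Icc 1 y).filter (fun n => n ≡ c [MOD k] ∧ f n ≠ 0), ‖FA q g n‖
            ≤ ∑ n ∈ (Icc 1 y).filter (fun n => n ≡ c [MOD k] ∧ f n ≠ 0), F := by
              refine sum_le_sum fun n _ => ?_
              unfold FA
              split_ifs
              · rw [Complex.norm_real, Real.norm_eq_abs]
                exact hgF n
              · rw [norm_zero]; linarith
          _ = F * N c := by rw [sum_const, nsmul_eq_mul, hN]; ring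
      have h3 : N c ≤ 2 * x / k := by
        have h4 : N c ≤ (y : ℝ) / k + 1 := by
          refine le_trans ?_ (cf_class_card k c y hk)
          rw [hN]
          simp only
          exact_mod_cast card_le_card (fun n hn => by
            rw [mem_filter] at hn ⊢
            exact ⟨hn.1, hn.2.1⟩)
        have h5 : (y : ℝ) / k ≤ x / k := by
          have : (y : ℝ) ≤ x := by exact_mod_cast hy
          gcongr
        have h6 : (1 : ℝ) ≤ x / k := by
          rw [le_div_iff₀ hk0, one_mul]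
          exact_mod_cast hqs
        calc N c ≤ (x : ℝ) / k + x / k := by linarith
          _ = 2 * x / k := by ring
      have h7 : ‖h c‖ ≤ F * N c + W := by
        rw [hsplit]
        exact (norm_sub_le _ _).trans (add_le_add h2 h1)
      calc ‖h c‖ ^ 2 ≤ (F * N c + W) ^ 2 := by gcongr
        _ ≤ 2 * ((F * N c) ^ 2 + W ^ 2) := add_sq_le
        _ = 2 * (F ^ 2 * N c * N c) + 2 * W ^ 2 := by ring
        _ ≤ 2 * (F ^ 2 * (2 * x / k) * N c) + 2 * W ^ 2 := by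
            have := hN0 c
            gcongr
    · have h1 : h c = 0 := by
        rw [hh]
        simp only
        refine sum_eq_zero fun n hn => ?_
        rw [mem_filter] at hn
        have : ¬ n.Coprime q := fun h' => hcq ((cf_cop hn.2).1 h')
        rw [FA, TM, if_neg this, if_neg this, mul_zero, sub_zero]
      rw [h1, norm_zero, zero_pow two_ne_zero]
      have := hN0 c
      positivity
  have hncsum : ∑ c ∈ (range k).filter (fun c => ¬ c.Coprime k), ‖h c‖ ^ 2 ≤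
      2 * (F ^ 2 * (2 * x / k) * Nb) + 2 * k * W ^ 2 := by
    calc ∑ c ∈ (range k).filter (fun c => ¬ c.Coprime k), ‖h c‖ ^ 2
        ≤ ∑ c ∈ (range k).filter (fun c => ¬ c.Coprime k),
          (2 * (F ^ 2 * (2 * x / k)) * N c + 2 * W ^ 2) := by
          refine sum_le_sum fun c hc => ?_
          refine (hnc c (mem_filter.1 hc).2).trans (le_of_eq (by ring))
      _ = 2 * (F ^ 2 * (2 * x / k)) * ∑ c ∈ (range k).filter (fun c => ¬ c.Coprime k), N c +
          ((range k).filter (fun c => ¬ c.Coprime k)).card * (2 * W ^ 2) := by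
          rw [sum_add_distrib, mul_sum, sum_const, nsmul_eq_mul]
      _ ≤ 2 * (F ^ 2 * (2 * x / k)) * Nb + k * (2 * W ^ 2) := by
          have h1 : ∑ c ∈ (range k).filter (fun c => ¬ c.Coprime k), N c ≤ Nb := by
            rw [hN]
            simp only
            rw [cf_group k y hk (fun n => f n ≠ 0)]
            exact hcount
          have h2 : (((range k).filter (fun c => ¬ c.Coprime k)).card : ℝ) ≤ k := by
            have := card_filter_le (range k) (fun c => ¬ c.Coprime k)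
            rw [card_range] at this
            exact_mod_cast this
          gcongr
      _ = _ := by ring
  -- classes coprime to `k`
  set P : ℂ := ∑ n ∈ (Icc 1 y).filter (fun n => n.Coprime k), ((g n : ℝ) : ℂ) with hP
  set D : ℕ → ℂ := fun c => ∑ n ∈ (Icc 1 y).filter (fun n => n ≡ c [MOD k]), ((g n : ℝ) : ℂ) -
    P / (k.totient : ℂ) with hD
  have hDsum : ∑ c ∈ (range k).filter (fun c => c.Coprime k), ‖D c‖ ^ 2 ≤
      4 * Vb / k.totient := by
    have h1 := parseval_gen k y (fun n => ((g n : ℝ) : ℂ))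
    rw [hD]
    simp only
    rw [hP]
    rw [h1]
    calc (1 / (k.totient : ℝ)) * ∑ χ ∈ (univ : Finset (DirichletCharacter ℂ k)).erase 1,
          ‖∑ n ∈ Icc 1 y, ((g n : ℝ) : ℂ) * χ (n : ZMod k)‖ ^ 2
        ≤ (1 / (k.totient : ℝ)) * ∑ χ ∈ (univ : Finset (DirichletCharacter ℂ k)).erase 1,
          (2 * ‖∑ n ∈ Icc 1 y, ((f n : ℝ) : ℂ) * χ (n : ZMod k)‖ ^ 2 +
          2 * ‖∑ n ∈ Icc 1 (min y (x / 8)), ((f n : ℝ) : ℂ) * χ (n : ZMod k)‖ ^ 2) := by
          refine mul_le_mul_of_nonneg_left (sum_le_sum fun χ _ => ?_) (by positivity)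
          exact cf_cut x y k hy f χ
      _ = (1 / (k.totient : ℝ)) * (2 * ∑ χ ∈ (univ : Finset (DirichletCharacter ℂ k)).erase 1,
          ‖∑ n ∈ Icc 1 y, ((f n : ℝ) : ℂ) * χ (n : ZMod k)‖ ^ 2 +
          2 * ∑ χ ∈ (univ : Finset (DirichletCharacter ℂ k)).erase 1,
          ‖∑ n ∈ Icc 1 (min y (x / 8)), ((f n : ℝ) : ℂ) * χ (n : ZMod k)‖ ^ 2) := by
          rw [sum_add_distrib, mul_sum, mul_sum]
      _ ≤ (1 / (k.totient : ℝ)) * (2 * Vb + 2 * Vb) := by
          have h2 := hV y hy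
          have h3 := hV (min y (x / 8)) ((min_le_left _ _).trans hy)
          gcongr
      _ = 4 * Vb / k.totient := by ring
  have hPg : ‖P - ∑ n ∈ Icc 1 y, ((g n : ℝ) : ℂ)‖ ≤ F * Nb := by
    have h1 : P - ∑ n ∈ Icc 1 y, ((g n : ℝ) : ℂ) =
        - ∑ n ∈ (Icc 1 y).filter (fun n => ¬ n.Coprime k ∧ f n ≠ 0), ((g n : ℝ) : ℂ) := by
      have h2 : ∑ n ∈ (Icc 1 y).filter (fun n => ¬ n.Coprime k), ((g n : ℝ) : ℂ) =
          ∑ n ∈ (Icc 1 y).filter (fun n => ¬ n.Coprime k ∧ f n ≠ 0), ((g n : ℝ) : ℂ) := by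
        symm
        apply sum_subset
        · intro n hn
          rw [mem_filter] at hn ⊢
          exact ⟨hn.1, hn.2.1⟩
        · intro n hn hn'
          rw [mem_filter] at hn hn'
          have h4 : f n = 0 := by
            by_contra h5
            exact hn' ⟨hn.1, hn.2, h5⟩
          have h6 : g n = 0 := by
            rw [hg]
            unfold cut
            rw [h4]
            simp
          rw [h6]
          simp
      rw [← h2, hP, ← sum_filter_add_sum_filter_not (Icc 1 y) (fun n => n.Coprime k)]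
      ring
    rw [h1, norm_neg]
    refine (norm_sum_le _ _).trans ?_
    calc ∑ n ∈ (Icc 1 y).filter (fun n => ¬ n.Coprime k ∧ f n ≠ 0), ‖((g n : ℝ) : ℂ)‖
        ≤ ∑ n ∈ (Icc 1 y).filter (fun n => ¬ n.Coprime k ∧ f n ≠ 0), F := by
          refine sum_le_sum fun n _ => ?_
          rw [Complex.norm_real, Real.norm_eq_abs]
          exact hgF n
      _ = F * (((Icc 1 y).filter (fun n => ¬ n.Coprime k ∧ f n ≠ 0)).card : ℝ) := by
          rw [sum_const, nsmul_eq_mul]; ring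
      _ ≤ F * Nb := by gcongr
  have hgv : ‖∑ n ∈ Icc 1 y, ((g n : ℝ) : ℂ) - ∑ n ∈ Icc 1 y, ((v n : ℝ) : ℂ)‖ ≤ δ := by
    have h1 := hδ y hy
    have h2 : ∑ n ∈ Icc 1 y, ((g n : ℝ) : ℂ) - ∑ n ∈ Icc 1 y, ((v n : ℝ) : ℂ) =
        ((∑ n ∈ Icc 1 y, (g n - v n) : ℝ) : ℂ) := by
      rw [sum_sub_distrib]
      push_cast
      rfl
    rw [h2, Complex.norm_real, Real.norm_eq_abs]
    exact h1
  have hcop : ∀ c, c.Coprime k → ‖h c‖ ^ 2 ≤
      4 * (‖D c‖ ^ 2 + (F * Nb / k.totient) ^ 2 + (δ / k.totient) ^ 2 + W ^ 2) := by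
    intro c hc
    have hcq : c.Coprime q := Nat.Coprime.coprime_dvd_right (Dvd.intro s rfl) hc
    have h1 := cf_TM x q Q s c y hq hs hsQ hy hcq v V hv
    rw [← hkdef, if_pos hc, ← hW] at h1
    have h2 : ∑ n ∈ (Icc 1 y).filter (fun n => n ≡ c [MOD k]), FA q g n =
        ∑ n ∈ (Icc 1 y).filter (fun n => n ≡ c [MOD k]), ((g n : ℝ) : ℂ) := by
      refine sum_congr rfl fun n hn => ?_
      rw [mem_filter] at hn
      rw [FA, if_pos ((cf_cop hn.2).2 hcq)]
    have h3 : h c = D c + (P - ∑ n ∈ Icc 1 y, ((g n : ℝ) : ℂ)) / (k.totient : ℂ) +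
        (∑ n ∈ Icc 1 y, ((g n : ℝ) : ℂ) - ∑ n ∈ Icc 1 y, ((v n : ℝ) : ℂ)) / (k.totient : ℂ) +
        -(∑ n ∈ (Icc 1 y).filter (fun n => n ≡ c [MOD k]), ((v n : ℝ) : ℂ) * TM q Q n -
          (∑ n ∈ Icc 1 y, ((v n : ℝ) : ℂ)) / (k.totient : ℂ)) := by
      rw [hsplit, h2, hD]
      simp only
      ring
    have hφn : ‖(k.totient : ℂ)‖ = (k.totient : ℝ) := by simp
    have h4 : ‖h c‖ ≤ ‖D c‖ + F * Nb / k.totient + δ / k.totient + W := by
      rw [h3]
      refine (norm_add_le _ _).trans (add_le_add ((norm_add_le _ _).trans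
        (add_le_add ((norm_add_le _ _).trans (add_le_add le_rfl ?_)) ?_)) ?_)
      · rw [norm_div, hφn]
        gcongr
      · rw [norm_div, hφn]
        gcongr
      · rw [norm_neg]
        exact h1
    calc ‖h c‖ ^ 2 ≤ (‖D c‖ + F * Nb / k.totient + δ / k.totient + W) ^ 2 := by gcongr
      _ ≤ _ := cf_sq4 _ _ _ _
  have hcard : (((range k).filter (fun c => c.Coprime k)).card : ℝ) = k.totient := by
    have : (range k).filter (fun c => c.Coprime k) = (range k).filter (fun c => k.Coprime c) := by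
      refine filter_congr fun c _ => ?_
      exact Nat.coprime_comm
    rw [this]
    rfl
  have hcopsum : ∑ c ∈ (range k).filter (fun c => c.Coprime k), ‖h c‖ ^ 2 ≤
      16 * Vb / k.totient + 4 * (F * Nb) ^ 2 / k.totient + 4 * δ ^ 2 / k.totient +
        4 * k.totient * W ^ 2 := by
    calc ∑ c ∈ (range k).filter (fun c => c.Coprime k), ‖h c‖ ^ 2
        ≤ ∑ c ∈ (range k).filter (fun c => c.Coprime k), (4 * ‖D c‖ ^ 2 +
          4 * ((F * Nb / k.totient) ^ 2 + (δ / k.totient) ^ 2 + W ^ 2)) := by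
          refine sum_le_sum fun c hc => ?_
          exact (hcop c (mem_filter.1 hc).2).trans (le_of_eq (by ring))
      _ = 4 * ∑ c ∈ (range k).filter (fun c => c.Coprime k), ‖D c‖ ^ 2 +
          k.totient * (4 * ((F * Nb / k.totient) ^ 2 + (δ / k.totient) ^ 2 + W ^ 2)) := by
          rw [sum_add_distrib, mul_sum, sum_const, nsmul_eq_mul, hcard]
      _ ≤ 4 * (4 * Vb / k.totient) +
          k.totient * (4 * ((F * Nb / k.totient) ^ 2 + (δ / k.totient) ^ 2 + W ^ 2)) := by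
          gcongr
      _ = _ := by
          field_simp
          ring
  have htot : ∑ c ∈ range k, ‖h c‖ ^ 2 ≤
      16 * Vb / k.totient + 4 * (F * Nb) ^ 2 / k.totient + 4 * δ ^ 2 / k.totient +
        4 * k * W ^ 2 + (2 * (F ^ 2 * (2 * x / k) * Nb) + 2 * k * W ^ 2) := by
    rw [← sum_filter_add_sum_filter_not (range k) (fun c => c.Coprime k)]
    refine add_le_add (hcopsum.trans ?_) hncsum
    gcongr
  refine htot.trans ?_
  set w : ℝ := (q : ℝ) / q.totient * (Q : ℝ) ^ 2 with hw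
  have hw0 : 0 ≤ w := by positivity
  have hWw : W = 8 * V * w := by rw [hW, hw]; ring
  have hkc : ((q : ℝ) * s) = k := by rw [hkdef]; push_cast; ring
  rw [hkc]
  set A : ℝ := (K : ℝ) ^ 2 * F ^ 2 * (1 + V) ^ 2 with hA
  have hA1 : 1 ≤ A := by
    have h1 : 1 ≤ (K : ℝ) ^ 2 := one_le_pow₀ hK1'
    have h2 : 1 ≤ F ^ 2 := one_le_pow₀ hF
    have h3 : 1 ≤ (1 + V) ^ 2 := one_le_pow₀ (by linarith)
    have h4 : 1 ≤ (K : ℝ) ^ 2 * F ^ 2 := one_le_mul_of_one_le_of_one_le h1 h2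
    exact one_le_mul_of_one_le_of_one_le h4 h3
  have hAK : (K : ℝ) ^ 2 * F ^ 2 ≤ A := by
    have h3 : 1 ≤ (1 + V) ^ 2 := one_le_pow₀ (by linarith)
    exact le_mul_of_one_le_right (by positivity) h3
  have hAK2 : (K : ℝ) * F ^ 2 ≤ A := by
    refine le_trans ?_ hAK
    have : (K : ℝ) ≤ (K : ℝ) ^ 2 := by nlinarith
    gcongr
  have hAV : V ^ 2 ≤ A := by
    have h1 : 1 ≤ (K : ℝ) ^ 2 := one_le_pow₀ hK1'
    have h2 : 1 ≤ F ^ 2 := one_le_pow₀ hF
    have h4 : 1 ≤ (K : ℝ) ^ 2 * F ^ 2 := one_le_mul_of_one_le_of_one_le h1 h2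
    have h5 : V ^ 2 ≤ (1 + V) ^ 2 := by nlinarith
    calc V ^ 2 ≤ (1 + V) ^ 2 := h5
      _ ≤ _ := le_mul_of_one_le_left (by positivity) h4
  set t1 : ℝ := Vb / k.totient with ht1
  set t2 : ℝ := ((x : ℝ) / z) ^ 2 / k.totient with ht2
  set t3 : ℝ := δ ^ 2 / k.totient with ht3
  set t4 : ℝ := (x : ℝ) ^ 2 / (k * z) with ht4
  set t5 : ℝ := (k : ℝ) * w ^ 2 with ht5
  have p1 : 0 ≤ t1 := by positivity
  have p2 : 0 ≤ t2 := by positivity
  have p3 : 0 ≤ t3 := by positivity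
  have p4 : 0 ≤ t4 := by positivity
  have p5 : 0 ≤ t5 := by positivity
  have e1 : 16 * Vb / k.totient + 4 * (F * Nb) ^ 2 / k.totient + 4 * δ ^ 2 / k.totient +
      4 * k * W ^ 2 + (2 * (F ^ 2 * (2 * x / k) * Nb) + 2 * k * W ^ 2) =
      16 * t1 + 4 * ((K : ℝ) ^ 2 * F ^ 2) * t2 + 4 * t3 + 4 * ((K : ℝ) * F ^ 2) * t4 +
        384 * V ^ 2 * t5 := by
    rw [ht1, ht2, ht3, ht4, ht5, hWw, hNb]
    field_simp
    ring
  have e2 : 1000 * (K : ℝ) ^ 2 * F ^ 2 * (1 + V) ^ 2 *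
      ((Vb + δ ^ 2 + ((x : ℝ) / z) ^ 2) / k.totient + (x : ℝ) ^ 2 / (k * z) + k * w ^ 2) =
      1000 * A * (t1 + t3 + t2 + t4 + t5) := by
    rw [ht1, ht2, ht3, ht4, ht5, hA]
    ring
  rw [e1, e2]
  have q1 : 16 * t1 ≤ 1000 * A * t1 := by gcongr; linarith
  have q2 : 4 * ((K : ℝ) ^ 2 * F ^ 2) * t2 ≤ 1000 * A * t2 := by gcongr; linarith
  have q3 : 4 * t3 ≤ 1000 * A * t3 := by gcongr; linarith
  have q4 : 4 * ((K : ℝ) * F ^ 2) * t4 ≤ 1000 * A * t4 := by gcongr; linarith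
  have q5 : 384 * V ^ 2 * t5 ≤ 1000 * A * t5 := by gcongr; linarith
  linarith

end Pool.Agent.HS
end

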