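import Mathlib
import Pool.Agent.Work.BV.GaussLS
import Pool.Agent.Work.BV.Reduce
import Pool.Agent.Work.BV.SW
import Pool.Agent.Work.GBM.C01
import Pool.Agent.Work.GBM.C02
import Pool.Agent.Work.GBM.C08
import Pool.Agent.Work.GBM.C09
import Pool.Agent.Work.GBM.C12
import Pool.Agent.Work.GBM.C13
import Pool.Agent.Work.GBM.C14
import Pool.Agent.Work.GBM.C16
import Pool.Agent.Work.GBM.C22
import Pool.Agent.Work.GBM.C23
import Pool.Agent.Work.GBM.C24
import Pool.Agent.Work.Shared.PNT.Tauber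

section
/-! # Module SupN

Copy of HS/SupF with `z = zx (9/11) x`, `D0 = ⌈x^(6/11)⌉`, `w₂ = w z ≤ 4 x^(κ + 2/11)`, `D = w² D0 ≤ 8 x^(2κ + 6/11)`. `aa_ctl (9/11) κ` twice. (1) minor arcs: `Bm = c_m + B'' + 2` gives `B'm`; cells in `ctl_minorN` (`η₁ = 1/11`):
`η = L^(-e)`, `e = 2 (2 B'm + 4 + c_m + B'' + 3)`; `B₁ = 4 (2 B'm + 4 + 2 e + c_m + B'' + 3)` (`s > L^B₁`: `x²/(q s^(1/4)) ≤ (x²/q) L^(-B₁/4)`, `s x ≤ (x²/q) L^(-B₁)`, `x²/(q w₁)`, `x w₂/q`: powers of `x`). (2) `B₂ = B₁`, `S = x/(q L^B₁)`: for `s > Q ≥ L^B₁`: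
`1/(s S) ≤ q/x` and `≤ 1/(2 s Q)`. Cases `s ≤ Q` / `s > Q` (`Q = ⌈L^B₁⌉`, so `s ≤ L^(B₁+1)` in `GoodF`, `goodF_all (9/11) κ` with `B₁ + 1`). Major arcs: `E = B'' + 2 B₁ + 2`, `ctl_varN` with `Δ = x^(ε/4)`, `ρ`, `η` as in SupF: `k = q s ≤ x^(10/11 - ε) L^(B₁+1)`:
`k D² ≤ x^(2 - ε/2)`, `Δ⁴ w₂^5 k^(9/2)/x³ ≤ x^(2 + ε + 5κ - 4.5 ε + o(1))`, `Δ⁴ k^(11/2)/x³ ≤ x^(2 + ε - 5.5 ε + o(1))`. Model on the minor arcs: `VV_le`, `SupFaux.abel`, `T_minor2` at every `y ≤ x`. -/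

namespace Pool.Agent.HN

open Finset Filter Pool.Agent.BV Pool.Agent.HL Pool.Agent.HS

theorem sup_N (κ ε V : ℝ) (hκ : 0 < κ) (hκ1 : κ ≤ 1 / 100) (hε : 0 < ε) (hκε : 8 * κ ≤ ε)
    (hV : 0 < V) (B'' : ℕ) :
    ∃ B₁ B' B9 BD : ℕ, B'' ≤ B₁ ∧ ∀ A₁ : ℕ, ∃ x₁ : ℕ, ∀ x : ℕ, x₁ ≤ x →
    ∀ q : ℕ, 1 ≤ q → (q : ℝ) ≤ (x : ℝ) ^ (10 / 11 - ε) →
    GoodF x (wk κ x) (wk κ x * zx (9 / 11) x) (JJ x B') B9
      (AJ (y0 x) (zx (9 / 11) x) (wk κ x) (1 / (Real.log x) ^ B')) ((Real.log x) ^ A₁)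
      ((Real.log x) ^ (B₁ + 1)) q →
    ∀ cc v : ℕ → ℝ, Wt (zx (9 / 11) x) ⌈(x : ℝ) ^ (6 / 11 : ℝ)⌉₊ cc → BVar x V v →
    (∀ y ≤ x, |∑ n ∈ Icc 1 y, (cut x (aa cc (zx (9 / 11) x)) n - v n)| ≤
      (x : ℝ) / (Real.log x) ^ BD) →
    ∀ α : ℝ, VV q x (fun n => FA q (cut x (aa cc (zx (9 / 11) x))) n -
      ((v n : ℝ) : ℂ) * TM q ⌈(Real.log x) ^ B₁⌉₊ n) α ≤
      (x : ℝ) ^ 2 / (q * (Real.log x) ^ B'') := by
  have hθ : (1 : ℝ) / 2 ≤ 9 / 11 := by norm_num
  have hθ1 : (9 : ℝ) / 11 < 1 := by norm_num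
  have hκ8 : κ ≤ 1 / 8 := by linarith
  obtain ⟨Cm, cm, hCm, hmin⟩ := ctl_minorN (1 / 11) (by norm_num)
  obtain ⟨Cv, cv, hCv, hvar⟩ := ctl_varN
  obtain ⟨CT, hCT, hTm⟩ := T_minor2
  obtain ⟨Bp, xa, hxa⟩ := aa_ctl (9 / 11) κ hθ hθ1 hκ hκ8 (cm + B'' + 2)
  set e₀ : ℕ := 2 * Bp + 4 + cm + B'' + 3 with he₀
  set e1 : ℕ := 2 * Bp + 4 + 4 * e₀ + cm + B'' + 3 with he1
  set B₁ : ℕ := 4 * e1 with hB₁
  set E : ℕ := B'' + 2 * B₁ + 2 with hE
  obtain ⟨B', xb, hxb⟩ := aa_ctl (9 / 11) κ hθ hθ1 hκ hκ8 (E + cv + 1)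
  set b₃ : ℕ := 2 * B' + 2 + E + cv + 1 with hb₃
  refine ⟨B₁, B', 3 * b₃, E, by omega, fun A₁ => ?_⟩
  obtain ⟨xc, hxc⟩ := goodF_all (9 / 11) κ hθ hθ1 hκ hκ8 B' A₁ (B₁ + 1) (3 * b₃)
  set K : ℕ := 11 with hK
  set G : ℝ := 1000 * (K : ℝ) ^ 2 * (2 ^ K) ^ 2 * (1 + V) ^ 2 with hG
  have hG0 : 0 < G := by
    rw [hG, hK]
    positivity
  have hev : ∀ᶠ x : ℕ in atTop, ∀ q : ℕ, 1 ≤ q → (q : ℝ) ≤ (x : ℝ) ^ (10 / 11 - ε) →
      GoodF x (wk κ x) (wk κ x * zx (9 / 11) x) (JJ x B') (3 * b₃)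
        (AJ (y0 x) (zx (9 / 11) x) (wk κ x) (1 / (Real.log x) ^ B')) ((Real.log x) ^ A₁)
        ((Real.log x) ^ (B₁ + 1)) q →
      ∀ cc v : ℕ → ℝ, Wt (zx (9 / 11) x) ⌈(x : ℝ) ^ (6 / 11 : ℝ)⌉₊ cc → BVar x V v →
      (∀ y ≤ x, |∑ n ∈ Icc 1 y, (cut x (aa cc (zx (9 / 11) x)) n - v n)| ≤
        (x : ℝ) / (Real.log x) ^ E) →
      ∀ α : ℝ, VV q x (fun n => FA q (cut x (aa cc (zx (9 / 11) x))) n -
        ((v n : ℝ) : ℂ) * TM q ⌈(Real.log x) ^ B₁⌉₊ n) α ≤
        (x : ℝ) ^ 2 / (q * (Real.log x) ^ B'') := by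
    filter_upwards [eventually_ge_atTop xa, eventually_ge_atTop xb, eventually_ge_atTop xc,
      eventually_ge_atTop 24, evt_log 1000,
      evt_log (800 * Cm), evt_log (66 * Cv), evt_log (1148 * G), evt_log (2 ^ 17 * (CT * V) ^ 2),
      evt_pow 4 (2 * B₁) (1 / 11) (by norm_num), evt_pow 2 (2 * e₀ + e1 + 2 * b₃) κ hκ,
      evt_pow 65 (B₁ + E + cv + 1) (ε / 4) (by linarith), evt_pow 8 0 (1 / 8) (by norm_num),
      evt_pow 2 (2 * e₀) (1 / 11) (by norm_num), evt_pow 4 e1 (1 / 2) (by norm_num),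
      evt_pow 64 e1 (ε / 2) (by linarith), evt_pow 1 (8 * B₁) (2 / 11) (by norm_num),
      evt_pow 4 0 (ε / 8) (by linarith), evt_pow 3 (5 * b₃) (ε / 4) (by linarith),
      evt_pow 1 E (1 / 11) (by norm_num), evt_pow 1024 (6 * B₁ + 2 + E) (2 / 11) (by norm_num)]
      with x hxxa hxxb hxxc hx24 hL1000 hLCm hLCv hLG hLT hp1 hp2 hp3 hp5 hp6 hp7 hp8 hp9 hp10
        hp11 hp12 hp13
    intro q hq hqx hgood cc v hcc hv hδ α
    set X : ℝ := (x : ℝ) with hX
    set L : ℝ := Real.log X with hL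
    have hx3 : 3 ≤ x := by omega
    have hX24 : (24 : ℝ) ≤ X := by rw [hX]; exact_mod_cast hx24
    have toN : ∀ n : ℕ, (n : ℝ) ≤ X → n ≤ x := fun n h => by
      rw [hX] at h; exact_mod_cast h
    have hX0 : 0 < X := by linarith
    have hX1 : 1 ≤ X := by linarith
    have hL0 : 0 < L := by linarith
    have hL1 : 1 ≤ L := by linarith
    have hqR : (1 : ℝ) ≤ q := by exact_mod_cast hq
    have hq0 : (0 : ℝ) < q := by linarith
    rw [pow_zero, mul_one] at hp5 hp10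
    rw [one_mul] at hp9 hp12
    have mono : ∀ a b : ℝ, a ≤ b → X ^ a ≤ X ^ b := fun a b h =>
      Real.rpow_le_rpow_of_exponent_le hX1 h
    have hqθ : (q : ℝ) ≤ X ^ (10 / 11 : ℝ) := hqx.trans (mono _ _ (by linarith))
    have hqX : (q : ℝ) ≤ X := by
      calc (q : ℝ) ≤ X ^ (10 / 11 : ℝ) := hqθ
        _ ≤ X ^ (1 : ℝ) := mono _ _ (by norm_num)
        _ = X := Real.rpow_one X
    have hXq : X ^ (1 / 11 : ℝ) ≤ X / q := by
      rw [le_div_iff₀ hq0]
      calc X ^ (1 / 11 : ℝ) * q ≤ X ^ (1 / 11 : ℝ) * X ^ (10 / 11 : ℝ) := by gcongr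
        _ = X := by rw [← Real.rpow_add hX0]; norm_num
    have hLB₁ : 1 ≤ L ^ B₁ := one_le_pow₀ hL1
    -- sizes
    obtain ⟨hw1, hw2, hz1, hz2, -⟩ := SupFaux.sizes (9 / 11) κ x hθ hθ1 hκ (by linarith) (by omega)
    rw [← hX] at hw1 hw2 hz1 hz2
    rw [show (1 : ℝ) - 9 / 11 = 2 / 11 by norm_num] at hz1 hz2
    set w : ℕ := wk κ x with hw
    set z : ℕ := zx (9 / 11) x with hz
    set D0 : ℕ := ⌈X ^ (6 / 11 : ℝ)⌉₊ with hD0
    have hD1 : (D0 : ℝ) ≤ 2 * X ^ (6 / 11 : ℝ) := by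
      have h1 : 1 ≤ X ^ (6 / 11 : ℝ) := Real.one_le_rpow hX1 (by norm_num)
      have h2 := Nat.ceil_lt_add_one (show 0 ≤ X ^ (6 / 11 : ℝ) by linarith)
      rw [← hD0] at h2
      linarith
    set D : ℕ := w ^ 2 * D0 with hD
    set w₂ : ℕ := w * z with hw₂
    have hXκ : 0 < X ^ κ := by positivity
    have hw0 : (0 : ℝ) < w := hXκ.trans_le hw1
    have hz0 : (0 : ℝ) < z := lt_of_lt_of_le (by positivity) hz1
    have hw₂R : (w₂ : ℝ) ≤ 4 * X ^ (κ + 2 / 11) := by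
      calc (w₂ : ℝ) = w * z := by rw [hw₂]; push_cast; ring
        _ ≤ (2 * X ^ κ) * (2 * X ^ (2 / 11 : ℝ)) := by gcongr
        _ = 4 * (X ^ κ * X ^ (2 / 11 : ℝ)) := by ring
        _ = 4 * X ^ (κ + 2 / 11) := by rw [← Real.rpow_add hX0]
    have hDR : (D : ℝ) ≤ 8 * X ^ (2 * κ + 6 / 11) := by
      calc (D : ℝ) = (w : ℝ) ^ 2 * D0 := by rw [hD]; push_cast; ring
        _ ≤ (2 * X ^ κ) ^ 2 * (2 * X ^ (6 / 11 : ℝ)) := by gcongr
        _ = 8 * ((X ^ κ) ^ 2 * X ^ (6 / 11 : ℝ)) := by ring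
        _ = 8 * X ^ (2 * κ + 6 / 11) := by
            rw [← Real.rpow_natCast (X ^ κ) 2, ← Real.rpow_mul hX0.le, ← Real.rpow_add hX0]
            congr 2
            push_cast
            ring
    have hD2 : (D : ℝ) ^ 2 ≤ 64 * X ^ (4 * κ + 12 / 11) := by
      calc (D : ℝ) ^ 2 ≤ (8 * X ^ (2 * κ + 6 / 11)) ^ 2 := by gcongr
        _ = 64 * (X ^ (2 * κ + 6 / 11)) ^ 2 := by ring
        _ = 64 * X ^ (4 * κ + 12 / 11) := by
            rw [← Real.rpow_natCast (X ^ (2 * κ + 6 / 11)) 2, ← Real.rpow_mul hX0.le]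
            congr 2
            push_cast
            ring
    have hDX : (D : ℝ) ≤ X := by
      calc (D : ℝ) ≤ 8 * X ^ (2 * κ + 6 / 11) := hDR
        _ ≤ X ^ (1 / 8 : ℝ) * X ^ (7 / 8 : ℝ) :=
            mul_le_mul hp5 (mono _ _ (by linarith)) (by positivity) (by positivity)
        _ = X := by rw [← Real.rpow_add hX0]; norm_num
    have hDx : D ≤ x := toN _ hDX
    have hw₂X2 : (w₂ : ℝ) ≤ X ^ (1 / 2 : ℝ) := by
      calc (w₂ : ℝ) ≤ 4 * X ^ (κ + 2 / 11) := hw₂R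
        _ ≤ X ^ (1 / 8 : ℝ) * X ^ (3 / 8 : ℝ) :=
            mul_le_mul (by linarith) (mono _ _ (by linarith)) (by positivity) (by positivity)
        _ = X ^ (1 / 2 : ℝ) := by rw [← Real.rpow_add hX0]; norm_num
    have hw₂X : (w₂ : ℝ) ≤ X := by
      calc (w₂ : ℝ) ≤ X ^ (1 / 2 : ℝ) := hw₂X2
        _ ≤ X ^ (1 : ℝ) := mono _ _ (by norm_num)
        _ = X := Real.rpow_one X
    have hw₂x : w₂ ≤ x := toN _ hw₂X
    have hw1n : 1 ≤ w := by
      have : (0 : ℝ) < w := hw0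
      have : 0 < w := by exact_mod_cast this
      omega
    have hz1n : 1 ≤ z := by
      have : 0 < z := by exact_mod_cast hz0
      omega
    have hww₂ : w ≤ w₂ := by
      rw [hw₂]
      exact Nat.le_mul_of_pos_right _ (by omega)
    have hJle : ∀ b : ℕ, (JJ x b : ℝ) ≤ 3 * L ^ (b + 1) := by
      intro b
      have h1 : 1 ≤ L ^ (b + 1) := one_le_pow₀ hL1
      have h2 := Nat.ceil_lt_add_one (show 0 ≤ 2 * L ^ (b + 1) by positivity)
      unfold JJ
      rw [← hX, ← hL]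
      linarith
    -- S
    set S : ℝ := X / (q * L ^ B₁) with hS
    have hS0 : 0 < S := by positivity
    have hS4' : 4 * L ^ B₁ ≤ S := by
      have : S = X / q / L ^ B₁ := by rw [hS, div_div]
      rw [this, le_div_iff₀ (by positivity)]
      calc 4 * L ^ B₁ * L ^ B₁ = 4 * L ^ (2 * B₁) := by ring
        _ ≤ X ^ (1 / 11 : ℝ) := hp1
        _ ≤ X / q := hXq
    have hS1 : 1 ≤ S := by linarith
    have hSX : S ≤ X := by
      rw [hS, div_le_iff₀ (by positivity)]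
      exact le_mul_of_one_le_right hX0.le (one_le_mul_of_one_le_of_one_le hqR hLB₁)
    set Q : ℕ := ⌈L ^ B₁⌉₊ with hQ
    have hQge : L ^ B₁ ≤ Q := Nat.le_ceil _
    have hQle : (Q : ℝ) ≤ 2 * L ^ B₁ := by
      have := Nat.ceil_lt_add_one (show 0 ≤ L ^ B₁ by positivity)
      rw [← hQ] at this
      linarith
    have hQ1 : 1 ≤ Q := by
      have : (1 : ℝ) ≤ Q := hLB₁.trans hQge
      exact_mod_cast this
    have hρ : (q : ℝ) / q.totient ≤ 4 * L := by
      have h1 := ratio_le q hq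
      have h2 : Real.log q ≤ L := Real.log_le_log hq0 hqX
      linarith
    have hρ0 : 0 ≤ (q : ℝ) / q.totient := by positivity
    -- Dirichlet
    have hSf : 0 < ⌊S⌋₊ := Nat.floor_pos.2 hS1
    obtain ⟨r, hr1, hr2⟩ := Real.exists_rat_abs_sub_le_and_den_le ((q : ℝ) * α) hSf
    set s : ℕ := r.den with hs
    have hs1 : 1 ≤ s := r.pos
    have hsR : (1 : ℝ) ≤ s := by exact_mod_cast hs1
    have hs0 : (0 : ℝ) < s := by linarith
    have hsS : (s : ℝ) ≤ S := by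
      calc (s : ℝ) ≤ (⌊S⌋₊ : ℝ) := by exact_mod_cast hr2
        _ ≤ S := Nat.floor_le hS0.le
    have hbs : IsCoprime r.num (s : ℤ) := by
      rw [Int.isCoprime_iff_gcd_eq_one]
      exact r.reduced
    have hrcast : (r : ℝ) = (r.num : ℝ) / s := by
      rw [hs]
      exact_mod_cast (Rat.num_div_den r).symm
    have hα : |(q : ℝ) * α - r.num / s| ≤ 1 / (s * S) := by
      rw [← hrcast]
      refine hr1.trans (div_le_div_of_nonneg_left zero_le_one (by positivity) ?_)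
      have h1 : S < ⌊S⌋₊ + 1 := Nat.lt_floor_add_one S
      rw [mul_comm]
      exact mul_le_mul_of_nonneg_right h1.le hs0.le
    have hqsB₁ : (q : ℝ) * s ≤ X / L ^ B₁ := by
      calc (q : ℝ) * s ≤ q * S := by gcongr
        _ = X / L ^ B₁ := by rw [hS]; field_simp
    by_cases hcase : s ≤ Q
    · -- major arcs
      have hsQR : (s : ℝ) ≤ 2 * L ^ B₁ := le_trans (by exact_mod_cast hcase) hQle
      have hsL : (s : ℝ) ≤ L ^ (B₁ + 1) := by
        refine hsQR.trans ?_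
        rw [pow_succ, mul_comm]
        exact mul_le_mul_of_nonneg_left (by linarith) (by positivity)
      have hqsR : (q : ℝ) * s ≤ X := hqsB₁.trans (div_le_self hX0.le hLB₁)
      have hqs : q * s ≤ x := toN _ (by push_cast; exact hqsR)
      have : NeZero (q * s) := ⟨by positivity⟩
      have hkε : (q : ℝ) * s ≤ X ^ (10 / 11 - 3 * ε / 4) := by
        calc (q : ℝ) * s ≤ X ^ (10 / 11 - ε) * (2 * L ^ B₁) := by gcongr
          _ ≤ X ^ (10 / 11 - ε) * X ^ (ε / 4) := by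
              refine mul_le_mul_of_nonneg_left ?_ (by positivity)
              refine le_trans ?_ hp3
              have h1 : L ^ B₁ ≤ L ^ (B₁ + E + cv + 1) := pow_le_pow_right₀ hL1 (by omega)
              have h0 : 0 ≤ L ^ (B₁ + E + cv + 1) := by positivity
              linarith
          _ = X ^ (10 / 11 - 3 * ε / 4) := by
              rw [← Real.rpow_add hX0]
              congr 1
              ring
      -- the variance
      obtain ⟨Bf, β, err, hctl, herr⟩ := hxb x hxxb D0 cc hcc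
      have hqL : (q : ℝ) * L ^ (B₁ + 1) ≤ X := by
        have h1 : L ^ (B₁ + 1) ≤ X / q := by
          calc L ^ (B₁ + 1) ≤ 4 * L ^ (2 * B₁) := by
                have : L ^ (B₁ + 1) ≤ L ^ (2 * B₁) := pow_le_pow_right₀ hL1 (by omega)
                have h0 : 0 ≤ L ^ (2 * B₁) := by positivity
                linarith
            _ ≤ X ^ (1 / 11 : ℝ) := hp1
            _ ≤ X / q := hXq
        rw [le_div_iff₀ hq0] at h1
        linarith
      have hchar := hxc x hxxc q hq hqL hgood s hs1 hsL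
      have hη0 : 0 < 1 / L ^ (2 * b₃) := by positivity
      have hη1 : 1 / L ^ (2 * b₃) ≤ 1 := by
        rw [div_le_one (by positivity)]
        exact one_le_pow₀ hL1
      have hηw : 2 ≤ 1 / L ^ (2 * b₃) * (w : ℝ) := by
        rw [one_div, ← div_eq_inv_mul, le_div_iff₀ (by positivity)]
        refine le_trans ?_ (hp2.trans hw1)
        have : L ^ (2 * b₃) ≤ L ^ (2 * e₀ + e1 + 2 * b₃) := pow_le_pow_right₀ hL1 (by omega)
        linarith
      have hkD : ((q * s : ℕ) : ℝ) * ((D : ℝ) ^ 2 + X) ≤ X ^ 2 / L ^ (E + cv + 1) := by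
        have h1 : (D : ℝ) ^ 2 + X ≤ 65 * X ^ (4 * κ + 12 / 11) := by
          have h2 : X ≤ X ^ (4 * κ + 12 / 11) := by
            calc X = X ^ (1 : ℝ) := (Real.rpow_one X).symm
              _ ≤ _ := mono _ _ (by linarith)
          linarith
        rw [le_div_iff₀ (by positivity)]
        calc ((q * s : ℕ) : ℝ) * ((D : ℝ) ^ 2 + X) * L ^ (E + cv + 1)
            ≤ X ^ (10 / 11 - 3 * ε / 4) * (65 * X ^ (4 * κ + 12 / 11)) * L ^ (B₁ + E + cv + 1) := by
              push_cast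
              have h3 : L ^ (E + cv + 1) ≤ L ^ (B₁ + E + cv + 1) := pow_le_pow_right₀ hL1 (by omega)
              gcongr
          _ = (65 * L ^ (B₁ + E + cv + 1)) * (X ^ (10 / 11 - 3 * ε / 4) *
              X ^ (4 * κ + 12 / 11)) := by ring
          _ ≤ X ^ (ε / 4) * (X ^ (10 / 11 - 3 * ε / 4) * X ^ (4 * κ + 12 / 11)) := by gcongr
          _ = X ^ (2 + 4 * κ - ε / 2) := by
              rw [← Real.rpow_add hX0, ← Real.rpow_add hX0]
              congr 1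
              ring
          _ ≤ X ^ (2 : ℝ) := mono _ _ (by linarith)
          _ = X ^ 2 := by rw [← Real.rpow_natCast]; norm_num
      have hw₂ε : (w₂ : ℝ) ≤ X ^ (2 / 11 + ε / 4) := by
        calc (w₂ : ℝ) ≤ 4 * X ^ (κ + 2 / 11) := hw₂R
          _ ≤ X ^ (ε / 8) * X ^ (κ + 2 / 11) := by gcongr
          _ = X ^ (ε / 8 + (κ + 2 / 11)) := by rw [← Real.rpow_add hX0]
          _ ≤ X ^ (2 / 11 + ε / 4) := mono _ _ (by linarith)
      have hΔ1 : 1 ≤ X ^ (ε / 4) := Real.one_le_rpow hX1 (by linarith)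
      have hlarge := SupNaux.large_arith X ((q * s : ℕ) : ℝ) w₂ ε (L ^ (5 * b₃)) hX1 hε
        (Nat.cast_nonneg _) (Nat.cast_nonneg _) (by positivity) (by push_cast; exact hkε) hw₂ε hp11
      have hVb : ∀ y' ≤ x, ∑ χ ∈ (univ : Finset (DirichletCharacter ℂ (q * s))).erase 1,
          ‖∑ n ∈ Icc 1 y', ((aa cc z n : ℝ) : ℂ) * χ (n : ZMod (q * s))‖ ^ 2 ≤ X ^ 2 / L ^ E := by
        intro y' hy'
        have h1 := hvar x D w w₂ (JJ x B') (q * s) (AJ (y0 x) z w (1 / L ^ B')) Bf β err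
          (aa cc z) (X / L ^ (E + cv + 1)) (1 / L ^ (2 * b₃)) (2 / L ^ (3 * b₃)) (X ^ (ε / 4))
          hctl herr hx3 hqs
          hDx hw1n hww₂ hw₂x hη0 hη1 hηw (by positivity) hΔ1
          ((univ : Finset (DirichletCharacter ℂ (q * s))).erase 1)
          (fun χ hχ => (mem_erase.1 hχ).1)
          (fun χ hχ j hj u hu1 hu2 => hchar χ (mem_erase.1 hχ).1 j hj u hu1 hu2) y' hy'
        refine h1.trans ?_
        rw [← hX, ← hL]
        exact SupNaux.var_arithN E cv B' b₃ Cv X L ((q * s : ℕ) : ℝ) D (JJ x B')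
          (X / L ^ (E + cv + 1)) (1 / L ^ (2 * b₃)) (2 / L ^ (3 * b₃)) _ _ hCv hL1000 hLCv hX1
          (Nat.cast_nonneg _) (by push_cast; exact hqsR) hb₃ rfl rfl rfl
          (Nat.cast_nonneg _) (hJle B') hkD hlarge
      have hz2n : 2 ≤ z := by
        have h1 : (4 : ℝ) ≤ z := by
          have h2 : 1 ≤ L ^ (2 * B₁) := one_le_pow₀ hL1
          calc (4 : ℝ) ≤ 4 * L ^ (2 * B₁) := by linarith
            _ ≤ X ^ (1 / 11 : ℝ) := hp1
            _ ≤ X ^ (2 / 11 : ℝ) := mono _ _ (by norm_num)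
            _ ≤ z := hz1
        have h2 : 4 ≤ z := by exact_mod_cast h1
        omega
      have hzK : x < z ^ K := by
        have h1 : X < (z : ℝ) ^ K := by
          calc X = X ^ (1 : ℝ) := (Real.rpow_one X).symm
            _ < X ^ (2 : ℝ) := Real.rpow_lt_rpow_of_exponent_lt (by linarith) (by norm_num)
            _ ≤ X ^ ((2 / 11 : ℝ) * K) := mono _ _ (by rw [hK]; norm_num)
            _ = (X ^ (2 / 11 : ℝ)) ^ K := by rw [Real.rpow_mul hX0.le, Real.rpow_natCast]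
            _ ≤ (z : ℝ) ^ K := by gcongr
        rw [hX] at h1
        exact_mod_cast h1
      have hFabs : ∀ n, n ≤ x → |aa cc z n| ≤ (2 : ℝ) ^ K := fun n hn =>
        aa_abs x z D0 K cc hcc hz2n hzK n hn
      have hcl : ∀ y ≤ x, ∑ c ∈ range (q * s), ‖∑ n ∈ (Icc 1 y).filter
          (fun n => n ≡ c [MOD q * s]), (FA q (cut x (aa cc z)) n -
            ((v n : ℝ) : ℂ) * TM q Q n)‖ ^ 2 ≤
          G * ((X ^ 2 / L ^ E + (X / L ^ E) ^ 2 + (X / z) ^ 2) / (q * s).totient +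
            X ^ 2 / (q * s * z) + (q * s) * ((q : ℝ) / q.totient * Q ^ 2) ^ 2) := by
        intro y hy
        exact class_F x z K q Q s y (X ^ 2 / L ^ E) V (X / L ^ E) (2 ^ K) (aa cc z) v hx3 hz2n hzK
          hq hs1 hcase hqs hy (one_le_pow₀ (by norm_num)) hFabs
          (fun n hn => aa_rough z D0 cc hcc n hn) hv hV.le hδ hVb
      have hΘ : |(q : ℝ) * α - r.num / s| ≤ 1 / S := by
        refine hα.trans ?_
        refine div_le_div_of_nonneg_left zero_le_one hS0 ?_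
        exact le_mul_of_one_le_left hS0.le hsR
      have h3 := major_gen (fun n => FA q (cut x (aa cc z)) n - ((v n : ℝ) : ℂ) * TM q Q n)
        x q s hq hs1 α (1 / S) _ r.num hΘ hcl
      rw [← hX] at h3
      have h4 : 2 * Real.pi * (1 / S) * X / q = 2 * Real.pi * L ^ B₁ := by
        rw [hS]
        field_simp
      rw [h4] at h3
      refine h3.trans ?_
      have hLE : L ^ E ≤ z := hp12.trans ((mono _ _ (by norm_num)).trans hz1)
      have hLE1 : 1 ≤ L ^ E := one_le_pow₀ hL1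
      have hz1R : (1 : ℝ) ≤ z := hLE1.trans hLE
      have htot : 0 < (q * s).totient := Nat.totient_pos.2 (Nat.mul_pos (by omega) (by omega))
      refine SupFaux.major_arith B'' B₁ E G X L q s ((q * s).totient : ℝ) z (X ^ 2 / L ^ E)
        ((X / L ^ E) ^ 2) (((q : ℝ) / q.totient * Q ^ 2) ^ 2) hG0 hL1000 hLG hX1 hqR hsR rfl hz0
        (by exact_mod_cast htot) ?_ le_rfl ?_ ?_ ?_ ?_
      · have h1 := ratio_le (q * s) (Nat.mul_pos (by omega) (by omega))
        have h2 : Real.log ((q * s : ℕ) : ℝ) ≤ L :=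
          Real.log_le_log (by push_cast; positivity) (by push_cast; exact hqsR)
        push_cast at h1 h2
        linarith
      · rw [div_pow]
        refine div_le_div_of_nonneg_left (by positivity) (by positivity) ?_
        rw [sq]
        exact le_mul_of_one_le_left (by positivity) hLE1
      · rw [div_pow]
        refine div_le_div_of_nonneg_left (by positivity) (by positivity) ?_
        rw [sq]
        exact hLE.trans (le_mul_of_one_le_left hz0.le hz1R)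
      · exact div_le_div_of_nonneg_left (by positivity) (by positivity) hLE
      · rw [le_div_iff₀ (by positivity)]
        have h2 : (q : ℝ) * s ≤ X ^ (10 / 11 : ℝ) * (2 * L ^ B₁) := by gcongr
        calc (q : ℝ) * s * (q * s * ((q : ℝ) / q.totient * Q ^ 2) ^ 2) * L ^ E
            ≤ (X ^ (10 / 11 : ℝ) * (2 * L ^ B₁)) * ((X ^ (10 / 11 : ℝ) * (2 * L ^ B₁)) *
              (4 * L * (2 * L ^ B₁) ^ 2) ^ 2) * L ^ E := by
              gcongr
          _ = (1024 * L ^ (6 * B₁ + 2 + E)) * (X ^ (10 / 11 : ℝ) * X ^ (10 / 11 : ℝ)) := by ring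
          _ ≤ X ^ (2 / 11 : ℝ) * (X ^ (10 / 11 : ℝ) * X ^ (10 / 11 : ℝ)) := by gcongr
          _ = X ^ 2 := by
              rw [← Real.rpow_add hX0, ← Real.rpow_add hX0, ← Real.rpow_natCast]
              congr 1
              norm_num
    · -- minor arcs
      push Not at hcase
      have hsL : L ^ B₁ < s := lt_of_le_of_lt hQge (by exact_mod_cast hcase)
      have hα2 : |(q : ℝ) * α - r.num / s| ≤ 1 / (s : ℝ) ^ 2 := by
        refine hα.trans ?_
        refine div_le_div_of_nonneg_left zero_le_one (by positivity) ?_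
        rw [sq]
        exact mul_le_mul_of_nonneg_left hsS hs0.le
      have hα3 : |(q : ℝ) * α - r.num / s| ≤ (q : ℝ) / X := by
        refine hα.trans ?_
        have e1 : 1 / (s * S) = (q : ℝ) / X * (L ^ B₁ / s) := by rw [hS]; field_simp
        rw [e1]
        refine mul_le_of_le_one_right (by positivity) ?_
        rw [div_le_one hs0]
        exact hsL.le
      have hα4 : |(q : ℝ) * α - r.num / s| ≤ 1 / (2 * s * Q) := by
        refine hα.trans ?_
        have hQ0 : (0 : ℝ) < Q := by exact_mod_cast hQ1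
        refine div_le_div_of_nonneg_left zero_le_one (by positivity) ?_
        have : 2 * (Q : ℝ) ≤ S := by linarith
        calc 2 * (s : ℝ) * Q = s * (2 * Q) := by ring
          _ ≤ s * S := mul_le_mul_of_nonneg_left this hs0.le
      have hqs8 : q * s ≤ x / 8 := by
        rw [Nat.le_div_iff_mul_le (by norm_num)]
        refine toN _ ?_
        push_cast
        have h1 : (1000 : ℝ) ≤ L ^ B₁ := by
          calc (1000 : ℝ) ≤ L ^ 1 := by rw [pow_one]; exact hL1000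
            _ ≤ L ^ B₁ := pow_le_pow_right₀ hL1 (by omega)
        have h2 : X / L ^ B₁ ≤ X / 1000 := by gcongr
        linarith
      have hqs : q * s ≤ x := hqs8.trans (Nat.div_le_self _ _)
      obtain ⟨Bf, β, err, hctl, herr⟩ := hxa x hxxa D0 cc hcc
      have hLe1 : L ^ e1 ≤ L ^ B₁ := pow_le_pow_right₀ hL1 (by omega)
      have hτ1 : 1 / (s : ℝ) ≤ 1 / L ^ e1 :=
        div_le_div_of_nonneg_left zero_le_one (by positivity) (hLe1.trans hsL.le)
      have hτ2 : (q : ℝ) * s / X ≤ 1 / L ^ e1 := by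
        rw [div_le_iff₀ hX0]
        calc (q : ℝ) * s ≤ X / L ^ B₁ := hqsB₁
          _ ≤ X / L ^ e1 := by gcongr
          _ = 1 / L ^ e1 * X := by ring
      have hτ3 : (q : ℝ) * (D : ℝ) ^ 2 / X ^ 2 ≤ 1 / L ^ e1 := by
        rw [div_le_div_iff₀ (by positivity) (by positivity), one_mul]
        calc (q : ℝ) * (D : ℝ) ^ 2 * L ^ e1
            ≤ X ^ (10 / 11 - ε) * (64 * X ^ (4 * κ + 12 / 11)) * L ^ e1 := by gcongr
          _ = (64 * L ^ e1) * (X ^ (10 / 11 - ε) * X ^ (4 * κ + 12 / 11)) := by ring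
          _ ≤ X ^ (ε / 2) * (X ^ (10 / 11 - ε) * X ^ (4 * κ + 12 / 11)) := by gcongr
          _ = X ^ (2 + 4 * κ - ε / 2) := by
              rw [← Real.rpow_add hX0, ← Real.rpow_add hX0]
              congr 1
              ring
          _ ≤ X ^ (2 : ℝ) := mono _ _ (by linarith)
          _ = X ^ 2 := by rw [← Real.rpow_natCast]; norm_num
      have hτ4 : 1 / (w : ℝ) ≤ 1 / L ^ e1 := by
        refine div_le_div_of_nonneg_left zero_le_one (by positivity) ?_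
        refine le_trans ?_ (hp2.trans hw1)
        have h1 : L ^ e1 ≤ L ^ (2 * e₀ + e1 + 2 * b₃) := pow_le_pow_right₀ hL1 (by omega)
        have h0 : 0 ≤ L ^ (2 * e₀ + e1 + 2 * b₃) := by positivity
        linarith
      have hτ5 : (w₂ : ℝ) / X ≤ 1 / L ^ e1 := by
        rw [div_le_div_iff₀ hX0 (by positivity), one_mul]
        calc (w₂ : ℝ) * L ^ e1 ≤ X ^ (1 / 2 : ℝ) * (4 * L ^ e1) := by
              have h0 : 0 ≤ L ^ e1 := by positivity
              exact mul_le_mul hw₂X2 (by linarith) h0 (by positivity)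
          _ ≤ X ^ (1 / 2 : ℝ) * X ^ (1 / 2 : ℝ) := by gcongr
          _ = X := by rw [← Real.rpow_add hX0]; norm_num
      have hτ6 : 1 / (s : ℝ) ^ (1 / 4 : ℝ) ≤ 1 / L ^ e1 := by
        refine div_le_div_of_nonneg_left zero_le_one (by positivity) ?_
        have h1 : (L ^ B₁) ^ (1 / 4 : ℝ) ≤ (s : ℝ) ^ (1 / 4 : ℝ) :=
          Real.rpow_le_rpow (by positivity) hsL.le (by norm_num)
        refine le_trans (le_of_eq ?_) h1
        rw [hB₁, mul_comm 4 e1, pow_mul, ← Real.rpow_natCast (L ^ e1) 4, ← Real.rpow_mul (by positivity)]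
        norm_num
      have hη0 : 0 < 1 / L ^ (2 * e₀) := by positivity
      have hη1 : 1 / L ^ (2 * e₀) ≤ 1 := by
        rw [div_le_one (by positivity)]
        exact one_le_pow₀ hL1
      have hηw : 2 ≤ 1 / L ^ (2 * e₀) * (w : ℝ) := by
        rw [one_div, ← div_eq_inv_mul, le_div_iff₀ (by positivity)]
        refine le_trans ?_ (hp2.trans hw1)
        have : L ^ (2 * e₀) ≤ L ^ (2 * e₀ + e1 + 2 * b₃) := pow_le_pow_right₀ hL1 (by omega)
        linarith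
      have hηq : (q : ℝ) ≤ 1 / L ^ (2 * e₀) * X := by
        have h1 : L ^ (2 * e₀) ≤ X / q := by
          refine le_trans ?_ (hp6.trans hXq)
          have h0 : 0 ≤ L ^ (2 * e₀) := by positivity
          linarith
        rw [le_div_iff₀ hq0] at h1
        rw [one_div, ← div_eq_inv_mul, le_div_iff₀ (by positivity)]
        linarith
      have hF : ∀ y : ℕ, 3 ≤ y → y ≤ x → q * s ≤ y →
          VV q y (FA q (aa cc z)) α ≤ 1 / 16 * (X ^ 2 / (q * L ^ B'')) := by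
        intro y hy3 hyx hqsy
        have h1 := hmin x y q s D w w₂ (JJ x Bp) (AJ (y0 x) z w (1 / L ^ Bp)) Bf β err (aa cc z)
          (X / L ^ (cm + B'' + 2)) α (1 / L ^ (2 * e₀)) r.num hctl herr hy3 hyx hq
          (by rw [← hX, show (1 : ℝ) - 1 / 11 = 10 / 11 by norm_num]; exact hqθ) hw1n hww₂ hw₂x hDx
          hs1 hqsy hbs hα2 hα3 hη0 hη1 hηw hηq
        refine h1.trans ?_
        rw [← hX, ← hL]
        exact SupNaux.minor_arithN B'' cm Bp e₀ e1 (cm + B'' + 2) Cm X L q s D w w₂ (JJ x Bp)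
          (X / L ^ (cm + B'' + 2)) (1 / L ^ (2 * e₀)) ((s : ℝ) ^ (1 / 4 : ℝ)) (1 / L ^ e1) hCm
          hL1000 hLCm hX1 hqR hqX rfl he₀ he1 rfl rfl hτ1 hτ2 hτ3 hτ4 hτ5 hτ6
          (Nat.cast_nonneg _) (hJle Bp) rfl
      have hFc : VV q x (FA q (cut x (aa cc z))) α ≤ 1 / 4 * (X ^ 2 / (q * L ^ B'')) := by
        have h1 := SupFaux.VV_cut q x (aa cc z) α
        have h2 := hF x hx3 le_rfl hqs
        have h3 := hF (x / 8) (by omega) (Nat.div_le_self _ _) hqs8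
        linarith
      have hT := SupNaux.VV_vT2 CT hCT hTm x q Q s V α r.num v hv hV.le hq hQ1 hcase hbs hα4
      have hlogQ : Real.log Q ≤ L := by
        have hQ0 : (0 : ℝ) < Q := by exact_mod_cast hQ1
        refine Real.log_le_log hQ0 ?_
        linarith
      have hT3 : VV q x (fun n => ((v n : ℝ) : ℂ) * TM q Q n) α ≤
          1 / 4 * (X ^ 2 / (q * L ^ B'')) := by
        refine hT.trans ?_
        refine SupNaux.T_arith B'' B₁ CT V X L q ((q : ℝ) / q.totient) s Q (Real.log Q) hCT hV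
          hL1000 hLT hX1 hqR hρ0 hρ hs0.le hqsB₁ (Nat.cast_nonneg _) hQle
          (Real.log_natCast_nonneg Q) hlogQ (by omega) ?_
        calc (q : ℝ) ^ 2 * (L ^ (6 * B₁) * L ^ (2 * B₁))
            ≤ (X ^ (10 / 11 : ℝ)) ^ 2 * (L ^ (6 * B₁) * L ^ (2 * B₁)) := by gcongr
          _ = (X ^ (10 / 11 : ℝ) * X ^ (10 / 11 : ℝ)) * L ^ (8 * B₁) := by ring
          _ ≤ (X ^ (10 / 11 : ℝ) * X ^ (10 / 11 : ℝ)) * X ^ (2 / 11 : ℝ) := by gcongr
          _ = X ^ 2 := by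
              rw [← Real.rpow_add hX0, ← Real.rpow_add hX0, ← Real.rpow_natCast]
              congr 1
              norm_num
      have h5 := VV_sub_le q x (FA q (cut x (aa cc z))) (fun n => ((v n : ℝ) : ℂ) * TM q Q n) α
      refine h5.trans ?_
      have h7 : 0 ≤ X ^ 2 / (q * L ^ B'') := by positivity
      linarith
  obtain ⟨x₀, hx₀⟩ := eventually_atTop.1 hev
  exact ⟨x₀, hx₀⟩

end Pool.Agent.HN
end

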