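import Pool.Agent.Work.GBM.C12
import Pool.Agent.Work.GBM.C17
import Pool.Agent.Work.GBM.C19
import Pool.Agent.Work.GBM.C20
import Pool.Agent.Work.GBM.C23

section
/-! # Module Dens (helper76's model): the minorant has density `KK / log`, of bounded variation

`aa(n) log n = ∑_{c ∣ n} Λ(c) aa(n)`; for `n = p m` squarefree: `aa_mul`. So `∑_{n ≤ y} aa(n) log n = ∑_{m rough sqfree} ∑_{z ≤ p ≤ y/m, p ∤ m} log p ∑_{d ∣ m} (cc d + E d p)`,
PNT (`psi_pnt`) for `θ(t)`, `t ≥ z`, and Abel summation in `p` with `E d` (variation `V0`) give `∑_{n ≤ y} KK(n)` up to `O(x/L^A)`: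
`∑_{m z ≤ n ≤ y} (1/m) E d (n/m) = ∑_{z ≤ t ≤ y/m} E d t + O(1)`; the number of `m ≤ x/z` is `≤ x^(1-δ)`, and `∑_{m ≤ x} 1/m ≤ 1 + log x`.
Remove the logarithm by Abel summation. Variation of `KK(n)/log n` on `(x/8, x]`: `KK(n) = ∑_m [m z ≤ n] ...`: `≤ ∑_m (1/m) 2^K (V0 + 2) ≤ C log x`, divided by `log n`. -/

namespace Pool.Agent.HS

open Finset Pool.Agent.BV Pool.Agent.HL

noncomputable section

open Classical in
/-- the coefficient `H m t` of the model -/
def HH (x z : ℕ) (cc : ℕ → ℝ) (E : ℕ → ℕ → ℝ) (m t : ℕ) : ℝ :=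
  if Rh z m ∧ Squarefree m ∧ m ≤ x then ∑ d ∈ m.divisors, (cc d + E d t) else 0

theorem card_div_le {x z K : ℕ} (hz : 2 ≤ z) (hK : x < z ^ K) {n : ℕ} (hs : Squarefree n)
    (hr : Rh z n) (hn : n ≤ x) : (n.divisors.card : ℝ) ≤ 2 ^ K := by
  have hn0 : n ≠ 0 := Squarefree.ne_zero hs
  have hcard : n.primeFactors.card ≤ K := by
    have h1 : z ^ n.primeFactors.card ≤ n := by
      calc z ^ n.primeFactors.card ≤ ∏ p ∈ n.primeFactors, p := by
            refine pow_card_le_prod _ _ _ fun p hp => ?_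
            exact hr p (Nat.prime_of_mem_primeFactors hp) (Nat.dvd_of_mem_primeFactors hp)
        _ ≤ n := Nat.le_of_dvd (Nat.pos_of_ne_zero hn0) (Nat.prod_primeFactors_dvd n)
    have h2 : z ^ n.primeFactors.card < z ^ K := lt_of_le_of_lt (h1.trans hn) hK
    exact ((Nat.pow_lt_pow_iff_right (by omega)).1 h2).le
  have hd : n.divisors.card ≤ 2 ^ K := by
    rw [Nat.card_divisors hn0]
    calc ∏ p ∈ n.primeFactors, (n.factorization p + 1) ≤ ∏ _p ∈ n.primeFactors, 2 := by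
          refine prod_le_prod' fun p _ => ?_
          have := hs.natFactorization_le_one p
          omega
      _ = 2 ^ n.primeFactors.card := by rw [prod_const]
      _ ≤ 2 ^ K := Nat.pow_le_pow_right (by norm_num) hcard
  exact_mod_cast hd

theorem wtd {x z D0 K : ℕ} {V0 : ℝ} {cc : ℕ → ℝ} {E : ℕ → ℕ → ℝ} (hz : 2 ≤ z) (hV0 : 0 ≤ V0)
    (hK : x < z ^ K) (h : Wt z D0 cc) (hE : WtE z V0 cc E) :
    WTd x z (2 ^ K * (2 + V0)) (aa cc z) (HH x z cc E) := by
  constructor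
  · intro n hn
    have hs : Squarefree n := by
      by_contra hs
      apply hn
      unfold aa
      rw [if_neg hs]
    exact ⟨Nat.one_le_iff_ne_zero.2 (Squarefree.ne_zero hs), aa_rough z D0 cc h n hn, hs⟩
  · intro p m hp hzp hm hr hs hpm hx
    rw [mul_comm, aa_mul z V0 cc E hE m p hs hr hp hzp hpm]
    have hmx : m ≤ x := (Nat.le_mul_of_pos_left m hp.pos).trans hx
    unfold HH
    rw [if_pos ⟨hr, hs, hmx⟩]
  · intro m t
    unfold HH
    split_ifs with hc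
    · have hcd := card_div_le hz hK hc.2.1 hc.1 hc.2.2
      calc |∑ d ∈ m.divisors, (cc d + E d t)| ≤ ∑ d ∈ m.divisors, |cc d + E d t| :=
            abs_sum_le_sum_abs _ _
        _ ≤ ∑ _d ∈ m.divisors, (2 + V0) := by
            refine sum_le_sum fun d _ => ?_
            have h1 := h.bd d
            have h2 := hE.bd d t
            have h3 := abs_add_le (cc d) (E d t)
            linarith
        _ = (m.divisors.card : ℝ) * (2 + V0) := by rw [sum_const, nsmul_eq_mul]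
        _ ≤ _ := by gcongr
    · rw [abs_zero]
      positivity
  · intro m
    by_cases hc : Rh z m ∧ Squarefree m ∧ m ≤ x
    · have hcd := card_div_le hz hK hc.2.1 hc.1 hc.2.2
      have h1 : ∀ t ∈ Ico z x, |HH x z cc E m (t + 1) - HH x z cc E m t| ≤
          ∑ d ∈ m.divisors, |E d (t + 1) - E d t| := by
        intro t _
        unfold HH
        rw [if_pos hc, if_pos hc, ← sum_sub_distrib]
        refine (abs_sum_le_sum_abs _ _).trans (le_of_eq (sum_congr rfl fun d _ => ?_))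
        congr 1
        ring
      refine (sum_le_sum h1).trans ?_
      rw [sum_comm]
      calc ∑ d ∈ m.divisors, ∑ t ∈ Ico z x, |E d (t + 1) - E d t| ≤
            ∑ _d ∈ m.divisors, (2 + V0) := by
            refine sum_le_sum fun d _ => ?_
            have h2 : ∑ t ∈ Ico z x, |E d (t + 1) - E d t| ≤
                ∑ t ∈ range x, |E d (t + 1) - E d t| := by
              apply sum_le_sum_of_subset_of_nonneg
              · intro t ht
                rw [mem_Ico] at ht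
                rw [mem_range]
                exact ht.2
              · intro _ _ _
                exact abs_nonneg _
            have h3 := hE.tv d x
            linarith
        _ = (m.divisors.card : ℝ) * (2 + V0) := by rw [sum_const, nsmul_eq_mul]
        _ ≤ _ := by gcongr
    · have h1 : ∑ t ∈ Ico z x, |HH x z cc E m (t + 1) - HH x z cc E m t| = 0 := by
        refine sum_eq_zero fun t _ => ?_
        unfold HH
        rw [if_neg hc, if_neg hc, sub_self, abs_zero]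
      rw [h1]
      positivity

open Classical in
theorem KK_eq {x z : ℕ} {cc : ℕ → ℝ} {E : ℕ → ℕ → ℝ} {n : ℕ} (hn : n ≤ x) :
    KK cc E z n = KH z (HH x z cc E) n := by
  unfold KK KH
  have h1 : (Icc 1 (n / z)).filter
      (fun m => Squarefree m ∧ ∀ p : ℕ, p.Prime → p ∣ m → z ≤ p) = Ms z (n / z) := by
    ext m
    unfold Ms Rh
    rw [mem_filter, mem_filter, and_comm (a := Squarefree m)]
  rw [h1]
  refine sum_congr rfl fun m hm => ?_
  unfold Ms at hm
  rw [mem_filter, mem_Icc] at hm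
  unfold HH
  rw [if_pos ⟨hm.2.1, hm.2.2, (hm.1.2.trans (Nat.div_le_self n z)).trans hn⟩]
  ring

/-- variation of `u / log` on `(x/8, x]` -/
theorem var_cut {x : ℕ} {u : ℕ → ℝ} {U W : ℝ} (hx : 16 ≤ x)
    (hL : Real.log x ≤ 2 * Real.log ((x / 8 + 1 : ℕ) : ℝ)) (hU : ∀ n, n ≤ x → |u n| ≤ U)
    (hW : ∑ n ∈ range x, |u (n + 1) - u n| ≤ W) {V : ℝ} (hV : 2 * (W + 2 * U) / Real.log x ≤ V) :
    BVar x V (cut x (fun n => u n / Real.log n)) := by
  set w : ℕ := x / 8 + 1 with hw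
  have hw2 : 2 ≤ w := by omega
  have hwx : w ≤ x := by omega
  have hLx : 0 < Real.log x := Real.log_pos (by exact_mod_cast (by omega : 1 < x))
  have hU0 : 0 ≤ U := (abs_nonneg _).trans (hU 0 (by omega))
  have hW0 : 0 ≤ W := le_trans (sum_nonneg fun _ _ => abs_nonneg _) hW
  have hlw : 1 / Real.log w ≤ 2 / Real.log x := by
    rw [div_le_div_iff₀ (by linarith) hLx]
    linarith
  have hln : ∀ n : ℕ, w ≤ n → 0 ≤ 1 / Real.log (n : ℝ) ∧ 1 / Real.log (n : ℝ) ≤ 2 / Real.log x := by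
    intro n hn
    have h1 : 0 < Real.log (w : ℝ) := Real.log_pos (by exact_mod_cast (by omega : 1 < w))
    have h2 : Real.log (w : ℝ) ≤ Real.log n :=
      Real.log_le_log (by exact_mod_cast (by omega : 0 < w)) (by exact_mod_cast hn)
    refine ⟨by positivity, le_trans ?_ hlw⟩
    exact one_div_le_one_div_of_le h1 h2
  have hb : ∀ n : ℕ, w ≤ n → n ≤ x → |u n / Real.log n| ≤ U * (2 / Real.log x) := by
    intro n hn hnx
    obtain ⟨h1, h2⟩ := hln n hn
    rw [div_eq_mul_one_div, abs_mul, abs_of_nonneg h1]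
    have := hU n hnx
    gcongr
  have e0 : 2 * (W + 2 * U) / Real.log x = (W + 2 * U) * (2 / Real.log x) := by ring
  rw [e0] at hV
  have hq : 0 ≤ 2 / Real.log x := by positivity
  constructor
  · intro n
    unfold cut
    split_ifs with h
    · refine (hb n (by omega) h.2).trans (le_trans ?_ hV)
      apply mul_le_mul_of_nonneg_right _ hq
      linarith
    · rw [abs_zero]
      refine le_trans ?_ hV
      positivity
  · rw [range_eq_Ico, ← sum_Ico_consecutive _ (Nat.zero_le (x / 8)) (by omega : x / 8 ≤ x),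
      sum_eq_sum_Ico_succ_bot (by omega : x / 8 < x), ← hw]
    have h1 : ∑ n ∈ Ico 0 (x / 8), |cut x (fun n => u n / Real.log n) (n + 1) -
        cut x (fun n => u n / Real.log n) n| = 0 := by
      refine sum_eq_zero fun n hn => ?_
      rw [mem_Ico] at hn
      unfold cut
      rw [if_neg (by omega), if_neg (by omega), sub_self, abs_zero]
    have h2 : |cut x (fun n => u n / Real.log n) w -
        cut x (fun n => u n / Real.log n) (x / 8)| ≤ U * (2 / Real.log x) := by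
      unfold cut
      rw [if_pos (by omega), if_neg (by omega), sub_zero]
      exact hb w (le_refl _) hwx
    have h3 : ∑ n ∈ Ico w x, |cut x (fun n => u n / Real.log n) (n + 1) -
        cut x (fun n => u n / Real.log n) n| ≤ (W + U) * (2 / Real.log x) := by
      have h4 : ∀ n ∈ Ico w x, |cut x (fun n => u n / Real.log n) (n + 1) -
          cut x (fun n => u n / Real.log n) n| ≤ |u (n + 1) - u n| * (2 / Real.log x) +
          U * |1 / Real.log ((n + 1 : ℕ) : ℝ) - 1 / Real.log n| := by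
        intro n hn
        rw [mem_Ico] at hn
        unfold cut
        rw [if_pos (by omega), if_pos (by omega)]
        have e1 : u (n + 1) / Real.log ((n + 1 : ℕ) : ℝ) - u n / Real.log n =
            (u (n + 1) - u n) * (1 / Real.log ((n + 1 : ℕ) : ℝ)) +
            u n * (1 / Real.log ((n + 1 : ℕ) : ℝ) - 1 / Real.log n) := by ring
        rw [e1]
        refine (abs_add_le _ _).trans ?_
        rw [abs_mul, abs_mul]
        obtain ⟨h5, h6⟩ := hln (n + 1) (by omega)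
        rw [abs_of_nonneg h5]
        have h7 := hU n (by omega)
        gcongr
      refine (sum_le_sum h4).trans ?_
      rw [sum_add_distrib, ← sum_mul, ← mul_sum, log_tv hw2 hwx]
      have h5 : ∑ n ∈ Ico w x, |u (n + 1) - u n| ≤ W := by
        refine le_trans ?_ hW
        apply sum_le_sum_of_subset_of_nonneg
        · intro t ht
          rw [mem_Ico] at ht
          rw [mem_range]
          exact ht.2
        · intro _ _ _
          exact abs_nonneg _
      have h6 : 1 / Real.log w - 1 / Real.log x ≤ 2 / Real.log x := by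
        have : 0 ≤ 1 / Real.log (x : ℝ) := by positivity
        linarith
      rw [add_mul]
      exact add_le_add (mul_le_mul_of_nonneg_right h5 hq) (mul_le_mul_of_nonneg_left h6 hU0)
    rw [h1]
    have e2 : (W + 2 * U) * (2 / Real.log x) =
        U * (2 / Real.log x) + (W + U) * (2 / Real.log x) := by ring
    rw [e2] at hV
    linarith

/-- the scale: what is needed of large `x` -/
theorem dens_evt (ζ : ℝ) (hζ : 0 < ζ) (BB C : ℝ) (A : ℕ) : ∃ x₁ : ℕ, ∀ x : ℕ, x₁ ≤ x →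
    16 ≤ x ∧ 1 ≤ Real.log x ∧ Real.log x ≤ 2 * Real.log ((x / 8 + 1 : ℕ) : ℝ) ∧
    4 ≤ ⌈(x : ℝ) ^ ζ⌉₊ ∧ ζ * Real.log x / 2 ≤ Real.log ((⌈(x : ℝ) ^ ζ⌉₊ - 1 : ℕ) : ℝ) ∧
    x < ⌈(x : ℝ) ^ ζ⌉₊ ^ (⌈1 / ζ⌉₊ + 1) ∧
    BB * (Real.log x) ^ A ≤ (⌈(x : ℝ) ^ ζ⌉₊ : ℝ) ∧ C ≤ Real.log x := by
  have h1 := evt_log (max (max 10 (2 * Real.log 2 / ζ)) C)
  have h2 := evt_pow BB A ζ hζ
  have h3 := evt_pow 4 0 ζ hζ
  obtain ⟨x₁, hx₁⟩ := Filter.eventually_atTop.1 ((h1.and h2).and (h3.and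
    (Filter.eventually_ge_atTop 16)))
  refine ⟨x₁, fun x hx => ?_⟩
  obtain ⟨⟨h4, h5⟩, h6, h7⟩ := hx₁ x hx
  have h8 : 10 ≤ Real.log x := ((le_max_left _ _).trans (le_max_left _ _)).trans h4
  have h9 : 2 * Real.log 2 / ζ ≤ Real.log x := ((le_max_right _ _).trans (le_max_left _ _)).trans h4
  have h10 : C ≤ Real.log x := (le_max_right _ _).trans h4
  have hx0 : (0 : ℝ) < x := by exact_mod_cast (by omega : 0 < x)
  have hx1 : (1 : ℝ) < x := by exact_mod_cast (by omega : 1 < x)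
  have hp : 0 < (x : ℝ) ^ ζ := Real.rpow_pos_of_pos hx0 ζ
  have hc := Nat.le_ceil ((x : ℝ) ^ ζ)
  rw [pow_zero, mul_one] at h6
  have h11 : 4 ≤ ⌈(x : ℝ) ^ ζ⌉₊ := by exact_mod_cast h6.trans hc
  refine ⟨h7, by linarith, ?_, h11, ?_, ?_, h5.trans hc, h10⟩
  · have h12 : (x : ℝ) / 8 ≤ ((x / 8 + 1 : ℕ) : ℝ) := by
      have : x ≤ 8 * (x / 8 + 1) := by omega
      have h : (x : ℝ) ≤ 8 * ((x / 8 + 1 : ℕ) : ℝ) := by exact_mod_cast this
      linarith
    have h13 : Real.log ((x : ℝ) / 8) ≤ Real.log ((x / 8 + 1 : ℕ) : ℝ) :=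
      Real.log_le_log (by positivity) h12
    rw [Real.log_div hx0.ne' (by norm_num)] at h13
    have h14 : Real.log 8 ≤ 3 := by
      have e : Real.log 8 = 3 * Real.log 2 := by
        rw [show (8 : ℝ) = 2 ^ 3 by norm_num, Real.log_pow]
        norm_num
      have := Real.log_two_lt_d9
      rw [e]
      linarith
    linarith
  · have h12 : (x : ℝ) ^ ζ / 2 ≤ ((⌈(x : ℝ) ^ ζ⌉₊ - 1 : ℕ) : ℝ) := by
      have h : ((⌈(x : ℝ) ^ ζ⌉₊ - 1 : ℕ) : ℝ) = (⌈(x : ℝ) ^ ζ⌉₊ : ℝ) - 1 := by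
        rw [Nat.cast_sub (by omega)]
        simp
      rw [h]
      linarith
    have h13 := Real.log_le_log (by positivity) h12
    rw [Real.log_div hp.ne' (by norm_num), Real.log_rpow hx0] at h13
    rw [div_le_iff₀ hζ] at h9
    linarith
  · have h12 : (x : ℝ) < (⌈(x : ℝ) ^ ζ⌉₊ : ℝ) ^ (⌈1 / ζ⌉₊ + 1) := by
      calc (x : ℝ) = (x : ℝ) ^ (1 : ℝ) := (Real.rpow_one _).symm
        _ < (x : ℝ) ^ (ζ * ((⌈1 / ζ⌉₊ + 1 : ℕ) : ℝ)) := by
            apply Real.rpow_lt_rpow_of_exponent_lt hx1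
            have h := Nat.le_ceil (1 / ζ)
            rw [div_le_iff₀ hζ] at h
            push_cast
            nlinarith
        _ = ((x : ℝ) ^ ζ) ^ (⌈1 / ζ⌉₊ + 1) := by
            rw [Real.rpow_mul hx0.le, Real.rpow_natCast]
        _ ≤ _ := by gcongr
    exact_mod_cast h12

theorem dens (θ V0 : ℝ) (hθ : 1 / 2 ≤ θ) (hθ1 : θ < 1) (hV0 : 0 ≤ V0) : ∃ V : ℝ, 0 < V ∧ ∀ B : ℕ,
    ∃ x₁ : ℕ, ∀ x : ℕ, x₁ ≤ x → ∀ (D0 : ℕ) (cc : ℕ → ℝ) (E : ℕ → ℕ → ℝ), Wt (zx θ x) D0 cc →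
    WtE (zx θ x) V0 cc E →
    BVar x V (cut x (fun n => KK cc E (zx θ x) n / Real.log n)) ∧
    ∀ y : ℕ, y ≤ x → |∑ n ∈ Icc 1 y, (cut x (aa cc (zx θ x)) n -
      cut x (fun n => KK cc E (zx θ x) n / Real.log n) n)| ≤ (x : ℝ) / (Real.log x) ^ B := by
  have hζ : 0 < 1 - θ := by linarith
  set ζ : ℝ := 1 - θ with hζd
  set K : ℕ := ⌈1 / ζ⌉₊ + 1 with hK
  set B0 : ℝ := 2 ^ K * (2 + V0) with hB0
  have hB0p : 0 < B0 := by positivity
  refine ⟨16 * B0, by positivity, fun B => ?_⟩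
  obtain ⟨C, hC, hpnt⟩ := theta_pnt (B + 2)
  obtain ⟨x₁, hx₁⟩ := dens_evt ζ hζ (48 * B0) (128 * B0 * C * (2 / ζ) ^ (B + 2)) (B + 1)
  refine ⟨x₁, fun x hx D0 cc E hW hE => ?_⟩
  obtain ⟨hx16, hL1, hL8, hz4, hlz, hzK, hz2, hLC⟩ := hx₁ x hx
  have hzd : zx θ x = ⌈(x : ℝ) ^ ζ⌉₊ := rfl
  rw [← hzd, ← hK] at hzK
  rw [← hzd] at hz4 hlz hz2
  set z : ℕ := zx θ x with hz
  have hwtd := wtd (x := x) (K := K) (by omega) hV0 hzK hW hE
  rw [← hB0] at hwtd
  set L : ℝ := Real.log x with hL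
  have hL0 : 0 < L := by linarith
  have hx0 : (0 : ℝ) < x := by exact_mod_cast (by omega : 0 < x)
  have ecut : cut x (fun n => KK cc E z n / Real.log n) =
      cut x (fun n => KH z (HH x z cc E) n / Real.log n) := by
    funext n
    unfold cut
    split_ifs with h
    · show KK cc E z n / Real.log n = KH z (HH x z cc E) n / Real.log n
      rw [KK_eq h.2]
    · rfl
  rw [ecut]
  constructor
  · apply var_cut hx16 hL8 (U := B0 * (1 + L)) (W := 2 * B0 * (1 + L))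
    · intro n hn
      exact KH_abs hwtd.bd (by omega) hn
    · exact KH_tv hwtd.bd hwtd.tv (by omega)
    · rw [div_le_iff₀ hL0]
      have : B0 * (1 + L) ≤ B0 * (2 * L) := by
        apply mul_le_mul_of_nonneg_left _ hB0p.le
        linarith
      linarith
  · intro y hy
    set w : ℕ := x / 8 + 1 with hw
    have e1 : ∑ n ∈ Icc 1 y, (cut x (aa cc z) n -
        cut x (fun n => KH z (HH x z cc E) n / Real.log n) n) =
        ∑ n ∈ Icc w y, (aa cc z n - KH z (HH x z cc E) n / Real.log n) := by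
      have e2 : Icc w y = (Icc 1 y).filter (fun n => x / 8 < n ∧ n ≤ x) := by
        ext n
        simp only [mem_filter, mem_Icc]
        omega
      rw [e2, sum_filter]
      refine sum_congr rfl fun n _ => ?_
      unfold cut
      split_ifs <;> simp
    rw [e1]
    have h1 := unlog (x := x) (z := z) (fun N hN => dens_sum hwtd hC hpnt (by positivity)
      hz4 hlz hL1 hN) (w := w) (by omega) hy
    refine h1.trans ?_
    rw [← hL]
    have hzp : (0 : ℝ) < z := by exact_mod_cast (by omega : 0 < z)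
    have h2 : 8 * (3 * B0 * L * x / z) ≤ x / L ^ B / 2 := by
      rw [div_div, ← mul_div_assoc, div_le_div_iff₀ hzp (by positivity)]
      calc 8 * (3 * B0 * L * x) * (L ^ B * 2) = x * (48 * B0 * L ^ (B + 1)) := by ring
        _ ≤ x * z := by gcongr
    have h3 : 8 * (8 * B0 * C * L / (ζ * L / 2) ^ (B + 2) * x) ≤ x / L ^ B / 2 := by
      have e3 : 8 * (8 * B0 * C * L / (ζ * L / 2) ^ (B + 2) * x) =
          (128 * B0 * C * (2 / ζ) ^ (B + 2)) * x / L ^ (B + 1) / 2 := by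
        rw [div_pow, mul_pow, div_pow]
        field_simp
        ring
      rw [e3]
      apply div_le_div_of_nonneg_right _ (by norm_num)
      rw [div_le_div_iff₀ (by positivity) (by positivity)]
      calc (128 * B0 * C * (2 / ζ) ^ (B + 2)) * x * L ^ B ≤ L * x * L ^ B := by gcongr
        _ = _ := by ring
    rw [mul_add]
    linarith

end

end Pool.Agent.HS
end

section
/-! # Module W.Sum3: four prime factors (model HS/W/SumL3)

True value `.063`. A sorted triple with a marked pair of sum `σ` (`QN κ σ`), third exponent in `[2/11, 9/11 - σ]`: `L3N ≤ ∑_{p < p', QN(σ)} 1/(p p') · (sum over the third)`.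
`σ ≤ 5/11 + 2κ`: third `≤ log(5/2) + δ`, pairs: 16 rectangles, `.0497`. `σ ≥ 6/11 - 4κ`: third `≤ log(3/2) + δ`, `σ ≤ 7/11`, pairs: 36 rectangles, `.1307`. `|σ - 1/2| ≤ 4κ`: `→ 0`. Total `.0986`. -/

namespace Pool.Agent.HN

open Finset Pool.Agent.HS

namespace SN3

open Classical

theorem mem_PN {x p : ℕ} :
    p ∈ PN x ↔ (1 ≤ p ∧ p ≤ x) ∧ p.Prime ∧ 2 / 11 ≤ ex x p ∧ ex x p ≤ 9 / 11 := by
  rw [PN]
  exact SL3.mem_PS

theorem PN_sub (x : ℕ) : PN x ⊆ PP x := by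
  intro p hp
  rw [mem_PN] at hp
  rw [PP, SL3.mem_PS]
  exact ⟨hp.1, hp.2.1, by linarith [hp.2.2.1], by linarith [hp.2.2.2]⟩

/-- the third prime -/
theorem third_le {x : ℕ} {δ : ℝ} (hm : SL3.MerB x δ) (hδ : 0 ≤ δ) {s R : ℝ} (hR : 1 ≤ R)
    (hs : 11 / 2 * (9 / 11 - s) ≤ R) :
    ∑ r ∈ PN x, (if ex x r ≤ 9 / 11 - s then (1 : ℝ) / r else 0) ≤ Real.log R + δ := by
  rw [← sum_filter]
  apply SL3.inner_le hm hδ hR (u := 2 / 11) (v := 9 / 11 - s) (by norm_num)
  · intro p hp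
    rw [mem_filter, mem_PN] at hp
    rw [SL3.mem_PS]
    exact ⟨hp.1.1, hp.1.2.1, hp.1.2.2.1, hp.2⟩
  · linarith

theorem third_zero {x : ℕ} {s : ℝ} (hs : 7 / 11 < s) :
    ∑ r ∈ PN x, (if ex x r ≤ 9 / 11 - s then (1 : ℝ) / r else 0) = 0 := by
  refine sum_eq_zero fun r hr => ?_
  rw [mem_PN] at hr
  rw [if_neg]
  intro h
  linarith [hr.2.2.1]

/-- indicator of a sorted triple -/
noncomputable def tt (x p q r : ℕ) : ℝ :=
  if p < q ∧ q < r ∧ ex x p + ex x q + ex x r ≤ 9 / 11 then 1 else 0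

noncomputable def qq (κ s : ℝ) : ℝ := if QN κ s then 1 else 0

theorem qq_nonneg (κ s : ℝ) : 0 ≤ qq κ s := by
  unfold qq
  split_ifs <;> norm_num

theorem tt_sum_le (x q q' r : ℕ) : tt x q q' r + tt x q r q' + tt x r q q' ≤
    if q < q' then (if ex x r ≤ 9 / 11 - (ex x q + ex x q') then 1 else 0) else 0 := by
  unfold tt
  by_cases h1 : q < q'
  · rw [if_pos h1]
    by_cases h2 : ex x r ≤ 9 / 11 - (ex x q + ex x q')
    · rw [if_pos h2]
      rcases lt_trichotomy q' r with h3 | h3 | h3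
      · rw [if_pos ⟨h1, h3, by linarith⟩, if_neg (by rintro ⟨_, h4, _⟩; omega),
          if_neg (by rintro ⟨h4, _, _⟩; omega)]
        norm_num
      · rw [if_neg (by rintro ⟨_, h4, _⟩; omega), if_neg (by rintro ⟨_, h4, _⟩; omega),
          if_neg (by rintro ⟨h4, _, _⟩; omega)]
        norm_num
      · rw [if_neg (by rintro ⟨_, h4, _⟩; omega)]
        rcases lt_trichotomy q r with h5 | h5 | h5
        · rw [if_pos ⟨h5, h3, by linarith⟩, if_neg (by rintro ⟨h4, _, _⟩; omega)]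
          norm_num
        · rw [if_neg (by rintro ⟨h4, _, _⟩; omega), if_neg (by rintro ⟨h4, _, _⟩; omega)]
          norm_num
        · rw [if_neg (by rintro ⟨h4, _, _⟩; omega), if_pos ⟨h5, h1, by linarith⟩]
          norm_num
    · rw [if_neg h2, if_neg (by rintro ⟨_, _, h4⟩; linarith), if_neg (by rintro ⟨_, _, h4⟩; linarith),
        if_neg (by rintro ⟨_, _, h4⟩; linarith)]
      norm_num
  · rw [if_neg h1, if_neg (by rintro ⟨h4, _, _⟩; omega), if_neg (by rintro ⟨h4, h5, _⟩; omega),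
      if_neg (by rintro ⟨_, h4, _⟩; omega)]
    norm_num

theorem qq_split {κ s gA gB gC G : ℝ} (hA : 0 ≤ gA) (hB : 0 ≤ gB) (hC : 0 ≤ gC)
    (h1 : s ≤ 5 / 11 + 2 * κ → G ≤ gA)
    (h2 : 6 / 11 - 4 * κ ≤ s → s ≤ 7 / 11 → G ≤ gB)
    (h3 : 1 / 2 - 4 * κ ≤ s → s ≤ 1 / 2 + 4 * κ → G ≤ gC) (h4 : 7 / 11 < s → G ≤ 0) :
    qq κ s * G ≤ (if s ≤ 5 / 11 + 2 * κ then gA else 0) +
      (if 6 / 11 - 4 * κ ≤ s ∧ s ≤ 7 / 11 then gB else 0) +
      (if 1 / 2 - 4 * κ ≤ s ∧ s ≤ 1 / 2 + 4 * κ then gC else 0) := by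
  have i1 : 0 ≤ (if s ≤ 5 / 11 + 2 * κ then gA else 0) := by
    split_ifs <;> linarith
  have i2 : 0 ≤ (if 6 / 11 - 4 * κ ≤ s ∧ s ≤ 7 / 11 then gB else 0) := by
    split_ifs <;> linarith
  have i3 : 0 ≤ (if 1 / 2 - 4 * κ ≤ s ∧ s ≤ 1 / 2 + 4 * κ then gC else 0) := by
    split_ifs <;> linarith
  unfold qq
  by_cases h : QN κ s
  · rw [if_pos h, one_mul]
    unfold QN at h
    rcases h with h | h | h
    · have := h1 h
      rw [if_pos h] at i1 ⊢
      linarith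
    · by_cases h5 : s ≤ 7 / 11
      · have := h2 h h5
        have hB' : 6 / 11 - 4 * κ ≤ s ∧ s ≤ 7 / 11 := ⟨h, h5⟩
        rw [if_pos hB'] at i2 ⊢
        linarith
      · push Not at h5
        have := h4 h5
        linarith
    · rw [abs_le] at h
      have h' : 1 / 2 - 4 * κ ≤ s ∧ s ≤ 1 / 2 + 4 * κ := ⟨by linarith [h.1], by linarith [h.2]⟩
      have := h3 h'.1 h'.2
      rw [if_pos h'] at i3 ⊢
      linarith
  · rw [if_neg h, zero_mul]
    linarith

/-! the rectangles -/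

noncomputable def loA (i : ℕ) : ℝ := 2 / 11 + (i : ℝ) * (1 / 352 + 1 / 160000)
noncomputable def hiA (i : ℕ) : ℝ := 2 / 11 + ((i : ℝ) + 1) * (1 / 352 + 1 / 160000)
noncomputable def uA (i : ℕ) : ℝ := loA i
noncomputable def vA (i : ℕ) : ℝ := 5 / 11 + 1 / 10000 - loA i

noncomputable def loB (i : ℕ) : ℝ := 2 / 11 + (i : ℝ) * (1 / 264)
noncomputable def hiB (i : ℕ) : ℝ := 2 / 11 + ((i : ℝ) + 1) * (1 / 264)
noncomputable def uB (i : ℕ) : ℝ := if i < 24 then 6 / 11 - 1 / 10000 - hiB i else loB i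
noncomputable def vB (i : ℕ) : ℝ := 7 / 11 - loB i

lemma numA : ∑ i ∈ range 16, (Sum2.pd (hiA i / loA i) + 1 / 100000) *
    (Sum2.pd (vA i / uA i) + 1 / 100000) ≤ 497 / 10000 := by
  simp only [sum_range_succ, range_zero, sum_empty, Sum2.pd, loA, hiA, uA, vA]
  norm_num

set_option maxRecDepth 10000 in
lemma numB : ∑ i ∈ range 36, (Sum2.pd (hiB i / loB i) + 1 / 100000) *
    (Sum2.pd (vB i / uB i) + 1 / 100000) ≤ 1308 / 10000 := by
  simp only [sum_range_succ, range_zero, sum_empty, Sum2.pd, loB, hiB, uB, vB]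
  norm_num

lemma okA : ∀ i < 16, 1 / 6 ≤ loA i ∧ loA i ≤ hiA i ∧ 1 / 6 ≤ uA i ∧ uA i ≤ vA i := by
  intro i hi
  have h1 : (i : ℝ) ≤ 15 := by exact_mod_cast (by omega : i ≤ 15)
  have h0 : (0 : ℝ) ≤ i := Nat.cast_nonneg i
  unfold vA uA hiA loA
  refine ⟨?_, ?_, ?_, ?_⟩ <;> linarith

lemma okB : ∀ i < 36, 1 / 6 ≤ loB i ∧ loB i ≤ hiB i ∧ 1 / 6 ≤ uB i ∧ uB i ≤ vB i := by
  intro i hi
  have h1 : (i : ℝ) ≤ 35 := by exact_mod_cast (by omega : i ≤ 35)
  have h0 : (0 : ℝ) ≤ i := Nat.cast_nonneg i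
  unfold uB vB hiB loB
  split_ifs with h
  · have h2 : (i : ℝ) ≤ 23 := by exact_mod_cast (by omega : i ≤ 23)
    refine ⟨?_, ?_, ?_, ?_⟩ <;> linarith
  · refine ⟨?_, ?_, ?_, ?_⟩ <;> linarith

lemma coverA {κ a b : ℝ} (hκ : κ ≤ 1 / 10 ^ 8) (ha : 2 / 11 ≤ a) (hab : a ≤ b)
    (h1 : a + b ≤ 5 / 11 + 2 * κ) : ∃ i < 16, (loA i ≤ a ∧ a ≤ hiA i) ∧ uA i ≤ b ∧ b ≤ vA i := by
  obtain ⟨i, hi, g1, g2⟩ := Sum2.grid (s := 2 / 11) (h := 1 / 352 + 1 / 160000) (a := a)
    (by norm_num) (n := 16) (by norm_num) ha (by push_cast; linarith)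
  refine ⟨i, hi, ⟨g1, g2⟩, ?_, ?_⟩
  · unfold uA loA
    linarith
  · unfold vA loA
    linarith

lemma coverB {κ a b : ℝ} (hκ : κ ≤ 1 / 10 ^ 8) (ha : 2 / 11 ≤ a) (hab : a ≤ b)
    (h1 : 6 / 11 - 4 * κ ≤ a + b) (h2 : a + b ≤ 7 / 11) :
    ∃ i < 36, (loB i ≤ a ∧ a ≤ hiB i) ∧ uB i ≤ b ∧ b ≤ vB i := by
  obtain ⟨i, hi, g1, g2⟩ := Sum2.grid (s := 2 / 11) (h := 1 / 264) (a := a)
    (by norm_num) (n := 36) (by norm_num) ha (by push_cast; linarith)
  refine ⟨i, hi, ⟨g1, g2⟩, ?_, ?_⟩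
  · unfold uB hiB loB
    split_ifs
    · linarith
    · linarith
  · unfold vB loB
    linarith

/-- a region of pairs covered by rectangles -/
lemma pairs_le {x : ℕ} (hx : 1 < x) (hm : SL3.MerB x (1 / 100000)) (P : ℝ → ℝ → Prop) (n : ℕ)
    (lo hi u v : ℕ → ℝ) (ok : ∀ i < n, 1 / 6 ≤ lo i ∧ lo i ≤ hi i ∧ 1 / 6 ≤ u i ∧ u i ≤ v i)
    (cov : ∀ a b : ℝ, 2 / 11 ≤ a → a ≤ b → P a b →
      ∃ i < n, (lo i ≤ a ∧ a ≤ hi i) ∧ u i ≤ b ∧ b ≤ v i) (R : ℝ)
    (hR : ∑ i ∈ range n, (Sum2.pd (hi i / lo i) + 1 / 100000) *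
      (Sum2.pd (v i / u i) + 1 / 100000) ≤ R) :
    ∑ q ∈ PN x, ∑ q' ∈ PN x, (if q < q' ∧ P (ex x q) (ex x q') then (1 : ℝ) / (q * q') else 0) ≤
      R := by
  rw [← sum_product', ← sum_filter]
  refine (Sum2.region hm n lo hi u v ok _ ?_).trans
    ((Sum2.sum_pd (by norm_num) n lo hi u v ok).trans hR)
  intro q hq
  rw [mem_filter, mem_product, mem_PN, mem_PN] at hq
  obtain ⟨⟨⟨a1, a2, a3, -⟩, b1, b2, b3, -⟩, c1, c2⟩ := hq
  refine ⟨⟨mem_Icc.2 a1, a2⟩, ⟨mem_Icc.2 b1, b2⟩, cov _ _ a3 (SL3.ex_mono hx a1.1 c1.le) c2⟩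

/-- the marked pairs -/
theorem S5_le {x : ℕ} {κ : ℝ} (hx : 1 < x) (hm : SL3.MerB x (1 / 100000))
    (hm8 : SL3.MerB x (1 / 10 ^ 8))
    (hκ : 0 ≤ κ) (hκ1 : κ ≤ 1 / 10 ^ 8) : ∑ p ∈ PN x, ∑ p' ∈ PN x, ∑ p'' ∈ PN x, tt x p p' p'' *
      (qq κ (ex x p + ex x p') + qq κ (ex x p + ex x p'') + qq κ (ex x p' + ex x p'')) *
      (1 / ((p : ℝ) * p' * p'')) ≤ 99 / 1000 := by
  have e1 : ∑ p ∈ PN x, ∑ p' ∈ PN x, ∑ p'' ∈ PN x, tt x p p' p'' *
      (qq κ (ex x p + ex x p') + qq κ (ex x p + ex x p'') + qq κ (ex x p' + ex x p'')) *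
      (1 / ((p : ℝ) * p' * p'')) =
      ∑ q ∈ PN x, ∑ q' ∈ PN x, ∑ r ∈ PN x, (tt x q q' r + tt x q r q' + tt x r q q') *
        (qq κ (ex x q + ex x q') * (1 / ((q : ℝ) * q')) * (1 / r)) := by
    have a1 : ∑ p ∈ PN x, ∑ p' ∈ PN x, ∑ p'' ∈ PN x, tt x p p' p'' *
      (qq κ (ex x p + ex x p') + qq κ (ex x p + ex x p'') + qq κ (ex x p' + ex x p'')) *
      (1 / ((p : ℝ) * p' * p'')) =
      ∑ p ∈ PN x, ∑ p' ∈ PN x, ∑ p'' ∈ PN x, tt x p p' p'' *
        (qq κ (ex x p + ex x p') * (1 / ((p : ℝ) * p')) * (1 / p'')) +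
      ∑ p ∈ PN x, ∑ p' ∈ PN x, ∑ p'' ∈ PN x, tt x p p' p'' *
        (qq κ (ex x p + ex x p'') * (1 / ((p : ℝ) * p'')) * (1 / p')) +
      ∑ p ∈ PN x, ∑ p' ∈ PN x, ∑ p'' ∈ PN x, tt x p p' p'' *
        (qq κ (ex x p' + ex x p'') * (1 / ((p' : ℝ) * p'')) * (1 / p)) := by
      rw [← sum_add_distrib, ← sum_add_distrib]
      refine sum_congr rfl fun p _ => ?_
      rw [← sum_add_distrib, ← sum_add_distrib]
      refine sum_congr rfl fun p' _ => ?_
      rw [← sum_add_distrib, ← sum_add_distrib]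
      refine sum_congr rfl fun p'' _ => ?_
      simp only [one_div, mul_inv]
      ring
    have a2 : ∑ p ∈ PN x, ∑ p' ∈ PN x, ∑ p'' ∈ PN x, tt x p p' p'' *
        (qq κ (ex x p + ex x p'') * (1 / ((p : ℝ) * p'')) * (1 / p')) =
        ∑ q ∈ PN x, ∑ q' ∈ PN x, ∑ r ∈ PN x, tt x q r q' *
        (qq κ (ex x q + ex x q') * (1 / ((q : ℝ) * q')) * (1 / r)) :=
      sum_congr rfl fun p _ => sum_comm
    have a3 : ∑ p ∈ PN x, ∑ p' ∈ PN x, ∑ p'' ∈ PN x, tt x p p' p'' *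
        (qq κ (ex x p' + ex x p'') * (1 / ((p' : ℝ) * p'')) * (1 / p)) =
        ∑ q ∈ PN x, ∑ q' ∈ PN x, ∑ r ∈ PN x, tt x r q q' *
        (qq κ (ex x q + ex x q') * (1 / ((q : ℝ) * q')) * (1 / r)) := by
      rw [sum_comm]
      exact sum_congr rfl fun p _ => sum_comm
    rw [a1, a2, a3, ← sum_add_distrib, ← sum_add_distrib]
    refine sum_congr rfl fun p _ => ?_
    rw [← sum_add_distrib, ← sum_add_distrib]
    refine sum_congr rfl fun p' _ => ?_
    rw [← sum_add_distrib, ← sum_add_distrib]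
    refine sum_congr rfl fun p'' _ => ?_
    ring
  rw [e1]
  have hgA : Real.log (5 / 2) ≤ 9164 / 10000 := by
    have h1 := Sum2.log_le_pd (r := 5 / 4) (by norm_num)
    have h2 := Real.log_two_lt_d9
    have e : (5 / 2 : ℝ) = 5 / 4 * 2 := by norm_num
    rw [e, Real.log_mul (by norm_num) (by norm_num)]
    unfold Sum2.pd at h1
    norm_num at h1 h2 ⊢
    linarith
  have hgB := Sum2.log_le_pd (r := 3 / 2 + 22 / 10 ^ 8) (by norm_num)
  have hgC := Sum2.log_le_pd (r := 2) (by norm_num)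
  unfold Sum2.pd at hgB hgC
  norm_num at hgB hgC
  have h1 : ∀ q ∈ PN x, ∀ q' ∈ PN x, ∑ r ∈ PN x, (tt x q q' r + tt x q r q' + tt x r q q') *
        (qq κ (ex x q + ex x q') * (1 / ((q : ℝ) * q')) * (1 / r)) ≤
      9165 / 10000 * (if q < q' ∧ ex x q + ex x q' ≤ 5 / 11 + 2 * κ then
        (1 : ℝ) / (q * q') else 0) +
      4064 / 10000 * (if q < q' ∧ (6 / 11 - 4 * κ ≤ ex x q + ex x q' ∧
        ex x q + ex x q' ≤ 7 / 11) then (1 : ℝ) / (q * q') else 0) +
      1 * (if q < q' ∧ 1 / 2 - 4 * κ ≤ ex x q + ex x q' ∧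
        ex x q + ex x q' ≤ 1 / 2 + 4 * κ then (1 : ℝ) / (q * q') else 0) := by
    intro q hq q' hq'
    rw [mem_PN] at hq hq'
    set s : ℝ := ex x q + ex x q' with hs
    have hs4 : 4 / 11 ≤ s := by linarith [hq.2.2.1, hq'.2.2.1]
    set N : ℝ := (1 : ℝ) / (q * q') with hN
    have hN0 : 0 ≤ N := by rw [hN]; positivity
    set G : ℝ := ∑ r ∈ PN x, (if ex x r ≤ 9 / 11 - s then (1 : ℝ) / r else 0) with hG
    have hG0 : 0 ≤ G := by
      rw [hG]
      refine sum_nonneg fun r _ => ?_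
      split_ifs <;> positivity
    have h2 : ∑ r ∈ PN x, (tt x q q' r + tt x q r q' + tt x r q q') *
        (qq κ s * N * (1 / r)) ≤ if q < q' then (qq κ s * G) * N else 0 := by
      have h3 : ∀ r ∈ PN x, (tt x q q' r + tt x q r q' + tt x r q q') *
        (qq κ s * N * (1 / r)) ≤ if q < q' then qq κ s * N *
          (if ex x r ≤ 9 / 11 - s then (1 : ℝ) / r else 0) else 0 := by
        intro r hr
        have h4 := tt_sum_le x q q' r
        have h5 : 0 ≤ qq κ s * N * (1 / (r : ℝ)) := by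
          have := qq_nonneg κ s
          positivity
        refine (mul_le_mul_of_nonneg_right h4 h5).trans (le_of_eq ?_)
        rw [← hs]
        split_ifs <;> ring
      refine (sum_le_sum h3).trans (le_of_eq ?_)
      split_ifs
      · rw [← mul_sum]
        ring
      · simp
    refine h2.trans ?_
    by_cases hqq : q < q'
    · rw [if_pos hqq]
      have h3 := qq_split (κ := κ) (s := s) (G := G) (gA := 9165 / 10000) (gB := 4064 / 10000)
        (gC := 1)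
        (by norm_num) (by norm_num) (by norm_num) (by
          intro _
          have h5 := third_le hm8 (by norm_num) (s := s) (R := 5 / 2) (by norm_num) (by linarith)
          refine h5.trans ?_
          norm_num at hgA ⊢
          linarith) (by
          intro h4 _
          have h5 := third_le hm8 (by norm_num) (s := s) (R := 3 / 2 + 22 / 10 ^ 8) (by norm_num)
            (by norm_num; norm_num at hκ1; linarith)
          refine h5.trans ?_
          norm_num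
          linarith) (by
          intro h4 _
          have h5 := third_le hm8 (by norm_num) (s := s) (R := 2) (by norm_num)
            (by norm_num at hκ1; linarith)
          refine h5.trans ?_
          norm_num
          linarith) (by
          intro h4
          rw [hG, third_zero h4])
      refine (mul_le_mul_of_nonneg_right h3 hN0).trans (le_of_eq ?_)
      simp only [hqq, true_and]
      split_ifs <;> ring
    · rw [if_neg hqq]
      simp only [hqq, false_and, if_false]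
      norm_num
  refine (sum_le_sum fun q hq => sum_le_sum fun q' hq' => h1 q hq q' hq').trans ?_
  have hA := pairs_le hx hm (fun a b => a + b ≤ 5 / 11 + 2 * κ) 16 loA hiA uA vA okA
    (fun a b g1 g2 g3 => coverA hκ1 g1 g2 g3) _ numA
  have hB := pairs_le hx hm (fun a b => 6 / 11 - 4 * κ ≤ a + b ∧ a + b ≤ 7 / 11) 36 loB hiB uB vB
    okB (fun a b g1 g2 g3 => coverB hκ1 g1 g2 g3.1 g3.2) _ numB
  have hC : ∑ q ∈ PN x, ∑ q' ∈ PN x, (if q < q' ∧ 1 / 2 - 4 * κ ≤ ex x q + ex x q' ∧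
        ex x q + ex x q' ≤ 1 / 2 + 4 * κ then (1 : ℝ) / (q * q') else 0) ≤ 1 / 10 ^ 5 := by
    have hC' := SL3.SC_le hm8 (by norm_num) (le_refl _) hκ hκ1
    unfold SL3.SP at hC'
    refine le_trans ?_ hC'
    refine (sum_le_sum_of_subset_of_nonneg (PN_sub x) fun q _ _ => sum_nonneg fun q' _ => ?_).trans'
      (sum_le_sum fun q _ => sum_le_sum_of_subset_of_nonneg (PN_sub x) fun q' _ _ => ?_)
    · split_ifs <;> positivity
    · split_ifs <;> positivity
  have e2 : ∑ q ∈ PN x, ∑ q' ∈ PN x, (9165 / 10000 * (if q < q' ∧ ex x q + ex x q' ≤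
        5 / 11 + 2 * κ then (1 : ℝ) / (q * q') else 0) +
      4064 / 10000 * (if q < q' ∧ (6 / 11 - 4 * κ ≤ ex x q + ex x q' ∧
        ex x q + ex x q' ≤ 7 / 11) then (1 : ℝ) / (q * q') else 0) +
      1 * (if q < q' ∧ 1 / 2 - 4 * κ ≤ ex x q + ex x q' ∧
        ex x q + ex x q' ≤ 1 / 2 + 4 * κ then (1 : ℝ) / (q * q') else 0)) =
      9165 / 10000 * (∑ q ∈ PN x, ∑ q' ∈ PN x, (if q < q' ∧ ex x q + ex x q' ≤
        5 / 11 + 2 * κ then (1 : ℝ) / (q * q') else 0)) +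
      4064 / 10000 * (∑ q ∈ PN x, ∑ q' ∈ PN x, (if q < q' ∧ (6 / 11 - 4 * κ ≤ ex x q + ex x q' ∧
        ex x q + ex x q' ≤ 7 / 11) then (1 : ℝ) / (q * q') else 0)) +
      1 * (∑ q ∈ PN x, ∑ q' ∈ PN x, (if q < q' ∧ 1 / 2 - 4 * κ ≤ ex x q + ex x q' ∧
        ex x q + ex x q' ≤ 1 / 2 + 4 * κ then (1 : ℝ) / (q * q') else 0)) := by
    simp only [mul_sum, ← sum_add_distrib]
  rw [e2]
  norm_num at hA hB hC ⊢
  linarith

theorem L3N_core {x : ℕ} (hx : 1 < x) (hm : SL3.MerB x (1 / 100000))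
    (hm8 : SL3.MerB x (1 / 10 ^ 8))
    (hκ : 0 ≤ kap x) (hκ1 : kap x ≤ 1 / 10 ^ 8) : L3N x ≤ 1 / 10 := by
  set κ := kap x with hκd
  have e0 : L3N x = ∑ p ∈ PN x, ∑ p' ∈ PN x, ∑ p'' ∈ PN x, tt x p p' p'' *
      (qq κ (ex x p + ex x p') + qq κ (ex x p + ex x p'') + qq κ (ex x p' + ex x p'')) *
      (1 / ((p : ℝ) * p' * p'')) := by
    unfold L3N
    refine sum_congr rfl fun p _ => ?_
    rw [sum_filter]
    refine sum_congr rfl fun p' _ => ?_
    by_cases h : p < p'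
    · rw [if_pos h, sum_filter]
      refine sum_congr rfl fun p'' _ => ?_
      by_cases h2 : p' < p'' ∧ ex x p + ex x p' + ex x p'' ≤ 9 / 11
      · rw [if_pos h2]
        have e2 : tt x p p' p'' = 1 := by unfold tt; rw [if_pos ⟨h, h2⟩]
        rw [e2, one_mul]
        unfold w3N qq
        rw [div_eq_mul_one_div]
      · rw [if_neg h2]
        have e2 : tt x p p' p'' = 0 := by
          unfold tt
          rw [if_neg]
          rintro ⟨_, h3⟩
          exact h2 h3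
        rw [e2]
        ring
    · rw [if_neg h]
      symm
      refine sum_eq_zero fun p'' _ => ?_
      have e2 : tt x p p' p'' = 0 := by
        unfold tt
        rw [if_neg]
        rintro ⟨h3, _⟩
        exact h h3
      rw [e2]
      ring
  rw [e0]
  exact (S5_le hx hm hm8 hκ hκ1).trans (by norm_num)

end SN3

theorem L3N_le : ∃ x₁ : ℕ, ∀ x : ℕ, x₁ ≤ x → L3N x ≤ 1 / 10 := by
  obtain ⟨x1, h1⟩ := mer (1 / 10 ^ 8) (by norm_num)
  obtain ⟨x0, h0⟩ := mer (1 / 100000) (by norm_num)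
  obtain ⟨x2, h2⟩ := Filter.eventually_atTop.1
    (Pool.Agent.HL.evt_log (max 1 (10 ^ 8 * Real.log 4)))
  refine ⟨x0 + x1 + x2 + 2, fun x hx => ?_⟩
  have h3 := h2 x (by omega)
  have h4 : 1 ≤ Real.log x := (le_max_left _ _).trans h3
  have h5 : 10 ^ 8 * Real.log 4 ≤ Real.log x := (le_max_right _ _).trans h3
  have h6 : 0 ≤ Real.log 4 := Real.log_nonneg (by norm_num)
  apply SN3.L3N_core (by omega) (fun u v hu hv => h0 x (by omega) u v hu hv)
    (fun u v hu hv => h1 x (by omega) u v hu hv)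
  · unfold kap
    positivity
  · unfold kap
    rw [div_le_iff₀ (by linarith)]
    linarith

end Pool.Agent.HN
end

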