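import Pool.Agent.Work.GBM.C19
import Pool.Agent.Work.GBM.C21

section
/-! # Module W.Wt: `Wt`, `WtE` (copy of HS/W/Wt) -/

namespace Pool.Agent.HN

open Finset Pool.Agent.HS

theorem gN_abs (κ : ℝ) (j : ℕ) (s : ℝ) : |gN κ j s| ≤ 1 := by
  unfold gN
  split_ifs <;> norm_num

theorem gN_le (κ : ℝ) (hκ : 0 ≤ κ) (j : ℕ) (s : ℝ) (h : gN κ j s ≠ 0) : j = 0 ∨ s ≤ 6 / 11 := by
  by_contra hc
  push Not at hc
  apply h
  unfold gN
  rw [if_neg hc.1]
  have h1 := hc.2
  split_ifs with h2 h3 h4 h5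
  · rcases h3 with h3 | h3
    · linarith
    · linarith [h3.2]
  · rfl
  · linarith [h5.2]
  · rfl
  · rfl

theorem cwN_wt : ∃ x₁ : ℕ, ∀ x : ℕ, x₁ ≤ x →
    Wt (zx (9 / 11) x) ⌈(x : ℝ) ^ (6 / 11 : ℝ)⌉₊ (cwN x) := by
  refine ⟨3, fun x hx => ⟨?_, ?_, ?_⟩⟩
  · intro d hd
    by_contra hc
    apply hd
    unfold cwN
    exact if_neg hc
  · intro d hd
    have hR : Rough (zx (9 / 11) x) d := by
      by_contra hc
      apply hd
      unfold cwN
      rw [if_neg hc]
    unfold cwN at hd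
    rw [if_pos hR] at hd
    have hx1 : (1 : ℝ) ≤ x := by exact_mod_cast (by omega : 1 ≤ x)
    have hx0 : (0 : ℝ) < x := by linarith
    have hlx : 0 < Real.log x := Real.log_pos (by exact_mod_cast (by omega : 1 < x))
    have hd0 : d ≠ 0 := hR.1.ne_zero
    have hdpos : (0 : ℝ) < d := by exact_mod_cast Nat.pos_of_ne_zero hd0
    have key : (d : ℝ) ≤ (x : ℝ) ^ (6 / 11 : ℝ) := by
      rcases gN_le _ kap_nonneg _ _ hd with h | h
      · rw [card_eq_zero, Nat.primeFactors_eq_empty] at h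
        rcases h with h | h
        · exact absurd h hd0
        · rw [h, Nat.cast_one]
          exact Real.one_le_rpow hx1 (by norm_num)
      · unfold ex at h
        rw [div_le_iff₀ hlx] at h
        rw [← Real.log_le_log_iff hdpos (by positivity), Real.log_rpow hx0]
        linarith
    exact_mod_cast key.trans (Nat.le_ceil _)
  · intro d
    unfold cwN
    split_ifs
    · exact gN_abs _ _ _
    · norm_num

theorem gN_tv (κ : ℝ) (h0 : 0 ≤ κ) (h1 : κ ≤ 1 / 100) (j : ℕ) (s : ℕ → ℝ)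
    (hs : ∀ t, s t ≤ s (t + 1)) (N : ℕ) :
    ∑ t ∈ range N, |gN κ (j + 1) (s (t + 1)) - gN κ (j + 1) (s t)| ≤ 3 := by
  rcases j with _ | _ | j
  · refine tv_three s hs (fun a => 5 / 11 < a) (fun a => 1 / 2 - κ < a) (fun a => 6 / 11 < a)
      (fun a b h h' => lt_of_lt_of_le h' h) (fun a b h h' => lt_of_lt_of_le h' h)
      (fun a b h h' => lt_of_lt_of_le h' h) (-1) 1 (-1) 1 (by norm_num) (by norm_num)
      (by norm_num) (gN κ (0 + 1)) ?_ N
    intro a
    unfold gN
    rw [if_neg (by norm_num), if_pos (by norm_num)]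
    by_cases a1 : 5 / 11 < a
    · by_cases a2 : 1 / 2 - κ < a
      · by_cases a3 : 6 / 11 < a
        · rw [if_neg (by rintro (h | h) <;> [linarith; linarith [h.2]]), if_pos a1, if_pos a2,
            if_pos a3]
          norm_num
        · rw [if_pos (Or.inr ⟨a2, not_lt.1 a3⟩), if_pos a1, if_pos a2, if_neg a3]
          norm_num
      · have a3 : ¬ 6 / 11 < a := by
          intro h
          exact a2 (by linarith)
        rw [if_neg (by rintro (h | h) <;> [linarith; exact a2 h.1]), if_pos a1, if_neg a2,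
          if_neg a3]
        norm_num
    · have a2 : ¬ 1 / 2 - κ < a := by
        intro h
        exact a1 (by linarith)
      have a3 : ¬ 6 / 11 < a := by
        intro h
        exact a1 (by linarith)
      rw [if_pos (Or.inl (not_lt.1 a1)), if_neg a1, if_neg a2, if_neg a3]
      norm_num
  · refine tv_three s hs (fun a => 1 / 2 < a) (fun a => 6 / 11 - 2 * κ < a)
      (fun a => 6 / 11 - 2 * κ < a)
      (fun a b h h' => lt_of_lt_of_le h' h) (fun a b h h' => lt_of_lt_of_le h' h)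
      (fun a b h h' => lt_of_lt_of_le h' h) 0 1 (-1) 0 (by norm_num) (by norm_num)
      (by norm_num) (gN κ (0 + 1 + 1)) ?_ N
    intro a
    unfold gN
    rw [if_neg (by norm_num), if_neg (by norm_num), if_pos (by norm_num)]
    by_cases a2 : 1 / 2 < a
    · by_cases a3 : 6 / 11 - 2 * κ < a
      · rw [if_neg (by rintro h; linarith [h.2]), if_pos a2, if_pos a3]
        norm_num
      · rw [if_pos ⟨a2, not_lt.1 a3⟩, if_pos a2, if_neg a3]
        norm_num
    · have a3 : ¬ 6 / 11 - 2 * κ < a := by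
        intro h
        exact a2 (by linarith)
      rw [if_neg (by rintro h; exact a2 h.1), if_neg a2, if_neg a3]
      norm_num
  · have : ∀ a, gN κ (j + 1 + 1 + 1) a = 0 := by
      intro a
      unfold gN
      rw [if_neg (by omega), if_neg (by omega), if_neg (by omega)]
    simp only [this, sub_self, abs_zero, sum_const_zero]
    norm_num

theorem cwN_wte : ∃ x₁ : ℕ, ∀ x : ℕ, x₁ ≤ x → WtE (zx (9 / 11) x) 4 (cwN x) (EwN x) := by
  refine ⟨4 ^ 100, fun x hx => ⟨?_, ?_, ?_⟩⟩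
  · intro d t
    unfold EwN
    split_ifs
    · exact gN_abs _ _ _
    · norm_num
  · intro d p hd hr hp hz hpd
    have hcop : Nat.Coprime d p := ((Nat.Prime.coprime_iff_not_dvd hp).2 hpd).symm
    have hR : Rough (zx (9 / 11) x) d := ⟨hd, hr⟩
    have hR' : Rough (zx (9 / 11) x) (d * p) := by
      refine ⟨(Nat.squarefree_mul hcop).2 ⟨hd, hp.squarefree⟩, fun p' hp' h' => ?_⟩
      rcases (Nat.Prime.dvd_mul hp').1 h' with h1 | h1
      · exact hr p' hp' h1
      · rw [(Nat.prime_dvd_prime_iff_eq hp' hp).1 h1]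
        exact hz
    have hcard : (d * p).primeFactors.card = d.primeFactors.card + 1 := by
      rw [hcop.primeFactors_mul, hp.primeFactors, card_union_of_disjoint, card_singleton]
      rw [disjoint_singleton_right]
      exact fun h => hpd (Nat.dvd_of_mem_primeFactors h)
    unfold EwN cwN
    rw [if_pos hR, if_pos hR', hcard]
  · intro d N
    unfold EwN
    by_cases hR : Rough (zx (9 / 11) x) d
    · simp only [if_pos hR]
      have := gN_tv (kap x) kap_nonneg (kap_le hx) d.primeFactors.card (fun t => ex x (d * t))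
        (ex_mono x d) N
      linarith
    · simp only [if_neg hR, sub_self, abs_zero, sum_const_zero]
      norm_num

end Pool.Agent.HN
end

section
/-! # Module W.Div: minorant of the primes (model HS/W/Div)

`n ∈ (x/8, x]`, squarefree, `z`-rough, `k` primes with exponents `a ≤ b ≤ ..`, sum in `(1 - 3κ/2, 1]`; at most 5 primes.
`k = 1`: `1 + 0`. `k = 2`: `a ≤ 5/11`: `1 - 1 + c(b) ≤ 0`; `a > 5/11`: then `1/2 - κ < b < 6/11`: `c(b) = -1`. `k = 3`, `a ≤ b ≤ c`: `b ≤ 9/22 < 5/11`: `1 - 2 + c(c) + ` the pair `a + b` (the others are `> 6/11`); if it is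
counted, `1/2 < a + b ≤ 6/11 - 2κ`, so `c < 1/2`, fine: `≤ 1 - 2 + 1 = 0`. `k = 4`: all primes `≤ 5/11`: `1 - 4 + ` at most 3 pairs (of two complementary pairs at most one is `> 1/2`). `k = 5`: `1 - 5 + 0`
(pairs `≤ 5/11`). The last one: `psi_FrN`, the density sum as `FrN` (model `Dv.psi_Fr`). -/

namespace Pool.Agent.HN

open Finset Pool.Agent.HS Pool.Agent.HS.Dv

theorem gN_zero (κ s : ℝ) : gN κ 0 s = 1 := by simp [gN]

theorem gN_one (κ s : ℝ) :
    gN κ 1 s = if s ≤ 5 / 11 ∨ (1 / 2 - κ < s ∧ s ≤ 6 / 11) then -1 else 0 := by simp [gN]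

theorem gN_two (κ s : ℝ) :
    gN κ 2 s = if 1 / 2 < s ∧ s ≤ 6 / 11 - 2 * κ then 1 else 0 := by simp [gN]

theorem gN_three (κ s : ℝ) : gN κ 3 s = 0 := by simp [gN]

theorem gN_four (κ s : ℝ) : gN κ 4 s = 0 := by simp [gN]

theorem gN_five (κ s : ℝ) : gN κ 5 s = 0 := by simp [gN]

theorem gN_one_nonpos (κ s : ℝ) : gN κ 1 s ≤ 0 := by
  rw [gN_one]; split_ifs <;> norm_num

theorem gN_two_le (κ s : ℝ) : gN κ 2 s ≤ 1 := by
  rw [gN_two]; split_ifs <;> norm_num

theorem gN_one_small {κ s : ℝ} (h : s ≤ 5 / 11) : gN κ 1 s = -1 := by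
  rw [gN_one, if_pos (Or.inl h)]

theorem gN_one_mid {κ s : ℝ} (h : 1 / 2 - κ < s) (h' : s ≤ 6 / 11) : gN κ 1 s = -1 := by
  rw [gN_one, if_pos (Or.inr ⟨h, h'⟩)]

theorem gN_two_low {κ s : ℝ} (h : s ≤ 1 / 2) : gN κ 2 s = 0 := by
  rw [gN_two, if_neg]
  intro h1
  linarith [h1.1]

theorem gN_two_big {κ s : ℝ} (h : 6 / 11 - 2 * κ < s) : gN κ 2 s = 0 := by
  rw [gN_two, if_neg]
  intro h1
  linarith [h1.2]

/-- of two complementary pairs at most one is counted -/
theorem gN_pair {κ s t : ℝ} (hS1 : s + t ≤ 1) : gN κ 2 s + gN κ 2 t ≤ 1 := by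
  rw [gN_two, gN_two]
  split_ifs with h2 h3 h3
  · exfalso
    linarith [h2.1, h3.1]
  · norm_num
  · norm_num
  · norm_num

theorem F2N_le (κ a b : ℝ) (h0 : 0 ≤ κ) (h1 : κ ≤ 1 / 1000) (hab : a ≤ b) (ha : 2 / 11 ≤ a)
    (hS : 1 - 3 / 2 * κ < a + b) (hS1 : a + b ≤ 1) : FrN κ [a, b] 0 0 ≤ 0 := by
  simp only [FrN, zero_add, gN_zero, Nat.reduceAdd]
  rw [gN_two_big (κ := κ) (s := a + b) (by linarith)]
  by_cases h : a ≤ 5 / 11
  · rw [gN_one_small h]; linarith [gN_one_nonpos κ b]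
  · push Not at h
    rw [gN_one_mid (κ := κ) (s := b) (by linarith) (by linarith)]; linarith [gN_one_nonpos κ a]

theorem F3N_le (κ a b c : ℝ) (h0 : 0 ≤ κ) (h1 : κ ≤ 1 / 1000) (ha : 2 / 11 ≤ a) (hab : a ≤ b)
    (hbc : b ≤ c) (hS : 1 - 3 / 2 * κ < a + b + c) (hS1 : a + b + c ≤ 1) :
    FrN κ [a, b, c] 0 0 ≤ 0 := by
  simp only [FrN, zero_add, gN_zero, gN_three, Nat.reduceAdd]
  rw [gN_one_small (κ := κ) (s := a) (by linarith), gN_one_small (κ := κ) (s := b) (by linarith),
    gN_two_big (κ := κ) (s := a + c) (by linarith), gN_two_big (κ := κ) (s := b + c) (by linarith)]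
  have e3 := gN_one_nonpos κ c
  have e4 := gN_two_le κ (a + b)
  linarith

theorem F4N_le (κ a b c d : ℝ) (ha : 2 / 11 ≤ a) (hab : a ≤ b)
    (hbc : b ≤ c) (hcd : c ≤ d) (hS1 : a + b + c + d ≤ 1) :
    FrN κ [a, b, c, d] 0 0 ≤ 0 := by
  simp only [FrN, zero_add, gN_zero, gN_three, gN_four, Nat.reduceAdd]
  rw [gN_one_small (κ := κ) (s := a) (by linarith), gN_one_small (κ := κ) (s := b) (by linarith),
    gN_one_small (κ := κ) (s := c) (by linarith), gN_one_small (κ := κ) (s := d) (by linarith)]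
  have f1 := gN_pair (κ := κ) (s := a + b) (t := c + d) (by linarith)
  have f2 := gN_pair (κ := κ) (s := a + c) (t := b + d) (by linarith)
  have f3 := gN_pair (κ := κ) (s := a + d) (t := b + c) (by linarith)
  linarith

theorem F5N_le (κ a b c d e : ℝ) (ha : 2 / 11 ≤ a) (hab : a ≤ b)
    (hbc : b ≤ c) (hcd : c ≤ d) (hde : d ≤ e)
    (hS1 : a + b + c + d + e ≤ 1) : FrN κ [a, b, c, d, e] 0 0 ≤ 0 := by
  simp only [FrN, zero_add, gN_zero, gN_three, gN_four, gN_five, Nat.reduceAdd]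
  rw [gN_one_small (κ := κ) (s := a) (by linarith), gN_one_small (κ := κ) (s := b) (by linarith),
    gN_one_small (κ := κ) (s := c) (by linarith), gN_one_small (κ := κ) (s := d) (by linarith),
    gN_one_small (κ := κ) (s := e) (by linarith),
    gN_two_low (κ := κ) (s := a + b) (by linarith), gN_two_low (κ := κ) (s := a + c) (by linarith),
    gN_two_low (κ := κ) (s := a + d) (by linarith), gN_two_low (κ := κ) (s := a + e) (by linarith),
    gN_two_low (κ := κ) (s := b + c) (by linarith), gN_two_low (κ := κ) (s := b + d) (by linarith),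
    gN_two_low (κ := κ) (s := b + e) (by linarith), gN_two_low (κ := κ) (s := c + d) (by linarith),
    gN_two_low (κ := κ) (s := c + e) (by linarith), gN_two_low (κ := κ) (s := d + e) (by linarith)]
  norm_num

/-- divisor sums as `FrN` -/
theorem sum_gN (κ : ℝ) (x : ℕ) (l : List ℕ) (hp : ∀ p ∈ l, p.Prime) (hd : l.Nodup) (j : ℕ)
    (s : ℝ) : ∑ d ∈ l.prod.divisors, gN κ (j + d.primeFactors.card) (s + ex x d) =
      FrN κ (l.map (ex x)) j s := by
  induction l generalizing j s with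
  | nil => simp [ex_one', FrN]
  | cons a l ih =>
    have h1 : ∀ p ∈ l, p.Prime := fun p h => hp p (List.mem_cons_of_mem _ h)
    have ha : a.Prime := hp a (List.mem_cons_self ..)
    have hd' := List.nodup_cons.1 hd
    have hnd := not_dvd_prod' ha h1 hd'.1
    rw [List.prod_cons, mul_comm, divisors_mul_prime (prod_ne' h1) ha hnd, sum_add_distrib,
      List.map_cons, FrN, ← ih h1 hd'.2, ← ih h1 hd'.2]
    congr 1
    refine sum_congr rfl fun d hdm => ?_
    have hdv := Nat.dvd_of_mem_divisors hdm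
    have hd0 : d ≠ 0 := fun h => by
      rw [h, zero_dvd_iff] at hdv
      exact prod_ne' h1 hdv
    rw [card_pf_mul ha (fun h => hnd (h.trans hdv)), ex_mul' x hd0 ha.ne_zero]
    congr 1
    · omega
    · ring

theorem cwN_rough {x d : ℕ} (h : Rough (zx (9 / 11) x) d) :
    cwN x d = gN (kap x) d.primeFactors.card (ex x d) := by
  unfold cwN
  rw [if_pos h]

theorem EwN_rough {x d : ℕ} (h : Rough (zx (9 / 11) x) d) (t : ℕ) :
    EwN x d t = gN (kap x) (d.primeFactors.card + 1) (ex x (d * t)) := by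
  unfold EwN
  rw [if_pos h]

/-- sum of the weights over the divisors of a rough squarefree integer -/
theorem sum_cwN (x : ℕ) (l : List ℕ) (hp : ∀ p ∈ l, p.Prime) (hz : ∀ p ∈ l, zx (9 / 11) x ≤ p)
    (hd : l.Nodup) : ∑ d ∈ l.prod.divisors, cwN x d = FrN (kap x) (l.map (ex x)) 0 0 := by
  rw [← sum_gN (kap x) x l hp hd 0 0]
  refine sum_congr rfl fun d hdm => ?_
  rw [cwN_rough (rough_dvd (rough_prod hp hz hd) (Nat.dvd_of_mem_divisors hdm)), zero_add,
    zero_add]

theorem exN_ge {x p : ℕ} (hx : 2 ≤ x) (hp : zx (9 / 11) x ≤ p) : 2 / 11 ≤ ex x p := by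
  have hx1 : (1 : ℝ) < x := by exact_mod_cast (by omega : 1 < x)
  have hL := Real.log_pos hx1
  have h1 : (x : ℝ) ^ (1 - (9 / 11 : ℝ)) ≤ p := by
    have h2 : (zx (9 / 11) x : ℝ) ≤ p := by exact_mod_cast hp
    exact (Nat.le_ceil _).trans h2
  have h3 : 0 < (x : ℝ) ^ (1 - (9 / 11 : ℝ)) := Real.rpow_pos_of_pos (by linarith) _
  unfold ex
  rw [le_div_iff₀ hL]
  calc 2 / 11 * Real.log x = Real.log ((x : ℝ) ^ (1 - (9 / 11 : ℝ))) := by
        rw [Real.log_rpow (by linarith)]
        ring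
    _ ≤ Real.log p := Real.log_le_log h3 h1

theorem sumN_nonneg {x : ℕ} (hx : 2 ≤ x) (l : List ℕ) (hz : ∀ p ∈ l, zx (9 / 11) x ≤ p) :
    0 ≤ (l.map (ex x)).sum := by
  refine List.sum_nonneg fun y hy => ?_
  obtain ⟨p, h1, rfl⟩ := List.mem_map.1 hy
  have := exN_ge hx (hz p h1)
  linarith

theorem minorN : ∃ x₁ : ℕ, ∀ x : ℕ, x₁ ≤ x → ∀ n : ℕ, x / 8 < n → n ≤ x →
    aa (cwN x) (zx (9 / 11) x) n ≤ if n.Prime then 1 else 0 := by
  obtain ⟨x1, hx1⟩ := cwN_wt
  obtain ⟨x2, hx2⟩ := kap_small (1 / 1000) (by norm_num)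
  refine ⟨x1 + x2 + 16, fun x hx n hn1 hn2 => ?_⟩
  have hW := hx1 x (by omega)
  have hκ := hx2 x (by omega)
  have hκ0 := kap_nn x
  have hx2' : 2 ≤ x := by omega
  by_cases h0 : aa (cwN x) (zx (9 / 11) x) n = 0
  · rw [h0]
    split_ifs <;> norm_num
  have hr := aa_rough _ _ _ hW n h0
  have hs : Squarefree n := by
    by_contra hs
    apply h0
    unfold aa
    rw [if_neg hs]
  have hn0 : n ≠ 0 := hs.ne_zero
  have hn1' : n ≠ 1 := by omega
  obtain ⟨l, hl⟩ : ∃ l, l = n.primeFactorsList := ⟨_, rfl⟩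
  have hp : ∀ p ∈ l, p.Prime := fun p h => Nat.prime_of_mem_primeFactorsList (hl ▸ h)
  have hprod : l.prod = n := by rw [hl, Nat.prod_primeFactorsList hn0]
  have hnd : l.Nodup := hl ▸ hs.nodup_primeFactorsList
  have hz : ∀ p ∈ l, zx (9 / 11) x ≤ p := fun p h =>
    hr p (hp p h) (Nat.dvd_of_mem_primeFactorsList (hl ▸ h))
  have hsort : l.Pairwise (· ≤ ·) := hl ▸ (Nat.primeFactorsList_sorted n).pairwise
  have hval : aa (cwN x) (zx (9 / 11) x) n = FrN (kap x) (l.map (ex x)) 0 0 := by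
    rw [aa_eq _ _ n hs hr, ← sum_cwN x l hp hz hnd, hprod]
  have hS : 1 - 3 / 2 * kap x < (l.map (ex x)).sum := by
    rw [← ex_prod' x l hp, hprod]
    exact ex_gt_of hx2' hn1
  have hS1 : (l.map (ex x)).sum ≤ 1 := by
    rw [← ex_prod' x l hp, hprod]
    exact ex_le_one hx2' hn2
  rw [hval]
  clear hval h0
  rcases l with _ | ⟨a, l⟩
  · exact absurd hprod.symm hn1'
  have ha := exN_ge hx2' (hz a (by simp))
  have ha1 := (hp a (by simp)).one_le
  rcases l with _ | ⟨b, l⟩
  · have hnp : n.Prime := by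
      have h1 : a = n := by simpa using hprod
      rw [← h1]
      exact hp a (by simp)
    rw [if_pos hnp]
    simp only [List.map_cons, List.map_nil, FrN, gN_zero, zero_add]
    linarith [gN_one_nonpos (kap x) (ex x a)]
  have hnp : ¬ n.Prime := by
    rw [← hprod, List.prod_cons, List.prod_cons]
    refine Nat.not_prime_mul (hp a (by simp)).ne_one ?_
    intro h1
    exact (hp b (by simp)).ne_one (Nat.dvd_one.1 ⟨_, h1.symm⟩)
  rw [if_neg hnp]
  have hb := exN_ge hx2' (hz b (by simp))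
  have hb1 := (hp b (by simp)).one_le
  have hab : a ≤ b := (List.pairwise_cons.1 hsort).1 b (by simp)
  have hab' := ex_mono' (x := x) ha1 hab
  rcases l with _ | ⟨c, l⟩
  · simp only [List.map_cons, List.map_nil, List.sum_cons, List.sum_nil, add_zero] at hS hS1 ⊢
    exact F2N_le (kap x) _ _ hκ0 hκ hab' ha hS hS1
  have hc := exN_ge hx2' (hz c (by simp))
  have hc1 := (hp c (by simp)).one_le
  have hs2 := (List.pairwise_cons.1 hsort).2
  have hbc : b ≤ c := (List.pairwise_cons.1 hs2).1 c (by simp)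
  have hbc' := ex_mono' (x := x) hb1 hbc
  rcases l with _ | ⟨d, l⟩
  · simp only [List.map_cons, List.map_nil, List.sum_cons, List.sum_nil, add_zero] at hS hS1 ⊢
    exact F3N_le (kap x) _ _ _ hκ0 hκ ha hab' hbc' (by linarith) (by linarith)
  have hd := exN_ge hx2' (hz d (by simp))
  have hd1 := (hp d (by simp)).one_le
  have hs3 := (List.pairwise_cons.1 hs2).2
  have hcd : c ≤ d := (List.pairwise_cons.1 hs3).1 d (by simp)
  have hcd' := ex_mono' (x := x) hc1 hcd
  rcases l with _ | ⟨e, l⟩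
  · simp only [List.map_cons, List.map_nil, List.sum_cons, List.sum_nil, add_zero] at hS hS1 ⊢
    exact F4N_le (kap x) _ _ _ _ ha hab' hbc' hcd' (by linarith)
  have he := exN_ge hx2' (hz e (by simp))
  have he1 := (hp e (by simp)).one_le
  have hs4 := (List.pairwise_cons.1 hs3).2
  have hde : d ≤ e := (List.pairwise_cons.1 hs4).1 e (by simp)
  have hde' := ex_mono' (x := x) hd1 hde
  rcases l with _ | ⟨f, l⟩
  · simp only [List.map_cons, List.map_nil, List.sum_cons, List.sum_nil, add_zero] at hS hS1 ⊢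
    exact F5N_le (kap x) _ _ _ _ _ ha hab' hbc' hcd' hde' (by linarith)
  exfalso
  have hf := exN_ge hx2' (hz f (by simp))
  have hrest := sumN_nonneg hx2' l (fun p h => hz p (by simp [h]))
  simp only [List.map_cons, List.sum_cons] at hS1
  linarith

theorem psi_FrN (x : ℕ) (l : List ℕ) (hp : ∀ p ∈ l, p.Prime) (hz : ∀ p ∈ l, zx (9 / 11) x ≤ p)
    (hd : l.Nodup) (t : ℕ) (ht : 1 ≤ t) :
    ∑ d ∈ l.prod.divisors, (cwN x d + EwN x d t) = FrN (kap x) (ex x t :: l.map (ex x)) 0 0 := by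
  rw [sum_add_distrib, sum_cwN x l hp hz hd, FrN, ← sum_gN (kap x) x l hp hd (0 + 1) (0 + ex x t)]
  congr 1
  refine sum_congr rfl fun d hdm => ?_
  have hR := rough_dvd (rough_prod hp hz hd) (Nat.dvd_of_mem_divisors hdm)
  rw [EwN_rough hR, ex_mul' x hR.1.ne_zero (by omega), zero_add, zero_add, add_comm (ex x d),
    add_comm _ 1]

end Pool.Agent.HN
end

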