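import Mathlib
import Pool.Agent.Work.BV.GaussLS
import Pool.Agent.Work.BV.Reduce
import Pool.Agent.Work.BV.SW
import Pool.Agent.Work.GBM.C01
import Pool.Agent.Work.GBM.C02
import Pool.Agent.Work.GBM.C08
import Pool.Agent.Work.GBM.C09
import Pool.Agent.Work.GBM.C12
import Pool.Agent.Work.GBM.C14
import Pool.Agent.Work.GBM.C16
import Pool.Agent.Work.GBM.C20
import Pool.Agent.Work.GBM.C22
import Pool.Agent.Work.GBM.C23
import Pool.Agent.Work.GBM.C24
import Pool.Agent.Work.GBM.C25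
import Pool.Agent.Work.GBM.C26
import Pool.Agent.Work.GBM.C28
import Pool.Agent.Work.Shared.PNT.Tauber

section
/-! # Module FinalS

`n = q m`, `x < 2 n ≤ 2 x`: `g(n) log x ≥ ∑_{n₁+n₂=n} af(n₁) Λ(n₂)[(n₁, q) = 1] - 4 √x (log x)²` (`aa_le`, prime powers `n₂`; `(n₁,q) = 1` iff `(n₂,q) = 1`; `af(n₁) ≠ 0` only for `n₁ > x/8 ≥ 2`);
`cv (FA q af) (FL q) = cv (v TM) (FL q) + E`, `∑_m ‖E(q m)‖² ≤ sup VV * ∑ ‖FL‖²` (`circle`, `sup_F`), so `‖E‖ ≤ c₀ x/(100 L)` for all but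
`x/(q L^K)` of the `m`; `tl_main` with `B = 2`; `sing`: `(q/φ(q)) Sg ≥ 4/5` for all but few `m`; `∑_{n₁ < n} v ≥ ∑_{n₁ < n} af - x/L^BD ≥ c₀ (n-1)/L - x/L^BD` (`VLow`).
So `g(n) log x ≥ (4/5) c₀ (n-1)/L - c₀ x/(50 L) ≥ c₀ n/(2 L)`; `Bad (c₀/4)` fails. -/

namespace Pool.Agent.HS

open Finset Pool.Agent.BV Pool.Agent.HL
open scoped ArithmeticFunction.vonMangoldt ArithmeticFunction.Moebius

theorem count_bigS (q x B'' : ℕ) (h : ℕ → ℂ) (c : ℝ) (hc : 0 < c) (hx : 3 ≤ x) (hq : 1 ≤ q)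
    (hV : ∀ α, VV q x h α ≤ (x : ℝ) ^ 2 / (q * (Real.log x) ^ B'')) :
    (((Icc 1 (x / q)).filter (fun m => c * x / Real.log x ≤ ‖cv h (FL q) (q * m)‖)).card : ℝ) ≤
      x * (Real.log x) ^ 4 / (c ^ 2 * (q * (Real.log x) ^ B'')) := by
  have hL := one_le_log hx
  have hx0 : (0 : ℝ) < x := by exact_mod_cast (by omega : 0 < x)
  have hq0 : (0 : ℝ) < q := by exact_mod_cast hq
  set L := Real.log x with hLdef
  have hL0 : 0 < L := by linarith
  have h1 := circle q x hq h (FL q) _ hV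
  have hF := fl_sq_sum_le q x
  set S := (Icc 1 (x / q)).filter (fun m => c * x / L ≤ ‖cv h (FL q) (q * m)‖) with hS
  have h2 : (S.card : ℝ) * (c * x / L) ^ 2 ≤ (x : ℝ) ^ 2 / (q * L ^ B'') * (x * L ^ 2) := by
    calc (S.card : ℝ) * (c * x / L) ^ 2 = ∑ m ∈ S, (c * x / L) ^ 2 := by
          rw [sum_const, nsmul_eq_mul]
      _ ≤ ∑ m ∈ S, ‖cv h (FL q) (q * m)‖ ^ 2 := by
          apply sum_le_sum
          intro m hm
          rw [hS, mem_filter] at hm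
          exact pow_le_pow_left₀ (by positivity) hm.2 2
      _ ≤ ∑ m ∈ Icc 1 (x / q), ‖cv h (FL q) (q * m)‖ ^ 2 := by
          apply sum_le_sum_of_subset_of_nonneg (filter_subset _ _)
          intro m _ _
          positivity
      _ ≤ _ := h1
      _ ≤ _ := mul_le_mul_of_nonneg_left hF (by positivity)
  have h3 : (S.card : ℝ) ≤ (x : ℝ) ^ 2 / (q * L ^ B'') * (x * L ^ 2) / (c * x / L) ^ 2 := by
    rw [le_div_iff₀ (by positivity)]
    exact h2
  refine h3.trans (le_of_eq ?_)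
  field_simp

theorem cut_le (x : ℕ) (f : ℕ → ℝ) (k : ℕ) (h8 : 8 ≤ x)
    (hf : ∀ n : ℕ, x / 8 < n → n ≤ x → f n ≤ if n.Prime then 1 else 0) :
    cut x f k ≤ if k.Prime then 1 else 0 := by
  unfold cut
  split_ifs with h1 h2 h2
  · have := hf k h1.1 h1.2
    rwa [if_pos h2] at this
  · have := hf k h1.1 h1.2
    rwa [if_neg h2] at this
  · norm_num
  · exact le_rfl

open Pool.Agent.Work.MP_92f640_nt in
theorem cvS_re_le (q n x : ℕ) (f : ℕ → ℝ) (hn : 3 ≤ n) (h8 : 8 ≤ x)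
    (hf : ∀ n : ℕ, x / 8 < n → n ≤ x → f n ≤ if n.Prime then 1 else 0) :
    (cv (FA q (cut x f)) (FL q) n).re ≤ Real.log n * goldbachCount n +
      2 * Real.sqrt n * Real.log n := by
  have hL : 0 ≤ Real.log n := Real.log_nonneg (by exact_mod_cast (by omega : 1 ≤ n))
  have h2 : ∀ k ∈ Ico 1 n, (FA q (cut x f) k * FL q (n - k)).re ≤
      (if k.Prime ∧ (n - k).Prime then Real.log n else 0) +
      (if ¬ (n - k).Prime then Λ (n - k) else 0) := by
    intro k hk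
    rw [mem_Ico] at hk
    have a1 := cut_le x f k h8 hf
    have a2 := mangoldt_le_log' (k := n - k) (n := n) (by omega) (by omega)
    have b2 : 0 ≤ Λ (n - k) := ArithmeticFunction.vonMangoldt_nonneg
    have c0 : 0 ≤ (if k.Prime ∧ (n - k).Prime then Real.log n else 0) +
        (if ¬ (n - k).Prime then Λ (n - k) else 0) := by
      split_ifs <;> linarith
    unfold FA FL
    by_cases d1 : k.Coprime q <;> by_cases d2 : (n - k).Coprime q
    · rw [if_pos d1, if_pos d2, ← Complex.ofReal_mul, Complex.ofReal_re]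
      have e1 : cut x f k * Λ (n - k) ≤ (if k.Prime then 1 else 0) * Λ (n - k) :=
        mul_le_mul_of_nonneg_right a1 b2
      refine e1.trans ?_
      by_cases c1 : k.Prime <;> by_cases c2 : (n - k).Prime <;> simp only [c1, c2] <;> simp
      exact a2
    · rw [if_neg d2, mul_zero, Complex.zero_re]
      exact c0
    · rw [if_neg d1, zero_mul, Complex.zero_re]
      exact c0
    · rw [if_neg d1, zero_mul, Complex.zero_re]
      exact c0
  have h1 : (cv (FA q (cut x f)) (FL q) n).re ≤ ∑ k ∈ Ico 1 n,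
      ((if k.Prime ∧ (n - k).Prime then Real.log n else 0) +
      (if ¬ (n - k).Prime then Λ (n - k) else 0)) := by
    unfold cv
    rw [Complex.re_sum]
    exact sum_le_sum h2
  rw [sum_add_distrib] at h1
  have h4 : ∑ k ∈ Ico 1 n, (if k.Prime ∧ (n - k).Prime then Real.log n else 0) ≤
      Real.log n * goldbachCount n := by
    rw [← sum_filter, sum_const, nsmul_eq_mul, mul_comm]
    apply mul_le_mul_of_nonneg_left _ hL
    unfold goldbachCount
    norm_cast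
    apply card_le_card
    intro k hk
    rw [mem_filter, mem_Ico] at hk
    rw [mem_filter, mem_range]
    exact ⟨by omega, hk.2⟩
  have h6 : ∑ k ∈ Ico 1 n, (if ¬ (n - k).Prime then Λ (n - k) else 0) ≤
      2 * Real.sqrt n * Real.log n := by
    have : ∑ k ∈ Ico 1 n, (if ¬ (n - k).Prime then Λ (n - k) else 0) =
        ∑ k ∈ Ico 1 n, (if ¬ k.Prime then Λ k else 0) := by
      apply sum_bij' (fun k _ => n - k) (fun k _ => n - k)
      · intro k hk; rw [mem_Ico] at *; omega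
      · intro k hk; rw [mem_Ico] at *; omega
      · intro k hk; rw [mem_Ico] at *; omega
      · intro k hk; rw [mem_Ico] at *; omega
      · intro k hk; rfl
    rw [this, ← sum_filter]
    exact (not_prime_sum_le n).trans (primes_sub_le hn le_rfl)
  linarith

theorem cv_splitS (q n : ℕ) (f g : ℕ → ℂ) :
    cv f (FL q) n = cv (fun k => f k - g k) (FL q) n + cv g (FL q) n := by
  unfold cv
  rw [← sum_add_distrib]
  apply sum_congr rfl
  intro k _
  ring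

open Pool.Agent.Work.MP_92f640_nt in
/-- good `m` give good even numbers -/
theorem not_badS (c₀ : ℝ) (hc : 0 < c₀) (q Q m x : ℕ) (f v : ℕ → ℝ)
    (hf : ∀ n : ℕ, x / 8 < n → n ≤ x → f n ≤ if n.Prime then 1 else 0)
    (hn3 : 3 ≤ q * m) (hn : q * m ≤ x) (hx2 : x < 2 * (q * m))
    (hd : ‖cv (fun n => FA q (cut x f) n - ((v n : ℝ) : ℂ) * TM q Q n) (FL q) (q * m)‖ <
      c₀ / 100 * x / Real.log x)
    (hs : 4 / 5 ≤ (q : ℝ) / q.totient * Sg q Q m)
    (ht : ‖cv (fun n => ((v n : ℝ) : ℂ) * TM q Q n) (FL q) (q * m) -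
      (((q : ℝ) / q.totient * Sg q Q m * ∑ n ∈ Ico 1 (q * m), v n : ℝ) : ℂ)‖ ≤
      (x : ℝ) / (Real.log x) ^ 2)
    (hv : c₀ * (3 / 4 * ((q * m : ℕ) : ℝ) - 1) / Real.log x ≤ ∑ n ∈ Ico 1 (q * m), v n)
    (hL4 : 4 ≤ Real.log x) (hLc : 100 ≤ c₀ * Real.log x) (hx200 : 200 ≤ x)
    (hp : 400 * (Real.log x) ^ 2 * Real.sqrt x ≤ c₀ * x) : ¬ Bad (c₀ / 4) (q * m) := by
  intro hbad
  unfold Bad at hbad
  have hR := cvS_re_le q (q * m) x f hn3 (by omega) hf
  set n := q * m with hndef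
  set W := ∑ n ∈ Ico 1 n, v n with hW
  set L := Real.log x with hLdef
  have hn0 : (0 : ℝ) < n := by exact_mod_cast (by omega : 0 < n)
  have hnx : (n : ℝ) ≤ x := by exact_mod_cast hn
  have hx2' : (x : ℝ) < 2 * n := by exact_mod_cast hx2
  have hx200' : (200 : ℝ) ≤ x := by exact_mod_cast hx200
  have hL0 : 0 < L := by linarith
  have hn1L : 1 ≤ Real.log n := one_le_log hn3
  have hLx : Real.log n ≤ L := Real.log_le_log hn0 hnx
  have hLn : 4 / 5 * L ≤ Real.log n := by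
    have h1 : L ≤ Real.log (2 * n) := Real.log_le_log (by linarith) hx2'.le
    rw [Real.log_mul (by norm_num) hn0.ne'] at h1
    have := Real.log_two_lt_d9
    linarith
  have hsq : Real.sqrt n ≤ Real.sqrt x := Real.sqrt_le_sqrt hnx
  have hs0 : 0 ≤ Real.sqrt n := Real.sqrt_nonneg _
  have hsx0 : 0 ≤ Real.sqrt x := Real.sqrt_nonneg _
  have hg0 : (0 : ℝ) ≤ goldbachCount n := Nat.cast_nonneg _
  have hW0' : 0 ≤ W := by
    refine le_trans ?_ hv
    have : 0 ≤ 3 / 4 * (n : ℝ) - 1 := by linarith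
    positivity
  have hW2 : c₀ * (3 / 4 * (n : ℝ) - 1) * L ≤ W * L ^ 2 := by
    have h1 := mul_le_mul_of_nonneg_right hv (by positivity : 0 ≤ L ^ 2)
    have h2 : (c₀ * (3 / 4 * (n : ℝ) - 1) / L) * L ^ 2 = c₀ * (3 / 4 * (n : ℝ) - 1) * L := by
      field_simp
    rw [h2] at h1
    exact h1
  have hmain : 4 / 5 * W - (x : ℝ) / L ^ 2 - c₀ / 100 * x / L ≤
      (cv (FA q (cut x f)) (FL q) n).re := by
    have a1 := (Complex.abs_re_le_norm _).trans ht
    rw [Complex.sub_re, Complex.ofReal_re] at a1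
    have a2 := (abs_le.1 a1).1
    have a3 := (Complex.abs_re_le_norm _).trans hd.le
    have a4 := (abs_le.1 a3).1
    have a5 : 4 / 5 * W ≤ (q : ℝ) / q.totient * Sg q Q m * W :=
      mul_le_mul_of_nonneg_right hs hW0'
    rw [cv_splitS q n (FA q (cut x f)) (fun n => ((v n : ℝ) : ℂ) * TM q Q n), Complex.add_re]
    linarith
  have hup : (cv (FA q (cut x f)) (FL q) n).re ≤ L * goldbachCount n + 2 * Real.sqrt x * L := by
    refine hR.trans ?_
    have b1 : Real.log n * goldbachCount n ≤ L * goldbachCount n :=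
      mul_le_mul_of_nonneg_right hLx hg0
    have b2 : 2 * Real.sqrt n * Real.log n ≤ 2 * Real.sqrt x * L := by gcongr
    linarith
  have hcomb : 4 / 5 * (W * L ^ 2) - x - c₀ / 100 * x * L ≤
      L ^ 3 * goldbachCount n + 2 * Real.sqrt x * L ^ 3 := by
    have h1 := mul_le_mul_of_nonneg_right (hmain.trans hup) (by positivity : 0 ≤ L ^ 2)
    have h2 : (4 / 5 * W - (x : ℝ) / L ^ 2 - c₀ / 100 * x / L) * L ^ 2 =
        4 / 5 * (W * L ^ 2) - x - c₀ / 100 * x * L := by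
      field_simp
    have h3 : (L * goldbachCount n + 2 * Real.sqrt x * L) * L ^ 2 =
        L ^ 3 * goldbachCount n + 2 * Real.sqrt x * L ^ 3 := by ring
    rw [h2, h3] at h1
    exact h1
  have hp2 : 2 * Real.sqrt x * L ^ 3 ≤ c₀ / 200 * x * L := by
    have h1 := mul_le_mul_of_nonneg_right hp hL0.le
    have h2 : 2 * Real.sqrt x * L ^ 3 = (400 * L ^ 2 * Real.sqrt x * L) / 200 := by ring
    rw [h2]
    linarith
  have hb1 : (goldbachCount n : ℝ) * (Real.log n) ^ 2 < c₀ / 4 * n := by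
    rwa [lt_div_iff₀ (by positivity)] at hbad
  have hb2 : (goldbachCount n : ℝ) * (16 / 25 * L ^ 2) ≤ (goldbachCount n : ℝ) * (Real.log n) ^ 2 := by
    apply mul_le_mul_of_nonneg_left _ hg0
    calc 16 / 25 * L ^ 2 = (4 / 5 * L) ^ 2 := by ring
      _ ≤ (Real.log n) ^ 2 := pow_le_pow_left₀ (by positivity) hLn 2
  have hb3 : L ^ 3 * goldbachCount n ≤ 25 / 64 * c₀ * n * L := by
    have h1 : (goldbachCount n : ℝ) * L ^ 2 ≤ 25 / 64 * c₀ * n := by linarith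
    calc L ^ 3 * goldbachCount n = ((goldbachCount n : ℝ) * L ^ 2) * L := by ring
      _ ≤ (25 / 64 * c₀ * n) * L := mul_le_mul_of_nonneg_right h1 hL0.le
  -- contradiction
  have e1 : (x : ℝ) ≤ c₀ * L * x / 100 := by nlinarith
  have hcL : 0 < c₀ * L := by positivity
  have e2 : c₀ * L * x ≤ c₀ * L * (2 * n) := mul_le_mul_of_nonneg_left hx2'.le hcL.le
  have e3 : c₀ * L * 100 ≤ c₀ * L * n := by
    apply mul_le_mul_of_nonneg_left _ hcL.le
    linarith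
  have e4 : c₀ * (3 / 4 * (n : ℝ) - 1) * L = 3 / 4 * (c₀ * L * n) - c₀ * L := by ring
  have e5 : c₀ / 100 * x * L = c₀ * L * x / 100 := by ring
  have e6 : c₀ / 200 * x * L = c₀ * L * x / 200 := by ring
  have e7 : 25 / 64 * c₀ * n * L = 25 / 64 * (c₀ * L * n) := by ring
  have e8 : c₀ * L * (2 * n) = 2 * (c₀ * L * n) := by ring
  rw [e4] at hW2
  rw [e5] at hcomb
  rw [e6] at hp2
  rw [e7] at hb3
  rw [e8] at e2
  have e9 : 0 < c₀ * L * n := by positivity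
  linarith

/-- the density sum -/
theorem dens_sum_ge (c₀ : ℝ) (hc : 0 < c₀) (x n : ℕ) (g : ℕ → ℝ) (h3 : 16 ≤ x) (hn : n ≤ x)
    (hx2 : x < 2 * n) (hg : ∀ k : ℕ, x / 8 < k → k ≤ x → c₀ ≤ g k) :
    c₀ * (3 / 4 * (n : ℝ) - 1) / Real.log x ≤
      ∑ k ∈ Ico 1 n, cut x (fun k => g k / Real.log k) k := by
  have hL := one_le_log (show 3 ≤ x by omega)
  have h1 : ∑ k ∈ Ico (x / 8 + 1) n, cut x (fun k => g k / Real.log k) k =
      ∑ k ∈ Ico 1 n, cut x (fun k => g k / Real.log k) k := by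
    apply sum_subset
    · intro k hk
      rw [mem_Ico] at *
      omega
    · intro k hk hk2
      rw [mem_Ico] at hk hk2
      unfold cut
      rw [if_neg]
      omega
  rw [← h1]
  have h2 : ∀ k ∈ Ico (x / 8 + 1) n, c₀ / Real.log x ≤ cut x (fun k => g k / Real.log k) k := by
    intro k hk
    rw [mem_Ico] at hk
    have hk3 : 3 ≤ k := by omega
    have hkx : k ≤ x := by omega
    unfold cut
    rw [if_pos ⟨by omega, hkx⟩]
    have hLk := one_le_log hk3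
    have hLkx : Real.log k ≤ Real.log x :=
      Real.log_le_log (by exact_mod_cast (by omega : 0 < k)) (by exact_mod_cast hkx)
    have h4 := hg k (by omega) hkx
    exact div_le_div₀ (hc.le.trans h4) h4 (by linarith) hLkx
  have h3' := card_nsmul_le_sum _ _ _ h2
  refine le_trans ?_ h3'
  rw [Nat.card_Ico, nsmul_eq_mul, mul_div_assoc', mul_comm ((n - (x / 8 + 1) : ℕ) : ℝ) c₀]
  apply div_le_div_of_nonneg_right _ (by linarith)
  apply mul_le_mul_of_nonneg_left _ hc.le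
  have h5 : ((x / 8 : ℕ) : ℝ) ≤ (x : ℝ) / 8 := Nat.cast_div_le
  have h6 : (x : ℝ) < 2 * n := by exact_mod_cast hx2
  rw [Nat.cast_sub (by omega)]
  push_cast
  linarith

theorem abs_AJ_le (y z w : ℕ) (η : ℝ) (j c : ℕ) : |AJ y z w η j c| ≤ 1 := by
  unfold AJ
  split_ifs
  · have h1 := ArithmeticFunction.abs_moebius_le_one (n := c)
    have h2 : |((μ c : ℤ) : ℝ)| = ((|μ c| : ℤ) : ℝ) := by push_cast; rfl
    rw [h2]
    exact_mod_cast h1
  · rw [abs_zero]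
    norm_num

theorem ev_wz (θ κ : ℝ) (hθ : 1 / 2 ≤ θ) (hκ1 : κ ≤ 1 / 8) (hκ : 0 < κ) :
    ∀ᶠ x : ℕ in Filter.atTop, wk κ x * zx θ x ≤ x := by
  filter_upwards [evt_pow 4 0 (3 / 8) (by norm_num), Filter.eventually_ge_atTop 1] with x h1 h2
  have hx1 : (1 : ℝ) ≤ x := by exact_mod_cast h2
  have hx0 : (0 : ℝ) < x := by linarith
  rw [pow_zero, mul_one] at h1
  have a1 : (wk κ x : ℝ) ≤ 2 * (x : ℝ) ^ (1 / 8 : ℝ) := by
    unfold wk
    have b1 := Nat.ceil_lt_add_one (by positivity : 0 ≤ (x : ℝ) ^ κ)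
    have b2 : (x : ℝ) ^ κ ≤ (x : ℝ) ^ (1 / 8 : ℝ) := Real.rpow_le_rpow_of_exponent_le hx1 hκ1
    have b3 : (1 : ℝ) ≤ (x : ℝ) ^ (1 / 8 : ℝ) := Real.one_le_rpow hx1 (by norm_num)
    linarith
  have a2 : (zx θ x : ℝ) ≤ 2 * (x : ℝ) ^ (1 / 2 : ℝ) := by
    unfold zx
    have b1 := Nat.ceil_lt_add_one (by positivity : 0 ≤ (x : ℝ) ^ (1 - θ))
    have b2 : (x : ℝ) ^ (1 - θ) ≤ (x : ℝ) ^ (1 / 2 : ℝ) :=
      Real.rpow_le_rpow_of_exponent_le hx1 (by linarith)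
    have b3 : (1 : ℝ) ≤ (x : ℝ) ^ (1 / 2 : ℝ) := Real.one_le_rpow hx1 (by norm_num)
    linarith
  have a3 : ((wk κ x * zx θ x : ℕ) : ℝ) ≤ x := by
    push_cast
    calc (wk κ x : ℝ) * zx θ x ≤ (2 * (x : ℝ) ^ (1 / 8 : ℝ)) * (2 * (x : ℝ) ^ (1 / 2 : ℝ)) := by
          gcongr
      _ = 4 * ((x : ℝ) ^ (1 / 8 : ℝ) * (x : ℝ) ^ (1 / 2 : ℝ)) := by ring
      _ ≤ (x : ℝ) ^ (3 / 8 : ℝ) * ((x : ℝ) ^ (1 / 8 : ℝ) * (x : ℝ) ^ (1 / 2 : ℝ)) :=
          mul_le_mul_of_nonneg_right h1 (by positivity)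
      _ = (x : ℝ) := by
          rw [← Real.rpow_add hx0, ← Real.rpow_add hx0]
          norm_num
  exact_mod_cast a3

end Pool.Agent.HS
end

section
/-! # Module FinalN

Copy of `main_natS`, `level_theta` (HS/FinalS): `θ = 10/11` for `q` (`bsetF (10/11) κ ε (B' + 2) (B₁ + 1) B9`), `zx (9/11) x`, `dens (9/11) V0`, `κ = min (ε/8) (1/100)`, `sup_N`. -/

namespace Pool.Agent.HN

open Finset Pool.Agent.BV Pool.Agent.HL Pool.Agent.HS

open Classical in
theorem main_natN (c₀ V0 : ℝ) (hc : 0 < c₀) (hV0 : 0 ≤ V0)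
    (hv : VLowN c₀ V0) (ε : ℝ) (hε : 0 < ε) (K : ℕ) : ∃ C : ℕ, ∀ A : ℕ, ∃ x₁ : ℕ, ∀ x : ℕ, x₁ ≤ x →
    ∃ B : Finset ℕ, (B.card : ℝ) ≤ (Real.log x) ^ C ∧ (∀ b ∈ B, (Real.log x) ^ A < (b : ℝ)) ∧
      ∀ q : ℕ, 1 ≤ q → (q : ℝ) ≤ (x : ℝ) ^ (10 / 11 - ε) → (∀ b ∈ B, ¬ b ∣ q) →
        (((Icc 1 x).filter (fun n => x < 2 * n ∧ Even n ∧ q ∣ n ∧
          Pool.Agent.Work.MP_92f640_nt.Bad (c₀ / 4) n)).card : ℝ) ≤
          (x : ℝ) / (q * (Real.log x) ^ K) := by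
  obtain ⟨V, hVp, hdens⟩ := dens (9 / 11) V0 (by norm_num) (by norm_num) hV0
  set κ : ℝ := min (ε / 8) (1 / 100) with hκdef
  have hκ : 0 < κ := by
    rw [hκdef]
    exact lt_min (by linarith) (by norm_num)
  have hκ1 : κ ≤ 1 / 100 := min_le_right _ _
  have hκε : 8 * κ ≤ ε := by
    have : κ ≤ ε / 8 := min_le_left _ _
    linarith
  obtain ⟨B₁, B', B9, BD, hB₁, hsup⟩ := sup_N κ ε V hκ hκ1 hε hκε hVp (2 * K + 8)
  obtain ⟨C, hbset⟩ := bsetF (10 / 11) κ ε (by norm_num) hκ hε (B' + 2) (B₁ + 1) B9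
  obtain ⟨C₂, hC₂, hsing⟩ := sing
  obtain ⟨xd, hxd⟩ := hdens BD
  obtain ⟨xt, hxt⟩ := tl_main (B₁ + 1) 2 V hVp
  obtain ⟨xv, hxv⟩ := hv
  refine ⟨C, fun A => ?_⟩
  obtain ⟨x₁, hx₁⟩ := hsup (A + (B₁ + 1) + 1)
  obtain ⟨x₂, hx₂⟩ := hbset A
  have hev : ∀ᶠ x : ℕ in Filter.atTop, 20000 / c₀ ^ 2 ≤ (Real.log x) ^ 4 ∧
      4 * C₂ ≤ (Real.log x) ^ 3 ∧ 4 ≤ Real.log x ∧ 100 ≤ c₀ * Real.log x ∧
      400 * (Real.log x) ^ 2 * Real.sqrt x ≤ c₀ * x ∧ wk κ x * zx (9 / 11) x ≤ x ∧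
      200 ≤ x ∧ x₁ ≤ x ∧ x₂ ≤ x ∧ xd ≤ x ∧ xt ≤ x ∧ xv ≤ x := by
    filter_upwards [ev_log_ge 4 (by norm_num) (20000 / c₀ ^ 2),
      ev_log_ge 3 (by norm_num) (4 * C₂), evt_log 4, evt_log (100 / c₀), ev_pow_log 2 (400 / c₀),
      ev_wz (9 / 11) κ (by norm_num) (by linarith) hκ, Filter.eventually_ge_atTop 200, Filter.eventually_ge_atTop x₁,
      Filter.eventually_ge_atTop x₂, Filter.eventually_ge_atTop xd, Filter.eventually_ge_atTop xt,
      Filter.eventually_ge_atTop xv] with x a1 a2 a3 a4 a5 a6 a7 a8 a9 a10 a11 a12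
    refine ⟨a1, a2, a3, ?_, ?_, a6, a7, a8, a9, a10, a11, a12⟩
    · rw [div_le_iff₀ hc] at a4
      linarith
    · have h1 := mul_le_mul_of_nonneg_left a5 hc.le
      have h2 : c₀ * (400 / c₀ * Real.log x ^ 2 * Real.sqrt x) =
          400 * (Real.log x) ^ 2 * Real.sqrt x := by
        field_simp
      rw [h2] at h1
      exact h1
  obtain ⟨x₀, hx₀⟩ := Filter.eventually_atTop.1 hev
  refine ⟨x₀, fun x hx => ?_⟩
  obtain ⟨c1, c2, c3, c4, c5, c6, c7, hxx1, hxx2, hxxd, hxxt, hxxv⟩ := hx₀ x hx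
  have h3 : 3 ≤ x := by omega
  have hL := one_le_log h3
  set L := Real.log x with hLdef
  have hx0 : (0 : ℝ) < x := by exact_mod_cast (by omega : 0 < x)
  have hx1 : (1 : ℝ) ≤ x := by exact_mod_cast (by omega : 1 ≤ x)
  have hJ : (JJ x B' : ℝ) ≤ L ^ (B' + 2) := by
    unfold JJ
    have b1 := Nat.ceil_lt_add_one (by positivity : 0 ≤ 2 * L ^ (B' + 1))
    have b2 : 1 ≤ L ^ (B' + 1) := one_le_pow₀ hL
    have b3 : L ^ (B' + 2) = L * L ^ (B' + 1) := by ring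
    rw [b3]
    have b4 : 4 * L ^ (B' + 1) ≤ L * L ^ (B' + 1) := mul_le_mul_of_nonneg_right c3 (by positivity)
    linarith
  obtain ⟨B, hB1, hB2, hB3⟩ := hx₂ x hxx2 (wk κ x * zx (9 / 11) x) (JJ x B')
    (AJ (y0 x) (zx (9 / 11) x) (wk κ x) (1 / (Real.log x) ^ B')) (fun j c => abs_AJ_le _ _ _ _ j c) c6 hJ
  refine ⟨B, hB1, hB2, fun q hq hqx hqB => ?_⟩
  obtain ⟨cc, E, hadm⟩ := hxv x hxxv
  obtain ⟨hvb, hvd⟩ := hxd x hxxd _ cc E hadm.wt hadm.wte
  set v : ℕ → ℝ := cut x (fun n => KK cc E (zx (9 / 11) x) n / Real.log n) with hvdef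
  have hV := hx₁ x hxx1 q hq hqx (hB3 q hq hqx hqB) cc v hadm.wt hvb hvd
  set Q := ⌈L ^ B₁⌉₊ with hQdef
  have hq0 : (0 : ℝ) < q := by exact_mod_cast hq
  have hLB : 1 ≤ L ^ B₁ := one_le_pow₀ hL
  have hQle : (Q : ℝ) ≤ 2 * L ^ B₁ := by
    have := Nat.ceil_lt_add_one (by positivity : 0 ≤ L ^ B₁)
    linarith
  have hQge : L ^ B₁ ≤ (Q : ℝ) := Nat.le_ceil _
  have hQ1 : 1 ≤ Q := by
    have : (1 : ℝ) ≤ Q := hLB.trans hQge
    exact_mod_cast this
  have hQB : (Q : ℝ) ≤ L ^ (B₁ + 1) := by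
    refine hQle.trans ?_
    rw [pow_succ, mul_comm (L ^ B₁)]
    exact mul_le_mul_of_nonneg_right (by linarith) (by positivity)
  have hqx' : q ≤ x := by
    have h1 : (q : ℝ) ≤ x := by
      refine hqx.trans ?_
      calc (x : ℝ) ^ (10 / 11 - ε) ≤ (x : ℝ) ^ (1 : ℝ) :=
            Real.rpow_le_rpow_of_exponent_le hx1 (by linarith)
        _ = x := Real.rpow_one _
    exact_mod_cast h1
  have hlogq : Real.log q ≤ L := Real.log_le_log hq0 (by exact_mod_cast hqx')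
  have hE1 := count_bigS q x (2 * K + 8) _ (c₀ / 100) (by positivity) h3 hq hV
  have hE2 := hsing q Q (x / q) hq hQ1
  set D : ℕ → ℝ := fun m => ‖cv (fun n => FA q (cut x (aa cc (zx (9 / 11) x))) n - ((v n : ℝ) : ℂ) * TM q Q n)
    (FL q) (q * m)‖ with hD
  set E1 := (Icc 1 (x / q)).filter (fun m => c₀ / 100 * x / L ≤ D m) with hE1def
  set E2 := (Icc 1 (x / q)).filter (fun m => Even (q * m) ∧
    (q : ℝ) / q.totient * Sg q Q m < 4 / 5) with hE2def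
  have hsub : (Icc 1 x).filter (fun n => x < 2 * n ∧ Even n ∧ q ∣ n ∧
          Pool.Agent.Work.MP_92f640_nt.Bad (c₀ / 4) n) ⊆ (E1 ∪ E2).image (fun m => q * m) := by
    intro n hn
    rw [mem_filter, mem_Icc] at hn
    obtain ⟨⟨hn1, hnx⟩, hx2, hev', ⟨m, rfl⟩, hbad⟩ := hn
    have hm : 1 ≤ m := by
      rcases Nat.eq_zero_or_pos m with h | h
      · subst h; simp at hn1
      · exact h
    have hmx : m ≤ x / q := by
      rw [Nat.le_div_iff_mul_le hq, mul_comm]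
      exact hnx
    rw [mem_image]
    refine ⟨m, ?_, rfl⟩
    rw [mem_union]
    by_contra hcon
    push Not at hcon
    obtain ⟨k1, k2⟩ := hcon
    rw [hE1def, mem_filter, mem_Icc] at k1
    rw [hE2def, mem_filter, mem_Icc] at k2
    have k1' : D m < c₀ / 100 * x / L := by
      by_contra h
      exact k1 ⟨⟨hm, hmx⟩, not_lt.1 h⟩
    have k2' : 4 / 5 ≤ (q : ℝ) / q.totient * Sg q Q m := by
      by_contra h
      exact k2 ⟨⟨hm, hmx⟩, hev', not_le.1 h⟩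
    have ht := hxt x hxxt q Q m v hq hqx' hQ1 hQB hvb hm hnx
    have hvs := dens_sum_ge c₀ hc x (q * m) (KK cc E (zx (9 / 11) x)) (by omega) hnx hx2 hadm.dens
    exact not_badS c₀ hc q Q m x (aa cc (zx (9 / 11) x)) v hadm.minor (by omega) hnx hx2 k1' k2' ht hvs
      c3 c4 c7 c5 hbad
  have hcard : (((Icc 1 x).filter (fun n => x < 2 * n ∧ Even n ∧ q ∣ n ∧
          Pool.Agent.Work.MP_92f640_nt.Bad (c₀ / 4) n)).card : ℝ) ≤ (E1.card : ℝ) + E2.card := by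
    have := (card_le_card hsub).trans (card_image_le.trans (card_union_le E1 E2))
    exact_mod_cast this
  refine hcard.trans ?_
  have hLK : 0 < L ^ K := by positivity
  have hb1 : (E1.card : ℝ) ≤ 1 / 2 * ((x : ℝ) / (q * L ^ K)) := by
    refine hE1.trans ?_
    have a1 : x * L ^ 4 / ((c₀ / 100) ^ 2 * (q * L ^ (2 * K + 8))) =
        10000 / c₀ ^ 2 * ((x : ℝ) / (q * L ^ K)) / L ^ (K + 4) := by
      have : L ^ (2 * K + 8) = L ^ K * L ^ (K + 4) * L ^ 4 := by ring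
      rw [this]
      have hL0 : L ≠ 0 := by positivity
      field_simp
      ring
    rw [a1, div_le_iff₀ (by positivity)]
    have a2 : L ^ 4 ≤ L ^ (K + 4) := pow_le_pow_right₀ hL (by omega)
    have a3 : 0 ≤ (x : ℝ) / (q * L ^ K) := by positivity
    have a4 : 20000 / c₀ ^ 2 = 2 * (10000 / c₀ ^ 2) := by ring
    have a5 := c1.trans a2
    rw [a4] at a5
    nlinarith [mul_le_mul_of_nonneg_right a5 a3]
  have hb2 : (E2.card : ℝ) ≤ 1 / 2 * ((x : ℝ) / (q * L ^ K)) := by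
    refine hE2.trans ?_
    have a1 : ((x / q : ℕ) : ℝ) ≤ (x : ℝ) / q := Nat.cast_div_le
    have a2 : L ^ (K + 4) ≤ Real.sqrt Q := by
      apply Real.le_sqrt_of_sq_le
      calc (L ^ (K + 4)) ^ 2 = L ^ (2 * K + 8) := by ring
        _ ≤ L ^ B₁ := pow_le_pow_right₀ hL hB₁
        _ ≤ Q := hQge
    have a3 : (0 : ℝ) < L ^ (K + 4) := by positivity
    have hlq0 : 0 ≤ Real.log q := Real.log_nonneg (by exact_mod_cast hq)
    calc C₂ * ((x / q : ℕ) : ℝ) * (1 + Real.log q) / Real.sqrt Q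
        ≤ C₂ * ((x : ℝ) / q) * (2 * L) / L ^ (K + 4) := by
          apply div_le_div₀ (by positivity) _ a3 a2
          have : 1 + Real.log q ≤ 2 * L := by linarith
          gcongr
      _ = (4 * C₂) * (1 / 2 * ((x : ℝ) / (q * L ^ K))) / L ^ 3 := by
          have hL0 : L ≠ 0 := by positivity
          have : L ^ (K + 4) = L ^ K * L ^ 3 * L := by ring
          rw [this]
          field_simp
          ring
      _ ≤ L ^ 3 * (1 / 2 * ((x : ℝ) / (q * L ^ K))) / L ^ 3 := by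
          apply div_le_div_of_nonneg_right _ (by positivity)
          exact mul_le_mul_of_nonneg_right c2 (by positivity)
      _ = _ := by
          rw [mul_comm, mul_div_assoc, div_self (by positivity), mul_one]
  linarith

open Pool.Agent.Work.MP_92f640_nt in
theorem level_N (c₀ V0 : ℝ) (hc : 0 < c₀) (hV0 : 0 ≤ V0) (hv : VLowN c₀ V0) (ε : ℝ) (hε : 0 < ε)
    (K : ℕ) : ∃ C : ℕ, ∀ A : ℕ, ∃ x₁ : ℝ, ∀ x : ℝ, x₁ ≤ x →
    ∃ B : Finset ℕ, (B.card : ℝ) ≤ (Real.log x) ^ C ∧ (∀ b ∈ B, (Real.log x) ^ A < (b : ℝ)) ∧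
      ∀ q : ℕ, 1 ≤ q → (q : ℝ) ≤ x ^ (10 / 11 - ε) → (∀ b ∈ B, ¬ b ∣ q) →
        ((exceptions (c₀ / 4) x q).card : ℝ) ≤ x / (q * (Real.log x) ^ K) := by
  classical
  obtain ⟨C, hC⟩ := main_natN c₀ V0 hc hV0 hv (ε / 2) (by linarith) (K + 1)
  refine ⟨C, fun A => ?_⟩
  obtain ⟨x₁, hx₁⟩ := hC (A + 1)
  have hev : ∀ᶠ X : ℕ in Filter.atTop, (2 : ℝ) ^ K ≤ (Real.log X) ^ 1 ∧
      (2 : ℝ) ^ A ≤ (Real.log X) ^ 1 ∧ 2 ≤ (X : ℝ) ^ (ε / 2) ∧ 3 ≤ X ∧ x₁ ≤ X := by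
    have h1 : ∀ᶠ X : ℕ in Filter.atTop, 2 ≤ (X : ℝ) ^ (ε / 2) :=
      ((tendsto_rpow_atTop (by linarith : (0 : ℝ) < ε / 2)).comp
        tendsto_natCast_atTop_atTop).eventually_ge_atTop _
    filter_upwards [ev_log_ge 1 le_rfl ((2 : ℝ) ^ K), ev_log_ge 1 le_rfl ((2 : ℝ) ^ A), h1,
      Filter.eventually_ge_atTop 3, Filter.eventually_ge_atTop x₁] with X a1 a2 a3 a4 a5
    exact ⟨a1, a2, a3, a4, a5⟩
  obtain ⟨X₀, hX₀⟩ := Filter.eventually_atTop.1 hev
  refine ⟨X₀ + 1, fun x hx => ?_⟩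
  have hx0 : (0 : ℝ) ≤ x := by
    have : (0 : ℝ) ≤ X₀ := Nat.cast_nonneg _
    linarith
  set X := ⌊x⌋₊ with hX
  have hXx : (X : ℝ) ≤ x := Nat.floor_le hx0
  have hxX : x < X + 1 := Nat.lt_floor_add_one x
  have hXX0 : X₀ ≤ X := by
    rw [hX, Nat.le_floor_iff hx0]
    linarith
  obtain ⟨a1, a2, a3, a4, a5⟩ := hX₀ X hXX0
  rw [pow_one] at a1 a2
  have hX3 : (3 : ℝ) ≤ X := by exact_mod_cast a4
  have hX0 : (0 : ℝ) < X := by linarith
  have hL1 := one_le_log a4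
  have hLx : Real.log X ≤ Real.log x := Real.log_le_log hX0 hXx
  have hLx2 : Real.log x ≤ 2 * Real.log X := by
    have h1 : x ≤ (X : ℝ) ^ 2 := by nlinarith
    calc Real.log x ≤ Real.log ((X : ℝ) ^ 2) := Real.log_le_log (by linarith) h1
      _ = 2 * Real.log X := by rw [Real.log_pow]; norm_num
  have hkey : ∀ k : ℕ, (2 : ℝ) ^ k ≤ Real.log X → (Real.log x) ^ k ≤ (Real.log X) ^ (k + 1) := by
    intro k hk
    calc (Real.log x) ^ k ≤ (2 * Real.log X) ^ k := pow_le_pow_left₀ (by linarith) hLx2 k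
      _ = 2 ^ k * (Real.log X) ^ k := by rw [mul_pow]
      _ ≤ Real.log X * (Real.log X) ^ k := mul_le_mul_of_nonneg_right hk (by positivity)
      _ = _ := by ring
  obtain ⟨B, hB1, hB2, hB3⟩ := hx₁ X a5
  refine ⟨B, hB1.trans (pow_le_pow_left₀ (by linarith) hLx C), fun b hb => ?_,
    fun q hq hqx hqB => ?_⟩
  · exact (hkey A a2).trans_lt (hB2 b hb)
  · have hq0 : (0 : ℝ) < q := by exact_mod_cast hq
    have hq1 : (1 : ℝ) ≤ q := by exact_mod_cast hq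
    have hqX : (q : ℝ) ≤ (X : ℝ) ^ (10 / 11 - ε / 2) := by
      rcases lt_or_ge (10 / 11 - ε) 0 with hneg | hpos
      · exfalso
        have : x ^ (10 / 11 - ε) < 1 := Real.rpow_lt_one_of_one_lt_of_neg (by linarith) hneg
        linarith
      · have h2X : x ≤ 2 * X := by linarith
        calc (q : ℝ) ≤ x ^ (10 / 11 - ε) := hqx
          _ ≤ (2 * X) ^ (10 / 11 - ε) := Real.rpow_le_rpow hx0 h2X hpos
          _ = 2 ^ (10 / 11 - ε) * (X : ℝ) ^ (10 / 11 - ε) := Real.mul_rpow (by norm_num) hX0.le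
          _ ≤ (X : ℝ) ^ (ε / 2) * (X : ℝ) ^ (10 / 11 - ε) := by
              apply mul_le_mul_of_nonneg_right _ (by positivity)
              refine le_trans ?_ a3
              calc (2 : ℝ) ^ (10 / 11 - ε) ≤ 2 ^ (1 : ℝ) :=
                    Real.rpow_le_rpow_of_exponent_le (by norm_num) (by linarith)
                _ = 2 := Real.rpow_one 2
          _ = (X : ℝ) ^ (10 / 11 - ε / 2) := by
              rw [← Real.rpow_add hX0]
              congr 1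
              ring
    have hmain := hB3 q hq hqX hqB
    have hsub : exceptions (c₀ / 4) x q ⊆ (Icc 1 X).filter (fun n => X < 2 * n ∧ Even n ∧ q ∣ n ∧
          Bad (c₀ / 4) n) := by
      intro n hn
      rw [mem_exceptions] at hn
      obtain ⟨⟨h1, h2⟩, h3, h4, h5, h6⟩ := hn
      rw [mem_filter, mem_Icc]
      refine ⟨⟨h1, h2⟩, ?_, h4, h5, h6⟩
      have : (X : ℝ) < 2 * n := by linarith
      exact_mod_cast this
    have hcard : ((exceptions (c₀ / 4) x q).card : ℝ) ≤ ((Icc 1 X).filter (fun n => X < 2 * n ∧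
        Even n ∧ q ∣ n ∧ Bad (c₀ / 4) n)).card := by
      exact_mod_cast card_le_card hsub
    refine hcard.trans (hmain.trans ?_)
    have hlx0 : 0 < (Real.log x) ^ K := by
      have : 0 < Real.log x := by linarith
      positivity
    apply div_le_div₀ hx0 hXx (by positivity)
    exact mul_le_mul_of_nonneg_left (hkey K a1) hq0.le

end Pool.Agent.HN
end

section
/-! # Module W.Fin -/

namespace Pool.Agent.HN

open Finset Pool.Agent.HS

theorem vlowN : VLowN (1 / 20) 4 := by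
  obtain ⟨x1, h1⟩ := cwN_wt
  obtain ⟨x2, h2⟩ := cwN_wte
  obtain ⟨x3, h3⟩ := minorN
  obtain ⟨x4, h4⟩ := KK_lowN
  obtain ⟨x5, h5⟩ := L1N_le
  obtain ⟨x6, h6⟩ := L2N_le
  obtain ⟨x7, h7⟩ := L3N_le
  obtain ⟨x8, h8⟩ := L4N_le
  refine ⟨x1 + x2 + x3 + x4 + x5 + x6 + x7 + x8, fun x hx => ⟨cwN x, EwN x, ?_⟩⟩
  refine ⟨h1 x (by omega), h2 x (by omega), h3 x (by omega), fun n hn1 hn2 => ?_⟩
  have a4 := h4 x (by omega) n hn1 hn2
  have a5 := h5 x (by omega)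
  have a6 := h6 x (by omega)
  have a7 := h7 x (by omega)
  have a8 := h8 x (by omega)
  linarith

end Pool.Agent.HN
end

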